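import Pool.Agent.DC.StmtsG

/-! Module DIMF: the dimension is invariant under extension of the base field. -/

set_option autoImplicit false

noncomputable section

namespace Pool.Agent.DC

open scoped TensorProduct
open Pool.Agent.LibDb3ab1

universe u

namespace DIMFX

/-- integral injective extensions have the same dimension -/
theorem dim_eq {A B : Type*} [CommRing A] [CommRing B] (f : A →+* B) (hf : f.IsIntegral)
    (hinj : Function.Injective f) : ringKrullDim A = ringKrullDim B := by
  letI : Algebra A B := f.toAlgebra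
  haveI : Algebra.IsIntegral A B := ⟨hf⟩
  have hker : RingHom.ker (algebraMap A B) = ⊥ := (RingHom.injective_iff_ker_eq_bot _).mp hinj
  apply le_antisymm
  · rw [ringKrullDim, Order.krullDim]
    apply iSup_le
    intro l
    obtain ⟨P, -, hP, hPl⟩ := Ideal.exists_ideal_over_prime_of_isIntegral
      (R := A) (S := B) l.head.asIdeal ⊥ (by
        change RingHom.ker (algebraMap A B) ≤ _
        rw [hker]; exact bot_le)
    haveI : P.LiesOver (RelSeries.head l).asIdeal := ⟨hPl.symm⟩
    obtain ⟨L, hL, -, -⟩ := Ideal.exists_ltSeries_of_hasGoingUp (R := A) (S := B) l P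
    rw [← hL]
    exact le_iSup (fun L : LTSeries (PrimeSpectrum B) => (L.length : WithBot ℕ∞)) L
  · apply Order.krullDim_le_of_strictMono (fun P => PrimeSpectrum.comap (algebraMap A B) P)
    intro P Q hPQ
    exact Ideal.IsIntegral.comap_lt_comap (R := A) (I := P.asIdeal) (J := Q.asIdeal) hPQ

/-- the isomorphism `C ⊗ K[x] ≃ C[x]` -/
def eqv (K C : Type u) [Field K] [Field C] [Algebra K C] (n : ℕ) :
    C ⊗[K] MvPolynomial (Fin n) K ≃+* MvPolynomial (Fin n) C :=
  (MvPolynomial.algebraTensorAlgEquiv (σ := Fin n) K C).toRingEquiv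

/-- the inclusion `P → C ⊗ P` -/
def incR (K C P : Type u) [Field K] [Field C] [Algebra K C] [CommRing P] [Algebra K P] :
    P →+* C ⊗[K] P :=
  (Algebra.TensorProduct.includeRight : P →ₐ[K] C ⊗[K] P).toRingHom

theorem eqv_incR (K C : Type u) [Field K] [Field C] [Algebra K C] (n : ℕ) :
    (eqv K C n).toRingHom.comp (incR K C (MvPolynomial (Fin n) K))
      = MvPolynomial.map (algebraMap K C) := by
  refine RingHom.ext fun x => ?_
  have h1 := MvPolynomial.algebraTensorAlgEquiv_tmul K C (σ := Fin n) 1 x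
  rw [one_smul] at h1
  exact h1

theorem map_ideal {K C : Type u} [Field K] [Field C] [Algebra K C] {n : ℕ}
    (I : Ideal (MvPolynomial (Fin n) K)) :
    I.map (MvPolynomial.map (algebraMap K C)) =
    (I.map (incR K C (MvPolynomial (Fin n) K))).map (eqv K C n).toRingHom := by
  rw [← eqv_incR, ← Ideal.map_map]

section
variable {K : Type u} (C : Type u) [Field K] [Field C] [Algebra K C] {P A : Type u}
  [CommRing P] [Algebra K P] [CommRing A] [Algebra K A] (q : P →ₐ[K] A)

/-- base change of `q` -/
def mkm : C ⊗[K] P →+* C ⊗[K] A :=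
  (Algebra.TensorProduct.map (AlgHom.id K C) q).toRingHom

theorem mkm_surj (hq : Function.Surjective q) : Function.Surjective (mkm C q) :=
  LinearMap.lTensor_surjective C (g := q.toLinearMap) hq

theorem mkm_inj (hq : Function.Injective q) : Function.Injective (mkm C q) :=
  Module.Flat.lTensor_preserves_injective_linearMap (M := C) q.toLinearMap hq

theorem mkm_ker (hq : Function.Surjective q) :
    RingHom.ker (mkm C q) = (RingHom.ker q).map (incR K C P) :=
  Algebra.TensorProduct.lTensor_ker (A := C) q hq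

theorem mkm_tmul (c : C) (x : P) : mkm C q (c ⊗ₜ[K] x) = c ⊗ₜ[K] q x :=
  Algebra.TensorProduct.map_tmul _ _ _ _

theorem mkm_incR : (mkm C q).comp (incR K C P) = (incR K C A).comp (q : P →+* A) :=
  RingHom.ext fun x => mkm_tmul C q 1 x

/-- base change of an integral homomorphism -/
theorem mkm_integral (hg : (q : P →+* A).IsIntegral) : (mkm C q).IsIntegral := by
  intro z
  induction z using TensorProduct.induction_on with
  | zero => exact (mkm C q).isIntegralElem_zero
  | add x y hx hy => exact hx.add (mkm C q) hy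
  | tmul c a =>
    have h1 : c ⊗ₜ[K] a = (c ⊗ₜ[K] (1 : A)) * ((1 : C) ⊗ₜ[K] a) := by
      rw [Algebra.TensorProduct.tmul_mul_tmul, mul_one, one_mul]
    rw [h1]
    refine RingHom.IsIntegralElem.mul (mkm C q) ?_ ?_
    · have h2 : c ⊗ₜ[K] (1 : A) = mkm C q (c ⊗ₜ[K] (1 : P)) := by
        rw [mkm_tmul, map_one]
      rw [h2]
      exact (mkm C q).isIntegralElem_map
    · obtain ⟨f, hf, hfa⟩ := hg a
      refine ⟨f.map (incR K C P), hf.map _, ?_⟩
      rw [Polynomial.eval₂_map, mkm_incR]
      have h4 := Polynomial.hom_eval₂ f (q : P →+* A) (incR K C A) a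
      have h5 : (incR K C A) a = (1 : C) ⊗ₜ[K] a := rfl
      rw [h5] at h4
      rw [← h4, hfa, map_zero]

end

theorem equiv {K : Type u} (C : Type u) [Field K] [Field C] [Algebra K C] {n : ℕ} {A : Type u}
    [CommRing A] [Algebra K A] (q : MvPolynomial (Fin n) K →ₐ[K] A) (hq : Function.Surjective q) :
    Nonempty ((MvPolynomial (Fin n) C ⧸ (RingHom.ker q).map (MvPolynomial.map (algebraMap K C))) ≃+*
      C ⊗[K] A) := by
  have h1 : (RingHom.ker q).map (MvPolynomial.map (algebraMap K C)) =
      (RingHom.ker (mkm C q)).map (eqv K C n).toRingHom := by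
    rw [mkm_ker C q hq, map_ideal]
  exact ⟨((Ideal.quotientEquiv (RingHom.ker (mkm C q))
    ((RingHom.ker q).map (MvPolynomial.map (algebraMap K C)))
    (eqv K C n) h1).symm).trans (RingHom.quotientKerEquivOfSurjective (mkm_surj C q hq))⟩

theorem dim_tensor {K : Type u} (C : Type u) [Field K] [Field C] [Algebra K C] {A : Type u}
    [CommRing A] [Algebra K A] {s : ℕ} (g : MvPolynomial (Fin s) K →ₐ[K] A)
    (hg : Function.Injective g) (hgi : (g : MvPolynomial (Fin s) K →+* A).IsIntegral) :
    ringKrullDim (C ⊗[K] A) = ringKrullDim A := by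
  have d1 := dim_eq (mkm C g) (mkm_integral C g hgi) (mkm_inj C g hg)
  have d2 := dim_eq (g : MvPolynomial (Fin s) K →+* A) hgi hg
  rw [← d1, ← d2, ringKrullDim_eq_of_ringEquiv (eqv K C s),
    MvPolynomial.ringKrullDim_of_isNoetherianRing, MvPolynomial.ringKrullDim_of_isNoetherianRing,
    ringKrullDim_eq_zero_of_field, ringKrullDim_eq_zero_of_field]

theorem main {K : Type u} (C : Type u) [Field K] [Field C] [Algebra K C] (n : ℕ)
    (I : Ideal (MvPolynomial (Fin n) K)) :
    ringKrullDim (MvPolynomial (Fin n) C ⧸ I.map (MvPolynomial.map (algebraMap K C))) =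
      ringKrullDim (MvPolynomial (Fin n) K ⧸ I) := by
  by_cases hI : I = ⊤
  · subst hI
    rw [Ideal.map_top]
    haveI : Subsingleton (MvPolynomial (Fin n) K ⧸ (⊤ : Ideal (MvPolynomial (Fin n) K))) :=
      Ideal.Quotient.subsingleton_iff.2 rfl
    haveI : Subsingleton (MvPolynomial (Fin n) C ⧸ (⊤ : Ideal (MvPolynomial (Fin n) C))) :=
      Ideal.Quotient.subsingleton_iff.2 rfl
    rw [ringKrullDim_eq_bot_of_subsingleton, ringKrullDim_eq_bot_of_subsingleton]
  · obtain ⟨s, -, g, hg, hgi⟩ := exists_integral_inj_algHom_of_quotient I hI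
    have hker : RingHom.ker (Ideal.Quotient.mkₐ K I) = I := by
      ext x
      rw [RingHom.mem_ker]
      exact Ideal.Quotient.eq_zero_iff_mem
    obtain ⟨e⟩ := equiv C (Ideal.Quotient.mkₐ K I) Ideal.Quotient.mk_surjective
    rw [hker] at e
    rw [ringKrullDim_eq_of_ringEquiv e]
    exact dim_tensor C g hg hgi

end DIMFX

theorem dimf_proof : Stmt_Dimf.{u} := by
  intro K C _ _ ι n I
  letI : Algebra K C := ι.toAlgebra
  exact DIMFX.main C n I

end Pool.Agent.DC
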