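import Pool.Agent.LibDb3ab1.Defs

/-!
# Homogeneous ideals and extension of the base field; bounds for dimensions
-/

set_option autoImplicit false

noncomputable section

namespace Pool.Agent.DC

open scoped Classical

universe u

/-- The extension of a homogeneous ideal is homogeneous. -/
theorem hom_map {A B : Type u} [CommRing A] [CommRing B] (ι : A →+* B) {n : ℕ}
    (I : Ideal (MvPolynomial (Fin (n + 1)) A))
    (hI : ∀ F ∈ I, ∀ m, MvPolynomial.homogeneousComponent m F ∈ I) :
    ∀ F ∈ I.map (MvPolynomial.map ι), ∀ m,
      MvPolynomial.homogeneousComponent m F ∈ I.map (MvPolynomial.map ι) := by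
  have key : ∀ (G : MvPolynomial (Fin (n + 1)) B) (F : MvPolynomial (Fin (n + 1)) A), F ∈ I →
      ∀ m, MvPolynomial.homogeneousComponent m (G * MvPolynomial.map ι F) ∈
        I.map (MvPolynomial.map ι) := by
    intro G F hF m
    have h1 : G * MvPolynomial.map ι F = ∑ i ∈ Finset.range (G.totalDegree + 1),
        ∑ j ∈ Finset.range (F.totalDegree + 1), MvPolynomial.homogeneousComponent i G *
          MvPolynomial.map ι (MvPolynomial.homogeneousComponent j F) := by
      conv_lhs => rw [← MvPolynomial.sum_homogeneousComponent G,
        ← MvPolynomial.sum_homogeneousComponent F]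
      rw [map_sum, Finset.sum_mul_sum]
    rw [h1, map_sum]
    refine Ideal.sum_mem _ fun i _ => ?_
    rw [map_sum]
    refine Ideal.sum_mem _ fun j _ => ?_
    have h2 : (MvPolynomial.homogeneousComponent i G *
        MvPolynomial.map ι (MvPolynomial.homogeneousComponent j F)).IsHomogeneous (i + j) :=
      (MvPolynomial.homogeneousComponent_isHomogeneous i G).mul
        ((MvPolynomial.homogeneousComponent_isHomogeneous j F).map ι)
    rw [MvPolynomial.homogeneousComponent_of_mem h2]
    split_ifs
    · exact Ideal.mul_mem_left _ _ (Ideal.mem_map_of_mem _ (hI F hF j))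
    · exact Ideal.zero_mem _
  intro F hF m
  induction hF using Submodule.span_induction with
  | mem x hx =>
    obtain ⟨y, hy, rfl⟩ := hx
    have := key 1 y hy m
    rwa [one_mul] at this
  | zero => rw [map_zero]; exact Ideal.zero_mem _
  | add x y _ _ hx hy => rw [map_add]; exact Ideal.add_mem _ hx hy
  | smul a x hx _ =>
    rw [smul_eq_mul]
    -- write `x` as a combination
    have h3 : ∀ x ∈ I.map (MvPolynomial.map ι), ∀ a : MvPolynomial (Fin (n + 1)) B,
        MvPolynomial.homogeneousComponent m (a * x) ∈ I.map (MvPolynomial.map ι) := by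
      intro x hx
      induction hx using Submodule.span_induction with
      | mem x hx =>
        obtain ⟨y, hy, rfl⟩ := hx
        intro a
        exact key a y hy m
      | zero => intro a; rw [mul_zero, map_zero]; exact Ideal.zero_mem _
      | add x y _ _ hx hy =>
        intro a
        rw [mul_add, map_add]
        exact Ideal.add_mem _ (hx a) (hy a)
      | smul b x _ hx =>
        intro a
        rw [smul_eq_mul, ← mul_assoc]
        exact hx _
    exact h3 x hx a

theorem dim_le {k : Type u} [Field k] {n d : ℕ} (I : Ideal (MvPolynomial (Fin (n + 1)) k))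
    (hdim : ringKrullDim (MvPolynomial (Fin (n + 1)) k ⧸ I) = (d + 1 : ℕ)) : d ≤ n := by
  have h1 := ringKrullDim_quotient_le I
  rw [hdim, MvPolynomial.ringKrullDim_of_isNoetherianRing, ringKrullDim_eq_zero_of_field,
    zero_add, Nat.card_eq_fintype_card, Fintype.card_fin] at h1
  have h2 : d + 1 ≤ n + 1 := by exact_mod_cast h1
  omega

end Pool.Agent.DC
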