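import Pool.Agent.DC.StmtsE

/-!
# Module HOMEXT
-/

set_option autoImplicit false

noncomputable section

namespace Pool.Agent.DC

theorem homext_proof : Stmt_HomExt := by
  intro R S Ω _ _ _ _ i hi hint φ
  letI : Algebra R S := i.toAlgebra
  haveI : Algebra.IsIntegral R S := ⟨fun x => hint x⟩
  have hP : (RingHom.ker φ).IsPrime := RingHom.ker_isPrime φ
  obtain ⟨Q, -, hQ, hQP⟩ := Ideal.exists_ideal_over_prime_of_isIntegral (RingHom.ker φ)
    (⊥ : Ideal S) (by
      intro x hx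
      rw [Ideal.mem_comap, Ideal.mem_bot] at hx
      have : x = 0 := hi (by rw [map_zero]; exact hx)
      rw [this]; exact Ideal.zero_mem _)
  letI a1 : Algebra (R ⧸ RingHom.ker φ) (S ⧸ Q) :=
    (Ideal.quotientMap Q (algebraMap R S) hQP.ge).toAlgebra
  have inj1 : Function.Injective (algebraMap (R ⧸ RingHom.ker φ) (S ⧸ Q)) :=
    Ideal.quotientMap_injective' (hQP.le)
  letI a2 : Algebra (R ⧸ RingHom.ker φ) Ω := (RingHom.kerLift φ).toAlgebra
  have inj2 : Function.Injective (algebraMap (R ⧸ RingHom.ker φ) Ω) := RingHom.kerLift_injective φ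
  haveI : FaithfulSMul (R ⧸ RingHom.ker φ) (S ⧸ Q) :=
    (faithfulSMul_iff_algebraMap_injective _ _).2 inj1
  haveI : FaithfulSMul (R ⧸ RingHom.ker φ) Ω :=
    (faithfulSMul_iff_algebraMap_injective _ _).2 inj2
  haveI : Algebra.IsIntegral (R ⧸ RingHom.ker φ) (S ⧸ Q) := by
    refine ⟨fun x => ?_⟩
    obtain ⟨y, rfl⟩ := Ideal.Quotient.mk_surjective x
    obtain ⟨f, hf, hy⟩ := hint y
    refine ⟨f.map (Ideal.Quotient.mk _), hf.map _, ?_⟩
    rw [Polynomial.eval₂_map]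
    have e : (algebraMap (R ⧸ RingHom.ker φ) (S ⧸ Q)).comp (Ideal.Quotient.mk (RingHom.ker φ)) =
        (Ideal.Quotient.mk Q).comp i := by
      ext r
      rfl
    rw [e, ← Polynomial.hom_eval₂, hy, map_zero]
  let L : (S ⧸ Q) →ₐ[R ⧸ RingHom.ker φ] Ω := IsAlgClosed.lift
  refine ⟨L.toRingHom.comp (Ideal.Quotient.mk Q), ?_⟩
  ext r
  have h1 : Ideal.Quotient.mk Q (i r) =
      algebraMap (R ⧸ RingHom.ker φ) (S ⧸ Q) (Ideal.Quotient.mk _ r) := rfl
  have h2 := L.commutes (Ideal.Quotient.mk _ r)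
  show L (Ideal.Quotient.mk Q (i r)) = φ r
  rw [h1, h2]
  exact RingHom.kerLift_mk φ r

end Pool.Agent.DC
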