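import Pool.Agent.DC.StmtsB
import Pool.Agent.LibDb3ab1.Assembly

/-!
# Module PUX: the elements used to define the norms are pseudo-uniformisers
-/

set_option autoImplicit false
set_option linter.unusedSectionVars false

noncomputable section

namespace Pool.Agent.DC

open Pool.Agent.LibDb3ab1

universe u

namespace PUX

section general

variable {V : Type u} [CommRing V] [IsDomain V] [ValuationRing V] {p : ℕ} [Fact p.Prime]
  [Fact ¬IsUnit (p : V)] [IsAdicComplete (Ideal.span {(p : V)}) V]

theorem pu_p (hp : (p : V) ≠ 0) : PU (p : V) where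
  ne_zero := hp
  not_unit := Fact.out
  cof x hx := exists_dvd_pow x hx

theorem pu_tilt (hp : (p : V) ≠ 0) {ϖ : PreTilt V p} {u : V} (hu : IsUnit u)
    (hϖ : (p : V) = u * PreTilt.untilt ϖ) : PU ϖ where
  ne_zero := by
    rintro rfl
    apply hp
    rw [hϖ, untilt_zero, mul_zero]
  not_unit := by
    intro h
    apply (Fact.out : ¬IsUnit (p : V))
    rw [hϖ]
    exact hu.mul (isUnit_untilt.mpr h)
  cof x hx := by
    have hx' : PreTilt.untilt x ≠ 0 := fun h => hx (eq_zero_of_untilt h)
    obtain ⟨j, hj⟩ := exists_dvd_pow (p := p) (PreTilt.untilt x) hx'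
    refine ⟨j, ?_⟩
    rw [← untilt_dvd_iff, map_pow]
    rw [hϖ, mul_pow] at hj
    exact ((hu.pow j).dvd_mul_left).mp hj

end general

end PUX

theorem pux_proof {K : Type u} [Field K] (O : ValuationSubring K) (p : ℕ) [Fact p.Prime]
    [Fact ¬IsUnit (p : O)] [IsAdicComplete (Ideal.span {(p : O)}) O] (b : TB O p) :
    Stmt_PUX O p b := by
  have hpO : (p : O) ≠ 0 := by
    intro h
    apply b.hp0
    have := congrArg (fun x : O => (x : K)) h
    simpa using this
  refine ⟨PUX.pu_tilt hpO b.hu b.hϖ, ?_⟩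
  intro C _ ι V hV _ _
  have hpV : (p : V) ≠ 0 := by
    intro h
    apply b.hp0
    have h1 := congrArg (fun x : V => (x : C)) h
    have h2 : (p : C) = 0 := by simpa using h1
    apply ι.injective
    rw [map_natCast, h2, map_zero]
  refine ⟨PUX.pu_p hpV, ?_⟩
  apply PUX.pu_tilt hpV (u := hV.incl b.u) (b.hu.map _)
  rw [TB.ϖV, untilt_tmap, ← map_mul, ← b.hϖ, map_natCast]

end Pool.Agent.DC
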