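import Pool.Agent.DC.StmtsG
import Pool.Agent.DC.PUX

/-!
# Module CLA: the limits of the algebraic elements in the tilt
-/

set_option autoImplicit false
set_option linter.unusedSectionVars false

noncomputable section

namespace Pool.Agent.DC

open scoped Classical
open Polynomial
open Pool.Agent.LibDb3ab1

universe u

namespace CLAX

section alg

variable {T : Type u} [CommRing T] [IsDomain T] [ValuationRing T]

theorem dvd_total (a b : T) : a ∣ b ∨ b ∣ a := ValuationRing.dvd_total a b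

/-- Pigeonhole principle for the factors of a product. -/
theorem exists_dvd_of_pow_dvd {q : T} (hq : q ≠ 0) (s : Multiset T) (hs : s ≠ 0)
    (h : q ^ Multiset.card s ∣ s.prod) : ∃ z ∈ s, q ∣ z := by
  induction s using Multiset.induction_on with
  | empty => exact absurd rfl hs
  | cons z t ih =>
    rcases dvd_total q z with h1 | ⟨c, hc⟩
    · exact ⟨z, Multiset.mem_cons_self z t, h1⟩
    · rw [Multiset.card_cons, Multiset.prod_cons, pow_succ'] at h
      have hz : z ≠ 0 := by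
        rintro rfl
        rw [zero_mul] at hc
        exact hq hc
      by_cases ht : t = 0
      · subst ht
        rw [Multiset.card_zero, Multiset.prod_zero, pow_zero, mul_one, mul_one] at h
        exact ⟨z, Multiset.mem_cons_self z _, h⟩
      · have h2 : q ^ Multiset.card t ∣ t.prod := by
          have h3 : z * (c * q ^ Multiset.card t) ∣ z * t.prod := by
            rw [← mul_assoc, ← hc]
            exact h
          exact (Dvd.intro_left _ rfl).trans ((mul_dvd_mul_iff_left hz).mp h3)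
        obtain ⟨w, hw, hw2⟩ := ih ht h2
        exact ⟨w, Multiset.mem_cons_of_mem hw, hw2⟩

/-- Monic polynomials split if they have roots. -/
theorem exists_splitting (hroot : ∀ P : T[X], P.Monic → P.natDegree ≠ 0 → ∃ x, P.eval x = 0) :
    ∀ (m : ℕ) (P : T[X]), P.Monic → P.natDegree = m → ∃ s : Multiset T, Multiset.card s = m ∧
      P = (s.map fun r => X - C r).prod := by
  intro m
  induction m with
  | zero =>
    intro P hP hd
    exact ⟨0, rfl, by rw [hP.natDegree_eq_zero.mp hd]; rfl⟩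
  | succ m ih =>
    intro P hP hd
    obtain ⟨r, hr⟩ := hroot P hP (by rw [hd]; exact Nat.succ_ne_zero m)
    obtain ⟨Q, hQ⟩ := dvd_iff_isRoot.mpr hr
    have hQm : Q.Monic := (monic_X_sub_C r).of_mul_monic_left (by rw [← hQ]; exact hP)
    have hQd : Q.natDegree = m := by
      have h1 : P.natDegree = 1 + Q.natDegree := by
        conv_lhs => rw [hQ]
        rw [(monic_X_sub_C r).natDegree_mul hQm, natDegree_X_sub_C]
      omega
    obtain ⟨s, hs, hs2⟩ := ih Q hQm hQd
    refine ⟨r ::ₘ s, by rw [Multiset.card_cons, hs], ?_⟩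
    rw [Multiset.map_cons, Multiset.prod_cons, ← hs2, ← hQ]

variable {R : Type u} [CommRing R] [IsDomain R] [Algebra R T]

variable (R) in
/-- The limits of the algebraic elements. -/
def Lim (π : T) : Subring T where
  carrier := {y | ∀ N : ℕ, ∃ a : T, IsAlgebraic R a ∧ π ^ N ∣ y - a}
  zero_mem' N := ⟨0, isAlgebraic_zero, by rw [sub_zero]; exact dvd_zero _⟩
  one_mem' N := ⟨1, isAlgebraic_one, by rw [sub_self]; exact dvd_zero _⟩
  add_mem' := by
    intro x y hx hy N
    obtain ⟨a, ha, ha2⟩ := hx N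
    obtain ⟨c, hc, hc2⟩ := hy N
    refine ⟨a + c, ha.add hc, ?_⟩
    rw [add_sub_add_comm]
    exact dvd_add ha2 hc2
  mul_mem' := by
    intro x y hx hy N
    obtain ⟨a, ha, ha2⟩ := hx N
    obtain ⟨c, hc, hc2⟩ := hy N
    refine ⟨a * c, ha.mul hc, ?_⟩
    have h1 : x * y - a * c = (x - a) * y + a * (y - c) := by ring
    rw [h1]
    exact dvd_add (ha2.mul_right _) (hc2.mul_left _)
  neg_mem' := by
    intro x hx N
    obtain ⟨a, ha, ha2⟩ := hx N
    refine ⟨-a, ha.neg, ?_⟩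
    have h1 : -x - -a = -(x - a) := by ring
    rw [h1]
    exact (dvd_neg).mpr ha2

theorem mem_Lim {π y : T} : y ∈ Lim R π ↔ ∀ N : ℕ, ∃ a : T, IsAlgebraic R a ∧ π ^ N ∣ y - a :=
  Iff.rfl

theorem alg_mem_Lim {π a : T} (ha : IsAlgebraic R a) : a ∈ Lim R π :=
  fun _ => ⟨a, ha, by rw [sub_self]; exact dvd_zero _⟩

theorem Lim_closed {π y : T} (h : ∀ N : ℕ, ∃ a ∈ Lim R π, π ^ N ∣ y - a) : y ∈ Lim R π := by
  intro N
  obtain ⟨a, ha, ha2⟩ := h N
  obtain ⟨c, hc, hc2⟩ := ha N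
  refine ⟨c, hc, ?_⟩
  have h1 : y - c = (y - a) + (a - c) := by ring
  rw [h1]
  exact dvd_add ha2 hc2

/-- Any root of a monic polynomial over `Lim` is in `Lim`. -/
theorem Lim_root {π : T} (hπ : π ≠ 0)
    (hroot : ∀ P : T[X], P.Monic → P.natDegree ≠ 0 → ∃ x, P.eval x = 0)
    (f : T[X]) (hf : f.Monic) (hd : 0 < f.natDegree) (hc : ∀ i, f.coeff i ∈ Lim R π) {y : T}
    (hy : f.eval y = 0) : y ∈ Lim R π := by
  intro N
  set m := f.natDegree with hm
  choose a ha ha2 using fun i => hc i (N * m)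
  let A := Subalgebra.algebraicClosure R T
  let F : A[X] := X ^ m + ∑ i ∈ Finset.range m, C (⟨a i, ha i⟩ : A) * X ^ i
  have hFm : F.Monic := by
    apply monic_X_pow_add
    refine (degree_sum_le _ _).trans_lt ?_
    rw [Finset.sup_lt_iff (by exact WithBot.bot_lt_coe m)]
    intro i hi
    refine (degree_C_mul_X_pow_le i _).trans_lt ?_
    exact_mod_cast Finset.mem_range.mp hi
  have hFd : F.natDegree = m := by
    apply natDegree_eq_of_degree_eq_some
    apply degree_add_eq_left_of_degree_lt _ |>.trans (degree_X_pow m)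
    rw [degree_X_pow]
    refine (degree_sum_le _ _).trans_lt ?_
    rw [Finset.sup_lt_iff (by exact WithBot.bot_lt_coe m)]
    intro i hi
    refine (degree_C_mul_X_pow_le i _).trans_lt ?_
    exact_mod_cast Finset.mem_range.mp hi
  set G : T[X] := F.map (algebraMap A T) with hG
  have hGm : G.Monic := hFm.map _
  have hGd : G.natDegree = m := by rw [hG, hFm.natDegree_map, hFd]
  obtain ⟨s, hs, hs2⟩ := exists_splitting hroot m G hGm hGd
  have hev : G.eval y = (s.map fun r => y - r).prod := by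
    rw [hs2, eval_multiset_prod, Multiset.map_map]
    congr 1
    apply Multiset.map_congr rfl
    intro r _
    simp
  have hdiff : π ^ (N * m) ∣ G.eval y := by
    have h1 : G.eval y = G.eval y - f.eval y := by rw [hy, sub_zero]
    have h2 : f.eval y = y ^ m + ∑ i ∈ Finset.range m, f.coeff i * y ^ i := by
      conv_lhs => rw [hf.as_sum]
      simp [eval_finsetSum, ← hm]
    have h3 : G.eval y = y ^ m + ∑ i ∈ Finset.range m, a i * y ^ i := by
      rw [hG, eval_map]
      simp only [F, eval₂_add, eval₂_X_pow, eval₂_finsetSum, eval₂_mul, eval₂_C]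
      rfl
    rw [h1, h2, h3, add_sub_add_left_eq_sub, ← Finset.sum_sub_distrib]
    apply Finset.dvd_sum
    intro i _
    rw [← sub_mul]
    apply Dvd.dvd.mul_right
    rw [← neg_sub]
    exact (dvd_neg).mpr (ha2 i)
  rw [hev, pow_mul, ← hs] at hdiff
  have h4 : Multiset.card (s.map fun r => y - r) = Multiset.card s := Multiset.card_map _ _
  rw [← h4] at hdiff
  have hs0 : (s.map fun r => y - r) ≠ 0 := by
    intro h
    rw [h, Multiset.card_zero] at h4
    omega
  obtain ⟨z, hz, hz2⟩ := exists_dvd_of_pow_dvd (pow_ne_zero N hπ) _ hs0 hdiff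
  rw [Multiset.mem_map] at hz
  obtain ⟨r, hr, rfl⟩ := hz
  refine ⟨r, ?_, hz2⟩
  have h5 : G.eval r = 0 := by
    rw [hs2, eval_multiset_prod]
    apply Multiset.prod_eq_zero
    rw [Multiset.mem_map]
    refine ⟨X - C r, Multiset.mem_map_of_mem _ hr, by simp⟩
  have h6 : IsIntegral A r := ⟨F, hFm, by rw [← eval_map]; exact h5⟩
  exact h6.isAlgebraic.restrictScalars R

theorem Lim_div {π : T} (hπ : PU π) {x y : T} (hx : x ∈ Lim R π) (hx0 : x ≠ 0)
    (hxy : x * y ∈ Lim R π) : y ∈ Lim R π := by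
  intro N
  obtain ⟨M, e, he⟩ := hπ.cof x hx0
  obtain ⟨a, ha, a', ha'⟩ := hx (M + (N + 1))
  obtain ⟨c, hc, c', hc'⟩ := hxy (M + (N + 1))
  rw [pow_add, he] at ha' hc'
  have hnu : e * π ^ (N + 1) * a' ∈ nonunits T := by
    intro hu
    rw [IsUnit.mul_iff, IsUnit.mul_iff, isUnit_pow_iff (Nat.succ_ne_zero N)] at hu
    exact hπ.not_unit hu.1.2
  obtain ⟨w, hw⟩ := IsLocalRing.isUnit_one_sub_self_of_mem_nonunits _ hnu
  have haw : a = x * w := by
    rw [hw]
    linear_combination -ha'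
  have hcw : c = x * (y - e * π ^ (N + 1) * c') := by linear_combination -hc'
  have ha0 : a ≠ 0 := by
    rw [haw]
    exact mul_ne_zero hx0 w.ne_zero
  have hww : (w : T) * ((w⁻¹ : Tˣ) : T) = 1 := w.mul_inv
  refine ⟨(y - e * π ^ (N + 1) * c') * ((w⁻¹ : Tˣ) : T), ?_, ?_⟩
  · apply IsAlgebraic.of_mul (mem_nonZeroDivisors_of_ne_zero ha0) ha
    have h1 : a * ((y - e * π ^ (N + 1) * c') * ((w⁻¹ : Tˣ) : T)) = c := by
      rw [haw, hcw]
      linear_combination x * (y - e * π ^ (N + 1) * c') * hww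
    rw [h1]
    exact hc
  · refine ⟨(e * π * c' - y * e * π * a') * ((w⁻¹ : Tˣ) : T), ?_⟩
    linear_combination -y * hww + y * ((w⁻¹ : Tˣ) : T) * hw

/-- Minimal valuation. -/
theorem exists_min {ι : Type} (t : ι → T) (s : Finset ι) (hs : s.Nonempty) :
    ∃ i ∈ s, ∀ j ∈ s, t i ∣ t j := by
  induction hs using Finset.Nonempty.cons_induction with
  | singleton a =>
    exact ⟨a, Finset.mem_singleton_self a, fun j hj => by rw [Finset.mem_singleton.mp hj]⟩
  | cons a s has hs ih =>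
    obtain ⟨i, hi, hi2⟩ := ih
    rcases dvd_total (t a) (t i) with h | h
    · refine ⟨a, Finset.mem_cons_self a s, fun j hj => ?_⟩
      rcases Finset.mem_cons.mp hj with rfl | hj
      · exact dvd_rfl
      · exact h.trans (hi2 j hj)
    · refine ⟨i, Finset.mem_cons.mpr (Or.inr hi), fun j hj => ?_⟩
      rcases Finset.mem_cons.mp hj with rfl | hj
      · exact h
      · exact hi2 j hj

/-- Two terms of a vanishing sum have the same valuation. -/
theorem exists_assoc {ι : Type} (t : ι → T) (s : Finset ι) (hs : s.Nonempty)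
    (h0 : ∀ i ∈ s, t i ≠ 0) (hsum : ∑ i ∈ s, t i = 0) :
    ∃ i ∈ s, ∃ j ∈ s, i ≠ j ∧ ∃ w : T, IsUnit w ∧ t j = t i * w := by
  obtain ⟨i, hi, hi2⟩ := exists_min t s hs
  have h1 : ∀ j, ∃ q : T, j ∈ s → t j = t i * q := by
    intro j
    by_cases hj : j ∈ s
    · obtain ⟨q, hq⟩ := hi2 j hj
      exact ⟨q, fun _ => hq⟩
    · exact ⟨0, fun h => absurd h hj⟩
  choose q hq using h1
  by_contra hcon
  push Not at hcon
  have hqi : q i = 1 := by
    have h2 := hq i hi
    have h3 : t i * 1 = t i * q i := by rw [mul_one]; exact h2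
    exact (mul_left_cancel₀ (h0 i hi) h3).symm
  have h2 : ∑ j ∈ s, q j = 0 := by
    have h3 : t i * ∑ j ∈ s, q j = 0 := by
      rw [Finset.mul_sum, ← hsum]
      exact Finset.sum_congr rfl fun j hj => (hq j hj).symm
    exact (mul_eq_zero.mp h3).resolve_left (h0 i hi)
  rw [← Finset.add_sum_erase s q hi, hqi] at h2
  have h3 : ∑ j ∈ s.erase i, q j ∈ IsLocalRing.maximalIdeal T := by
    apply Ideal.sum_mem
    intro j hj
    rw [IsLocalRing.mem_maximalIdeal]
    intro hu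
    exact hcon i hi j (Finset.mem_of_mem_erase hj) (Finset.ne_of_mem_erase hj).symm (q j) hu
      (hq j (Finset.mem_of_mem_erase hj))
  have h4 : ∑ j ∈ s.erase i, q j = -1 := by linear_combination h2
  rw [h4, IsLocalRing.mem_maximalIdeal] at h3
  exact h3 isUnit_one.neg

section rank

variable (hdiv : ∀ x y : R, algebraMap R T x ∣ algebraMap R T y → x ∣ y) {ϖ : R}
  (hrank : ∀ x : R, ¬IsUnit x → ∃ n : ℕ, ϖ ∣ x ^ n)

include hdiv hrank in
theorem rank_aux {a : T} (ha0 : a ≠ 0) (hau : ¬IsUnit a) {c c' : R}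
    (hc' : algebraMap R T c' ≠ 0) {i j : ℕ} (hij : i < j) {w : T} (hw : IsUnit w)
    (h : algebraMap R T c * a ^ i = w * (algebraMap R T c' * a ^ j)) :
    ∃ k : ℕ, algebraMap R T ϖ ∣ a ^ k := by
  obtain ⟨m, rfl⟩ := Nat.exists_eq_add_of_lt hij
  have h1 : algebraMap R T c = algebraMap R T c' * (w * a ^ (m + 1)) := by
    apply mul_right_cancel₀ (pow_ne_zero i ha0)
    rw [h]
    ring
  obtain ⟨d, hd⟩ := hdiv c' c ⟨_, h1⟩
  have h2 : algebraMap R T d = w * a ^ (m + 1) := by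
    apply mul_left_cancel₀ hc'
    rw [← h1, hd, map_mul]
  have h3 : ¬IsUnit d := by
    intro hu
    have h4 : IsUnit (algebraMap R T d) := hu.map _
    rw [h2, IsUnit.mul_iff, isUnit_pow_iff (Nat.succ_ne_zero m)] at h4
    exact hau h4.2
  obtain ⟨n, hn⟩ := hrank d h3
  refine ⟨(m + 1) * n, ?_⟩
  have h5 := map_dvd (algebraMap R T) hn
  rw [map_pow, h2, mul_pow, ← pow_mul] at h5
  exact ((hw.pow n).dvd_mul_left).mp h5

include hdiv hrank in
theorem rank_alg (hinj : Function.Injective (algebraMap R T)) {a : T} (ha : IsAlgebraic R a)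
    (hau : ¬IsUnit a) : ∃ k : ℕ, algebraMap R T ϖ ∣ a ^ k := by
  by_cases ha0 : a = 0
  · exact ⟨1, by rw [ha0, pow_one]; exact dvd_zero _⟩
  obtain ⟨f, hf0, hf⟩ := ha
  have hne : ∀ i ∈ f.support, algebraMap R T (f.coeff i) ≠ 0 := by
    intro i hi h
    exact (mem_support_iff.mp hi) (hinj (by rw [h, map_zero]))
  obtain ⟨i, hi, j, hj, hij, w, hw, h⟩ := exists_assoc
    (fun i => algebraMap R T (f.coeff i) * a ^ i) f.support (support_nonempty.mpr hf0)
    (fun i hi => mul_ne_zero (hne i hi) (pow_ne_zero _ ha0)) (by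
      rw [← hf, aeval_def, eval₂_eq_sum]
      rfl)
  rcases lt_or_gt_of_ne hij with hlt | hlt
  · obtain ⟨w, rfl⟩ := hw
    apply rank_aux hdiv hrank ha0 hau (hne j hj) hlt (w := ((w⁻¹ : Tˣ) : T)) (Units.isUnit _)
    rw [h]
    have hww : ((w⁻¹ : Tˣ) : T) * (w : T) = 1 := w.inv_mul
    linear_combination -(algebraMap R T (f.coeff i) * a ^ i) * hww
  · apply rank_aux hdiv hrank ha0 hau (hne i hi) hlt hw
    rw [h]
    ring

include hdiv hrank in
theorem Lim_rank (hinj : Function.Injective (algebraMap R T))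
    (hϖ : ¬IsUnit (algebraMap R T ϖ)) {x : T} (hx : x ∈ Lim R (algebraMap R T ϖ))
    (hxu : ¬IsUnit x) : ∃ k : ℕ, algebraMap R T ϖ ∣ x ^ k := by
  obtain ⟨a, ha, e, he⟩ := hx 1
  rw [pow_one] at he
  have hau : ¬IsUnit a := by
    have h1 : a ∈ IsLocalRing.maximalIdeal T := by
      have h2 : a = x - algebraMap R T ϖ * e := by linear_combination -he
      rw [h2]
      apply Ideal.sub_mem
      · exact (IsLocalRing.mem_maximalIdeal _).mpr hxu
      · exact Ideal.mul_mem_right _ _ ((IsLocalRing.mem_maximalIdeal _).mpr hϖ)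
    exact (IsLocalRing.mem_maximalIdeal _).mp h1
  obtain ⟨k, hk⟩ := rank_alg hdiv hrank hinj ha hau
  refine ⟨k, ?_⟩
  have h3 : algebraMap R T ϖ ∣ x ^ k - a ^ k := by
    refine Dvd.dvd.trans ?_ (sub_dvd_pow_sub_pow x a k)
    rw [he]
    exact Dvd.intro _ rfl
  have h4 : x ^ k = (x ^ k - a ^ k) + a ^ k := by ring
  rw [h4]
  exact dvd_add h3 hk

end rank

end alg

/-- The main statement, for a ring homomorphism. -/
theorem main {R T : Type u} [CommRing R] [IsDomain R] [CommRing T] [IsDomain T] [ValuationRing T]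
    (φ : R →+* T) (hinj : Function.Injective φ)
    (hdiv : ∀ x y : R, φ x ∣ φ y → x ∣ y) {ϖ : R}
    (hrank : ∀ x : R, ¬IsUnit x → ∃ n : ℕ, ϖ ∣ x ^ n) (hπ : PU (φ ϖ))
    (hroot : ∀ P : T[X], P.Monic → P.natDegree ≠ 0 → ∃ x, P.eval x = 0) :
    ∃ L : Subring T, (∀ x : R, φ x ∈ L) ∧
      (∀ y : T, (∀ N : ℕ, ∃ a ∈ L, φ ϖ ^ N ∣ y - a) → y ∈ L) ∧
      (∀ f : T[X], f.Monic → 0 < f.natDegree → (∀ i, f.coeff i ∈ L) →
        ∃ y ∈ L, f.eval y = 0) ∧
      (∀ x y : T, x ∈ L → x ≠ 0 → x * y ∈ L → y ∈ L) ∧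
      (∀ y ∈ L, ∀ N : ℕ, ∃ a ∈ L, (∃ f : R[X], f ≠ 0 ∧ f.eval₂ φ a = 0) ∧ φ ϖ ^ N ∣ y - a) ∧
      ∀ x ∈ L, ¬IsUnit x → ∃ k : ℕ, φ ϖ ∣ x ^ k := by
  let _ : Algebra R T := φ.toAlgebra
  refine ⟨Lim R (φ ϖ), ?_, ?_, ?_, ?_, ?_, ?_⟩
  · intro x
    exact alg_mem_Lim (R := R) (isAlgebraic_algebraMap x)
  · intro y hy
    exact Lim_closed hy
  · intro f hf hd hc
    obtain ⟨y, hy⟩ := hroot f hf hd.ne'
    exact ⟨y, Lim_root hπ.ne_zero hroot f hf hd hc hy, hy⟩
  · intro x y hx hx0 hxy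
    exact Lim_div hπ hx hx0 hxy
  · intro y hy N
    obtain ⟨a, ha, ha2⟩ := hy N
    exact ⟨a, alg_mem_Lim ha, ha, ha2⟩
  · intro x hx hxu
    exact Lim_rank (R := R) hdiv hrank hinj hπ.not_unit hx hxu

end CLAX

theorem cla_proof {K : Type u} [Field K] (O : ValuationSubring K) (p : ℕ) [Fact p.Prime]
    [Fact ¬IsUnit (p : O)] [IsAdicComplete (Ideal.span {(p : O)}) O] (b : TB O p)
    (hscx : Stmt_SCX O p b) : Stmt_Cla O p b := by
  intro C₀ _ _ ι₀ V₀ h₀ _ _
  have hPU : PU (b.ϖV h₀) := ((pux_proof O p b).2 C₀ ι₀ V₀ h₀).2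
  have hp0V : (p : V₀) ≠ 0 := h₀.p_ne_zero b.hp0
  have hϖV : (p : V₀) = h₀.incl b.u * PreTilt.untilt (b.ϖV h₀) := by
    rw [TB.ϖV, untilt_tmap, ← map_mul, ← b.hϖ, map_natCast]
  obtain ⟨L, h1, h2, h3, h4, h5, h6⟩ := CLAX.main (tmap (p := p) h₀.incl) (tmap_injective h₀)
    (fun x y h => ((hscx.2.2.2 C₀ ι₀ V₀ h₀).2.2 x y).mp h) hscx.2.2.1 hPU
    (exists_root_tilt (exists_root_valuationSubring V₀) (b.hu.map h₀.incl) hp0V hϖV)
  exact ⟨L, ⟨h1, h2, h3, h4, h5, h6⟩⟩

end Pool.Agent.DC
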