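import Pool.Agent.DC.StmtsG

/-!
# CLB: the image of the Witt vectors of `L`
-/

set_option autoImplicit false
set_option linter.unusedSectionVars false
set_option linter.style.haveILetI false

noncomputable section

namespace Pool.Agent.DC

open scoped Classical
open Pool.Agent.LibDb3ab1
open WittVector

universe u

namespace CLBX

variable {V : Type u} [CommRing V] [IsDomain V] [ValuationRing V] {p : ℕ} [Fact p.Prime]
  [Fact ¬IsUnit (p : V)] [IsAdicComplete (Ideal.span {(p : V)}) V]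

/-- The data used for `L`. -/
structure Dat (L : Subring (PreTilt V p)) (ϖ : PreTilt V p) (u : V) : Prop where
  hϖ : (p : V) = u * PreTilt.untilt ϖ
  mem : ϖ ∈ L
  root : ∀ x ∈ L, rt p 1 x ∈ L
  div : ∀ x y : PreTilt V p, x ∈ L → x ≠ 0 → x * y ∈ L → y ∈ L
  rank : ∀ x ∈ L, ¬IsUnit x → ∃ k : ℕ, ϖ ∣ x ^ k

variable {L : Subring (PreTilt V p)}

/-- The Witt vectors with coefficients in `L`. -/
def InL (L : Subring (PreTilt V p)) (w : WittVector p (PreTilt V p)) : Prop :=
  ∀ n, w.coeff n ∈ L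

theorem inL_iff (w : WittVector p (PreTilt V p)) :
    InL L w ↔ ∃ w' : WittVector p L, WittVector.map L.subtype w' = w := by
  constructor
  · intro h
    refine ⟨WittVector.mk p fun n => ⟨w.coeff n, h n⟩, ?_⟩
    ext n
    rw [WittVector.map_coeff]
    rfl
  · rintro ⟨w', rfl⟩ n
    rw [WittVector.map_coeff]
    exact (w'.coeff n).2

/-- The subring `A`. -/
def Aring (L : Subring (PreTilt V p)) : Subring V :=
  ((fontaineTheta V p).comp (WittVector.map L.subtype)).range

theorem mem_Aring (x : V) : x ∈ Aring L ↔ ∃ w, InL L w ∧ fontaineTheta V p w = x := by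
  constructor
  · rintro ⟨w, rfl⟩
    exact ⟨_, (inL_iff _).mpr ⟨w, rfl⟩, rfl⟩
  · rintro ⟨w, hw, rfl⟩
    obtain ⟨w', rfl⟩ := (inL_iff _).mp hw
    exact ⟨w', rfl⟩

theorem sharp_mem {y : PreTilt V p} (hy : y ∈ L) : PreTilt.untilt y ∈ Aring L := by
  rw [mem_Aring]
  refine ⟨teichmuller p y, ?_, fontaineTheta_teichmuller y⟩
  intro n
  cases n with
  | zero => rw [teichmuller_coeff_zero]; exact hy
  | succ n => rw [teichmuller_coeff_pos _ _ _ n.succ_pos]; exact L.zero_mem

theorem step (g : ℕ → PreTilt V p) :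
    WittVector.mk p (fun n => g n ^ p ^ n) =
      teichmuller p (g 0) + p * WittVector.mk p (fun n => g (n + 1) ^ p ^ n) := by
  rw [mul_comm, ← WittVector.verschiebung_frobenius]
  ext n
  rw [WittVector.coeff_add_of_disjoint]
  · cases n with
    | zero =>
      rw [teichmuller_coeff_zero, verschiebung_coeff_zero, add_zero]
      change g 0 ^ p ^ 0 = g 0
      rw [pow_zero, pow_one]
    | succ n =>
      rw [teichmuller_coeff_pos _ _ _ n.succ_pos, verschiebung_coeff_succ, zero_add,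
        coeff_frobenius_charP]
      change g (n + 1) ^ p ^ (n + 1) = (g (n + 1) ^ p ^ n) ^ p
      rw [pow_succ, pow_mul]
  · intro n
    cases n with
    | zero => right; exact verschiebung_coeff_zero _
    | succ n => left; exact teichmuller_coeff_pos _ _ _ n.succ_pos

variable {ϖ : PreTilt V p} {u : V}

theorem Dat.perfect (D : Dat L ϖ u) (w : WittVector p (PreTilt V p)) (hw : InL L w) :
    ∃ w', InL L w' ∧ w = teichmuller p (w.coeff 0) + p * w' := by
  obtain ⟨w', hw'⟩ := teich_coeff' w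
  refine ⟨w', ?_, hw'⟩
  intro n
  have h1 : w.coeff (n + 1) = w'.coeff n ^ p := by
    conv_lhs => rw [hw', mul_comm, ← WittVector.verschiebung_frobenius]
    rw [WittVector.coeff_add_of_disjoint, teichmuller_coeff_pos _ _ _ n.succ_pos,
      verschiebung_coeff_succ, zero_add, coeff_frobenius_charP]
    intro m
    cases m with
    | zero => right; exact verschiebung_coeff_zero _
    | succ m => left; exact teichmuller_coeff_pos _ _ _ m.succ_pos
  have h2 : w'.coeff n = rt p 1 (w.coeff (n + 1)) := by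
    rw [eq_rt_iff, h1, pow_one]
  rw [h2]
  exact D.root _ (hw _)

theorem Dat.exp (D : Dat L ϖ u) {x : V} (hx : x ∈ Aring L) :
    ∃ y ∈ L, ∃ x' ∈ Aring L, x = PreTilt.untilt y + (p : V) * x' := by
  obtain ⟨w, hw, rfl⟩ := (mem_Aring x).mp hx
  obtain ⟨w', hw', h⟩ := D.perfect w hw
  refine ⟨w.coeff 0, hw 0, fontaineTheta V p w', (mem_Aring _).mpr ⟨w', hw', rfl⟩, ?_⟩
  conv_lhs => rw [h]
  rw [map_add, map_mul, fontaineTheta_teichmuller, map_natCast]

/-- (1): `A` is saturated with respect to `p`. -/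
theorem Dat.pdiv (D : Dat L ϖ u) (hp0 : (p : V) ≠ 0) (hu : ∃ u' ∈ Aring L, u' * u = 1)
    {v : V} (hv : (p : V) * v ∈ Aring L) : v ∈ Aring L := by
  obtain ⟨y, hy, x', hx', h⟩ := D.exp hv
  obtain ⟨u', hu', huu⟩ := hu
  have hϖ0 : ϖ ≠ 0 := by
    rintro rfl
    apply hp0
    rw [D.hϖ, untilt_zero, mul_zero]
  have h1 : PreTilt.untilt ϖ ∣ PreTilt.untilt y := by
    refine ⟨u * (v - x'), ?_⟩
    linear_combination -h - (x' - v) * D.hϖ
  obtain ⟨a, ha⟩ := dvd_of_untilt_dvd h1
  have haL : a ∈ L := D.div ϖ a D.mem hϖ0 (by rw [← ha]; exact hy)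
  have h2 : v = u' * PreTilt.untilt a + x' := by
    apply mul_left_cancel₀ hp0
    rw [h, ha, map_mul]
    linear_combination (-(PreTilt.untilt ϖ) * PreTilt.untilt a) * huu -
      u' * PreTilt.untilt a * D.hϖ
  rw [h2]
  exact (Aring L).add_mem ((Aring L).mul_mem hu' (sharp_mem haL)) hx'

theorem Dat.ppowdiv (D : Dat L ϖ u) (hp0 : (p : V) ≠ 0) (hu : ∃ u' ∈ Aring L, u' * u = 1)
    (k : ℕ) {v : V} (hv : (p : V) ^ k * v ∈ Aring L) : v ∈ Aring L := by
  induction k with
  | zero => simpa using hv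
  | succ k ih =>
    apply ih
    apply D.pdiv hp0 hu
    rwa [← mul_assoc, ← pow_succ']

/-- (2): `A` is closed. -/
theorem Dat.closed (D : Dat L ϖ u) (hp0 : (p : V) ≠ 0) (hu : ∃ u' ∈ Aring L, u' * u = 1)
    (x : V) (hx : ∀ N : ℕ, ∃ a ∈ Aring L, (p : V) ^ N ∣ x - a) : x ∈ Aring L := by
  let S : Type u := {x : V // ∀ N : ℕ, ∃ a ∈ Aring L, (p : V) ^ N ∣ x - a}
  have hstep : ∀ s : S, ∃ (y : PreTilt V p) (s' : S), y ∈ L ∧
      s.1 = PreTilt.untilt y + p * s'.1 := by
    rintro ⟨x, hx⟩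
    obtain ⟨a, ha, c, hc⟩ := hx 1
    obtain ⟨y, hy, a', ha', h⟩ := D.exp ha
    have h1 : x = PreTilt.untilt y + p * (a' + c) := by
      rw [pow_one] at hc
      linear_combination hc + h
    refine ⟨y, ⟨a' + c, ?_⟩, hy, h1⟩
    intro N
    obtain ⟨e, he, d, hd⟩ := hx (N + 1)
    refine ⟨a' + c - p ^ N * d, ?_, ⟨d, by ring⟩⟩
    apply D.pdiv hp0 hu
    have h2 : (p : V) * (a' + c - p ^ N * d) = e - PreTilt.untilt y := by
      linear_combination hd - h1
    rw [h2]
    exact (Aring L).sub_mem he (sharp_mem hy)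
  choose y s hyL hys using hstep
  let xs : ℕ → S := fun n => Nat.rec ⟨x, hx⟩ (fun _ t => s t) n
  have hxs : ∀ n, xs (n + 1) = s (xs n) := fun n => rfl
  let g : ℕ → PreTilt V p := fun n => y (xs n)
  have key : ∀ (n : ℕ) (k : ℕ), (p : V) ^ n ∣ (xs k).1 -
      fontaineTheta V p (WittVector.mk p (fun n => g (k + n) ^ p ^ n)) := by
    intro n
    induction n with
    | zero => intro k; rw [pow_zero]; exact one_dvd _
    | succ n ih =>
      intro k
      obtain ⟨c, hc⟩ := ih (k + 1)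
      refine ⟨c, ?_⟩
      rw [step (fun n => g (k + n)), map_add, map_mul, fontaineTheta_teichmuller, map_natCast,
        hys (xs k), ← hxs]
      have e1 : (fun n => g (k + (n + 1)) ^ p ^ n) = (fun n => g (k + 1 + n) ^ p ^ n) := by
        funext n
        rw [add_assoc, add_comm 1 n]
      rw [e1]
      change PreTilt.untilt (g k) + p * (xs (k + 1)).1 - (PreTilt.untilt (g (k + 0)) + _) = _
      rw [add_zero]
      linear_combination (p : V) * hc
  have h0 : x = fontaineTheta V p (WittVector.mk p (fun n => g (0 + n) ^ p ^ n)) := by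
    apply eq_of_forall_dvd (p := p)
    intro n
    exact key n 0
  rw [h0, mem_Aring]
  refine ⟨_, ?_, rfl⟩
  intro n
  exact L.pow_mem (hyL _) _

theorem Dat.inv (D : Dat L ϖ u) (hp0 : (p : V) ≠ 0) (hu : ∃ u' ∈ Aring L, u' * u = 1)
    {a : V} (ha : a ∈ Aring L) {k : ℕ} (hk : (p : V) ∣ a ^ k) {z : V} (hz : (1 - a) * z = 1) :
    z ∈ Aring L := by
  apply D.closed hp0 hu
  intro N
  refine ⟨∑ i ∈ Finset.range (k * N), a ^ i, ?_, ?_⟩
  · exact (Aring L).sum_mem fun i _ => (Aring L).pow_mem ha i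
  · have h1 : (∑ i ∈ Finset.range (k * N), a ^ i) * (1 - a) = 1 - a ^ (k * N) := by
      have := geom_sum_mul a (k * N)
      linear_combination -this
    have h2 : z - ∑ i ∈ Finset.range (k * N), a ^ i = a ^ (k * N) * z := by
      linear_combination (∑ i ∈ Finset.range (k * N), a ^ i) * hz - z * h1
    rw [h2, pow_mul]
    exact Dvd.dvd.mul_right (pow_dvd_pow_of_dvd hk N) z

/-- (3): `A` is saturated. -/
theorem Dat.adiv (D : Dat L ϖ u) (hp0 : (p : V) ≠ 0) (hu : ∃ u' ∈ Aring L, u' * u = 1)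
    (huA : u ∈ Aring L) (x y : V) (hx : x ∈ Aring L) (hx0 : x ≠ 0) (hxy : x * y ∈ Aring L) :
    y ∈ Aring L := by
  -- reduction to `x` not divisible by `p`
  obtain ⟨k, x1, hk, hx1⟩ : ∃ (k : ℕ) (x1 : V), x = (p : V) ^ k * x1 ∧ ¬(p : V) ∣ x1 := by
    by_contra hcon
    push Not at hcon
    apply hx0
    apply eq_of_forall_dvd (p := p)
    intro n
    rw [sub_zero]
    induction n with
    | zero => rw [pow_zero]; exact one_dvd _
    | succ n ih =>
      obtain ⟨x1, h1⟩ := ih
      obtain ⟨x2, h2⟩ := hcon n x1 h1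
      exact ⟨x2, by rw [h1, h2]; ring⟩
  have hx1A : x1 ∈ Aring L := D.ppowdiv hp0 hu k (by rw [← hk]; exact hx)
  have hx1y : x1 * y ∈ Aring L := D.ppowdiv hp0 hu k (by rw [← mul_assoc, ← hk]; exact hxy)
  obtain ⟨l, hl, x', hx', h⟩ := D.exp hx1A
  have hnd : ¬ϖ ∣ l := by
    rintro ⟨d, hd⟩
    apply hx1
    obtain ⟨u', -, huu⟩ := hu
    refine ⟨u' * PreTilt.untilt d + x', ?_⟩
    rw [h, hd, map_mul]
    linear_combination (-(PreTilt.untilt ϖ) * PreTilt.untilt d) * huu -
      u' * PreTilt.untilt d * D.hϖ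
  obtain ⟨c, hc⟩ : l ∣ ϖ := by
    rcases ValuationRing.dvd_total ϖ l with h1 | h1
    · exact absurd h1 hnd
    · exact h1
  have hl0 : l ≠ 0 := by
    rintro rfl
    exact hnd (dvd_zero _)
  have hϖ0 : ϖ ≠ 0 := by
    rintro rfl
    apply hp0
    rw [D.hϖ, untilt_zero, mul_zero]
  have hcL : c ∈ L := D.div l c hl hl0 (by rw [← hc]; exact D.mem)
  have hcu : ¬IsUnit c := by
    intro h1
    obtain ⟨c', hc'⟩ := h1.exists_right_inv
    apply hnd
    exact ⟨c', by rw [hc, mul_assoc, hc', mul_one]⟩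
  set a := -(u * PreTilt.untilt c * x') with ha
  have haA : a ∈ Aring L :=
    (Aring L).neg_mem ((Aring L).mul_mem ((Aring L).mul_mem huA (sharp_mem hcL)) hx')
  obtain ⟨m, d, hd⟩ := D.rank c hcL hcu
  have hak : (p : V) ∣ a ^ m := by
    obtain ⟨u', -, huu⟩ := hu
    have e1 : (PreTilt.untilt c) ^ m = p * (u' * PreTilt.untilt d) := by
      rw [← map_pow, hd, map_mul]
      linear_combination (-(PreTilt.untilt ϖ) * PreTilt.untilt d) * huu -
        u' * PreTilt.untilt d * D.hϖ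
    have e2 : a ^ m = (PreTilt.untilt c) ^ m * ((-1) * u * x') ^ m := by
      rw [ha, ← mul_pow]
      congr 1
      ring
    rw [e2, e1, mul_assoc]
    exact dvd_mul_right _ _
  have hau : ¬IsUnit a := by
    intro h1
    have h2 : IsUnit (a ^ m) := h1.pow m
    exact (Fact.out : ¬IsUnit (p : V)) (isUnit_of_dvd_unit hak h2)
  have hunit : IsUnit (1 - a) := by
    have := isUnit_one_add_mul hau (-1 : V)
    rwa [mul_neg_one, ← sub_eq_add_neg] at this
  obtain ⟨z, hz⟩ := hunit.exists_right_inv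
  have hzA : z ∈ Aring L := D.inv hp0 hu haA hak hz
  have hx1' : x1 = PreTilt.untilt l * (1 - a) := by
    rw [h, ha]
    have e1 : PreTilt.untilt ϖ = PreTilt.untilt l * PreTilt.untilt c := by rw [← map_mul, ← hc]
    linear_combination x' * D.hϖ + x' * u * e1
  apply D.pdiv hp0 hu
  have h3 : (p : V) * y = u * PreTilt.untilt c * z * (x1 * y) := by
    have e1 : PreTilt.untilt ϖ = PreTilt.untilt l * PreTilt.untilt c := by rw [← map_mul, ← hc]
    rw [hx1', D.hϖ, e1]
    linear_combination (-(u * PreTilt.untilt l * PreTilt.untilt c * y)) * hz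
  rw [h3]
  exact (Aring L).mul_mem ((Aring L).mul_mem ((Aring L).mul_mem huA (sharp_mem hcL)) hzA) hx1y

/-- (4): rank one. -/
theorem Dat.arank (D : Dat L ϖ u) (hu : ∃ u' ∈ Aring L, u' * u = 1)
    (x : V) (hx : x ∈ Aring L) (hxu : ¬IsUnit x) : ∃ k : ℕ, (p : V) ∣ x ^ k := by
  obtain ⟨l, hl, x', hx', h⟩ := D.exp hx
  have hlu : ¬IsUnit l := by
    intro h1
    apply hxu
    have h2 : IsUnit (PreTilt.untilt l) := h1.map _
    obtain ⟨t, ht⟩ := h2.exists_right_inv
    have h3 : IsUnit (1 + (p : V) * (t * x')) := isUnit_one_add_mul (Fact.out) _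
    have h4 : x = PreTilt.untilt l * (1 + (p : V) * (t * x')) := by
      rw [h]
      linear_combination (-(p : V) * x') * ht
    rw [h4]
    exact h2.mul h3
  obtain ⟨k, d, hd⟩ := D.rank l hl hlu
  obtain ⟨u', -, huu⟩ := hu
  have e1 : (PreTilt.untilt l) ^ k = p * (u' * PreTilt.untilt d) := by
    rw [← map_pow, hd, map_mul]
    linear_combination (-(PreTilt.untilt ϖ) * PreTilt.untilt d) * huu -
      u' * PreTilt.untilt d * D.hϖ
  refine ⟨k, ?_⟩
  have h5 : (p : V) ∣ x ^ k - (PreTilt.untilt l) ^ k := by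
    refine dvd_trans ?_ (sub_dvd_pow_sub_pow x (PreTilt.untilt l) k)
    exact ⟨x', by rw [h]; ring⟩
  have h6 : x ^ k = (x ^ k - (PreTilt.untilt l) ^ k) + (PreTilt.untilt l) ^ k := by ring
  rw [h6]
  refine dvd_add h5 ?_
  rw [e1]
  exact dvd_mul_right _ _

end CLBX

variable {K : Type u} [Field K] (O : ValuationSubring K) (p : ℕ) [Fact p.Prime]
  [Fact ¬IsUnit (p : O)] [IsAdicComplete (Ideal.span {(p : O)}) O] (b : TB O p)

theorem clb_proof : Stmt_Clb O p b := by
  intro C₀ _ _ ι₀ V₀ h₀ _ _ L hL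
  have hϖ0 : (p : V₀) = h₀.incl b.u * PreTilt.untilt (b.ϖV h₀) := by
    rw [TB.ϖV, untilt_tmap, ← map_mul, ← b.hϖ, map_natCast]
  have hp0 : (p : V₀) ≠ 0 := by
    intro h
    have h1 : ι₀ (p : K) = 0 := by
      rw [map_natCast]
      have := congrArg (fun x : V₀ => (x : C₀)) h
      simpa using this
    exact b.hp0 (by rwa [map_eq_zero] at h1)
  have D : CLBX.Dat L (b.ϖV h₀) (h₀.incl b.u) := by
    refine ⟨hϖ0, hL.base _, ?_, hL.div, hL.rank⟩
    intro x hx
    obtain ⟨y, hy, hyx⟩ := hL.root (Polynomial.X ^ p - Polynomial.C x)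
      (Polynomial.monic_X_pow_sub_C x (Fact.out : p.Prime).ne_zero)
      (by rw [Polynomial.natDegree_X_pow_sub_C]; exact (Fact.out : p.Prime).pos)
      (by
        intro i
        rw [Polynomial.coeff_sub, Polynomial.coeff_X_pow, Polynomial.coeff_C]
        refine L.sub_mem ?_ ?_
        · split_ifs
          · exact L.one_mem
          · exact L.zero_mem
        · split_ifs
          · exact hx
          · exact L.zero_mem)
    have h1 : y ^ p = x := by
      rw [Polynomial.eval_sub, Polynomial.eval_pow, Polynomial.eval_X, Polynomial.eval_C,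
        sub_eq_zero] at hyx
      exact hyx
    have h2 : y = rt p 1 x := by rw [eq_rt_iff, pow_one, h1]
    rw [← h2]
    exact hy
  have hbase : ∀ x : O, h₀.incl x ∈ CLBX.Aring L := by
    intro x
    obtain ⟨w, hw⟩ := surjective_fontaineTheta (R := O) (p := p) b.hF x
    rw [CLBX.mem_Aring]
    refine ⟨WittVector.map (tmap h₀.incl) w, ?_, ?_⟩
    · intro n
      rw [WittVector.map_coeff]
      exact hL.base _
    · rw [theta_map, hw]
  have hu : ∃ u' ∈ CLBX.Aring L, u' * h₀.incl b.u = 1 := by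
    obtain ⟨t, ht⟩ := b.hu.exists_left_inv
    exact ⟨h₀.incl t, hbase t, by rw [← map_mul, ht, map_one]⟩
  refine ⟨CLBX.Aring L, hbase, fun y hy => CLBX.sharp_mem hy, fun x hx => D.exp hx,
    D.closed hp0 hu, D.adiv hp0 hu (hbase _), D.arank hu⟩

end Pool.Agent.DC
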