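import Pool.Agent.DC.StmtsG
import Pool.Agent.LibDb3ab1.TiltStep

/-!
# Module CLC: the fraction field of `A`
-/

set_option autoImplicit false
set_option linter.unusedSectionVars false

noncomputable section

namespace Pool.Agent.DC.CLCX

open scoped Classical
open Pool.Agent.LibDb3ab1

universe u

section kap

variable {C₀ C₁ : Type u} [Field C₀] [Field C₁] {V₀ : ValuationSubring C₀}
  {O₁ : ValuationSubring C₁} {κ : C₁ →+* C₀}

/-- The restriction of `κ` to the valuation rings. -/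
def kap (hO : ∀ x : C₁, x ∈ O₁ ↔ κ x ∈ V₀) : O₁ →+* V₀ :=
  (κ.comp O₁.subtype).codRestrict V₀.toSubring fun x => (hO x).1 x.2

theorem coe_kap (hO : ∀ x : C₁, x ∈ O₁ ↔ κ x ∈ V₀) (x : O₁) : ((kap hO x : V₀) : C₀) = κ x := rfl

theorem kap_injective (hO : ∀ x : C₁, x ∈ O₁ ↔ κ x ∈ V₀) : Function.Injective (kap hO) := by
  intro x y h
  have h1 : κ x = κ y := by rw [← coe_kap hO, ← coe_kap hO, h]
  exact Subtype.ext (κ.injective h1)

theorem kap_dvd (hO : ∀ x : C₁, x ∈ O₁ ↔ κ x ∈ V₀) {x y : O₁} :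
    kap hO x ∣ kap hO y ↔ x ∣ y := by
  constructor
  · rintro ⟨z, hz⟩
    by_cases hx : x = 0
    · subst hx
      rw [map_zero, zero_mul] at hz
      have : y = 0 := kap_injective hO (by rw [hz, map_zero])
      rw [this]
    · have hx0 : (x : C₁) ≠ 0 := fun h => hx (Subtype.ext h)
      have hk : κ ((y : C₁) / x) = (z : C₀) := by
        rw [map_div₀, div_eq_iff (by rwa [Ne, map_eq_zero]), ← coe_kap hO, ← coe_kap hO, hz]
        push_cast
        ring
      refine ⟨⟨(y : C₁) / x, (hO _).2 (by rw [hk]; exact z.2)⟩, Subtype.ext ?_⟩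
      push_cast
      field_simp
  · exact fun h => map_dvd _ h

theorem kap_isUnit (hO : ∀ x : C₁, x ∈ O₁ ↔ κ x ∈ V₀) {x : O₁} :
    IsUnit (kap hO x) ↔ IsUnit x := by
  rw [isUnit_iff_dvd_one, isUnit_iff_dvd_one, ← kap_dvd hO, map_one]

theorem kap_dvd_nat (hO : ∀ x : C₁, x ∈ O₁ ↔ κ x ∈ V₀) {p n : ℕ} {y : O₁} :
    (p : V₀) ^ n ∣ kap hO y ↔ (p : O₁) ^ n ∣ y := by
  rw [← kap_dvd hO, map_pow, map_natCast]

theorem complete (hO : ∀ x : C₁, x ∈ O₁ ↔ κ x ∈ V₀) {p : ℕ} [Fact p.Prime]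
    [Fact ¬IsUnit (p : V₀)] [IsAdicComplete (Ideal.span {(p : V₀)}) V₀] (A : Subring V₀)
    (hA : ∀ a : V₀, a ∈ A ↔ ∃ x : O₁, κ x = a)
    (hcl : ∀ x : V₀, (∀ N : ℕ, ∃ a ∈ A, (p : V₀) ^ N ∣ x - a) → x ∈ A) :
    IsAdicComplete (Ideal.span {(p : O₁)}) O₁ := by
  have hA' : ∀ x : O₁, kap hO x ∈ A := fun x => (hA _).2 ⟨x, rfl⟩
  have h1 : IsHausdorff (Ideal.span {(p : O₁)}) O₁ := by
    refine ⟨fun x hx => kap_injective hO ?_⟩
    rw [map_zero]
    apply eq_of_forall_dvd (p := p)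
    intro n
    rw [sub_zero, kap_dvd_nat hO]
    have := hx n
    rwa [SModEq.zero, smul_eq_mul, Ideal.mul_top, Ideal.span_singleton_pow,
      Ideal.mem_span_singleton] at this
  have h2 : IsPrecomplete (Ideal.span {(p : O₁)}) O₁ := by
    refine ⟨fun f hf => ?_⟩
    have hf' : ∀ {m n : ℕ}, m ≤ n → (p : O₁) ^ m ∣ f m - f n := by
      intro m n hmn
      have := hf hmn
      rwa [SModEq.sub_mem, smul_eq_mul, Ideal.mul_top, Ideal.span_singleton_pow,
        Ideal.mem_span_singleton] at this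
    obtain ⟨L, hL⟩ := IsPrecomplete.prec (I := Ideal.span {(p : V₀)}) (M := V₀) inferInstance
      (f := fun n => kap hO (f n)) (by
        intro m n hmn
        rw [SModEq.sub_mem, smul_eq_mul, Ideal.mul_top, Ideal.span_singleton_pow,
          Ideal.mem_span_singleton, ← map_sub, kap_dvd_nat hO]
        exact hf' hmn)
    have hL' : ∀ n, (p : V₀) ^ n ∣ kap hO (f n) - L := by
      intro n
      have := hL n
      rwa [SModEq.sub_mem, smul_eq_mul, Ideal.mul_top, Ideal.span_singleton_pow,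
        Ideal.mem_span_singleton] at this
    obtain ⟨y, hy⟩ := (hA L).1 (hcl L fun N => ⟨kap hO (f N), hA' _, by
      rw [← neg_sub, dvd_neg]; exact hL' N⟩)
    refine ⟨y, fun n => ?_⟩
    rw [SModEq.sub_mem, smul_eq_mul, Ideal.mul_top, Ideal.span_singleton_pow,
      Ideal.mem_span_singleton, ← kap_dvd_nat hO, map_sub]
    have : kap hO y = L := Subtype.ext hy
    rw [this]
    exact hL' n
  exact {}

end kap

end Pool.Agent.DC.CLCX

namespace Pool.Agent.DC

open scoped Classical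
open Pool.Agent.LibDb3ab1 CLCX

universe u

variable {K : Type u} [Field K] (O : ValuationSubring K) (p : ℕ) [Fact p.Prime]
  [Fact ¬IsUnit (p : O)] [IsAdicComplete (Ideal.span {(p : O)}) O]

theorem clc_proof (b : TB O p) : Stmt_Clc O p b := by
  intro C₀ _ _ ι₀ V₀ h₀ _ _ L A hL hA
  have hval : PreValuationRing A := ⟨fun x y => by
    by_cases hx : x = 0
    · exact ⟨0, Or.inr (by rw [hx, mul_zero])⟩
    by_cases hy : y = 0
    · exact ⟨0, Or.inl (by rw [hy, mul_zero])⟩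
    have hx' : (x : V₀) ≠ 0 := fun h => hx (Subtype.ext h)
    have hy' : (y : V₀) ≠ 0 := fun h => hy (Subtype.ext h)
    rcases ValuationRing.dvd_total (x : V₀) (y : V₀) with ⟨c, hc⟩ | ⟨c, hc⟩
    · exact ⟨⟨c, hA.div x c x.2 hx' (hc ▸ y.2)⟩, Or.inl (Subtype.ext hc.symm)⟩
    · exact ⟨⟨c, hA.div y c y.2 hy' (hc ▸ x.2)⟩, Or.inr (Subtype.ext hc.symm)⟩⟩
  have : ValuationRing A := {}
  let gA : A →+* C₀ := V₀.subtype.comp A.subtype
  have hgA : Function.Injective gA := by
    intro x y h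
    exact Subtype.ext (Subtype.ext h)
  let κ : FractionRing A →+* C₀ := IsFractionRing.lift hgA
  have hκ : ∀ a : A, κ (algebraMap A (FractionRing A) a) = ((a : V₀) : C₀) := fun a =>
    IsFractionRing.lift_algebraMap hgA a
  let gO : O →+* FractionRing A :=
    (algebraMap A (FractionRing A)).comp (h₀.incl.codRestrict A hA.base)
  have hgO : Function.Injective gO := by
    intro x y h
    have h1 := IsFractionRing.injective A (FractionRing A) h
    have h2 : h₀.incl x = h₀.incl y := congrArg Subtype.val h1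
    exact incl_injective h₀ h2
  let ι₁ : K →+* FractionRing A := IsFractionRing.lift hgO
  have hι : ∀ a : O, ι₁ (algebraMap O K a) = gO a := fun a =>
    IsFractionRing.lift_algebraMap hgO a
  obtain ⟨O₁, hO₁⟩ := exists_rangeVal A (FractionRing A)
  have hκι : κ.comp ι₁ = ι₀ := by
    apply IsLocalization.ringHom_ext (nonZeroDivisors O)
    ext a
    change κ (ι₁ (algebraMap O K a)) = ι₀ (algebraMap O K a)
    rw [hι]
    change κ (algebraMap A (FractionRing A) _) = _
    rw [hκ]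
    rfl
  have hO : ∀ x : FractionRing A, x ∈ O₁ ↔ κ x ∈ V₀ := by
    intro x
    rw [hO₁]
    constructor
    · rintro ⟨a, rfl⟩
      rw [hκ]
      exact (a : V₀).2
    · intro hx
      obtain ⟨a, c, hc, rfl⟩ := IsFractionRing.div_surjective (A := A) x
      have hc0 : c ≠ 0 := nonZeroDivisors.ne_zero hc
      have hc1 : algebraMap A (FractionRing A) c ≠ 0 := by
        intro h
        exact hc0 (IsFractionRing.injective A (FractionRing A) (by rw [h, map_zero]))
      have hc2 : (c : V₀) ≠ 0 := fun h => hc0 (Subtype.ext h)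
      have hc3 : ((c : V₀) : C₀) ≠ 0 := fun h => hc2 (Subtype.ext h)
      have h1 : (c : V₀) * ⟨_, hx⟩ = (a : V₀) := by
        apply Subtype.ext
        change ((c : V₀) : C₀) * κ _ = ((a : V₀) : C₀)
        rw [map_div₀, hκ, hκ]
        field_simp
      have h2 := hA.div (c : V₀) ⟨_, hx⟩ c.2 hc2 (by rw [h1]; exact a.2)
      refine ⟨⟨_, h2⟩, ?_⟩
      rw [eq_div_iff hc1, ← map_mul]
      congr 1
      apply Subtype.ext
      rw [← h1, mul_comm]
      rfl
  have hVE : ValuedExt O ι₁ O₁ := by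
    constructor
    · ext x
      rw [ValuationSubring.mem_comap, hO]
      change (κ.comp ι₁) x ∈ V₀ ↔ _
      rw [hκι, ← ValuationSubring.mem_comap, h₀.comap_eq]
    · intro x hx
      obtain ⟨a, ha, h⟩ := h₀.cont (κ x) (by rwa [Ne, map_eq_zero])
      refine ⟨a, ha, ?_⟩
      rw [hO, map_div₀]
      change (κ.comp ι₁) a / κ x ∈ V₀
      rwa [hκι]
  have hAO : ∀ a : V₀, a ∈ A ↔ ∃ x : O₁, κ x = a := by
    intro a
    constructor
    · intro ha
      exact ⟨⟨algebraMap A (FractionRing A) ⟨a, ha⟩, (hO₁ _).2 ⟨_, rfl⟩⟩, hκ ⟨a, ha⟩⟩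
    · rintro ⟨x, hx⟩
      obtain ⟨c, hc⟩ := (hO₁ _).1 x.2
      have : (c : V₀) = a := by
        apply Subtype.ext
        rw [← hκ, hc, hx]
      rw [← this]
      exact c.2
  have hpu : Fact ¬IsUnit (p : O₁) := ⟨fun h => by
    have h1 := h.map (kap hO)
    rw [map_natCast] at h1
    exact (Fact.out : ¬IsUnit (p : V₀)) h1⟩
  refine ⟨FractionRing A, inferInstance, ι₁, O₁, hVE, κ, hpu, complete hO A hAO hA.closed, hκι,
    hO, hAO, fun x hx => ?_⟩
  obtain ⟨k, hk⟩ := hA.rank (kap hO x) ((hAO _).2 ⟨x, rfl⟩) (by rwa [kap_isUnit hO])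
  refine ⟨k, ?_⟩
  rw [← map_pow] at hk
  have := (kap_dvd_nat hO (p := p) (n := 1) (y := x ^ k)).1 (by rwa [pow_one])
  rwa [pow_one] at this

end Pool.Agent.DC
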