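import Pool.Agent.DC.StmtsG

/-! Module SCX: completeness and rank one for the tilt of `O`. -/

set_option autoImplicit false
set_option linter.unusedSectionVars false

noncomputable section

namespace Pool.Agent.DC

open scoped Classical
open Pool.Agent.LibDb3ab1

universe u

namespace SCXX

/-- `ϖ`-adically complete rings are sequentially complete. -/
theorem sc_of_complete {W : Type u} [CommRing W] (ϖ : W) [IsAdicComplete (Ideal.span {ϖ}) W] :
    SC ϖ := by
  intro x hx
  have hmem : ∀ (n : ℕ) (z : W), z ∈ ((Ideal.span {ϖ}) ^ n • ⊤ : Submodule W W) ↔ ϖ ^ n ∣ z := by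
    intro n z
    rw [Ideal.span_singleton_pow, smul_eq_mul, Ideal.mul_top, Ideal.mem_span_singleton]
  have hle : ∀ m n : ℕ, m ≤ n → ϖ ^ m ∣ x n - x m := by
    intro m n hmn
    induction n, hmn using Nat.le_induction with
    | base => rw [sub_self]; exact dvd_zero _
    | succ n hmn ih =>
      have h1 : x (n + 1) - x m = (x (n + 1) - x n) + (x n - x m) := by ring
      rw [h1]
      exact dvd_add ((pow_dvd_pow ϖ hmn).trans (hx n)) ih
  obtain ⟨L, hL⟩ := IsPrecomplete.prec' (I := Ideal.span {ϖ}) (M := W) x (by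
    intro m n hmn
    rw [SModEq.sub_mem, hmem, ← neg_sub, dvd_neg]
    exact hle m n hmn)
  refine ⟨L, fun n => ?_⟩
  have h1 := hL n
  rw [SModEq.sub_mem, hmem, ← neg_sub, dvd_neg] at h1
  exact h1

section tilt

variable {V : Type u} [CommRing V] [IsDomain V] {p : ℕ} [Fact p.Prime]
  [Fact ¬IsUnit (p : V)] [IsAdicComplete (Ideal.span {(p : V)}) V] [ValuationRing V]

theorem sc_tilt {ϖ : PreTilt V p} {u : V} (hu : IsUnit u)
    (hϖ : (p : V) = u * PreTilt.untilt ϖ) : SC ϖ := by
  intro x hx
  have hle : ∀ m n : ℕ, m ≤ n → ϖ ^ m ∣ x n - x m := by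
    intro m n hmn
    induction n, hmn using Nat.le_induction with
    | base => rw [sub_self]; exact dvd_zero _
    | succ n hmn ih =>
      have h1 : x (n + 1) - x m = (x (n + 1) - x n) + (x n - x m) := by ring
      rw [h1]
      exact dvd_add ((pow_dvd_pow ϖ hmn).trans (hx n)) ih
  have hc : ∀ k i, p ^ k ≤ i → PreTilt.coeff k (x i) = PreTilt.coeff k (x (p ^ k)) := by
    intro k i hi
    rw [← sub_eq_zero, ← map_sub, coeff_eq_zero_iff hu hϖ]
    exact hle _ _ hi
  have hp1 : 1 < p := (Fact.out : p.Prime).one_lt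
  let c : ℕ → ModP V p := fun k => PreTilt.coeff k (x (p ^ k))
  have hcc : ∀ k, c (k + 1) ^ p = c k := by
    intro k
    have e2 : c k = PreTilt.coeff k (x (p ^ (k + 1))) :=
      (hc k _ (Nat.pow_le_pow_right hp1.le (Nat.le_succ k))).symm
    rw [e2]
    exact (x (p ^ (k + 1))).2 k
  let y : PreTilt V p := (⟨c, hcc⟩ : Perfection (ModP V p) p)
  have hy : ∀ k, PreTilt.coeff k y = c k := fun k => rfl
  refine ⟨y, fun n => ?_⟩
  have hn : n ≤ p ^ n := (Nat.lt_pow_self hp1).le
  have h4 : ϖ ^ p ^ n ∣ y - x (p ^ n) := by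
    rw [← coeff_eq_zero_iff hu hϖ, map_sub, sub_eq_zero, hy]
  have h5 : y - x n = (y - x (p ^ n)) + (x (p ^ n) - x n) := by ring
  rw [h5]
  exact dvd_add ((pow_dvd_pow ϖ hn).trans h4) (hle n _ hn)

end tilt

/-- divisibility is reflected by the inclusion -/
theorem incl_dvd_iff {K : Type u} [Field K] {O : ValuationSubring K} {C : Type u} [Field C]
    {ι : K →+* C} {V : ValuationSubring C} (hV : ValuedExt O ι V) (s t : O) :
    hV.incl s ∣ hV.incl t ↔ s ∣ t := by
  constructor
  · rintro ⟨w, hw⟩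
    by_cases hs : s = 0
    · rw [hs, map_zero, zero_mul] at hw
      have : t = 0 := incl_injective hV (by rw [hw, map_zero])
      rw [this]
      exact dvd_zero _
    · have hs' : (s : K) ≠ 0 := fun h0 => hs (Subtype.ext h0)
      have h1 : ι ((t : K) / s) = w := by
        have h2 : ι (t : K) = ι (s : K) * w := by
          have := congrArg (fun z : V => (z : C)) hw
          simpa using this
        rw [map_div₀, h2, mul_div_cancel_left₀]
        rw [Ne, map_eq_zero]
        exact hs'
      have h3 : (t : K) / s ∈ O := by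
        have h4 : (t : K) / s ∈ V.comap ι := by
          rw [ValuationSubring.mem_comap, h1]
          exact w.2
        rwa [hV.comap_eq] at h4
      refine ⟨⟨(t : K) / s, h3⟩, Subtype.ext ?_⟩
      show (t : K) = s * (t / s)
      field_simp
  · exact fun h => map_dvd _ h

end SCXX

open SCXX in
theorem scx_proof {K : Type u} [Field K] (O : ValuationSubring K) (p : ℕ) [Fact p.Prime]
    [Fact ¬IsUnit (p : O)] [IsAdicComplete (Ideal.span {(p : O)}) O] (b : TB O p) :
    Stmt_SCX O p b := by
  refine ⟨sc_of_complete (p : O), sc_tilt b.hu b.hϖ, ?_, ?_⟩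
  · intro x hx
    have hx' : ¬IsUnit (PreTilt.untilt x) := fun h => hx (isUnit_untilt.1 h)
    obtain ⟨n, hn⟩ := b.hr _ hx'
    refine ⟨n, ?_⟩
    rw [← untilt_dvd_iff, map_pow]
    refine dvd_trans ?_ hn
    rw [b.hϖ]
    exact dvd_mul_left _ _
  · intro C _ ι V hV _ _
    have huV : IsUnit (hV.incl b.u) := b.hu.map _
    have hϖV : (p : V) = hV.incl b.u * PreTilt.untilt (b.ϖV hV) := by
      have h1 := congrArg hV.incl b.hϖ
      rw [map_natCast, map_mul] at h1
      rw [h1, TB.ϖV, untilt_tmap]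
    refine ⟨sc_of_complete (p : V), sc_tilt huV hϖV, fun x y => ?_⟩
    rw [← untilt_dvd_iff, untilt_tmap, untilt_tmap, incl_dvd_iff hV, untilt_dvd_iff]

end Pool.Agent.DC
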