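import Pool.Agent.DC.StmtsG
import Pool.Agent.DC.CLC
import Pool.Agent.DC.SCX

/-!
# Module CLR: the field `C₁` is algebraically closed
-/

set_option autoImplicit false
set_option linter.unusedSectionVars false
set_option linter.style.haveILetI false

noncomputable section

namespace Pool.Agent.DC.CLRX

open scoped Classical
open Pool.Agent.LibDb3ab1 CLCX Polynomial

universe u

/-- Over a domain in which monic polynomials have roots, monic polynomials split. -/
theorem exists_split {T : Type u} [CommRing T] [IsDomain T]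
    (root : ∀ f : T[X], f.Monic → f.natDegree ≠ 0 → ∃ y, f.eval y = 0) :
    ∀ (m : ℕ) (Q : T[X]), Q.Monic → Q.natDegree = m →
      ∃ s : Multiset T, Multiset.card s = m ∧ Q = (s.map fun y => X - C y).prod := by
  intro m
  induction m with
  | zero =>
    intro Q hQ hd
    refine ⟨0, rfl, ?_⟩
    rw [Multiset.map_zero, Multiset.prod_zero]
    exact hQ.natDegree_eq_zero.mp hd
  | succ m ih =>
    intro Q hQ hd
    obtain ⟨y, hy⟩ := root Q hQ (by omega)
    obtain ⟨Q', hQ'⟩ := dvd_iff_isRoot.mpr hy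
    have hm' : Q'.Monic := (monic_X_sub_C y).of_mul_monic_left (hQ' ▸ hQ)
    have hd' : Q'.natDegree = m := by
      have h1 := (monic_X_sub_C y).natDegree_mul hm'
      rw [← hQ', natDegree_X_sub_C, hd] at h1
      omega
    obtain ⟨s, hs, hs'⟩ := ih Q' hm' hd'
    refine ⟨y ::ₘ s, by rw [Multiset.card_cons, hs], ?_⟩
    rw [Multiset.map_cons, Multiset.prod_cons, ← hs', hQ']

/-- In a valuation ring, a product of `m` elements divides the `m`-th power of one of them. -/
theorem exists_prod_dvd {T : Type u} [CommRing T] [IsDomain T] [ValuationRing T] {I : Type u}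
    (g : I → T) (s : Multiset I) :
    s ≠ 0 → ∃ a ∈ s, (s.map g).prod ∣ g a ^ Multiset.card s := by
  induction s using Multiset.induction with
  | empty => intro h; exact absurd rfl h
  | cons b t ih =>
    intro _
    rcases eq_or_ne t 0 with rfl | ht
    · exact ⟨b, Multiset.mem_cons_self _ _, by simp⟩
    · obtain ⟨a, ha, hd⟩ := ih ht
      rw [Multiset.map_cons, Multiset.prod_cons, Multiset.card_cons]
      rcases ValuationRing.dvd_total (g a) (g b) with h | h
      · refine ⟨b, Multiset.mem_cons_self _ _, ?_⟩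
        rw [pow_succ', ]
        exact mul_dvd_mul dvd_rfl (hd.trans (pow_dvd_pow_of_dvd h _))
      · refine ⟨a, Multiset.mem_cons_of_mem ha, ?_⟩
        rw [pow_succ']
        exact mul_dvd_mul h hd

end Pool.Agent.DC.CLRX

namespace Pool.Agent.DC

open scoped Classical
open Pool.Agent.LibDb3ab1 CLCX CLRX Polynomial

universe u

variable {K : Type u} [Field K] (O : ValuationSubring K) (p : ℕ) [Fact p.Prime]
  [Fact ¬IsUnit (p : O)] [IsAdicComplete (Ideal.span {(p : O)}) O]

theorem clr_proof (hI : Stmt_Intg.{u}) (b : TB O p) : Stmt_Clr O p b := by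
  intro C₀ _ _ ι₀ V₀ h₀ _ _ L A hL hA C₁ _ ι₁ O₁ h₁ κ _ _ hκι hO hAO hrank
  have hAg : ∀ a : V₀, a ∈ A ↔ ∃ x : O₁, kap hO x = a := by
    intro a
    rw [hAO]
    constructor
    · rintro ⟨x, hx⟩
      exact ⟨x, Subtype.ext hx⟩
    · rintro ⟨x, hx⟩
      exact ⟨x, by rw [← hx]; rfl⟩
  -- the pseudo-uniformiser
  have hϖ₀ : (p : V₀) = h₀.incl b.u * PreTilt.untilt (b.ϖV h₀) := by
    rw [TB.ϖV, untilt_tmap, ← map_mul, ← b.hϖ, map_natCast]
  have hu₀ : IsUnit (h₀.incl b.u) := b.hu.map _
  have hpV : (p : V₀) ≠ 0 := by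
    intro h
    apply b.hp0
    have h1 := congrArg (fun x : V₀ => (x : C₀)) h
    have h2 : (p : C₀) = 0 := by simpa using h1
    apply ι₀.injective
    rw [map_natCast, h2, map_zero]
  have hϖne : b.ϖV h₀ ≠ 0 := by
    intro h
    apply hpV
    rw [hϖ₀, h, untilt_zero, mul_zero]
  have hp1 : (p : O₁) ≠ 0 := by
    intro h
    apply hpV
    rw [← map_natCast (kap hO), h, map_zero]
  have hPU : PU (p : O₁) := by
    refine ⟨hp1, Fact.out, fun x hx => ?_⟩
    by_contra hcon
    push Not at hcon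
    apply hx
    apply eq_of_forall_dvd (p := p)
    intro n
    rw [sub_zero]
    rcases ValuationRing.dvd_total ((p : O₁) ^ n) x with h | h
    · exact h
    · exact absurd h (hcon n)
  -- roots in `L`
  have hrootL : ∀ f : (L)[X], f.Monic → f.natDegree ≠ 0 → ∃ y, f.eval y = 0 := by
    intro f hf hd
    obtain ⟨y, hy, hy0⟩ := hL.root (f.map L.subtype) (hf.map _)
      (by rw [hf.natDegree_map]; omega) (by
        intro i
        rw [coeff_map]
        exact (f.coeff i).2)
    refine ⟨⟨y, hy⟩, ?_⟩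
    apply Subtype.ext
    have h1 : eval (L.subtype ⟨y, hy⟩) (f.map L.subtype) = L.subtype (f.eval ⟨y, hy⟩) :=
      eval_map_apply L.subtype _
    change L.subtype (f.eval ⟨y, hy⟩) = 0
    rw [← h1]
    exact hy0
  -- the approximation step
  have step : ∀ (M : ℕ), M ≠ 0 → ∀ c ∈ L, c ^ M = b.ϖV h₀ → ∀ x : V₀,
      (∃ f : C₁[X], f ≠ 0 ∧ f.natDegree ≤ M ∧ f.eval₂ κ (x : C₀) = 0) →
      ∃ y ∈ L, ∃ x₁ : V₀, x = PreTilt.untilt y + PreTilt.untilt c * x₁ := by
    intro M hM c hc hcM x hx
    obtain ⟨f₀, hf₀, hf₀d, hf₀x⟩ := hx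
    letI : Algebra C₁ C₀ := κ.toAlgebra
    have halg : IsAlgebraic C₁ (x : C₀) := ⟨f₀, hf₀, hf₀x⟩
    have hint : IsIntegral C₁ (x : C₀) := halg.isIntegral
    set f : C₁[X] := minpoly C₁ (x : C₀) with hfdef
    have hfm : f.Monic := minpoly.monic hint
    have hfi : Irreducible f := minpoly.irreducible hint
    have hfx : f.eval₂ κ (x : C₀) = 0 := minpoly.aeval C₁ (x : C₀)
    have hfd : f.natDegree ≤ M :=
      (natDegree_le_natDegree (minpoly.degree_le_of_ne_zero C₁ (x : C₀) hf₀ hf₀x)).trans hf₀d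
    have hfd0 : f.natDegree ≠ 0 := (hfi.natDegree_pos).ne'
    have hco := hI O₁ C₁ (p : O₁) hPU (SCXX.sc_of_complete (p : O₁)) hrank C₀ κ V₀ (by
      intro z
      rw [← hO]
      exact ⟨fun hz => ⟨⟨z, hz⟩, rfl⟩, fun ⟨w, hw⟩ => hw ▸ w.2⟩) f x hfm hfi hfx x.2
    -- lift `f` to `O₁`
    have hlift : f ∈ lifts (algebraMap O₁ C₁) := by
      rw [lifts_iff_coeff_lifts]
      intro i
      exact hco i
    obtain ⟨g, hgf, hgd, hgm⟩ := lifts_and_natDegree_eq_and_monic hlift hfm
    have hgx : (g.map (kap hO)).eval x = 0 := by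
      apply Subtype.ext
      have h1 : V₀.subtype ((g.map (kap hO)).eval x) =
          (g.map (V₀.subtype.comp (kap hO))).eval (x : C₀) := by
        rw [← map_map]
        exact (eval_map_apply V₀.subtype _).symm
      change V₀.subtype ((g.map (kap hO)).eval x) = 0
      rw [h1]
      have h2 : V₀.subtype.comp (kap hO) = κ.comp (algebraMap O₁ C₁) := by
        ext z; rfl
      rw [h2, ← map_map, hgf, eval_map]
      exact hfx
    -- the reduction modulo `p` lifts to `L`
    let ρ : L →+* ModP V₀ p := (PreTilt.coeff (O := V₀) (p := p) 0).comp L.subtype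
    let G : (ModP V₀ p)[X] := (g.map (kap hO)).map (Ideal.Quotient.mk _)
    have hGm : G.Monic := (hgm.map _).map _
    haveI : Nontrivial (ModP V₀ p) := Ideal.Quotient.nontrivial_iff.mpr (by
      rw [Ne, Ideal.span_singleton_eq_top]
      exact Fact.out)
    have hGd : G.natDegree = f.natDegree := by
      rw [(hgm.map _).natDegree_map, hgm.natDegree_map, hgd]
    have hGl : G ∈ lifts ρ := by
      rw [lifts_iff_coeff_lifts]
      intro i
      obtain ⟨y, hy, x', -, hx'⟩ := hA.exp (kap hO (g.coeff i)) ((hAg _).2 ⟨_, rfl⟩)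
      refine ⟨⟨y, hy⟩, ?_⟩
      change PreTilt.coeff 0 y = G.coeff i
      rw [coeff_map, coeff_map, hx', map_add, map_mul, PreTilt.mk_untilt_eq_coeff_zero]
      have h3 : (Ideal.Quotient.mk (Ideal.span {(p : V₀)})) (p : V₀) = 0 :=
        Ideal.Quotient.eq_zero_iff_mem.mpr (Ideal.mem_span_singleton_self _)
      rw [h3, zero_mul, add_zero]
    obtain ⟨Q, hQG, hQd, hQm⟩ := lifts_and_natDegree_eq_and_monic hGl hGm
    obtain ⟨s, hs, hQs⟩ := exists_split hrootL _ Q hQm rfl
    have hs0 : s ≠ 0 := by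
      rintro rfl
      rw [Multiset.card_zero, hQd, hGd] at hs
      exact hfd0 hs.symm
    have hprod : (p : V₀) ∣ (s.map fun y : L => x - PreTilt.untilt (y : PreTilt V₀ p)).prod := by
      rw [← Ideal.mem_span_singleton, ← Ideal.Quotient.eq_zero_iff_mem, map_multiset_prod,
        Multiset.map_map]
      have h4 : eval (Ideal.Quotient.mk (Ideal.span {(p : V₀)}) x) G = 0 := by
        change eval _ ((g.map (kap hO)).map _) = 0
        rw [eval_map_apply, hgx, map_zero]
      rw [← hQG, hQs, Polynomial.map_multiset_prod, eval_multiset_prod, Multiset.map_map,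
        Multiset.map_map] at h4
      rw [← h4]
      congr 1
      apply Multiset.map_congr rfl
      intro y _
      simp only [Function.comp_apply, Polynomial.map_sub, map_X, map_C, eval_sub, eval_X, eval_C,
        map_sub, PreTilt.mk_untilt_eq_coeff_zero]
      rfl
    obtain ⟨y, _, hy⟩ := exists_prod_dvd
      (fun y : L => x - PreTilt.untilt (y : PreTilt V₀ p)) s hs0
    have hyM : (PreTilt.untilt c) ^ M ∣ (x - PreTilt.untilt (y : PreTilt V₀ p)) ^ M := by
      have h5 : (p : V₀) ∣ (x - PreTilt.untilt (y : PreTilt V₀ p)) ^ M := by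
        refine (hprod.trans hy).trans (pow_dvd_pow _ ?_)
        rw [hs, hQd, hGd]
        exact hfd
      rw [← map_pow, hcM]
      rw [hϖ₀] at h5
      exact (Dvd.intro_left _ rfl).trans h5
    obtain ⟨x₁, hx₁⟩ := dvd_of_pow_dvd_pow' hM hyM
    exact ⟨y, y.2, x₁, by rw [← hx₁]; ring⟩
  -- algebraic elements of `V₀` are in `A`
  have main : ∀ x : V₀, (∃ f : C₁[X], f ≠ 0 ∧ f.eval₂ κ (x : C₀) = 0) → x ∈ A := by
    rintro x ⟨f, hf, hfx⟩
    set M := f.natDegree + 1 with hMdef
    have hM : M ≠ 0 := by omega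
    obtain ⟨c, hc, hcM⟩ : ∃ c ∈ L, c ^ M = b.ϖV h₀ := by
      obtain ⟨z, hz, hz0⟩ := hL.root (X ^ M - C (b.ϖV h₀))
        (monic_X_pow_sub_C _ hM) (by rw [natDegree_X_pow_sub_C]; omega) (by
          intro i
          rw [coeff_sub, coeff_X_pow, coeff_C]
          refine L.sub_mem ?_ ?_
          · split_ifs
            · exact L.one_mem
            · exact L.zero_mem
          · split_ifs
            · exact hL.base _
            · exact L.zero_mem)
      refine ⟨z, hz, ?_⟩
      rwa [eval_sub, eval_pow, eval_X, eval_C, sub_eq_zero] at hz0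
    have hc0 : PreTilt.untilt c ≠ 0 := by
      intro h
      apply hϖne
      rw [← hcM, eq_zero_of_untilt h, zero_pow hM]
    obtain ⟨c', hc'⟩ := (hAg _).1 (hA.sharp c hc)
    have hc'0 : (c' : C₁) ≠ 0 := by
      intro h
      apply hc0
      have : c' = 0 := Subtype.ext h
      rw [← hc', this, map_zero]
    have iter : ∀ N : ℕ, ∃ a ∈ A, ∃ x₁ : V₀,
        (∃ f : C₁[X], f ≠ 0 ∧ f.natDegree ≤ M ∧ f.eval₂ κ (x₁ : C₀) = 0) ∧
        x = a + PreTilt.untilt c ^ N * x₁ := by
      intro N
      induction N with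
      | zero => exact ⟨0, A.zero_mem, x, ⟨f, hf, by omega, hfx⟩, by rw [pow_zero]; ring⟩
      | succ N ih =>
        obtain ⟨a, ha, x₁, hx₁, hx⟩ := ih
        obtain ⟨y, hy, x₂, hx₂⟩ := step M hM c hc hcM x₁ hx₁
        obtain ⟨y', hy'⟩ := (hAg _).1 (hA.sharp y hy)
        refine ⟨a + PreTilt.untilt c ^ N * PreTilt.untilt y,
          A.add_mem ha (A.mul_mem (A.pow_mem (hA.sharp c hc) _) (hA.sharp y hy)), x₂, ?_, ?_⟩
        · obtain ⟨g, hg, hgd, hgx⟩ := hx₁
          refine ⟨g.comp (C (y' : C₁) + C (c' : C₁) * X), ?_, ?_, ?_⟩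
          · intro h0
            rw [comp_eq_zero_iff] at h0
            rcases h0 with h0 | ⟨-, h0⟩
            · exact hg h0
            · have h6 := congrArg (fun q : C₁[X] => q.coeff 1) h0
              simp [coeff_C] at h6
              exact hc'0 (by simpa using h6)
          · refine natDegree_comp_le.trans ?_
            have h7 : (C (y' : C₁) + C (c' : C₁) * X).natDegree ≤ 1 := by
              refine (natDegree_add_le _ _).trans ?_
              rw [natDegree_C]
              exact max_le (Nat.zero_le _) ((natDegree_C_mul_le _ _).trans natDegree_X_le)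
            calc g.natDegree * _ ≤ M * 1 := Nat.mul_le_mul hgd h7
              _ = M := mul_one _
          · rw [eval₂_comp]
            have h8 : eval₂ κ (x₂ : C₀) (C (y' : C₁) + C (c' : C₁) * X) = (x₁ : C₀) := by
              rw [eval₂_add, eval₂_mul, eval₂_C, eval₂_C, eval₂_X, hx₂]
              push_cast
              rw [← coe_kap hO, ← coe_kap hO, hy', hc']
            rw [h8]
            exact hgx
        · rw [hx, hx₂]
          ring
    apply hA.closed
    intro N
    obtain ⟨a, ha, x₁, -, hx⟩ := iter (M * N)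
    refine ⟨a, ha, ?_⟩
    rw [hx, add_sub_cancel_left, pow_mul, ← map_pow, hcM]
    refine Dvd.dvd.mul_right ?_ _
    apply pow_dvd_pow_of_dvd
    rw [hϖ₀]
    exact (hu₀.mul_left_dvd).mpr dvd_rfl
  -- conclusion
  apply IsAlgClosed.of_exists_root
  intro f hfm hfi
  have hdeg : (f.map κ).degree ≠ 0 := by
    rw [degree_map]
    intro h
    have h1 := hfi.natDegree_pos
    have h' : f.natDegree = 0 := natDegree_eq_zero_iff_degree_le_zero.mpr h.le
    omega
  obtain ⟨z, hz⟩ := IsAlgClosed.exists_root (f.map κ) hdeg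
  rw [IsRoot.def, eval_map] at hz
  obtain ⟨w, hw⟩ : ∃ w : C₁, κ w = z := by
    rcases V₀.mem_or_inv_mem z with h | h
    · obtain ⟨w, hw⟩ := (hAO ⟨z, h⟩).1 (main ⟨z, h⟩ ⟨f, hfm.ne_zero, hz⟩)
      exact ⟨w, hw⟩
    · letI : Algebra C₁ C₀ := κ.toAlgebra
      have h9 : IsAlgebraic C₁ z := ⟨f, hfm.ne_zero, hz⟩
      obtain ⟨g, hg, hgz⟩ := h9.inv
      obtain ⟨w, hw⟩ := (hAO ⟨z⁻¹, h⟩).1 (main ⟨z⁻¹, h⟩ ⟨g, hg, hgz⟩)
      exact ⟨(w : C₁)⁻¹, by rw [map_inv₀, hw, inv_inv]⟩
  refine ⟨w, κ.injective ?_⟩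
  rw [map_zero, ← hz, ← hw]
  exact (eval₂_at_apply κ w).symm

end Pool.Agent.DC
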