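import Pool.Agent.DC.StmtsB

/-!
# Normed field structures on the fraction fields of the tilts
-/

set_option autoImplicit false
set_option linter.unusedSectionVars false

noncomputable section

namespace Pool.Agent.DC

open scoped Classical
open Pool.Agent.LibDb3ab1

universe u

section gen

variable {W : Type u} [CommRing W] [IsDomain W] [ValuationRing W] {F : Type u} [Field F]
  [Algebra W F] [IsFractionRing W F] {ϖ : W}

/-- The normed field defined by a pseudo-uniformiser. -/
@[reducible]
def nfPU (h : PU ϖ) : NormedField F := (vabs (F := F) h).toNormedField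

theorem norm_nfPU (h : PU ϖ) (x : F) : @norm F (nfPU h).toNorm x = vn F ϖ x := rfl

theorem vn_inv (h : PU ϖ) (x : F) : vn F ϖ x⁻¹ = (vn F ϖ x)⁻¹ := map_inv₀ (vabs (F := F) h) x

/-- The nontrivially normed field defined by a pseudo-uniformiser. -/
@[reducible]
def nnfPU (h : PU ϖ) : NontriviallyNormedField F :=
  { nfPU (F := F) h with
    non_trivial := ⟨(algebraMap W F ϖ)⁻¹, by
      change 1 < vn F ϖ (algebraMap W F ϖ)⁻¹
      rw [vn_inv h, vn_self h]
      norm_num⟩ }

theorem ultra_nfPU (h : PU ϖ) :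
    @IsUltrametricDist F (nfPU h).toMetricSpace.toPseudoMetricSpace.toDist :=
  letI := nfPU (F := F) h
  IsUltrametricDist.isUltrametricDist_of_forall_norm_add_le_max_norm fun x y => vn_add_le h x y

theorem complete_nfPU (h : PU ϖ)
    (hc : ∀ x : ℕ → F, (∀ ε : ℝ, 0 < ε → ∃ N, ∀ i ≥ N, ∀ j ≥ N, vn F ϖ (x i - x j) < ε) →
      ∃ y, ∀ ε : ℝ, 0 < ε → ∃ N, ∀ i ≥ N, vn F ϖ (x i - y) < ε) :
    @CompleteSpace F (nfPU h).toMetricSpace.toPseudoMetricSpace.toUniformSpace := by
  letI := nfPU (F := F) h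
  apply Metric.complete_of_cauchySeq_tendsto
  intro x hx
  rw [Metric.cauchySeq_iff] at hx
  obtain ⟨y, hy⟩ := hc x fun ε hε => by
    obtain ⟨N, hN⟩ := hx ε hε
    refine ⟨N, fun i hi j hj => ?_⟩
    have := hN i hi j hj
    rwa [dist_eq_norm] at this
  refine ⟨y, ?_⟩
  rw [Metric.tendsto_atTop]
  intro ε hε
  obtain ⟨N, hN⟩ := hy ε hε
  refine ⟨N, fun i hi => ?_⟩
  rw [dist_eq_norm]
  exact hN i hi

end gen

section tilt

variable {K : Type u} [Field K] {O : ValuationSubring K} {p : ℕ} [Fact p.Prime]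
  [Fact ¬IsUnit (p : O)] [IsAdicComplete (Ideal.span {(p : O)}) O]

theorem charP_TF {C : Type u} [Field C] (V : ValuationSubring C) [Fact ¬IsUnit (p : V)] :
    CharP (TF V p) p :=
  charP_of_injective_algebraMap (IsFractionRing.injective (PreTilt V p) (TF V p)) p

theorem tmap_id : tmap (p := p) (RingHom.id O) = RingHom.id (PreTilt O p) := by
  ext x
  apply preTilt_ext
  intro n
  rw [coeff_tmap]
  obtain ⟨y, hy⟩ := Ideal.Quotient.mk_surjective (PreTilt.coeff n x)
  rw [← hy, modMap_mk, RingHom.id_apply, RingHom.id_apply, hy]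

/-- The field itself, as an extension of itself. -/
theorem valuedExt_id : ValuedExt O (RingHom.id K) O where
  comap_eq := by
    ext x
    rfl
  cont x hx := ⟨x, hx, by rw [RingHom.id_apply, div_self hx]; exact O.one_mem⟩

theorem incl_id : (valuedExt_id (O := O)).incl = RingHom.id O := by
  ext x
  rfl

theorem ϖV_id (b : TB O p) : b.ϖV (valuedExt_id (O := O)) = b.ϖ := by
  rw [TB.ϖV, incl_id, tmap_id]
  rfl

theorem nT_id (b : TB O p) (x : TF O p) : nT (valuedExt_id (O := O)) b x = nk b x := by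
  rw [nT, nk, ϖV_id]

theorem cf_id : cf (p := p) (valuedExt_id (O := O)) = algebraMap (PreTilt O p) (TF O p) := by
  rw [cf, incl_id, tmap_id, RingHom.comp_id]

end tilt

end Pool.Agent.DC
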