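import Pool.Agent.DC.StmtsB

set_option autoImplicit false
set_option linter.unusedSectionVars false

noncomputable section

namespace Pool.Agent.DC

open scoped Classical
open Pool.Agent.LibDb3ab1

universe u

namespace TN

section general

variable {W : Type u} [CommRing W] [IsDomain W] [ValuationRing W] {F : Type u} [Field F]
  [Algebra W F] [IsFractionRing W F] {ϖ : W}

theorem inP_algebraMap (h : PU ϖ) (a : ℤ) (y : W) :
    InP F ϖ a (algebraMap W F y) ↔ ϖ ^ a.toNat ∣ y := by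
  rcases le_or_gt 0 a with ha | ha
  · obtain ⟨n, rfl⟩ := Int.eq_ofNat_of_zero_le ha
    rw [Int.toNat_natCast]
    constructor
    · rintro ⟨w, hw⟩
      refine ⟨w, IsFractionRing.injective W F ?_⟩
      rw [hw, map_mul, map_pow, zpow_natCast]
    · rintro ⟨w, hw⟩
      exact ⟨w, by rw [hw, map_mul, map_pow, zpow_natCast]⟩
  · rw [Int.toNat_of_nonpos ha.le, pow_zero]
    refine iff_of_true ?_ (one_dvd y)
    obtain ⟨n, hn⟩ := Int.eq_ofNat_of_zero_le (show 0 ≤ -a by omega)
    refine ⟨ϖ ^ n * y, ?_⟩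
    have h1 : a = -(n : ℤ) := by omega
    rw [h1, map_mul, map_pow, zpow_neg, zpow_natCast, ← mul_assoc,
      inv_mul_cancel₀ (pow_ne_zero _ h.map_ne), one_mul]

/-- comparison of two norms -/
theorem vn_eq_of_dvd_iff {W' : Type u} [CommRing W'] [IsDomain W'] [ValuationRing W']
    {F' : Type u} [Field F'] [Algebra W' F'] [IsFractionRing W' F'] {ϖ' : W'} (h : PU ϖ)
    (h' : PU ϖ') (y : W) (y' : W') (hd : ∀ n b : ℕ, ϖ ^ n ∣ y ^ b ↔ ϖ' ^ n ∣ y' ^ b) :
    vn F ϖ (algebraMap W F y) = vn F' ϖ' (algebraMap W' F' y') := by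
  have key : vset (F := F) ϖ (algebraMap W F y) = vset (F := F') ϖ' (algebraMap W' F' y') := by
    ext r
    constructor
    · rintro ⟨a, b, hb, hr, hp⟩
      refine ⟨a, b, hb, hr, ?_⟩
      rw [← map_pow, inP_algebraMap h'] 
      rw [← map_pow, inP_algebraMap h] at hp
      exact (hd _ _).mp hp
    · rintro ⟨a, b, hb, hr, hp⟩
      refine ⟨a, b, hb, hr, ?_⟩
      rw [← map_pow, inP_algebraMap h] 
      rw [← map_pow, inP_algebraMap h'] at hp
      exact (hd _ _).mpr hp
  rw [vn_eq, vn_eq, key]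

theorem vn_div (h : PU ϖ) (x y : F) : vn F ϖ (x / y) = vn F ϖ x / vn F ϖ y := by
  have := map_div₀ (vabs (F := F) h) x y
  exact this

theorem dvd_of_vn_lt (h : PU ϖ) {w : W} {n : ℕ}
    (hw : vn F ϖ (algebraMap W F w) < (1 / 2) ^ n) : ϖ ^ n ∣ w := by
  have h1 : vn F ϖ (algebraMap W F w / algebraMap W F ϖ ^ n) < 1 := by
    rw [vn_div h, vn_pow h, vn_self h, div_lt_one (by positivity)]
    exact hw
  obtain ⟨v, hv⟩ := exists_of_vn_lt h h1
  refine ⟨v, IsFractionRing.injective W F ?_⟩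
  rw [map_mul, map_pow, hv, mul_div_cancel₀]
  exact pow_ne_zero _ h.map_ne

theorem vn_le_of_dvd (h : PU ϖ) {w : W} {n : ℕ} (hw : ϖ ^ n ∣ w) :
    vn F ϖ (algebraMap W F w) ≤ (1 / 2) ^ n := by
  obtain ⟨v, rfl⟩ := hw
  rw [map_mul, map_pow, vn_mul h, vn_pow h, vn_self h]
  have h1 := vn_le_one (F := F) (ϖ := ϖ) v
  have h2 : (0 : ℝ) < (1 / 2) ^ n := by positivity
  nlinarith

end general

section complete

variable {V : Type u} [CommRing V] [IsDomain V] {p : ℕ} [Fact p.Prime]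
  [Fact ¬IsUnit (p : V)] [IsAdicComplete (Ideal.span {(p : V)}) V] [ValuationRing V]

theorem complete {ϖ : PreTilt V p} {u : V} (hu : IsUnit u)
    (hϖ : (p : V) = u * PreTilt.untilt ϖ) (h : PU ϖ)
    {F : Type u} [Field F] [Algebra (PreTilt V p) F] [IsFractionRing (PreTilt V p) F]
    (x : ℕ → F)
    (hx : ∀ ε : ℝ, 0 < ε → ∃ N, ∀ i ≥ N, ∀ j ≥ N, vn F ϖ (x i - x j) < ε) :
    ∃ y, ∀ ε : ℝ, 0 < ε → ∃ N, ∀ i ≥ N, vn F ϖ (x i - y) < ε := by
  obtain ⟨N₀, hN₀⟩ := hx 1 one_pos
  have h1 : ∀ i : ℕ, ∃ w : PreTilt V p, N₀ ≤ i → algebraMap (PreTilt V p) F w = x i - x N₀ := by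
    intro i
    by_cases hi : N₀ ≤ i
    · obtain ⟨w, hw⟩ := exists_of_vn_lt h (hN₀ i hi N₀ le_rfl)
      exact ⟨w, fun _ => hw⟩
    · exact ⟨0, fun h => absurd h hi⟩
  choose w hw using h1
  have h2 : ∀ k : ℕ, ∃ M, N₀ ≤ M ∧ ∀ i ≥ M, ∀ j ≥ M, ϖ ^ p ^ k ∣ w i - w j := by
    intro k
    obtain ⟨N, hN⟩ := hx ((1 / 2) ^ p ^ k) (by positivity)
    refine ⟨max N N₀, le_max_right _ _, fun i hi j hj => ?_⟩
    apply dvd_of_vn_lt (F := F) h
    rw [map_sub, hw i (le_trans (le_max_right _ _) hi), hw j (le_trans (le_max_right _ _) hj),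
      sub_sub_sub_cancel_right]
    exact hN i (le_trans (le_max_left _ _) hi) j (le_trans (le_max_left _ _) hj)
  choose M hM0 hM using h2
  have hc : ∀ k i j, M k ≤ i → M k ≤ j → PreTilt.coeff k (w i) = PreTilt.coeff k (w j) := by
    intro k i j hi hj
    rw [← sub_eq_zero, ← map_sub, coeff_eq_zero_iff hu hϖ]
    exact hM k i hi j hj
  let c : ℕ → ModP V p := fun k => PreTilt.coeff k (w (M k))
  have hcc : ∀ k, c (k + 1) ^ p = c k := by
    intro k
    have e1 : c (k + 1) = PreTilt.coeff (k + 1) (w (max (M k) (M (k + 1)))) :=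
      hc (k + 1) _ _ le_rfl (le_max_right _ _)
    have e2 : c k = PreTilt.coeff k (w (max (M k) (M (k + 1)))) :=
      hc k _ _ le_rfl (le_max_left _ _)
    rw [e1, e2]
    exact (w (max (M k) (M (k + 1)))).2 k
  let y : PreTilt V p := (⟨c, hcc⟩ : Perfection (ModP V p) p)
  have hy : ∀ k, PreTilt.coeff k y = c k := fun k => rfl
  refine ⟨x N₀ + algebraMap (PreTilt V p) F y, fun ε hε => ?_⟩
  obtain ⟨k, hk⟩ := exists_pow_lt_of_lt_one hε (show (1 / 2 : ℝ) < 1 by norm_num)
  refine ⟨M k, fun i hi => ?_⟩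
  have h3 : x i - (x N₀ + algebraMap (PreTilt V p) F y) =
      algebraMap (PreTilt V p) F (w i - y) := by
    rw [map_sub, hw i ((hM0 k).trans hi)]
    ring
  rw [h3]
  have h4 : ϖ ^ p ^ k ∣ w i - y := by
    rw [← coeff_eq_zero_iff hu hϖ, map_sub, sub_eq_zero, hy]
    exact hc k _ _ hi le_rfl
  have h5 : ϖ ^ k ∣ w i - y :=
    (pow_dvd_pow ϖ (Nat.lt_pow_self (Fact.out : p.Prime).one_lt).le).trans h4
  exact lt_of_le_of_lt (vn_le_of_dvd h h5) hk

end complete

end TN

open TN in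
theorem tn_proof {K : Type u} [Field K] (O : ValuationSubring K) (p : ℕ) [Fact p.Prime]
    [Fact ¬IsUnit (p : O)] [IsAdicComplete (Ideal.span {(p : O)}) O] (b : TB O p)
    (hpux : Stmt_PUX O p b) : Stmt_TN O p b := by
  obtain ⟨hPU, hPUV⟩ := hpux
  refine ⟨fun x hx => complete b.hu b.hϖ hPU x hx, ?_⟩
  intro C _ ι V hV _ _
  obtain ⟨hp, hv⟩ := hPUV C ι V hV
  have huV : IsUnit (hV.incl b.u) := b.hu.map _
  have hϖV : (p : V) = hV.incl b.u * PreTilt.untilt (b.ϖV hV) := by
    have h1 := congrArg hV.incl b.hϖ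
    rw [map_natCast, map_mul] at h1
    rw [h1, TB.ϖV, untilt_tmap]
  have hdvd : ∀ s t : O, hV.incl s ∣ hV.incl t ↔ s ∣ t := by
    intro s t
    constructor
    · rintro ⟨w, hw⟩
      by_cases hs : s = 0
      · rw [hs, map_zero, zero_mul] at hw
        have : t = 0 := incl_injective hV (by rw [hw, map_zero])
        rw [this]
        exact dvd_zero _
      · have hs' : (s : K) ≠ 0 := fun h0 => hs (Subtype.ext h0)
        have h1 : ι ((t : K) / s) = w := by
          have h2 : ι (t : K) = ι (s : K) * w := by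
            have := congrArg (fun z : V => (z : C)) hw
            simpa using this
          rw [map_div₀, h2, mul_div_cancel_left₀]
          rw [Ne, map_eq_zero]
          exact hs'
        have h3 : (t : K) / s ∈ O := by
          have h4 : (t : K) / s ∈ V.comap ι := by
            rw [ValuationSubring.mem_comap, h1]
            exact w.2
          rwa [hV.comap_eq] at h4
        refine ⟨⟨(t : K) / s, h3⟩, Subtype.ext ?_⟩
        show (t : K) = s * (t / s)
        field_simp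
    · exact fun h => map_dvd _ h
  refine ⟨?_, ?_, fun x hx => complete huV hϖV hv x hx⟩
  · intro x
    have key := vn_eq_of_dvd_iff (F := TF V p) (F' := C) hv hp x (PreTilt.untilt x : V) (by
      intro n m
      rw [hϖV, mul_pow, (huV.pow n).mul_left_dvd, ← map_pow, ← map_pow, untilt_dvd_iff])
    exact key
  · intro x
    have h0 : ∀ y : PreTilt O p, nT hV b (tf hV (algebraMap _ (TF O p) y)) =
        nk b (algebraMap _ (TF O p) y) := by
      intro y
      rw [tf_algebraMap]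
      refine vn_eq_of_dvd_iff (F := TF V p) (F' := TF O p) hv hPU (tmap hV.incl y) y ?_
      intro n m
      rw [TB.ϖV, ← map_pow, ← map_pow, ← untilt_dvd_iff, untilt_tmap, untilt_tmap, hdvd,
        untilt_dvd_iff]
    obtain ⟨y, z, hz, rfl⟩ := IsFractionRing.div_surjective (A := PreTilt O p) x
    have h1 := h0 y
    have h2 := h0 z
    unfold nT nk at *
    rw [map_div₀, vn_div hv, vn_div hPU, h1, h2]

end Pool.Agent.DC
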