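import Pool.Agent.DC.StmtsG
import Pool.Agent.DC.TN
import Pool.Agent.DC.Inst

/-!
# Module INTG: integrality of the coefficients (the spectral norm)
-/

set_option autoImplicit false
set_option linter.unusedSectionVars false

noncomputable section

namespace Pool.Agent.DC

open scoped Classical
open Pool.Agent.LibDb3ab1

universe u

namespace INTGX

section

variable {W : Type u} [CommRing W] [IsDomain W] [ValuationRing W] {F : Type u} [Field F]
  [Algebra W F] [IsFractionRing W F] {ϖ : W}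

theorem complete_of_SC (h : PU ϖ) (hs : SC ϖ) (x : ℕ → F)
    (hx : ∀ ε : ℝ, 0 < ε → ∃ N, ∀ i ≥ N, ∀ j ≥ N, vn F ϖ (x i - x j) < ε) :
    ∃ y, ∀ ε : ℝ, 0 < ε → ∃ N, ∀ i ≥ N, vn F ϖ (x i - y) < ε := by
  obtain ⟨N₀, hN₀⟩ := hx 1 one_pos
  have h1 : ∀ i : ℕ, ∃ w : W, N₀ ≤ i → algebraMap W F w = x i - x N₀ := by
    intro i
    by_cases hi : N₀ ≤ i
    · obtain ⟨w, hw⟩ := exists_of_vn_lt h (hN₀ i hi N₀ le_rfl)
      exact ⟨w, fun _ => hw⟩
    · exact ⟨0, fun h => absurd h hi⟩
  choose w hw using h1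
  have h2 : ∀ k : ℕ, ∃ M, N₀ ≤ M ∧ ∀ i ≥ M, ∀ j ≥ M, ϖ ^ k ∣ w i - w j := by
    intro k
    obtain ⟨N, hN⟩ := hx ((1 / 2) ^ k) (by positivity)
    refine ⟨max N N₀, le_max_right _ _, fun i hi j hj => ?_⟩
    apply TN.dvd_of_vn_lt (F := F) h
    rw [map_sub, hw i (le_trans (le_max_right _ _) hi), hw j (le_trans (le_max_right _ _) hj),
      sub_sub_sub_cancel_right]
    exact hN i (le_trans (le_max_left _ _) hi) j (le_trans (le_max_left _ _) hj)
  choose M hM0 hM using h2
  let m : ℕ → ℕ := fun k => (Finset.range (k + 1)).sup M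
  have hm : ∀ k l, k ≤ l → M k ≤ m l := fun k l hkl =>
    Finset.le_sup (f := M) (Finset.mem_range.mpr (Nat.lt_succ_of_le hkl))
  obtain ⟨y, hy⟩ := hs (fun k => w (m k)) fun k =>
    hM k _ (hm k (k + 1) (Nat.le_succ k)) _ (hm k k le_rfl)
  refine ⟨x N₀ + algebraMap W F y, fun ε hε => ?_⟩
  obtain ⟨k, hk⟩ := exists_pow_lt_of_lt_one hε (show (1 / 2 : ℝ) < 1 by norm_num)
  refine ⟨M k, fun i hi => ?_⟩
  have h3 : x i - (x N₀ + algebraMap W F y) = algebraMap W F (w i - y) := by
    rw [map_sub, hw i ((hM0 k).trans hi)]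
    ring
  rw [h3]
  have h4 : ϖ ^ k ∣ w i - y := by
    have e1 := hM k i hi (m k) (hm k k le_rfl)
    have e2 : ϖ ^ k ∣ y - w (m k) := hy k
    have e3 : w i - y = (w i - w (m k)) - (y - w (m k)) := by ring
    rw [e3]
    exact dvd_sub e1 e2
  exact lt_of_le_of_lt (TN.vn_le_of_dvd h h4) hk

theorem of_vn_le (h : PU ϖ) (h1 : ∀ x : W, ¬IsUnit x → ∃ n : ℕ, ϖ ∣ x ^ n) {x : F}
    (hx : vn F ϖ x ≤ 1) : ∃ w : W, algebraMap W F w = x := by
  by_cases hx0 : x = 0
  · exact ⟨0, by rw [map_zero, hx0]⟩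
  rcases (ValuationRing.iff_isInteger_or_isInteger W F).mp inferInstance x with ⟨v, hv⟩ | ⟨v, hv⟩
  · exact ⟨v, hv⟩
  · by_cases hvu : IsUnit v
    · obtain ⟨u, rfl⟩ := hvu
      refine ⟨((u⁻¹ : Wˣ) : W), ?_⟩
      have e1 : algebraMap W F (u : W) * algebraMap W F ((u⁻¹ : Wˣ) : W) = 1 := by
        rw [← map_mul, Units.mul_inv, map_one]
      rw [hv] at e1
      field_simp at e1
      exact e1
    · exfalso
      obtain ⟨n, hn⟩ := h1 v hvu
      have e1 := TN.vn_le_of_dvd (F := F) h (n := 1) (by rwa [pow_one] : ϖ ^ 1 ∣ v ^ n)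
      rw [map_pow, vn_pow h, hv] at e1
      have e2 := vn_mul_inv h hx0
      have e3 : 1 ≤ vn F ϖ x⁻¹ := by
        have e4 := vn_nonneg (ϖ := ϖ) x⁻¹
        nlinarith
      have e5 : 1 ≤ vn F ϖ x⁻¹ ^ n := one_le_pow₀ e3
      norm_num at e1
      linarith

theorem val_lt (h : PU ϖ) {L : Type u} [Field L] {j : F →+* L} {V : ValuationSubring L}
    (hV : ∀ x : F, j x ∈ V ↔ ∃ w : W, algebraMap W F w = x) {c : F} (hc : vn F ϖ c < 1) :
    V.valuation (j c) < 1 := by
  by_cases hc0 : c = 0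
  · rw [hc0, map_zero, map_zero]
    exact zero_lt_one
  by_contra hlt
  push Not at hlt
  have hj : j c ≠ 0 := (map_ne_zero j).mpr hc0
  have e1 : j c⁻¹ ∈ V := by
    rw [← V.valuation_le_one_iff, map_inv₀ j, map_inv₀]
    exact inv_le_one_of_one_le₀ hlt
  obtain ⟨w, hw⟩ := (hV _).mp e1
  have e2 := vn_le_one (F := F) (ϖ := ϖ) w
  rw [hw] at e2
  have e3 := vn_mul_inv h hc0
  have e4 := vn_nonneg (ϖ := ϖ) c⁻¹
  have e5 := vn_nonneg (ϖ := ϖ) c
  nlinarith

end

end INTGX

open INTGX in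
theorem intg_proof : Stmt_Intg.{u} := by
  intro W F _ _ _ _ _ _ ϖ h hs h1 L _ j V hV f x hf hirr hx hxV
  haveI : Fact (Irreducible f) := ⟨hirr⟩
  letI : NontriviallyNormedField F := nnfPU h
  haveI : IsUltrametricDist F := ultra_nfPU h
  haveI : CompleteSpace F := complete_nfPU h (complete_of_SC h hs)
  haveI : Module.Finite F (AdjoinRoot f) := hf.finite_adjoinRoot
  haveI : Algebra.IsAlgebraic F (AdjoinRoot f) := Algebra.IsAlgebraic.of_finite F (AdjoinRoot f)
  let φ : AdjoinRoot f →+* L := AdjoinRoot.lift j x hx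
  have hφr : φ (AdjoinRoot.root f) = x := AdjoinRoot.lift_root hx
  have hφa : ∀ c : F, φ (algebraMap F (AdjoinRoot f) c) = j c := fun c => AdjoinRoot.lift_of hx
  have hmin : minpoly F (AdjoinRoot.root f) = f := by
    rw [AdjoinRoot.minpoly_root hirr.ne_zero, hf.leadingCoeff, inv_one, Polynomial.C_1, mul_one]
  rcases le_or_gt (spectralNorm F (AdjoinRoot f) (AdjoinRoot.root f)) 1 with hle | hgt
  · rw [spectralNorm, hmin, spectralValue_le_one_iff hf] at hle
    intro i
    exact of_vn_le h h1 (hle i)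
  · exfalso
    set r := AdjoinRoot.root f with hr
    have hr0 : r ≠ 0 := by
      intro h0
      rw [h0, spectralNorm_zero] at hgt
      exact absurd hgt (by norm_num)
    have hy : spectralNorm F (AdjoinRoot f) r⁻¹ < 1 := by
      have e1 := spectralAlgNorm_mul (K := F) r r⁻¹
      rw [mul_inv_cancel₀ hr0, spectralAlgNorm_one] at e1
      have e2 : spectralNorm F (AdjoinRoot f) r * spectralNorm F (AdjoinRoot f) r⁻¹ = 1 := e1.symm
      have e3 := spectralNorm_nonneg (K := F) r⁻¹
      nlinarith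
    set g := minpoly F r⁻¹ with hg
    have hint : IsIntegral F r⁻¹ := Algebra.IsIntegral.isIntegral _
    have hgm : g.Monic := minpoly.monic hint
    have hgc : ∀ i, i < g.natDegree → vn F ϖ (g.coeff i) < 1 := by
      intro i hi
      by_contra hlt
      push Not at hlt
      have e1 : spectralValueTerms g i ≤ spectralValue g :=
        le_ciSup (spectralValueTerms_bddAbove g) i
      rw [spectralValueTerms_of_lt_natDegree g hi] at e1
      have e2 : (1 : ℝ) ≤ ‖g.coeff i‖ ^ (1 / (g.natDegree - i : ℝ)) := by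
        apply Real.one_le_rpow hlt
        rw [one_div_nonneg, sub_nonneg, Nat.cast_le]
        exact hi.le
      have e3 : spectralValue g < 1 := hy
      linarith
    have hroot : Polynomial.eval₂ (algebraMap F (AdjoinRoot f)) r⁻¹ g = 0 := minpoly.aeval F r⁻¹
    have hroot2 : Polynomial.eval₂ j x⁻¹ g = 0 := by
      have e1 := congrArg φ hroot
      rw [Polynomial.hom_eval₂, map_inv₀, hφr, map_zero] at e1
      have e2 : φ.comp (algebraMap F (AdjoinRoot f)) = j := RingHom.ext hφa
      rwa [e2] at e1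
    have hx0 : x ≠ 0 := by
      rw [← hφr]
      exact (map_ne_zero φ).mpr hr0
    rw [Polynomial.eval₂_eq_sum_range, Finset.sum_range_succ, hgm.coeff_natDegree, map_one,
      one_mul] at hroot2
    have e4 : ∑ i ∈ Finset.range g.natDegree, j (g.coeff i) * x ^ (g.natDegree - i) = -1 := by
      have e5 := congrArg (· * x ^ g.natDegree) hroot2
      simp only [add_mul, zero_mul, Finset.sum_mul] at e5
      rw [inv_pow, inv_mul_cancel₀ (pow_ne_zero _ hx0)] at e5
      rw [eq_neg_iff_add_eq_zero, ← e5]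
      congr 1
      refine Finset.sum_congr rfl fun i hi => ?_
      have hi' : i < g.natDegree := Finset.mem_range.mp hi
      rw [mul_assoc]
      congr 1
      have e6 : x ^ g.natDegree = x ^ i * x ^ (g.natDegree - i) := by
        rw [← pow_add]
        congr 1
        omega
      rw [e6, ← mul_assoc, inv_pow, inv_mul_cancel₀ (pow_ne_zero _ hx0), one_mul]
    have e7 : V.valuation (∑ i ∈ Finset.range g.natDegree,
        j (g.coeff i) * x ^ (g.natDegree - i)) < 1 := by
      apply Valuation.map_sum_lt _ one_ne_zero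
      intro i hi
      rw [map_mul, map_pow]
      have e8 := val_lt h hV (hgc i (Finset.mem_range.mp hi))
      have e9 : V.valuation x ≤ 1 := (V.valuation_le_one_iff x).mpr hxV
      calc V.valuation (j (g.coeff i)) * V.valuation x ^ (g.natDegree - i)
          ≤ V.valuation (j (g.coeff i)) * 1 := by
            gcongr
            exact pow_le_one₀ zero_le e9
        _ < 1 := by rwa [mul_one]
    rw [e4, Valuation.map_neg, map_one] at e7
    exact lt_irrefl _ e7

end Pool.Agent.DC
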