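import Pool.Agent.DC.StmtsC

/-!
# Statements of the modules of parts A and E (commutative algebra)
-/

set_option autoImplicit false
set_option linter.unusedSectionVars false

noncomputable section

namespace Pool.Agent.DC

open scoped Classical

universe u

section general

/-- HOMEXT: homomorphisms to an algebraically closed field extend along integral extensions. -/
def Stmt_HomExt : Prop :=
  ∀ (R S Ω : Type u) [CommRing R] [CommRing S] [Field Ω] [IsAlgClosed Ω] (i : R →+* S),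
    Function.Injective i → i.IsIntegral → ∀ φ : R →+* Ω, ∃ ψ : S →+* Ω, ψ.comp i = φ

/-- NN: Noether normalisation by linear forms, for cones of dimension two. -/
def Stmt_NN (k : Type u) [Field k] [Infinite k] : Prop :=
  ∀ (n : ℕ) (𝔓 : Ideal (MvPolynomial (Fin (n + 1)) k)), 𝔓.IsPrime →
    (∀ F ∈ 𝔓, ∀ m, MvPolynomial.homogeneousComponent m F ∈ 𝔓) →
    ringKrullDim (MvPolynomial (Fin (n + 1)) k ⧸ 𝔓) = 2 →
    ∃ L : Fin 2 → MvPolynomial (Fin (n + 1)) k, (∀ j, (L j).IsHomogeneous 1) ∧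
      (∀ g : MvPolynomial (Fin 2) k, MvPolynomial.aeval L g ∈ 𝔓 → g = 0) ∧
      ∀ i, ∃ (e : ℕ) (f : MvPolynomial (Fin 3) k), 0 < e ∧ f.IsHomogeneous e ∧
        f.coeff (Finsupp.single 2 e) = 1 ∧
        MvPolynomial.aeval ![L 0, L 1, MvPolynomial.X i] f ∈ 𝔓

/-- GEN: generic extension of homomorphisms (uses HOMEXT). -/
def Stmt_Gen (k : Type u) [Field k] : Prop :=
  ∀ (r : ℕ) (S M : Type u) [CommRing S] [IsDomain S] [CommRing M] [IsDomain M] [Algebra k S]
    [Algebra k M] (W : MvPolynomial (Fin r) k →ₐ[k] S) (j : S →ₐ[k] M),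
    Function.Injective W → W.toRingHom.IsIntegral → Function.Injective j →
    Algebra.FiniteType k M →
    (∀ m : M, ∃ P : Polynomial S, P ≠ 0 ∧ P.eval₂ j.toRingHom m = 0) → ∀ b : M, b ≠ 0 →
    ∃ h : MvPolynomial (Fin r) k, h ≠ 0 ∧
      ∀ (Ω : Type u) [Field Ω] [IsAlgClosed Ω] [Algebra k Ω] (y : S →ₐ[k] Ω), y (W h) ≠ 0 →
        ∃ ψ : M →ₐ[k] Ω, ψ.comp j = y ∧ ψ b ≠ 0

/-- The homomorphism `x_i ↦ v_i s` from the polynomial ring to `B[s]`. -/
def cone {k : Type u} [Field k] {B : Type u} [CommRing B] [Algebra k B] {n : ℕ}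
    (v : Fin (n + 1) → B) : MvPolynomial (Fin (n + 1)) k →ₐ[k] Polynomial B :=
  MvPolynomial.aeval fun i => Polynomial.C (v i) * Polynomial.X

/-- `B` is a domain, generated by `t` and the `v i`, and integral over its subring `k[t]`. -/
structure CurveRing (k : Type u) [Field k] (B : Type u) [CommRing B] [Algebra k B] {n : ℕ}
    (t : B) (v : Fin (n + 1) → B) : Prop where
  domain : IsDomain B
  gen : Algebra.adjoin k (insert t (Set.range v)) = ⊤
  inj : Function.Injective (Polynomial.aeval t : Polynomial k →ₐ[k] B)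
  integral : (Polynomial.aeval t : Polynomial k →ₐ[k] B).toRingHom.IsIntegral

/-- DIM2: the cone over a curve with two independent points has dimension two. -/
def Stmt_Dim2 (k : Type u) [Field k] [IsAlgClosed k] : Prop :=
  ∀ (n : ℕ) (B : Type u) [CommRing B] [Algebra k B] (t : B) (v : Fin (n + 1) → B),
    CurveRing k B t v →
    (∃ ψ₁ ψ₂ : B →ₐ[k] k, LinearIndependent k ![fun i => ψ₁ (v i), fun i => ψ₂ (v i)]) →
    ringKrullDim (MvPolynomial (Fin (n + 1)) k ⧸ RingHom.ker (cone (k := k) v)) = 2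

end general

section normed

variable (k : Type u) [NontriviallyNormedField k] [IsUltrametricDist k] [CompleteSpace k]
  [IsAlgClosed k]

/-- LIM: continuity of the points of an integral extension of a polynomial ring
(uses HOMEXT, LAG, MANY). -/
def Stmt_Lim : Prop :=
  ∀ (Ω : Type u) [NormedField Ω] [NormedAlgebra k Ω] [IsUltrametricDist Ω] [IsAlgClosed Ω]
    (r : ℕ) (S : Type u) [CommRing S] [IsDomain S] [Algebra k S]
    (W : MvPolynomial (Fin r) k →ₐ[k] S), Function.Injective W → W.toRingHom.IsIntegral →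
    ∀ (N : ℕ) (x : Fin N → S) (y : S →ₐ[k] Ω) (ε : ℝ), 0 < ε →
      ∃ δ : ℝ, 0 < δ ∧ ∀ w : Fin r → Ω, (∀ j, ‖w j - y (W (MvPolynomial.X j))‖ ≤ δ) →
        ∃ y' : S →ₐ[k] Ω, (∀ j, y' (W (MvPolynomial.X j)) = w j) ∧
          ∀ i, ‖y' (x i) - y (x i)‖ ≤ ε

/-- CURA: from the output of CAP to a curve (uses HOMEXT). -/
def Stmt_CurA (p : ℕ) [Fact p.Prime] [CharP k p] : Prop :=
  ∀ (e n : ℕ) (R : Type u) [CommRing R] (i : Polynomial k →+* R) (Z : Fin (n + 1) → R)
    (Φ : (Fin (n + 1) → k) → Polynomial (Polynomial k)), Function.Injective i →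
    (∀ l, (Φ l).Monic) →
    (∀ l, (Φ l).eval₂ i (∑ j, i (Polynomial.C (l j)) * Z j) = 0) →
    ∃ (B : Type u) (_ : CommRing B) (_ : Algebra k B) (t : B) (v : Fin (n + 1) → B),
      CurveRing k B t v ∧
      ∀ l, (Φ l).eval₂ (Polynomial.aeval (R := k) t).toRingHom
        (∑ j, algebraMap k B (l j) * v j ^ p ^ e) = 0

/-- CURB: the projective curve defined by `v`, and its points (uses NN, GEN, LIM, DIM2). -/
def Stmt_CurB : Prop :=
  ∀ (n : ℕ) (B : Type u) [CommRing B] [Algebra k B] (t : B) (v : Fin (n + 1) → B)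
    (Q : Polynomial k), Q ≠ 0 → CurveRing k B t v →
    (∃ ψ₁ ψ₂ : B →ₐ[k] k, LinearIndependent k ![fun i => ψ₁ (v i), fun i => ψ₂ (v i)]) →
    ∃ 𝔓 : Ideal (MvPolynomial (Fin (n + 1)) k), 𝔓.IsPrime ∧
      (∀ F ∈ 𝔓, ∀ m, MvPolynomial.homogeneousComponent m F ∈ 𝔓) ∧
      ringKrullDim (MvPolynomial (Fin (n + 1)) k ⧸ 𝔓) = 2 ∧
      ∀ (Ω : Type u) [NormedField Ω] [NormedAlgebra k Ω] [IsUltrametricDist Ω] [IsAlgClosed Ω]
        (G : Set (Fin (n + 1) → Ω)) (ρ : ℝ), 0 < ρ →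
        (∀ w ∈ G, ∀ c : Ω, c ≠ 0 → (fun i => c * w i) ∈ G) →
        (∀ w ∈ G, ∀ w' : Fin (n + 1) → Ω, w' ≠ 0 → (∀ i, ‖w i - w' i‖ ≤ ρ * ‖w'‖) → w' ∈ G) →
        (∀ ψ : B →ₐ[k] Ω, Polynomial.aeval (ψ t) Q ≠ 0 → (fun i => ψ (v i)) ∈ G) →
        ∀ y : Fin (n + 1) → Ω, y ≠ 0 → (∀ F ∈ 𝔓, MvPolynomial.aeval y F = 0) → y ∈ G

end normed

section algebra

/-- PRIME: a homogeneous ideal of dimension two is contained in a homogeneous prime ideal of
dimension two. -/
def Stmt_Prime (K : Type u) [Field K] : Prop :=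
  ∀ (n : ℕ) (I : Ideal (MvPolynomial (Fin (n + 1)) K)),
    (∀ F ∈ I, ∀ m, MvPolynomial.homogeneousComponent m F ∈ I) →
    ringKrullDim (MvPolynomial (Fin (n + 1)) K ⧸ I) = 2 →
    ∃ 𝔮 : Ideal (MvPolynomial (Fin (n + 1)) K), I ≤ 𝔮 ∧ 𝔮.IsPrime ∧
      (∀ F ∈ 𝔮, ∀ m, MvPolynomial.homogeneousComponent m F ∈ 𝔮) ∧
      ringKrullDim (MvPolynomial (Fin (n + 1)) K ⧸ 𝔮) = 2

/-- The data attached to a projective curve `V(𝔮)`, over a ring `O` with a homomorphism `σ` to the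
field `K`: two linear forms `L 0, L 1` without common zero on the curve, a plane curve
`F(X₀, X₁, T) = 0` with a rational parametrisation `x_i = A_i(X₀, X₁, T) / (δ₀ δ(X₀, X₁))` of the
curve, and integral equations `f_i` of the coordinates over `L 0, L 1`. -/
structure AlgData {K : Type u} [Field K] (O : Type u) [CommRing O] (σ : O →+* K) (n : ℕ)
    (𝔮 : Ideal (MvPolynomial (Fin (n + 1)) K)) where
  /-- degree of `F` -/
  m : ℕ
  /-- degree of `δ` -/
  D : ℕ
  /-- degree of the `f i` -/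
  e : ℕ
  m_pos : 0 < m
  D_pos : 0 < D
  e_pos : 0 < e
  /-- the linear forms -/
  L : Fin 2 → MvPolynomial (Fin (n + 1)) O
  L_hom : ∀ j, (L j).IsHomogeneous 1
  /-- plane curve, in the variables `X₀, X₁, T` -/
  F : MvPolynomial (Fin 3) O
  F_hom : F.IsHomogeneous m
  F_coeff : F.coeff (Finsupp.single 2 m) = 1
  /-- denominators, in the variables `X₀, X₁` -/
  δ : MvPolynomial (Fin 2) O
  δ_hom : δ.IsHomogeneous D
  δ_coeff : δ.coeff (Finsupp.single 1 D) = 1
  /-- constant factor of the denominators -/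
  δ₀ : O
  δ₀_ne : δ₀ ≠ 0
  /-- numerators -/
  A : Fin (n + 1) → MvPolynomial (Fin 3) O
  A_hom : ∀ i, (A i).IsHomogeneous (D + 1)
  dvd : ∀ (d : ℕ) (P : MvPolynomial (Fin (n + 1)) O), P.IsHomogeneous d →
    MvPolynomial.map σ P ∈ 𝔮 → F ∣ MvPolynomial.aeval A P
  dvd_L : ∀ j : Fin 2, F ∣ MvPolynomial.aeval A (L j) -
    MvPolynomial.C δ₀ * MvPolynomial.X (Fin.castSucc j) *
      MvPolynomial.rename Fin.castSucc δ
  /-- leading coefficient of the `f i` -/
  φ : O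
  φ_ne : φ ≠ 0
  /-- integral equations of the coordinates -/
  f : Fin (n + 1) → MvPolynomial (Fin 3) O
  f_hom : ∀ i, (f i).IsHomogeneous e
  f_coeff : ∀ i, (f i).coeff (Finsupp.single 2 e) = φ
  f_mem : ∀ i, MvPolynomial.map σ
    (MvPolynomial.aeval ![L 0, L 1, MvPolynomial.X i] (f i)) ∈ 𝔮

/-- BIR: the birational plane model over `K` (uses NN). -/
def Stmt_Bir (K : Type u) [Field K] [CharZero K] : Prop :=
  ∀ (n : ℕ) (𝔮 : Ideal (MvPolynomial (Fin (n + 1)) K)), 𝔮.IsPrime →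
    (∀ F ∈ 𝔮, ∀ m, MvPolynomial.homogeneousComponent m F ∈ 𝔮) →
    ringKrullDim (MvPolynomial (Fin (n + 1)) K ⧸ 𝔮) = 2 →
    Nonempty (AlgData K (RingHom.id K) n 𝔮)

/-- SCALE: passing from `K` to a valuation ring `O` by rescaling the coordinates. -/
def Stmt_Scale (K : Type u) [Field K] (O : ValuationSubring K) : Prop :=
  ∀ (n : ℕ) (𝔮 : Ideal (MvPolynomial (Fin (n + 1)) K)),
    Nonempty (AlgData K (RingHom.id K) n 𝔮) → Nonempty (AlgData O O.subtype n 𝔮)

end algebra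

end Pool.Agent.DC
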