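import Pool.Agent.DC.StmtsG
import Pool.Agent.DC.StmtsE
import Pool.Agent.LibDb3ab1.Dim

/-!
# Module DESC: contraction of a homogeneous prime ideal along an algebraic extension
-/

set_option autoImplicit false
set_option linter.unusedSectionVars false
set_option linter.style.haveILetI false

noncomputable section

namespace Pool.Agent.DC

open scoped Classical

universe u

namespace DESCX

theorem map_integral {k₀ ka : Type u} [Field k₀] [Field ka] (α : k₀ →+* ka) (hα : α.IsIntegral)
    (n : ℕ) : (MvPolynomial.map (σ := Fin (n + 1)) α).IsIntegral := by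
  intro F
  induction F using MvPolynomial.induction_on with
  | C a =>
    obtain ⟨f, hf, hfa⟩ := hα a
    refine ⟨f.map MvPolynomial.C, hf.map _, ?_⟩
    rw [Polynomial.eval₂_map]
    have h1 : (MvPolynomial.map (σ := Fin (n + 1)) α).comp MvPolynomial.C =
        (MvPolynomial.C : ka →+* MvPolynomial (Fin (n + 1)) ka).comp α := by
      refine RingHom.ext fun a => ?_
      simp
    rw [h1, ← Polynomial.hom_eval₂, hfa, map_zero]
  | add F G hF hG => exact RingHom.IsIntegralElem.add _ hF hG
  | mul_X F i hF =>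
    refine RingHom.IsIntegralElem.mul _ hF ?_
    have h1 : (MvPolynomial.X i : MvPolynomial (Fin (n + 1)) ka) =
        MvPolynomial.map α (MvPolynomial.X i) := by rw [MvPolynomial.map_X]
    rw [h1]
    exact RingHom.isIntegralElem_map _

end DESCX

theorem desc_proof (hHE : Stmt_HomExt.{u}) : Stmt_Desc.{u} := by
  intro k₀ ka _ _ α hα n 𝔓 h𝔓 hhom
  have hprime : (𝔓.comap (MvPolynomial.map α)).IsPrime := Ideal.comap_isPrime _ _
  have hint := DESCX.map_integral α hα n
  let A := MvPolynomial (Fin (n + 1)) k₀ ⧸ 𝔓.comap (MvPolynomial.map α)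
  let B := MvPolynomial (Fin (n + 1)) ka ⧸ 𝔓
  let q : A →+* B := Ideal.quotientMap 𝔓 (MvPolynomial.map α) le_rfl
  have hqinj : Function.Injective q := Ideal.quotientMap_injective' le_rfl
  have hqmk : ∀ F, q (Ideal.Quotient.mk _ F) = Ideal.Quotient.mk _ (MvPolynomial.map α F) :=
    fun F => rfl
  have hqint : q.IsIntegral := by
    intro b
    obtain ⟨F, rfl⟩ := Ideal.Quotient.mk_surjective b
    obtain ⟨f, hf, hfF⟩ := hint F
    refine ⟨f.map (Ideal.Quotient.mk _), hf.map _, ?_⟩
    rw [Polynomial.eval₂_map]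
    have h1 : q.comp (Ideal.Quotient.mk _) =
        (Ideal.Quotient.mk 𝔓).comp (MvPolynomial.map α) := RingHom.ext fun F => rfl
    rw [h1, ← Polynomial.hom_eval₂, hfF, map_zero]
  refine ⟨hprime, ?_, ?_, ?_⟩
  · intro F hF m
    rw [Ideal.mem_comap] at hF ⊢
    have h1 : MvPolynomial.map α (MvPolynomial.homogeneousComponent m F) =
        MvPolynomial.homogeneousComponent m (MvPolynomial.map α F) := by
      ext d
      rw [MvPolynomial.coeff_map, MvPolynomial.coeff_homogeneousComponent,
        MvPolynomial.coeff_homogeneousComponent, MvPolynomial.coeff_map]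
      split_ifs <;> simp
    rw [h1]
    exact hhom _ hF m
  · letI : Algebra A B := q.toAlgebra
    haveI : Algebra.IsIntegral A B := ⟨hqint⟩
    exact Pool.Agent.LibDb3ab1.ringKrullDim_eq_of_integral (A := A) (B := B) hqinj
  · intro Ω _ _ ψ y hy
    let φ : A →+* Ω := Ideal.Quotient.lift _ (MvPolynomial.eval₂Hom ψ y) fun F hF => hy F hF
    obtain ⟨L, hL⟩ := hHE A B Ω q hqinj hqint φ
    have hLq : ∀ F : MvPolynomial (Fin (n + 1)) k₀,
        L (Ideal.Quotient.mk _ (MvPolynomial.map α F)) = MvPolynomial.eval₂ ψ y F := by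
      intro F
      exact RingHom.congr_fun hL (Ideal.Quotient.mk _ F)
    refine ⟨L.comp ((Ideal.Quotient.mk 𝔓).comp MvPolynomial.C), ?_, ?_⟩
    · refine RingHom.ext fun a => ?_
      have h1 := hLq (MvPolynomial.C a)
      rw [MvPolynomial.map_C, MvPolynomial.eval₂_C] at h1
      exact h1
    · intro F hF
      have h2 : MvPolynomial.eval₂Hom (L.comp ((Ideal.Quotient.mk 𝔓).comp MvPolynomial.C)) y =
          L.comp (Ideal.Quotient.mk 𝔓) := by
        apply MvPolynomial.ringHom_ext
        · intro a
          simp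
        · intro i
          have h1 := hLq (MvPolynomial.X i)
          rw [MvPolynomial.map_X, MvPolynomial.eval₂_X] at h1
          rw [MvPolynomial.eval₂Hom_X', RingHom.comp_apply, h1]
      have h3 := RingHom.congr_fun h2 F
      rw [RingHom.comp_apply, Ideal.Quotient.eq_zero_iff_mem.mpr hF, map_zero] at h3
      exact h3

end Pool.Agent.DC
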