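import Pool.Agent.DC.StmtsF
import Pool.Agent.LibDb3ab1.Compact

/-!
# Module OPENU: open tubes around a closed subscheme
-/

set_option autoImplicit false
set_option linter.unusedSectionVars false

noncomputable section

namespace Pool.Agent.DC.OPENUX

open scoped Classical
open MvPolynomial Pool.Agent.LibDb3ab1

universe u

variable {K : Type u} [Field K] {n : ℕ}

/-- the comparison form -/
def cmp (c : K) (l : Fin (n + 1)) (d : ℕ) : MvPolynomial (Fin (n + 1)) K := C c * X l ^ d

lemma cmp_hom (c : K) (l : Fin (n + 1)) (d : ℕ) : (cmp c l d).IsHomogeneous d := by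
  have h1 := (isHomogeneous_C (Fin (n + 1)) c).mul ((isHomogeneous_X K l).pow d)
  rw [one_mul, zero_add] at h1
  exact h1

lemma eval_cmp {L : Type u} [Field L] (ι : K →+* L) (x : Fin (n + 1) → L) (c : K)
    (l : Fin (n + 1)) (d : ℕ) : eval₂ ι x (cmp c l d) = ι c * x l ^ d := by
  rw [cmp, eval₂_mul, eval₂_C, eval₂_pow, eval₂_X]

/-- one chart of the tube -/
def chart {O : ValuationSubring K} {J : Type} (P : J → MvPolynomial (Fin (n + 1)) O)
    (dP : J → ℕ) (c : K) (l : Fin (n + 1)) : Set (AdicProj O n) :=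
  (⋂ l2 : Fin (n + 1), {a | ((X l2, X l) : MvPolynomial (Fin (n + 1)) K × MvPolynomial
      (Fin (n + 1)) K) ∈ a.1 ∧ ((X l, 0) : MvPolynomial (Fin (n + 1)) K × MvPolynomial
      (Fin (n + 1)) K) ∉ a.1}) ∩
    ⋂ j : J, {a | (MvPolynomial.map O.subtype (P j), cmp c l (dP j)) ∈ a.1 ∧
      (cmp c l (dP j), 0) ∉ a.1}

lemma chart_open {O : ValuationSubring K} {J : Type} [Finite J]
    (P : J → MvPolynomial (Fin (n + 1)) O) (dP : J → ℕ) (hP : ∀ j, (P j).IsHomogeneous (dP j))
    (c : K) (l : Fin (n + 1)) : IsOpen (chart P dP c l) := by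
  refine IsOpen.inter (isOpen_iInter_of_finite fun l2 => ?_) (isOpen_iInter_of_finite fun j => ?_)
  · exact TopologicalSpace.isOpen_generateFrom_of_mem
      ⟨1, X l2, X l, isHomogeneous_X K l2, isHomogeneous_X K l, rfl⟩
  · exact TopologicalSpace.isOpen_generateFrom_of_mem
      ⟨dP j, MvPolynomial.map O.subtype (P j), cmp c l (dP j), (hP j).map _, cmp_hom c l (dP j),
        rfl⟩

lemma dvd_of_val {L : Type u} [Field L] (V : ValuationSubring L) (a b : V) (hb : (b : L) ≠ 0)
    (h : V.valuation (a : L) ≤ V.valuation (b : L)) : b ∣ a := by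
  have h2 : 0 < V.valuation (b : L) := by
    rw [zero_lt_iff, Ne, map_eq_zero]
    exact hb
  rw [← div_le_one₀ h2, ← map_div₀, V.valuation_le_one_iff] at h
  exact ⟨⟨_, h⟩, Subtype.ext (by
    change _ = (b : L) * (_ / _)
    rw [mul_div_cancel₀ _ hb])⟩

end Pool.Agent.DC.OPENUX

namespace Pool.Agent.DC

open scoped Classical
open MvPolynomial Pool.Agent.LibDb3ab1 OPENUX

universe u

theorem openu_proof : Stmt_OpenU.{u} := by
  intro p _ K _ O _ hp0 n J _ P dP I hP hPI M
  refine ⟨⋃ l, chart P dP ((p : K) ^ M) l, isOpen_iUnion fun l => chart_open P dP hP _ l, ?_, ?_⟩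
  · rintro ⟨R, L, fL, ι, V, x, hV, hx, rfl⟩ ha
    obtain ⟨l, -, hl⟩ := Finset.exists_max_image Finset.univ (fun l => V.valuation (x l))
      ⟨0, Finset.mem_univ _⟩
    have hxl : x l ≠ 0 := by
      intro h0
      apply hx
      funext l2
      have h1 := hl l2 (Finset.mem_univ _)
      simp only [h0, map_zero] at h1
      exact (map_eq_zero V.valuation).1 (le_antisymm h1 zero_le)
    refine Set.mem_iUnion.2 ⟨l, ?_, ?_⟩
    · refine Set.mem_iInter.2 fun l2 => ?_
      change (X l2, X l) ∈ pointRel ι V x ∧ (X l, 0) ∉ pointRel ι V x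
      rw [pointRel_basic (isHomogeneous_X K l2) (isHomogeneous_X K l), eval₂_X, eval₂_X]
      exact ⟨hl l2 (Finset.mem_univ _), hxl⟩
    · refine Set.mem_iInter.2 fun j => ?_
      change (MvPolynomial.map O.subtype (P j), cmp ((p : K) ^ M) l (dP j)) ∈ pointRel ι V x ∧
        (cmp ((p : K) ^ M) l (dP j), 0) ∉ pointRel ι V x
      rw [pointRel_basic ((hP j).map _) (cmp_hom _ _ _), eval_cmp]
      obtain ⟨d, -, -, h2⟩ := ha _ (hPI j) (dP j) ((hP j).map _)
      rw [eval₂_zero, map_zero] at h2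
      refine ⟨h2.trans zero_le, mul_ne_zero ?_ (pow_ne_zero _ hxl)⟩
      rw [Ne, map_eq_zero]
      exact pow_ne_zero _ hp0
  · intro 𝔓 hT C' _ _ ι V hV _ _ y hy hyF j
    obtain ⟨a, haU, ha⟩ := hT C' ι V hV y hy hyF
    obtain ⟨l, hl⟩ := Set.mem_iUnion.1 haU
    have h1 := Set.mem_iInter.1 hl.2 j
    change (MvPolynomial.map O.subtype (P j), cmp ((p : K) ^ M) l (dP j)) ∈ a.1 ∧
        (cmp ((p : K) ^ M) l (dP j), 0) ∉ a.1 at h1
    rw [ha, pointRel_basic ((hP j).map _) (cmp_hom _ _ _), eval_cmp] at h1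
    obtain ⟨h2, -⟩ := h1
    have h3 : eval₂ ι (fun l => ((PreTilt.untilt (y l) : V) : C'))
        (MvPolynomial.map O.subtype (P j)) =
        ((eval₂ hV.incl (fun i => PreTilt.untilt (y i)) (P j) : V) : C') := by
      rw [eval₂_map]
      change _ = V.subtype (eval₂ hV.incl _ (P j))
      rw [hom_eval₂]
      rfl
    rw [h3] at h2
    have h4 : ((((p : V) ^ M : V)) : C') ≠ 0 := by
      have h5 : (((p : V) ^ M : V) : C') = ι ((p : K) ^ M) := by
        rw [map_pow, map_natCast]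
        rfl
      rw [h5, Ne, map_eq_zero]
      exact pow_ne_zero _ hp0
    refine dvd_of_val V _ _ h4 (h2.trans ?_)
    have h5 : ι ((p : K) ^ M) = (((p : V) ^ M : V) : C') := by
      rw [map_pow, map_natCast]
      rfl
    rw [h5, map_mul]
    refine mul_le_of_le_one_right' ?_
    rw [V.valuation_le_one_iff]
    exact V.pow_mem (PreTilt.untilt (y l) : V).2 _

end Pool.Agent.DC
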