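import Pool.Agent.DC.StmtsE

/-!
# Module LIM: continuity of the points of an integral extension of a polynomial ring
-/

set_option autoImplicit false
set_option linter.unusedSectionVars false

noncomputable section

namespace Pool.Agent.DC.LIM

open Polynomial
open scoped Classical Topology

universe u

/-- The polynomial whose roots are the generic linear forms in the conjugates. -/
def psi {B : Type u} [CommRing B] {N : ℕ} (H : Finset (Fin N → B)) : B[X][X] :=
  ∏ h ∈ H, (X - C (∑ i : Fin N, C (h i) * X ^ (i : ℕ)))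

theorem psi_map {B B' : Type u} [CommRing B] [CommRing B'] {N : ℕ} (H : Finset (Fin N → B))
    (φ : B →+* B') : (psi H).map (mapRingHom φ) =
      ∏ h ∈ H, (X - C (∑ i : Fin N, C (φ (h i)) * X ^ (i : ℕ))) := by
  rw [psi, Polynomial.map_prod]
  apply Finset.prod_congr rfl
  intro h _
  rw [Polynomial.map_sub, map_X, map_C]
  congr 2
  simp

theorem psi_eval {B B' : Type u} [CommRing B] [CommRing B'] {N : ℕ} (H : Finset (Fin N → B))
    (φ : B →+* B') (z : Fin N → B') :
    ((psi H).map (mapRingHom φ)).eval (∑ i : Fin N, C (z i) * X ^ (i : ℕ)) =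
      ∏ h ∈ H, (∑ i : Fin N, C (z i - φ (h i)) * X ^ (i : ℕ)) := by
  rw [psi_map, eval_prod]
  apply Finset.prod_congr rfl
  intro h _
  rw [eval_sub, eval_X, eval_C, ← Finset.sum_sub_distrib]
  apply Finset.sum_congr rfl
  intro i _
  rw [C_sub]
  ring

section alg

variable {A S : Type u} [CommRing A] [IsDomain A] [IsIntegrallyClosed A] [CommRing S] [IsDomain S]
  [Algebra A S] [Algebra.IsIntegral A S]

theorem alg_part (hHE : Stmt_HomExt.{u}) (hinj : Function.Injective (algebraMap A S)) (N : ℕ)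
    (x : Fin N → S) :
    ∃ (B : Type u) (_ : CommRing B) (_ : IsDomain B) (_ : Algebra A B)
      (H : Finset (Fin N → B)) (τ₀ : S →ₐ[A] B), Function.Injective (algebraMap A B) ∧
      Algebra.IsIntegral A B ∧ Function.Injective τ₀ ∧ (fun i => τ₀ (x i)) ∈ H ∧
      (∀ h ∈ H, ∃ τ : S →ₐ[A] B, ∀ i, h i = τ (x i)) ∧
      ∀ j l, ∃ (m : ℕ) (q : A[X]), 0 < m ∧
        q.map (algebraMap A B) = (X - C (((psi H).coeff j).coeff l)) ^ m := by
  let F := FractionRing A
  let E := AlgebraicClosure F
  let B := integralClosure A E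
  have hAE : Function.Injective (algebraMap A E) := by
    rw [IsScalarTower.algebraMap_eq A F E]
    exact (algebraMap F E).injective.comp (IsFractionRing.injective A F)
  have hAB : Function.Injective (algebraMap A B) := by
    intro a b hab
    apply hAE
    have := congrArg (algebraMap B E) hab
    rwa [← IsScalarTower.algebraMap_apply, ← IsScalarTower.algebraMap_apply] at this
  have hBint : Algebra.IsIntegral A B := inferInstance
  -- an embedding of S
  obtain ⟨τ, hτ⟩ := hHE A S E (algebraMap A S) hinj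
    (algebraMap_isIntegral_iff.mpr inferInstance) (algebraMap A E)
  let τE : S →ₐ[A] E := { τ with commutes' := fun a => RingHom.congr_fun hτ a }
  let τ₀ : S →ₐ[A] B := AlgHom.codRestrict τE B fun s =>
    (Algebra.IsIntegral.isIntegral (R := A) s).map τE
  have hτ₀ : Function.Injective τ₀ := by
    rw [RingHom.injective_iff_ker_eq_bot]
    apply Ideal.eq_bot_of_comap_eq_bot (R := A)
    rw [eq_bot_iff]
    intro a ha
    rw [Ideal.mem_comap, RingHom.mem_ker, AlgHom.commutes] at ha
    rw [Ideal.mem_bot]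
    exact hAB (by rw [ha, map_zero])
  -- the finite set of conjugate tuples
  have hfin : Set.Finite {h : Fin N → B | ∃ τ : S →ₐ[A] B, ∀ i, h i = τ (x i)} := by
    apply Set.Finite.subset (Set.Finite.pi' (t := fun i : Fin N =>
      {b : B | b ∈ ((minpoly A (x i)).map (algebraMap A B)).roots}) fun i => ?_)
    · rintro h ⟨τ, hτ⟩ i
      have hmon := minpoly.monic (Algebra.IsIntegral.isIntegral (R := A) (x i))
      change h i ∈ ((minpoly A (x i)).map (algebraMap A B)).roots
      rw [mem_roots (hmon.map _).ne_zero, IsRoot.def, eval_map_algebraMap, hτ i,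
        aeval_algHom_apply, minpoly.aeval, map_zero]
    · exact (((minpoly A (x i)).map (algebraMap A B)).roots.toFinset.finite_toSet).subset
        fun b hb => by simpa using hb
  let H : Finset (Fin N → B) := hfin.toFinset
  have hH : ∀ h, h ∈ H ↔ ∃ τ : S →ₐ[A] B, ∀ i, h i = τ (x i) := fun h => by
    simp [H]
  refine ⟨B, inferInstance, inferInstance, inferInstance, H, τ₀, hAB, hBint, hτ₀,
    (hH _).2 ⟨τ₀, fun _ => rfl⟩, fun h hh => (hH h).1 hh, fun j l => ?_⟩
  -- invariance
  let gB : (E ≃ₐ[F] E) → (B →ₐ[A] B) := fun g =>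
    AlgHom.mapIntegralClosure ((g : E →ₐ[F] E).restrictScalars A)
  have hgB : ∀ (g : E ≃ₐ[F] E) (b : B), ((gB g b : B) : E) = g b := fun g b => rfl
  have hinv : ∀ g : E ≃ₐ[F] E, (psi H).map (mapRingHom (gB g : B →+* B)) = psi H := by
    intro g
    rw [psi_map, psi]
    refine Finset.prod_nbij' (fun h i => gB g (h i)) (fun h i => gB g.symm (h i)) ?_ ?_ ?_ ?_ ?_
    · intro h hh
      obtain ⟨τ, hτ⟩ := (hH h).1 hh
      exact (hH _).2 ⟨(gB g).comp τ, fun i => by simp [hτ i]⟩
    · intro h hh
      obtain ⟨τ, hτ⟩ := (hH h).1 hh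
      exact (hH _).2 ⟨(gB g.symm).comp τ, fun i => by simp [hτ i]⟩
    · intro h _
      funext i
      apply Subtype.ext
      rw [hgB, hgB, AlgEquiv.symm_apply_apply]
    · intro h _
      funext i
      apply Subtype.ext
      rw [hgB, hgB, AlgEquiv.apply_symm_apply]
    · intro h _
      rfl
  set c : B := ((psi H).coeff j).coeff l with hc
  have hcg : ∀ g : E ≃ₐ[F] E, g (c : E) = c := by
    intro g
    have h1 := congrArg (fun p => (p.coeff j).coeff l) (hinv g)
    simp only [coeff_map, coe_mapRingHom] at h1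
    have h2 := congrArg (Subtype.val) h1
    exact h2
  have hcint : IsIntegral A (c : E) := c.2
  have hmin : minpoly F (c : E) = (minpoly A (c : E)).map (algebraMap A F) :=
    minpoly.isIntegrallyClosed_eq_field_fractions' F hcint
  have hcF : IsIntegral F (c : E) := hcint.tower_top
  have hroots : ∀ ρ ∈ ((minpoly F (c : E)).map (algebraMap F E)).roots, ρ = (c : E) := by
    intro ρ hρ
    have h1 : IsConjRoot F (c : E) ρ := (isConjRoot_iff_mem_minpoly_aroots hcF).2 hρ
    obtain ⟨σ, hσ⟩ := isConjRoot_iff_exists_algEquiv.1 h1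
    have h2 := hcg σ.symm
    rw [← h2, ← hσ, AlgEquiv.symm_apply_apply]
  have hsp : (minpoly F (c : E)).map (algebraMap F E) =
      (X - C (c : E)) ^ ((minpoly F (c : E)).map (algebraMap F E)).roots.card := by
    conv_lhs => rw [(IsAlgClosed.splits ((minpoly F (c : E)).map (algebraMap F E))).eq_prod_roots]
    rw [Multiset.eq_replicate_of_mem hroots, Multiset.map_replicate, Multiset.prod_replicate,
      Multiset.card_replicate, ((minpoly.monic hcF).map _).leadingCoeff, C_1, one_mul]
  refine ⟨((minpoly F (c : E)).map (algebraMap F E)).roots.card, minpoly A (c : E), ?_, ?_⟩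
  · rw [Multiset.card_pos_iff_exists_mem]
    refine ⟨c, ?_⟩
    rw [mem_roots ((minpoly.monic hcF).map _).ne_zero, IsRoot.def, eval_map_algebraMap,
      minpoly.aeval]
  · apply Polynomial.map_injective (algebraMap B E) Subtype.val_injective
    rw [Polynomial.map_map, ← IsScalarTower.algebraMap_eq, IsScalarTower.algebraMap_eq A F E,
      ← Polynomial.map_map, ← hmin]
    refine hsp.trans ?_
    simp only [Polynomial.map_pow, Polynomial.map_sub, map_X, map_C]
    rfl

end alg

section ana

theorem continuous_aeval {k Ω : Type u} [NontriviallyNormedField k] [NormedField Ω]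
    [NormedAlgebra k Ω] {r : ℕ} (f : MvPolynomial (Fin r) k) :
    Continuous fun w : Fin r → Ω => MvPolynomial.aeval w f := by
  have h1 : (fun w : Fin r → Ω => MvPolynomial.aeval w f) =
      fun w => MvPolynomial.eval w (MvPolynomial.map (algebraMap k Ω) f) := by
    funext w
    rw [MvPolynomial.aeval_def, MvPolynomial.eval₂_eq_eval_map]
  rw [h1]
  exact MvPolynomial.continuous_eval _

theorem close {k Ω : Type u} [NontriviallyNormedField k] [NormedField Ω] [NormedAlgebra k Ω]
    {r : ℕ} {B : Type u} [CommRing B] [Algebra (MvPolynomial (Fin r) k) B] (yh : B →+* Ω)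
    (w₀ : Fin r → Ω) (hy : yh.comp (algebraMap (MvPolynomial (Fin r) k) B) =
      (MvPolynomial.aeval w₀ : MvPolynomial (Fin r) k →ₐ[k] Ω).toRingHom) (c : B) (m : ℕ)
    (hm : 0 < m) (q : (MvPolynomial (Fin r) k)[X])
    (hq : q.map (algebraMap (MvPolynomial (Fin r) k) B) = (X - C c) ^ m) (η : ℝ) (hη : 0 < η) :
    ∀ᶠ w in 𝓝 w₀, ∀ φ : B →+* Ω, φ.comp (algebraMap (MvPolynomial (Fin r) k) B) =
      (MvPolynomial.aeval w : MvPolynomial (Fin r) k →ₐ[k] Ω).toRingHom → ‖φ c - yh c‖ ≤ η := by
  have key : ∀ (w : Fin r → Ω) (φ : B →+* Ω),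
      φ.comp (algebraMap (MvPolynomial (Fin r) k) B) =
      (MvPolynomial.aeval w : MvPolynomial (Fin r) k →ₐ[k] Ω).toRingHom →
      ∑ j ∈ Finset.range (q.natDegree + 1), MvPolynomial.aeval w (q.coeff j) * yh c ^ j =
        (yh c - φ c) ^ m := by
    intro w φ hφ
    have h1 : (q.map (MvPolynomial.aeval w : MvPolynomial (Fin r) k →ₐ[k] Ω).toRingHom).eval
        (yh c) = (yh c - φ c) ^ m := by
      rw [← hφ, ← Polynomial.map_map, hq, Polynomial.map_pow, Polynomial.map_sub, map_X, map_C,
        eval_pow, eval_sub, eval_X, eval_C]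
    rw [← h1, eval_map, eval₂_eq_sum_range]
    rfl
  have hcont : Continuous fun w : Fin r → Ω =>
      ∑ j ∈ Finset.range (q.natDegree + 1), MvPolynomial.aeval w (q.coeff j) * yh c ^ j :=
    continuous_finsetSum _ fun j _ => (continuous_aeval _).mul continuous_const
  have h0 : Filter.Tendsto (fun w : Fin r → Ω =>
      ‖∑ j ∈ Finset.range (q.natDegree + 1), MvPolynomial.aeval w (q.coeff j) * yh c ^ j‖)
      (𝓝 w₀) (𝓝 0) := by
    have h1 := (hcont.norm).tendsto w₀
    rw [key w₀ yh hy, sub_self, zero_pow hm.ne', norm_zero] at h1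
    exact h1
  filter_upwards [h0.eventually (gt_mem_nhds (pow_pos hη m))] with w hw φ hφ
  rw [key w φ hφ, norm_pow] at hw
  rw [norm_sub_rev]
  exact (lt_of_pow_lt_pow_left₀ m hη.le hw).le

variable {K : Type u} [NontriviallyNormedField K] [IsUltrametricDist K]

theorem gn_one : gn (1 : K[X]) = 1 := by
  apply le_antisymm
  · apply gn_le
    intro i
    rw [coeff_one]
    split_ifs <;> simp
  · have := coeff_le_gn (1 : K[X]) 0
    rwa [coeff_one_zero, norm_one] at this

theorem gn_prod {ι : Type*} (s : Finset ι) (f : ι → K[X]) :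
    gn (∏ i ∈ s, f i) = ∏ i ∈ s, gn (f i) := by
  induction s using Finset.induction_on with
  | empty => simp [gn_one]
  | insert a s ha ih => rw [Finset.prod_insert ha, Finset.prod_insert ha, gn_mul, ih]

theorem gn_pow (f : K[X]) (n : ℕ) : gn (f ^ n) = gn f ^ n := by
  induction n with
  | zero => simp [gn_one]
  | succ n ih => rw [pow_succ, pow_succ, gn_mul, ih]

theorem gn_sum_le {ι : Type*} (s : Finset ι) (f : ι → K[X]) {M : ℝ} (hM : 0 ≤ M)
    (h : ∀ i ∈ s, gn (f i) ≤ M) : gn (∑ i ∈ s, f i) ≤ M := by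
  induction s using Finset.induction_on with
  | empty => simpa [gn_zero] using hM
  | insert a s ha ih =>
    rw [Finset.sum_insert ha]
    exact (gn_add_le _ _).trans (max_le (h a (Finset.mem_insert_self a s))
      (ih fun i hi => h i (Finset.mem_insert_of_mem hi)))

theorem coeff_lin {N : ℕ} (z : Fin N → K) (i : Fin N) :
    (∑ i : Fin N, C (z i) * X ^ (i : ℕ)).coeff i = z i := by
  rw [finsetSum_coeff]
  simp only [coeff_C_mul, coeff_X_pow]
  rw [Finset.sum_eq_single i]
  · simp
  · intro b _ hb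
    rw [if_neg, mul_zero]
    intro h0
    exact hb (Fin.ext h0.symm)
  · intro h0
    exact absurd (Finset.mem_univ _) h0

/-- The product estimate. -/
theorem exists_close {B : Type u} [CommRing B] {N : ℕ} (H : Finset (Fin N → B)) (yh : B →+* K)
    (z : Fin N → K) (hne : H.Nonempty) (h0 : ∃ h ∈ H, ∀ i, yh (h i) = z i) (ε : ℝ) (hε : 0 < ε) :
    ∃ (η : ℝ) (n L : ℕ), 0 < η ∧ ∀ φ : B →+* K,
      (∀ j ∈ Finset.range (n + 1), ∀ l ∈ Finset.range (L + 1),
        ‖φ (((psi H).coeff j).coeff l) - yh (((psi H).coeff j).coeff l)‖ ≤ η) →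
      ∃ h ∈ H, ∀ i, ‖z i - φ (h i)‖ ≤ ε := by
  set P₀ : K[X] := ∑ i : Fin N, C (z i) * X ^ (i : ℕ) with hP₀
  set n := (psi H).natDegree with hn
  set L := (Finset.range (n + 1)).sup fun j => ((psi H).coeff j).natDegree with hL
  set M : ℝ := max 1 (gn P₀) with hM
  have hM1 : 1 ≤ M := le_max_left _ _
  have hMpos : 0 < M := lt_of_lt_of_le one_pos hM1
  set η : ℝ := ε ^ H.card / M ^ n with hη
  have hηpos : 0 < η := by positivity
  refine ⟨η, n, L, hηpos, fun φ hφ => ?_⟩
  -- the value at `yh` is zero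
  have hz : ((psi H).map (mapRingHom yh)).eval P₀ = 0 := by
    rw [hP₀, psi_eval]
    obtain ⟨h, hh, hhz⟩ := h0
    apply Finset.prod_eq_zero hh
    apply Finset.sum_eq_zero
    intro i _
    rw [hhz i, sub_self, C_0, zero_mul]
  have hval : gn (((psi H).map (mapRingHom φ)).eval P₀) ≤ ε ^ H.card := by
    have h1 : ((psi H).map (mapRingHom φ)).eval P₀ =
        ∑ j ∈ Finset.range (n + 1), (((psi H).map (mapRingHom φ)).coeff j -
          ((psi H).map (mapRingHom yh)).coeff j) * P₀ ^ j := by
      have h2 : ((psi H).map (mapRingHom φ)).eval P₀ = ((psi H).map (mapRingHom φ)).eval P₀ -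
          ((psi H).map (mapRingHom yh)).eval P₀ := by rw [hz, sub_zero]
      rw [h2, eval_eq_sum_range' (lt_of_le_of_lt (natDegree_map_le) (Nat.lt_succ_self n)),
        eval_eq_sum_range' (lt_of_le_of_lt (natDegree_map_le) (Nat.lt_succ_self n)),
        ← Finset.sum_sub_distrib]
      apply Finset.sum_congr rfl
      intro j _
      ring
    rw [h1]
    apply gn_sum_le _ _ (by positivity)
    intro j hj
    rw [gn_mul, gn_pow]
    have h3 : gn (((psi H).map (mapRingHom φ)).coeff j -
          ((psi H).map (mapRingHom yh)).coeff j) ≤ η := by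
      apply gn_le
      intro l
      rw [coeff_sub, coeff_map, coeff_map, coe_mapRingHom, coe_mapRingHom, coeff_map, coeff_map]
      by_cases hl : l ∈ Finset.range (L + 1)
      · exact hφ j hj l hl
      · have h4 : ((psi H).coeff j).coeff l = 0 := by
          apply coeff_eq_zero_of_natDegree_lt
          have h5 : ((psi H).coeff j).natDegree ≤ L := by
            rw [hL]
            exact Finset.le_sup (f := fun j => ((psi H).coeff j).natDegree) hj
          rw [Finset.mem_range] at hl
          omega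
        rw [h4, map_zero, map_zero, sub_zero, norm_zero]
        exact hηpos.le
    have h6 : gn P₀ ^ j ≤ M ^ n := by
      calc gn P₀ ^ j ≤ M ^ j := pow_le_pow_left₀ (gn_nonneg _) (le_max_right _ _) j
        _ ≤ M ^ n := pow_le_pow_right₀ hM1 (by
          rw [Finset.mem_range] at hj
          omega)
    calc gn (((psi H).map (mapRingHom φ)).coeff j -
          ((psi H).map (mapRingHom yh)).coeff j) * gn P₀ ^ j ≤ η * M ^ n := by
          apply mul_le_mul h3 h6 (pow_nonneg (gn_nonneg _) j) hηpos.le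
      _ = ε ^ H.card := by
        rw [hη]
        field_simp
  by_contra hcon
  push Not at hcon
  rw [hP₀, psi_eval, gn_prod] at hval
  have hlt : ∏ _h ∈ H, ε < ∏ h ∈ H, gn (∑ i : Fin N, C (z i - φ (h i)) * X ^ (i : ℕ)) := by
    apply Finset.prod_lt_prod_of_nonempty (fun _ _ => hε) _ hne
    intro h hh
    obtain ⟨i, hi⟩ := hcon h hh
    refine hi.trans_le ?_
    have h7 := coeff_le_gn (∑ i : Fin N, C (z i - φ (h i)) * X ^ (i : ℕ)) i
    rwa [coeff_lin] at h7
  rw [Finset.prod_const] at hlt
  exact absurd hval (not_le.mpr hlt)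

end ana

end Pool.Agent.DC.LIM

namespace Pool.Agent.DC

open Polynomial LIM
open scoped Classical Topology

universe u

theorem lim_proof (k : Type u) [NontriviallyNormedField k] [IsUltrametricDist k] [CompleteSpace k]
    [IsAlgClosed k] (hHE : Stmt_HomExt.{u}) : Stmt_Lim k := by
  intro Ω _ _ _ _ r S _ _ _ W hW hWint N x y ε hε
  let A := MvPolynomial (Fin r) k
  let : Algebra A S := W.toRingHom.toAlgebra
  have hAS : Algebra.IsIntegral A S := ⟨hWint⟩
  obtain ⟨B, _, _, _, H, τ₀, hAB, hBint, hτ₀, hmem, hH, hq⟩ :=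
    alg_part (A := A) (S := S) hHE hW N x
  choose m q hm hqm using hq
  have hτint : (τ₀ : S →+* B).IsIntegral := by
    apply RingHom.IsIntegral.tower_top (algebraMap A S)
    rw [AlgHom.comp_algebraMap]
    exact algebraMap_isIntegral_iff.mpr hBint
  obtain ⟨yh, hyh⟩ := hHE S B Ω (τ₀ : S →+* B) hτ₀ hτint (y : S →+* Ω)
  have hyx : ∀ s : S, yh (τ₀ s) = y s := fun s => RingHom.congr_fun hyh s
  let w₀ : Fin r → Ω := fun j => y (W (MvPolynomial.X j))
  have hyA : yh.comp (algebraMap A B) =
      (MvPolynomial.aeval w₀ : MvPolynomial (Fin r) k →ₐ[k] Ω).toRingHom := by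
    have h1 : (MvPolynomial.aeval w₀ : MvPolynomial (Fin r) k →ₐ[k] Ω) = y.comp W := by
      apply MvPolynomial.algHom_ext
      intro j
      simp [w₀]
    rw [h1]
    refine RingHom.ext fun a => ?_
    rw [RingHom.comp_apply, ← AlgHom.commutes τ₀, hyx]
    rfl
  let : NontriviallyNormedField Ω :=
    { (inferInstance : NormedField Ω) with
      non_trivial := by
        obtain ⟨a, ha⟩ := NontriviallyNormedField.non_trivial (α := k)
        exact ⟨algebraMap k Ω a, by rwa [norm_algebraMap']⟩ }
  obtain ⟨η, n, L, hη, hclose⟩ := exists_close H yh (fun i => y (x i)) ⟨_, hmem⟩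
    ⟨_, hmem, fun i => hyx (x i)⟩ ε hε
  have hev : ∀ᶠ w in 𝓝 w₀, ∀ j ∈ Finset.range (n + 1), ∀ l ∈ Finset.range (L + 1),
      ∀ φ : B →+* Ω, φ.comp (algebraMap A B) =
      (MvPolynomial.aeval w : MvPolynomial (Fin r) k →ₐ[k] Ω).toRingHom →
      ‖φ (((psi H).coeff j).coeff l) - yh (((psi H).coeff j).coeff l)‖ ≤ η := by
    rw [Filter.eventually_all_finset]
    intro j _
    rw [Filter.eventually_all_finset]
    intro l _
    exact close yh w₀ hyA _ (m j l) (hm j l) (q j l) (hqm j l) η hη
  rw [Metric.eventually_nhds_iff] at hev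
  obtain ⟨δ, hδ, hδw⟩ := hev
  refine ⟨δ / 2, by positivity, fun w hw => ?_⟩
  have hdist : dist w w₀ < δ := by
    refine lt_of_le_of_lt ((dist_pi_le_iff (by positivity)).2 (fun j => ?_)) (half_lt_self hδ)
    rw [dist_eq_norm]
    exact hw j
  have hw2 := hδw hdist
  -- an extension of `w`
  obtain ⟨φ, hφ⟩ := hHE A B Ω (algebraMap A B) hAB (algebraMap_isIntegral_iff.mpr hBint)
    (MvPolynomial.aeval w : MvPolynomial (Fin r) k →ₐ[k] Ω).toRingHom
  obtain ⟨h, hh, hhc⟩ := hclose φ fun j hj l hl => hw2 j hj l hl φ hφ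
  obtain ⟨τ, hτ⟩ := hH h hh
  have hcomm : ∀ a : A, φ (τ (W a)) = MvPolynomial.aeval w a := by
    intro a
    have h1 : τ (W a) = algebraMap A B a := τ.commutes a
    rw [h1]
    exact RingHom.congr_fun hφ a
  refine ⟨{ φ.comp (τ : S →+* B) with commutes' := ?_ }, ?_, ?_⟩
  · intro a
    have h1 : algebraMap k S a = W (MvPolynomial.C a) := by
      rw [← MvPolynomial.algebraMap_eq, W.commutes]
    change φ (τ (algebraMap k S a)) = _
    rw [h1, hcomm, MvPolynomial.aeval_C]
  · intro j
    change φ (τ (W (MvPolynomial.X j))) = _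
    rw [hcomm, MvPolynomial.aeval_X]
  · intro i
    change ‖φ (τ (x i)) - y (x i)‖ ≤ ε
    rw [← hτ i, norm_sub_rev]
    exact hhc i

end Pool.Agent.DC
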