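import Pool.Agent.DC.StmtsG
import Pool.Agent.DC.LIM
import Pool.Agent.DC.HOMEXT

/-!
# Module DENS: points over a dense algebraically closed subfield
-/

set_option autoImplicit false
set_option linter.unusedSectionVars false
set_option linter.style.haveILetI false

noncomputable section

namespace Pool.Agent.DC.DENSX

open Polynomial LIM
open scoped Classical Topology

universe u

/-- `lim_proof` without completeness. -/
theorem lim_core (k : Type u) [NontriviallyNormedField k] (hHE : Stmt_HomExt.{u})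
    (Ω : Type u) [NormedField Ω] [NormedAlgebra k Ω] [IsUltrametricDist Ω] [IsAlgClosed Ω]
    (r : ℕ) (S : Type u) [CommRing S] [IsDomain S] [Algebra k S]
    (W : MvPolynomial (Fin r) k →ₐ[k] S) (hW : Function.Injective W)
    (hWint : W.toRingHom.IsIntegral) (N : ℕ) (x : Fin N → S) (y : S →ₐ[k] Ω) (ε : ℝ)
    (hε : 0 < ε) :
      ∃ δ : ℝ, 0 < δ ∧ ∀ w : Fin r → Ω, (∀ j, ‖w j - y (W (MvPolynomial.X j))‖ ≤ δ) →
        ∃ y' : S →ₐ[k] Ω, (∀ j, y' (W (MvPolynomial.X j)) = w j) ∧
          ∀ i, ‖y' (x i) - y (x i)‖ ≤ ε := by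
  let A := MvPolynomial (Fin r) k
  let : Algebra A S := W.toRingHom.toAlgebra
  have hAS : Algebra.IsIntegral A S := ⟨hWint⟩
  obtain ⟨B, _, _, _, H, τ₀, hAB, hBint, hτ₀, hmem, hH, hq⟩ :=
    alg_part (A := A) (S := S) hHE hW N x
  choose m q hm hqm using hq
  have hτint : (τ₀ : S →+* B).IsIntegral := by
    apply RingHom.IsIntegral.tower_top (algebraMap A S)
    rw [AlgHom.comp_algebraMap]
    exact algebraMap_isIntegral_iff.mpr hBint
  obtain ⟨yh, hyh⟩ := hHE S B Ω (τ₀ : S →+* B) hτ₀ hτint (y : S →+* Ω)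
  have hyx : ∀ s : S, yh (τ₀ s) = y s := fun s => RingHom.congr_fun hyh s
  let w₀ : Fin r → Ω := fun j => y (W (MvPolynomial.X j))
  have hyA : yh.comp (algebraMap A B) =
      (MvPolynomial.aeval w₀ : MvPolynomial (Fin r) k →ₐ[k] Ω).toRingHom := by
    have h1 : (MvPolynomial.aeval w₀ : MvPolynomial (Fin r) k →ₐ[k] Ω) = y.comp W := by
      apply MvPolynomial.algHom_ext
      intro j
      simp [w₀]
    rw [h1]
    refine RingHom.ext fun a => ?_
    rw [RingHom.comp_apply, ← AlgHom.commutes τ₀, hyx]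
    rfl
  let : NontriviallyNormedField Ω :=
    { (inferInstance : NormedField Ω) with
      non_trivial := by
        obtain ⟨a, ha⟩ := NontriviallyNormedField.non_trivial (α := k)
        exact ⟨algebraMap k Ω a, by rwa [norm_algebraMap']⟩ }
  obtain ⟨η, n, L, hη, hclose⟩ := exists_close H yh (fun i => y (x i)) ⟨_, hmem⟩
    ⟨_, hmem, fun i => hyx (x i)⟩ ε hε
  have hev : ∀ᶠ w in 𝓝 w₀, ∀ j ∈ Finset.range (n + 1), ∀ l ∈ Finset.range (L + 1),
      ∀ φ : B →+* Ω, φ.comp (algebraMap A B) =
      (MvPolynomial.aeval w : MvPolynomial (Fin r) k →ₐ[k] Ω).toRingHom →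
      ‖φ (((psi H).coeff j).coeff l) - yh (((psi H).coeff j).coeff l)‖ ≤ η := by
    rw [Filter.eventually_all_finset]
    intro j _
    rw [Filter.eventually_all_finset]
    intro l _
    exact close yh w₀ hyA _ (m j l) (hm j l) (q j l) (hqm j l) η hη
  rw [Metric.eventually_nhds_iff] at hev
  obtain ⟨δ, hδ, hδw⟩ := hev
  refine ⟨δ / 2, by positivity, fun w hw => ?_⟩
  have hdist : dist w w₀ < δ := by
    refine lt_of_le_of_lt ((dist_pi_le_iff (by positivity)).2 (fun j => ?_)) (half_lt_self hδ)
    rw [dist_eq_norm]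
    exact hw j
  have hw2 := hδw hdist
  -- an extension of `w`
  obtain ⟨φ, hφ⟩ := hHE A B Ω (algebraMap A B) hAB (algebraMap_isIntegral_iff.mpr hBint)
    (MvPolynomial.aeval w : MvPolynomial (Fin r) k →ₐ[k] Ω).toRingHom
  obtain ⟨h, hh, hhc⟩ := hclose φ fun j hj l hl => hw2 j hj l hl φ hφ
  obtain ⟨τ, hτ⟩ := hH h hh
  have hcomm : ∀ a : A, φ (τ (W a)) = MvPolynomial.aeval w a := by
    intro a
    have h1 : τ (W a) = algebraMap A B a := τ.commutes a
    rw [h1]
    exact RingHom.congr_fun hφ a
  refine ⟨{ φ.comp (τ : S →+* B) with commutes' := ?_ }, ?_, ?_⟩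
  · intro a
    have h1 : algebraMap k S a = W (MvPolynomial.C a) := by
      rw [← MvPolynomial.algebraMap_eq, W.commutes]
    change φ (τ (algebraMap k S a)) = _
    rw [h1, hcomm, MvPolynomial.aeval_C]
  · intro j
    change φ (τ (W (MvPolynomial.X j))) = _
    rw [hcomm, MvPolynomial.aeval_X]
  · intro i
    change ‖φ (τ (x i)) - y (x i)‖ ≤ ε
    rw [← hτ i, norm_sub_rev]
    exact hhc i

end Pool.Agent.DC.DENSX

namespace Pool.Agent.DC

open Polynomial
open scoped Classical Topology

universe u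

theorem dens_proof (hHE : Stmt_HomExt.{u}) : Stmt_Dens.{u} := by
  intro k₁ _ _ _ ka _ _ β hdense m c ε hε
  -- the norm of `ka`
  letI : NormedField ka := NormedField.induced ka k₁ β β.injective
  have hnorm : ∀ a : ka, ‖a‖ = ‖β a‖ := fun a => rfl
  letI : NontriviallyNormedField ka :=
    { (inferInstance : NormedField ka) with
      non_trivial := by
        obtain ⟨x, hx⟩ := NontriviallyNormedField.non_trivial (α := k₁)
        obtain ⟨a, ha⟩ := hdense x 1 one_pos
        refine ⟨a, ?_⟩
        rw [hnorm]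
        by_contra hcon
        push Not at hcon
        have h1 : ‖x‖ ≤ max ‖x - β a‖ ‖β a‖ := by
          have := IsUltrametricDist.norm_add_le_max (x - β a) (β a)
          rwa [sub_add_cancel] at this
        exact absurd (h1.trans (max_le ha.le hcon)) (not_le.mpr hx) }
  letI : Algebra ka k₁ := β.toAlgebra
  letI : NormedAlgebra ka k₁ :=
    { (inferInstance : Algebra ka k₁) with
      norm_smul_le := fun a x => by
        rw [Algebra.smul_def, norm_mul]
        exact le_of_eq rfl }
  have halg : algebraMap ka k₁ = β := rfl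
  -- the ring `R`
  let ev : MvPolynomial (Fin m) ka →ₐ[ka] k₁ := MvPolynomial.aeval c
  let R := ev.range
  haveI : Algebra.FiniteType ka R :=
    Algebra.FiniteType.of_surjective (ev.rangeRestrict) ev.rangeRestrict_surjective
  obtain ⟨r, W, hW, hWint⟩ := exists_integral_inj_algHom_of_fg ka R
  have hcm : ∀ i, c i ∈ R := fun i => ⟨MvPolynomial.X i, MvPolynomial.aeval_X c i⟩
  obtain ⟨δ, hδ, hlim⟩ := DENSX.lim_core ka hHE k₁ r R W hW hWint m (fun i => ⟨c i, hcm i⟩)
    R.val ε hε
  choose a ha using fun j => hdense (R.val (W (MvPolynomial.X j))) δ hδ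
  obtain ⟨y', hy', hyc⟩ := hlim (fun j => β (a j)) fun j => by
    rw [norm_sub_rev]
    exact (ha j).le
  -- the values are in `ka`
  have hyW : ∀ g : MvPolynomial (Fin r) ka, y' (W g) = β (MvPolynomial.eval a g) := by
    intro g
    have h1 : (y'.comp W) = (MvPolynomial.aeval fun j => β (a j)) := by
      apply MvPolynomial.algHom_ext
      intro j
      rw [AlgHom.comp_apply, hy', MvPolynomial.aeval_X]
    have h2 : y' (W g) = (MvPolynomial.aeval fun j => β (a j)) g := by
      rw [← h1]; rfl
    rw [h2, MvPolynomial.aeval_def, halg]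
    have h3 : (MvPolynomial.eval₂ β (fun j => β (a j)) g) = β (MvPolynomial.eval a g) := by
      rw [MvPolynomial.eval, MvPolynomial.coe_eval₂Hom, MvPolynomial.hom_eval₂, RingHom.comp_id]
    exact h3
  have hval : ∀ s : R, ∃ b : ka, β b = y' s := by
    intro s
    obtain ⟨f, hf, hfs⟩ := hWint s
    have h1 : (f.map (MvPolynomial.eval a)).Monic := hf.map _
    have h2 : (f.map (MvPolynomial.eval a)).eval₂ β (y' s) = 0 := by
      rw [eval₂_map]
      have h3 : β.comp (MvPolynomial.eval a) = (y' : R →+* k₁).comp W.toRingHom := by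
        refine RingHom.ext fun g => ?_
        exact (hyW g).symm
      rw [h3]
      have h4 := congrArg (y' : R →+* k₁) hfs
      rw [map_zero, hom_eval₂] at h4
      exact h4
    have h5 := (IsAlgClosed.splits (f.map (MvPolynomial.eval a))).eq_prod_roots
    rw [h1.leadingCoeff, C_1, one_mul] at h5
    rw [h5, ← eval_map, Polynomial.map_multiset_prod, Multiset.map_map, eval_multiset_prod,
      Multiset.map_map, Multiset.prod_eq_zero_iff, Multiset.mem_map] at h2
    obtain ⟨b, hb, hb0⟩ := h2
    refine ⟨b, ?_⟩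
    simp only [Function.comp_apply, Polynomial.map_sub, map_X, map_C, eval_sub, eval_X,
      eval_C] at hb0
    exact (sub_eq_zero.mp hb0).symm
  choose c' hc' using fun i => hval ⟨c i, hcm i⟩
  refine ⟨c', fun G hG => ?_, fun i => ?_⟩
  · apply β.injective
    rw [map_zero, MvPolynomial.eval, MvPolynomial.coe_eval₂Hom, MvPolynomial.hom_eval₂,
      RingHom.comp_id]
    have h1 : MvPolynomial.aeval (fun i => (⟨c i, hcm i⟩ : R)) G = 0 := by
      apply Subtype.ext
      have h2 : (R.val (MvPolynomial.aeval (fun i => (⟨c i, hcm i⟩ : R)) G)) =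
          MvPolynomial.aeval c G := by
        rw [← AlgHom.comp_apply, MvPolynomial.comp_aeval]
        rfl
      have h3 : MvPolynomial.aeval c G = 0 := hG
      rw [h3] at h2
      exact h2
    have h4 := congrArg y' h1
    rw [map_zero, ← AlgHom.comp_apply, MvPolynomial.comp_aeval, MvPolynomial.aeval_def, halg] at h4
    rw [← h4]
    congr 1
    funext i
    exact hc' i
  · have h1 := hyc i
    rw [← hc' i, norm_sub_rev] at h1
    exact h1

end Pool.Agent.DC
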