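import Pool.Agent.LibDb3ab1.Assembly
import Pool.Agent.LibDb3ab1.MainAlg

/-!
# Part F: towers of weighted projective bundles over products of approximable varieties

Statements of the modules.
-/

set_option autoImplicit false
set_option linter.unusedSectionVars false

noncomputable section

namespace Pool.Agent.DC

open scoped Classical
open MvPolynomial Pool.Agent.LibDb3ab1

universe u

/-- HOM1: the homotopy lemma over a ring which is integral over a polynomial ring. -/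
def Stmt_Hom1 : Prop :=
  ∀ (ρ : Type) [Finite ρ] (E A : Type u) [Field E] [CommRing A] [IsDomain A]
    [IsNoetherianRing A] (i : MvPolynomial (Option ρ) E →+* A), Function.Injective i →
    i.IsIntegral → ∀ (m : ρ → ℕ) (T : ρ → A), (∀ r, 0 < m r) →
    ∃ Q : Ideal A, Q.IsPrime ∧ (∀ r, i (X (some r)) ^ m r + i (X none) * T r ∈ Q) ∧
      ∀ P : Polynomial E, P ≠ 0 → i (Polynomial.eval₂ C (X none) P) ∉ Q

/-- Parameters on the subset of a tower of weighted projective bundles which is defined by the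
constraints `Cn`: multihomogeneous polynomials `lam a`, `a : π`, among them the `lam (o i)`
(one for each group `i` of variables), such that the constrained set is finite over the space with
coordinates `lam a`. -/
structure Par (k : Type u) [Field k] {s : ℕ} {τ : Type} (grp : τ → Fin s) (W : Fin s → τ → ℕ)
    {Jc : Type} (Cn : Jc → MvPolynomial τ k) (π : Type) (o : Fin s → π) where
  /-- the parameters -/
  lam : π → MvPolynomial τ k
  /-- their degrees -/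
  w : π → Fin s → ℕ
  hom : ∀ a, MH W (lam a) (w a)
  rel : ∀ (Ω : Type u) [Field Ω] (φ : k →+* Ω) (z : τ → Ω) (i : Fin s),
    eval₂ φ z (lam (o i)) ≠ 0 → ∃ v, grp v = i ∧ z v ≠ 0
  ext : ∀ (Ω : Type u) [Field Ω] [IsAlgClosed Ω] (φ : k →+* Ω) (u : π → Ω), (∀ i, u (o i) = 1) →
    ∃ z : τ → Ω, (∀ j, eval₂ φ z (Cn j) = 0) ∧ (∀ a, eval₂ φ z (lam a) = u a) ∧
      ∀ A : Subring Ω, (∀ x, φ x ∈ A) → (∀ a, u a ∈ A) →
        ∀ v, (algebraMap A Ω).IsIntegralElem (z v)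

/-- The parameters different from the distinguished ones. -/
abbrev NB {s : ℕ} {π : Type} (o : Fin s → π) : Type := {a : π // ∀ i, a ≠ o i}

/-- HOMC: the homotopy argument with constraints (uses HOM1). -/
def Stmt_HomC : Prop :=
  ∀ (s n : ℕ) (τ : Type) [Finite τ] (grp : τ → Fin s) (W : Fin s → τ → ℕ) (e : Fin s → ℕ)
    (Jc π : Type) [Finite π] (o : Fin s → π) (k E : Type u) [Field k] [Field E] (φE : k →+* E)
    (Cn : Jc → MvPolynomial τ k) (DC : Jc → Fin s → ℕ) (Pm : Par k grp W Cn π o),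
    (∀ j, MH W (Cn j) (DC j)) → Tri grp W → 0 < ∑ i, e i →
    ∀ (m : NB o → ℕ) (b : NB o → Fin s → ℕ) (q : Fin (n + 1) → ℕ), (∀ a, 0 < m a) →
    (∀ l, 0 < q l) → ∀ T : NB o ⊕ Fin (n + 1) → MvPolynomial (τ ⊕ Fin (n + 1)) E,
    (∀ a : NB o, MH (WW W e n) (T (Sum.inl a))
      (fun i => m a * Pm.w a i + ∑ i', b a i' * Pm.w (o i') i)) →
    (∀ l, MH (WW W e n) (T (Sum.inr l)) (fun i => e i * q l)) →
    (∀ (κ : Type u) [Field κ] (φ : E →+* κ) (x : Fin (n + 1) → κ),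
      (∀ l, eval₂ φ (Sum.elim 0 x) (T (Sum.inr l)) = 0) → x = 0) →
    ∃ (κ : Type u) (_ : Field κ) (φ : E →+* κ) (z : τ → κ) (x : Fin (n + 1) → κ),
      Rel grp z ∧ (∀ j, eval₂ (φ.comp φE) z (Cn j) = 0) ∧
      ∀ r, eval₂ φ (Sum.elim z x) (T r) = 0

/-- EXYC: existence of the approximating variety, algebraic part, with constraints (uses HOMC). -/
def Stmt_ExYC : Prop :=
  ∀ (s n d : ℕ) (τ : Type) [Finite τ] (grp : τ → Fin s) (W : Fin s → τ → ℕ) (e : Fin s → ℕ)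
    (J Jc π : Type) [Finite π] (o : Fin s → π) (k : Type u) [Field k]
    (Cn : Jc → MvPolynomial τ k) (DC : Jc → Fin s → ℕ) (Pm : Par k grp W Cn π o),
    (∀ j, MH W (Cn j) (DC j)) → Tri grp W → 0 < ∑ i, e i →
    ∀ (F : J → MvPolynomial τ k) (DF : J → Fin s → ℕ), (∀ j, MH W (F j) (DF j)) →
    ∀ (G : Fin (n + 1) → MvPolynomial (τ ⊕ Fin (n + 1)) k) (q : Fin (n + 1) → ℕ),
    (∀ l, 0 < q l) → (∀ l, MH (WW W e n) (G l) (fun i => e i * q l)) →
    ∀ (β : NB o ≃ J ⊕ Fin d) (m : NB o → ℕ) (b : NB o → Fin s → ℕ), (∀ a, 0 < m a) →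
    (∀ (a : NB o) (i : Fin s), m a * Pm.w a i + ∑ i', b a i' * Pm.w (o i') i =
      Sum.elim DF (fun _ => e) (β a) i) →
    (∀ (κ : Type u) [Field κ] (φ : k →+* κ) (x : Fin (n + 1) → κ),
      (∀ l, eval₂ φ (Sum.elim 0 x) (G l) = 0) → x = 0) →
    (∀ (κ : Type u) [Field κ] (φ : k →+* κ) (z : τ → κ), Rel grp z →
      (∀ j, eval₂ φ z (Cn j) = 0) → (∀ j, eval₂ φ z (F j) = 0) →
      (∀ l, eval₂ φ (Sum.elim z 0) (G l) = 0) → False) →
    ∃ 𝔓 : Ideal (MvPolynomial (Fin (n + 1)) k), 𝔓.IsPrime ∧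
      (∀ f ∈ 𝔓, ∀ m, homogeneousComponent m f ∈ 𝔓) ∧
      ringKrullDim (MvPolynomial (Fin (n + 1)) k ⧸ 𝔓) = (d + 1 : ℕ) ∧
      ∀ (Ω : Type u) [Field Ω] [IsAlgClosed Ω] (ψ : k →+* Ω) (y : Fin (n + 1) → Ω), y ≠ 0 →
        (∀ f ∈ 𝔓, eval₂ ψ y f = 0) →
        ∃ (z : τ → Ω) (c : Ω), c ≠ 0 ∧ Rel grp z ∧ (∀ j, eval₂ ψ z (Cn j) = 0) ∧
          (∀ j, eval₂ ψ z (F j) = 0) ∧
          ∀ l, eval₂ ψ (Sum.elim z (fun l => c * y l)) (G l) = 0

/-- The groups of variables `i ∈ cst` consist of the `N i + 1` variables `en i a`, which have the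
standard weights. -/
structure Fac {s : ℕ} {τ : Type} (grp : τ → Fin s) (W : Fin s → τ → ℕ) (cst : Finset (Fin s))
    (N : Fin s → ℕ) (en : ∀ i, Fin (N i + 1) → τ) : Prop where
  inj : ∀ i ∈ cst, Function.Injective (en i)
  grp_en : ∀ i ∈ cst, ∀ a, grp (en i a) = i
  surj : ∀ i ∈ cst, ∀ v, grp v = i → ∃ a, en i a = v
  wt : ∀ i ∈ cst, ∀ a i', W i' (en i a) = if i' = i then 1 else 0

/-- The index set of the parameters. -/
abbrev PiC {s : ℕ} {τ : Type} (grp : τ → Fin s) (cst : Finset (Fin s)) (δ : Fin s → ℕ) : Type :=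
  {v : τ // grp v ∉ cst} ⊕ (Σ i : cst, Fin (δ i + 1))

/-- The distinguished parameters. -/
def oC {s : ℕ} {τ : Type} {grp : τ → Fin s} (cst : Finset (Fin s)) (δ : Fin s → ℕ)
    {o : Fin s → τ} (ho : ∀ i, grp (o i) = i) (i : Fin s) : PiC grp cst δ :=
  if h : i ∈ cst then Sum.inr ⟨⟨i, h⟩, 0⟩ else Sum.inl ⟨o i, by rw [ho]; exact h⟩

/-- PARC: parameters for the constraints given by homogeneous prime ideals (Noether normalisation,
`NN.exists_forms` of `Pool.Agent.DC.NN`; uses HOMEXT). -/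
def Stmt_ParC : Prop :=
  ∀ (k : Type u) [Field k] [Infinite k] (s : ℕ) (τ : Type) [Finite τ] (grp : τ → Fin s)
    (W : Fin s → τ → ℕ) (cst : Finset (Fin s)) (N : Fin s → ℕ) (en : ∀ i, Fin (N i + 1) → τ),
    Fac grp W cst N en → ∀ (o : Fin s → τ) (ho : ∀ i, grp (o i) = i)
    (𝔓 : ∀ i, Ideal (MvPolynomial (Fin (N i + 1)) k)) (δ : Fin s → ℕ),
    (∀ i ∈ cst, (𝔓 i).IsPrime ∧ (∀ f ∈ 𝔓 i, ∀ m, homogeneousComponent m f ∈ 𝔓 i) ∧
      ringKrullDim (MvPolynomial (Fin (N i + 1)) k ⧸ 𝔓 i) = (δ i + 1 : ℕ)) →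
    ∀ (Jc : Type) (Cn : Jc → MvPolynomial τ k),
    (∀ j, ∃ i ∈ cst, ∃ f ∈ 𝔓 i, Cn j = rename (en i) f) →
    ∃ Pm : Par k grp W Cn (PiC grp cst δ) (oC cst δ ho),
      (∀ v i, Pm.w (Sum.inl v) i = W i v) ∧
      ∀ x i, Pm.w (Sum.inr x) i = if i = (x.1 : Fin s) then 1 else 0

/-- OPENU: the open tube `|P_j(x)| ≤ |p| ^ M max |x_l| ^ deg P_j`. -/
def Stmt_OpenU : Prop :=
  ∀ (p : ℕ) [Fact p.Prime] (K : Type u) [Field K] (O : ValuationSubring K)
    [Fact ¬IsUnit (p : O)], (p : K) ≠ 0 → ∀ (n : ℕ) (J : Type) [Finite J]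
    (P : J → MvPolynomial (Fin (n + 1)) O) (dP : J → ℕ) (I : Ideal (MvPolynomial (Fin (n + 1)) K)),
    (∀ j, (P j).IsHomogeneous (dP j)) → (∀ j, MvPolynomial.map O.subtype (P j) ∈ I) →
    ∀ M : ℕ, ∃ U : Set (AdicProj O n), IsOpen U ∧ adicLocus O I ⊆ U ∧
      ∀ 𝔓 : Ideal (MvPolynomial (Fin (n + 1)) (FractionRing (PreTilt O p))), TiltInside p O 𝔓 U →
        ∀ (C' : Type u) [Field C'] [IsAlgClosed C'] (ι : K →+* C') (V : ValuationSubring C')
          (hV : ValuedExt O ι V) [Fact ¬IsUnit (p : V)] [IsAdicComplete (Ideal.span {(p : V)}) V]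
          (y : Fin (n + 1) → PreTilt V p), y ≠ 0 →
          (∀ F : MvPolynomial (Fin (n + 1)) (PreTilt O p),
            MvPolynomial.map (algebraMap (PreTilt O p) (FractionRing (PreTilt O p))) F ∈ 𝔓 →
            eval₂ (tmap hV.incl) y F = 0) →
          ∀ j, (p : V) ^ M ∣ eval₂ hV.incl (fun i => PreTilt.untilt (y i)) (P j)

/-- VAC: homogeneous prime ideals of every dimension. -/
def Stmt_Vac : Prop :=
  ∀ (k : Type u) [Field k] (n d : ℕ), d ≤ n → ∃ 𝔓 : Ideal (MvPolynomial (Fin (n + 1)) k),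
    𝔓.IsPrime ∧ (∀ f ∈ 𝔓, ∀ m, homogeneousComponent m f ∈ 𝔓) ∧
    ringKrullDim (MvPolynomial (Fin (n + 1)) k ⧸ 𝔓) = (d + 1 : ℕ)

end Pool.Agent.DC
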