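import Pool.Agent.DC.StmtsG
import Pool.Agent.DC.StmtsF
import Pool.Agent.DC.PUX
import Pool.Agent.DC.TN
import Pool.Agent.DC.Inst

/-!
# Part G: the assembly of the descent theorem
-/

set_option autoImplicit false
set_option linter.unusedSectionVars false
set_option linter.style.haveILetI false

noncomputable section

namespace Pool.Agent.DC

open scoped Classical
open Pool.Agent.LibDb3ab1

universe u

/-- KA: the relative algebraic closure. -/
theorem exists_ka {k₀ k₁ : Type u} [Field k₀] [Field k₁] [IsAlgClosed k₁] (σ : k₀ →+* k₁) :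
    ∃ (ka : Type u) (_ : Field ka) (_ : IsAlgClosed ka) (α : k₀ →+* ka) (β : ka →+* k₁),
      β.comp α = σ ∧ α.IsIntegral ∧
      ∀ x : k₁, (∃ f : Polynomial k₀, f ≠ 0 ∧ f.eval₂ σ x = 0) → ∃ a, β a = x := by
  letI := σ.toAlgebra
  haveI h1 : IsAlgClosure k₀ (algebraicClosure k₀ k₁) := inferInstance
  refine ⟨algebraicClosure k₀ k₁, inferInstance, h1.isAlgClosed, algebraMap _ _,
    algebraMap (algebraicClosure k₀ k₁) k₁, ?_, ?_, ?_⟩
  · exact (IsScalarTower.algebraMap_eq k₀ (algebraicClosure k₀ k₁) k₁).symm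
  · exact algebraMap_isIntegral_iff.mpr (Algebra.IsAlgebraic.isIntegral (K := k₀))
  · rintro x ⟨f, hf, hx⟩
    refine ⟨⟨x, ?_⟩, rfl⟩
    rw [mem_algebraicClosure_iff]
    exact ⟨f, hf, hx⟩

theorem frob_surj {p : ℕ} [Fact p.Prime] {C : Type u} [Field C] [IsAlgClosed C]
    (O : ValuationSubring C) [Fact ¬IsUnit (p : O)] :
    Function.Surjective (frobenius (ModP O p) p) := by
  intro x
  obtain ⟨x, rfl⟩ := Ideal.Quotient.mk_surjective x
  obtain ⟨y, hy⟩ := exists_root_valuationSubring O (Polynomial.X ^ p - Polynomial.C x)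
    (Polynomial.monic_X_pow_sub_C x (Fact.out : p.Prime).ne_zero) (by
      rw [Polynomial.natDegree_X_pow_sub_C]
      exact (Fact.out : p.Prime).ne_zero)
  refine ⟨Ideal.Quotient.mk _ y, ?_⟩
  rw [frobenius_def, ← map_pow]
  congr 1
  simpa [sub_eq_zero] using hy

theorem ValuedExt.comp {K C₁ L : Type u} [Field K] [Field C₁] [Field L] {O : ValuationSubring K}
    {O₁ : ValuationSubring C₁} {V : ValuationSubring L} {ι₁ : K →+* C₁} {ι₂ : C₁ →+* L}
    (h₁ : ValuedExt O ι₁ O₁) (h₂ : ValuedExt O₁ ι₂ V) : ValuedExt O (ι₂.comp ι₁) V where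
  comap_eq := by
    rw [← h₁.comap_eq, ← h₂.comap_eq]
    rfl
  cont x hx := by
    obtain ⟨c, hc, hcx⟩ := h₂.cont x hx
    obtain ⟨a, ha, hac⟩ := h₁.cont c hc
    refine ⟨a, ha, ?_⟩
    have h3 : ι₂ (ι₁ a / c) ∈ V := by
      have h4 : ι₁ a / c ∈ V.comap ι₂ := by rw [h₂.comap_eq]; exact hac
      exact h4
    have h5 : (ι₂.comp ι₁) a / x = ι₂ (ι₁ a / c) * (ι₂ c / x) := by
      have hc' : ι₂ c ≠ 0 := (map_ne_zero ι₂).mpr hc
      rw [map_div₀, RingHom.comp_apply]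
      field_simp
    rw [h5]
    exact V.mul_mem _ _ h3 hcx

section ext

variable {K : Type u} [Field K] {O : ValuationSubring K} {p : ℕ} [Fact p.Prime]
  [Fact ¬IsUnit (p : O)] [IsAdicComplete (Ideal.span {(p : O)}) O]

/-- The standing data over an algebraically closed extension. -/
def TB.ext (b : TB O p) {C₁ : Type u} [Field C₁] [IsAlgClosed C₁] {ι₁ : K →+* C₁}
    {O₁ : ValuationSubring C₁} (h₁ : ValuedExt O ι₁ O₁) [Fact ¬IsUnit (p : O₁)]
    [IsAdicComplete (Ideal.span {(p : O₁)}) O₁]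
    (hr : ∀ x : O₁, ¬IsUnit x → ∃ n : ℕ, (p : O₁) ∣ x ^ n) : TB O₁ p where
  ϖ := b.ϖV h₁
  u := h₁.incl b.u
  hu := b.hu.map _
  hϖ := by rw [TB.ϖV, untilt_tmap, ← map_mul, ← b.hϖ, map_natCast]
  hp0 := by
    intro h
    apply b.hp0
    apply ι₁.injective
    rw [map_natCast, h, map_zero]
  hr := hr
  hF := frob_surj O₁

end ext

/-- A finite family of generators, with coefficients in the valuation ring. -/
theorem exists_gens {A Q : Type u} [CommRing A] [IsDomain A] [Field Q] [Algebra A Q]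
    [IsFractionRing A Q] {n : ℕ} (𝔓 : Ideal (MvPolynomial (Fin (n + 1)) Q)) :
    ∃ (J : Type) (_ : Finite J) (f : J → MvPolynomial (Fin (n + 1)) A),
      Ideal.span (Set.range fun j => MvPolynomial.map (algebraMap A Q) (f j)) = 𝔓 := by
  obtain ⟨T, hT⟩ : 𝔓.FG := (isNoetherianRing_iff_ideal_fg _).mp inferInstance 𝔓
  let e : T ≃ Fin T.card := T.equivFin
  choose c g hc hg using fun j : Fin T.card => exists_clear (A := A) ((e.symm j).1)
  refine ⟨Fin T.card, inferInstance, g, le_antisymm ?_ ?_⟩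
  · rw [Ideal.span_le]
    rintro _ ⟨j, rfl⟩
    change MvPolynomial.map (algebraMap A Q) (g j) ∈ 𝔓
    rw [hg]
    refine Ideal.mul_mem_left _ _ ?_
    rw [← hT]
    exact Ideal.subset_span (e.symm j).2
  · rw [← hT, Ideal.span_le]
    intro t ht
    have hj := hg (e ⟨t, ht⟩)
    rw [Equiv.symm_apply_apply] at hj
    have hc0 : algebraMap A Q (c (e ⟨t, ht⟩)) ≠ 0 :=
      IsFractionRing.to_map_ne_zero_of_mem_nonZeroDivisors (hc _)
    have h1 : (t : MvPolynomial (Fin (n + 1)) Q) = MvPolynomial.C (algebraMap A Q (c (e ⟨t, ht⟩)))⁻¹ *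
        MvPolynomial.map (algebraMap A Q) (g (e ⟨t, ht⟩)) := by
      rw [hj, ← mul_assoc, ← map_mul, inv_mul_cancel₀ hc0, map_one, one_mul]
    change t ∈ Ideal.span _
    rw [h1]
    exact Ideal.mul_mem_left _ _ (Ideal.subset_span ⟨_, rfl⟩)

/-- Zeros of homogeneous ideals can be rescaled. -/
theorem zero_scale {k Ω : Type u} [Field k] [Field Ω] {n : ℕ}
    {𝔓 : Ideal (MvPolynomial (Fin (n + 1)) k)}
    (hom : ∀ F ∈ 𝔓, ∀ m, MvPolynomial.homogeneousComponent m F ∈ 𝔓) (φ : k →+* Ω)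
    {x y : Fin (n + 1) → Ω} {c : Ω} (hc : c ≠ 0) (hxy : ∀ i, y i = c * x i)
    (hy : ∀ F ∈ 𝔓, MvPolynomial.eval₂ φ y F = 0) :
    ∀ F ∈ 𝔓, MvPolynomial.eval₂ φ x F = 0 := by
  intro F hF
  rw [← MvPolynomial.sum_homogeneousComponent F]
  rw [← MvPolynomial.coe_eval₂Hom, map_sum]
  apply Finset.sum_eq_zero
  intro m _
  rw [MvPolynomial.coe_eval₂Hom]
  have h1 := hy _ (hom F hF m)
  have h2 : y = act (fun (_ : Fin 1) (_ : Fin (n + 1)) => 1) (fun _ => c) x := by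
    funext i
    simp [act, chr, hxy i]
  have h3 : MH (fun (_ : Fin 1) (_ : Fin (n + 1)) => 1)
      (MvPolynomial.homogeneousComponent m F) (fun _ => m) :=
    fun _ => MvPolynomial.homogeneousComponent_isHomogeneous m F
  rw [h2, eval₂_act h3] at h1
  refine (mul_eq_zero.mp h1).resolve_left ?_
  exact chr_ne_zero (fun _ => hc) _

section main

variable {K : Type u} [Field K] {O : ValuationSubring K} {p : ℕ} [Fact p.Prime]
  [Fact ¬IsUnit (p : O)] [IsAdicComplete (Ideal.span {(p : O)}) O]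

theorem PU.dvd_pow {W : Type u} [CommRing W] [IsDomain W] [ValuationRing W] {F : Type u} [Field F]
    [Algebra W F] [IsFractionRing W F] {ϖ : W} (h : PU ϖ) (x : F) :
    ∃ (r : ℕ) (w : W), algebraMap W F ϖ ^ r * x = algebraMap W F w := by
  obtain ⟨a, c, hc, rfl⟩ := IsFractionRing.div_surjective (A := W) x
  have hc0 : c ≠ 0 := nonZeroDivisors.ne_zero hc
  obtain ⟨r, e, he⟩ := h.cof c hc0
  refine ⟨r, e * a, ?_⟩
  have hc' : algebraMap W F c ≠ 0 := fun h0 =>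
    hc0 (IsFractionRing.injective W F (by rw [h0, map_zero]))
  rw [← map_pow, he, map_mul, map_mul]
  field_simp

set_option maxHeartbeats 4000000 in
/-- **Descent**: the property asked for in the question for `X` over `K` follows from the property
over algebraically closed extensions. -/
theorem descend [CharZero K] (b : TB O p)
    (hCla : Stmt_Cla O p b) (hClb : Stmt_Clb O p b) (hClc : Stmt_Clc O p b)
    (hClr : Stmt_Clr O p b) (hCld : Stmt_Cld O p b) (hEmb : Stmt_Emb O p b)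
    (hFont : Stmt_Font O p b) (hTN : ∀ (C₁ : Type u) [Field C₁] [IsAlgClosed C₁]
      (O₁ : ValuationSubring C₁) [Fact ¬IsUnit (p : O₁)]
      [IsAdicComplete (Ideal.span {(p : O₁)}) O₁] (b₁ : TB O₁ p), Stmt_TN O₁ p b₁)
    (hUlt : Stmt_UltC.{u}) (hResu : Stmt_Resu.{u}) (hDesc : Stmt_Desc.{u})
    (hPert : Stmt_Pert.{u}) (hVac : Stmt_Vac.{u})
    {n d : ℕ} (hd : d ≤ n) (I : Ideal (MvPolynomial (Fin (n + 1)) K))
    (hdim : ringKrullDim (MvPolynomial (Fin (n + 1)) K ⧸ I) = (d + 1 : ℕ))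
    (hdim' : ∀ (C₁ : Type u) [Field C₁] (ι₁ : K →+* C₁),
      ringKrullDim (MvPolynomial (Fin (n + 1)) C₁ ⧸ I.map (MvPolynomial.map ι₁)) = (d + 1 : ℕ))
    (hC : ∀ (C₁ : Type u) [Field C₁] [IsAlgClosed C₁] [CharZero C₁] (ι₁ : K →+* C₁)
      (O₁ : ValuationSubring C₁) (_h₁ : ValuedExt O ι₁ O₁) [Fact ¬IsUnit (p : O₁)]
      [IsAdicComplete (Ideal.span {(p : O₁)}) O₁] (_b₁ : TB O₁ p),
      TiltApprox p O₁ (I.map (MvPolynomial.map ι₁))) : TiltApprox p O I := by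
  intro U hU hIU
  rw [hdim]
  by_cases hex : ∃ (C₀ : Type u) (_ : Field C₀) (_ : IsAlgClosed C₀) (ι₀ : K →+* C₀)
    (V₀ : ValuationSubring C₀) (_ : ValuedExt O ι₀ V₀) (_ : Fact ¬IsUnit (p : V₀)),
    IsAdicComplete (Ideal.span {(p : V₀)}) V₀
  swap
  · obtain ⟨𝔓, h1, h2, h3⟩ := hVac (FractionRing (PreTilt O p)) n d hd
    refine ⟨𝔓, h1, h2, h3, ?_⟩
    intro C _ _ ι V hV _ _
    exact absurd ⟨C, _, inferInstance, ι, V, hV, inferInstance, inferInstance⟩ hex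
  obtain ⟨C₀, _, _, ι₀, V₀, h₀, _, _⟩ := hex
  obtain ⟨L, hL⟩ := hCla C₀ ι₀ V₀ h₀
  obtain ⟨A, hA⟩ := hClb C₀ ι₀ V₀ h₀ L hL
  obtain ⟨C₁, _, ι₁, O₁, h₁, κ, _, _, hκ, hmem, hrange, hr⟩ := hClc C₀ ι₀ V₀ h₀ L A hL hA
  haveI : IsAlgClosed C₁ := hClr C₀ ι₀ V₀ h₀ L A hL hA C₁ ι₁ O₁ h₁ κ hκ hmem hrange hr
  haveI : CharZero C₁ := charZero_of_injective_ringHom ι₁.injective
  have hdens := hCld C₀ ι₀ V₀ h₀ L A hL hA C₁ ι₁ O₁ h₁ κ hκ hmem hrange
  set b₁ : TB O₁ p := b.ext h₁ hr with hb₁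
  have hϖ₁ : b₁.ϖ = b.ϖV h₁ := rfl
  -- the open set and the prime ideal over `C₁`
  obtain ⟨U₁, hU₁, hIU₁, hres⟩ := hResu K C₁ O O₁ ι₁ h₁ n U hU
  obtain ⟨𝔓₁, h𝔓1, h𝔓2, h𝔓3, h𝔓4⟩ := hC C₁ ι₁ O₁ h₁ b₁ U₁ hU₁ (hIU₁ I hIU)
  rw [hdim' C₁ ι₁] at h𝔓3
  obtain ⟨J, _, f, hf⟩ := exists_gens (A := PreTilt O₁ p) (Q := TF O₁ p) 𝔓₁
  obtain ⟨N, hN⟩ := hUlt p C₁ O₁ b₁ n U₁ hU₁ J f (by
    rw [hf]
    exact h𝔓4)
  -- the normed field `k₁`
  have hpux₁ := pux_proof O₁ p b₁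
  have hTN₁ := hTN C₁ O₁ b₁
  letI iN : NontriviallyNormedField (TF O₁ p) := nnfPU (F := TF O₁ p) hpux₁.1
  haveI : IsUltrametricDist (TF O₁ p) := ultra_nfPU hpux₁.1
  have hp0O₁ : (p : O₁) ≠ 0 := by
    intro h
    apply b₁.hp0
    have := congrArg O₁.subtype h
    rwa [map_natCast, map_zero] at this
  haveI : IsAlgClosed (TF O₁ p) := tilt_isAlgClosed O₁ b₁.hu hp0O₁ b₁.hϖ
  have hnorm : ∀ x : TF O₁ p, ‖x‖ = vn (TF O₁ p) b₁.ϖ x := fun x => rfl
  obtain ⟨ka, _, _, α, β, hβα, hαint, hβsurj⟩ := exists_ka (tf (p := p) h₁)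
  -- density
  have hdens₁ : ∀ (y : PreTilt O₁ p) (N : ℕ), ∃ (a : ka) (w : PreTilt O₁ p),
      β a = algebraMap (PreTilt O₁ p) (TF O₁ p) w ∧ b.ϖV h₁ ^ N ∣ y - w := by
    intro y N
    obtain ⟨w, ⟨g, hg0, hg⟩, hw⟩ := hdens y N
    obtain ⟨a, ha⟩ := hβsurj (algebraMap (PreTilt O₁ p) (TF O₁ p) w)
      ⟨g.map (algebraMap (PreTilt O p) (TF O p)), by
        rwa [Ne, Polynomial.map_eq_zero_iff (IsFractionRing.injective (PreTilt O p) (TF O p))],
        by
        rw [Polynomial.eval₂_map]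
        have h2 : (tf (p := p) h₁).comp (algebraMap (PreTilt O p) (TF O p)) =
            (algebraMap (PreTilt O₁ p) (TF O₁ p)).comp (tmap h₁.incl) := by
          ext x
          exact tf_algebraMap h₁ x
        rw [h2, ← Polynomial.hom_eval₂, hg, map_zero]⟩
    exact ⟨a, w, ha, hw⟩
  have hdense : ∀ (x : TF O₁ p) (ε : ℝ), 0 < ε → ∃ a : ka, ‖x - β a‖ < ε := by
    intro x ε hε
    obtain ⟨r, w, hw⟩ := PU.dvd_pow hpux₁.1 x
    have hϖ0 : algebraMap (PreTilt O₁ p) (TF O₁ p) b₁.ϖ ≠ 0 := hpux₁.1.map_ne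
    obtain ⟨M, hM⟩ := exists_pow_lt_of_lt_one (show 0 < ε * (1 / 2) ^ r by positivity)
      (show (1 / 2 : ℝ) < 1 by norm_num)
    obtain ⟨a, w', ha, hw'⟩ := hdens₁ w M
    have h1 : β (α (algebraMap (PreTilt O p) (TF O p) b.ϖ)) =
        algebraMap (PreTilt O₁ p) (TF O₁ p) b₁.ϖ := by
      have h2 : β (α (algebraMap (PreTilt O p) (TF O p) b.ϖ)) =
          tf h₁ (algebraMap (PreTilt O p) (TF O p) b.ϖ) := RingHom.congr_fun hβα _
      rw [h2, tf_algebraMap]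
      rfl
    refine ⟨a / α (algebraMap (PreTilt O p) (TF O p) b.ϖ) ^ r, ?_⟩
    have h2 : x - β (a / α (algebraMap (PreTilt O p) (TF O p) b.ϖ) ^ r) =
        algebraMap (PreTilt O₁ p) (TF O₁ p) (w - w') /
          algebraMap (PreTilt O₁ p) (TF O₁ p) b₁.ϖ ^ r := by
      rw [map_div₀, map_pow, h1, map_sub, ← hw, ha]
      field_simp
    rw [h2, norm_div, norm_pow, hnorm (algebraMap _ _ b₁.ϖ), vn_self hpux₁.1,
      div_lt_iff₀ (by positivity)]
    refine lt_of_le_of_lt ?_ hM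
    rw [hnorm]
    exact TN.vn_le_of_dvd hpux₁.1 hw'
  -- the perturbed ideal and its contraction
  obtain ⟨𝔓a, h𝔓a1, h𝔓a2, h𝔓a3, h𝔓a4⟩ := hPert (TF O₁ p) ka β hdense n (d + 1) 𝔓₁ h𝔓1 h𝔓2
    (by rw [h𝔓3]) J
    (fun j => MvPolynomial.map (algebraMap (PreTilt O₁ p) (TF O₁ p)) (f j)) (fun j => by
      rw [← hf]
      exact Ideal.subset_span ⟨j, rfl⟩) ((1 / 2) ^ (N + 1)) (by positivity)
  obtain ⟨hD1, hD2, hD3, hD4⟩ := hDesc (TF O p) ka α hαint n 𝔓a h𝔓a1 h𝔓a2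
  refine ⟨𝔓a.comap (MvPolynomial.map α), hD1, hD2, by rw [hD3, h𝔓a3], ?_⟩
  intro C _ _ ι V hV _ _ y hy hyP
  -- the field `Ω`
  have hp0V : (p : V) ≠ 0 := hV.p_ne_zero b.hp0
  have hϖV : (p : V) = hV.incl b.u * PreTilt.untilt (b.ϖV hV) := by
    rw [TB.ϖV, untilt_tmap, ← map_mul, ← b.hϖ, map_natCast]
  haveI : IsAlgClosed (TF V p) := tilt_isAlgClosed V (b.hu.map _) hp0V hϖV
  have hinjV : Function.Injective (algebraMap (PreTilt V p) (TF V p)) :=
    IsFractionRing.injective _ _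
  have hψκ : (tf hV).comp (algebraMap (PreTilt O p) (TF O p)) =
      (algebraMap (PreTilt V p) (TF V p)).comp (tmap hV.incl) := by
    ext x
    exact tf_algebraMap hV x
  obtain ⟨j, hjα, hj⟩ := hD4 (TF V p) (tf hV)
    (fun i => algebraMap (PreTilt V p) (TF V p) (y i))
    (eval_zero_of_integral _ (tmap hV.incl) (tf hV) hψκ y hyP)
  -- normalisation of `y`
  obtain ⟨l, hl⟩ : ∃ l, ∀ i, y l ∣ y i := by
    have key : ∀ s : Finset (Fin (n + 1)), s.Nonempty → ∃ l ∈ s, ∀ i ∈ s, y l ∣ y i := by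
      intro s hs
      induction hs using Finset.Nonempty.cons_induction with
      | singleton a => exact ⟨a, by simp⟩
      | cons a s _ _ ih =>
        obtain ⟨l, hls, hl⟩ := ih
        rcases ValuationRing.dvd_total (y a) (y l) with h | h
        · refine ⟨a, by simp, ?_⟩
          intro i hi
          rcases Finset.mem_cons.mp hi with rfl | hi
          · exact dvd_rfl
          · exact h.trans (hl i hi)
        · refine ⟨l, by simp [hls], ?_⟩
          intro i hi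
          rcases Finset.mem_cons.mp hi with rfl | hi
          · exact h
          · exact hl i hi
    obtain ⟨l, -, hl⟩ := key Finset.univ Finset.univ_nonempty
    exact ⟨l, fun i => hl i (Finset.mem_univ i)⟩
  have hyl : y l ≠ 0 := by
    intro h0
    apply hy
    funext i
    have := hl i
    rw [h0, zero_dvd_iff] at this
    exact this
  choose x' hx' using hl
  let x : Fin (n + 1) → PreTilt V p := fun i => if i = l then 1 else x' i
  have hx : ∀ i, y i = y l * x i := by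
    intro i
    by_cases h : i = l
    · simp [x, h]
    · simp only [x, if_neg h]
      exact hx' i
  have hxl : x l = 1 := by simp [x]
  have hyl' : algebraMap (PreTilt V p) (TF V p) (y l) ≠ 0 := by
    intro h0
    exact hyl (hinjV (by rw [h0, map_zero]))
  have hjx := zero_scale h𝔓a2 j (x := fun i => algebraMap (PreTilt V p) (TF V p) (x i)) hyl'
    (fun i => by rw [← map_mul, ← hx i]) hj
  -- the embedding of `C₁` into `C`
  obtain ⟨jp, hjp1, hjp2⟩ := hEmb C₁ ι₁ O₁ h₁ ka α β hβα (fun a => by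
    obtain ⟨g, hg1, hg2⟩ := hαint a
    exact ⟨g, hg1.ne_zero, hg2⟩) hdens₁ C ι V hV j hjα
  obtain ⟨ι₂, h₂, hι, hjp3⟩ := hFont C₁ ι₁ O₁ h₁ hr C ι V hV jp hjp1
  have hPUV₂ := (hpux₁.2 C ι₂ V h₂).2
  obtain ⟨hTN1, hTN2, hTN3⟩ := hTN₁.2 C ι₂ V h₂
  letI : NormedField (TF V p) := nfPU (F := TF V p) hPUV₂
  haveI : IsUltrametricDist (TF V p) := ultra_nfPU hPUV₂
  letI : NormedAlgebra (TF O₁ p) (TF V p) :=
    { (tf h₂).toAlgebra with
      norm_smul_le := fun r x => by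
        change vn (TF V p) (b₁.ϖV h₂) (tf h₂ r * x) ≤ nk b₁ r * vn (TF V p) (b₁.ϖV h₂) x
        rw [vn_mul hPUV₂]
        have h1 : vn (TF V p) (b₁.ϖV h₂) (tf h₂ r) = nk b₁ r := hTN2 r
        rw [h1] }
  have halg : algebraMap (TF O₁ p) (TF V p) = tf h₂ := rfl
  have hjβ : ∀ a : ka, tf h₂ (β a) = j a := by
    intro a
    obtain ⟨r, w, hw⟩ := PU.dvd_pow hpux₁.1 (β a)
    have h1 : β (α (algebraMap (PreTilt O p) (TF O p) b.ϖ) ^ r * a) =
        algebraMap (PreTilt O₁ p) (TF O₁ p) w := by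
      rw [← hw, map_mul, map_pow]
      congr 2
      have h2 : β (α (algebraMap (PreTilt O p) (TF O p) b.ϖ)) =
          tf h₁ (algebraMap (PreTilt O p) (TF O p) b.ϖ) := RingHom.congr_fun hβα _
      rw [h2, tf_algebraMap]
      rfl
    have h3 := hjp2 _ _ h1
    have h4 : tf h₂ (β (α (algebraMap (PreTilt O p) (TF O p) b.ϖ) ^ r * a)) =
        j (α (algebraMap (PreTilt O p) (TF O p) b.ϖ) ^ r * a) := by
      rw [h1, h3, tf_algebraMap]
      change algebraMap (PreTilt V p) (TF V p) (tmap h₂.incl w) = _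
      rw [hjp3]
    have h5 : tf h₂ (β (α (algebraMap (PreTilt O p) (TF O p) b.ϖ))) =
        j (α (algebraMap (PreTilt O p) (TF O p) b.ϖ)) := by
      have h6 : β (α (algebraMap (PreTilt O p) (TF O p) b.ϖ)) =
          algebraMap (PreTilt O₁ p) (TF O₁ p) b₁.ϖ := by
        have h2 : β (α (algebraMap (PreTilt O p) (TF O p) b.ϖ)) =
            tf h₁ (algebraMap (PreTilt O p) (TF O p) b.ϖ) := RingHom.congr_fun hβα _
        rw [h2, tf_algebraMap]
        rfl
      rw [hjp2 _ _ h6, h6, tf_algebraMap]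
      change algebraMap (PreTilt V p) (TF V p) (tmap h₂.incl b₁.ϖ) = _
      rw [hjp3]
    rw [map_mul, map_mul, map_pow, map_pow, map_mul, map_pow, h5] at h4
    have h7 : j (α (algebraMap (PreTilt O p) (TF O p) b.ϖ)) ^ r ≠ 0 := by
      apply pow_ne_zero
      rw [Ne, map_eq_zero, map_eq_zero]
      exact (pux_proof O p b).1.map_ne
    exact mul_left_cancel₀ h7 h4
  have hsmall := h𝔓a4 (TF V p) (fun i => algebraMap (PreTilt V p) (TF V p) (x i))
    (fun i => vn_le_one _) (by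
      intro F hF
      have h1 : (algebraMap (TF O₁ p) (TF V p)).comp β = j := by
        ext a
        exact hjβ a
      rw [h1]
      exact hjx F hF)
  have hdvd : ∀ i, b₁.ϖV h₂ ^ N ∣ MvPolynomial.eval₂ (tmap h₂.incl) x (f i) := by
    intro i
    apply TN.dvd_of_vn_lt (F := TF V p) hPUV₂
    have h1 : algebraMap (PreTilt V p) (TF V p) (MvPolynomial.eval₂ (tmap h₂.incl) x (f i)) =
        MvPolynomial.aeval (fun i => algebraMap (PreTilt V p) (TF V p) (x i))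
          (MvPolynomial.map (algebraMap (PreTilt O₁ p) (TF O₁ p)) (f i)) := by
      rw [MvPolynomial.aeval_def, MvPolynomial.eval₂_map, MvPolynomial.hom_eval₂]
      congr 1
      ext z
      exact (tf_algebraMap h₂ z).symm
    rw [h1]
    refine lt_of_le_of_lt (hsmall i) ?_
    exact pow_lt_pow_right_of_lt_one₀ (by norm_num) (by norm_num) (Nat.lt_succ_self N)
  obtain ⟨a₂, ha₂U, ha₂⟩ := hres C ι₂ V _ (hN C ι₂ V h₂ x l hxl hdvd)
  refine ⟨a₂, ha₂U, ?_⟩
  have hul : ((PreTilt.untilt (y l) : V) : C) ≠ 0 := by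
    intro h0
    exact hyl (eq_zero_of_untilt (Subtype.ext h0))
  rw [ha₂, hι, ← pointRel_smul ι V (fun i => ((PreTilt.untilt (x i) : V) : C)) _ hul]
  congr 1
  funext i
  rw [hx i, map_mul]
  rfl

end main

end Pool.Agent.DC
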