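import Mathlib
import Pool.Agent.DC.StmtsE
import Pool.Agent.LibDb3ab1.Dim

/-!
# Module NN: Noether normalisation by linear forms for cones of dimension two
-/

set_option autoImplicit false
set_option linter.unusedSectionVars false

noncomputable section

namespace Pool.Agent.DC.NN

open MvPolynomial

universe u

section General

/-- a polynomial of degree at most `d` with coefficient `l` at `d` -/
def Top {A : Type u} [CommRing A] (d : ℕ) (q : Polynomial A) (l : A) : Prop :=
  q.natDegree ≤ d ∧ q.coeff d = l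

lemma Top.mul {A : Type u} [CommRing A] {d d' : ℕ} {q q' : Polynomial A} {l l' : A}
    (h : Top d q l) (h' : Top d' q' l') : Top (d + d') (q * q') (l * l') :=
  ⟨Polynomial.natDegree_mul_le_of_le h.1 h'.1, by
    rw [Polynomial.coeff_mul_add_eq_of_natDegree_le h.1 h'.1, h.2, h'.2]⟩

lemma Top.pow {A : Type u} [CommRing A] {d : ℕ} {q : Polynomial A} {l : A}
    (h : Top d q l) (m : ℕ) : Top (m * d) (q ^ m) (l ^ m) :=
  ⟨Polynomial.natDegree_pow_le_of_le m h.1, by
    rw [Polynomial.coeff_pow_of_natDegree_le h.1, h.2]⟩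

lemma Top.prod {A : Type u} [CommRing A] {ι : Type} (s : Finset ι) (d : ι → ℕ)
    (q : ι → Polynomial A) (l : ι → A)
    (h : ∀ i ∈ s, Top (d i) (q i) (l i)) : Top (∑ i ∈ s, d i) (∏ i ∈ s, q i) (∏ i ∈ s, l i) := by
  classical
  induction s using Finset.induction_on with
  | empty => simp [Top]
  | insert a s ha ih =>
    rw [Finset.sum_insert ha, Finset.prod_insert ha, Finset.prod_insert ha]
    exact (h a (Finset.mem_insert_self a s)).mul
      (ih fun i hi => h i (Finset.mem_insert_of_mem hi))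

lemma Top.sum {A : Type u} [CommRing A] {ι : Type} (s : Finset ι) (d : ℕ)
    (q : ι → Polynomial A) (l : ι → A)
    (h : ∀ i ∈ s, Top d (q i) (l i)) : Top d (∑ i ∈ s, q i) (∑ i ∈ s, l i) := by
  refine ⟨Polynomial.natDegree_sum_le_of_forall_le s q fun i hi => (h i hi).1, ?_⟩
  rw [Polynomial.finsetSum_coeff]
  exact Finset.sum_congr rfl fun i hi => (h i hi).2

/-- Leading coefficient of `g(a + b T)` for a homogeneous `g`. -/
lemma top_aeval {k : Type u} [Field k] {A : Type u} [CommRing A] [Algebra k A] {r d : ℕ}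
    (g : MvPolynomial (Fin r) k) (hg : g.IsHomogeneous d) (a b : Fin r → A) :
    Top d (aeval (fun j => Polynomial.C (a j) + Polynomial.C (b j) * Polynomial.X :
      Fin r → Polynomial A) g) (aeval b g) := by
  rw [aeval_def, aeval_def, eval₂_eq', eval₂_eq']
  refine Top.sum _ _ _ _ fun m hm => ?_
  have h1 : Top 0 (algebraMap k (Polynomial A) (coeff m g)) (algebraMap k A (coeff m g)) := by
    rw [Polynomial.algebraMap_apply]
    exact ⟨by simp, by simp⟩
  have h2 : Top (∑ i, m i) (∏ i, (Polynomial.C (a i) + Polynomial.C (b i) * Polynomial.X) ^ m i)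
      (∏ i, b i ^ m i) := by
    refine Top.prod _ _ _ _ fun i _ => ?_
    have h3 : Top 1 (Polynomial.C (a i) + Polynomial.C (b i) * Polynomial.X) (b i) := by
      refine ⟨?_, by simp⟩
      refine (Polynomial.natDegree_add_le _ _).trans (max_le (by simp) ?_)
      exact (Polynomial.natDegree_C_mul_le _ _).trans Polynomial.natDegree_X_le
    simpa using h3.pow (m i)
  have hm' : ∑ i, m i = d := by
    have := hg (mem_support_iff.1 hm)
    rw [Finsupp.weight_apply, Finsupp.sum_fintype _ _ (by simp)] at this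
    simpa using this
  rw [hm'] at h2
  simpa using h1.mul h2

lemma homComp_aeval {k : Type u} [Field k] {r n : ℕ}
    (M : Fin r → MvPolynomial (Fin n) k) (hM : ∀ j, (M j).IsHomogeneous 1)
    (g : MvPolynomial (Fin r) k) (d : ℕ) :
    homogeneousComponent d (aeval M g) = aeval M (homogeneousComponent d g) := by
  conv_lhs => rw [← sum_homogeneousComponent g]
  rw [map_sum, map_sum]
  have h1 : ∀ i ∈ Finset.range (g.totalDegree + 1),
      homogeneousComponent d (aeval M (homogeneousComponent i g)) =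
        if d = i then aeval M (homogeneousComponent i g) else 0 := by
    intro i _
    have h2 : (aeval M (homogeneousComponent i g)).IsHomogeneous i := by
      simpa using (homogeneousComponent_isHomogeneous i g).aeval M hM
    exact homogeneousComponent_of_mem h2
  rw [Finset.sum_congr rfl h1, Finset.sum_ite_eq]
  split_ifs with h
  · rfl
  · rw [homogeneousComponent_eq_zero d g (by simpa using h), map_zero]

end General

section Main

variable {k : Type u} [Field k] {n : ℕ} (𝔓 : Ideal (MvPolynomial (Fin (n + 1)) k))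

/-- the homomorphism to the quotient given by linear forms -/
def phi {r : ℕ} (M : Fin r → MvPolynomial (Fin (n + 1)) k) :
    MvPolynomial (Fin r) k →ₐ[k] MvPolynomial (Fin (n + 1)) k ⧸ 𝔓 :=
  (Ideal.Quotient.mkₐ k 𝔓).comp (aeval M)

lemma phi_apply {r : ℕ} (M : Fin r → MvPolynomial (Fin (n + 1)) k) (g : MvPolynomial (Fin r) k) :
    phi 𝔓 M g = Ideal.Quotient.mk 𝔓 (aeval M g) := rfl

/-- the linear forms `M` give a finite extension -/
def Good (r : ℕ) : Prop :=
  ∃ M : Fin r → MvPolynomial (Fin (n + 1)) k, (∀ j, (M j).IsHomogeneous 1) ∧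
    (phi 𝔓 M).toRingHom.IsIntegral

lemma good_succ : Good 𝔓 (n + 1) := by
  refine ⟨X, fun j => isHomogeneous_X k j, RingHom.isIntegral_of_surjective _ ?_⟩
  intro x
  obtain ⟨y, rfl⟩ := Ideal.Quotient.mk_surjective x
  refine ⟨y, ?_⟩
  change phi 𝔓 X y = _
  rw [phi_apply, aeval_X_left_apply]

/-- if the forms are dependent, one of them can be removed -/
lemma good_pred [Infinite k] (h𝔓 : 𝔓.IsPrime)
    (hhom : ∀ F ∈ 𝔓, ∀ m, homogeneousComponent m F ∈ 𝔓) (s : ℕ)
    (M : Fin (s + 1) → MvPolynomial (Fin (n + 1)) k) (hM : ∀ j, (M j).IsHomogeneous 1)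
    (hint : (phi 𝔓 M).toRingHom.IsIntegral) (g : MvPolynomial (Fin (s + 1)) k) (hg : g ≠ 0)
    (hg0 : phi 𝔓 M g = 0) : Good 𝔓 s := by
  -- a homogeneous relation
  obtain ⟨d, hd⟩ : ∃ d, homogeneousComponent d g ≠ 0 := by
    by_contra h
    push Not at h
    apply hg
    rw [← sum_homogeneousComponent g]
    exact Finset.sum_eq_zero fun i _ => h i
  obtain ⟨G, hG, hGh, hGr⟩ : ∃ G : MvPolynomial (Fin (s + 1)) k, G ≠ 0 ∧ G.IsHomogeneous d ∧
      aeval M G ∈ 𝔓 := by
    refine ⟨homogeneousComponent d g, hd, homogeneousComponent_isHomogeneous d g, ?_⟩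
    rw [← homComp_aeval M hM]
    refine hhom _ ?_ d
    rwa [phi_apply, Ideal.Quotient.eq_zero_iff_mem] at hg0
  -- a point where `G` and the last coordinate do not vanish
  obtain ⟨c, hc⟩ : ∃ c : Fin (s + 1) → k, eval c (G * X (Fin.last s)) ≠ 0 := by
    by_contra h
    push Not at h
    have : G * X (Fin.last s) = 0 := MvPolynomial.funext fun c => by rw [h c, map_zero]
    rcases mul_eq_zero.1 this with h | h
    · exact hG h
    · exact X_ne_zero _ h
  rw [map_mul, eval_X] at hc
  have hcs : c (Fin.last s) ≠ 0 := right_ne_zero_of_mul hc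
  have hGc : eval c G ≠ 0 := left_ne_zero_of_mul hc
  -- normalised point
  let b : Fin (s + 1) → k := fun j => (c (Fin.last s))⁻¹ * c j
  have hb : eval b G ≠ 0 := by
    have h1 : eval b G = (c (Fin.last s))⁻¹ ^ d * eval c G := by
      rw [eval_eq', eval_eq', Finset.mul_sum]
      refine Finset.sum_congr rfl fun m hm => ?_
      have hm' : ∑ i, m i = d := by
        have := hGh (mem_support_iff.1 hm)
        rw [Finsupp.weight_apply, Finsupp.sum_fintype _ _ (by simp)] at this
        simpa using this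
      simp only [b, mul_pow, Finset.prod_mul_distrib]
      rw [Finset.prod_pow_eq_pow_sum, hm']
      ring
    rw [h1]
    exact mul_ne_zero (pow_ne_zero _ (inv_ne_zero hcs)) hGc
  have hbl : b (Fin.last s) = 1 := inv_mul_cancel₀ hcs
  -- the new forms
  let M' : Fin s → MvPolynomial (Fin (n + 1)) k := fun i =>
    M i.castSucc - C (b i.castSucc) * M (Fin.last s)
  refine ⟨M', fun j => ((hM _).sub ((hM _).C_mul _)), ?_⟩
  letI : Algebra (MvPolynomial (Fin s) k) (MvPolynomial (Fin (n + 1)) k ⧸ 𝔓) :=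
    (phi 𝔓 M').toRingHom.toAlgebra
  have halg : ∀ x, algebraMap (MvPolynomial (Fin s) k) (MvPolynomial (Fin (n + 1)) k ⧸ 𝔓) x =
      phi 𝔓 M' x := fun x => rfl
  have hmkC : ∀ x : k, algebraMap k (MvPolynomial (Fin (n + 1)) k ⧸ 𝔓) x =
      Ideal.Quotient.mk 𝔓 (C x) := fun x => rfl
  -- the last form is integral
  have hlast : IsIntegral (MvPolynomial (Fin s) k) (Ideal.Quotient.mk 𝔓 (M (Fin.last s))) := by
    let a : Fin (s + 1) → MvPolynomial (Fin s) k :=
      Fin.lastCases (motive := fun _ => MvPolynomial (Fin s) k) 0 (fun i => X i)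
    let b' : Fin (s + 1) → MvPolynomial (Fin s) k := fun j => C (b j)
    obtain ⟨h1, h2⟩ := top_aeval G hGh a b'
    have h3 : aeval b' G = C (eval b G) := by
      have : (aeval b' : MvPolynomial (Fin (s + 1)) k →ₐ[k] MvPolynomial (Fin s) k) =
          (Algebra.ofId k (MvPolynomial (Fin s) k)).comp (aeval b) := by
        apply MvPolynomial.algHom_ext
        intro i
        simp [b', Algebra.ofId_apply]
      rw [this]
      simp [Algebra.ofId_apply]
    rw [h3] at h2
    set q : Polynomial (MvPolynomial (Fin s) k) := aeval (fun j =>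
      Polynomial.C (a j) + Polynomial.C (b' j) * Polynomial.X :
      Fin (s + 1) → Polynomial (MvPolynomial (Fin s) k)) G with hq
    have h4 : (Polynomial.C (C (eval b G)⁻¹) * q).Monic := by
      apply Polynomial.monic_of_natDegree_le_of_coeff_eq_one d
      · exact (Polynomial.natDegree_C_mul_le _ _).trans h1
      · rw [Polynomial.coeff_C_mul, h2, ← C_mul, inv_mul_cancel₀ hb, C_1]
    refine ⟨_, h4, ?_⟩
    rw [Polynomial.eval₂_mul]
    have h5 : q.eval₂ (algebraMap (MvPolynomial (Fin s) k) (MvPolynomial (Fin (n + 1)) k ⧸ 𝔓))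
        (Ideal.Quotient.mk 𝔓 (M (Fin.last s))) = 0 := by
      have h6 : (Polynomial.eval₂RingHom (algebraMap (MvPolynomial (Fin s) k)
          (MvPolynomial (Fin (n + 1)) k ⧸ 𝔓))
          (Ideal.Quotient.mk 𝔓 (M (Fin.last s)))).comp
          (aeval (fun j => Polynomial.C (a j) + Polynomial.C (b' j) * Polynomial.X :
            Fin (s + 1) → Polynomial (MvPolynomial (Fin s) k)) :
            MvPolynomial (Fin (s + 1)) k →ₐ[k] _).toRingHom =
          (phi 𝔓 M).toRingHom := by
        apply MvPolynomial.ringHom_ext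
        · intro x
          have : algebraMap k (MvPolynomial (Fin s) k) x = C x := rfl
          simp [Polynomial.algebraMap_apply, halg, phi_apply]
        · intro j
          refine Fin.lastCases ?_ (fun i => ?_) j
          · simp [a, b', hbl, halg, phi_apply]
          · simp [a, b', halg, phi_apply, M', hmkC]
      have h7 := congrArg (fun f : MvPolynomial (Fin (s + 1)) k →+* _ => f G) h6
      simp only [RingHom.comp_apply] at h7
      have h8 : (phi 𝔓 M).toRingHom G = 0 := by
        change phi 𝔓 M G = 0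
        rw [phi_apply, Ideal.Quotient.eq_zero_iff_mem]
        exact hGr
      rw [h8] at h7
      exact h7
    rw [h5, mul_zero]
  -- all forms are integral
  have hall : ∀ j, Ideal.Quotient.mk 𝔓 (M j) ∈ integralClosure (MvPolynomial (Fin s) k)
      (MvPolynomial (Fin (n + 1)) k ⧸ 𝔓) := by
    intro j
    refine Fin.lastCases hlast (fun i => ?_) j
    have h1 : Ideal.Quotient.mk 𝔓 (M i.castSucc) =
        algebraMap (MvPolynomial (Fin s) k) _ (X i) +
          algebraMap (MvPolynomial (Fin s) k) _ (C (b i.castSucc)) *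
            Ideal.Quotient.mk 𝔓 (M (Fin.last s)) := by
      simp [halg, phi_apply, M', hmkC]
    rw [h1]
    exact Subalgebra.add_mem _ (Subalgebra.algebraMap_mem _ _)
      (Subalgebra.mul_mem _ (Subalgebra.algebraMap_mem _ _) hlast)
  have hall2 : ∀ p : MvPolynomial (Fin (s + 1)) k, phi 𝔓 M p ∈
      integralClosure (MvPolynomial (Fin s) k) (MvPolynomial (Fin (n + 1)) k ⧸ 𝔓) := by
    intro p
    induction p using MvPolynomial.induction_on with
    | C x =>
      have h1 : phi 𝔓 M (C x) = algebraMap (MvPolynomial (Fin s) k) _ (C x) := by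
        simp [halg, phi_apply]
      rw [h1]
      exact Subalgebra.algebraMap_mem _ _
    | add p q hp hq => rw [map_add]; exact Subalgebra.add_mem _ hp hq
    | mul_X p j hp =>
      rw [map_mul]
      refine Subalgebra.mul_mem _ hp ?_
      rw [phi_apply, aeval_X]
      exact hall j
  let φ' : MvPolynomial (Fin (s + 1)) k →+*
      integralClosure (MvPolynomial (Fin s) k) (MvPolynomial (Fin (n + 1)) k ⧸ 𝔓) :=
    (phi 𝔓 M).toRingHom.codRestrict
      (integralClosure (MvPolynomial (Fin s) k) (MvPolynomial (Fin (n + 1)) k ⧸ 𝔓)) hall2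
  intro x
  obtain ⟨P, hP, hPx⟩ := hint x
  change IsIntegral (MvPolynomial (Fin s) k) x
  refine isIntegral_trans (A := integralClosure (MvPolynomial (Fin s) k)
    (MvPolynomial (Fin (n + 1)) k ⧸ 𝔓)) x ⟨P.map φ', hP.map φ', ?_⟩
  rw [Polynomial.eval₂_map]
  have h9 : (algebraMap (integralClosure (MvPolynomial (Fin s) k)
      (MvPolynomial (Fin (n + 1)) k ⧸ 𝔓)) (MvPolynomial (Fin (n + 1)) k ⧸ 𝔓)).comp φ' =
      (phi 𝔓 M).toRingHom := by
    apply RingHom.ext
    intro p
    rfl
  rw [h9]
  exact hPx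

lemma exists_forms [Infinite k] (h𝔓 : 𝔓.IsPrime)
    (hhom : ∀ F ∈ 𝔓, ∀ m, homogeneousComponent m F ∈ 𝔓) :
    ∃ (r : ℕ) (M : Fin r → MvPolynomial (Fin (n + 1)) k), (∀ j, (M j).IsHomogeneous 1) ∧
      (phi 𝔓 M).toRingHom.IsIntegral ∧ Function.Injective (phi 𝔓 M) := by
  classical
  have hex : ∃ r, Good 𝔓 r := ⟨n + 1, good_succ 𝔓⟩
  obtain ⟨M, hM, hint⟩ := Nat.find_spec hex
  refine ⟨Nat.find hex, M, hM, hint, ?_⟩
  rw [injective_iff_map_eq_zero]
  intro g hg0
  by_contra hg
  rcases Nat.eq_zero_or_pos (Nat.find hex) with h0 | h0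
  · -- no variables
    generalize Nat.find hex = r at M hM hint g hg0 hg h0
    subst h0
    obtain ⟨c, rfl⟩ := C_surjective (Fin 0) g
    have hc : c ≠ 0 := by rintro rfl; exact hg C_0
    haveI : Nontrivial (MvPolynomial (Fin (n + 1)) k ⧸ 𝔓) :=
      Ideal.Quotient.nontrivial_iff.2 h𝔓.ne_top
    have h1 : phi 𝔓 M (C c) = algebraMap k (MvPolynomial (Fin (n + 1)) k ⧸ 𝔓) c :=
      (phi 𝔓 M).commutes c
    rw [h1] at hg0
    exact hc ((map_eq_zero_iff _ (algebraMap k (MvPolynomial (Fin (n + 1)) k ⧸ 𝔓)).injective).1 hg0)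
  · obtain ⟨s, hs⟩ : ∃ s, Nat.find hex = s + 1 := ⟨Nat.find hex - 1, by omega⟩
    have hmin : ¬ Good 𝔓 s := Nat.find_min hex (by omega)
    apply hmin
    generalize Nat.find hex = r at M hM hint g hg0 hg h0 hs
    subst hs
    exact good_pred 𝔓 h𝔓 hhom s M hM hint g hg hg0

end Main

end Pool.Agent.DC.NN

namespace Pool.Agent.DC

open MvPolynomial NN

universe u

theorem nn_proof (k : Type u) [Field k] [Infinite k] : Stmt_NN k := by
  intro n 𝔓 h𝔓 hhom hdim
  obtain ⟨r, M, hM, hint, hinj⟩ := exists_forms 𝔓 h𝔓 hhom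
  have hr : r = 2 := by
    letI : Algebra (MvPolynomial (Fin r) k) (MvPolynomial (Fin (n + 1)) k ⧸ 𝔓) :=
      (phi 𝔓 M).toRingHom.toAlgebra
    haveI : Algebra.IsIntegral (MvPolynomial (Fin r) k) (MvPolynomial (Fin (n + 1)) k ⧸ 𝔓) :=
      ⟨hint⟩
    haveI : IsDomain (MvPolynomial (Fin (n + 1)) k ⧸ 𝔓) := Ideal.Quotient.isDomain 𝔓
    have h1 : ringKrullDim (MvPolynomial (Fin r) k) =
        ringKrullDim (MvPolynomial (Fin (n + 1)) k ⧸ 𝔓) :=
      LibDb3ab1.ringKrullDim_eq_of_integral hinj
    rw [MvPolynomial.ringKrullDim_of_isNoetherianRing, ringKrullDim_eq_zero_of_field, zero_add,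
      Nat.card_eq_fintype_card, Fintype.card_fin, hdim] at h1
    exact_mod_cast h1
  subst hr
  refine ⟨M, hM, ?_, ?_⟩
  · intro g hg
    apply hinj
    rw [map_zero, phi_apply, Ideal.Quotient.eq_zero_iff_mem]
    exact hg
  · intro i
    obtain ⟨P, hP, hPx⟩ := hint (Ideal.Quotient.mk 𝔓 (X i))
    obtain ⟨F, hF⟩ : ∃ F : MvPolynomial (Fin 3) k,
      F = P.eval₂ (rename (Fin.castSucc : Fin 2 → Fin 3)).toRingHom (X 2) := ⟨_, rfl⟩
    obtain ⟨e, he⟩ : ∃ e, e = P.natDegree := ⟨_, rfl⟩
    have hnt : Nontrivial (MvPolynomial (Fin (n + 1)) k ⧸ 𝔓) :=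
      Ideal.Quotient.nontrivial_iff.2 h𝔓.ne_top
    have he0 : 0 < e := by
      rw [Nat.pos_iff_ne_zero, he]
      intro h0
      rw [hP.natDegree_eq_zero.1 h0, Polynomial.eval₂_one] at hPx
      exact one_ne_zero hPx
    refine ⟨e, homogeneousComponent e F, he0, homogeneousComponent_isHomogeneous e F, ?_, ?_⟩
    · rw [coeff_homogeneousComponent, if_pos (by simp), hF, Polynomial.eval₂_eq_sum_range,
        coeff_sum, ← he, Finset.sum_range_succ]
      have h1 : ∀ j ∈ Finset.range e, coeff (Finsupp.single 2 e)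
          ((rename (Fin.castSucc : Fin 2 → Fin 3)).toRingHom (P.coeff j) * X 2 ^ j :
            MvPolynomial (Fin 3) k) = 0 := by
        intro j hj
        have hj' : j < e := Finset.mem_range.1 hj
        rw [X_pow_eq_monomial, coeff_mul_monomial', if_pos (by
          rw [Finsupp.single_le_iff]; simpa using hj'.le), mul_one]
        change coeff _ (rename (Fin.castSucc : Fin 2 → Fin 3) (P.coeff j)) = 0
        apply coeff_rename_eq_zero
        intro u hu
        exfalso
        have h2 := DFunLike.congr_fun hu 2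
        rw [Finsupp.mapDomain_notin_range _ _ (by
          rintro ⟨a, ha⟩
          exact (Fin.castSucc_lt_last a).ne ha)] at h2
        simp at h2
        omega
      rw [Finset.sum_eq_zero h1, zero_add, he, hP.coeff_natDegree]
      simp [X_pow_eq_monomial]
    · rw [← homComp_aeval]
      · apply hhom
        rw [← Ideal.Quotient.eq_zero_iff_mem, hF]
        have h3 := Polynomial.hom_eval₂ P (rename (Fin.castSucc : Fin 2 → Fin 3)).toRingHom
          ((Ideal.Quotient.mk 𝔓).comp (aeval ![M 0, M 1, X i] :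
            MvPolynomial (Fin 3) k →ₐ[k] MvPolynomial (Fin (n + 1)) k).toRingHom) (X 2)
        have h4 : ((Ideal.Quotient.mk 𝔓).comp (aeval ![M 0, M 1, X i] :
            MvPolynomial (Fin 3) k →ₐ[k] MvPolynomial (Fin (n + 1)) k).toRingHom).comp
            (rename (Fin.castSucc : Fin 2 → Fin 3)).toRingHom = (phi 𝔓 M).toRingHom := by
          apply MvPolynomial.ringHom_ext
          · intro x
            simp
            rfl
          · intro j
            fin_cases j <;> simp [phi_apply]
        have h5 : ((Ideal.Quotient.mk 𝔓).comp (aeval ![M 0, M 1, X i] :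
            MvPolynomial (Fin 3) k →ₐ[k] MvPolynomial (Fin (n + 1)) k).toRingHom) (X 2) =
            Ideal.Quotient.mk 𝔓 (X i) := by
          simp
        rw [h4, h5, hPx] at h3
        exact h3
      · intro j
        fin_cases j
        · exact hM 0
        · exact hM 1
        · exact isHomogeneous_X k i

end Pool.Agent.DC
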