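import Mathlib
import Pool.Agent.DC.StmtsE

/-!
# PRIME: homogeneous primes of dimension two above a homogeneous ideal
-/

set_option autoImplicit false
set_option linter.style.haveILetI false

noncomputable section

namespace Pool.Agent.DC.PRIME

universe u

attribute [local instance] MvPolynomial.gradedAlgebra

theorem homog_iff {K : Type u} [Field K] {n : ℕ} (I : Ideal (MvPolynomial (Fin (n + 1)) K)) :
    I.IsHomogeneous (MvPolynomial.homogeneousSubmodule (Fin (n + 1)) K) ↔
      ∀ F ∈ I, ∀ m, MvPolynomial.homogeneousComponent m F ∈ I := by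
  constructor
  · intro h F hF m
    exact MvPolynomial.homogeneousComponent_mem_of_mem h hF m
  · intro h m F hF
    have h1 : (DirectSum.decompose (MvPolynomial.homogeneousSubmodule (Fin (n + 1)) K) F m :
        MvPolynomial (Fin (n + 1)) K) = MvPolynomial.homogeneousComponent m F :=
      MvPolynomial.decomposition.decompose'_apply F m
    rw [h1]
    exact h F hF m

theorem minimal_homog {K : Type u} [Field K] {n : ℕ} (I q : Ideal (MvPolynomial (Fin (n + 1)) K))
    (hI : I.IsHomogeneous (MvPolynomial.homogeneousSubmodule (Fin (n + 1)) K))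
    (hq : q ∈ I.minimalPrimes) :
    q.IsHomogeneous (MvPolynomial.homogeneousSubmodule (Fin (n + 1)) K) := by
  have hqp : q.IsPrime := hq.1.1
  have h1 := Ideal.IsPrime.homogeneousCore
    (𝒜 := MvPolynomial.homogeneousSubmodule (Fin (n + 1)) K) hqp
  have h2 : I ≤ (q.homogeneousCore
      (MvPolynomial.homogeneousSubmodule (Fin (n + 1)) K)).toIdeal := by
    rw [← hI.toIdeal_homogeneousCore_eq_self]
    exact Ideal.homogeneousCore_mono _ hq.1.2
  have h3 : (q.homogeneousCore
      (MvPolynomial.homogeneousSubmodule (Fin (n + 1)) K)).toIdeal ≤ q :=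
    Ideal.toIdeal_homogeneousCore_le _ q
  have h4 : q ≤ (q.homogeneousCore
      (MvPolynomial.homogeneousSubmodule (Fin (n + 1)) K)).toIdeal := hq.2 ⟨h1, h2⟩ h3
  rw [← le_antisymm h3 h4]
  exact HomogeneousIdeal.isHomogeneous _

theorem prime_proof (K : Type u) [Field K] : Stmt_Prime K := by
  intro n I hI hdim
  have hI' := (homog_iff I).mpr hI
  have h1 : ((2 : ℕ) : WithBot ℕ∞) ≤
      Order.krullDim (PrimeSpectrum.zeroLocus (R := MvPolynomial (Fin (n + 1)) K) I) := by
    rw [← ringKrullDim_quotient, hdim]; norm_num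
  obtain ⟨l, hl⟩ := Order.le_krullDim_iff.mp h1
  have hhead : (l.head).1.asIdeal.IsPrime := (l.head).1.isPrime
  obtain ⟨q, hq, hqle⟩ := Ideal.exists_minimalPrimes_le (I := I) (J := (l.head).1.asIdeal)
    (by exact (l.head).2)
  have hqp : q.IsPrime := hq.1.1
  refine ⟨q, hq.1.2, hqp, (homog_iff q).mp (minimal_homog I q hI' hq), ?_⟩
  apply le_antisymm
  · rw [← hdim]
    exact ringKrullDim_le_of_surjective (Ideal.Quotient.factor hq.1.2)
      (Ideal.Quotient.factor_surjective hq.1.2)
  · have h2 : ((2 : ℕ) : WithBot ℕ∞) ≤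
        Order.krullDim (PrimeSpectrum.zeroLocus (R := MvPolynomial (Fin (n + 1)) K) q) := by
      rw [Order.le_krullDim_iff]
      refine ⟨⟨l.length, fun i => ⟨(l i).1, ?_⟩, ?_⟩, hl⟩
      · have h3 : l.head ≤ l i := LTSeries.monotone l (Fin.zero_le i)
        have h4 : (l.head).1.asIdeal ≤ (l i).1.asIdeal := h3
        have h5 : q ≤ (l i).1.asIdeal := hqle.trans h4
        exact h5
      · intro i
        exact l.step i
    rw [ringKrullDim_quotient]
    exact_mod_cast h2

end Pool.Agent.DC.PRIME

namespace Pool.Agent.DC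

universe u

theorem prime_proof (K : Type u) [Field K] : Stmt_Prime K := PRIME.prime_proof K

end Pool.Agent.DC
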