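import Pool.Agent.DC.StmtsB
import Pool.Agent.LibDb3ab1.Compact

/-!
# Part G: descent from algebraically closed perfectoid fields to all perfectoid fields

Statements of the modules.
-/

set_option autoImplicit false
set_option linter.unusedSectionVars false

noncomputable section

namespace Pool.Agent.DC

open scoped Classical
open Pool.Agent.LibDb3ab1

universe u

section general

/-- Sequential `ϖ`-adic completeness. -/
def SC {W : Type u} [CommRing W] (ϖ : W) : Prop :=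
  ∀ x : ℕ → W, (∀ n, ϖ ^ n ∣ x (n + 1) - x n) → ∃ y, ∀ n, ϖ ^ n ∣ y - x n

/-- INTG: uniqueness of the extension of the valuation (spectral norm in Mathlib). -/
def Stmt_Intg : Prop :=
  ∀ (W F : Type u) [CommRing W] [IsDomain W] [ValuationRing W] [Field F] [Algebra W F]
    [IsFractionRing W F] (ϖ : W), PU ϖ → SC ϖ → (∀ x : W, ¬IsUnit x → ∃ n : ℕ, ϖ ∣ x ^ n) →
    ∀ (L : Type u) [Field L] (j : F →+* L) (V : ValuationSubring L),
    (∀ x : F, j x ∈ V ↔ ∃ w : W, algebraMap W F w = x) →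
    ∀ (f : Polynomial F) (x : L), f.Monic → Irreducible f → f.eval₂ j x = 0 → x ∈ V →
    ∀ i, ∃ w : W, algebraMap W F w = f.coeff i

/-- DIMF: the dimension is invariant under extension of the base field. -/
def Stmt_Dimf : Prop :=
  ∀ (K C : Type u) [Field K] [Field C] (ι : K →+* C) (n : ℕ)
    (I : Ideal (MvPolynomial (Fin n) K)),
    ringKrullDim (MvPolynomial (Fin n) C ⧸ I.map (MvPolynomial.map ι)) =
      ringKrullDim (MvPolynomial (Fin n) K ⧸ I)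

/-- RESU: the restriction map of adic projective spaces is continuous. -/
def Stmt_Resu : Prop :=
  ∀ (K C₁ : Type u) [Field K] [Field C₁] (O : ValuationSubring K) (O₁ : ValuationSubring C₁)
    (ι₁ : K →+* C₁), ValuedExt O ι₁ O₁ → ∀ (n : ℕ) (U : Set (AdicProj O n)), IsOpen U →
    ∃ U₁ : Set (AdicProj O₁ n), IsOpen U₁ ∧
      (∀ I : Ideal (MvPolynomial (Fin (n + 1)) K), adicLocus O I ⊆ U →
        adicLocus O₁ (I.map (MvPolynomial.map ι₁)) ⊆ U₁) ∧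
      ∀ (L : Type u) [Field L] (ι₂ : C₁ →+* L) (V : ValuationSubring L) (x : Fin (n + 1) → L),
        (∃ a ∈ U₁, a.1 = pointRel ι₂ V x) → ∃ a ∈ U, a.1 = pointRel (ι₂.comp ι₁) V x

/-- DESC: contraction of a homogeneous prime ideal along an algebraic extension of fields
(uses HOMEXT). -/
def Stmt_Desc : Prop :=
  ∀ (k₀ ka : Type u) [Field k₀] [Field ka] (α : k₀ →+* ka), α.IsIntegral → ∀ (n : ℕ)
    (𝔓 : Ideal (MvPolynomial (Fin (n + 1)) ka)), 𝔓.IsPrime →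
    (∀ F ∈ 𝔓, ∀ m, MvPolynomial.homogeneousComponent m F ∈ 𝔓) →
    (𝔓.comap (MvPolynomial.map α)).IsPrime ∧
    (∀ F ∈ 𝔓.comap (MvPolynomial.map α), ∀ m,
      MvPolynomial.homogeneousComponent m F ∈ 𝔓.comap (MvPolynomial.map α)) ∧
    ringKrullDim (MvPolynomial (Fin (n + 1)) k₀ ⧸ 𝔓.comap (MvPolynomial.map α)) =
      ringKrullDim (MvPolynomial (Fin (n + 1)) ka ⧸ 𝔓) ∧
    ∀ (Ω : Type u) [Field Ω] [IsAlgClosed Ω] (ψ : k₀ →+* Ω) (y : Fin (n + 1) → Ω),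
      (∀ F ∈ 𝔓.comap (MvPolynomial.map α), MvPolynomial.eval₂ ψ y F = 0) →
      ∃ j : ka →+* Ω, j.comp α = ψ ∧ ∀ F ∈ 𝔓, MvPolynomial.eval₂ j y F = 0

/-- DENS: points over a dense algebraically closed subfield are dense in the points of a variety
over it (Noether normalisation and LIM, without completeness). -/
def Stmt_Dens : Prop :=
  ∀ (k₁ : Type u) [NontriviallyNormedField k₁] [IsUltrametricDist k₁] [IsAlgClosed k₁]
    (ka : Type u) [Field ka] [IsAlgClosed ka] (β : ka →+* k₁),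
    (∀ (x : k₁) (ε : ℝ), 0 < ε → ∃ a : ka, ‖x - β a‖ < ε) → ∀ (m : ℕ) (c : Fin m → k₁) (ε : ℝ),
    0 < ε → ∃ c' : Fin m → ka,
      (∀ G : MvPolynomial (Fin m) ka, MvPolynomial.eval₂ β c G = 0 → MvPolynomial.eval c' G = 0) ∧
      ∀ i, ‖c i - β (c' i)‖ ≤ ε

/-- PERT: perturbation of a homogeneous prime ideal to a dense algebraically closed subfield
(uses DENS, Noether normalisation by linear forms and lying over). -/
def Stmt_Pert : Prop :=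
  ∀ (k₁ : Type u) [NontriviallyNormedField k₁] [IsUltrametricDist k₁] [IsAlgClosed k₁]
    (ka : Type u) [Field ka] [IsAlgClosed ka] (β : ka →+* k₁),
    (∀ (x : k₁) (ε : ℝ), 0 < ε → ∃ a : ka, ‖x - β a‖ < ε) → ∀ (n d : ℕ)
    (𝔓 : Ideal (MvPolynomial (Fin (n + 1)) k₁)), 𝔓.IsPrime →
    (∀ F ∈ 𝔓, ∀ m, MvPolynomial.homogeneousComponent m F ∈ 𝔓) →
    ringKrullDim (MvPolynomial (Fin (n + 1)) k₁ ⧸ 𝔓) = (d : WithBot ℕ∞) →
    ∀ (J : Type) [Finite J] (f : J → MvPolynomial (Fin (n + 1)) k₁), (∀ j, f j ∈ 𝔓) →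
    ∀ ε : ℝ, 0 < ε → ∃ 𝔓a : Ideal (MvPolynomial (Fin (n + 1)) ka), 𝔓a.IsPrime ∧
      (∀ F ∈ 𝔓a, ∀ m, MvPolynomial.homogeneousComponent m F ∈ 𝔓a) ∧
      ringKrullDim (MvPolynomial (Fin (n + 1)) ka ⧸ 𝔓a) = (d : WithBot ℕ∞) ∧
      ∀ (Ω : Type u) [NormedField Ω] [NormedAlgebra k₁ Ω] [IsUltrametricDist Ω]
        (y : Fin (n + 1) → Ω), (∀ i, ‖y i‖ ≤ 1) →
        (∀ F ∈ 𝔓a, MvPolynomial.eval₂ ((algebraMap k₁ Ω).comp β) y F = 0) →
        ∀ j, ‖MvPolynomial.aeval y (f j)‖ ≤ ε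

end general

section ultra

/-- ULTA: the limit field of `exists_limit` (LibDb3ab1/Compact.lean) is algebraically closed and
its valuation ring is complete. -/
def Stmt_UltA : Prop :=
  ∀ (p : ℕ) [Fact p.Prime] (K : Type u) [Field K] (O : ValuationSubring K), (p : K) ≠ 0 →
    ¬IsUnit (p : O) → ∀ (L : ℕ → Type u) [∀ m, Field (L m)] [∀ m, IsAlgClosed (L m)]
    (ι : ∀ m, K →+* L m) (V : ∀ m, ValuationSubring (L m)) (_hV : ∀ m, ValuedExt O (ι m) (V m))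
    (LL : Type u) [Field LL] (ιL : K →+* LL) (VL : ValuationSubring LL)
    (_hVL : ValuedExt O ιL VL) (π : (∀ m, V m) →+* VL), Function.Surjective π →
    (∀ x, π x = 0 ↔ x ∈ qIdeal V p) → IsAlgClosed LL ∧ IsAdicComplete (Ideal.span {(p : VL)}) VL

/-- ULTB: the map between the tilts. -/
def Stmt_UltB : Prop :=
  ∀ (p : ℕ) [Fact p.Prime] (K : Type u) [Field K] (O : ValuationSubring K)
    [Fact ¬IsUnit (p : O)], (p : K) ≠ 0 → ∀ (L : ℕ → Type u) [∀ m, Field (L m)]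
    (ι : ∀ m, K →+* L m) (V : ∀ m, ValuationSubring (L m)) (hV : ∀ m, ValuedExt O (ι m) (V m))
    [∀ m, Fact ¬IsUnit (p : V m)] [∀ m, IsAdicComplete (Ideal.span {(p : V m)}) (V m)]
    (LL : Type u) [Field LL] (ιL : K →+* LL) (VL : ValuationSubring LL)
    (hVL : ValuedExt O ιL VL) (π : (∀ m, V m) →+* VL), Function.Surjective π →
    (∀ x, π x = 0 ↔ x ∈ qIdeal V p) → (∀ a : O, π (fun m => (hV m).incl a) = hVL.incl a) →
    ∀ [Fact ¬IsUnit (p : VL)] [IsAdicComplete (Ideal.span {(p : VL)}) VL],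
    ∃ Pi : (∀ m, PreTilt (V m) p) →+* PreTilt VL p,
      (∀ y, PreTilt.untilt (Pi y) = π (fun m => PreTilt.untilt (y m))) ∧
      ∀ x : PreTilt O p, Pi (fun m => tmap (hV m).incl x) = tmap hVL.incl x

/-- ULTC: if all zeros of `𝔓` are in the open set `U`, then so are all approximate zeros
(uses `exists_limit`, ULTA, ULTB; compare `compact_tube`). -/
def Stmt_UltC : Prop :=
  ∀ (p : ℕ) [Fact p.Prime] (K : Type u) [Field K] (O : ValuationSubring K)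
    [Fact ¬IsUnit (p : O)] [IsAdicComplete (Ideal.span {(p : O)}) O] (b : TB O p) (n : ℕ)
    (U : Set (AdicProj O n)), IsOpen U → ∀ (J : Type) [Finite J]
    (f : J → MvPolynomial (Fin (n + 1)) (PreTilt O p)),
    TiltInside p O (Ideal.span (Set.range fun j =>
      MvPolynomial.map (algebraMap (PreTilt O p) (FractionRing (PreTilt O p))) (f j))) U →
    ∃ N : ℕ, ∀ (C : Type u) [Field C] [IsAlgClosed C] (ι : K →+* C) (V : ValuationSubring C)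
      (hV : ValuedExt O ι V) [Fact ¬IsUnit (p : V)] [IsAdicComplete (Ideal.span {(p : V)}) V]
      (y : Fin (n + 1) → PreTilt V p) (l : Fin (n + 1)), y l = 1 →
      (∀ j, b.ϖV hV ^ N ∣ MvPolynomial.eval₂ (tmap hV.incl) y (f j)) →
      ∃ a ∈ U, a.1 = pointRel ι V (fun l => ((PreTilt.untilt (y l) : V) : C))

end ultra

section closure

variable {K : Type u} [Field K] {O : ValuationSubring K} {p : ℕ} [Fact p.Prime]
  [Fact ¬IsUnit (p : O)] [IsAdicComplete (Ideal.span {(p : O)}) O]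
  {C₀ : Type u} [Field C₀] {ι₀ : K →+* C₀} {V₀ : ValuationSubring C₀}

/-- The subring of the tilt of `V₀` of the limits of elements which are algebraic over the tilt
of `O`. -/
structure LSub (b : TB O p) (h₀ : ValuedExt O ι₀ V₀) [Fact ¬IsUnit (p : V₀)]
    [IsAdicComplete (Ideal.span {(p : V₀)}) V₀] (L : Subring (PreTilt V₀ p)) : Prop where
  base : ∀ x : PreTilt O p, tmap h₀.incl x ∈ L
  closed : ∀ y : PreTilt V₀ p, (∀ N : ℕ, ∃ a ∈ L, b.ϖV h₀ ^ N ∣ y - a) → y ∈ L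
  root : ∀ f : Polynomial (PreTilt V₀ p), f.Monic → 0 < f.natDegree → (∀ i, f.coeff i ∈ L) →
    ∃ y ∈ L, f.eval y = 0
  div : ∀ x y : PreTilt V₀ p, x ∈ L → x ≠ 0 → x * y ∈ L → y ∈ L
  dense : ∀ y ∈ L, ∀ N : ℕ, ∃ a ∈ L, (∃ f : Polynomial (PreTilt O p), f ≠ 0 ∧
    f.eval₂ (tmap h₀.incl) a = 0) ∧ b.ϖV h₀ ^ N ∣ y - a
  rank : ∀ x ∈ L, ¬IsUnit x → ∃ k : ℕ, b.ϖV h₀ ∣ x ^ k

/-- The corresponding subring of `V₀`: the sums `∑ p ^ i y_i ^ ♯` with `y_i ∈ L`. -/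
structure OSub (h₀ : ValuedExt O ι₀ V₀) [Fact ¬IsUnit (p : V₀)]
    [IsAdicComplete (Ideal.span {(p : V₀)}) V₀] (L : Subring (PreTilt V₀ p))
    (A : Subring V₀) : Prop where
  base : ∀ x : O, h₀.incl x ∈ A
  sharp : ∀ y ∈ L, PreTilt.untilt y ∈ A
  exp : ∀ x ∈ A, ∃ y ∈ L, ∃ x' ∈ A, x = PreTilt.untilt y + (p : V₀) * x'
  closed : ∀ x : V₀, (∀ N : ℕ, ∃ a ∈ A, (p : V₀) ^ N ∣ x - a) → x ∈ A
  div : ∀ x y : V₀, x ∈ A → x ≠ 0 → x * y ∈ A → y ∈ A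
  rank : ∀ x ∈ A, ¬IsUnit x → ∃ k : ℕ, (p : V₀) ∣ x ^ k

end closure

section stmts

variable {K : Type u} [Field K] (O : ValuationSubring K) (p : ℕ) [Fact p.Prime]
  [Fact ¬IsUnit (p : O)] [IsAdicComplete (Ideal.span {(p : O)}) O] (b : TB O p)

/-- SCX: completeness and rank one for the tilt of `O`. -/
def Stmt_SCX (_b : TB O p) : Prop :=
  SC (p : O) ∧ SC _b.ϖ ∧ (∀ x : PreTilt O p, ¬IsUnit x → ∃ n : ℕ, _b.ϖ ∣ x ^ n) ∧
  ∀ (C : Type u) [Field C] (ι : K →+* C) (V : ValuationSubring C) (hV : ValuedExt O ι V)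
    [Fact ¬IsUnit (p : V)] [IsAdicComplete (Ideal.span {(p : V)}) V], SC (p : V) ∧
    SC (_b.ϖV hV) ∧ ∀ x y : PreTilt O p, tmap hV.incl x ∣ tmap hV.incl y ↔ x ∣ y

/-- CLA: existence of `L` (uses SCX). -/
def Stmt_Cla (_b : TB O p) : Prop :=
  ∀ (C₀ : Type u) [Field C₀] [IsAlgClosed C₀] (ι₀ : K →+* C₀) (V₀ : ValuationSubring C₀)
    (h₀ : ValuedExt O ι₀ V₀) [Fact ¬IsUnit (p : V₀)] [IsAdicComplete (Ideal.span {(p : V₀)}) V₀],
    ∃ L : Subring (PreTilt V₀ p), LSub _b h₀ L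

/-- CLB: existence of `A`, the image of the Witt vectors of `L`. -/
def Stmt_Clb (_b : TB O p) : Prop :=
  ∀ (C₀ : Type u) [Field C₀] [IsAlgClosed C₀] (ι₀ : K →+* C₀) (V₀ : ValuationSubring C₀)
    (h₀ : ValuedExt O ι₀ V₀) [Fact ¬IsUnit (p : V₀)] [IsAdicComplete (Ideal.span {(p : V₀)}) V₀]
    (L : Subring (PreTilt V₀ p)), LSub _b h₀ L → ∃ A : Subring V₀, OSub h₀ L A

/-- CLC: the fraction field of `A`. -/
def Stmt_Clc (_b : TB O p) : Prop :=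
  ∀ (C₀ : Type u) [Field C₀] [IsAlgClosed C₀] (ι₀ : K →+* C₀) (V₀ : ValuationSubring C₀)
    (h₀ : ValuedExt O ι₀ V₀) [Fact ¬IsUnit (p : V₀)] [IsAdicComplete (Ideal.span {(p : V₀)}) V₀]
    (L : Subring (PreTilt V₀ p)) (A : Subring V₀), LSub _b h₀ L → OSub h₀ L A →
    ∃ (C₁ : Type u) (_ : Field C₁) (ι₁ : K →+* C₁) (O₁ : ValuationSubring C₁)
      (_ : ValuedExt O ι₁ O₁) (κ : C₁ →+* C₀) (_ : Fact ¬IsUnit (p : O₁))
      (_ : IsAdicComplete (Ideal.span {(p : O₁)}) O₁), κ.comp ι₁ = ι₀ ∧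
      (∀ x : C₁, x ∈ O₁ ↔ κ x ∈ V₀) ∧ (∀ a : V₀, a ∈ A ↔ ∃ x : O₁, κ x = a) ∧
      ∀ x : O₁, ¬IsUnit x → ∃ n : ℕ, (p : O₁) ∣ x ^ n

/-- CLR: the field `C₁` is algebraically closed (uses INTG). -/
def Stmt_Clr (_b : TB O p) : Prop :=
  ∀ (C₀ : Type u) [Field C₀] [IsAlgClosed C₀] (ι₀ : K →+* C₀) (V₀ : ValuationSubring C₀)
    (h₀ : ValuedExt O ι₀ V₀) [Fact ¬IsUnit (p : V₀)] [IsAdicComplete (Ideal.span {(p : V₀)}) V₀]
    (L : Subring (PreTilt V₀ p)) (A : Subring V₀), LSub _b h₀ L → OSub h₀ L A →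
    ∀ (C₁ : Type u) [Field C₁] (ι₁ : K →+* C₁) (O₁ : ValuationSubring C₁)
      (_h₁ : ValuedExt O ι₁ O₁) (κ : C₁ →+* C₀) [Fact ¬IsUnit (p : O₁)]
      [IsAdicComplete (Ideal.span {(p : O₁)}) O₁], κ.comp ι₁ = ι₀ →
      (∀ x : C₁, x ∈ O₁ ↔ κ x ∈ V₀) → (∀ a : V₀, a ∈ A ↔ ∃ x : O₁, κ x = a) →
      (∀ x : O₁, ¬IsUnit x → ∃ n : ℕ, (p : O₁) ∣ x ^ n) → IsAlgClosed C₁

/-- CLD: algebraic elements are dense in the tilt of `O₁`. -/
def Stmt_Cld (_b : TB O p) : Prop :=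
  ∀ (C₀ : Type u) [Field C₀] [IsAlgClosed C₀] (ι₀ : K →+* C₀) (V₀ : ValuationSubring C₀)
    (h₀ : ValuedExt O ι₀ V₀) [Fact ¬IsUnit (p : V₀)] [IsAdicComplete (Ideal.span {(p : V₀)}) V₀]
    (L : Subring (PreTilt V₀ p)) (A : Subring V₀), LSub _b h₀ L → OSub h₀ L A →
    ∀ (C₁ : Type u) [Field C₁] (ι₁ : K →+* C₁) (O₁ : ValuationSubring C₁)
      (h₁ : ValuedExt O ι₁ O₁) (κ : C₁ →+* C₀) [Fact ¬IsUnit (p : O₁)]
      [IsAdicComplete (Ideal.span {(p : O₁)}) O₁], κ.comp ι₁ = ι₀ →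
      (∀ x : C₁, x ∈ O₁ ↔ κ x ∈ V₀) → (∀ a : V₀, a ∈ A ↔ ∃ x : O₁, κ x = a) →
      ∀ (y : PreTilt O₁ p) (N : ℕ), ∃ a : PreTilt O₁ p, (∃ f : Polynomial (PreTilt O p), f ≠ 0 ∧
        f.eval₂ (tmap h₁.incl) a = 0) ∧ _b.ϖV h₁ ^ N ∣ y - a

/-- EMB: an embedding of the algebraic elements extends to the tilt of `O₁`
(uses INTG, SCX). -/
def Stmt_Emb (_b : TB O p) : Prop :=
  ∀ (C₁ : Type u) [Field C₁] [IsAlgClosed C₁] (ι₁ : K →+* C₁) (O₁ : ValuationSubring C₁)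
    (h₁ : ValuedExt O ι₁ O₁) [Fact ¬IsUnit (p : O₁)] [IsAdicComplete (Ideal.span {(p : O₁)}) O₁]
    (ka : Type u) [Field ka] (α : TF O p →+* ka) (β : ka →+* TF O₁ p), β.comp α = tf h₁ →
    (∀ x : ka, ∃ f : Polynomial (TF O p), f ≠ 0 ∧ f.eval₂ α x = 0) →
    (∀ (y : PreTilt O₁ p) (N : ℕ), ∃ (a : ka) (w : PreTilt O₁ p),
      β a = algebraMap (PreTilt O₁ p) (TF O₁ p) w ∧ _b.ϖV h₁ ^ N ∣ y - w) →
    ∀ (C : Type u) [Field C] [IsAlgClosed C] (ι : K →+* C) (V : ValuationSubring C)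
      (hV : ValuedExt O ι V) [Fact ¬IsUnit (p : V)] [IsAdicComplete (Ideal.span {(p : V)}) V]
      (j : ka →+* TF V p), j.comp α = tf hV →
      ∃ jp : PreTilt O₁ p →+* PreTilt V p, jp.comp (tmap h₁.incl) = tmap hV.incl ∧
        ∀ (a : ka) (w : PreTilt O₁ p), β a = algebraMap (PreTilt O₁ p) (TF O₁ p) w →
          j a = algebraMap (PreTilt V p) (TF V p) (jp w)

/-- FONT: an embedding of tilts over the tilt of `O` comes from an embedding of the untilts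
(Fontaine's map, `ker_theta`). -/
def Stmt_Font (_b : TB O p) : Prop :=
  ∀ (C₁ : Type u) [Field C₁] [IsAlgClosed C₁] (ι₁ : K →+* C₁) (O₁ : ValuationSubring C₁)
    (h₁ : ValuedExt O ι₁ O₁) [Fact ¬IsUnit (p : O₁)] [IsAdicComplete (Ideal.span {(p : O₁)}) O₁],
    (∀ x : O₁, ¬IsUnit x → ∃ n : ℕ, (p : O₁) ∣ x ^ n) →
    ∀ (C : Type u) [Field C] [IsAlgClosed C] (ι : K →+* C) (V : ValuationSubring C)
      (hV : ValuedExt O ι V) [Fact ¬IsUnit (p : V)] [IsAdicComplete (Ideal.span {(p : V)}) V]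
      (jp : PreTilt O₁ p →+* PreTilt V p), jp.comp (tmap h₁.incl) = tmap hV.incl →
      ∃ (ι₂ : C₁ →+* C) (h₂ : ValuedExt O₁ ι₂ V), ι₂.comp ι₁ = ι ∧ tmap h₂.incl = jp

end stmts

end Pool.Agent.DC
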