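import Mathlib
import Pool.Agent.DC.StmtsG
import Pool.Agent.DC.NN
import Pool.Agent.DC.PRIME
import Pool.Agent.LibDb3ab1.Dim

/-!
# Module PERT: perturbation of a homogeneous prime ideal to a dense subfield
-/

set_option autoImplicit false
set_option linter.unusedSectionVars false
set_option linter.style.haveILetI false

noncomputable section

namespace Pool.Agent.DC.PERTX

open MvPolynomial

universe u

attribute [local instance] MvPolynomial.gradedAlgebra

/-- integrality of a homomorphism to a quotient of a polynomial ring can be tested on the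
constants and the variables -/
theorem integral_of_gens {A B S : Type u} [CommRing A] [CommRing B] [CommRing S] {n : ℕ}
    (Θ : B →+* S) (g : MvPolynomial (Fin n) A →+* S) (hg : Function.Surjective g)
    (hC : ∀ a, Θ.IsIntegralElem (g (C a))) (hX : ∀ i, Θ.IsIntegralElem (g (X i))) :
    Θ.IsIntegral := by
  intro x
  obtain ⟨y, rfl⟩ := hg x
  induction y using MvPolynomial.induction_on with
  | C a => exact hC a
  | add p q hp hq => rw [map_add]; exact RingHom.IsIntegralElem.add _ hp hq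
  | mul_X p i hp => rw [map_mul]; exact RingHom.IsIntegralElem.mul _ hp (hX i)

theorem map_homComp {A B : Type u} [CommRing A] [CommRing B] (f : A →+* B) {σ : Type}
    (m : ℕ) (F : MvPolynomial σ A) :
    map f (homogeneousComponent m F) = homogeneousComponent m (map f F) := by
  ext d
  rw [coeff_map, coeff_homogeneousComponent, coeff_homogeneousComponent, coeff_map]
  split_ifs
  · rfl
  · rw [map_zero]

theorem alg_part {k₁ ka A : Type u} [Field k₁] [Field ka] [CommRing A] (φ : A →+* k₁)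
    (e : A →+* ka) (s : ka →+* A) (hs : ∀ x, e (s x) = x) (hφe : ∀ a, φ a = 0 → e a = 0)
    {n r : ℕ} (𝔓 : Ideal (MvPolynomial (Fin (n + 1)) k₁)) (_h𝔓 : 𝔓.IsPrime)
    (hhom : ∀ F ∈ 𝔓, ∀ m, homogeneousComponent m F ∈ 𝔓)
    (M : Fin r → MvPolynomial (Fin (n + 1)) A)
    (hinj : ∀ G : MvPolynomial (Fin r) k₁, aeval (fun j => map φ (M j)) G ∈ 𝔓 → G = 0)
    (hint : ∀ i, ∃ P : Polynomial (MvPolynomial (Fin r) A), P.Monic ∧
      map φ (P.eval₂ (aeval M : MvPolynomial (Fin r) A →ₐ[A] _).toRingHom (X i)) ∈ 𝔓) :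
    ∃ 𝔓a : Ideal (MvPolynomial (Fin (n + 1)) ka), 𝔓a.IsPrime ∧
      (∀ F ∈ 𝔓a, ∀ m, homogeneousComponent m F ∈ 𝔓a) ∧
      ringKrullDim (MvPolynomial (Fin (n + 1)) ka ⧸ 𝔓a) = (r : WithBot ℕ∞) ∧
      ∀ F : MvPolynomial (Fin (n + 1)) A, map φ F ∈ 𝔓 → map e F ∈ 𝔓a := by
  classical
  set Ψ : MvPolynomial (Fin r) A →+* MvPolynomial (Fin (n + 1)) A :=
    (aeval M : MvPolynomial (Fin r) A →ₐ[A] _).toRingHom with hΨ
  set I : Ideal (MvPolynomial (Fin (n + 1)) A) := 𝔓.comap (map φ) with hI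
  set Θ : MvPolynomial (Fin r) A →+* (MvPolynomial (Fin (n + 1)) A ⧸ I) :=
    (Ideal.Quotient.mk I).comp Ψ with hΘ
  have hΨC : ∀ a, Ψ (C a) = C a := fun a => by
    change aeval M (C a) = _
    rw [aeval_C]; rfl
  have hΨX : ∀ j, Ψ (X j) = M j := fun j => by
    change aeval M (X j) = _
    rw [aeval_X]
  have hΘint : Θ.IsIntegral := by
    refine integral_of_gens Θ (Ideal.Quotient.mk I) Ideal.Quotient.mk_surjective ?_ ?_
    · intro a
      refine ⟨Polynomial.X - Polynomial.C (C a), Polynomial.monic_X_sub_C _, ?_⟩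
      rw [Polynomial.eval₂_sub, Polynomial.eval₂_X, Polynomial.eval₂_C, hΘ, RingHom.comp_apply,
        hΨC, sub_self]
    · intro i
      obtain ⟨P, hP, hPi⟩ := hint i
      refine ⟨P, hP, ?_⟩
      rw [hΘ, ← Polynomial.hom_eval₂, Ideal.Quotient.eq_zero_iff_mem]
      exact hPi
  -- the prime ideal of the specialisation
  set q : Ideal (MvPolynomial (Fin r) A) := RingHom.ker (map e) with hq
  have hqp : q.IsPrime := RingHom.ker_isPrime _
  have hker : RingHom.ker Θ ≤ q := by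
    intro G hG
    rw [RingHom.mem_ker, hΘ, RingHom.comp_apply, Ideal.Quotient.eq_zero_iff_mem, hI,
      Ideal.mem_comap] at hG
    have h1 : map φ (Ψ G) = aeval (fun j => map φ (M j)) (map φ G) := by
      have h2 : (map φ).comp Ψ = (aeval (fun j => map φ (M j)) :
          MvPolynomial (Fin r) k₁ →ₐ[k₁] MvPolynomial (Fin (n + 1)) k₁).toRingHom.comp (map φ) := by
        apply MvPolynomial.ringHom_ext
        · intro a
          simp [hΨC]
        · intro j
          simp [hΨX]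
      exact congrArg (fun f : MvPolynomial (Fin r) A →+* _ => f G) h2
    rw [h1] at hG
    have h3 := hinj _ hG
    rw [hq, RingHom.mem_ker]
    ext d
    rw [coeff_map, coeff_zero]
    apply hφe
    rw [← coeff_map, h3, coeff_zero]
  obtain ⟨Q, hQp, hQI, hQq⟩ : ∃ Q : Ideal (MvPolynomial (Fin (n + 1)) A), Q.IsPrime ∧ I ≤ Q ∧
      Q.comap Ψ = q := by
    letI : Algebra (MvPolynomial (Fin r) A) (MvPolynomial (Fin (n + 1)) A ⧸ I) := Θ.toAlgebra
    haveI : Algebra.IsIntegral (MvPolynomial (Fin r) A) (MvPolynomial (Fin (n + 1)) A ⧸ I) :=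
      ⟨hΘint⟩
    obtain ⟨Q, -, hQ, hQq⟩ := Ideal.exists_ideal_over_prime_of_isIntegral q
      (⊥ : Ideal (MvPolynomial (Fin (n + 1)) A ⧸ I)) hker
    refine ⟨Q.comap (Ideal.Quotient.mk I), Ideal.comap_isPrime _ _, ?_, ?_⟩
    · intro x hx
      rw [Ideal.mem_comap, Ideal.Quotient.eq_zero_iff_mem.2 hx]
      exact Ideal.zero_mem _
    · rw [Ideal.comap_comap]
      exact hQq
  -- the image of `Q`
  have hesurj : Function.Surjective (map e : MvPolynomial (Fin (n + 1)) A →+* _) :=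
    map_surjective _ fun x => ⟨s x, hs x⟩
  have hkerQ : RingHom.ker (map e : MvPolynomial (Fin (n + 1)) A →+* _) ≤ Q := by
    rw [ker_map, Ideal.map_le_iff_le_comap]
    intro a ha
    rw [Ideal.mem_comap]
    have h1 : C a ∈ q := by
      rw [hq, RingHom.mem_ker, map_C, RingHom.mem_ker.1 ha, C_0]
    rw [← hQq, Ideal.mem_comap, hΨC] at h1
    exact h1
  set Q' : Ideal (MvPolynomial (Fin (n + 1)) ka) := Q.map (map e) with hQ'
  have hQ'p : Q'.IsPrime := Ideal.map_isPrime_of_surjective hesurj hkerQ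
  have hQ'Q : ∀ F, map e F ∈ Q' → F ∈ Q := by
    intro F hF
    have h1 : Q'.comap (map e) = Q := by
      rw [hQ', Ideal.comap_map_of_surjective _ hesurj]
      apply le_antisymm
      · refine sup_le le_rfl ?_
        exact hkerQ
      · exact le_sup_left
    rw [← h1]
    exact hF
  -- the homogeneous core
  set 𝔓a : Ideal (MvPolynomial (Fin (n + 1)) ka) :=
    (Q'.homogeneousCore (homogeneousSubmodule (Fin (n + 1)) ka)).toIdeal with h𝔓a
  have hap : 𝔓a.IsPrime := Ideal.IsPrime.homogeneousCore hQ'p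
  have hah : ∀ F ∈ 𝔓a, ∀ m, homogeneousComponent m F ∈ 𝔓a :=
    (PRIME.homog_iff 𝔓a).1 (HomogeneousIdeal.isHomogeneous _)
  have hale : 𝔓a ≤ Q' := Ideal.toIdeal_homogeneousCore_le _ Q'
  have hmem : ∀ F : MvPolynomial (Fin (n + 1)) A, map φ F ∈ 𝔓 → map e F ∈ 𝔓a := by
    intro F hF
    rw [← sum_homogeneousComponent (map e F)]
    refine Ideal.sum_mem _ fun m _ => ?_
    refine Ideal.mem_homogeneousCore_of_homogeneous_of_mem
      ⟨m, homogeneousComponent_isHomogeneous m _⟩ ?_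
    rw [← map_homComp]
    apply Ideal.mem_map_of_mem
    apply hQI
    rw [hI, Ideal.mem_comap, map_homComp]
    exact hhom _ hF m
  refine ⟨𝔓a, hap, hah, ?_, hmem⟩
  -- the dimension
  set Ψa : MvPolynomial (Fin r) ka →+* MvPolynomial (Fin (n + 1)) ka :=
    (aeval (fun j => map e (M j)) : MvPolynomial (Fin r) ka →ₐ[ka] _).toRingHom with hΨa
  have hΨe : (map e).comp Ψ = Ψa.comp (map e) := by
    apply MvPolynomial.ringHom_ext
    · intro a
      simp [hΨC, hΨa]
    · intro j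
      simp [hΨX, hΨa]
  letI : Algebra (MvPolynomial (Fin r) ka) (MvPolynomial (Fin (n + 1)) ka ⧸ 𝔓a) :=
    ((Ideal.Quotient.mk 𝔓a).comp Ψa).toAlgebra
  haveI : Algebra.IsIntegral (MvPolynomial (Fin r) ka) (MvPolynomial (Fin (n + 1)) ka ⧸ 𝔓a) := by
    refine ⟨integral_of_gens ((Ideal.Quotient.mk 𝔓a).comp Ψa) (Ideal.Quotient.mk 𝔓a)
      Ideal.Quotient.mk_surjective ?_ ?_⟩
    · intro a
      refine ⟨Polynomial.X - Polynomial.C (C a), Polynomial.monic_X_sub_C _, ?_⟩
      rw [Polynomial.eval₂_sub, Polynomial.eval₂_X, Polynomial.eval₂_C, RingHom.comp_apply]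
      have : Ψa (C a) = C a := by
        change aeval (fun j => map e (M j)) (C a) = _
        rw [aeval_C]; rfl
      rw [this, sub_self]
    · intro i
      obtain ⟨P, hP, hPi⟩ := hint i
      refine ⟨P.map (map e), hP.map _, ?_⟩
      rw [← Polynomial.hom_eval₂, Ideal.Quotient.eq_zero_iff_mem, Polynomial.eval₂_map, ← hΨe]
      have h2 := hmem _ hPi
      have h1 := Polynomial.hom_eval₂ P Ψ (map e) (X i)
      rw [map_X] at h1
      rw [← h1]
      exact h2
  have hinja : Function.Injective (algebraMap (MvPolynomial (Fin r) ka)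
      (MvPolynomial (Fin (n + 1)) ka ⧸ 𝔓a)) := by
    rw [injective_iff_map_eq_zero]
    intro G hG
    change Ideal.Quotient.mk 𝔓a (Ψa G) = 0 at hG
    rw [Ideal.Quotient.eq_zero_iff_mem] at hG
    have h1 : map e (map s G) = G := by
      rw [map_map]
      have : e.comp s = RingHom.id ka := RingHom.ext hs
      rw [this, map_id]
    have h2 : Ψa G = map e (Ψ (map s G)) := by
      have h3 := congrArg (fun f : MvPolynomial (Fin r) A →+* _ => f (map s G)) hΨe
      simp only [RingHom.comp_apply] at h3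
      rw [h3, h1]
    rw [h2] at hG
    have h3 := hQ'Q _ (hale hG)
    have h4 : map s G ∈ q := by
      rw [← hQq]; exact h3
    rw [hq, RingHom.mem_ker, h1] at h4
    exact h4
  haveI : IsDomain (MvPolynomial (Fin (n + 1)) ka ⧸ 𝔓a) := Ideal.Quotient.isDomain 𝔓a
  rw [← LibDb3ab1.ringKrullDim_eq_of_integral hinja,
    MvPolynomial.ringKrullDim_of_isNoetherianRing, ringKrullDim_eq_zero_of_field, zero_add,
    Nat.card_eq_fintype_card, Fintype.card_fin]

/-- lifting of a polynomial coefficient by coefficient -/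
theorem exists_lift {k A : Type u} [CommRing k] [CommRing A] (φ : A →+* k) {σ : Type}
    (T : Set k) (R : A → Prop) (hR0 : R 0) (hT : ∀ x ∈ T, ∃ a, φ a = x ∧ R a)
    (G : MvPolynomial σ k) (hG : ∀ d, coeff d G ≠ 0 → coeff d G ∈ T) :
    ∃ G' : MvPolynomial σ A, map φ G' = G ∧ ∀ d, R (coeff d G') := by
  classical
  have h1 : ∀ x : k, ∃ a, (x ∈ T ∨ x = 0 → φ a = x) ∧ R a := by
    intro x
    by_cases hx : x ∈ T
    · obtain ⟨a, ha, hRa⟩ := hT x hx
      exact ⟨a, fun _ => ha, hRa⟩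
    · refine ⟨0, ?_, hR0⟩
      rintro (h | h)
      · exact absurd h hx
      · rw [h, map_zero]
  choose t ht hRt using h1
  refine ⟨∑ d ∈ G.support, monomial d (t (coeff d G)), ?_, ?_⟩
  · ext d
    rw [coeff_map, coeff_sum]
    simp only [coeff_monomial]
    rw [Finset.sum_ite_eq' G.support d]
    split_ifs with h
    · exact ht _ (Or.inl (hG d (mem_support_iff.1 h)))
    · rw [map_zero, notMem_support_iff.1 h]
  · intro d
    rw [coeff_sum]
    simp only [coeff_monomial]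
    rw [Finset.sum_ite_eq' G.support d]
    split_ifs with h
    · exact hRt _
    · exact hR0

/-- values of a polynomial with small coefficients -/
theorem norm_aeval_le {k₁ Ω : Type u} [NontriviallyNormedField k₁] [NormedField Ω]
    [NormedAlgebra k₁ Ω] [IsUltrametricDist Ω] {σ : Type} [Fintype σ] (y : σ → Ω)
    (hy : ∀ i, ‖y i‖ ≤ 1) (g : MvPolynomial σ k₁) (ε : ℝ) (hε : 0 ≤ ε)
    (hg : ∀ d, ‖coeff d g‖ ≤ ε) : ‖aeval y g‖ ≤ ε := by
  rw [aeval_def, eval₂_eq']
  refine IsUltrametricDist.norm_sum_le_of_forall_le_of_nonneg hε fun d _ => ?_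
  rw [norm_mul, norm_algebraMap', norm_prod]
  have h1 : ∏ i, ‖y i ^ d i‖ ≤ 1 := by
    refine Finset.prod_le_one (fun i _ => norm_nonneg _) fun i _ => ?_
    rw [norm_pow]
    exact pow_le_one₀ (norm_nonneg _) (hy i)
  calc ‖coeff d g‖ * ∏ i, ‖y i ^ d i‖ ≤ ε * 1 :=
        mul_le_mul (hg d) h1 (Finset.prod_nonneg fun i _ => norm_nonneg _) hε
    _ = ε := mul_one ε

end Pool.Agent.DC.PERTX

namespace Pool.Agent.DC

open MvPolynomial PERTX

universe u

theorem pert_proof (h : Stmt_Dens.{u}) : Stmt_Pert.{u} := by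
  intro k₁ _ _ _ ka _ _ β hβ n d 𝔓 h𝔓 hhom hdim J _ f hf ε hε
  classical
  haveI : Infinite k₁ := inferInstance
  obtain ⟨r, M, hM, hint, hinj⟩ := NN.exists_forms 𝔓 h𝔓 hhom
  have hr : r = d := by
    letI : Algebra (MvPolynomial (Fin r) k₁) (MvPolynomial (Fin (n + 1)) k₁ ⧸ 𝔓) :=
      (NN.phi 𝔓 M).toRingHom.toAlgebra
    haveI : Algebra.IsIntegral (MvPolynomial (Fin r) k₁) (MvPolynomial (Fin (n + 1)) k₁ ⧸ 𝔓) :=
      ⟨hint⟩
    haveI : IsDomain (MvPolynomial (Fin (n + 1)) k₁ ⧸ 𝔓) := Ideal.Quotient.isDomain 𝔓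
    have h1 : ringKrullDim (MvPolynomial (Fin r) k₁) =
        ringKrullDim (MvPolynomial (Fin (n + 1)) k₁ ⧸ 𝔓) :=
      LibDb3ab1.ringKrullDim_eq_of_integral hinj
    rw [MvPolynomial.ringKrullDim_of_isNoetherianRing, ringKrullDim_eq_zero_of_field, zero_add,
      Nat.card_eq_fintype_card, Fintype.card_fin, hdim] at h1
    exact_mod_cast h1
  subst hr
  choose P hP hPX using fun i => hint (Ideal.Quotient.mk 𝔓 (X i))
  -- the finite set of the coefficients
  let T : Set k₁ := (⋃ j, (↑(M j).coeffs : Set k₁)) ∪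
    (⋃ i, ⋃ l : Fin ((P i).natDegree + 1), (↑((P i).coeff l).coeffs : Set k₁)) ∪
    (⋃ j, (↑(f j).coeffs : Set k₁))
  have hTfin : T.Finite := by
    refine ((Set.finite_iUnion fun j => Finset.finite_toSet _).union
      (Set.finite_iUnion fun i => Set.finite_iUnion fun l => Finset.finite_toSet _)).union
      (Set.finite_iUnion fun j => Finset.finite_toSet _)
  obtain ⟨m, c, hc⟩ : ∃ (m : ℕ) (c : Fin m → k₁), ∀ x ∈ T, ∃ i, c i = x := by
    haveI := hTfin.fintype
    let E := Fintype.equivFin T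
    refine ⟨Fintype.card T, fun i => (E.symm i).1, fun x hx => ⟨E ⟨x, hx⟩, ?_⟩⟩
    simp
  obtain ⟨c', hc'1, hc'2⟩ := h k₁ ka β hβ m c ε hε
  let φ : MvPolynomial (Fin m) ka →+* k₁ := eval₂Hom β c
  let e : MvPolynomial (Fin m) ka →+* ka := eval c'
  let R : MvPolynomial (Fin m) ka → Prop := fun a => ‖φ a - β (e a)‖ ≤ ε
  have hR0 : R 0 := by simp [R, hε.le]
  have hT : ∀ x ∈ T, ∃ a, φ a = x ∧ R a := by
    intro x hx
    obtain ⟨i, rfl⟩ := hc x hx
    refine ⟨X i, by simp [φ], ?_⟩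
    change ‖φ (X i) - β (e (X i))‖ ≤ ε
    have h1 : φ (X i) = c i := by simp [φ]
    have h2 : e (X i) = c' i := by simp [e]
    rw [h1, h2]
    exact hc'2 i
  -- lifts
  have hMl : ∀ j, ∃ M' : MvPolynomial (Fin (n + 1)) (MvPolynomial (Fin m) ka),
      map φ M' = M j := by
    intro j
    obtain ⟨G, hG, -⟩ := exists_lift φ T R hR0 hT (M j) fun d hd =>
      Or.inl (Or.inl (Set.mem_iUnion.2 ⟨j, coeff_mem_coeffs d hd⟩))
    exact ⟨G, hG⟩
  choose M' hM' using hMl
  have hfl : ∀ j, ∃ G : MvPolynomial (Fin (n + 1)) (MvPolynomial (Fin m) ka),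
      map φ G = f j ∧ ∀ d, R (coeff d G) := by
    intro j
    exact exists_lift φ T R hR0 hT (f j) fun d hd =>
      Or.inr (Set.mem_iUnion.2 ⟨j, coeff_mem_coeffs d hd⟩)
  choose f' hf' hf'R using hfl
  have hPl : ∀ i, ∃ P' : Polynomial (MvPolynomial (Fin r) (MvPolynomial (Fin m) ka)),
      P'.map (map φ) = P i ∧ P'.Monic := by
    intro i
    have hl : P i ∈ Polynomial.lifts (map φ :
        MvPolynomial (Fin r) (MvPolynomial (Fin m) ka) →+* MvPolynomial (Fin r) k₁) := by
      rw [Polynomial.lifts_iff_coeff_lifts]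
      intro l
      by_cases hl : l ≤ (P i).natDegree
      · obtain ⟨G, hG, -⟩ := exists_lift φ T R hR0 hT ((P i).coeff l) fun d hd =>
          Or.inl (Or.inr (Set.mem_iUnion.2 ⟨i, Set.mem_iUnion.2
            ⟨⟨l, Nat.lt_succ_of_le hl⟩, coeff_mem_coeffs d hd⟩⟩))
        exact ⟨G, hG⟩
      · refine ⟨0, ?_⟩
        rw [map_zero, Polynomial.coeff_eq_zero_of_natDegree_lt (not_le.1 hl)]
    obtain ⟨P', h1, -, h2⟩ := Polynomial.lifts_and_natDegree_eq_and_monic hl (hP i)
    exact ⟨P', h1, h2⟩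
  choose P' hP'1 hP'2 using hPl
  obtain ⟨𝔓a, h1, h2, h3, h4⟩ := alg_part φ e C (fun x => eval_C x) hc'1 𝔓 h𝔓 hhom M' (by
    intro G hG
    apply hinj
    rw [map_zero, NN.phi_apply, Ideal.Quotient.eq_zero_iff_mem]
    simpa only [hM'] using hG) (by
    intro i
    refine ⟨P' i, hP'2 i, ?_⟩
    rw [Polynomial.hom_eval₂, map_X]
    have h5 : (map φ).comp (aeval M' : MvPolynomial (Fin r) (MvPolynomial (Fin m) ka) →ₐ[
        MvPolynomial (Fin m) ka] _).toRingHom =
        (aeval M : MvPolynomial (Fin r) k₁ →ₐ[k₁] _).toRingHom.comp (map φ) := by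
      apply MvPolynomial.ringHom_ext
      · intro a
        simp
      · intro j
        simp [hM']
    rw [h5, ← Polynomial.eval₂_map, hP'1, ← Ideal.Quotient.eq_zero_iff_mem,
      Polynomial.hom_eval₂]
    exact hPX i)
  refine ⟨𝔓a, h1, h2, h3, ?_⟩
  intro Ω _ _ _ y hy hya j
  have h5 := hya _ (h4 (f' j) (by rw [hf']; exact hf j))
  have h6 : aeval y (f j) = aeval y (f j - map β (map e (f' j))) := by
    have h7 : aeval y (map β (map e (f' j))) =
        eval₂ ((algebraMap k₁ Ω).comp β) y (map e (f' j)) := by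
      rw [aeval_def, eval₂_map]
    rw [map_sub, h7, h5, sub_zero]
  rw [h6]
  refine PERTX.norm_aeval_le y hy _ ε hε.le fun d => ?_
  rw [coeff_sub, coeff_map, coeff_map, ← hf' j, coeff_map]
  exact hf'R j d

end Pool.Agent.DC
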