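import Pool.Agent.DC.StmtsG
import Pool.Agent.LibDb3ab1.TiltClosed

/-!
# ULTA: the limit field is algebraically closed and its valuation ring is complete
-/

set_option autoImplicit false
set_option linter.unusedSectionVars false
set_option linter.style.haveILetI false

noncomputable section

namespace Pool.Agent.DC

open Pool.Agent.LibDb3ab1 Filter

universe u

namespace ULTAX

variable {L : ℕ → Type u} [∀ m, Field (L m)] {V : ∀ m, ValuationSubring (L m)} {p : ℕ}
  {A : Type u} [CommRing A] (π : (∀ m, V m) →+* A)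

/-- Divisibility passes to the limit. -/
theorem dvd_of_eventually (hπ0 : ∀ x, π x = 0 ↔ x ∈ qIdeal V p) {a b : ∀ m, V m}
    (h : ∀ᶠ m in (hyperfilter ℕ : Filter ℕ), a m ∣ b m) : π a ∣ π b := by
  classical
  let c : ∀ m, V m := fun m => if h : a m ∣ b m then h.choose else 0
  refine ⟨π c, ?_⟩
  rw [← map_mul, ← sub_eq_zero, ← map_sub, hπ0]
  intro j
  filter_upwards [h] with m hm
  have h2 : b m = a m * c m := by
    simp only [c, dif_pos hm]
    exact hm.choose_spec
  rw [Pi.sub_apply, Pi.mul_apply, ← h2, sub_self]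
  exact dvd_zero _

theorem pow_dvd_of_eventually (hπ0 : ∀ x, π x = 0 ↔ x ∈ qIdeal V p) {n : ℕ} {b : ∀ m, V m}
    (h : ∀ᶠ m in (hyperfilter ℕ : Filter ℕ), (p : V m) ^ n ∣ b m) : (p : A) ^ n ∣ π b := by
  have h1 : π ((p : ∀ m, V m) ^ n) = (p : A) ^ n := by rw [map_pow, map_natCast]
  rw [← h1]
  exact dvd_of_eventually π hπ0 h

theorem eventually_of_pow_dvd (hπs : Function.Surjective π)
    (hπ0 : ∀ x, π x = 0 ↔ x ∈ qIdeal V p) {n : ℕ} {b : ∀ m, V m} (h : (p : A) ^ n ∣ π b) :
    ∀ᶠ m in (hyperfilter ℕ : Filter ℕ), (p : V m) ^ n ∣ b m := by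
  obtain ⟨c, hc⟩ := h
  obtain ⟨c, rfl⟩ := hπs c
  have h1 : b - (p : ∀ m, V m) ^ n * c ∈ qIdeal V p := by
    rw [← hπ0, map_sub, map_mul, map_pow, map_natCast, hc, sub_self]
  filter_upwards [h1 n] with m hm
  have h2 : (b - (p : ∀ m, V m) ^ n * c) m = b m - (p : V m) ^ n * c m := rfl
  rw [h2] at hm
  have h3 := dvd_add hm (Dvd.intro (c m) (rfl : (p : V m) ^ n * c m = _))
  rwa [sub_add_cancel] at h3

/-- Roots of monic polynomials in the limit ring. -/
theorem exists_root_limit [∀ m, IsAlgClosed (L m)] (hπs : Function.Surjective π) [Nontrivial A]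
    (P : Polynomial A) (hP : P.Monic) (hd : P.natDegree ≠ 0) : ∃ x, P.eval x = 0 := by
  have hlift : P ∈ Polynomial.lifts π := by
    rw [Polynomial.lifts_iff_coeff_lifts]
    intro i
    exact hπs _
  obtain ⟨Q, hQ1, hQ2, hQ3⟩ := Polynomial.lifts_and_natDegree_eq_and_monic hlift hP
  have h1 : ∀ m, ∃ x : V m, (Q.map (Pi.evalRingHom (fun m => V m) m)).eval x = 0 := by
    intro m
    apply exists_root_valuationSubring (V m)
    · exact hQ3.map _
    · rw [hQ3.natDegree_map, hQ2]
      exact hd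
  choose x hx using h1
  refine ⟨π x, ?_⟩
  have h2 : Q.eval x = 0 := by
    funext m
    have h3 := Polynomial.eval_map_apply (f := Pi.evalRingHom (fun m => V m) m) (p := Q) (x := x)
    have h4 : (Pi.evalRingHom (fun m => V m) m) x = x m := rfl
    rw [h4, hx m] at h3
    exact h3.symm
  rw [← hQ1, Polynomial.eval_map_apply, h2, map_zero]

/-- The diagonal argument. -/
theorem exists_diag (X : ℕ → ∀ m, V m)
    (hX : ∀ k, ∀ᶠ m in (hyperfilter ℕ : Filter ℕ), (p : V m) ^ k ∣ X (k + 1) m - X k m) :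
    ∃ Y : ∀ m, V m, ∀ n, ∀ᶠ m in (hyperfilter ℕ : Filter ℕ), (p : V m) ^ n ∣ Y m - X n m := by
  classical
  let Q : ℕ → ℕ → Prop := fun m k => ∀ j < k, (p : V m) ^ j ∣ X (j + 1) m - X j m
  let kap : ℕ → ℕ := fun m => Nat.findGreatest (Q m) m
  refine ⟨fun m => X (kap m) m, fun n => ?_⟩
  have h1 : ∀ᶠ m in (hyperfilter ℕ : Filter ℕ), Q m n := by
    have h2 : ∀ᶠ m in (hyperfilter ℕ : Filter ℕ),
        ∀ j ∈ Finset.range n, (p : V m) ^ j ∣ X (j + 1) m - X j m := by
      rw [Filter.eventually_all_finset]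
      intro j _
      exact hX j
    filter_upwards [h2] with m hm j hj using hm j (Finset.mem_range.mpr hj)
  have h3 : ∀ᶠ m in (hyperfilter ℕ : Filter ℕ), n ≤ m := by
    have h4 : ∀ᶠ m in (Filter.cofinite : Filter ℕ), n ≤ m := by
      rw [Nat.cofinite_eq_atTop]
      exact eventually_ge_atTop n
    exact h4.filter_mono (hyperfilter_le_cofinite)
  filter_upwards [h1, h3] with m hm1 hm3
  have h5 : n ≤ kap m := Nat.le_findGreatest hm3 hm1
  have h6 : Q m (kap m) := by
    apply Nat.findGreatest_spec (P := Q m) (m := n) hm3 hm1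
  obtain ⟨d, hd⟩ := Nat.exists_eq_add_of_le h5
  have key : ∀ e, n + e ≤ kap m → (p : V m) ^ n ∣ X (n + e) m - X n m := by
    intro e
    induction e with
    | zero => intro _; rw [add_zero, sub_self]; exact dvd_zero _
    | succ e ih =>
      intro he
      have h7 := ih (by omega)
      have h8 : (p : V m) ^ (n + e) ∣ X (n + e + 1) m - X (n + e) m := h6 (n + e) (by omega)
      have h9 : X (n + (e + 1)) m - X n m =
          (X (n + e + 1) m - X (n + e) m) + (X (n + e) m - X n m) := by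
        rw [← add_assoc]; ring
      rw [h9]
      exact dvd_add ((pow_dvd_pow _ (Nat.le_add_right n e)).trans h8) h7
  have h10 := key d (by omega)
  rw [← hd] at h10
  exact h10

theorem isAdicComplete_limit (hπs : Function.Surjective π)
    (hπ0 : ∀ x, π x = 0 ↔ x ∈ qIdeal V p) : IsAdicComplete (Ideal.span {(p : A)}) A := by
  have hmem : ∀ (n : ℕ) (x : A), x ∈ (Ideal.span {(p : A)} ^ n • ⊤ : Submodule A A) ↔
      (p : A) ^ n ∣ x := by
    intro n x
    rw [smul_eq_mul, Ideal.mul_top, Ideal.span_singleton_pow, Ideal.mem_span_singleton]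
  haveI h1 : IsHausdorff (Ideal.span {(p : A)}) A := by
    constructor
    intro x hx
    obtain ⟨x, rfl⟩ := hπs x
    rw [hπ0]
    intro j
    apply eventually_of_pow_dvd π hπs hπ0
    have h2 := hx j
    rw [SModEq.zero, hmem] at h2
    exact h2
  haveI h2 : IsPrecomplete (Ideal.span {(p : A)}) A := by
    constructor
    intro f hf
    choose X hX using fun k => hπs (f k)
    have h3 : ∀ k, ∀ᶠ m in (hyperfilter ℕ : Filter ℕ), (p : V m) ^ k ∣ X (k + 1) m - X k m := by
      intro k
      have h4 := hf (Nat.le_succ k)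
      rw [SModEq.sub_mem, hmem, ← hX k, ← hX (k + 1), ← map_sub] at h4
      have h5 := eventually_of_pow_dvd π hπs hπ0 h4
      filter_upwards [h5] with m hm
      have h6 : (X k - X (k + 1)) m = X k m - X (k + 1) m := rfl
      rw [h6] at hm
      rw [← neg_sub]
      exact (dvd_neg).mpr hm
    obtain ⟨Y, hY⟩ := exists_diag X h3
    refine ⟨π Y, fun n => ?_⟩
    rw [SModEq.sub_mem, hmem, ← hX n, ← map_sub]
    apply pow_dvd_of_eventually π hπ0
    filter_upwards [hY n] with m hm
    have h6 : (X n - Y) m = X n m - Y m := rfl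
    rw [h6, ← neg_sub]
    exact (dvd_neg).mpr hm
  exact { }

end ULTAX

theorem ulta_proof : Stmt_UltA.{u} := by
  intro p _ K _ O hp0 hpu L _ _ ι V hV LL _ ιL VL hVL π hπs hπ0
  constructor
  · exact isAlgClosed_of_roots (T := VL) (Q := LL)
      (fun P hP hd => ULTAX.exists_root_limit π hπs P hP hd)
  · exact ULTAX.isAdicComplete_limit π hπs hπ0

end Pool.Agent.DC
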