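import Pool.Agent.DC.StmtsG
import Pool.Agent.LibDb3ab1.Tilt

/-!
# ULTB: the map between the tilts
-/

set_option autoImplicit false
set_option linter.unusedSectionVars false
set_option linter.style.haveILetI false

noncomputable section

namespace Pool.Agent.DC

open Pool.Agent.LibDb3ab1 Filter

universe u

namespace ULTBX

section

variable {L : ℕ → Type u} [∀ m, Field (L m)] {V : ∀ m, ValuationSubring (L m)} {p : ℕ}
  [Fact p.Prime] [∀ m, Fact ¬IsUnit (p : V m)]
  [∀ m, IsAdicComplete (Ideal.span {(p : V m)}) (V m)]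
  {A : Type u} [CommRing A] [Fact ¬IsUnit (p : A)] (π : (∀ m, V m) →+* A)

/-- Congruent sequences have the same image modulo `p`. -/
theorem mk_eq_of_dvd {a b : ∀ m, V m} (h : ∀ m, (p : V m) ∣ a m - b m) :
    Ideal.Quotient.mk (Ideal.span {(p : A)}) (π a) = Ideal.Quotient.mk _ (π b) := by
  choose c hc using h
  rw [Ideal.Quotient.eq, ← map_sub, Ideal.mem_span_singleton]
  refine ⟨π c, ?_⟩
  rw [← map_natCast π, ← map_mul]
  congr 1
  funext m
  exact hc m

/-- The Teichmüller lifts of the `p^n`-th roots. -/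
def U (n : ℕ) (y : ∀ m, PreTilt (V m) p) : ∀ m, V m := fun m => PreTilt.untilt (rt p n (y m))

theorem mk_U (n : ℕ) (y : ∀ m, PreTilt (V m) p) (m : ℕ) :
    Ideal.Quotient.mk (Ideal.span {(p : V m)}) (U n y m) = PreTilt.coeff n (y m) :=
  mk_untilt_rt n (y m)

/-- The `n`-th coefficient. -/
def cf (n : ℕ) (y : ∀ m, PreTilt (V m) p) : ModP A p :=
  Ideal.Quotient.mk (Ideal.span {(p : A)}) (π (U n y))

/-- The `n`-th coefficient can be computed with any lifts. -/
theorem cf_eq (n : ℕ) (y : ∀ m, PreTilt (V m) p) (c : ∀ m, V m)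
    (hc : ∀ m, Ideal.Quotient.mk (Ideal.span {(p : V m)}) (c m) = PreTilt.coeff n (y m)) :
    cf π n y = Ideal.Quotient.mk (Ideal.span {(p : A)}) (π c) :=
  mk_eq_of_dvd π fun m => dvd_of_mk_eq (mk_U n y m) (hc m)

theorem cf_pow (n : ℕ) (y : ∀ m, PreTilt (V m) p) : (cf π (n + 1) y) ^ p = cf π n y := by
  rw [cf_eq π n y ((U (n + 1) y) ^ p)]
  · rw [map_pow, map_pow]; rfl
  · intro m
    have h1 : ((U (n + 1) y) ^ p) m = (U (n + 1) y m) ^ p := rfl
    rw [h1, map_pow, mk_U]
    exact PreTilt.coeff_pow_p (y m) n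

/-- The map between the tilts. -/
def Pi : (∀ m, PreTilt (V m) p) →+* PreTilt A p where
  toFun y := (⟨fun n => cf π n y, fun n => cf_pow π n y⟩ : Perfection (ModP A p) p)
  map_one' := by
    apply preTilt_ext
    intro n
    change cf π n 1 = _
    rw [map_one, cf_eq π n 1 1 (fun m => by
      change Ideal.Quotient.mk _ (1 : V m) = PreTilt.coeff n (1 : PreTilt (V m) p)
      rw [map_one, map_one]), map_one, map_one]
  map_zero' := by
    apply preTilt_ext
    intro n
    change cf π n 0 = _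
    rw [map_zero, cf_eq π n 0 0 (fun m => by
      change Ideal.Quotient.mk _ (0 : V m) = PreTilt.coeff n (0 : PreTilt (V m) p)
      rw [map_zero, map_zero]), map_zero, map_zero]
  map_mul' := by
    intro x y
    apply preTilt_ext
    intro n
    rw [map_mul]
    change cf π n (x * y) = cf π n x * cf π n y
    rw [cf_eq π n (x * y) (U n x * U n y) (fun m => by
      change Ideal.Quotient.mk _ (U n x m * U n y m) =
        PreTilt.coeff n (x m * y m)
      rw [map_mul, map_mul, mk_U, mk_U]), map_mul, map_mul]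
    rfl
  map_add' := by
    intro x y
    apply preTilt_ext
    intro n
    rw [map_add]
    change cf π n (x + y) = cf π n x + cf π n y
    rw [cf_eq π n (x + y) (U n x + U n y) (fun m => by
      change Ideal.Quotient.mk _ (U n x m + U n y m) =
        PreTilt.coeff n (x m + y m)
      rw [map_add, map_add, mk_U, mk_U]), map_add, map_add]
    rfl

theorem coeff_Pi (n : ℕ) (y : ∀ m, PreTilt (V m) p) :
    PreTilt.coeff n (Pi π y) = cf π n y := rfl

theorem untilt_Pi [IsAdicComplete (Ideal.span {(p : A)}) A] (y : ∀ m, PreTilt (V m) p) :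
    PreTilt.untilt (Pi π y) = π (fun m => PreTilt.untilt (y m)) := by
  apply eq_of_forall_dvd (p := p)
  intro n
  have h1 : (p : A) ∣ PreTilt.untilt (rt p n (Pi π y)) - π (U n y) := by
    apply dvd_of_mk_eq (p := p) (x := PreTilt.coeff n (Pi π y))
    · exact mk_untilt_rt n _
    · rfl
  have h2 := dvd_pow_sub_pow h1 n
  have h3 : (U n y) ^ p ^ n = fun m => PreTilt.untilt (y m) := by
    funext m
    exact untilt_rt_pow n (y m)
  rw [untilt_rt_pow, ← map_pow, h3] at h2
  exact (pow_dvd_pow _ (Nat.le_succ n)).trans h2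

end

end ULTBX

theorem ultb_proof : Stmt_UltB.{u} := by
  intro p _ K _ O _ hp0 L _ ι V hV _ _ LL _ ιL VL hVL π hπs hπ0 hπ _ _
  refine ⟨ULTBX.Pi π, fun y => ULTBX.untilt_Pi π y, fun x => ?_⟩
  apply preTilt_ext
  intro n
  obtain ⟨a, ha⟩ := Ideal.Quotient.mk_surjective (PreTilt.coeff n x)
  have h1 : ∀ {O' : Type u} [CommRing O'] [Fact ¬IsUnit (p : O')] (f : O →+* O'),
      PreTilt.coeff n (tmap (p := p) f x) = Ideal.Quotient.mk (Ideal.span {(p : O')}) (f a) := by
    intro O' _ _ f
    have h2 : PreTilt.coeff n (tmap (p := p) f x) = modMap f (PreTilt.coeff n x) := rfl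
    rw [h2, ← ha]
    exact Ideal.quotientMap_mk
  rw [h1, ULTBX.coeff_Pi, ULTBX.cf_eq π n _ (fun m => (hV m).incl a) (fun m => (h1 _).symm), hπ]

end Pool.Agent.DC
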