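import Pool.Agent.DC.StmtsG
import Pool.Agent.LibDb3ab1.Assembly

/-!
# ULTC: approximate zeros of `𝔓` (over the tilt) are in the open set `U`
-/

set_option autoImplicit false
set_option linter.unusedSectionVars false
set_option linter.style.haveILetI false

noncomputable section

namespace Pool.Agent.DC

open scoped Classical
open Pool.Agent.LibDb3ab1
open MvPolynomial Filter

universe u

/-- ULTC -/
theorem ultc_proof (hA : Stmt_UltA.{u}) (hB : Stmt_UltB.{u}) : Stmt_UltC.{u} := by
  intro p _ K _ O _ _ b n U hU J _ f hTI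
  have hpu : ¬IsUnit (p : O) := Fact.out
  have hsep : ∀ a : O, a ≠ 0 → ∃ j : ℕ, a ∣ (p : O) ^ j := exists_dvd_pow
  by_contra hcon
  push Not at hcon
  choose L fL aL ι V hV fV cV y l hy hF hU' using hcon
  -- the untilts
  let x : ∀ m, Fin (n + 1) → V m := fun m i => PreTilt.untilt (y m i)
  have hxl : ∀ m, x m (l m) = 1 := by
    intro m
    change PreTilt.untilt (y m (l m)) = 1
    rw [hy m, map_one]
  -- the sequence of points
  let a : ℕ → AdicProj O n := fun m => ⟨pointRel (ι m) (V m) (fun i => (x m i : L m)),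
    ⟨L m, fL m, ι m, V m, fun i => (x m i : L m), hV m, by
      intro h
      have h1 : (x m (l m) : L m) = 0 := congrFun h (l m)
      rw [hxl m] at h1
      exact one_ne_zero h1, rfl⟩⟩
  have haU : ∀ m, a m ∉ U := fun m h => hU' m (a m) h rfl
  obtain ⟨LL, _, ιL, VL, hVL, π, hπs, hπ0, hπO⟩ := exists_limit b.hp0 hpu hV hsep
  obtain ⟨hLc, hVc⟩ := hA p K O b.hp0 hpu L ι V hV LL ιL VL hVL π hπs hπ0
  haveI hLc' := hLc
  haveI hVc' := hVc
  haveI fVL : Fact ¬IsUnit (p : VL) := ⟨by
    have h3 := hVL.not_isUnit hpu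
    rwa [map_natCast] at h3⟩
  obtain ⟨PP, hPi1, hPi2⟩ := hB p K O b.hp0 L ι V hV LL ιL VL hVL π hπs hπ0 hπO
  have hev : ∀ {σ : Type} (w : ∀ m, σ → V m) (P : MvPolynomial σ O),
      eval₂ hVL.incl (fun i => π (fun m => w m i)) P = π (fun m => eval₂ (hV m).incl (w m) P) := by
    intro σ w P
    have h1 : (fun m => eval₂ (hV m).incl (w m) P) =
        eval₂ (RingHom.pi fun m => (hV m).incl) (fun i m => w m i) P := by
      funext m
      have h2 := hom_eval₂ P (RingHom.pi fun m => (hV m).incl) (Pi.evalRingHom _ m)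
        (fun i m => w m i)
      exact h2.symm
    rw [h1, hom_eval₂]
    congr 1
    ext b
    exact congrArg Subtype.val (hπO b).symm
  have heventually : ∀ j : ℕ, ∀ᶠ m in (hyperfilter ℕ : Filter ℕ), j ≤ m := by
    intro j
    apply (hyperfilter_le_cofinite : (hyperfilter ℕ : Filter ℕ) ≤ cofinite)
    rw [Nat.cofinite_eq_atTop]
    exact eventually_ge_atTop j
  -- the limit point of the tilt
  let Y : Fin (n + 1) → PreTilt VL p := fun i => PP (fun m => y m i)
  have hYu : ∀ i, PreTilt.untilt (Y i) = π (fun m => x m i) := fun i => hPi1 _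
  -- choose the normalisation
  obtain ⟨w, hw⟩ := Ultrafilter.eq_pure_of_finite ((hyperfilter ℕ).map l)
  have hw' : ∀ᶠ m in (hyperfilter ℕ : Filter ℕ), l m = w := by
    have h1 : ({w} : Set (Fin (n + 1))) ∈ (hyperfilter ℕ).map l := by
      rw [hw]; exact Set.mem_singleton w
    exact h1
  have hY1 : π (fun m => x m w) = 1 := by
    rw [← sub_eq_zero, ← map_one π, ← map_sub, hπ0]
    intro j
    filter_upwards [hw'] with m hm
    have h1 : ((fun m => x m w) - 1 : ∀ m, V m) m = x m w - 1 := rfl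
    rw [h1, ← hm, hxl m, sub_self]
    exact dvd_zero _
  have hY0 : Y ≠ 0 := by
    intro h0
    have h1 : Y w = 0 := congrFun h0 w
    have h2 := hYu w
    rw [h1, untilt_zero, hY1] at h2
    exact zero_ne_one h2
  -- it is a zero of the `f j`
  have hevT : ∀ P : MvPolynomial (Fin (n + 1)) (PreTilt O p),
      eval₂ (tmap hVL.incl) Y P = PP (fun m => eval₂ (tmap (hV m).incl) (y m) P) := by
    intro P
    have h1 : (fun m => eval₂ (tmap (hV m).incl) (y m) P) =
        eval₂ (RingHom.pi fun m => tmap (hV m).incl) (fun i m => y m i) P := by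
      funext m
      have h2 := hom_eval₂ P (RingHom.pi fun m => tmap (p := p) (hV m).incl)
        (Pi.evalRingHom _ m) (fun i m => y m i)
      exact h2.symm
    rw [h1, hom_eval₂]
    congr 1
    ext1 c
    exact (hPi2 c).symm
  have hfz : ∀ j, eval₂ (tmap hVL.incl) Y (f j) = 0 := by
    intro j
    apply eq_zero_of_untilt
    rw [hevT, hPi1, hπ0]
    intro k
    filter_upwards [heventually k] with m hm
    have hϖV : (p : V m) = (hV m).incl b.u * PreTilt.untilt (b.ϖV (hV m)) := by
      rw [TB.ϖV, untilt_tmap, ← map_mul, ← b.hϖ, map_natCast]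
    have h1 : PreTilt.untilt (b.ϖV (hV m) ^ m) ∣
        PreTilt.untilt (eval₂ (tmap (hV m).incl) (y m) (f j)) :=
      map_dvd PreTilt.untilt (hF m j)
    rw [map_pow] at h1
    have h2 : (p : V m) ^ m ∣ PreTilt.untilt (b.ϖV (hV m)) ^ m := by
      rw [hϖV, mul_pow]
      exact ((b.hu.map (hV m).incl).pow m).mul_left_dvd.mpr dvd_rfl
    exact ((pow_dvd_pow _ hm).trans h2).trans h1
  have hzero : ∀ F : MvPolynomial (Fin (n + 1)) (PreTilt O p),
      map (algebraMap (PreTilt O p) (FractionRing (PreTilt O p))) F ∈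
        Ideal.span (Set.range fun j =>
          MvPolynomial.map (algebraMap (PreTilt O p) (FractionRing (PreTilt O p))) (f j)) →
      eval₂ (tmap hVL.incl) Y F = 0 := by
    intro F hFm
    have hinj : Function.Injective (algebraMap (PreTilt VL p) (TF VL p)) :=
      IsFractionRing.injective _ _
    have key : ∀ P : MvPolynomial (Fin (n + 1)) (PreTilt O p),
        eval₂ (tf (p := p) hVL) (fun i => algebraMap (PreTilt VL p) (TF VL p) (Y i))
          (map (algebraMap (PreTilt O p) (FractionRing (PreTilt O p))) P) =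
        algebraMap (PreTilt VL p) (TF VL p) (eval₂ (tmap hVL.incl) Y P) := by
      intro P
      rw [eval₂_map, hom_eval₂]
      congr 1
      ext1 c
      exact tf_algebraMap hVL c
    have hle : Ideal.span (Set.range fun j =>
        MvPolynomial.map (algebraMap (PreTilt O p) (FractionRing (PreTilt O p))) (f j)) ≤
        RingHom.ker (eval₂Hom (tf (p := p) hVL)
          (fun i => algebraMap (PreTilt VL p) (TF VL p) (Y i))) := by
      rw [Ideal.span_le]
      rintro _ ⟨j, rfl⟩
      change eval₂Hom _ _ _ = 0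
      rw [coe_eval₂Hom, key, hfz j, map_zero]
    have h1 := hle hFm
    rw [RingHom.mem_ker, coe_eval₂Hom, key] at h1
    exact (map_eq_zero_iff _ hinj).mp h1
  obtain ⟨a', ha'U, ha'⟩ := hTI LL ιL VL hVL Y hY0 hzero
  have hpt : a'.1 = pointRel ιL VL (fun i => ((π (fun m => x m i) : VL) : LL)) := by
    rw [ha']
    congr 1
    funext i
    rw [hYu]
  have htend : Tendsto a (hyperfilter ℕ : Filter ℕ) (nhds a') := by
    rw [TopologicalSpace.tendsto_nhds_generateFrom_iff]
    rintro _ ⟨d, P, Q, hP, hQ, rfl⟩ hmem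
    have hmem' : (P, Q) ∈ a'.1 ∧ (Q, 0) ∉ a'.1 := hmem
    rw [hpt, pointRel_basic hP hQ] at hmem'
    obtain ⟨b', P', Q', hb, hP', hQ'⟩ := exists_integral_poly (O := O) P Q
    rw [val_le_iff_dvd hVL hb hP' hQ', hev, hev] at hmem'
    obtain ⟨⟨c, hc⟩, hne⟩ := hmem'
    obtain ⟨c, rfl⟩ := hπs c
    have hne' : (fun m => eval₂ (hV m).incl (x m) Q') ∉ qIdeal V p := fun h => hne ((hπ0 _).mpr h)
    obtain ⟨j, hj⟩ := dvd_pow_of_not_mem hne'
    have hdiff : (fun m => eval₂ (hV m).incl (x m) P') -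
        (fun m => eval₂ (hV m).incl (x m) Q') * c ∈ qIdeal V p := by
      rw [← hπ0, map_sub, hc, map_mul, sub_self]
    have hd := hdiff j
    have hfin : ∀ᶠ m in (hyperfilter ℕ : Filter ℕ),
        a m ∈ {a : AdicProj O n | (P, Q) ∈ a.1 ∧ (Q, 0) ∉ a.1} := by
      filter_upwards [hd, hj] with m hm1 hm2
      change (P, Q) ∈ (a m).1 ∧ (Q, 0) ∉ (a m).1
      rw [pointRel_basic hP hQ, val_le_iff_dvd (hV m) hb hP' hQ']
      have hm3 : (p : V m) ^ j ∣ eval₂ (hV m).incl (x m) P' -
          eval₂ (hV m).incl (x m) Q' * c m := hm1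
      refine ⟨?_, ?_⟩
      · have h1 := hm2.trans hm3
        rw [dvd_sub_left (Dvd.intro _ rfl)] at h1
        exact h1
      · intro h0
        rw [h0, zero_dvd_iff] at hm2
        exact pow_ne_zero j ((hV m).p_ne_zero b.hp0) hm2
    exact hfin
  obtain ⟨m, hm⟩ := (htend.eventually (hU.mem_nhds ha'U)).exists
  exact haU m hm

end Pool.Agent.DC
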