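import Pool.Agent.DC.StmtsF

/-!
# Module EXYC: existence of the approximating variety, algebraic part, with constraints
-/

set_option autoImplicit false
set_option linter.unusedSectionVars false

noncomputable section

namespace Pool.Agent.DC

open scoped Classical
open MvPolynomial Pool.Agent.LibDb3ab1

universe u

theorem exyc_proof (h : Stmt_HomC.{u}) : Stmt_ExYC.{u} := by
  intro s n d τ _ grp W e J Jc π _ o k _ Cn DCn Pm hCn hT he F DF hF G q hq hG β m b hm hmb
    hP2 hP3
  obtain ⟨E, _, _, _, t, ht⟩ := exists_transcendence d k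
  let φE : k →+* E := algebraMap k E
  -- the square system
  let T0 : J ⊕ Fin d → MvPolynomial (τ ⊕ Fin (n + 1)) E := Sum.elim
    (fun j => rename Sum.inl (MvPolynomial.map φE (F j)))
    (fun i => ∑ l : Fin (n + 1), C (t i ^ (l : ℕ)) * X (Sum.inr l))
  let T : NB o ⊕ Fin (n + 1) → MvPolynomial (τ ⊕ Fin (n + 1)) E := Sum.elim
    (fun v => T0 (β v)) (fun l => MvPolynomial.map φE (G l))
  have hX : ∀ i v, IsWeightedHomogeneous (WW W e n i)
      (X v : MvPolynomial (τ ⊕ Fin (n + 1)) E) (WW W e n i v) :=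
    fun i v => isWeightedHomogeneous_X _ _ _
  have hT0 : ∀ r, MH (WW W e n) (T0 r) (Sum.elim DF (fun _ => e) r) := by
    intro r
    rcases r with j | i'
    · exact ((hF j).map φE).rename_inl
    · intro i
      apply IsWeightedHomogeneous.sum
      intro l _
      have h1 := (isWeightedHomogeneous_C (WW W e n i) (t i' ^ (l : ℕ))).mul (hX i (Sum.inr l))
      rw [zero_add] at h1
      exact h1
  have hTa : ∀ a : NB o, MH (WW W e n) (T (Sum.inl a))
      (fun i => m a * Pm.w a i + ∑ i', b a i' * Pm.w (o i') i) := by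
    intro a
    have h1 : (fun i => m a * Pm.w a i + ∑ i', b a i' * Pm.w (o i') i) =
        Sum.elim DF (fun _ => e) (β a) := funext fun i => hmb a i
    rw [h1]
    exact hT0 (β a)
  have hTl : ∀ l, MH (WW W e n) (T (Sum.inr l)) (fun i => e i * q l) := fun l => (hG l).map φE
  obtain ⟨κ, _, φ, z, x, hz, hCz, hx⟩ := h s n τ grp W e Jc π o k E φE Cn DCn Pm hCn hT he m b q
    hm hq T hTa hTl (by
      intro κ _ φ x hx
      apply hP2 κ (φ.comp φE) x
      intro l
      have h1 := hx l
      simp only [T, Sum.elim_inr] at h1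
      rw [eval₂_map] at h1
      exact h1)
  let TT : (NB o ⊕ Fin (n + 1)) ⊕ Jc → MvPolynomial (τ ⊕ Fin (n + 1)) E := Sum.elim T
    (fun j => rename Sum.inl (MvPolynomial.map φE (Cn j)))
  obtain ⟨z', x', hz', hx'⟩ := specialize_solution (grp := grp) φ (RingHom.id E) TT hz (by
    intro r
    rcases r with r | j
    · exact hx r
    · simp only [TT, Sum.elim_inr]
      rw [eval₂_rename, eval₂_map]
      exact hCz j)
  have hC' : ∀ j, eval₂ φE z' (Cn j) = 0 := by
    intro j
    have h1 := hx' (Sum.inr j)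
    simp only [TT, Sum.elim_inr] at h1
    rw [eval₂_rename, eval₂_map] at h1
    exact h1
  have hF' : ∀ j, eval₂ φE z' (F j) = 0 := by
    intro j
    have h1 := hx' (Sum.inl (Sum.inl (β.symm (Sum.inl j))))
    simp only [TT, T, T0, Sum.elim_inl, Equiv.apply_symm_apply] at h1
    rw [eval₂_rename, eval₂_map] at h1
    exact h1
  have hG' : ∀ l, eval₂ φE (Sum.elim z' x') (G l) = 0 := by
    intro l
    have h1 := hx' (Sum.inl (Sum.inr l))
    simp only [TT, T, Sum.elim_inl, Sum.elim_inr] at h1
    rw [eval₂_map] at h1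
    exact h1
  have hrel : ∀ i, ∑ l : Fin (n + 1), t i ^ (l : ℕ) * x' l = 0 := by
    intro i
    have h1 := hx' (Sum.inl (Sum.inl (β.symm (Sum.inr i))))
    simp only [TT, T, T0, Sum.elim_inl, Sum.elim_inr, Equiv.apply_symm_apply] at h1
    rw [← coe_eval₂Hom, map_sum] at h1
    rw [← h1]
    apply Finset.sum_congr rfl
    intro l _
    simp
  have hx0 : x' ≠ 0 := by
    intro h0
    rw [h0] at hG'
    exact hP3 E φE z' hz' hC' hF' hG'
  refine ⟨ptIdeal φE x', inferInstance, fun f hf m => ptIdeal_homogeneous φE x' f hf m,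
    ringKrullDim_ptIdeal ht hx0 hrel, ?_⟩
  intro Ω _ _ ψ y hy hyP
  obtain ⟨z1, c, hc, h1, h2, h3⟩ := lift_point (J := J ⊕ Jc) hT he (Sum.elim F Cn)
    (DF := Sum.elim DF DCn) (by
      intro j
      rcases j with j | j
      · exact hF j
      · exact hCn j) G hG hP2 (by
      intro κ _ φ z hrel hj hl
      exact hP3 κ φ z hrel (fun j => hj (Sum.inr j)) (fun j => hj (Sum.inl j)) hl)
    φE hz' (by
      intro j
      rcases j with j | j
      · exact hF' j
      · exact hC' j) hG' ψ hy hyP
  exact ⟨z1, c, hc, h1, fun j => h2 (Sum.inr j), fun j => h2 (Sum.inl j), h3⟩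

end Pool.Agent.DC
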