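import Pool.Agent.DC.StmtsF
import Mathlib.RingTheory.IntegralClosure.GoingDown
import Mathlib.RingTheory.Ideal.KrullsHeightTheorem
import Mathlib.RingTheory.Ideal.GoingUp

/-!
# HOM1: the homotopy lemma over a ring which is integral over a polynomial ring
-/

set_option autoImplicit false
set_option linter.unusedSectionVars false

noncomputable section

namespace Pool.Agent.DC

open scoped Classical
open MvPolynomial Pool.Agent.LibDb3ab1

universe u

theorem hom1_proof : Stmt_Hom1.{u} := by
  intro ρ _ E A _ _ _ _ i hinj hint m T hm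
  let _ : Algebra (MvPolynomial (Option ρ) E) A := i.toAlgebra
  have halg : algebraMap (MvPolynomial (Option ρ) E) A = i := rfl
  have : Algebra.IsIntegral (MvPolynomial (Option ρ) E) A := ⟨hint⟩
  have : FaithfulSMul (MvPolynomial (Option ρ) E) A :=
    (faithfulSMul_iff_algebraMap_injective _ _).mpr hinj
  obtain ⟨n0, hn0p, hn0⟩ := Ideal.exists_ideal_over_prime_of_isIntegral_of_isDomain (S := A)
    (origin (Option ρ) E) (by
      rw [halg, (RingHom.injective_iff_ker_eq_bot i).mp hinj]; exact bot_le)
  rw [halg] at hn0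
  have hmem0 : ∀ f, i f ∈ n0 ↔ f ∈ origin (Option ρ) E := by
    intro f
    rw [← hn0, Ideal.mem_comap]
  have : n0.LiesOver (origin (Option ρ) E) := ⟨hn0.symm⟩
  have hht : ((Nat.card ρ + 1 : ℕ) : ℕ∞) ≤ n0.height := by
    rw [Ideal.height_eq_height_add_of_liesOver_of_hasGoingDown (origin (Option ρ) E) n0,
      height_origin, Finite.card_option]
    exact le_self_add
  set H : ρ → A := fun r => i (X (some r)) ^ m r + i (X none) * T r with hH
  set I := Ideal.span (Set.range H) with hI
  have hX0 : ∀ o : Option ρ, i (X o) ∈ n0 := by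
    intro o
    rw [hmem0, origin, RingHom.mem_ker, eval_X, Pi.zero_apply]
  have hIm : I ≤ n0 := by
    rw [hI, Ideal.span_le]
    rintro _ ⟨r, rfl⟩
    exact Ideal.add_mem _ (Ideal.pow_mem_of_mem _ (hX0 _) _ (hm r))
      (Ideal.mul_mem_right _ _ (hX0 _))
  obtain ⟨Q, hQ, hQm⟩ := Ideal.exists_minimalPrimes_le hIm
  have hQp : Q.IsPrime := hQ.isPrime
  have hHQ : ∀ r, H r ∈ Q := fun r => hQ.1.2 (Ideal.subset_span ⟨r, rfl⟩)
  have hheight : Q.height ≤ Nat.card ρ := by
    refine (Ideal.height_le_card_of_mem_minimalPrimes_span (Set.finite_range H) hQ).trans ?_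
    have h1 : (Set.range H).ncard ≤ Nat.card ρ := by
      rw [← Set.image_univ, ← Set.ncard_univ]
      exact Set.ncard_image_le Set.finite_univ
    exact_mod_cast h1
  have heps : i (X none) ∉ Q := by
    intro h0
    have h1 : origin (Option ρ) E ≤ Q.comap i := by
      apply origin_le
      intro o
      rw [Ideal.mem_comap]
      rcases o with _ | r
      · exact h0
      · have h2 := hHQ r
        simp only [hH] at h2
        have h3 : i (X (some r)) ^ m r ∈ Q := by
          have h4 : i (X none) * T r ∈ Q := Ideal.mul_mem_right _ _ h0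
          have := Ideal.sub_mem _ h2 h4
          rwa [add_sub_cancel_right] at this
        exact hQp.mem_of_pow_mem (m r) h3
    have h2 : Q = n0 := by
      refine le_antisymm hQm ?_
      intro x hx
      by_contra hxQ
      have h3 := Ideal.comap_lt_comap_of_integral_mem_sdiff (R := MvPolynomial (Option ρ) E)
        (I := Q) (J := n0) hQm ⟨hx, hxQ⟩ (Algebra.IsIntegral.isIntegral x)
      rw [halg, hn0] at h3
      exact absurd h1 (not_le_of_gt h3)
    rw [h2] at hheight
    have h4 : ((Nat.card ρ + 1 : ℕ) : ℕ∞) ≤ ((Nat.card ρ : ℕ) : ℕ∞) := hht.trans hheight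
    have h5 : Nat.card ρ + 1 ≤ Nat.card ρ := by exact_mod_cast h4
    omega
  refine ⟨Q, hQp, hHQ, ?_⟩
  intro P
  induction hd : P.natDegree using Nat.strong_induction_on generalizing P with
  | _ d ih =>
    intro hP0 hPQ
    have h1 := (hmem0 _).mp (hQm hPQ)
    rw [origin, RingHom.mem_ker, Polynomial.hom_eval₂] at h1
    have h2 : ((MvPolynomial.eval (0 : Option ρ → E)).comp C) = RingHom.id E := by
      ext; simp
    rw [h2, eval_X, Pi.zero_apply] at h1
    have h3 : P.coeff 0 = 0 := by
      rw [Polynomial.coeff_zero_eq_eval_zero]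
      exact h1
    have h4 : P = P.divX * Polynomial.X := by
      conv_lhs => rw [← Polynomial.divX_mul_X_add P, h3]
      simp
    have h5 : P.divX ≠ 0 := by
      intro h6
      rw [h6, zero_mul] at h4
      exact hP0 h4
    rw [h4, Polynomial.eval₂_mul, Polynomial.eval₂_X, map_mul] at hPQ
    have h6 : i (Polynomial.eval₂ C (X none) P.divX) ∈ Q :=
      (hQp.mem_or_mem hPQ).resolve_right heps
    refine ih P.divX.natDegree ?_ P.divX rfl h5 h6
    rw [Polynomial.natDegree_divX_eq_natDegree_tsub_one]
    have : P.natDegree ≠ 0 := by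
      intro h7
      rw [Polynomial.eq_C_of_natDegree_eq_zero h7, h3] at hP0
      simp at hP0
    omega

end Pool.Agent.DC
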