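import Pool.Agent.DC.StmtsF

/-!
# HOMC: the homotopy argument with constraints
-/

set_option autoImplicit false
set_option linter.unusedSectionVars false
set_option linter.style.haveILetI false

noncomputable section

namespace Pool.Agent.DC

open scoped Classical
open MvPolynomial Pool.Agent.LibDb3ab1

universe u

namespace HOMCX

/-- Passage to an algebraically closed field with a valuation for which the parameter of the
homotopy is infinite. -/
theorem exists_valued {ρ : Type} {E A : Type u} [Field E] [CommRing A]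
    (i : MvPolynomial (Option ρ) E →+* A) (Q : Ideal A) (hQp : Q.IsPrime)
    (hQ2 : ∀ P : Polynomial E, P ≠ 0 → i (Polynomial.eval₂ C (X none) P) ∉ Q) :
    ∃ (L : Type u) (_ : Field L) (_ : IsAlgClosed L) (pr : A →+* L) (V : ValuationSubring L),
      (∀ a, pr a = 0 ↔ a ∈ Q) ∧ (∀ c, pr (i (C c)) ∈ V) ∧ pr (i (X none)) ≠ 0 ∧
      (pr (i (X none)))⁻¹ ∈ V.nonunits := by
  let B := A ⧸ Q
  let L := AlgebraicClosure (FractionRing B)
  let pr : A →+* L := (algebraMap B L).comp (Ideal.Quotient.mk Q)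
  have hinj : Function.Injective (algebraMap B L) := by
    rw [IsScalarTower.algebraMap_eq B (FractionRing B) L]
    exact (algebraMap (FractionRing B) L).injective.comp (IsFractionRing.injective B _)
  have hpr : ∀ f, pr f = 0 ↔ f ∈ Q := by
    intro f
    change algebraMap B L (Ideal.Quotient.mk Q f) = 0 ↔ _
    rw [map_eq_zero_iff _ hinj, Ideal.Quotient.eq_zero_iff_mem]
  let φ : E →+* L := (pr.comp i).comp C
  set ε : L := pr (i (X none)) with hε
  have htr : ∀ P : Polynomial E, P ≠ 0 → Polynomial.eval₂ φ ε P ≠ 0 := by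
    intro P hP h0
    apply hQ2 P hP
    rw [← hpr, ← RingHom.comp_apply, Polynomial.hom_eval₂]
    exact h0
  have hε0 : ε ≠ 0 := by
    have := htr Polynomial.X Polynomial.X_ne_zero
    rwa [Polynomial.eval₂_X] at this
  have htr' : ∀ P : Polynomial E, P ≠ 0 → Polynomial.eval₂ φ ε⁻¹ P ≠ 0 := by
    intro P hP
    letI : Invertible (ε⁻¹) := invertibleOfNonzero (inv_ne_zero hε0)
    have h1 := Polynomial.eval₂_reverse_mul_pow φ ε⁻¹ P
    rw [← h1, invOf_eq_inv, inv_inv]
    apply mul_ne_zero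
    · apply htr
      rwa [Ne, Polynomial.reverse_eq_zero]
    · exact pow_ne_zero _ (inv_ne_zero hε0)
  let A' : Subring L := (Polynomial.eval₂RingHom φ ε⁻¹).range
  have hηA : ε⁻¹ ∈ A' := ⟨Polynomial.X, by simp⟩
  let I : Ideal A' := Ideal.span {⟨ε⁻¹, hηA⟩}
  have hI : I ≠ ⊤ := by
    intro htop
    rw [Ideal.eq_top_iff_one, Ideal.mem_span_singleton'] at htop
    obtain ⟨⟨a, g, hg⟩, ha⟩ := htop
    have h1 := congrArg Subtype.val ha
    simp only [Subring.coe_mul, Subring.coe_one] at h1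
    rw [← hg] at h1
    apply htr' (g * Polynomial.X - 1)
    · intro h2
      have := congrArg (fun P => Polynomial.coeff P 0) h2
      simp at this
    · rw [Polynomial.eval₂_sub, Polynomial.eval₂_mul, Polynomial.eval₂_X, Polynomial.eval₂_one,
        sub_eq_zero]
      exact h1
  obtain ⟨V, hAV, hIV⟩ := Ideal.image_subset_nonunits_valuationSubring I hI
  refine ⟨L, inferInstance, inferInstance, pr, V, hpr, ?_, hε0, ?_⟩
  · intro c
    apply hAV
    exact ⟨Polynomial.C c, by simp [φ]⟩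
  · apply hIV
    exact ⟨⟨ε⁻¹, hηA⟩, Ideal.mem_span_singleton_self _, rfl⟩

/-- Reduction of a solution. -/
theorem reduce {s n : ℕ} {τ R Jc : Type} [Finite τ] {grp : τ → Fin s} {W : Fin s → τ → ℕ}
    {e : Fin s → ℕ} {k E : Type u} [Field k] [Field E] (φE : k →+* E)
    (Cn : Jc → MvPolynomial τ k) {DC : Jc → Fin s → ℕ} (hCn : ∀ j, MH W (Cn j) (DC j))
    (hT : Tri grp W) (he : 0 < ∑ i, e i)
    (S T : R ⊕ Fin (n + 1) → MvPolynomial (τ ⊕ Fin (n + 1)) E)
    {D : R ⊕ Fin (n + 1) → Fin s → ℕ}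
    (hSD : ∀ r, MH (WW W e n) (S r) (D r)) (hTD : ∀ r, MH (WW W e n) (T r) (D r))
    (hbad : ∀ (κ : Type u) [Field κ] (φ : E →+* κ) (x : Fin (n + 1) → κ),
      (∀ l, eval₂ φ (Sum.elim 0 x) (T (Sum.inr l)) = 0) → x = 0)
    {L : Type u} [Field L] [IsAlgClosed L] (φ : E →+* L) (V : ValuationSubring L)
    (hφV : ∀ c, φ c ∈ V) {η : L} (hη : η ∈ V.nonunits) (z0 : τ → L) (x0 : Fin (n + 1) → L)
    (hrel : Rel grp z0)
    (hy : ∀ r, eval₂ φ (Sum.elim z0 x0) (T r) + η * eval₂ φ (Sum.elim z0 x0) (S r) = 0)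
    (hC : ∀ j, eval₂ (φ.comp φE) z0 (Cn j) = 0) :
    ∃ (κ : Type u) (_ : Field κ) (φ : E →+* κ) (z : τ → κ) (x : Fin (n + 1) → κ),
      Rel grp z ∧ (∀ j, eval₂ (φ.comp φE) z (Cn j) = 0) ∧
      ∀ r, eval₂ φ (Sum.elim z x) (T r) = 0 := by
  obtain ⟨μ, hμ0, hμV, hμ1⟩ := exists_scaling V hT hrel
  set z1 := act W μ z0 with hz1
  set x1 : Fin (n + 1) → L := fun l => chr μ e * x0 l with hx1
  have heq : ∀ r, eval₂ φ (Sum.elim z1 x1) (T r) + η * eval₂ φ (Sum.elim z1 x1) (S r) = 0 := by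
    intro r
    rw [hz1, hx1, ← act_WW, eval₂_act (hSD r), eval₂_act (hTD r)]
    have := hy r
    linear_combination chr μ (D r) * this
  have hC1 : ∀ j, eval₂ (φ.comp φE) z1 (Cn j) = 0 := by
    intro j
    rw [hz1, eval₂_act (hCn j), hC j, mul_zero]
  have hηV : η ∈ V := V.nonunits_subset hη
  let φV : E →+* V := φ.codRestrict V.toSubring hφV
  let ηV : V := ⟨η, hηV⟩
  have hres : IsLocalRing.residue V ηV = 0 := by
    rw [IsLocalRing.residue_eq_zero_iff]
    rw [← V.coe_mem_nonunits_iff]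
    exact hη
  let zV : τ → V := fun v => ⟨z1 v, hμV v⟩
  let P : Fin (n + 1) → MvPolynomial (τ ⊕ Fin (n + 1)) V := fun l =>
    MvPolynomial.map φV (T (Sum.inr l)) + C ηV * MvPolynomial.map φV (S (Sum.inr l))
  have hcomp : V.subtype.comp φV = φ := rfl
  have hx1V : ∀ l, x1 l ∈ V := by
    apply integral_of_bad V (W := W) (e := e) (fun v => hT.sum_pos v) he P
      (D := fun l => D (Sum.inr l)) (fun l => ((hTD _).map _).add (((hSD _).map _).C_mul _))
      ?_ zV x1 ?_
    · intro x hx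
      apply hbad _ ((IsLocalRing.residue V).comp φV) x
      intro l
      have h1 := hx l
      simp only [P] at h1
      rw [eval₂_add, eval₂_mul, eval₂_C, hres, zero_mul, add_zero, eval₂_map] at h1
      exact h1
    · intro l
      simp only [P]
      rw [eval₂_add, eval₂_mul, eval₂_C, eval₂_map, eval₂_map, hcomp]
      exact heq (Sum.inr l)
  let xV : Fin (n + 1) → V := fun l => ⟨x1 l, hx1V l⟩
  have hev : ∀ r, eval₂ φV (Sum.elim zV xV) (T r) + ηV * eval₂ φV (Sum.elim zV xV) (S r) = 0 := by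
    intro r
    apply V.subtype_injective
    rw [map_add, map_mul, map_zero, hom_eval₂, hom_eval₂, hcomp]
    have h1 : (fun i => V.subtype (Sum.elim zV xV i)) = Sum.elim z1 x1 := by
      funext v
      rcases v with v | l <;> rfl
    rw [h1]
    exact heq r
  have hCV : ∀ j, eval₂ (φV.comp φE) zV (Cn j) = 0 := by
    intro j
    apply V.subtype_injective
    rw [map_zero, hom_eval₂, ← RingHom.comp_assoc, hcomp]
    exact hC1 j
  refine ⟨IsLocalRing.ResidueField V, inferInstance, (IsLocalRing.residue V).comp φV,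
    fun v => IsLocalRing.residue V (zV v), fun l => IsLocalRing.residue V (xV l), ?_, ?_, ?_⟩
  · intro i
    obtain ⟨v, hv, hv1⟩ := hμ1 i
    refine ⟨v, hv, ?_⟩
    have h1 : zV v = 1 := Subtype.ext hv1
    change IsLocalRing.residue V (zV v) ≠ 0
    rw [h1, map_one]
    exact one_ne_zero
  · intro j
    have h1 := congrArg (IsLocalRing.residue V) (hCV j)
    rw [map_zero, hom_eval₂, ← RingHom.comp_assoc] at h1
    exact h1
  · intro r
    have h1 := congrArg (IsLocalRing.residue V) (hev r)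
    rw [map_add, map_mul, hres, zero_mul, add_zero, map_zero, hom_eval₂] at h1
    rw [← h1]
    congr 1
    funext v
    rcases v with v | l <;> rfl

theorem MH_mul {ι σ : Type} {R : Type*} [CommRing R] {W : ι → σ → ℕ} {P Q : MvPolynomial σ R}
    {a b : ι → ℕ} (hP : MH W P a) (hQ : MH W Q b) : MH W (P * Q) (fun i => a i + b i) :=
  fun i => IsWeightedHomogeneous.mul (hP i) (hQ i)

theorem MH_pow {ι σ : Type} {R : Type*} [CommRing R] {W : ι → σ → ℕ} {P : MvPolynomial σ R}
    {a : ι → ℕ} (hP : MH W P a) (m : ℕ) : MH W (P ^ m) (fun i => m * a i) := by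
  intro i
  have := IsWeightedHomogeneous.pow (hP i) m
  rwa [smul_eq_mul] at this

theorem MH_prod {ι σ κ : Type} {R : Type*} [CommRing R] {W : ι → σ → ℕ} (t : Finset κ)
    {P : κ → MvPolynomial σ R} {a : κ → ι → ℕ} (hP : ∀ j ∈ t, MH W (P j) (a j)) :
    MH W (∏ j ∈ t, P j) (fun i => ∑ j ∈ t, a j i) := fun i =>
  IsWeightedHomogeneous.prod t P (fun j => a j i) (fun j hj => hP j hj i)

section main

variable {s n : ℕ} {τ Jc π : Type} {grp : τ → Fin s} {W : Fin s → τ → ℕ} {o : Fin s → π}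
  {k E : Type u} [Field k] [Field E] {Cn : Jc → MvPolynomial τ k}

/-- The starting system. -/
def start (φE : k →+* E) (Pm : Par k grp W Cn π o) (m : NB o → ℕ) (b : NB o → Fin s → ℕ)
    (q : Fin (n + 1) → ℕ) : NB o ⊕ Fin (n + 1) → MvPolynomial (τ ⊕ Fin (n + 1)) E :=
  Sum.elim (fun a => rename Sum.inl (MvPolynomial.map φE (Pm.lam a)) ^ m a *
    ∏ i', rename Sum.inl (MvPolynomial.map φE (Pm.lam (o i'))) ^ b a i')
    (fun l => X (Sum.inr l) ^ q l)

/-- The common degrees. -/
def deg (Pm : Par k grp W Cn π o) (e : Fin s → ℕ) (m : NB o → ℕ) (b : NB o → Fin s → ℕ)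
    (q : Fin (n + 1) → ℕ) : NB o ⊕ Fin (n + 1) → Fin s → ℕ :=
  Sum.elim (fun a i => m a * Pm.w a i + ∑ i', b a i' * Pm.w (o i') i) (fun l i => e i * q l)

theorem MH_start (φE : k →+* E) (Pm : Par k grp W Cn π o) (e : Fin s → ℕ) (m : NB o → ℕ)
    (b : NB o → Fin s → ℕ) (q : Fin (n + 1) → ℕ) (r : NB o ⊕ Fin (n + 1)) :
    MH (WW W e n) (start φE Pm m b q r) (deg Pm e m b q r) := by
  rcases r with a | l
  · apply MH_mul
    · exact MH_pow (((Pm.hom a).map φE).rename_inl) (m a)
    · exact MH_prod _ fun i' _ => MH_pow (((Pm.hom (o i')).map φE).rename_inl) (b a i')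
  · have h1 := MH_pow (MH_X_inr (R := E) W e l) (q l)
    intro i
    have h2 : IsWeightedHomogeneous (WW W e n i) (X (Sum.inr l) ^ q l) (q l * e i) := h1 i
    rw [mul_comm] at h2
    exact h2

theorem eval_start (φE : k →+* E) (Pm : Par k grp W Cn π o) (m : NB o → ℕ)
    (b : NB o → Fin s → ℕ) (q : Fin (n + 1) → ℕ) {A : Type*} [CommRing A] (f : E →+* A)
    (z : τ → A) (x : Fin (n + 1) → A) (hz : ∀ i, eval₂ (f.comp φE) z (Pm.lam (o i)) = 1)
    (r : NB o ⊕ Fin (n + 1)) :
    eval₂ f (Sum.elim z x) (start φE Pm m b q r) =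
      (Sum.elim (fun a : NB o => eval₂ (f.comp φE) z (Pm.lam a)) x : NB o ⊕ Fin (n + 1) → A) r ^
        (Sum.elim m q : NB o ⊕ Fin (n + 1) → ℕ) r := by
  have key : ∀ a, eval₂ f (Sum.elim z x) (rename Sum.inl (MvPolynomial.map φE (Pm.lam a))) =
      eval₂ (f.comp φE) z (Pm.lam a) := by
    intro a
    rw [eval₂_rename, eval₂_map]
    rfl
  rcases r with a | l
  · simp only [start, Sum.elim_inl]
    rw [eval₂_mul, eval₂_pow, key, eval₂_prod, Finset.prod_eq_one, mul_one]
    intro i' _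
    rw [eval₂_pow, key, hz, one_pow]
  · simp only [start, Sum.elim_inr]
    rw [eval₂_pow, eval₂_X, Sum.elim_inr]

end main

end HOMCX

theorem homc_proof (hHom1 : Stmt_Hom1.{u}) : Stmt_HomC.{u} := by
  intro s n τ _ grp W e Jc π _ o k E _ _ φE Cn DC Pm hCn hT he m b q hm hq T hTa hTl hbad
  let ρ : Type := NB o ⊕ Fin (n + 1)
  haveI : Finite ρ := inferInstance
  let A0 := MvPolynomial (Option ρ) E
  let L0 := AlgebraicClosure (FractionRing A0)
  have hinj0 : Function.Injective (algebraMap A0 L0) := by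
    rw [IsScalarTower.algebraMap_eq A0 (FractionRing A0) L0]
    exact (algebraMap (FractionRing A0) L0).injective.comp (IsFractionRing.injective A0 _)
  let φ0 : k →+* L0 := ((algebraMap A0 L0).comp C).comp φE
  let u0 : π → A0 := fun a => if h : ∀ i, a ≠ o i then X (some (Sum.inl ⟨a, h⟩)) else 1
  have hu0 : ∀ i, u0 (o i) = 1 := by
    intro i
    simp only [u0]
    rw [dif_neg]
    push Not
    exact ⟨i, rfl⟩
  obtain ⟨z, hz1, hz2, hz3⟩ := Pm.ext L0 φ0 (fun a => algebraMap A0 L0 (u0 a)) (by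
    intro i
    rw [hu0, map_one])
  have hzint : ∀ v, IsIntegral A0 (z v) := by
    intro v
    have h1 := hz3 (algebraMap A0 L0).range (fun x => ⟨_, rfl⟩) (fun a => ⟨_, rfl⟩) v
    obtain ⟨P, hP, hPz⟩ := h1
    let g : A0 →+* (algebraMap A0 L0).range := (algebraMap A0 L0).rangeRestrict
    have hg : Function.Surjective g := (algebraMap A0 L0).rangeRestrict_surjective
    obtain ⟨P', hP'1, -, hP'2⟩ := Polynomial.lifts_and_natDegree_eq_and_monic (f := g) (p := P)
      (by
        rw [Polynomial.mem_lifts]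
        exact Polynomial.map_surjective g hg P) hP
    refine ⟨P', hP'2, ?_⟩
    rw [← hP'1, Polynomial.eval₂_map] at hPz
    exact hPz
  let Al : Subalgebra A0 L0 := Algebra.adjoin A0 (Set.range z)
  haveI : Algebra.IsIntegral A0 Al := Algebra.IsIntegral.adjoin (by
    rintro _ ⟨v, rfl⟩
    exact hzint v)
  haveI : Algebra.FiniteType A0 Al :=
    (Subalgebra.fg_iff_finiteType _).mp (Subalgebra.fg_def.mpr ⟨_, Set.finite_range z, rfl⟩)
  haveI : IsNoetherianRing A0 := inferInstance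
  haveI : IsNoetherianRing Al := Algebra.FiniteType.isNoetherianRing A0 Al
  let zA : τ → Al := fun v => ⟨z v, Algebra.subset_adjoin ⟨v, rfl⟩⟩
  let ι0 : A0 →+* Al := algebraMap A0 Al
  have hcomp0 : Al.val.toRingHom.comp ι0 = algebraMap A0 L0 := rfl
  have hι0 : Function.Injective ι0 := by
    intro a a' h
    apply hinj0
    rw [← hcomp0, RingHom.comp_apply, RingHom.comp_apply, h]
  have hι1 : ι0.IsIntegral := fun x => Algebra.IsIntegral.isIntegral x
  let fE : E →+* Al := ι0.comp C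
  let xA : Fin (n + 1) → Al := fun l => ι0 (X (some (Sum.inr l)))
  have hvinj : Function.Injective Al.val.toRingHom := Subtype.val_injective
  have hzA1 : ∀ j, eval₂ (fE.comp φE) zA (Cn j) = 0 := by
    intro j
    apply hvinj
    rw [map_zero, hom_eval₂]
    exact hz1 j
  have hzA2 : ∀ a, eval₂ (fE.comp φE) zA (Pm.lam a) = ι0 (u0 a) := by
    intro a
    apply hvinj
    rw [hom_eval₂]
    exact hz2 a
  obtain ⟨Q, hQp, hQ1, hQ2⟩ := hHom1 ρ E Al ι0 hι0 hι1 (Sum.elim m q)
    (fun r => eval₂ fE (Sum.elim zA xA) (T r)) (by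
      rintro (a | l)
      · exact hm a
      · exact hq l)
  obtain ⟨L, _, _, pr, V, hpr, hV1, hε0, hV2⟩ := HOMCX.exists_valued ι0 Q hQp hQ2
  have hfE : (pr.comp fE).comp φE = pr.comp (fE.comp φE) := rfl
  have hlam : ∀ i, eval₂ (fE.comp φE) zA (Pm.lam (o i)) = 1 := by
    intro i
    rw [hzA2, hu0, map_one]
  have hstart : ∀ r, eval₂ fE (Sum.elim zA xA) (HOMCX.start φE Pm m b q r) =
      ι0 (X (some r)) ^ (Sum.elim m q : ρ → ℕ) r := by
    intro r
    rw [HOMCX.eval_start φE Pm m b q fE zA xA hlam r]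
    congr 1
    rcases r with a | l
    · simp only [Sum.elim_inl]
      rw [hzA2]
      simp only [u0]
      rw [dif_pos a.2]
    · rfl
  refine HOMCX.reduce φE Cn hCn hT he (HOMCX.start φE Pm m b q) T
    (HOMCX.MH_start φE Pm e m b q) ?_ hbad (pr.comp fE) V hV1 hV2 (fun v => pr (zA v))
    (fun l => pr (xA l)) ?_ ?_ ?_
  · rintro (a | l)
    · exact hTa a
    · exact hTl l
  · intro i
    apply Pm.rel L (pr.comp (fE.comp φE)) (fun v => pr (zA v)) i
    rw [← hom_eval₂, hlam, map_one]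
    exact one_ne_zero
  · intro r
    have h1 := (hpr _).mpr (hQ1 r)
    rw [← hstart r, map_add, map_mul, hom_eval₂, hom_eval₂] at h1
    have h2 : (fun v => pr (Sum.elim zA xA v)) =
        Sum.elim (fun v => pr (zA v)) (fun l => pr (xA l)) := by
      funext v
      rcases v with v | l <;> rfl
    rw [h2] at h1
    have h3 : pr (ι0 (X none)) * (eval₂ (pr.comp fE) (Sum.elim (fun v => pr (zA v))
        (fun l => pr (xA l))) (T r) + (pr (ι0 (X none)))⁻¹ * eval₂ (pr.comp fE)
        (Sum.elim (fun v => pr (zA v)) (fun l => pr (xA l))) (HOMCX.start φE Pm m b q r)) = 0 := by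
      rw [mul_add, ← mul_assoc, mul_inv_cancel₀ hε0, one_mul, add_comm]
      exact h1
    exact (mul_eq_zero.mp h3).resolve_left hε0
  · intro j
    rw [hfE]
    have h1 := congrArg pr (hzA1 j)
    rw [map_zero, hom_eval₂] at h1
    exact h1

end Pool.Agent.DC
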