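import Pool.Agent.DC.TiltStepF

/-!
# Part F: the assembly

Images of complete intersections in towers of weighted projective bundles over products of
approximable varieties are approximable.
-/

set_option autoImplicit false
set_option linter.unusedSectionVars false
set_option linter.style.haveILetI false

noncomputable section

namespace Pool.Agent.DC

open scoped Classical
open MvPolynomial Pool.Agent.LibDb3ab1

universe u

namespace MAINFX

/-- A homogeneous ideal over a field is generated by finitely many forms. -/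
theorem exists_forms_k {k : Type u} [Field k] {n : ℕ} (𝔮 : Ideal (MvPolynomial (Fin (n + 1)) k))
    (hom : ∀ F ∈ 𝔮, ∀ m, homogeneousComponent m F ∈ 𝔮) :
    ∃ (J : Type) (_ : Finite J) (P : J → MvPolynomial (Fin (n + 1)) k) (dP : J → ℕ),
      (∀ j, (P j).IsHomogeneous (dP j) ∧ P j ∈ 𝔮) ∧
      ∀ (L : Type u) [Field L] (ι : k →+* L) (x : Fin (n + 1) → L),
        (∀ j, eval₂ ι x (P j) = 0) → ∀ F ∈ 𝔮, eval₂ ι x F = 0 := by
  obtain ⟨T, hT⟩ : 𝔮.FG := (isNoetherianRing_iff_ideal_fg _).mp inferInstance 𝔮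
  obtain ⟨Bd, hBd⟩ : ∃ Bd : ℕ, ∀ g ∈ T, totalDegree g < Bd :=
    ⟨T.sup totalDegree + 1, fun g hg =>
      Nat.lt_succ_of_le (Finset.le_sup (f := totalDegree) hg)⟩
  let e : T ≃ Fin T.card := T.equivFin
  let c : Fin T.card × Fin Bd → MvPolynomial (Fin (n + 1)) k :=
    fun j => homogeneousComponent j.2.1 ((e.symm j.1).1)
  have hcm : ∀ j, c j ∈ 𝔮 := fun j => by
    apply hom
    rw [← hT]
    exact Ideal.subset_span (e.symm j.1).2
  refine ⟨Fin T.card × Fin Bd, inferInstance, c, fun j => j.2.1,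
    fun j => ⟨homogeneousComponent_isHomogeneous _ _, hcm j⟩, ?_⟩
  intro L _ ι x hx
  have h2 : ∀ g ∈ T, eval₂ ι x g = 0 := by
    intro g hg
    rw [← sum_homogeneousComponent g]
    have h3 : eval₂ ι x (∑ i ∈ Finset.range (g.totalDegree + 1),
        homogeneousComponent i g) = ∑ i ∈ Finset.range (g.totalDegree + 1),
        eval₂ ι x (homogeneousComponent i g) :=
      map_sum (eval₂Hom ι x) _ _
    rw [h3]
    apply Finset.sum_eq_zero
    intro i hi
    have hi' : i < Bd := lt_of_le_of_lt (Nat.lt_succ_iff.mp (Finset.mem_range.mp hi)) (hBd g hg)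
    have h4 := hx (e ⟨g, hg⟩, ⟨i, hi'⟩)
    simpa [c] using h4
  have h5 : 𝔮 ≤ RingHom.ker (eval₂Hom ι x) := by
    rw [← hT, Ideal.span_le]
    intro g hg
    exact h2 g hg
  intro F hF
  exact h5 hF

/-- The version over the valuation ring (copy of `exists_forms_O`). -/
theorem exists_forms_O {K : Type u} [Field K] (O : ValuationSubring K) {n : ℕ}
    (𝔮 : Ideal (MvPolynomial (Fin (n + 1)) K))
    (hom : ∀ F ∈ 𝔮, ∀ m, homogeneousComponent m F ∈ 𝔮) :
    ∃ (J : Type) (_ : Finite J) (P : J → MvPolynomial (Fin (n + 1)) O) (dP : J → ℕ),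
      (∀ j, (P j).IsHomogeneous (dP j) ∧ MvPolynomial.map O.subtype (P j) ∈ 𝔮) ∧
      ∀ (L : Type u) [Field L] (ι : K →+* L) (x : Fin (n + 1) → L),
        (∀ j, eval₂ ι x (MvPolynomial.map O.subtype (P j)) = 0) →
        ∀ F ∈ 𝔮, eval₂ ι x F = 0 := by
  obtain ⟨J, fJ, c, dc, hc1, hc2⟩ := exists_forms_k 𝔮 hom
  have hcl : ∀ j, ∃ (b : O) (H' : MvPolynomial (Fin (n + 1)) O), b ∈ nonZeroDivisors O ∧
      MvPolynomial.map (algebraMap O K) H' = C (algebraMap O K b) * c j :=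
    fun j => exists_clear (c j)
  choose b P hb hP using hcl
  have hP' : ∀ j, MvPolynomial.map O.subtype (P j) = C (algebraMap O K (b j)) * c j := hP
  refine ⟨J, fJ, P, dc, fun j => ⟨?_, ?_⟩, ?_⟩
  · apply MvPolynomial.IsHomogeneous.of_map (f := O.subtype) Subtype.val_injective
    rw [hP']
    exact (hc1 j).1.C_mul _
  · rw [hP']
    exact Ideal.mul_mem_left _ _ (hc1 j).2
  · intro L _ ι x hx
    apply hc2 L ι x
    intro j
    have h2 := hx j
    rw [hP', eval₂_mul, eval₂_C] at h2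
    refine (mul_eq_zero.mp h2).resolve_left fun h3 => ?_
    exact IsFractionRing.to_map_ne_zero_of_mem_nonZeroDivisors (hb j) ((map_eq_zero ι).mp h3)

/-- Multihomogeneity of a form in a standard group of variables. -/
theorem MH_rename_en {s : ℕ} {τ : Type} {W : Fin s → τ → ℕ} {i : Fin s} {n : ℕ}
    {en : Fin (n + 1) → τ} (hwt : ∀ a i', W i' (en a) = if i' = i then 1 else 0)
    {R : Type*} [CommSemiring R] {P : MvPolynomial (Fin (n + 1)) R} {m : ℕ}
    (hP : P.IsHomogeneous m) :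
    MH W (rename en P) (fun i' => if i' = i then m else 0) := by
  intro i' d hd
  obtain ⟨u, hu, hc⟩ := coeff_rename_ne_zero en P d hd
  rw [← hu]
  have h1 := hP hc
  rw [Finsupp.weight_apply, Finsupp.sum_mapDomain_index (by simp) (by intros; simp [add_mul])]
  rw [Finsupp.weight_apply] at h1
  change _ = if i' = i then m else 0
  by_cases hi : i' = i
  · rw [if_pos hi, ← h1]
    apply Finsupp.sum_congr
    intro x _
    rw [hwt, if_pos hi]
    rfl
  · rw [if_neg hi]
    apply Finset.sum_eq_zero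
    intro x _
    change u x • W i' (en x) = 0
    rw [hwt, if_neg hi, smul_zero]

section cst

variable {K : Type u} [Field K] {O : ValuationSubring K} {p : ℕ} [Fact p.Prime]
  [Fact ¬IsUnit (p : O)] [IsAdicComplete (Ideal.span {(p : O)}) O]
variable {s : ℕ} {τ : Type} {W : Fin s → τ → ℕ}

/-- Points over the tilt which satisfy the constraints of one factor. -/
theorem cst_dvd {i : Fin s} {N : ℕ} {en : Fin (N + 1) → τ}
    (hwt : ∀ a i', W i' (en a) = if i' = i then 1 else 0)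
    {Jx : Type} {Px : Jx → MvPolynomial (Fin (N + 1)) O}
    {𝔓 : Ideal (MvPolynomial (Fin (N + 1)) (FractionRing (PreTilt O p)))}
    {Jg : Type} {Q : Jg → MvPolynomial (Fin (N + 1)) (FractionRing (PreTilt O p))} {dQ : Jg → ℕ}
    (hQ : ∀ j, (Q j).IsHomogeneous (dQ j))
    (hgen : ∀ (L : Type u) [Field L] (ι : FractionRing (PreTilt O p) →+* L)
      (x : Fin (N + 1) → L), (∀ j, eval₂ ι x (Q j) = 0) → ∀ F ∈ 𝔓, eval₂ ι x F = 0) {M : ℕ}
    {C' : Type u} [Field C'] {ι : K →+* C'} {V : ValuationSubring C'}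
    (hV : ValuedExt O ι V) [Fact ¬IsUnit (p : V)] [IsAdicComplete (Ideal.span {(p : V)}) V]
    (hopen : ∀ (y : Fin (N + 1) → PreTilt V p), y ≠ 0 →
          (∀ F : MvPolynomial (Fin (N + 1)) (PreTilt O p),
            MvPolynomial.map (algebraMap (PreTilt O p) (FractionRing (PreTilt O p))) F ∈ 𝔓 →
            eval₂ (tmap hV.incl) y F = 0) →
          ∀ j, (p : V) ^ M ∣ eval₂ hV.incl (fun i => PreTilt.untilt (y i)) (Px j))
    {Ω : Type u} [Field Ω] [Algebra (PreTilt V p) Ω] [IsFractionRing (PreTilt V p) Ω]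
    {ψ : FractionRing (PreTilt O p) →+* Ω}
    (hψ : ψ.comp (algebraMap (PreTilt O p) (FractionRing (PreTilt O p))) =
      (algebraMap (PreTilt V p) Ω).comp (tmap hV.incl))
    {zT : τ → PreTilt V p} {μ : Fin s → Ω} {z : τ → Ω}
    (hzT : ∀ t, algebraMap (PreTilt V p) Ω (zT t) = act W μ z t)
    {a : Fin (N + 1)} (ha : zT (en a) = 1)
    (hz : ∀ j, eval₂ ψ z (rename en (Q j)) = 0) (j : Jx) :
    (p : V) ^ M ∣ eval₂ hV.incl (fun t => PreTilt.untilt (zT t)) (rename en (Px j)) := by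
  have hinj : Function.Injective (algebraMap (PreTilt V p) Ω) := IsFractionRing.injective _ _
  rw [eval₂_rename]
  apply hopen (fun a => zT (en a))
  · intro h0
    have h1 := congrFun h0 a
    rw [ha, Pi.zero_apply] at h1
    haveI : Nontrivial (PreTilt V p) := inferInstance
    exact one_ne_zero h1
  · intro F hF
    apply hinj
    rw [map_zero, hom_eval₂, ← hψ, ← eval₂_map]
    refine hgen Ω ψ _ ?_ _ hF
    intro j
    have h1 := eval₂_act (MH_rename_en hwt (hQ j)) ψ μ z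
    rw [hz j, mul_zero, eval₂_rename] at h1
    rw [← h1]
    congr 1
    funext a
    exact hzT (en a)

end cst

section NBequiv

variable {s : ℕ} {τ : Type} {grp : τ → Fin s} (cst : Finset (Fin s)) (δ : Fin s → ℕ)
  {o : Fin s → τ} (ho : ∀ i, grp (o i) = i)

/-- The index set of the multidegrees. -/
abbrev Idx (grp : τ → Fin s) (cst : Finset (Fin s)) (δ : Fin s → ℕ) (o : Fin s → τ) : Type :=
  {v : τ // grp v ∉ cst ∧ v ≠ o (grp v)} ⊕ (Σ i : cst, Fin (δ i))

theorem oC_of_mem {i : Fin s} (h : i ∈ cst) : oC cst δ ho i = Sum.inr ⟨⟨i, h⟩, 0⟩ := dif_pos h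

theorem oC_of_not_mem {i : Fin s} (h : i ∉ cst) :
    oC cst δ ho i = Sum.inl ⟨o i, by rw [ho]; exact h⟩ := dif_neg h

/-- The parameters which are not distinguished. -/
def toNB : Idx grp cst δ o → NB (oC cst δ ho)
  | Sum.inl v => ⟨Sum.inl ⟨v.1, v.2.1⟩, fun i hi => by
      by_cases h : i ∈ cst
      · rw [oC_of_mem cst δ ho h] at hi
        exact Sum.inl_ne_inr hi
      · rw [oC_of_not_mem cst δ ho h] at hi
        have h1 := congrArg Subtype.val (Sum.inl.inj hi)
        apply v.2.2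
        have h2 : v.1 = o i := h1
        rw [h2, ho]⟩
  | Sum.inr x => ⟨Sum.inr ⟨x.1, x.2.succ⟩, fun i hi => by
      by_cases h : i ∈ cst
      · rw [oC_of_mem cst δ ho h] at hi
        have h1 := Sum.inr.inj hi
        obtain ⟨i1, a⟩ := x
        have h2 : i1 = ⟨i, h⟩ := (Sigma.mk.inj h1).1
        subst h2
        have h3 := eq_of_heq (Sigma.mk.inj h1).2
        exact Fin.succ_ne_zero _ h3
      · rw [oC_of_not_mem cst δ ho h] at hi
        exact Sum.inr_ne_inl hi⟩

theorem toNB_bijective : Function.Bijective (toNB cst δ ho) := by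
  constructor
  · rintro (v | ⟨i, a⟩) (v' | ⟨i', a'⟩) h
    · have h1 := Sum.inl.inj (congrArg Subtype.val h)
      have h2 : v.1 = v'.1 := Subtype.mk.inj h1
      exact congrArg Sum.inl (Subtype.ext h2)
    · exact absurd (congrArg Subtype.val h) Sum.inl_ne_inr
    · exact absurd (congrArg Subtype.val h) Sum.inr_ne_inl
    · have h1 := Sum.inr.inj (congrArg Subtype.val h)
      have h2 : i = i' := (Sigma.mk.inj h1).1
      subst h2
      have h3 : a.succ = a'.succ := eq_of_heq (Sigma.mk.inj h1).2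
      rw [Fin.succ_injective _ h3]
  · rintro ⟨a, ha⟩
    rcases a with v | ⟨i, a⟩
    · refine ⟨Sum.inl ⟨v.1, v.2, ?_⟩, rfl⟩
      intro hv
      apply ha (grp v.1)
      rw [oC_of_not_mem cst δ ho v.2]
      exact congrArg Sum.inl (Subtype.ext hv)
    · have h1 : a ≠ 0 := by
        rintro rfl
        apply ha i
        rw [oC_of_mem cst δ ho i.2]
      refine ⟨Sum.inr ⟨i, a.pred h1⟩, ?_⟩
      apply Subtype.ext
      change Sum.inr (⟨i, (a.pred h1).succ⟩ : Σ i : cst, Fin (δ i + 1)) = Sum.inr ⟨i, a⟩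
      rw [Fin.succ_pred]

/-- The bijection. -/
def eNB : Idx grp cst δ o ≃ NB (oC cst δ ho) := Equiv.ofBijective _ (toNB_bijective cst δ ho)

/-- A variable with the degree of the parameter. -/
def rep (o : Fin s → τ) : Idx grp cst δ o → τ := Sum.elim (fun v => v.1) (fun x => o x.1)

variable {W : Fin s → τ → ℕ} {N : Fin s → ℕ} {en : ∀ i, Fin (N i + 1) → τ}

theorem W_o (ho : ∀ i, grp (o i) = i) (hfac : Fac grp W cst N en) {i' : Fin s} (h : i' ∈ cst) (i : Fin s) :
    W i (o i') = if i = i' then 1 else 0 := by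
  obtain ⟨a, ha⟩ := hfac.surj i' h (o i') (ho i')
  rw [← ha, hfac.wt i' h a i]

variable {cst δ}

theorem w_oC (hfac : Fac grp W cst N en) {k : Type u} [Field k] {Jc : Type}
    {Cn : Jc → MvPolynomial τ k}
    {Pm : Par k grp W Cn (PiC grp cst δ) (oC cst δ ho)} (h1 : ∀ v i, Pm.w (Sum.inl v) i = W i v)
    (h2 : ∀ x i, Pm.w (Sum.inr x) i = if i = (x.1 : Fin s) then 1 else 0) (i' i : Fin s) :
    Pm.w (oC cst δ ho i') i = W i (o i') := by
  by_cases h : i' ∈ cst
  · rw [oC_of_mem cst δ ho h, h2, W_o cst ho hfac h]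
  · rw [oC_of_not_mem cst δ ho h, h1]

theorem w_eNB (hfac : Fac grp W cst N en) {k : Type u} [Field k] {Jc : Type}
    {Cn : Jc → MvPolynomial τ k}
    {Pm : Par k grp W Cn (PiC grp cst δ) (oC cst δ ho)} (h1 : ∀ v i, Pm.w (Sum.inl v) i = W i v)
    (h2 : ∀ x i, Pm.w (Sum.inr x) i = if i = (x.1 : Fin s) then 1 else 0)
    (a : Idx grp cst δ o) (i : Fin s) :
    Pm.w (eNB cst δ ho a).1 i = W i (rep cst δ o a) := by
  rcases a with v | x
  · exact h1 _ _
  · refine (h2 _ _).trans ?_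
    exact (W_o cst ho hfac x.1.2 i).symm

end NBequiv

end MAINFX

section main

open MAINFX

variable {K : Type u} [Field K] {O : ValuationSubring K} {p : ℕ} [Fact p.Prime]
  [Fact ¬IsUnit (p : O)] [IsAdicComplete (Ideal.span {(p : O)}) O]
variable {s d : ℕ} {τ : Type} {n : ℕ} [Finite τ]
variable {grp : τ → Fin s} {W : Fin s → τ → ℕ} {e : Fin s → ℕ} {J : Type} {o : Fin s → τ}

set_option maxHeartbeats 4000000 in
theorem mainF_O (hOpen : Stmt_OpenU.{u}) (hPar : Stmt_ParC.{u}) (hEx : Stmt_ExYC.{u})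
    (hVac : Stmt_Vac.{u})
    (hp0 : (p : K) ≠ 0) (hr : ∀ x : O, ¬IsUnit x → ∃ n : ℕ, (p : O) ∣ x ^ n)
    (hnd : ∃ x : O, ¬IsUnit x ∧ ¬(p : O) ∣ x)
    (hFrob : Function.Surjective (frobenius (ModP O p) p))
    (hT : Tri grp W) (ho : ∀ i, grp (o i) = i) (he : 0 < ∑ i, e i)
    {cst : Finset (Fin s)} {N : Fin s → ℕ} {en : ∀ i, Fin (N i + 1) → τ}
    (hfac : Fac grp W cst N en) {δ : Fin s → ℕ}
    (Ξ : ∀ i, Ideal (MvPolynomial (Fin (N i + 1)) K))
    (hΞh : ∀ i ∈ cst, ∀ P ∈ Ξ i, ∀ m, homogeneousComponent m P ∈ Ξ i)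
    (hΞd : ∀ i ∈ cst, ringKrullDim (MvPolynomial (Fin (N i + 1)) K ⧸ Ξ i) = (δ i + 1 : ℕ))
    (hΞa : ∀ i ∈ cst, TiltApprox p O (Ξ i))
    (F : J → MvPolynomial τ O) {DF : J → Fin s → ℕ} (hF : ∀ j, MH W (F j) (DF j))
    (φ : Fin (n + 1) → MvPolynomial τ O) (hφ : ∀ l, MH W (φ l) e)
    (β : Idx grp cst δ o ≃ J ⊕ Fin d) {m : Idx grp cst δ o → ℕ} (hm : ∀ a, 0 < m a)
    {b : Idx grp cst δ o → Fin s → ℕ}
    (hmb : ∀ (a : Idx grp cst δ o) (i : Fin s),
      m a * W i (rep cst δ o a) + ∑ i', b a i' * W i (o i') = Sum.elim DF (fun _ => e) (β a) i)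
    (hdn : d ≤ n) (I : Ideal (MvPolynomial (Fin (n + 1)) K))
    (hno : ∀ z : τ → AlgebraicClosure K, Rel grp z → (∀ j, aeval z (map O.subtype (F j)) = 0) →
      (∀ i ∈ cst, ∀ P ∈ Ξ i, aeval (fun a => z (en i a)) P = 0) →
      ∃ l, aeval z (map O.subtype (φ l)) ≠ 0)
    (hX : ∀ z : τ → AlgebraicClosure K, Rel grp z → (∀ j, aeval z (map O.subtype (F j)) = 0) →
      (∀ i ∈ cst, ∀ P ∈ Ξ i, aeval (fun a => z (en i a)) P = 0) →
      ∀ P ∈ I, ∀ d, P.IsHomogeneous d → aeval (fun l => aeval z (map O.subtype (φ l))) P = 0)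
    (U : Set (AdicProj O n)) (hU : IsOpen U) (hIU : adicLocus O I ⊆ U) :
    ∃ 𝔓 : Ideal (MvPolynomial (Fin (n + 1)) (FractionRing (PreTilt O p))), 𝔓.IsPrime ∧
      (∀ F ∈ 𝔓, ∀ m, homogeneousComponent m F ∈ 𝔓) ∧
      ringKrullDim (MvPolynomial (Fin (n + 1)) (FractionRing (PreTilt O p)) ⧸ 𝔓) = (d + 1 : ℕ) ∧
      TiltInside p O 𝔓 U := by
  have hp0O : (p : O) ≠ 0 := by
    intro h
    apply hp0
    have := congrArg O.subtype h
    rwa [map_natCast, map_zero] at this
  have hpu : ¬IsUnit (p : O) := Fact.out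
  -- the vacuous case
  by_cases hC : ∃ (C₀ : Type u) (_ : Field C₀) (_ : IsAlgClosed C₀) (ι : K →+* C₀)
      (V : ValuationSubring C₀) (_ : ValuedExt O ι V) (_ : Fact ¬IsUnit (p : V)),
      IsAdicComplete (Ideal.span {(p : V)}) V
  swap
  · obtain ⟨𝔓, h1, h2, h3⟩ := hVac (FractionRing (PreTilt O p)) n d hdn
    refine ⟨𝔓, h1, h2, h3, ?_⟩
    intro C' _ _ ι V hV _ _ y hy hyP
    exact absurd ⟨C', inferInstance, inferInstance, ι, V, hV, inferInstance, inferInstance⟩ hC
  obtain ⟨C₀, _, _, ι₀, V₀, hV₀, _, _⟩ := hC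
  -- the elements of the tilt
  obtain ⟨ϖ, u, hu, hϖ⟩ := exists_varpi hp0O hr hnd hFrob
  obtain ⟨υ, ξ, hυ, hξ, hθ, -⟩ := exists_xi hFrob hu hϖ
  have hϖ0 : ϖ ≠ 0 := by
    rintro rfl
    rw [untilt_zero, mul_zero] at hϖ
    exact hp0O hϖ
  have hϖu : ¬IsUnit ϖ := by
    intro h
    apply hpu
    rw [hϖ]
    exact hu.mul (isUnit_untilt.mpr h)
  have hsep : ∀ a : O, a ≠ 0 → ∃ j : ℕ, a ∣ (p : O) ^ j := exists_dvd_pow
  have hWpos : ∀ v, 0 < ∑ i, W i v := hT.sum_pos
  have he' : ∃ i, 0 < e i := by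
    by_contra h
    push Not at h
    have : ∑ i, e i = 0 := Finset.sum_eq_zero fun i _ => Nat.le_zero.mp (h i)
    omega
  have hDFpos : ∀ j, ∃ i, 0 < DF j i := by
    intro j
    obtain ⟨a, ha⟩ : ∃ a, β a = Sum.inl j := ⟨β.symm (Sum.inl j), β.apply_symm_apply _⟩
    refine ⟨grp (rep cst δ o a), ?_⟩
    have h1 := hmb a (grp (rep cst δ o a))
    rw [ha] at h1
    simp only [Sum.elim_inl] at h1
    rw [← h1]
    have h2 : 0 < m a * W (grp (rep cst δ o a)) (rep cst δ o a) :=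
      Nat.mul_pos (hm a) (hT.pos _)
    omega
  -- generators of the ideals of the factors
  choose Jx fJx Px dPx hPx1 hPx2 using fun i : cst => exists_forms_O O (Ξ i) (hΞh i i.2)
  let J' : Type := J ⊕ (Σ i : cst, Jx i)
  let F' : J' → MvPolynomial τ O := Sum.elim F (fun x => rename (en x.1) (Px x.1 x.2))
  have hF'Ξ : ∀ z : τ → AlgebraicClosure K, (∀ j, aeval z (map O.subtype (F' j)) = 0) →
      (∀ j, aeval z (map O.subtype (F j)) = 0) ∧
      (∀ i ∈ cst, ∀ P ∈ Ξ i, aeval (fun a => z (en i a)) P = 0) := by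
    intro z hz
    refine ⟨fun j => hz (Sum.inl j), fun i hi P hP => ?_⟩
    refine hPx2 ⟨i, hi⟩ (AlgebraicClosure K) (algebraMap K (AlgebraicClosure K)) _ ?_ P hP
    intro j
    have h1 := hz (Sum.inr ⟨⟨i, hi⟩, j⟩)
    change aeval z (map O.subtype (rename (en i) (Px ⟨i, hi⟩ j))) = 0 at h1
    rw [map_rename, aeval_rename] at h1
    exact h1
  have hno' : ∀ z : τ → AlgebraicClosure K, Rel grp z →
      (∀ j, aeval z (map O.subtype (F' j)) = 0) → ∃ l, aeval z (map O.subtype (φ l)) ≠ 0 :=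
    fun z hz h => hno z hz (hF'Ξ z h).1 (hF'Ξ z h).2
  have hX' : ∀ z : τ → AlgebraicClosure K, Rel grp z →
      (∀ j, aeval z (map O.subtype (F' j)) = 0) →
      ∀ P ∈ I, ∀ d, P.IsHomogeneous d → aeval (fun l => aeval z (map O.subtype (φ l))) P = 0 :=
    fun z hz h => hX z hz (hF'Ξ z h).1 (hF'Ξ z h).2
  -- certificates
  obtain ⟨M₁, hM₁⟩ := exists_bound (fun v : Fin s → τ => ∀ i, grp (v i) = i)
    (fun v c => (p : MvPolynomial τ O) ^ c ∈ Ideal.span (Set.range F' ∪ Set.range φ ∪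
      Set.range (fun i => (X (v i) - 1 : MvPolynomial τ O)))) (by
    intro v hv
    apply exists_certificate hsep
    intro z hz
    have h1 : Rel grp z := by
      intro i
      refine ⟨v i, hv i, ?_⟩
      have h2 := hz _ (Or.inr ⟨i, rfl⟩)
      simp only [map_sub, map_X, map_one, aeval_X, sub_eq_zero] at h2
      rw [h2]
      exact one_ne_zero
    obtain ⟨l, hl⟩ := hno' z h1 fun j => hz _ (Or.inl (Or.inl ⟨j, rfl⟩))
    exact hl (hz _ (Or.inl (Or.inr ⟨l, rfl⟩))))
  -- compactness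
  obtain ⟨M₂, hM₂⟩ := compact_tube hp0 hpu hsep grp F' φ U hU
    (fun L _ ι V hV z v hv hz hFz => limit_mem F' φ I U hIU hno' hX' L ι V hV z v hv hz hFz)
  set M := max M₁ M₂ with hM
  -- approximations of the factors
  choose Ux hUx1 hUx2 hUx3 using fun i : cst => @hOpen p _ K _ O _ hp0 (N i) (Jx i) (fJx i) (Px i)
    (dPx i) (Ξ i) (fun j => (hPx1 i j).1) (fun j => (hPx1 i j).2) M
  choose 𝔓x h𝔓x1 h𝔓x2 h𝔓x3 h𝔓x4 using fun i : cst => hΞa i i.2 (Ux i) (hUx1 i) (hUx2 i)
  choose Jg fJg Qx dQx hQx1 hQx2 using fun i : cst => exists_forms_k (𝔓x i) (h𝔓x2 i)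
  let Jc : Type := Σ i : cst, Jg i
  let Cn : Jc → MvPolynomial τ (FractionRing (PreTilt O p)) :=
    fun x => rename (en x.1) (Qx x.1 x.2)
  have hCn : ∀ x : Jc, MH W (Cn x) (fun i' => if i' = (x.1 : Fin s) then dQx x.1 x.2 else 0) :=
    fun x => MH_rename_en (hfac.wt x.1 x.1.2) (hQx1 x.1 x.2).1
  let 𝔓' : ∀ i : Fin s, Ideal (MvPolynomial (Fin (N i + 1)) (FractionRing (PreTilt O p))) :=
    fun i => if h : i ∈ cst then 𝔓x ⟨i, h⟩ else ⊥
  have h𝔓' : ∀ (i : Fin s) (h : i ∈ cst), 𝔓' i = 𝔓x ⟨i, h⟩ := fun i h => dif_pos h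
  -- lifts
  have hsurj := surjective_fontaineTheta (R := O) (p := p) hFrob
  choose Ft hFt1 hFt2 using fun j => exists_lift_poly (WittVector.fontaineTheta O p) hsurj (F j)
  choose φt hφt1 hφt2 using fun l => exists_lift_poly (WittVector.fontaineTheta O p) hsurj (φ l)
  have hFtH : ∀ j, MH W (Ft j) (DF j) := fun j => (hF j).of_support (hFt2 j)
  have hφtH : ∀ l, MH W (φt l) e := fun l => (hφ l).of_support (hφt2 l)
  -- approximations
  choose JF Fa hFa1 hFa2 hFa3 using fun j =>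
    approx_witt (κ := Fin s) (w := W) (e := DF j) (hDFpos j) hξ (hFtH j) M
  have hfH : ∀ l : Fin (n + 1), MH (WW W e n) (X (Sum.inr l) - rename Sum.inl (φt l)) e :=
    fun l => (MH_X_inr W e l).sub (hφtH l).rename_inl
  choose JG G hG1 hG2 hG3 using fun l =>
    approx_witt (κ := Fin s) (w := WW W e n) (e := e) he' hξ (hfH l) M
  choose NG ω T hω hGT using hG2
  have hωu : ∀ l, ¬IsUnit (ω l) := by
    intro l h
    apply hϖu
    rw [← hω l]
    exact h.pow _
  let φ0 : Fin (n + 1) → MvPolynomial τ (PreTilt O p) :=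
    fun l => MvPolynomial.map WittVector.constantCoeff (φt l)
  have hφ0 : ∀ l, MH W (φ0 l) e := fun l => (hφtH l).map _
  have hGT' : ∀ l, G l = (X (Sum.inr l) - rename Sum.inl (φ0 l)) ^ p ^ JG l + C (ω l) * T l := by
    intro l
    rw [hGT l, map_sub, map_X, map_rename]
  -- the field `K♭`
  have hinjk : Function.Injective (algebraMap (PreTilt O p) (FractionRing (PreTilt O p))) :=
    IsFractionRing.injective _ _
  let κ : PreTilt O p →+* FractionRing (PreTilt O p) :=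
    algebraMap (PreTilt O p) (FractionRing (PreTilt O p))
  haveI : Infinite (FractionRing (PreTilt O p)) := by
    apply Infinite.of_injective (fun j : ℕ => κ ϖ ^ j)
    intro a b hab
    by_contra hne
    have key : ∀ a b : ℕ, a < b → κ ϖ ^ a = κ ϖ ^ b → False := by
      intro a b hlt hab
      obtain ⟨c, rfl⟩ := Nat.exists_eq_add_of_lt hlt
      have h1 : κ (ϖ ^ a * 1) = κ (ϖ ^ a * (ϖ ^ c * ϖ)) := by
        rw [mul_one, map_pow, hab, ← map_pow]
        congr 1
        ring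
      have h2 := mul_left_cancel₀ (pow_ne_zero a hϖ0) (hinjk h1)
      exact hϖu (IsUnit.of_mul_eq_one (ϖ ^ c) (by rw [mul_comm]; exact h2.symm))
    rcases lt_or_gt_of_ne hne with h | h
    · exact key a b h hab
    · exact key b a h hab.symm
  obtain ⟨Pm, hPm1, hPm2⟩ := hPar (FractionRing (PreTilt O p)) s τ grp W cst N en hfac o ho 𝔓' δ
    (by
      intro i hi
      rw [h𝔓' i hi]
      exact ⟨h𝔓x1 ⟨i, hi⟩, h𝔓x2 ⟨i, hi⟩, by rw [h𝔓x3 ⟨i, hi⟩, hΞd i hi]⟩) Jc Cn
    (fun x => ⟨x.1, x.1.2, Qx x.1 x.2, by rw [h𝔓' _ x.1.2]; exact (hQx1 x.1 x.2).2, rfl⟩)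
  let sc : J ⊕ Fin d → ℕ := Sum.elim (fun j => p ^ JF j) (fun _ => 1)
  have hsc : ∀ a, 0 < sc a := by
    rintro (j | j)
    · exact pow_pos (Fact.out : p.Prime).pos _
    · exact Nat.one_pos
  have hFk : ∀ j, MH W (MvPolynomial.map κ (Fa j)) (fun i => DF j i * p ^ JF j) :=
    fun j => MH.map (fun i => hFa1 j i) _
  have hGk : ∀ l, MH (WW W e n) (MvPolynomial.map κ (G l)) (fun i => e i * p ^ JG l) :=
    fun l => MH.map (fun i => hG1 l i) _
  let E := eNB cst δ ho
  have hmb' : ∀ (a : NB (oC cst δ ho)) (i : Fin s),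
      m (E.symm a) * sc (β (E.symm a)) * Pm.w a i +
        ∑ i', b (E.symm a) i' * sc (β (E.symm a)) * Pm.w (oC cst δ ho i') i =
      Sum.elim (fun j i => DF j i * p ^ JF j) (fun _ => e) ((E.symm.trans β) a) i := by
    intro a i
    obtain ⟨a, rfl⟩ := E.surjective a
    rw [Equiv.trans_apply, Equiv.symm_apply_apply]
    have h1 : m a * sc (β a) * Pm.w (E a).1 i +
        ∑ i', b a i' * sc (β a) * Pm.w (oC cst δ ho i') i =
        (m a * W i (rep cst δ o a) + ∑ i', b a i' * W i (o i')) * sc (β a) := by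
      rw [add_mul, Finset.sum_mul, w_eNB ho hfac hPm1 hPm2]
      congr 1
      · ring
      · apply Finset.sum_congr rfl
        intro i' _
        rw [w_oC ho hfac hPm1 hPm2]
        ring
    rw [h1, hmb a i]
    rcases β a with j | j
    · rfl
    · simp [sc]
  have hP2 : ∀ (E : Type u) [Field E] (f : FractionRing (PreTilt O p) →+* E)
      (x : Fin (n + 1) → E),
      (∀ l, eval₂ f (Sum.elim 0 x) (MvPolynomial.map κ (G l)) = 0) → x = 0 := by
    intro E _ f x hx
    have hinj : Function.Injective (f.comp κ) := by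
      rw [RingHom.coe_comp]
      exact f.injective.comp hinjk
    exact bad_P2 G (fun l => hG1 l) he φ0 hφ0 hωu T hGT' (f.comp κ) hinj x
      (fun l => by rw [← eval₂_map]; exact hx l)
  -- points over extensions
  have hstep : ∀ (C' : Type u) [Field C'] [IsAlgClosed C'] (ι : K →+* C')
      (V : ValuationSubring C') (hV : ValuedExt O ι V) [Fact ¬IsUnit (p : V)]
      [IsAdicComplete (Ideal.span {(p : V)}) V] (y : Fin (n + 1) → PreTilt V p)
      (ψ : FractionRing (PreTilt O p) →+* FractionRing (PreTilt V p)),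
      ψ.comp κ = (algebraMap (PreTilt V p) (FractionRing (PreTilt V p))).comp (tmap hV.incl) →
      IsAlgClosed (FractionRing (PreTilt V p)) →
      ∀ (z : τ → FractionRing (PreTilt V p)) (c : FractionRing (PreTilt V p)), c ≠ 0 →
      Rel grp z → (∀ j, eval₂ ψ z (Cn j) = 0) →
      (∀ j, eval₂ ψ z (MvPolynomial.map κ (Fa j)) = 0) →
      (∀ l, eval₂ ψ (Sum.elim z (fun l => c * algebraMap _ _ (y l)))
        (MvPolynomial.map κ (G l)) = 0) →
      ∃ (z' : τ → V) (x' : Fin (n + 1) → V) (v : Fin s → τ) (c' : C'), c' ≠ 0 ∧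
        (∀ i, grp (v i) = i) ∧ (∀ i, z' (v i) = 1) ∧
        (∀ j, (p : V) ^ M ∣ eval₂ hV.incl z' (F' j)) ∧
        (∀ l, (p : V) ^ M ∣ x' l - eval₂ hV.incl z' (φ l)) ∧
        ∀ l, (x' l : C') = c' * ((PreTilt.untilt (y l) : V) : C') := by
    intro C' _ _ ι V hV _ _ y ψ hψ hac z c hc hz hCz hFz hGz
    haveI := hac
    have hp0V : (p : V) ≠ 0 := hV.p_ne_zero hp0
    obtain ⟨zT, μ, x', v, c', hc', hv, hzv, hzT, hF'', hx', hxy⟩ := tilt_stepF hT hWpos he hu hϖ
      hθ (m := M) Ft φt Fa (fun j => hFa1 j) G (fun l => hG1 l) φ0 hφ0 hωu T hGT' hFa3 hG3 ι V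
      hp0V hV y (ψ := ψ.comp κ) hψ z c hc hz
      (fun j => by rw [← eval₂_map]; exact hFz j)
      (fun l => by rw [← eval₂_map]; exact hGz l)
    refine ⟨fun t => PreTilt.untilt (zT t), x', v, c', hc', hv, ?_, ?_, ?_, hxy⟩
    · intro i
      change PreTilt.untilt (zT (v i)) = 1
      rw [hzv i, map_one]
    · rintro (j | ⟨i, j⟩)
      · have h1 := hF'' j
        rw [hFt1] at h1
        exact h1
      · obtain ⟨a, ha⟩ := hfac.surj i i.2 (v i) (hv i)
        refine cst_dvd (hfac.wt i i.2) (fun j => (hQx1 i j).1) (hQx2 i) hV ?_ hψ hzT (a := a)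
          (by rw [ha]; exact hzv i) (fun j => hCz ⟨i, j⟩) j
        exact hUx3 i (𝔓x i) (h𝔓x4 i) C' ι V hV
    · intro l
      have h1 := hx' l
      rw [hφt1] at h1
      exact h1
  have hlift : ∀ (C' : Type u) [Field C'] [IsAlgClosed C'] (ι : K →+* C')
      (V : ValuationSubring C') (hV : ValuedExt O ι V) [Fact ¬IsUnit (p : V)]
      [IsAdicComplete (Ideal.span {(p : V)}) V],
      IsAlgClosed (FractionRing (PreTilt V p)) ∧
      ∃ ψ : FractionRing (PreTilt O p) →+* FractionRing (PreTilt V p),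
      ψ.comp κ = (algebraMap (PreTilt V p) (FractionRing (PreTilt V p))).comp
        (tmap hV.incl) := by
    intro C' _ _ ι V hV _ _
    have hp0V : (p : V) ≠ 0 := hV.p_ne_zero hp0
    have hϖV : (p : V) = hV.incl u * PreTilt.untilt (tmap hV.incl ϖ) := by
      rw [untilt_tmap, ← map_mul, ← hϖ, map_natCast]
    refine ⟨tilt_isAlgClosed V (hu.map _) hp0V hϖV, ?_⟩
    have hinjt : Function.Injective (tmap (p := p) hV.incl) := by
      rw [injective_iff_map_eq_zero]
      intro a ha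
      have h1 : hV.incl (PreTilt.untilt a) = 0 := by
        rw [← untilt_tmap, ha, untilt_zero]
      apply eq_zero_of_untilt
      have h2 : ι ((PreTilt.untilt a : O) : K) = 0 := congrArg Subtype.val h1
      exact Subtype.ext ((map_eq_zero ι).mp h2)
    exact exists_lift_hom (Q := FractionRing (PreTilt O p))
      (Q' := FractionRing (PreTilt V p)) (tmap (p := p) hV.incl) hinjt
  -- no bad points
  have hP3 : ∀ (κ' : Type u) [Field κ'] (f : FractionRing (PreTilt O p) →+* κ') (z : τ → κ'),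
      Rel grp z → (∀ j, eval₂ f z (Cn j) = 0) →
      (∀ j, eval₂ f z (MvPolynomial.map κ (Fa j)) = 0) →
      (∀ l, eval₂ f (Sum.elim z 0) (MvPolynomial.map κ (G l)) = 0) → False := by
    intro κ' _ f z hz hCz hFz hGz
    obtain ⟨hac, ψ, hψ⟩ := hlift C₀ ι₀ V₀ hV₀
    haveI := hac
    obtain ⟨z₁, x₁, hz₁, hTz⟩ := specialize_solution (grp := grp) (n := n) f ψ
      (Sum.elim (Sum.elim (fun j => rename Sum.inl (Cn j))
        (fun j => rename Sum.inl (MvPolynomial.map κ (Fa j))))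
        (Sum.elim (fun l => MvPolynomial.map κ (G l)) (fun l => X (Sum.inr l))))
      (z := z) (x := 0) hz (by
        rintro ((j | j) | (l | l))
        · simp only [Sum.elim_inl]
          rw [eval₂_rename]
          exact hCz j
        · simp only [Sum.elim_inl, Sum.elim_inr]
          rw [eval₂_rename]
          exact hFz j
        · simp only [Sum.elim_inl, Sum.elim_inr]
          exact hGz l
        · simp only [Sum.elim_inr]
          rw [eval₂_X]
          rfl)
    have hC₁ : ∀ j, eval₂ ψ z₁ (Cn j) = 0 := by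
      intro j
      have h1 := hTz (Sum.inl (Sum.inl j))
      simp only [Sum.elim_inl] at h1
      rw [eval₂_rename] at h1
      exact h1
    have hF₁ : ∀ j, eval₂ ψ z₁ (MvPolynomial.map κ (Fa j)) = 0 := by
      intro j
      have h1 := hTz (Sum.inl (Sum.inr j))
      simp only [Sum.elim_inl, Sum.elim_inr] at h1
      rw [eval₂_rename] at h1
      exact h1
    have hx₁ : x₁ = 0 := by
      funext l
      have h1 := hTz (Sum.inr (Sum.inr l))
      simp only [Sum.elim_inr] at h1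
      rw [eval₂_X] at h1
      exact h1
    have hG₁ : ∀ l, eval₂ ψ (Sum.elim z₁ (fun l => 1 * algebraMap (PreTilt V₀ p)
        (FractionRing (PreTilt V₀ p)) ((0 : Fin (n + 1) → PreTilt V₀ p) l)))
        (MvPolynomial.map κ (G l)) = 0 := by
      intro l
      have h1 := hTz (Sum.inr (Sum.inl l))
      simp only [Sum.elim_inr, Sum.elim_inl] at h1
      rw [hx₁] at h1
      rw [← h1]
      congr 1
      funext t
      rcases t with t | t
      · rfl
      · simp
    obtain ⟨z', x', v, c', hc', hv, hz', hF'z, hφz, hxy⟩ := hstep C₀ ι₀ V₀ hV₀ 0 ψ hψ hac z₁ 1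
      one_ne_zero hz₁ hC₁ hF₁ hG₁
    have hx'0 : ∀ l, x' l = 0 := by
      intro l
      apply Subtype.ext
      rw [hxy l, Pi.zero_apply, untilt_zero]
      simp
    obtain ⟨c0, hc0, hcert⟩ := hM₁ v hv
    have hev : eval₂ hV₀.incl z' ((p : MvPolynomial τ O) ^ c0) ∈
        Ideal.span {(p : V₀) ^ M} := by
      have h1 : Ideal.span (Set.range F' ∪ Set.range φ ∪
          Set.range (fun i => (X (v i) - 1 : MvPolynomial τ O))) ≤
          Ideal.comap (eval₂Hom hV₀.incl z') (Ideal.span {(p : V₀) ^ M}) := by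
        rw [Ideal.span_le]
        rintro _ ((⟨j, rfl⟩ | ⟨l, rfl⟩) | ⟨i, rfl⟩)
        · exact Ideal.mem_span_singleton.mpr (hF'z j)
        · refine Ideal.mem_span_singleton.mpr ?_
          have h2 := hφz l
          rw [hx'0 l, zero_sub, dvd_neg] at h2
          exact h2
        · have h2 : eval₂Hom hV₀.incl z' (X (v i) - 1 : MvPolynomial τ O) = 0 := by
            rw [map_sub, map_one, coe_eval₂Hom, eval₂_X, hz' i, sub_self]
          change eval₂Hom hV₀.incl z' (X (v i) - 1 : MvPolynomial τ O) ∈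
            Ideal.span {(p : V₀) ^ M}
          rw [h2]
          exact Ideal.zero_mem _
      exact h1 hcert
    rw [Ideal.mem_span_singleton, eval₂_pow] at hev
    have h2 : eval₂ hV₀.incl z' (p : MvPolynomial τ O) = (p : V₀) := by
      have h3 := map_natCast (eval₂Hom hV₀.incl z') p
      exact h3
    rw [h2] at hev
    have hlt : c0 < M := lt_of_lt_of_le hc0 (le_max_left _ _)
    have h3 : (p : V₀) ^ (c0 + 1) ∣ (p : V₀) ^ c0 := (pow_dvd_pow _ hlt).trans hev
    obtain ⟨c, hc⟩ := h3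
    have h4 : (p : V₀) * c = 1 := by
      apply mul_left_cancel₀ (pow_ne_zero c0 (hV₀.p_ne_zero hp0))
      rw [← mul_assoc, ← pow_succ, ← hc, mul_one]
    exact (Fact.out : ¬IsUnit (p : V₀)) (IsUnit.of_mul_eq_one _ h4)
  obtain ⟨𝔓, h𝔓1, h𝔓2, h𝔓3, h𝔓4⟩ := hEx s n d τ grp W e J Jc (PiC grp cst δ) (oC cst δ ho)
    (FractionRing (PreTilt O p)) Cn _ Pm hCn hT he
    (fun j => MvPolynomial.map κ (Fa j)) _ hFk (fun l => MvPolynomial.map κ (G l))
    (fun l => p ^ JG l) (fun l => pow_pos (Fact.out : p.Prime).pos _) hGk (E.symm.trans β)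
    (fun a => m (E.symm a) * sc (β (E.symm a)))
    (fun a i => b (E.symm a) i * sc (β (E.symm a)))
    (fun a => Nat.mul_pos (hm _) (hsc _)) hmb' hP2 hP3
  refine ⟨𝔓, h𝔓1, h𝔓2, h𝔓3, ?_⟩
  intro C' _ _ ι V hV _ _ y hy hyP
  obtain ⟨hac, ψ, hψκ⟩ := hlift C' ι V hV
  haveI := hac
  have hinjV : Function.Injective (algebraMap (PreTilt V p) (FractionRing (PreTilt V p))) :=
    IsFractionRing.injective _ _
  obtain ⟨z, c, hc, hz, hCz, hFz, hGz⟩ := h𝔓4 (FractionRing (PreTilt V p)) ψ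
    (fun l => algebraMap (PreTilt V p) (FractionRing (PreTilt V p)) (y l)) (by
      intro h0
      apply hy
      funext l
      apply hinjV
      rw [Pi.zero_apply, map_zero]
      exact congrFun h0 l)
    (eval_zero_of_integral 𝔓 (tmap hV.incl) ψ hψκ y hyP)
  obtain ⟨z', x', v, c', hc', hv, hz', hF'z, hφz, hxy⟩ := hstep C' ι V hV y ψ hψκ hac z c hc hz
    hCz hFz hGz
  have hx'0 : x' ≠ 0 := by
    intro h0
    apply hy
    funext l
    have h1 := hxy l
    rw [h0, Pi.zero_apply] at h1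
    have h2 := (mul_eq_zero.mp h1.symm).resolve_left hc'
    exact eq_zero_of_untilt (Subtype.ext h2)
  obtain ⟨a, haU, ha⟩ := hM₂ C' ι V hV z' x' v hv hz'
    (fun j => (pow_dvd_pow _ (le_max_right _ _)).trans (hF'z j))
    (fun l => (pow_dvd_pow _ (le_max_right _ _)).trans (hφz l)) hx'0
  refine ⟨a, haU, ?_⟩
  rw [ha, ← pointRel_smul ι V (fun l => ((PreTilt.untilt (y l) : V) : C')) c' hc']
  congr 1
  funext l
  exact hxy l

end main

theorem MAINFX.le_of_dim {K : Type u} [Field K] {n d : ℕ}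
    {I : Ideal (MvPolynomial (Fin (n + 1)) K)}
    (h : ringKrullDim (MvPolynomial (Fin (n + 1)) K ⧸ I) = (d + 1 : ℕ)) : d ≤ n := by
  have h1 := ringKrullDim_quotient_le I
  rw [h, MvPolynomial.ringKrullDim_of_isNoetherianRing, ringKrullDim_eq_zero_of_field, zero_add,
    Nat.card_eq_fintype_card, Fintype.card_fin] at h1
  have h2 : d + 1 ≤ n + 1 := by exact_mod_cast h1
  omega

section mainK

open MAINFX

variable {K : Type u} [Field K] {O : ValuationSubring K} {p : ℕ} [Fact p.Prime]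
  [Fact ¬IsUnit (p : O)] [IsAdicComplete (Ideal.span {(p : O)}) O]
variable {s d : ℕ} {τ : Type} {n : ℕ} [Finite τ]
variable {grp : τ → Fin s} {W : Fin s → τ → ℕ} {e : Fin s → ℕ} {J : Type} {o : Fin s → τ}

theorem MAINFX.aeval_smul_homogeneous {L : Type*} [CommRing L] [Algebra K L] (c : L)
    (x : Fin (n + 1) → L) {P : MvPolynomial (Fin (n + 1)) K} {d : ℕ} (hP : P.IsHomogeneous d) :
    aeval (fun l => c * x l) P = c ^ d * aeval x P := by
  have h1 : MH (fun (_ : Fin 1) (_ : Fin (n + 1)) => 1) P (fun _ => d) := fun _ => hP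
  have h2 := eval₂_act h1 (algebraMap K L) (fun _ => c) x
  have h3 : act (fun (_ : Fin 1) (_ : Fin (n + 1)) => 1) (fun _ => c) x = fun l => c * x l := by
    funext l
    simp [act, chr]
  rw [h3] at h2
  rw [aeval_def, aeval_def, h2]
  simp [chr]

/-- **Part F.** Images of complete intersections in towers of weighted projective bundles over
products of approximable varieties are approximable. -/
theorem mainF_K (hOpen : Stmt_OpenU.{u}) (hPar : Stmt_ParC.{u}) (hEx : Stmt_ExYC.{u})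
    (hVac : Stmt_Vac.{u})
    (hp0 : (p : K) ≠ 0) (hr : ∀ x : O, ¬IsUnit x → ∃ n : ℕ, (p : O) ∣ x ^ n)
    (hnd : ∃ x : O, ¬IsUnit x ∧ ¬(p : O) ∣ x)
    (hFrob : Function.Surjective (frobenius (ModP O p) p))
    (hT : Tri grp W) (ho : ∀ i, grp (o i) = i) (he : 0 < ∑ i, e i)
    {cst : Finset (Fin s)} {N : Fin s → ℕ} {en : ∀ i, Fin (N i + 1) → τ}
    (hfac : Fac grp W cst N en) {δ : Fin s → ℕ}
    (Ξ : ∀ i, Ideal (MvPolynomial (Fin (N i + 1)) K))
    (hΞh : ∀ i ∈ cst, ∀ P ∈ Ξ i, ∀ m, homogeneousComponent m P ∈ Ξ i)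
    (hΞd : ∀ i ∈ cst, ringKrullDim (MvPolynomial (Fin (N i + 1)) K ⧸ Ξ i) = (δ i + 1 : ℕ))
    (hΞa : ∀ i ∈ cst, TiltApprox p O (Ξ i))
    (F : J → MvPolynomial τ K) {DF : J → Fin s → ℕ} (hF : ∀ j, MH W (F j) (DF j))
    (φ : Fin (n + 1) → MvPolynomial τ K) (hφ : ∀ l, MH W (φ l) e)
    (β : Idx grp cst δ o ≃ J ⊕ Fin d) {m : Idx grp cst δ o → ℕ} (hm : ∀ a, 0 < m a)
    {b : Idx grp cst δ o → Fin s → ℕ}
    (hmb : ∀ (a : Idx grp cst δ o) (i : Fin s),
      m a * W i (rep cst δ o a) + ∑ i', b a i' * W i (o i') = Sum.elim DF (fun _ => e) (β a) i)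
    (I : Ideal (MvPolynomial (Fin (n + 1)) K))
    (hno : ∀ z : τ → AlgebraicClosure K, Rel grp z → (∀ j, aeval z (F j) = 0) →
      (∀ i ∈ cst, ∀ P ∈ Ξ i, aeval (fun a => z (en i a)) P = 0) →
      ∃ l, aeval z (φ l) ≠ 0)
    (hX : ∀ z : τ → AlgebraicClosure K, Rel grp z → (∀ j, aeval z (F j) = 0) →
      (∀ i ∈ cst, ∀ P ∈ Ξ i, aeval (fun a => z (en i a)) P = 0) →
      ∀ P ∈ I, ∀ d, P.IsHomogeneous d → aeval (fun l => aeval z (φ l)) P = 0)
    (hdim : ringKrullDim (MvPolynomial (Fin (n + 1)) K ⧸ I) = (d + 1 : ℕ)) :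
    TiltApprox p O I := by
  intro U hU hIU
  rw [hdim]
  choose bF F' hbF hF'1 hF'2 using fun j => exists_integral_one (O := O) (F j)
  obtain ⟨bφ, φ', hbφ, hφ'⟩ := exists_integral_family (O := O) φ
  have hne : ∀ c : O, c ≠ 0 → algebraMap K (AlgebraicClosure K) (c : K) ≠ 0 := by
    intro c hc h
    rw [map_eq_zero] at h
    exact hc (Subtype.ext h)
  have hev : ∀ (z : τ → AlgebraicClosure K) j, aeval z (map O.subtype (F' j)) =
      algebraMap K (AlgebraicClosure K) (bF j : K) * aeval z (F j) := by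
    intro z j
    rw [hF'1, map_mul, aeval_C]
  have hevφ : ∀ (z : τ → AlgebraicClosure K) l, aeval z (map O.subtype (φ' l)) =
      algebraMap K (AlgebraicClosure K) (bφ : K) * aeval z (φ l) := by
    intro z l
    rw [(hφ' l).1, map_mul, aeval_C]
  have hzero : ∀ (z : τ → AlgebraicClosure K), (∀ j, aeval z (map O.subtype (F' j)) = 0) →
      ∀ j, aeval z (F j) = 0 := by
    intro z hz j
    have h1 := hz j
    rw [hev] at h1
    exact (mul_eq_zero.mp h1).resolve_left (hne _ (hbF j))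
  refine mainF_O hOpen hPar hEx hVac hp0 hr hnd hFrob hT ho he hfac Ξ hΞh hΞd hΞa F'
    (fun j => (hF j).of_support (hF'2 j)) φ'
    (fun l => (hφ l).of_support (hφ' l).2) β hm hmb (MAINFX.le_of_dim hdim) I ?_ ?_ U hU hIU
  · intro z hz hFz hΞz
    obtain ⟨l, hl⟩ := hno z hz (hzero z hFz) hΞz
    exact ⟨l, by rw [hevφ]; exact mul_ne_zero (hne _ hbφ) hl⟩
  · intro z hz hFz hΞz P hP d hd
    have h1 : (fun l => aeval z (map O.subtype (φ' l))) =
        fun l => algebraMap K (AlgebraicClosure K) (bφ : K) * aeval z (φ l) :=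
      funext (hevφ z)
    rw [h1, MAINFX.aeval_smul_homogeneous _ _ hd, hX z hz (hzero z hFz) hΞz P hP d hd, mul_zero]

end mainK

end Pool.Agent.DC
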