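import Pool.Agent.DC.StmtsF
import Pool.Agent.DC.NN
import Pool.Agent.DC.HOMEXT

/-!
# Module PARC: parameters for constraints given by homogeneous prime ideals
-/

set_option autoImplicit false
set_option linter.unusedSectionVars false
set_option linter.style.haveILetI false

noncomputable section

namespace Pool.Agent.DC.PARCX

open scoped Classical
open MvPolynomial Pool.Agent.LibDb3ab1 Pool.Agent.DC.NN

universe u

/-- Noether normalisation by linear forms in every dimension. -/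
lemma forms {k : Type u} [Field k] [Infinite k] {n d : ℕ}
    (𝔓 : Ideal (MvPolynomial (Fin (n + 1)) k)) (h𝔓 : 𝔓.IsPrime)
    (hhom : ∀ F ∈ 𝔓, ∀ m, homogeneousComponent m F ∈ 𝔓)
    (hdim : ringKrullDim (MvPolynomial (Fin (n + 1)) k ⧸ 𝔓) = (d + 1 : ℕ)) :
    ∃ M : Fin (d + 1) → MvPolynomial (Fin (n + 1)) k, (∀ j, (M j).IsHomogeneous 1) ∧
      (phi 𝔓 M).toRingHom.IsIntegral ∧ Function.Injective (phi 𝔓 M) := by
  obtain ⟨r, M, hM, hint, hinj⟩ := exists_forms 𝔓 h𝔓 hhom
  have hr : r = d + 1 := by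
    letI : Algebra (MvPolynomial (Fin r) k) (MvPolynomial (Fin (n + 1)) k ⧸ 𝔓) :=
      (phi 𝔓 M).toRingHom.toAlgebra
    haveI : Algebra.IsIntegral (MvPolynomial (Fin r) k) (MvPolynomial (Fin (n + 1)) k ⧸ 𝔓) :=
      ⟨hint⟩
    haveI : IsDomain (MvPolynomial (Fin (n + 1)) k ⧸ 𝔓) := Ideal.Quotient.isDomain 𝔓
    have h1 : ringKrullDim (MvPolynomial (Fin r) k) =
        ringKrullDim (MvPolynomial (Fin (n + 1)) k ⧸ 𝔓) :=
      LibDb3ab1.ringKrullDim_eq_of_integral hinj
    rw [MvPolynomial.ringKrullDim_of_isNoetherianRing, ringKrullDim_eq_zero_of_field, zero_add,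
      Nat.card_eq_fintype_card, Fintype.card_fin, hdim] at h1
    exact_mod_cast h1
  subst hr
  exact ⟨M, hM, hint, hinj⟩

lemma weight_mapDomain {σ τ : Type} (w : τ → ℕ) (e : σ → τ) (c : ℕ) (hc : ∀ a, w (e a) = c)
    (m : σ →₀ ℕ) : Finsupp.weight w (Finsupp.mapDomain e m) = Finsupp.degree m * c := by
  rw [Finsupp.weight_apply, Finsupp.sum_mapDomain_index (by simp) (by intros; simp [add_mul]),
    Finsupp.degree_apply, Finsupp.sum, Finset.sum_mul]
  refine Finset.sum_congr rfl fun a _ => ?_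
  rw [hc, smul_eq_mul]

lemma rename_wh {k : Type u} [Field k] {σ τ : Type} (w : τ → ℕ) (e : σ → τ) (c : ℕ)
    (hc : ∀ a, w (e a) = c) (f : MvPolynomial σ k) (d : ℕ) (hf : f.IsHomogeneous d) :
    IsWeightedHomogeneous w (rename e f) (d * c) := by
  intro m hm
  obtain ⟨m', hm', hm2⟩ := coeff_rename_ne_zero e f m hm
  rw [← hm', weight_mapDomain w e c hc]
  have h1 := hf hm2
  rw [← h1]
  congr 1
  rw [Finsupp.degree_eq_weight_one]
  rfl

/-- a form of degree one vanishes at the origin -/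
lemma eval_zero_form {k : Type u} [Field k] {Ω : Type u} [Field Ω] {σ : Type} (φ : k →+* Ω)
    (f : MvPolynomial σ k) (hf : f.IsHomogeneous 1) (x : σ → Ω) (hx : ∀ a, x a = 0) :
    eval₂ φ x f = 0 := by
  rw [eval₂_eq]
  refine Finset.sum_eq_zero fun m hm => ?_
  have h1 : Finsupp.degree m = 1 := by
    rw [Finsupp.degree_eq_weight_one]
    exact hf (mem_support_iff.1 hm)
  have h2 : m ≠ 0 := by
    rintro rfl
    simp at h1
  obtain ⟨a, ha⟩ := Finsupp.support_nonempty_iff.2 h2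
  rw [Finset.prod_eq_zero ha (by rw [hx, zero_pow (Finsupp.mem_support_iff.1 ha)]), mul_zero]

end Pool.Agent.DC.PARCX

namespace Pool.Agent.DC

open scoped Classical
open MvPolynomial Pool.Agent.LibDb3ab1 Pool.Agent.DC.NN

universe u

theorem parc_proof : Stmt_ParC.{u} := by
  intro k _ _ s τ _ grp W cst N en hFac o ho 𝔓 δ h𝔓 Jc Cn hCn
  have hforms : ∀ i : cst, ∃ M : Fin (δ i + 1) → MvPolynomial (Fin (N i + 1)) k,
      (∀ j, (M j).IsHomogeneous 1) ∧ (phi (𝔓 i) M).toRingHom.IsIntegral ∧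
        Function.Injective (phi (𝔓 i) M) := fun i =>
    PARCX.forms (𝔓 i) (h𝔓 i i.2).1 (h𝔓 i i.2).2.1 (h𝔓 i i.2).2.2
  choose L hL hint hinj using hforms
  let lam : PiC grp cst δ → MvPolynomial τ k := fun a =>
    match a with
    | Sum.inl v => X v.1
    | Sum.inr x => rename (en x.1) (L x.1 x.2)
  let w : PiC grp cst δ → Fin s → ℕ := fun a i =>
    match a with
    | Sum.inl v => W i v
    | Sum.inr x => if i = (x.1 : Fin s) then 1 else 0
  have hom : ∀ a, MH W (lam a) (w a) := by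
    rintro (v | x) i
    · exact isWeightedHomogeneous_X k (W i) v.1
    · have h1 := PARCX.rename_wh (W i) (en x.1) (if i = (x.1 : Fin s) then 1 else 0)
        (fun a => hFac.wt x.1 x.1.2 a i) (L x.1 x.2) 1 (hL x.1 x.2)
      rw [one_mul] at h1
      exact h1
  have rel : ∀ (Ω : Type u) [Field Ω] (φ : k →+* Ω) (z : τ → Ω) (i : Fin s),
      eval₂ φ z (lam (oC cst δ ho i)) ≠ 0 → ∃ v, grp v = i ∧ z v ≠ 0 := by
    intro Ω _ φ z i hz
    by_cases h : i ∈ cst
    · by_contra hne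
      push Not at hne
      apply hz
      have h1 : oC cst δ ho i = Sum.inr ⟨⟨i, h⟩, 0⟩ := by
        unfold oC
        rw [dif_pos h]
      rw [h1]
      change eval₂ φ z (rename (en i) (L ⟨i, h⟩ 0)) = 0
      rw [eval₂_rename]
      exact PARCX.eval_zero_form φ _ (hL _ _) _ fun a => hne _ (hFac.grp_en i h a)
    · refine ⟨o i, ho i, ?_⟩
      have h1 : oC cst δ ho i = Sum.inl ⟨o i, by rw [ho]; exact h⟩ := by
        unfold oC
        rw [dif_neg h]
      rw [h1] at hz
      change eval₂ φ z (X (o i)) ≠ 0 at hz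
      rwa [eval₂_X] at hz
  have ext : ∀ (Ω : Type u) [Field Ω] [IsAlgClosed Ω] (φ : k →+* Ω) (u : PiC grp cst δ → Ω),
      (∀ i, u (oC cst δ ho i) = 1) →
      ∃ z : τ → Ω, (∀ j, eval₂ φ z (Cn j) = 0) ∧ (∀ a, eval₂ φ z (lam a) = u a) ∧
        ∀ A : Subring Ω, (∀ x, φ x ∈ A) → (∀ a, u a ∈ A) →
          ∀ v, (algebraMap A Ω).IsIntegralElem (z v) := by
    intro Ω _ _ φ u _
    have hψ : ∀ i : cst, ∃ ψ : (MvPolynomial (Fin (N i + 1)) k ⧸ 𝔓 i) →+* Ω,
        ψ.comp (phi (𝔓 i) (L i)).toRingHom = eval₂Hom φ fun a => u (Sum.inr ⟨i, a⟩) := by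
      intro i
      exact homext_proof _ _ _ _ (hinj i) (hint i) _
    choose ψ hψ using hψ
    have hψC : ∀ (i : cst) (c : k), ψ i (Ideal.Quotient.mk (𝔓 i) (C c)) = φ c := by
      intro i c
      have h1 := RingHom.congr_fun (hψ i) (C c)
      have h2 : phi (𝔓 i) (L i) (C c) = Ideal.Quotient.mk (𝔓 i) (C c) := by
        rw [phi_apply, aeval_C]
        rfl
      rw [coe_eval₂Hom, eval₂_C] at h1
      rw [← h1, ← h2]
      rfl
    have hψX : ∀ (i : cst) (a : Fin (δ i + 1)), ψ i (Ideal.Quotient.mk (𝔓 i) (L i a)) =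
        u (Sum.inr ⟨i, a⟩) := by
      intro i a
      have h1 := RingHom.congr_fun (hψ i) (X a)
      have h2 : phi (𝔓 i) (L i) (X a) = Ideal.Quotient.mk (𝔓 i) (L i a) := by
        rw [phi_apply, aeval_X]
      rw [coe_eval₂Hom, eval₂_X] at h1
      rw [← h1, ← h2]
      rfl
    have hev : ∀ (i : cst) (f : MvPolynomial (Fin (N i + 1)) k),
        eval₂ φ (fun a => ψ i (Ideal.Quotient.mk (𝔓 i) (X a))) f =
          ψ i (Ideal.Quotient.mk (𝔓 i) f) := by
      intro i f
      have h1 : eval₂Hom φ (fun a => ψ i (Ideal.Quotient.mk (𝔓 i) (X a))) =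
          (ψ i).comp (Ideal.Quotient.mk (𝔓 i)) := by
        apply MvPolynomial.ringHom_ext
        · intro c
          rw [coe_eval₂Hom, eval₂_C, RingHom.comp_apply, hψC]
        · intro a
          rw [coe_eval₂Hom, eval₂_X, RingHom.comp_apply]
      exact RingHom.congr_fun h1 f
    have hz : ∀ v : τ, ∃ y : Ω, (∀ h : grp v ∉ cst, y = u (Sum.inl ⟨v, h⟩)) ∧
        ∀ (i : cst) (a : Fin (N i + 1)), en i a = v →
          y = ψ i (Ideal.Quotient.mk (𝔓 i) (X a)) := by
      intro v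
      by_cases h : grp v ∈ cst
      · obtain ⟨a, ha⟩ := hFac.surj (grp v) h v rfl
        refine ⟨ψ ⟨grp v, h⟩ (Ideal.Quotient.mk (𝔓 (grp v)) (X a)), fun h' => absurd h h', ?_⟩
        rintro ⟨i, hi⟩ b hb
        obtain rfl : i = grp v := by
          rw [← hb]
          exact (hFac.grp_en i hi b).symm
        obtain rfl : a = b := hFac.inj (grp v) h (ha.trans hb.symm)
        rfl
      · refine ⟨u (Sum.inl ⟨v, h⟩), fun _ => rfl, ?_⟩
        rintro ⟨i, hi⟩ b hb
        exfalso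
        apply h
        rw [← hb, hFac.grp_en i hi b]
        exact hi
    choose z hz1 hz2 using hz
    have hren : ∀ (i : cst) (f : MvPolynomial (Fin (N i + 1)) k),
        eval₂ φ z (rename (en i) f) = ψ i (Ideal.Quotient.mk (𝔓 i) f) := by
      intro i f
      rw [eval₂_rename, ← hev]
      congr 1
      funext a
      exact hz2 (en i a) i a rfl
    refine ⟨z, ?_, ?_, ?_⟩
    · intro j
      obtain ⟨i, hi, f, hf, hj⟩ := hCn j
      rw [hj, hren ⟨i, hi⟩ f, Ideal.Quotient.eq_zero_iff_mem.2 hf, map_zero]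
    · rintro (v | ⟨i, a⟩)
      · change eval₂ φ z (X v.1) = _
        rw [eval₂_X]
        exact hz1 v.1 v.2
      · change eval₂ φ z (rename (en i) (L i a)) = _
        rw [hren i, hψX]
    · intro A hA hu v
      by_cases h : grp v ∈ cst
      · obtain ⟨a, ha⟩ := hFac.surj (grp v) h v rfl
        rw [hz2 v ⟨grp v, h⟩ a ha]
        obtain ⟨P, hP, hPx⟩ := hint ⟨grp v, h⟩ (Ideal.Quotient.mk (𝔓 (grp v)) (X a))
        let φA : k →+* A := φ.codRestrict A hA
        let θ : MvPolynomial (Fin (δ (grp v) + 1)) k →+* A :=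
          eval₂Hom φA fun a => ⟨u (Sum.inr ⟨⟨grp v, h⟩, a⟩), hu _⟩
        have hθ : (algebraMap A Ω).comp θ =
            (ψ ⟨grp v, h⟩).comp (phi (𝔓 (grp v)) (L ⟨grp v, h⟩)).toRingHom := by
          rw [hψ]
          apply MvPolynomial.ringHom_ext
          · intro c
            rw [RingHom.comp_apply, coe_eval₂Hom, coe_eval₂Hom, eval₂_C, eval₂_C]
            rfl
          · intro b
            rw [RingHom.comp_apply, coe_eval₂Hom, coe_eval₂Hom, eval₂_X, eval₂_X]
            rfl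
        refine ⟨P.map θ, hP.map θ, ?_⟩
        rw [Polynomial.eval₂_map, hθ, ← Polynomial.hom_eval₂, hPx, map_zero]
      · rw [hz1 v h]
        exact RingHom.isIntegralElem_map (algebraMap A Ω) (x := ⟨_, hu (Sum.inl ⟨v, h⟩)⟩)
  exact ⟨⟨lam, w, hom, rel, ext⟩, fun _ _ => rfl, fun _ _ => rfl⟩

end Pool.Agent.DC
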