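import Pool.Agent.DC.StmtsF

/-!
# VAC: homogeneous prime ideals of every dimension
-/

set_option autoImplicit false
set_option linter.unusedSectionVars false

noncomputable section

namespace Pool.Agent.DC

open scoped Classical
open MvPolynomial Pool.Agent.LibDb3ab1

universe u

namespace VACX

/-- The map which kills the variables `X i`, `i > d`. -/
def kill (k : Type u) [Field k] (n d : ℕ) :
    MvPolynomial (Fin (n + 1)) k →ₐ[k] MvPolynomial (Fin (d + 1)) k :=
  aeval (fun i => if h : (i : ℕ) < d + 1 then X ⟨i, h⟩ else 0)

theorem kill_surjective (k : Type u) [Field k] (n d : ℕ) (h : d ≤ n) :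
    Function.Surjective (kill k n d) := by
  intro f
  refine ⟨rename (Fin.castLE (by omega : d + 1 ≤ n + 1)) f, ?_⟩
  rw [kill, aeval_rename]
  conv_rhs => rw [← aeval_X_left_apply f]
  congr 2
  funext i
  have h1 : ((Fin.castLE (by omega : d + 1 ≤ n + 1) i : Fin (n + 1)) : ℕ) < d + 1 := i.2
  simp only [Function.comp_apply]
  rw [dif_pos h1]
  rfl

theorem kill_homogeneous (k : Type u) [Field k] (n d : ℕ) (f : MvPolynomial (Fin (n + 1)) k)
    (m : ℕ) (hf : f.IsHomogeneous m) : (kill k n d f).IsHomogeneous m := by
  have h1 := hf.aeval (R := k) (g := fun i : Fin (n + 1) =>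
    if h : (i : ℕ) < d + 1 then (X ⟨i, h⟩ : MvPolynomial (Fin (d + 1)) k) else 0) (n := 1)
    (by
      intro i
      by_cases h : (i : ℕ) < d + 1
      · simp only [h, dif_pos]
        exact isHomogeneous_X _ _
      · simp only [h, dif_neg, not_false_eq_true]
        exact isHomogeneous_zero _ _ _)
  rw [one_mul] at h1
  exact h1

theorem kill_component (k : Type u) [Field k] (n d : ℕ) (f : MvPolynomial (Fin (n + 1)) k)
    (m : ℕ) : kill k n d (homogeneousComponent m f) = homogeneousComponent m (kill k n d f) := by
  conv_rhs => rw [← sum_homogeneousComponent f]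
  rw [map_sum, map_sum]
  have h1 : ∀ i ∈ Finset.range (f.totalDegree + 1),
      homogeneousComponent m (kill k n d (homogeneousComponent i f)) =
        if m = i then kill k n d (homogeneousComponent i f) else 0 := by
    intro i _
    have h2 := kill_homogeneous k n d _ i (homogeneousComponent_isHomogeneous i f)
    by_cases h : m = i
    · subst h
      rw [if_pos rfl]
      exact homogeneousComponent_of_mem ((mem_homogeneousSubmodule _ _).mpr h2) |>.trans (by simp)
    · rw [if_neg h]
      exact homogeneousComponent_of_mem ((mem_homogeneousSubmodule _ _).mpr h2) |>.trans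
        (by simp [h])
  rw [Finset.sum_congr rfl h1, Finset.sum_ite_eq]
  by_cases h : m ∈ Finset.range (f.totalDegree + 1)
  · rw [if_pos h]
  · rw [if_neg h]
    rw [Finset.mem_range, not_lt] at h
    rw [homogeneousComponent_eq_zero m f (by omega), map_zero]

end VACX

theorem vac_proof : Stmt_Vac.{u} := by
  intro k _ n d h
  refine ⟨RingHom.ker (VACX.kill k n d).toRingHom, RingHom.ker_isPrime _, ?_, ?_⟩
  · intro f hf m
    rw [RingHom.mem_ker] at hf ⊢
    change VACX.kill k n d _ = 0 at hf ⊢
    rw [VACX.kill_component, hf, map_zero]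
  · rw [ringKrullDim_eq_of_ringEquiv (RingHom.quotientKerEquivOfSurjective
      (f := (VACX.kill k n d).toRingHom) (VACX.kill_surjective k n d h)),
      MvPolynomial.ringKrullDim_of_isNoetherianRing, ringKrullDim_eq_zero_of_field, zero_add,
      Nat.card_eq_fintype_card, Fintype.card_fin]

end Pool.Agent.DC
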