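import Pool.Agent.DC.StmtsG
import Pool.Agent.DC.CLC

/-!
# Module CLD: algebraic elements are dense in the tilt of `O₁`
-/

set_option autoImplicit false
set_option linter.unusedSectionVars false

noncomputable section

namespace Pool.Agent.DC.CLDX

open scoped Classical
open Pool.Agent.LibDb3ab1 CLCX

universe u

theorem tmap_tmap {A B C : Type u} [CommRing A] [CommRing B] [CommRing C] {p : ℕ} [Fact p.Prime]
    [Fact ¬IsUnit (p : A)] [Fact ¬IsUnit (p : B)] [Fact ¬IsUnit (p : C)]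
    [IsAdicComplete (Ideal.span {(p : A)}) A] [IsAdicComplete (Ideal.span {(p : B)}) B]
    [IsAdicComplete (Ideal.span {(p : C)}) C] (f : A →+* B)
    (g : B →+* C) (h : A →+* C) (hh : g.comp f = h) (x : PreTilt A p) :
    tmap g (tmap f x) = tmap h x := by
  apply preTilt_ext
  intro n
  rw [coeff_tmap, coeff_tmap, coeff_tmap]
  obtain ⟨a, ha⟩ := Ideal.Quotient.mk_surjective (PreTilt.coeff n x)
  rw [← ha, modMap_mk, modMap_mk, modMap_mk, ← hh]
  rfl

section

variable {O V : Type u} [CommRing O] [CommRing V] {p : ℕ} [Fact p.Prime] [Fact ¬IsUnit (p : O)]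
  [Fact ¬IsUnit (p : V)] [IsAdicComplete (Ideal.span {(p : V)}) V]
  [IsAdicComplete (Ideal.span {(p : O)}) O]

/-- An element of the tilt of `V` all of whose `p`-power roots have their sharps in the image of
`g : O → V` comes from the tilt of `O`. -/
theorem exists_tmap (g : O →+* V) (hg : Function.Injective g) (y : PreTilt V p)
    (hy : ∀ k, ∃ a : O, g a = PreTilt.untilt (rt p k y)) : ∃ x : PreTilt O p, tmap g x = y := by
  choose a ha using hy
  have ha' : ∀ k, a (k + 1) ^ p = a k := by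
    intro k
    apply hg
    rw [map_pow, ha, ha, ← map_pow]
    congr 1
    rw [rt_eq_pow (Nat.le_succ k) y, Nat.succ_sub (le_refl k), Nat.sub_self, pow_one]
  have hx : ∃ x : PreTilt O p, ∀ k, PreTilt.coeff k x = Ideal.Quotient.mk _ (a k) :=
    ⟨(⟨fun k => Ideal.Quotient.mk _ (a k), fun k => by
      change (Ideal.Quotient.mk (Ideal.span {(p : O)}) (a (k + 1))) ^ p =
        Ideal.Quotient.mk (Ideal.span {(p : O)}) (a k)
      rw [← map_pow, ha']⟩ : Perfection (ModP O p) p), fun k => rfl⟩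
  obtain ⟨x, hx⟩ := hx
  refine ⟨x, preTilt_ext fun n => ?_⟩
  rw [coeff_tmap, hx, modMap_mk, ha, mk_untilt_rt]

end

end Pool.Agent.DC.CLDX

namespace Pool.Agent.DC

open scoped Classical
open Pool.Agent.LibDb3ab1 CLCX CLDX

universe u

variable {K : Type u} [Field K] (O : ValuationSubring K) (p : ℕ) [Fact p.Prime]
  [Fact ¬IsUnit (p : O)] [IsAdicComplete (Ideal.span {(p : O)}) O]

theorem cld_proof (b : TB O p) : Stmt_Cld O p b := by
  intro C₀ _ _ ι₀ V₀ h₀ _ _ L A hL hA C₁ _ ι₁ O₁ h₁ κ _ _ hκι hO hAO y N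
  -- the map of valuation rings
  have hginj : Function.Injective (kap hO) := kap_injective hO
  have hcomp : (kap hO).comp h₁.incl = h₀.incl := by
    ext x
    change κ (ι₁ x) = ι₀ x
    rw [← hκι]
    rfl
  have hAg : ∀ a : V₀, a ∈ A ↔ ∃ x : O₁, kap hO x = a := by
    intro a
    rw [hAO]
    constructor
    · rintro ⟨x, hx⟩
      exact ⟨x, Subtype.ext hx⟩
    · rintro ⟨x, hx⟩
      exact ⟨x, by rw [← hx]; rfl⟩
  have htinj : Function.Injective (tmap (p := p) (kap hO)) := by
    rw [injective_iff_map_eq_zero]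
    intro x hx
    have h2 := untilt_tmap (p := p) (kap hO) x
    rw [hx, untilt_zero] at h2
    apply eq_zero_of_untilt
    apply hginj
    rw [← h2, map_zero]
  -- the pseudo-uniformiser
  have hϖ₀ : (p : V₀) = h₀.incl b.u * PreTilt.untilt (b.ϖV h₀) := by
    rw [TB.ϖV, untilt_tmap, ← map_mul, ← b.hϖ, map_natCast]
  have hu₀ : IsUnit (h₀.incl b.u) := b.hu.map _
  have hpV : (p : V₀) ≠ 0 := by
    intro h
    apply b.hp0
    have h1 := congrArg (fun x : V₀ => (x : C₀)) h
    have h2 : (p : C₀) = 0 := by simpa using h1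
    apply ι₀.injective
    rw [map_natCast, h2, map_zero]
  have hϖne : b.ϖV h₀ ≠ 0 := by
    intro h
    apply hpV
    rw [hϖ₀, h, untilt_zero, mul_zero]
  have hϖϖ : tmap (kap hO) (b.ϖV h₁) = b.ϖV h₀ := tmap_tmap _ _ _ hcomp _
  -- `L` is closed under roots
  have hrt : ∀ (k : ℕ) (l : PreTilt V₀ p), l ∈ L → rt p k l ∈ L := by
    intro k l hl
    have hpk : 0 < p ^ k := pow_pos (Fact.out : p.Prime).pos _
    obtain ⟨z, hz, hz0⟩ := hL.root (Polynomial.X ^ p ^ k - Polynomial.C l)
      (Polynomial.monic_X_pow_sub_C l hpk.ne')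
      (by rw [Polynomial.natDegree_X_pow_sub_C]; exact hpk) (by
        intro i
        rw [Polynomial.coeff_sub, Polynomial.coeff_X_pow, Polynomial.coeff_C]
        refine L.sub_mem ?_ ?_
        · split_ifs
          · exact L.one_mem
          · exact L.zero_mem
        · split_ifs
          · exact hl
          · exact L.zero_mem)
    rw [Polynomial.eval_sub, Polynomial.eval_pow, Polynomial.eval_X, Polynomial.eval_C,
      sub_eq_zero] at hz0
    rwa [← (eq_rt_iff k z l).2 hz0]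
  -- the image of the tilt of `O₁` is `L`
  have himg : ∀ l ∈ L, ∃ x : PreTilt O₁ p, tmap (kap hO) x = l := by
    intro l hl
    apply exists_tmap (kap hO) hginj
    intro k
    exact (hAg _).1 (hA.sharp _ (hrt k l hl))
  have hmem : ∀ x : PreTilt O₁ p, tmap (kap hO) x ∈ L := by
    intro x
    apply hL.closed
    intro M
    have h1 : PreTilt.untilt (rt p M (tmap (kap hO) x)) ∈ A := by
      rw [← map_rt, untilt_tmap]
      exact (hAg _).2 ⟨_, rfl⟩
    obtain ⟨l, hl, x', -, hx'⟩ := hA.exp _ h1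
    refine ⟨l ^ p ^ M, L.pow_mem hl _, ?_⟩
    have h2 : PreTilt.coeff M (tmap (kap hO) x - l ^ p ^ M) = 0 := by
      have h3 : PreTilt.coeff M (l ^ p ^ M) = PreTilt.coeff 0 l := by
        rw [← mk_untilt_rt, rt_of_pow, PreTilt.mk_untilt_eq_coeff_zero]
      rw [map_sub, h3, ← mk_untilt_rt, ← PreTilt.mk_untilt_eq_coeff_zero, ← map_sub,
        Ideal.Quotient.eq_zero_iff_mem, Ideal.mem_span_singleton, hx', add_sub_cancel_left]
      exact dvd_mul_right _ _
    rw [coeff_eq_zero_iff hu₀ hϖ₀] at h2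
    exact (pow_dvd_pow _ (Nat.lt_pow_self (Fact.out : p.Prime).one_lt).le).trans h2
  obtain ⟨a₀, ha₀, ⟨f, hf0, hf⟩, c, hc⟩ := hL.dense _ (hmem y) N
  obtain ⟨a, rfl⟩ := himg a₀ ha₀
  refine ⟨a, ⟨f, hf0, ?_⟩, ?_⟩
  · apply htinj
    rw [map_zero, Polynomial.hom_eval₂, ← hf]
    congr 1
    ext x
    exact tmap_tmap _ _ _ hcomp x
  · have hcL : c ∈ L := by
      apply hL.div (b.ϖV h₀ ^ N) c _ (pow_ne_zero _ hϖne)
      · rw [← hc]
        exact L.sub_mem (hmem y) (hmem a)
      · rw [← hϖϖ, ← map_pow]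
        exact hmem _
    obtain ⟨c', rfl⟩ := himg c hcL
    refine ⟨c', htinj ?_⟩
    rw [map_sub, hc, map_mul, map_pow, hϖϖ]

end Pool.Agent.DC
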