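import Pool.Agent.DC.StmtsG
import Pool.Agent.DC.PUX

/-!
# Module EMB: an embedding of the algebraic elements extends to the tilt
-/

set_option autoImplicit false
set_option linter.unusedSectionVars false

noncomputable section

namespace Pool.Agent.DC

open Pool.Agent.LibDb3ab1

universe u

namespace EMBX

theorem exists_minpoly {F E : Type u} [Field F] [Field E] (α : F →+* E) (x : E)
    (h : ∃ f : Polynomial F, f ≠ 0 ∧ f.eval₂ α x = 0) :
    ∃ f : Polynomial F, f.Monic ∧ Irreducible f ∧ f.eval₂ α x = 0 := by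
  letI : Algebra F E := α.toAlgebra
  have h1 : IsAlgebraic F x := by
    obtain ⟨f, hf, hf2⟩ := h
    exact ⟨f, hf, hf2⟩
  have h2 : IsIntegral F x := h1.isIntegral
  exact ⟨minpoly F x, minpoly.monic h2, minpoly.irreducible h2, minpoly.aeval F x⟩

/-- in a ring with a pseudo-uniformiser, an element divisible by all its powers is zero -/
theorem eq_zero_of_dvd {W : Type u} [CommRing W] [IsDomain W] {ϖ : W} (h : PU ϖ) {x : W}
    (hx : ∀ n : ℕ, ϖ ^ n ∣ x) : x = 0 := by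
  by_contra h0
  obtain ⟨n, hn⟩ := h.cof x h0
  obtain ⟨c, hc⟩ := (hx (n + 1)).trans hn
  apply h.not_unit
  rw [isUnit_iff_dvd_one]
  refine ⟨c, ?_⟩
  apply mul_left_cancel₀ (pow_ne_zero n h.ne_zero)
  rw [mul_one]
  linear_combination hc

section

variable {K : Type u} [Field K] {O : ValuationSubring K} {p : ℕ} [Fact p.Prime]
  [Fact ¬IsUnit (p : O)] [IsAdicComplete (Ideal.span {(p : O)}) O] (b : TB O p)
  {C₁ : Type u} [Field C₁] [IsAlgClosed C₁] {ι₁ : K →+* C₁} {O₁ : ValuationSubring C₁}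
  (h₁ : ValuedExt O ι₁ O₁) [Fact ¬IsUnit (p : O₁)] [IsAdicComplete (Ideal.span {(p : O₁)}) O₁]
  {ka : Type u} [Field ka] {α : TF O p →+* ka} {β : ka →+* TF O₁ p}
  {C : Type u} [Field C] [IsAlgClosed C] {ι : K →+* C} {V : ValuationSubring C}
  (hV : ValuedExt O ι V) [Fact ¬IsUnit (p : V)] [IsAdicComplete (Ideal.span {(p : V)}) V]
  {j : ka →+* TF V p}

theorem tf_mem_iff (hS : Stmt_SCX O p b) (x : TF O p) :
    (∃ w : PreTilt O₁ p, algebraMap (PreTilt O₁ p) (TF O₁ p) w = tf h₁ x) ↔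
      ∃ w : PreTilt O p, algebraMap (PreTilt O p) (TF O p) w = x := by
  constructor
  · rintro ⟨c, hc⟩
    obtain ⟨x1, x2, hx2, rfl⟩ := IsFractionRing.div_surjective (A := PreTilt O p) x
    have hx20 : x2 ≠ 0 := nonZeroDivisors.ne_zero hx2
    rw [map_div₀, tf_algebraMap, tf_algebraMap] at hc
    have h2 : cf (p := p) h₁ x2 ≠ 0 := by
      intro h0
      exact hx20 (cf_injective (p := p) h₁ (by rw [h0, map_zero]))
    rw [eq_div_iff h2] at hc
    have h3 : c * tmap h₁.incl x2 = tmap h₁.incl x1 := by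
      apply IsFractionRing.injective (PreTilt O₁ p) (TF O₁ p)
      rw [map_mul]
      exact hc
    have h4 : x2 ∣ x1 := ((hS.2.2.2 C₁ ι₁ O₁ h₁).2.2 x2 x1).mp ⟨c, by rw [← h3, mul_comm]⟩
    obtain ⟨d, hd⟩ := h4
    refine ⟨d, ?_⟩
    have h5 : algebraMap (PreTilt O p) (TF O p) x2 ≠ 0 := by
      intro h0
      exact hx20 (IsFractionRing.injective (PreTilt O p) (TF O p) (by rw [h0, map_zero]))
    rw [hd, map_mul, mul_div_cancel_left₀ _ h5]
  · rintro ⟨w, rfl⟩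
    exact ⟨tmap h₁.incl w, by rw [tf_algebraMap]; rfl⟩

theorem step1 (hI : Stmt_Intg.{u}) (hS : Stmt_SCX O p b) (hβ : β.comp α = tf h₁)
    (halg : ∀ x : ka, ∃ f : Polynomial (TF O p), f ≠ 0 ∧ f.eval₂ α x = 0)
    (hj : j.comp α = tf hV) (a : ka) (w : PreTilt O₁ p)
    (hw : β a = algebraMap (PreTilt O₁ p) (TF O₁ p) w) :
    ∃ z : PreTilt V p, j a = algebraMap (PreTilt V p) (TF V p) z := by
  obtain ⟨f, hf1, hf2, hf3⟩ := exists_minpoly α a (halg a)
  obtain ⟨V₁, hV₁⟩ := exists_rangeVal (PreTilt O₁ p) (TF O₁ p)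
  have hcoef := hI (PreTilt O p) (TF O p) b.ϖ (pux_proof O p b).1 hS.2.1 hS.2.2.1 (TF O₁ p)
    (tf h₁) V₁ (fun x => by rw [hV₁, tf_mem_iff b h₁ hS]) f (β a) hf1 hf2
    (by
      rw [← hβ, ← Polynomial.hom_eval₂, hf3, map_zero])
    (by rw [hV₁]; exact ⟨w, hw.symm⟩)
  have hlift : f ∈ Polynomial.lifts (algebraMap (PreTilt O p) (TF O p)) := by
    rw [Polynomial.lifts_iff_coeff_lifts]
    intro i
    obtain ⟨w, hw⟩ := hcoef i
    exact ⟨w, hw⟩
  obtain ⟨g, hg1, -, hg2⟩ := Polynomial.lifts_and_natDegree_eq_and_monic hlift hf1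
  have hint : IsIntegral (PreTilt V p) (j a) := by
    refine ⟨g.map (tmap hV.incl), hg2.map _, ?_⟩
    have h1 : f.eval₂ (tf hV) (j a) = 0 := by
      rw [← hj, ← Polynomial.hom_eval₂, hf3, map_zero]
    rw [← hg1, Polynomial.eval₂_map] at h1
    have h2 : (tf hV).comp (algebraMap (PreTilt O p) (TF O p)) =
        (algebraMap (PreTilt V p) (TF V p)).comp (tmap hV.incl) :=
      RingHom.ext fun x => tf_algebraMap hV x
    rw [h2] at h1
    rw [Polynomial.eval₂_map]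
    exact h1
  obtain ⟨z, hz⟩ := (IsIntegrallyClosed.isIntegral_iff (R := PreTilt V p) (K := TF V p)).mp hint
  exact ⟨z, hz.symm⟩

theorem step2 (hI : Stmt_Intg.{u}) (hS : Stmt_SCX O p b) (hβ : β.comp α = tf h₁)
    (halg : ∀ x : ka, ∃ f : Polynomial (TF O p), f ≠ 0 ∧ f.eval₂ α x = 0)
    (hj : j.comp α = tf hV) (a : ka) (w : PreTilt O₁ p) (z : PreTilt V p)
    (hw : β a = algebraMap (PreTilt O₁ p) (TF O₁ p) w)
    (hz : j a = algebraMap (PreTilt V p) (TF V p) z) (N : ℕ) (hN : b.ϖV h₁ ^ N ∣ w) :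
    b.ϖV hV ^ N ∣ z := by
  obtain ⟨w0, hw0⟩ := hN
  have hϖ0 : b.ϖ ≠ 0 := (pux_proof O p b).1.ne_zero
  set π : ka := α (algebraMap (PreTilt O p) (TF O p) b.ϖ) with hπ
  have hπ0 : π ≠ 0 := by
    rw [hπ]
    intro h0
    rw [map_eq_zero] at h0
    exact hϖ0 (IsFractionRing.injective (PreTilt O p) (TF O p) (by rw [h0, map_zero]))
  have hβπ : β π = algebraMap (PreTilt O₁ p) (TF O₁ p) (b.ϖV h₁) := by
    rw [hπ, ← RingHom.comp_apply, hβ, tf_algebraMap]
    rfl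
  have hjπ : j π = algebraMap (PreTilt V p) (TF V p) (b.ϖV hV) := by
    rw [hπ, ← RingHom.comp_apply, hj, tf_algebraMap]
    rfl
  have h1 : β (a / π ^ N) = algebraMap (PreTilt O₁ p) (TF O₁ p) w0 := by
    have h2 : β π ≠ 0 := by
      intro h0
      exact hπ0 ((map_eq_zero β).mp h0)
    rw [map_div₀, hw, hw0, map_mul, map_pow, map_pow, ← hβπ,
      mul_div_cancel_left₀ _ (pow_ne_zero N h2)]
  obtain ⟨z0, hz0⟩ := step1 b h₁ hV hI hS hβ halg hj _ _ h1
  refine ⟨z0, ?_⟩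
  apply IsFractionRing.injective (PreTilt V p) (TF V p)
  rw [← hz, map_mul, map_pow, ← hjπ, ← hz0, ← map_pow, ← map_mul,
    mul_div_cancel₀ _ (pow_ne_zero N hπ0)]

/-- The relation defining the extension. -/
def Rel (β : ka →+* TF O₁ p) (j : ka →+* TF V p) (y : PreTilt O₁ p) (z : PreTilt V p) : Prop :=
  ∀ N : ℕ, ∃ (a : ka) (w : PreTilt O₁ p) (z' : PreTilt V p),
    β a = algebraMap (PreTilt O₁ p) (TF O₁ p) w ∧ j a = algebraMap (PreTilt V p) (TF V p) z' ∧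
    b.ϖV h₁ ^ N ∣ y - w ∧ b.ϖV hV ^ N ∣ z - z'

theorem rel_unique (hI : Stmt_Intg.{u}) (hS : Stmt_SCX O p b) (hβ : β.comp α = tf h₁)
    (halg : ∀ x : ka, ∃ f : Polynomial (TF O p), f ≠ 0 ∧ f.eval₂ α x = 0)
    (hj : j.comp α = tf hV) {y : PreTilt O₁ p} {z z' : PreTilt V p}
    (h : Rel b h₁ hV β j y z) (h' : Rel b h₁ hV β j y z') : z = z' := by
  rw [← sub_eq_zero]
  apply eq_zero_of_dvd (((pux_proof O p b).2 C ι V hV).2)
  intro N
  obtain ⟨a1, w1, z1, e1, f1, g1, k1⟩ := h N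
  obtain ⟨a2, w2, z2, e2, f2, g2, k2⟩ := h' N
  have h3 : b.ϖV h₁ ^ N ∣ w1 - w2 := by
    have := dvd_sub g2 g1
    have e : w1 - w2 = (y - w2) - (y - w1) := by ring
    rw [e]
    exact this
  have h4 : b.ϖV hV ^ N ∣ z1 - z2 :=
    step2 b h₁ hV hI hS hβ halg hj (a1 - a2) (w1 - w2) (z1 - z2)
      (by rw [map_sub, map_sub, e1, e2]) (by rw [map_sub, map_sub, f1, f2]) N h3
  have e : z - z' = (z - z1) + (z1 - z2) - (z' - z2) := by ring
  rw [e]
  exact dvd_sub (dvd_add k1 h4) k2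

theorem rel_exists (hI : Stmt_Intg.{u}) (hS : Stmt_SCX O p b) (hβ : β.comp α = tf h₁)
    (halg : ∀ x : ka, ∃ f : Polynomial (TF O p), f ≠ 0 ∧ f.eval₂ α x = 0)
    (hd : ∀ (y : PreTilt O₁ p) (N : ℕ), ∃ (a : ka) (w : PreTilt O₁ p),
      β a = algebraMap (PreTilt O₁ p) (TF O₁ p) w ∧ b.ϖV h₁ ^ N ∣ y - w)
    (hj : j.comp α = tf hV) (y : PreTilt O₁ p) : ∃ z, Rel b h₁ hV β j y z := by
  choose a w ha hw using hd y
  have h1 : ∀ N, ∃ z : PreTilt V p, j (a N) = algebraMap (PreTilt V p) (TF V p) z := fun N =>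
    step1 b h₁ hV hI hS hβ halg hj (a N) (w N) (ha N)
  choose z hz using h1
  obtain ⟨x, hx⟩ := (hS.2.2.2 C ι V hV).2.1 z (by
    intro N
    apply step2 b h₁ hV hI hS hβ halg hj (a (N + 1) - a N) (w (N + 1) - w N)
    · rw [map_sub, map_sub, ha, ha]
    · rw [map_sub, map_sub, hz, hz]
    · have e : w (N + 1) - w N = (y - w N) - (y - w (N + 1)) := by ring
      rw [e]
      exact dvd_sub (hw N) ((pow_dvd_pow _ (Nat.le_succ N)).trans (hw (N + 1))))
  exact ⟨x, fun N => ⟨a N, w N, z N, ha N, hz N, hw N, hx N⟩⟩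

theorem rel_add {y y' : PreTilt O₁ p} {z z' : PreTilt V p}
    (h : Rel b h₁ hV β j y z) (h' : Rel b h₁ hV β j y' z') :
    Rel b h₁ hV β j (y + y') (z + z') := by
  intro N
  obtain ⟨a1, w1, z1, e1, f1, g1, k1⟩ := h N
  obtain ⟨a2, w2, z2, e2, f2, g2, k2⟩ := h' N
  refine ⟨a1 + a2, w1 + w2, z1 + z2, by rw [map_add, map_add, e1, e2],
    by rw [map_add, map_add, f1, f2], ?_, ?_⟩
  · have e : y + y' - (w1 + w2) = (y - w1) + (y' - w2) := by ring
    rw [e]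
    exact dvd_add g1 g2
  · have e : z + z' - (z1 + z2) = (z - z1) + (z' - z2) := by ring
    rw [e]
    exact dvd_add k1 k2

theorem rel_mul {y y' : PreTilt O₁ p} {z z' : PreTilt V p}
    (h : Rel b h₁ hV β j y z) (h' : Rel b h₁ hV β j y' z') :
    Rel b h₁ hV β j (y * y') (z * z') := by
  intro N
  obtain ⟨a1, w1, z1, e1, f1, g1, k1⟩ := h N
  obtain ⟨a2, w2, z2, e2, f2, g2, k2⟩ := h' N
  refine ⟨a1 * a2, w1 * w2, z1 * z2, by rw [map_mul, map_mul, e1, e2],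
    by rw [map_mul, map_mul, f1, f2], ?_, ?_⟩
  · have e : y * y' - w1 * w2 = y * (y' - w2) + (y - w1) * w2 := by ring
    rw [e]
    exact dvd_add (Dvd.dvd.mul_left g2 _) (Dvd.dvd.mul_right g1 _)
  · have e : z * z' - z1 * z2 = z * (z' - z2) + (z - z1) * z2 := by ring
    rw [e]
    exact dvd_add (Dvd.dvd.mul_left k2 _) (Dvd.dvd.mul_right k1 _)

theorem rel_of_eq (a : ka) (w : PreTilt O₁ p) (z : PreTilt V p)
    (hw : β a = algebraMap (PreTilt O₁ p) (TF O₁ p) w)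
    (hz : j a = algebraMap (PreTilt V p) (TF V p) z) : Rel b h₁ hV β j w z := by
  intro N
  refine ⟨a, w, z, hw, hz, ?_, ?_⟩
  · rw [sub_self]; exact dvd_zero _
  · rw [sub_self]; exact dvd_zero _

theorem rel_base (hβ : β.comp α = tf h₁) (hj : j.comp α = tf hV) (x : PreTilt O p) :
    Rel b h₁ hV β j (tmap h₁.incl x) (tmap hV.incl x) := by
  apply rel_of_eq b h₁ hV (α (algebraMap (PreTilt O p) (TF O p) x))
  · rw [← RingHom.comp_apply, hβ, tf_algebraMap]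
    rfl
  · rw [← RingHom.comp_apply, hj, tf_algebraMap]
    rfl

end

end EMBX

open EMBX in
theorem emb_proof {K : Type u} [Field K] (O : ValuationSubring K) (p : ℕ) [Fact p.Prime]
    [Fact ¬IsUnit (p : O)] [IsAdicComplete (Ideal.span {(p : O)}) O] (b : TB O p)
    (hI : Stmt_Intg.{u}) (hS : Stmt_SCX O p b) : Stmt_Emb O p b := by
  intro C₁ _ _ ι₁ O₁ h₁ _ _ ka _ α β hβ halg hd C _ _ ι V hV _ _ j hj
  choose g hg using rel_exists b h₁ hV hI hS hβ halg hd hj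
  have hu : ∀ {y : PreTilt O₁ p} {z : PreTilt V p}, Rel b h₁ hV β j y z → g y = z :=
    fun {y z} h => rel_unique b h₁ hV hI hS hβ halg hj (hg y) h
  refine ⟨{ toFun := g, map_one' := hu ?_, map_mul' := fun x y => hu (rel_mul b h₁ hV (hg x) (hg y)),
            map_zero' := hu ?_, map_add' := fun x y => hu (rel_add b h₁ hV (hg x) (hg y)) },
    ?_, ?_⟩
  · have h := rel_base b h₁ hV hβ hj 1
    rwa [map_one, map_one] at h
  · have h := rel_base b h₁ hV hβ hj 0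
    rwa [map_zero, map_zero] at h
  · apply RingHom.ext
    intro x
    exact hu (rel_base b h₁ hV hβ hj x)
  · intro a w hw
    obtain ⟨z, hz⟩ := step1 b h₁ hV hI hS hβ halg hj a w hw
    have h := hu (rel_of_eq b h₁ hV a w z hw hz)
    rw [hz, ← h]
    rfl

end Pool.Agent.DC
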