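import Pool.Agent.DC.StmtsG

/-!
# Module FONT: embeddings of tilts come from embeddings of the untilts
-/

set_option autoImplicit false
set_option linter.unusedSectionVars false

noncomputable section

namespace Pool.Agent.DC

open scoped Classical
open Pool.Agent.LibDb3ab1

universe u

namespace FONTX

open WittVector

variable {K : Type u} [Field K] {O : ValuationSubring K} {p : ℕ} [Fact p.Prime]
  [Fact ¬IsUnit (p : O)] [IsAdicComplete (Ideal.span {(p : O)}) O]

theorem map_map' {A B C : Type*} [CommRing A] [CommRing B] [CommRing C]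
    (f : A →+* B) (g : B →+* C) (w : WittVector p A) :
    WittVector.map g (WittVector.map f w) = WittVector.map (g.comp f) w := by
  ext n
  simp [WittVector.map_coeff]

end FONTX

open FONTX WittVector in
theorem font_proof {K : Type u} [Field K] (O : ValuationSubring K) (p : ℕ) [Fact p.Prime]
    [Fact ¬IsUnit (p : O)] [IsAdicComplete (Ideal.span {(p : O)}) O] (b : TB O p) :
    Stmt_Font O p b := by
  intro C₁ _ _ ι₁ O₁ h₁ _ _ hrank C _ _ ι V hV _ _ jp hjp
  -- the data of `ξ`
  obtain ⟨υ, ξ, -, hξ, hθξ, hθυ⟩ := exists_xi b.hF b.hu b.hϖ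
  have hjp' : ∀ x, jp (tmap h₁.incl x) = tmap hV.incl x := fun x => RingHom.congr_fun hjp x
  have hp0₁ : (p : O₁) ≠ 0 := by
    intro h
    apply b.hp0
    apply ι₁.injective
    have h2 := congrArg (Subtype.val : O₁ → C₁) h
    simpa using h2
  have hϖ₁ : (p : O₁) = h₁.incl b.u * PreTilt.untilt (b.ϖV h₁) := by
    have h := congrArg h₁.incl b.hϖ
    rw [map_natCast, map_mul, ← untilt_tmap] at h
    exact h
  have hξ₁ : (p : WittVector p (PreTilt O₁ p)) = WittVector.map (tmap h₁.incl) ξ +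
      WittVector.map (tmap h₁.incl) υ * teichmuller p (b.ϖV h₁) := by
    have h := congrArg (WittVector.map (tmap h₁.incl)) hξ
    rw [map_natCast, map_add, map_mul, map_teichmuller] at h
    exact h
  have hθ₁ : fontaineTheta O₁ p (WittVector.map (tmap h₁.incl) ξ) = 0 := by
    rw [theta_map, hθξ, map_zero]
  -- the map `Φ`
  let Φ : WittVector p (PreTilt O₁ p) →+* V := (fontaineTheta V p).comp (WittVector.map jp)
  have hΦW : ∀ w : WittVector p (PreTilt O p),
      Φ (WittVector.map (tmap h₁.incl) w) = hV.incl (fontaineTheta O p w) := by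
    intro w
    change fontaineTheta V p (WittVector.map jp (WittVector.map (tmap h₁.incl) w)) = _
    rw [map_map', hjp, theta_map]
  have hΦT : ∀ y : PreTilt O₁ p, Φ (teichmuller p y) = PreTilt.untilt (jp y) := by
    intro y
    change fontaineTheta V p (WittVector.map jp (teichmuller p y)) = _
    rw [map_teichmuller, fontaineTheta_teichmuller]
  have hker : RingHom.ker (fontaineTheta O₁ p) ≤ RingHom.ker Φ := by
    intro x hx
    rw [RingHom.mem_ker] at hx ⊢
    apply eq_of_forall_dvd (p := p)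
    intro M
    obtain ⟨c, d, hcd⟩ := ker_theta hp0₁ hϖ₁ hξ₁ hθ₁ M x hx
    rw [sub_zero, hcd, map_add, map_mul, map_mul, map_pow, hΦW, hθξ, map_zero, zero_mul, add_zero,
      hΦT]
    have h1 : (p : V) ∣ PreTilt.untilt (jp (b.ϖV h₁)) := by
      have h2 : jp (b.ϖV h₁) = tmap hV.incl b.ϖ := hjp' _
      rw [h2, untilt_tmap]
      have h3 := congrArg hV.incl b.hϖ
      rw [map_natCast, map_mul] at h3
      rw [h3]
      exact ((b.hu.map hV.incl).mul_left_dvd).mpr dvd_rfl
    exact (pow_dvd_pow_of_dvd h1 M).mul_right _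
  have hF₁ : Function.Surjective (frobenius (ModP O₁ p) p) :=
    frob_surj_of_root (exists_root_valuationSubring O₁)
  have hsurj : Function.Surjective (fontaineTheta O₁ p) := surjective_fontaineTheta hF₁
  let q : O₁ →+* V := (fontaineTheta O₁ p).liftOfSurjective hsurj ⟨Φ, hker⟩
  have hq : ∀ w, q (fontaineTheta O₁ p w) = Φ w := fun w =>
    RingHom.liftOfRightInverse_comp_apply _ _ _ ⟨Φ, hker⟩ w
  have hqT : ∀ y : PreTilt O₁ p, q (PreTilt.untilt y) = PreTilt.untilt (jp y) := by
    intro y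
    rw [← fontaineTheta_teichmuller, hq, hΦT]
  have hqO : ∀ x : O, q (h₁.incl x) = hV.incl x := by
    intro x
    obtain ⟨w, rfl⟩ := surjective_fontaineTheta b.hF x
    rw [← theta_map, hq, hΦW]
  have hqinj : Function.Injective q := by
    rw [injective_iff_map_eq_zero]
    intro x hx
    by_contra hx0
    have hx0' : (x : C₁) ≠ 0 := fun h => hx0 (Subtype.ext h)
    obtain ⟨a, ha, haO⟩ := h₁.cont (x : C₁) hx0'
    have h1 : ι₁ a ∈ O₁ := by
      have h2 := O₁.mul_mem _ _ haO x.2
      rwa [div_mul_cancel₀ _ hx0'] at h2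
    have haO' : a ∈ O := by
      rw [← h₁.comap_eq]
      exact h1
    have h3 : h₁.incl ⟨a, haO'⟩ = ⟨ι₁ a / x, haO⟩ * x := by
      apply Subtype.ext
      change ι₁ a = ι₁ a / x * x
      rw [div_mul_cancel₀ _ hx0']
    have h4 := hqO ⟨a, haO'⟩
    rw [h3, map_mul, hx, mul_zero] at h4
    have h5 : ι a = 0 := by
      have h6 := congrArg (Subtype.val : V → C) h4
      exact h6.symm
    exact ha ((map_eq_zero ι).mp h5)
  have hinjC : Function.Injective ((V.subtype : V →+* C).comp q) := by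
    rw [RingHom.coe_comp]
    exact Subtype.val_injective.comp hqinj
  let ι₂ : C₁ →+* C := IsFractionRing.lift (A := O₁) (K := C₁) hinjC
  have hι₂ : ∀ x : O₁, ι₂ (x : C₁) = (q x : C) := by
    intro x
    exact IsFractionRing.lift_algebraMap (A := O₁) (K := C₁) hinjC x
  have hcomp : ∀ a : K, ι₂ (ι₁ a) = ι a := by
    have hO : ∀ a : O, ι₂ (ι₁ (a : K)) = ι (a : K) := by
      intro a
      have h1 := hι₂ (h₁.incl a)
      rw [h₁.coe_incl, hqO, hV.coe_incl] at h1
      exact h1
    intro a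
    rcases O.mem_or_inv_mem a with h | h
    · exact hO ⟨a, h⟩
    · have h1 := hO ⟨a⁻¹, h⟩
      simp only [map_inv₀] at h1
      exact inv_injective h1
  have h₂ : ValuedExt O₁ ι₂ V := by
    refine ⟨?_, ?_⟩
    · ext x
      rw [ValuationSubring.mem_comap]
      constructor
      · intro hx
        by_contra hxO
        have hxi : x⁻¹ ∈ O₁ := (O₁.mem_or_inv_mem x).resolve_left hxO
        have hx0 : x ≠ 0 := by
          rintro rfl
          exact hxO O₁.zero_mem
        have hnu : ¬IsUnit (⟨x⁻¹, hxi⟩ : O₁) := by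
          rintro ⟨w, hw⟩
          apply hxO
          have h1 : ((w⁻¹ : O₁ˣ) : O₁) * ⟨x⁻¹, hxi⟩ = 1 := by
            rw [← hw, Units.inv_mul]
          have h2 := congrArg (Subtype.val : O₁ → C₁) h1
          have h3 : (((w⁻¹ : O₁ˣ) : O₁) : C₁) * x⁻¹ = 1 := h2
          have h4 : (((w⁻¹ : O₁ˣ) : O₁) : C₁) = x := by
            rw [mul_inv_eq_one₀ hx0] at h3
            exact h3
          rw [← h4]
          exact ((w⁻¹ : O₁ˣ) : O₁).2
        obtain ⟨n, c, hc⟩ := hrank _ hnu
        have h1 : (q ⟨x⁻¹, hxi⟩) * (⟨ι₂ x, hx⟩ : V) = 1 := by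
          apply Subtype.ext
          change (q ⟨x⁻¹, hxi⟩ : C) * ι₂ x = 1
          rw [← hι₂, ← map_mul]
          change ι₂ (x⁻¹ * x) = 1
          rw [inv_mul_cancel₀ hx0, map_one]
        have h2 : IsUnit (q ⟨x⁻¹, hxi⟩) := IsUnit.of_mul_eq_one _ h1
        have h3 : (p : V) ∣ (q ⟨x⁻¹, hxi⟩) ^ n := by
          refine ⟨q c, ?_⟩
          rw [← map_pow, hc, map_mul, map_natCast]
        exact (Fact.out : ¬IsUnit (p : V)) (isUnit_of_dvd_unit h3 (h2.pow n))
      · intro hx
        have h1 := hι₂ ⟨x, hx⟩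
        change ι₂ x ∈ V
        rw [show ι₂ x = (q ⟨x, hx⟩ : C) from h1]
        exact (q ⟨x, hx⟩).2
    · intro y hy
      obtain ⟨a, ha, haV⟩ := hV.cont y hy
      refine ⟨ι₁ a, (map_ne_zero ι₁).mpr ha, ?_⟩
      rw [hcomp]
      exact haV
  refine ⟨ι₂, h₂, RingHom.ext hcomp, ?_⟩
  have hincl : ∀ x : O₁, h₂.incl x = q x := by
    intro x
    apply Subtype.ext
    rw [h₂.coe_incl, hι₂]
  ext y
  apply preTilt_ext
  intro n
  rw [← mk_untilt_rt, ← mk_untilt_rt, ← map_rt (tmap h₂.incl), ← map_rt jp, untilt_tmap, hincl, hqT]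

end Pool.Agent.DC
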