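import Pool.Agent.DC.StmtsG

/-! Module RESU: the restriction map of adic projective spaces is continuous. -/

set_option autoImplicit false

noncomputable section

namespace Pool.Agent.DC

open scoped Classical
open Pool.Agent.LibDb3ab1

universe u

namespace RESUX

open MvPolynomial

variable {K C₁ : Type u} [Field K] [Field C₁] {O : ValuationSubring K} {O₁ : ValuationSubring C₁}
  {ι₁ : K →+* C₁}

theorem comp {L : Type u} [Field L] {ι₂ : C₁ →+* L} {V : ValuationSubring L}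
    (h₁ : ValuedExt O ι₁ O₁) (h₂ : ValuedExt O₁ ι₂ V) : ValuedExt O (ι₂.comp ι₁) V := by
  refine ⟨?_, ?_⟩
  · rw [← h₁.comap_eq, ← h₂.comap_eq]
    ext x
    simp [ValuationSubring.mem_comap]
  · intro x hx
    obtain ⟨a, ha0, ha⟩ := h₂.cont x hx
    obtain ⟨b, hb0, hb⟩ := h₁.cont a ha0
    refine ⟨b, hb0, ?_⟩
    have h3 : ι₂ (ι₁ b / a) ∈ V := by
      have : ι₁ b / a ∈ V.comap ι₂ := by rw [h₂.comap_eq]; exact hb
      exact this
    have h4 : (ι₂.comp ι₁) b / x = ι₂ (ι₁ b / a) * (ι₂ a / x) := by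
      have h5 : ι₂ a ≠ 0 := (map_ne_zero ι₂).2 ha0
      rw [map_div₀, RingHom.comp_apply]
      field_simp
    rw [h4]
    exact V.mul_mem _ _ h3 ha

/-- restriction of a relation -/
def resRel (ι₁ : K →+* C₁) {n : ℕ}
    (R : Set (MvPolynomial (Fin (n + 1)) C₁ × MvPolynomial (Fin (n + 1)) C₁)) :
    Set (MvPolynomial (Fin (n + 1)) K × MvPolynomial (Fin (n + 1)) K) :=
  {q | ∃ d, q.1.IsHomogeneous d ∧ q.2.IsHomogeneous d ∧ (map ι₁ q.1, map ι₁ q.2) ∈ R}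

theorem resRel_pointRel {n : ℕ} {L : Type u} [Field L] (ι₂ : C₁ →+* L) (V : ValuationSubring L)
    (x : Fin (n + 1) → L) :
    resRel ι₁ (pointRel ι₂ V x) = pointRel (ι₂.comp ι₁) V x := by
  ext ⟨F, G⟩
  constructor
  · rintro ⟨d, hF, hG, d', -, -, h⟩
    refine ⟨d, hF, hG, ?_⟩
    rw [eval₂_map, eval₂_map] at h
    exact h
  · rintro ⟨d, hF, hG, h⟩
    refine ⟨d, hF, hG, d, hF.map _, hG.map _, ?_⟩
    rw [eval₂_map, eval₂_map]
    exact h

/-- the restriction map -/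
def res (h₁ : ValuedExt O ι₁ O₁) {n : ℕ} (a : AdicProj O₁ n) : AdicProj O n :=
  ⟨resRel ι₁ a.1, by
    obtain ⟨L, _, ι₂, V, x, hV, hx, ha⟩ := a.2
    exact ⟨L, _, ι₂.comp ι₁, V, x, comp h₁ hV, hx, by rw [ha, resRel_pointRel]⟩⟩

theorem res_continuous (h₁ : ValuedExt O ι₁ O₁) {n : ℕ} :
    Continuous (res (O := O) (O₁ := O₁) h₁ (n := n)) := by
  rw [continuous_generateFrom_iff]
  rintro _ ⟨d, F, G, hF, hG, rfl⟩
  have h0 : (res (O := O) (O₁ := O₁) h₁ (n := n)) ⁻¹'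
      {a : AdicProj O n | (F, G) ∈ a.1 ∧ (G, 0) ∉ a.1}
      = {a : AdicProj O₁ n | (map ι₁ F, map ι₁ G) ∈ a.1 ∧ (map ι₁ G, 0) ∉ a.1} := by
    ext a
    have e1 : (F, G) ∈ (res (O := O) (O₁ := O₁) h₁ a).1 ↔ (map ι₁ F, map ι₁ G) ∈ a.1 := by
      constructor
      · rintro ⟨_, _, _, h⟩; exact h
      · intro h; exact ⟨d, hF, hG, h⟩
    have e2 : (G, 0) ∈ (res (O := O) (O₁ := O₁) h₁ a).1 ↔ (map ι₁ G, 0) ∈ a.1 := by
      constructor
      · rintro ⟨_, _, _, h⟩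
        rw [map_zero] at h
        exact h
      · intro h
        refine ⟨d, hG, isHomogeneous_zero _ _ _, ?_⟩
        rw [map_zero]
        exact h
    rw [Set.mem_preimage, Set.mem_setOf_eq, Set.mem_setOf_eq, e1, e2]
  rw [h0]
  exact TopologicalSpace.isOpen_generateFrom_of_mem ⟨d, _, _, hF.map _, hG.map _, rfl⟩

end RESUX

open RESUX MvPolynomial in
theorem resu_proof : Stmt_Resu.{u} := by
  intro K C₁ _ _ O O₁ ι₁ h₁ n U hU
  refine ⟨res h₁ ⁻¹' U, hU.preimage (res_continuous h₁), ?_, ?_⟩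
  · intro I hI a ha
    refine hI fun F hF d hd => ?_
    refine ⟨d, hd, isHomogeneous_zero _ _ _, ?_⟩
    have := ha (MvPolynomial.map ι₁ F) (Ideal.mem_map_of_mem _ hF) d (hd.map _)
    rw [map_zero]
    exact this
  · rintro L _ ι₂ V x ⟨a, ha, hax⟩
    refine ⟨res h₁ a, ha, ?_⟩
    change resRel ι₁ a.1 = _
    rw [hax, resRel_pointRel]

end Pool.Agent.DC
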