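import Pool.Agent.DC.Final
import Pool.Agent.DC.MainG
import Pool.Agent.DC.HomMap
import Pool.Agent.DC.VAC
import Pool.Agent.DC.CLA
import Pool.Agent.DC.CLB
import Pool.Agent.DC.CLC
import Pool.Agent.DC.CLD
import Pool.Agent.DC.CLR
import Pool.Agent.DC.DENS
import Pool.Agent.DC.DESC
import Pool.Agent.DC.DIMF
import Pool.Agent.DC.RESU
import Pool.Agent.DC.SCX
import Pool.Agent.DC.EMB
import Pool.Agent.DC.FONT
import Pool.Agent.DC.INTG
import Pool.Agent.DC.PERT
import Pool.Agent.DC.ULTA
import Pool.Agent.DC.ULTB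
import Pool.Agent.DC.ULTC

/-!
# The theorem for curves over all perfectoid fields of characteristic zero
-/

set_option autoImplicit false

noncomputable section

namespace Pool.Agent.DC

open scoped Classical
open Pool.Agent.LibDb3ab1

universe u

/-- **Descent**: if the property asked for in the question holds for the extensions of `X` to
algebraically closed perfectoid fields, then it holds for `X`. -/
theorem descent {K : Type u} [Field K] {O : ValuationSubring K} {p : ℕ} [Fact p.Prime]
    [Fact ¬IsUnit (p : O)] [IsAdicComplete (Ideal.span {(p : O)}) O] [CharZero K]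
    (b : TB O p) {n d : ℕ} (I : Ideal (MvPolynomial (Fin (n + 1)) K))
    (hdim : ringKrullDim (MvPolynomial (Fin (n + 1)) K ⧸ I) = (d + 1 : ℕ))
    (hC : ∀ (C₁ : Type u) [Field C₁] [IsAlgClosed C₁] [CharZero C₁] (ι₁ : K →+* C₁)
      (O₁ : ValuationSubring C₁) (_h₁ : ValuedExt O ι₁ O₁) [Fact ¬IsUnit (p : O₁)]
      [IsAdicComplete (Ideal.span {(p : O₁)}) O₁] (_b₁ : TB O₁ p),
      TiltApprox p O₁ (I.map (MvPolynomial.map ι₁))) : TiltApprox p O I :=
  descend b (cla_proof O p b (scx_proof O p b)) (clb_proof O p b) (clc_proof O p b)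
    (clr_proof O p intg_proof b) (cld_proof O p b) (emb_proof O p b intg_proof (scx_proof O p b))
    (font_proof O p b) (fun _ _ _ O₁ _ _ b₁ => tn_proof O₁ p b₁ (pux_proof O₁ p b₁))
    (ultc_proof ulta_proof ultb_proof) resu_proof (desc_proof homext_proof)
    (pert_proof (dens_proof homext_proof)) vac_proof (dim_le I hdim) I hdim
    (fun C₁ _ ι₁ => (dimf_proof K C₁ ι₁ (n + 1) I).trans hdim) hC

/-- The property asked for in the question holds for all curves over all perfectoid fields of
characteristic zero. -/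
theorem curves_all {K : Type u} [Field K] {O : ValuationSubring K} {p : ℕ} [Fact p.Prime]
    [Fact ¬IsUnit (p : O)] [IsAdicComplete (Ideal.span {(p : O)}) O] [CharZero K]
    (b : TB O p) {n : ℕ} (I : Ideal (MvPolynomial (Fin (n + 1)) K))
    (hI : ∀ F ∈ I, ∀ m, MvPolynomial.homogeneousComponent m F ∈ I)
    (hdim : ringKrullDim (MvPolynomial (Fin (n + 1)) K ⧸ I) = 2) : TiltApprox p O I :=
  descent b (d := 1) I (by rw [hdim]; norm_num) fun C₁ _ _ _ ι₁ _ _ _ _ b₁ =>
    curves b₁ (I.map (MvPolynomial.map ι₁)) (hom_map ι₁ I hI)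
      ((dimf_proof K C₁ ι₁ (n + 1) I).trans hdim)

end Pool.Agent.DC
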