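import Pool.Agent.DC.StmtsB

/-!
# APPROX: existence of approximations
-/

set_option autoImplicit false
set_option linter.unusedSectionVars false

noncomputable section

namespace Pool.Agent.DC

open Pool.Agent.LibDb3ab1

universe u

namespace APPROX

theorem coeff_pow_char {R σ : Type*} [CommRing R] (p : ℕ) [Fact p.Prime] [CharP R p] (J : ℕ)
    (f : MvPolynomial σ R) (I : σ →₀ ℕ) :
    (f ^ p ^ J).coeff (p ^ J • I) = f.coeff I ^ p ^ J := by
  classical
  have hp : p ^ J ≠ 0 := pow_ne_zero _ (Fact.out : p.Prime).ne_zero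
  have h1 : f ^ p ^ J = ∑ I ∈ f.support, MvPolynomial.monomial (p ^ J • I)
      (f.coeff I ^ p ^ J) := by
    conv_lhs => rw [f.as_sum]
    rw [← iterateFrobenius_def, map_sum]
    apply Finset.sum_congr rfl
    intro I _
    rw [iterateFrobenius_def, MvPolynomial.monomial_pow]
  rw [h1, MvPolynomial.coeff_sum]
  simp only [MvPolynomial.coeff_monomial]
  have h2 : ∀ I' : σ →₀ ℕ, p ^ J • I' = p ^ J • I ↔ I' = I := by
    intro I'
    constructor
    · intro h
      ext i
      have := DFunLike.congr_fun h i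
      simp only [Finsupp.smul_apply, smul_eq_mul] at this
      exact Nat.eq_of_mul_eq_mul_left (Nat.pos_of_ne_zero hp) this
    · rintro rfl; rfl
  simp only [h2]
  rw [Finset.sum_ite_eq']
  split_ifs with h
  · rfl
  · rw [MvPolynomial.notMem_support_iff.mp h, zero_pow hp]

theorem isUnit_add_mul {T : Type*} [CommRing T] [IsLocalRing T] {a c d : T} (ha : IsUnit a)
    (hc : ¬IsUnit c) : IsUnit (a + c * d) := by
  by_contra h
  have h1 : a + c * d ∈ IsLocalRing.maximalIdeal T := (IsLocalRing.mem_maximalIdeal _).mpr h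
  have h2 : c * d ∈ IsLocalRing.maximalIdeal T :=
    Ideal.mul_mem_right _ _ ((IsLocalRing.mem_maximalIdeal _).mpr hc)
  have h3 : a ∈ IsLocalRing.maximalIdeal T := by
    have := Ideal.sub_mem _ h1 h2
    rwa [add_sub_cancel_right] at this
  exact (IsLocalRing.mem_maximalIdeal _).mp h3 ha

end APPROX

open APPROX

variable {K : Type u} [Field K] (O : ValuationSubring K) (p : ℕ) [Fact p.Prime]
  [Fact ¬IsUnit (p : O)] [IsAdicComplete (Ideal.span {(p : O)}) O]

theorem approx_proof (b : TB O p) : Stmt_Approx O p b := by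
  intro σ _ w e M F he hF
  have hpp : p ≠ 0 := (Fact.out : p.Prime).ne_zero
  have hp0 : (p : O) ≠ 0 := by
    intro h
    apply b.hp0
    have := congrArg O.subtype h
    rwa [map_natCast, map_zero] at this
  have hϖ0 : b.ϖ ≠ 0 := by
    intro h
    have h1 := b.hϖ
    rw [h, untilt_zero, mul_zero] at h1
    exact hp0 h1
  have hϖu : ¬IsUnit b.ϖ := by
    intro h
    apply (Fact.out : ¬IsUnit (p : O))
    rw [b.hϖ]
    exact b.hu.mul (isUnit_untilt.mpr h)
  obtain ⟨υ, ξ, hυ, hξ, hθ, -⟩ := exists_xi b.hF b.hu b.hϖ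
  have hsurj := surjective_fontaineTheta (R := O) (p := p) b.hF
  obtain ⟨Ft, hFt1, hFt2⟩ := exists_lift_poly (WittVector.fontaineTheta O p) hsurj F
  have hFtH := lift_homogeneous hFt2 hF
  obtain ⟨J, G, h1, ⟨N, ω', T, hω, hG⟩, h3⟩ :=
    approx_witt (κ := Unit) (w := fun _ => w) (e := fun _ => e) ⟨(), he⟩ hξ (fun _ => hFtH) M
  refine ⟨G, ⟨⟨J, h1 (), ?_⟩, ?_⟩⟩
  · intro τ a hu
    have hX : IsUnit ((MvPolynomial.map WittVector.constantCoeff Ft).coeff
        (Finsupp.single τ a)) := by
      rw [MvPolynomial.coeff_map]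
      apply isUnit_of_untilt
      have h4 : WittVector.fontaineTheta O p (Ft.coeff (Finsupp.single τ a)) =
          F.coeff (Finsupp.single τ a) := by
        rw [← hFt1, MvPolynomial.coeff_map]
      have h5 := WittVector.mk_fontaineTheta (R := O) (p := p) (Ft.coeff (Finsupp.single τ a))
      rw [h4] at h5
      have h6 : (p : O) ∣ F.coeff (Finsupp.single τ a) -
          PreTilt.untilt ((Ft.coeff (Finsupp.single τ a)).coeff 0) := by
        apply dvd_of_mk_eq (p := p) h5
        rw [PreTilt.mk_untilt_eq_coeff_zero]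
      obtain ⟨c, hc⟩ := h6
      rw [WittVector.constantCoeff_apply]
      have h7 : PreTilt.untilt ((Ft.coeff (Finsupp.single τ a)).coeff 0) =
          F.coeff (Finsupp.single τ a) + (p : O) * (-c) := by linear_combination -hc
      rw [h7]
      exact isUnit_add_mul hu Fact.out
    have hωu : ¬IsUnit ω' := by
      intro h
      apply hϖu
      rw [← hω]
      exact h.pow _
    have h8 : Finsupp.single τ (a * p ^ J) = p ^ J • Finsupp.single τ a := by
      rw [Finsupp.smul_single, smul_eq_mul, mul_comm]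
    rw [hG, MvPolynomial.coeff_add, h8, coeff_pow_char, MvPolynomial.coeff_C_mul]
    exact isUnit_add_mul (hX.pow _) hωu
  · intro C _ ι V hV _ _ y hy
    rw [← hFt1]
    apply dvd_of_witt hV.incl b.hϖ b.hu hθ y Ft M
    exact h3 (PreTilt V p) (tmap hV.incl)
      (fun h => hϖ0 (tmap_injective hV (h.trans (map_zero _).symm))) y hy

end Pool.Agent.DC
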