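import Pool.Agent.DC.StmtsE

set_option autoImplicit false
set_option linter.unusedSectionVars false

noncomputable section

namespace Pool.Agent.DC.BIR

open scoped Classical

universe u

section prim

variable {K : Type u} [Field K] [CharZero K]

open IntermediateField in
/-- the field part: a linear combination of the generators is a primitive element. -/
theorem prim_field (P S : Type u) [CommRing P] [IsDomain P] [CommRing S]
    [IsDomain S] [Algebra K P] [Algebra K S] [Algebra P S] [IsScalarTower K P S]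
    (hinj : Function.Injective (algebraMap P S)) {N : ℕ} (x : Fin N → S)
    (hx : ∀ i, IsIntegral P (x i)) (hgen : Algebra.adjoin K (Set.range x) = ⊤) :
    ∃ (τ : Fin N → K) (Δ : P), Δ ≠ 0 ∧ ∃ A : Fin N → Polynomial P, ∀ i,
      Polynomial.aeval (∑ j, τ j • x j) (A i) = algebraMap P S Δ * x i := by
  let E₀ := FractionRing P
  let E := FractionRing S
  have : FaithfulSMul P S := (faithfulSMul_iff_algebraMap_injective P S).2 hinj
  have : FaithfulSMul P E := by
    rw [faithfulSMul_iff_algebraMap_injective, IsScalarTower.algebraMap_eq P S E]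
    exact (IsFractionRing.injective S E).comp hinj
  let : Algebra E₀ E := FractionRing.liftAlgebra P E
  have : IsScalarTower P E₀ E := FractionRing.isScalarTower_liftAlgebra P E
  have : IsScalarTower K E₀ E := by
    refine IsScalarTower.of_algebraMap_eq fun a => ?_
    rw [IsScalarTower.algebraMap_apply K P E₀, ← IsScalarTower.algebraMap_apply P E₀ E,
      IsScalarTower.algebraMap_apply P S E, ← IsScalarTower.algebraMap_apply K P S,
      ← IsScalarTower.algebraMap_apply K S E]
  let y : Fin N → E := fun i => algebraMap S E (x i)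
  have hy : ∀ i, IsIntegral E₀ (y i) := fun i => by
    have h1 : IsIntegral P (y i) := (hx i).map (IsScalarTower.toAlgHom P S E)
    exact h1.tower_top
  have htop : IntermediateField.adjoin E₀ (Set.range y) = ⊤ := by
    rw [eq_top_iff]
    have hS : ∀ s : S, algebraMap S E s ∈ IntermediateField.adjoin E₀ (Set.range y) := by
      intro s
      have hs : s ∈ Algebra.adjoin K (Set.range x) := by rw [hgen]; exact Algebra.mem_top
      induction hs using Algebra.adjoin_induction with
      | mem s hs =>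
        obtain ⟨i, rfl⟩ := hs
        exact IntermediateField.subset_adjoin _ _ ⟨i, rfl⟩
      | algebraMap r =>
        rw [← IsScalarTower.algebraMap_apply K S E, IsScalarTower.algebraMap_apply K E₀ E]
        exact IntermediateField.algebraMap_mem _ _
      | add s t _ _ hs ht => rw [map_add]; exact add_mem hs ht
      | mul s t _ _ hs ht => rw [map_mul]; exact mul_mem hs ht
    intro z _
    obtain ⟨s, t, _, rfl⟩ := IsFractionRing.div_surjective (A := S) z
    exact div_mem (hS s) (hS t)
  have hfd : FiniteDimensional E₀ E := by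
    have h1 : FiniteDimensional E₀ (IntermediateField.adjoin E₀ (Set.range y)) :=
      IntermediateField.finiteDimensional_adjoin (by rintro _ ⟨i, rfl⟩; exact hy i)
    rw [htop] at h1
    exact Module.Finite.equiv (IntermediateField.topEquiv (F := E₀) (E := E)).toLinearEquiv
  have : CharZero P := charZero_of_injective_algebraMap (algebraMap K P).injective
  have : CharZero E₀ := charZero_of_injective_algebraMap (IsFractionRing.injective P E₀)
  let C := AlgebraicClosure E₀
  -- the primitive element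
  obtain ⟨τ, hτ⟩ : ∃ τ : Fin N → K, E₀⟮algebraMap S E (∑ j, τ j • x j)⟯ = ⊤ := by
    by_contra hcon
    push Not at hcon
    let J := {pq : (E →ₐ[E₀] C) × (E →ₐ[E₀] C) // pq.1 ≠ pq.2}
    have : Finite J := inferInstance
    let W : J → Subspace K (Fin N → K) := fun pq =>
      LinearMap.ker (Fintype.linearCombination K (fun i => pq.1.1 (y i) - pq.1.2 (y i)))
    have hmem : ∀ (pq : J) (τ : Fin N → K), τ ∈ W pq ↔
        ∑ i, τ i • (pq.1.1 (y i) - pq.1.2 (y i)) = 0 := by
      intro pq τ
      rw [LinearMap.mem_ker, Fintype.linearCombination_apply]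
    have hU : ⋃ pq, (W pq : Set (Fin N → K)) = Set.univ := by
      rw [Set.eq_univ_iff_forall]
      intro τ
      have h1 := hcon τ
      rw [Ne, Field.primitive_element_iff_algHom_eq_of_eval' E₀ C
        (fun z => IsAlgClosed.splits _), Function.Injective] at h1
      push Not at h1
      obtain ⟨φ, ψ, he, hne⟩ := h1
      rw [Set.mem_iUnion]
      refine ⟨⟨(φ, ψ), hne⟩, ?_⟩
      rw [SetLike.mem_coe, hmem]
      simp only at he ⊢
      have hlin : ∀ θ : E →ₐ[E₀] C, θ (algebraMap S E (∑ j, τ j • x j)) =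
          ∑ j, τ j • θ (y j) := by
        intro θ
        rw [map_sum, map_sum]
        refine Finset.sum_congr rfl fun j _ => ?_
        have h2 : algebraMap S E (τ j • x j) = τ j • y j := by
          rw [Algebra.smul_def, map_mul, ← IsScalarTower.algebraMap_apply K S E, Algebra.smul_def]
        rw [h2]
        have h3 : τ j • y j = (algebraMap K E₀ (τ j)) • y j := by
          rw [algebraMap_smul]
        rw [h3, map_smul, algebraMap_smul]
      rw [hlin, hlin] at he
      have : ∑ i, τ i • (φ (y i) - ψ (y i)) = ∑ i, τ i • φ (y i) - ∑ i, τ i • ψ (y i) := by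
        rw [← Finset.sum_sub_distrib]
        exact Finset.sum_congr rfl fun i _ => smul_sub _ _ _
      rw [this, he, sub_self]
    obtain ⟨pq, hpq⟩ := Subspace.exists_eq_top_of_iUnion_eq_univ hU
    apply pq.2
    refine AlgHom.ext fun z => ?_
    have hall : ∀ i, pq.1.1 (y i) = pq.1.2 (y i) := by
      intro i
      have h1 : (Pi.single i 1 : Fin N → K) ∈ W pq := by rw [hpq]; exact Submodule.mem_top
      rw [hmem] at h1
      rw [Finset.sum_eq_single i (fun j _ hj => by rw [Pi.single_eq_of_ne hj, zero_smul])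
        (fun h => absurd (Finset.mem_univ i) h), Pi.single_eq_same, one_smul] at h1
      exact sub_eq_zero.1 h1
    have hz : z ∈ IntermediateField.adjoin E₀ (Set.range y) := by
      rw [htop]; exact IntermediateField.mem_top
    induction hz using IntermediateField.adjoin_induction with
    | mem z hz => obtain ⟨i, rfl⟩ := hz; exact hall i
    | algebraMap r => rw [AlgHom.commutes, AlgHom.commutes]
    | add a b _ _ ha hb => rw [map_add, map_add, ha, hb]
    | mul a b _ _ ha hb => rw [map_mul, map_mul, ha, hb]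
    | inv a _ ha => rw [map_inv₀, map_inv₀, ha]
  set T : S := ∑ j, τ j • x j with hT
  set T' : E := algebraMap S E T with hT'
  -- each generator is a polynomial in T'
  have hpoly : ∀ i, ∃ p : Polynomial E₀, Polynomial.aeval T' p = y i := by
    intro i
    have h1 : y i ∈ E₀⟮T'⟯ := by rw [hτ]; exact IntermediateField.mem_top
    have h2 : y i ∈ (E₀⟮T'⟯).toSubalgebra := h1
    rw [IntermediateField.adjoin_simple_toSubalgebra_of_isAlgebraic
      (IsIntegral.of_finite E₀ T').isAlgebraic, Algebra.adjoin_singleton_eq_range_aeval] at h2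
    exact h2
  choose p hp using hpoly
  have hden : ∀ i, ∃ b : P, b ≠ 0 ∧ ∃ q : Polynomial P,
      q.map (algebraMap P E₀) = b • p i := by
    intro i
    obtain ⟨b, hb1, hb⟩ := IsLocalization.integerNormalization_spec (nonZeroDivisors P) (p i)
    exact ⟨b, nonZeroDivisors.ne_zero hb1, _, hb⟩
  choose b hb0 q hq using hden
  refine ⟨τ, ∏ i, b i, Finset.prod_ne_zero_iff.2 (fun i _ => hb0 i),
    fun i => Polynomial.C (∏ j ∈ Finset.univ.erase i, b j) * q i, fun i => ?_⟩
  apply IsFractionRing.injective S E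
  have h1 : Polynomial.aeval T' (q i) = algebraMap P E (b i) * y i := by
    have h2 : Polynomial.aeval T' ((q i).map (algebraMap P E₀)) = Polynomial.aeval T' (q i) :=
      Polynomial.aeval_map_algebraMap E₀ T' (q i)
    rw [← h2, hq, ← algebraMap_smul E₀ (b i) (p i), map_smul, hp, Algebra.smul_def,
      ← IsScalarTower.algebraMap_apply P E₀ E]
  rw [← Polynomial.aeval_algebraMap_apply, ← hT', map_mul, Polynomial.aeval_C, h1, map_mul,
    ← mul_assoc, ← map_mul, Finset.prod_erase_mul _ _ (Finset.mem_univ i),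
    ← IsScalarTower.algebraMap_apply P S E]

end prim



section graded

open MvPolynomial

variable {K : Type u} [Field K]

theorem hc_aeval {σ τ : Type} (g : σ → MvPolynomial τ K)
    (hg : ∀ i, (g i).IsHomogeneous 1) (G : MvPolynomial σ K) (m : ℕ) :
    homogeneousComponent m (aeval g G) = aeval g (homogeneousComponent m G) := by
  induction G using MvPolynomial.induction_on' with
  | monomial s a =>
    have h1 : (monomial s a : MvPolynomial σ K).IsHomogeneous s.degree :=
      isHomogeneous_monomial a rfl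
    have h2 : (aeval g (monomial s a)).IsHomogeneous s.degree := by
      have := h1.aeval g hg
      rwa [one_mul] at this
    rw [homogeneousComponent_of_mem (m := m) (mem_homogeneousSubmodule _ _ |>.2 h2),
      homogeneousComponent_of_mem (m := m) (mem_homogeneousSubmodule _ _ |>.2 h1)]
    split_ifs
    · rfl
    · rw [map_zero]
  | add p q hp hq => rw [map_add, map_add, map_add, map_add, hp, hq]

theorem hc_mul {τ : Type} (x : MvPolynomial τ K) (hx : x.IsHomogeneous 1)
    (G : MvPolynomial τ K) (m : ℕ) :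
    homogeneousComponent (m + 1) (G * x) = homogeneousComponent m G * x := by
  induction G using MvPolynomial.induction_on' with
  | monomial s a =>
    have h1 : (monomial s a : MvPolynomial τ K).IsHomogeneous s.degree :=
      isHomogeneous_monomial a rfl
    have h2 : (monomial s a * x).IsHomogeneous (s.degree + 1) := h1.mul hx
    rw [homogeneousComponent_of_mem (m := m + 1) (mem_homogeneousSubmodule _ _ |>.2 h2),
      homogeneousComponent_of_mem (m := m) (mem_homogeneousSubmodule _ _ |>.2 h1)]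
    by_cases h : m = s.degree
    · rw [if_pos h, if_pos (by rw [h])]
    · rw [if_neg h, if_neg (fun h' => h (by omega)), zero_mul]
  | add p q hp hq => rw [add_mul, map_add, map_add, hp, hq, add_mul]

/-- the value of a homogeneous polynomial at `e_j` is its coefficient. -/
theorem coeff_eq_eval {r : ℕ} (j : Fin r) {m : ℕ} {G : MvPolynomial (Fin r) K}
    (hG : G.IsHomogeneous m) :
    G.coeff (Finsupp.single j m) = eval (fun i => if i = j then (1 : K) else 0) G := by
  rw [eval_eq]
  symm
  have hprod : ∏ i ∈ (Finsupp.single j m).support,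
      (fun i => if i = j then (1 : K) else 0) i ^ (Finsupp.single j m) i = 1 := by
    refine Finset.prod_eq_one fun i hi => ?_
    have : i = j := by
      have := Finsupp.support_single_subset hi
      simpa using this
    simp [this]
  rw [Finset.sum_eq_single (Finsupp.single j m)]
  · rw [hprod, mul_one]
  · intro b hb hne
    have hdeg : b.degree = m := by
      have := hG (mem_support_iff.1 hb)
      rwa [Finsupp.degree_eq_weight_one]
    have hex : ∃ i, i ≠ j ∧ b i ≠ 0 := by
      by_contra hcon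
      push Not at hcon
      apply hne
      have hbj : b = Finsupp.single j (b j) := by
        ext i
        by_cases hij : i = j
        · rw [hij, Finsupp.single_eq_same]
        · rw [hcon i hij, Finsupp.single_eq_of_ne hij]
      rw [hbj, Finsupp.degree_single] at hdeg
      rw [hbj, hdeg]
    obtain ⟨i, hij, hbi⟩ := hex
    rw [Finset.prod_eq_zero (Finsupp.mem_support_iff.2 hbi), mul_zero]
    simp [hij, hbi]
  · intro h
    rw [notMem_support_iff.1 h, zero_mul]

/-- homogeneous polynomials and scaling -/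
theorem aeval_scale {σ : Type} {S : Type u} [CommRing S] [Algebra K S] (a : S) (x : σ → S)
    {d : ℕ} {P : MvPolynomial σ K} (hP : P.IsHomogeneous d) :
    aeval (fun i => a * x i) P = a ^ d * aeval x P := by
  rw [aeval_def, aeval_def, eval₂_eq, eval₂_eq, Finset.mul_sum]
  refine Finset.sum_congr rfl fun s hs => ?_
  have hdeg : s.degree = d := by
    have := hP (mem_support_iff.1 hs)
    rwa [Finsupp.degree_eq_weight_one]
  have h1 : ∏ i ∈ s.support, (a * x i) ^ s i = a ^ d * ∏ i ∈ s.support, x i ^ s i := by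
    have h5 : s.degree = ∑ i ∈ s.support, s i := rfl
    rw [← hdeg, h5, ← Finset.prod_pow_eq_pow_sum, ← Finset.prod_mul_distrib]
    exact Finset.prod_congr rfl fun i _ => mul_pow _ _ _
  rw [h1]
  ring

/-- polynomials in three variables as polynomials in the last variable -/
def eq3 (K : Type u) [Field K] :
    MvPolynomial (Fin 3) K ≃ₐ[K] Polynomial (MvPolynomial (Fin 2) K) :=
  (renameEquiv K (finRotate 3)).trans (finSuccEquiv K 2)

theorem eq3_X0 : eq3 K (X 0) = Polynomial.C (X 0) := by
  change finSuccEquiv K 2 (rename (finRotate 3) (X 0)) = _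
  rw [rename_X]
  exact finSuccEquiv_X_succ (j := 0)

theorem eq3_X1 : eq3 K (X 1) = Polynomial.C (X 1) := by
  change finSuccEquiv K 2 (rename (finRotate 3) (X 1)) = _
  rw [rename_X]
  exact finSuccEquiv_X_succ (j := 1)

theorem eq3_X2 : eq3 K (X 2) = Polynomial.X := by
  change finSuccEquiv K 2 (rename (finRotate 3) (X 2)) = _
  rw [rename_X]
  exact finSuccEquiv_X_zero

theorem coeff_eq3 (G : MvPolynomial (Fin 3) K) (i : ℕ) :
    MvPolynomial.coeff 0 ((eq3 K G).coeff i) = G.coeff (Finsupp.single 2 i) := by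
  change MvPolynomial.coeff 0 ((finSuccEquiv K 2 (rename (finRotate 3) G)).coeff i) = _
  rw [finSuccEquiv_coeff_coeff]
  have h : (Finsupp.cons i (0 : Fin 2 →₀ ℕ) : Fin 3 →₀ ℕ) =
      Finsupp.mapDomain (finRotate 3) (Finsupp.single 2 i) := by
    rw [Finsupp.mapDomain_single]
    have h2 : finRotate 3 2 = 0 := rfl
    rw [h2]
    ext j
    refine Fin.cases ?_ (fun j => ?_) j
    · simp
    · simp [Fin.succ_ne_zero j]
  rw [h, coeff_rename_mapDomain _ (finRotate 3).injective]

theorem hom_eq3 {G : MvPolynomial (Fin 3) K} {m : ℕ} (hG : G.IsHomogeneous m) :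
    (eq3 K G).natDegree ≤ m ∧ ∀ i j, i + j = m → ((eq3 K G).coeff i).IsHomogeneous j := by
  have h1 : (rename (finRotate 3) G).IsHomogeneous m := hG.rename_isHomogeneous
  constructor
  · change (finSuccEquiv K 2 (rename (finRotate 3) G)).natDegree ≤ m
    rw [natDegree_finSuccEquiv]
    exact (degreeOf_le_totalDegree _ _).trans h1.totalDegree_le
  · intro i j hij
    exact h1.finSuccEquiv_coeff_isHomogeneous i j hij

theorem monic_eq3 {G : MvPolynomial (Fin 3) K} {m : ℕ} (hG : G.IsHomogeneous m)
    (h1 : G.coeff (Finsupp.single 2 m) = 1) :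
    (eq3 K G).Monic ∧ (eq3 K G).natDegree = m := by
  obtain ⟨hd, hc⟩ := hom_eq3 hG
  have h2 : (eq3 K G).coeff m = 1 := by
    have h3 := hc m 0 (add_zero m)
    have h4 := totalDegree_eq_zero_iff_eq_C.1 (Nat.le_zero.1 h3.totalDegree_le)
    rw [h4, coeff_eq3, h1, map_one]
  have h5 := Polynomial.monic_of_natDegree_le_of_coeff_eq_one m hd h2
  refine ⟨h5, le_antisymm hd ?_⟩
  apply Polynomial.le_natDegree_of_ne_zero
  rw [h2]
  exact one_ne_zero

end graded

section core

open MvPolynomial

variable {K : Type u} [Field K] [CharZero K]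

/-- the data of the plane model before the shear. -/
theorem core {n : ℕ} (𝔮 : Ideal (MvPolynomial (Fin (n + 1)) K)) [𝔮.IsPrime]
    (hhom : ∀ F ∈ 𝔮, ∀ m, homogeneousComponent m F ∈ 𝔮)
    (L : Fin 2 → MvPolynomial (Fin (n + 1)) K) (hL : ∀ j, (L j).IsHomogeneous 1)
    (hinj : ∀ g : MvPolynomial (Fin 2) K, aeval L g ∈ 𝔮 → g = 0)
    (hint : ∀ i, ∃ (e : ℕ) (f : MvPolynomial (Fin 3) K), 0 < e ∧ f.IsHomogeneous e ∧
      f.coeff (Finsupp.single 2 e) = 1 ∧ aeval ![L 0, L 1, X i] f ∈ 𝔮) :
    ∃ (m : ℕ) (F : MvPolynomial (Fin 3) K) (T : MvPolynomial (Fin (n + 1)) K) (D : ℕ)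
      (Δ : MvPolynomial (Fin 2) K) (A : Fin (n + 1) → MvPolynomial (Fin 3) K),
      0 < m ∧ F.IsHomogeneous m ∧ F.coeff (Finsupp.single 2 m) = 1 ∧ T.IsHomogeneous 1 ∧
      0 < D ∧ Δ.IsHomogeneous D ∧ Δ ≠ 0 ∧ (∀ i, (A i).IsHomogeneous (D + 1)) ∧
      (∀ G, aeval ![L 0, L 1, T] G ∈ 𝔮 → F ∣ G) ∧
      ∀ i, aeval ![L 0, L 1, T] (A i) - aeval L Δ * X i ∈ 𝔮 := by
  let R := MvPolynomial (Fin (n + 1)) K
  let P := MvPolynomial (Fin 2) K
  let S := R ⧸ 𝔮
  let mk : R →ₐ[K] S := Ideal.Quotient.mkₐ K 𝔮
  have hmk : ∀ r, mk r = 0 ↔ r ∈ 𝔮 := fun r => Ideal.Quotient.eq_zero_iff_mem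
  let ι : P →ₐ[K] S := mk.comp (aeval L)
  let _ : Algebra P S := ι.toRingHom.toAlgebra
  have halg : ∀ g : P, algebraMap P S g = mk (aeval L g) := fun g => rfl
  have _ : IsScalarTower K P S := IsScalarTower.of_algebraMap_eq fun a => by
    rw [halg]
    exact (ι.commutes a).symm
  have hPS : Function.Injective (algebraMap P S) := by
    rw [injective_iff_map_eq_zero]
    intro g hg
    rw [halg, hmk] at hg
    exact hinj g hg
  -- evaluation
  have hev : ∀ (Y : R) (G : MvPolynomial (Fin 3) K),
      Polynomial.aeval (mk Y) (eq3 K G) = mk (aeval ![L 0, L 1, Y] G) := by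
    intro Y G
    have : ((Polynomial.aeval (R := P) (mk Y)).restrictScalars K).comp (eq3 K).toAlgHom =
        mk.comp (aeval ![L 0, L 1, Y]) := by
      apply MvPolynomial.algHom_ext
      intro i
      change Polynomial.aeval (R := P) (mk Y) (eq3 K (X i)) = mk (aeval ![L 0, L 1, Y] (X i))
      rw [aeval_X]
      fin_cases i
      · change Polynomial.aeval (R := P) (mk Y) (eq3 K (X 0)) = mk (L 0)
        rw [eq3_X0, Polynomial.aeval_C, halg, aeval_X]
      · change Polynomial.aeval (R := P) (mk Y) (eq3 K (X 1)) = mk (L 1)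
        rw [eq3_X1, Polynomial.aeval_C, halg, aeval_X]
      · change Polynomial.aeval (R := P) (mk Y) (eq3 K (X 2)) = mk Y
        rw [eq3_X2, Polynomial.aeval_X]
    exact DFunLike.congr_fun this G
  let x : Fin (n + 1) → S := fun i => mk (X i)
  have hx : ∀ i, IsIntegral P (x i) := by
    intro i
    obtain ⟨e, f, he, hfh, hf1, hfm⟩ := hint i
    refine ⟨eq3 K f, (monic_eq3 hfh hf1).1, ?_⟩
    have := hev (X i) f
    rw [(hmk _).2 hfm] at this
    exact this
  have hgen : Algebra.adjoin K (Set.range x) = ⊤ := by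
    have h1 : Set.range x = mk '' (Set.range X) := by
      rw [← Set.range_comp]
      rfl
    rw [h1, ← AlgHom.map_adjoin, adjoin_range_X, Algebra.map_top, AlgHom.range_eq_top]
    exact Ideal.Quotient.mk_surjective
  obtain ⟨τ, Δ₀, hΔ₀, A₀, hA₀⟩ := prim_field P S hPS x hx hgen
  let T : R := ∑ j, τ j • X j
  have hTh : T.IsHomogeneous 1 := by
    refine IsHomogeneous.sum _ _ _ fun j _ => ?_
    rw [smul_eq_C_mul]
    exact (isHomogeneous_X K j).C_mul _
  have hmkT : mk T = ∑ j, τ j • x j := by
    rw [map_sum]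
    exact Finset.sum_congr rfl fun j _ => map_smul mk _ _
  have hTi : IsIntegral P (mk T) := by
    rw [hmkT]
    refine IsIntegral.sum _ fun j _ => ?_
    have h1 : τ j • x j = algebraMap K S (τ j) * x j := Algebra.smul_def (τ j) (x j)
    have h2 : algebraMap K S (τ j) = algebraMap P S (algebraMap K P (τ j)) :=
      IsScalarTower.algebraMap_apply K P S _
    rw [h1, h2]
    exact isIntegral_algebraMap.mul (hx j)
  have hG : ∀ i, (![L 0, L 1, T] i).IsHomogeneous 1 := by
    intro i
    fin_cases i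
    · exact hL 0
    · exact hL 1
    · exact hTh
  have _ : FaithfulSMul P S := (faithfulSMul_iff_algebraMap_injective P S).2 hPS
  have _ : Module.IsTorsionFree P S := inferInstance
  set f : Polynomial P := minpoly P (mk T) with hf
  have hfmon : f.Monic := minpoly.monic hTi
  have hf0 : Polynomial.aeval (mk T) f = 0 := minpoly.aeval _ _
  have hfdvd : ∀ g : Polynomial P, Polynomial.aeval (mk T) g = 0 → f ∣ g :=
    fun g hg => minpoly.isIntegrallyClosed_dvd hTi hg
  set m := f.natDegree with hm
  have hmpos : 0 < m := minpoly.natDegree_pos hTi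
  let F : MvPolynomial (Fin 3) K := (eq3 K).symm f
  have hFf : eq3 K F = f := (eq3 K).apply_symm_apply f
  have hFker : aeval ![L 0, L 1, T] F ∈ 𝔮 := by
    rw [← hmk, ← hev, hFf, hf0]
  have hFc : F.coeff (Finsupp.single 2 m) = 1 := by
    rw [← coeff_eq3, hFf, hm, hfmon.coeff_natDegree]
    simp
  have hFm : homogeneousComponent m F = F := by
    have h1 : aeval ![L 0, L 1, T] (homogeneousComponent m F) ∈ 𝔮 := by
      rw [← hc_aeval _ hG]
      exact hhom _ hFker m
    have h2 : (homogeneousComponent m F).coeff (Finsupp.single 2 m) = 1 := by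
      rw [coeff_homogeneousComponent, if_pos (Finsupp.degree_single _ _), hFc]
    obtain ⟨h3, h4⟩ := monic_eq3 (homogeneousComponent_isHomogeneous m F) h2
    have h5 : f ∣ eq3 K (homogeneousComponent m F) := by
      apply hfdvd
      rw [hev, hmk]
      exact h1
    have h6 := Polynomial.eq_of_monic_of_dvd_of_natDegree_le hfmon h3 h5 (by rw [h4])
    apply (eq3 K).injective
    rw [hFf, h6]
  have hFh : F.IsHomogeneous m := by
    rw [← hFm]
    exact homogeneousComponent_isHomogeneous m F
  have hK1 : ∀ G, aeval ![L 0, L 1, T] G ∈ 𝔮 → F ∣ G := by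
    intro G hG
    have h1 : f ∣ eq3 K G := by
      apply hfdvd
      rw [hev, hmk]
      exact hG
    rw [← hFf] at h1
    exact (map_dvd_iff (eq3 K)).1 h1
  -- the parametrisation
  let Δ₁ : P := Δ₀ * X 1
  have hΔ₁ : Δ₁ ≠ 0 := mul_ne_zero hΔ₀ (X_ne_zero 1)
  obtain ⟨D, hD⟩ : ∃ D, homogeneousComponent D Δ₁ ≠ 0 := by
    by_contra hcon
    push Not at hcon
    apply hΔ₁
    rw [← sum_homogeneousComponent Δ₁]
    exact Finset.sum_eq_zero fun i _ => hcon i
  have hDpos : 0 < D := by
    rcases Nat.eq_zero_or_pos D with h | h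
    · exfalso
      apply hD
      rw [h, homogeneousComponent_zero, coeff_mul_X', if_neg (by simp), map_zero]
    · exact h
  let A₁ : Fin (n + 1) → MvPolynomial (Fin 3) K := fun i => (eq3 K).symm (A₀ i) * X 1
  have hA₁ : ∀ i, aeval ![L 0, L 1, T] (A₁ i) - aeval L Δ₁ * X i ∈ 𝔮 := by
    intro i
    rw [← hmk, map_sub, map_mul, map_mul, map_mul, map_mul, map_mul, ← hev T,
      AlgEquiv.apply_symm_apply, hmkT, hA₀ i, aeval_X, aeval_X, halg]
    change mk (aeval L Δ₀) * x i * mk (L 1) - mk (aeval L Δ₀) * mk (L 1) * x i = 0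
    ring
  refine ⟨m, F, T, D, homogeneousComponent D Δ₁, fun i => homogeneousComponent (D + 1) (A₁ i),
    hmpos, hFh, hFc, hTh, hDpos, homogeneousComponent_isHomogeneous _ _, hD,
    fun i => homogeneousComponent_isHomogeneous _ _, hK1, fun i => ?_⟩
  have h1 := hhom _ (hA₁ i) (D + 1)
  rw [map_sub, hc_aeval _ hG, hc_mul (X i) (isHomogeneous_X K i), hc_aeval _ hL] at h1
  exact h1

end core

section shear

open MvPolynomial

variable {K : Type u} [Field K] [CharZero K]

/-- the shear in three variables -/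
def sh (c : K) : MvPolynomial (Fin 3) K →ₐ[K] MvPolynomial (Fin 3) K :=
  aeval ![X 0 + C c * X 1, X 1, X 2]

/-- the shear in two variables -/
def sh2 (c : K) : MvPolynomial (Fin 2) K →ₐ[K] MvPolynomial (Fin 2) K :=
  aeval ![X 0 + C c * X 1, X 1]

theorem sh_hom (c : K) {G : MvPolynomial (Fin 3) K} {m : ℕ} (hG : G.IsHomogeneous m) :
    (sh c G).IsHomogeneous m := by
  have := hG.aeval (![X 0 + C c * X 1, X 1, X 2] : Fin 3 → MvPolynomial (Fin 3) K) (n := 1)
    (fun i => by
    fin_cases i
    · exact (isHomogeneous_X K 0).add ((isHomogeneous_X K 1).C_mul c)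
    · exact isHomogeneous_X K 1
    · exact isHomogeneous_X K 2)
  rw [one_mul] at this
  exact this

theorem sh2_hom (c : K) {G : MvPolynomial (Fin 2) K} {m : ℕ} (hG : G.IsHomogeneous m) :
    (sh2 c G).IsHomogeneous m := by
  have := hG.aeval (![X 0 + C c * X 1, X 1] : Fin 2 → MvPolynomial (Fin 2) K) (n := 1)
    (fun i => by
    fin_cases i
    · exact (isHomogeneous_X K 0).add ((isHomogeneous_X K 1).C_mul c)
    · exact isHomogeneous_X K 1)
  rw [one_mul] at this
  exact this

theorem sh_sh (c : K) (G : MvPolynomial (Fin 3) K) : sh c (sh (-c) G) = G := by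
  have : (sh c).comp (sh (-c)) = AlgHom.id K _ := by
    apply MvPolynomial.algHom_ext
    intro i
    fin_cases i
    · change sh c (sh (-c) (X 0)) = X 0
      simp only [sh, aeval_X, map_add, map_mul, Matrix.cons_val_zero, Matrix.cons_val_one,
        algHom_C, map_neg]
      simp
    · change sh c (sh (-c) (X 1)) = X 1
      simp [sh]
    · change sh c (sh (-c) (X 2)) = X 2
      simp [sh]
  exact DFunLike.congr_fun this G

theorem aeval_sh {B : Type u} [CommRing B] [Algebra K B] (c : K) (l₀ l₁ Y : B)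
    (G : MvPolynomial (Fin 3) K) :
    aeval ![l₀ - algebraMap K B c * l₁, l₁, Y] (sh c G) = aeval ![l₀, l₁, Y] G := by
  have : (aeval ![l₀ - algebraMap K B c * l₁, l₁, Y]).comp (sh c) = aeval ![l₀, l₁, Y] := by
    apply MvPolynomial.algHom_ext
    intro i
    fin_cases i
    · change aeval ![l₀ - algebraMap K B c * l₁, l₁, Y] (sh c (X 0)) = aeval ![l₀, l₁, Y] (X 0)
      simp [sh]
    · change aeval ![l₀ - algebraMap K B c * l₁, l₁, Y] (sh c (X 1)) = aeval ![l₀, l₁, Y] (X 1)
      simp [sh]
    · change aeval ![l₀ - algebraMap K B c * l₁, l₁, Y] (sh c (X 2)) = aeval ![l₀, l₁, Y] (X 2)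
      simp [sh]
  exact DFunLike.congr_fun this G

theorem aeval_sh2 {B : Type u} [CommRing B] [Algebra K B] (c : K) (l₀ l₁ : B)
    (G : MvPolynomial (Fin 2) K) :
    aeval ![l₀ - algebraMap K B c * l₁, l₁] (sh2 c G) = aeval ![l₀, l₁] G := by
  have : (aeval ![l₀ - algebraMap K B c * l₁, l₁]).comp (sh2 c) = aeval ![l₀, l₁] := by
    apply MvPolynomial.algHom_ext
    intro i
    fin_cases i
    · change aeval ![l₀ - algebraMap K B c * l₁, l₁] (sh2 c (X 0)) = aeval ![l₀, l₁] (X 0)
      simp [sh2]
    · change aeval ![l₀ - algebraMap K B c * l₁, l₁] (sh2 c (X 1)) = aeval ![l₀, l₁] (X 1)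
      simp [sh2]
  exact DFunLike.congr_fun this G

theorem eval_sh (c : K) (G : MvPolynomial (Fin 3) K) :
    eval (fun i => if i = 2 then (1 : K) else 0) (sh c G) =
      eval (fun i => if i = 2 then (1 : K) else 0) G := by
  have : (aeval (R := K) (fun i : Fin 3 => if i = 2 then (1 : K) else 0)).comp (sh c) =
      aeval (fun i => if i = 2 then (1 : K) else 0) := by
    apply MvPolynomial.algHom_ext
    intro i
    fin_cases i
    · change aeval _ (sh c (X 0)) = aeval _ (X 0)
      simp [sh]
    · change aeval _ (sh c (X 1)) = aeval _ (X 1)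
      simp [sh]
    · change aeval _ (sh c (X 2)) = aeval _ (X 2)
      simp [sh]
  exact DFunLike.congr_fun this G

theorem eval_sh2 (c : K) (G : MvPolynomial (Fin 2) K) :
    eval (fun i => if i = 1 then (1 : K) else 0) (sh2 c G) = eval ![c, 1] G := by
  have : (aeval (R := K) (fun i : Fin 2 => if i = 1 then (1 : K) else 0)).comp (sh2 c) =
      aeval ![c, 1] := by
    apply MvPolynomial.algHom_ext
    intro i
    fin_cases i
    · change aeval _ (sh2 c (X 0)) = aeval _ (X 0)
      simp [sh2]
    · change aeval _ (sh2 c (X 1)) = aeval _ (X 1)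
      simp [sh2]
  exact DFunLike.congr_fun this G

theorem exists_shear {D : ℕ} {Δ : MvPolynomial (Fin 2) K} (hD : Δ.IsHomogeneous D) (h0 : Δ ≠ 0) :
    ∃ c : K, eval ![c, 1] Δ ≠ 0 := by
  by_contra hcon
  push Not at hcon
  have h1 : Δ * X 1 ≠ 0 := mul_ne_zero h0 (X_ne_zero 1)
  apply h1
  apply MvPolynomial.funext
  intro v
  rw [map_mul, eval_X, map_zero]
  by_cases hv : v 1 = 0
  · rw [hv, mul_zero]
  · have h2 : v = fun i => v 1 * (![v 0 / v 1, 1] : Fin 2 → K) i := by
      ext i
      fin_cases i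
      · change v 0 = v 1 * (v 0 / v 1)
        field_simp
      · change v 1 = v 1 * 1
        rw [mul_one]
    have h3 : eval v Δ = v 1 ^ D * eval ![v 0 / v 1, 1] Δ := by
      have := aeval_scale (K := K) (v 1) (![v 0 / v 1, 1] : Fin 2 → K) hD
      rw [← h2] at this
      exact this
    rw [h3, hcon, mul_zero, zero_mul]

end shear

section final

open MvPolynomial

variable {K : Type u} [Field K] [CharZero K]

/-- assembling the data -/
theorem assemble {n : ℕ} (𝔮 : Ideal (MvPolynomial (Fin (n + 1)) K)) [𝔮.IsPrime]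
    (hhom : ∀ F ∈ 𝔮, ∀ m, homogeneousComponent m F ∈ 𝔮)
    (L : Fin 2 → MvPolynomial (Fin (n + 1)) K) (hL : ∀ j, (L j).IsHomogeneous 1)
    (hinj : ∀ g : MvPolynomial (Fin 2) K, aeval L g ∈ 𝔮 → g = 0)
    (hint : ∀ i, ∃ (e : ℕ) (f : MvPolynomial (Fin 3) K), 0 < e ∧ f.IsHomogeneous e ∧
      f.coeff (Finsupp.single 2 e) = 1 ∧ aeval ![L 0, L 1, X i] f ∈ 𝔮) :
    Nonempty (AlgData K (RingHom.id K) n 𝔮) := by
  obtain ⟨m, F, T, D, Δ, A, hm, hF, hFc, hT, hD, hΔ, hΔ0, hA, hK1, hK2⟩ :=
    core 𝔮 hhom L hL hinj hint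
  obtain ⟨c, hc⟩ := exists_shear hΔ hΔ0
  choose e f he hf hfc hfm using hint
  set δ₀ := eval ![c, 1] Δ with hδ₀
  let R := MvPolynomial (Fin (n + 1)) K
  let L' : Fin 2 → R := ![L 0 - algebraMap K R c * L 1, L 1]
  have hL' : ∀ j, (L' j).IsHomogeneous 1 := by
    intro j
    fin_cases j
    · change (L 0 - C c * L 1).IsHomogeneous 1
      exact (hL 0).sub ((hL 1).C_mul c)
    · exact hL 1
  have hL2 : L = ![L 0, L 1] := by
    ext j : 1
    fin_cases j <;> rfl
  let δ : MvPolynomial (Fin 2) K := C δ₀⁻¹ * sh2 c Δ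
  have hδΔ : aeval L' (C δ₀ * δ) = aeval L Δ := by
    have h1 : C δ₀ * δ = sh2 c Δ := by
      change C δ₀ * (C δ₀⁻¹ * sh2 c Δ) = _
      rw [← mul_assoc, ← C_mul, mul_inv_cancel₀ hc, C_1, one_mul]
    rw [h1]
    have h2 := aeval_sh2 c (L 0) (L 1) Δ
    rw [← hL2] at h2
    exact h2
  let mk : R →ₐ[K] R ⧸ 𝔮 := Ideal.Quotient.mkₐ K 𝔮
  have hmk : ∀ r, mk r = 0 ↔ r ∈ 𝔮 := fun r => Ideal.Quotient.eq_zero_iff_mem
  -- values of the parametrisation
  have hval : ∀ i, mk (aeval ![L' 0, L' 1, T] (sh c (A i))) = mk (aeval L Δ) * mk (X i) := by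
    intro i
    have h1 := aeval_sh c (L 0) (L 1) T (A i)
    have h2 : aeval ![L' 0, L' 1, T] (sh c (A i)) = aeval ![L 0, L 1, T] (A i) := h1
    rw [h2, ← map_mul, ← sub_eq_zero, ← map_sub, hmk]
    exact hK2 i
  have hker : ∀ G, aeval ![L' 0, L' 1, T] G ∈ 𝔮 → sh c F ∣ G := by
    intro G hG
    have h1 := aeval_sh c (L 0) (L 1) T (sh (-c) G)
    rw [sh_sh] at h1
    have h2 : F ∣ sh (-c) G := by
      apply hK1
      rw [← h1]
      exact hG
    have h3 := map_dvd (sh c) h2
    rwa [sh_sh] at h3
  have hcomp : ∀ (Q : MvPolynomial (Fin (n + 1)) K),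
      mk (aeval ![L' 0, L' 1, T] (aeval (fun i => sh c (A i)) Q)) =
        aeval (fun i => mk (aeval L Δ) * mk (X i)) Q := by
    intro Q
    have : (mk.comp (aeval ![L' 0, L' 1, T])).comp (aeval (fun i => sh c (A i))) =
        aeval (fun i => mk (aeval L Δ) * mk (X i)) := by
      apply MvPolynomial.algHom_ext
      intro i
      rw [AlgHom.comp_apply, AlgHom.comp_apply, aeval_X, aeval_X, hval]
    exact DFunLike.congr_fun this Q
  have hmkX : ∀ Q : MvPolynomial (Fin (n + 1)) K, aeval (fun i => mk (X i)) Q = mk Q := by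
    intro Q
    have : aeval (fun i => mk (X i)) = mk := by
      apply MvPolynomial.algHom_ext
      intro i
      rw [aeval_X]
    exact DFunLike.congr_fun this Q
  set E := ∑ i, e i with hE
  have hEi : ∀ i, e i ≤ E := fun i => Finset.single_le_sum (fun j _ => Nat.zero_le (e j))
    (Finset.mem_univ i)
  refine ⟨{
    m := m, D := D, e := E, m_pos := hm, D_pos := hD
    e_pos := lt_of_lt_of_le (he 0) (hEi 0)
    L := L', L_hom := hL'
    F := sh c F, F_hom := sh_hom c hF
    F_coeff := by
      rw [coeff_eq_eval 2 (sh_hom c hF), eval_sh, ← coeff_eq_eval 2 hF, hFc]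
    δ := δ
    δ_hom := (sh2_hom c hΔ).C_mul _
    δ_coeff := by
      rw [coeff_eq_eval 1 ((sh2_hom c hΔ).C_mul _), map_mul, eval_C, eval_sh2, ← hδ₀,
        inv_mul_cancel₀ hc]
    δ₀ := δ₀, δ₀_ne := hc
    A := fun i => sh c (A i)
    A_hom := fun i => sh_hom c (hA i)
    dvd := ?_
    dvd_L := ?_
    φ := 1, φ_ne := one_ne_zero
    f := fun i => X 2 ^ (E - e i) * sh c (f i)
    f_hom := ?_
    f_coeff := ?_
    f_mem := ?_ }⟩
  · intro d Q hQ hQm
    rw [MvPolynomial.map_id] at hQm
    apply hker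
    rw [← hmk, hcomp, aeval_scale _ _ hQ, hmkX, (hmk Q).2 hQm, mul_zero]
  · intro j
    apply hker
    have h1 : aeval ![L' 0, L' 1, T] (C δ₀ * X (Fin.castSucc j) * rename Fin.castSucc δ) =
        L' j * aeval L' (C δ₀ * δ) := by
      have h2 : aeval ![L' 0, L' 1, T] (rename Fin.castSucc δ) = aeval L' δ := by
        have h4 : (![L' 0, L' 1, T] : Fin 3 → R) ∘ Fin.castSucc = L' := by
          funext i
          fin_cases i <;> rfl
        rw [aeval_rename, h4]
      rw [map_mul, map_mul, h2, aeval_X, map_mul (aeval L') (C δ₀) δ]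
      have h3 : (![L' 0, L' 1, T] : Fin 3 → R) (Fin.castSucc j) = L' j := by
        fin_cases j <;> rfl
      rw [h3, algHom_C, algHom_C]
      ring
    rw [← hmk, map_sub, map_sub, hcomp, aeval_scale _ _ (hL' j), hmkX, pow_one, h1, hδΔ, map_mul,
      mul_comm, sub_self]
  · intro i
    have h1 := (isHomogeneous_X_pow (R := K) (2 : Fin 3) (E - e i)).mul (sh_hom c (hf i))
    rwa [Nat.sub_add_cancel (hEi i)] at h1
  · intro i
    have h1 := (isHomogeneous_X_pow (R := K) (2 : Fin 3) (E - e i)).mul (sh_hom c (hf i))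
    rw [Nat.sub_add_cancel (hEi i)] at h1
    rw [coeff_eq_eval 2 h1, map_mul, eval_sh, ← coeff_eq_eval 2 (hf i), hfc]
    simp
  · intro i
    rw [MvPolynomial.map_id, map_mul]
    apply 𝔮.mul_mem_left
    have h1 := aeval_sh c (L 0) (L 1) (X i) (f i)
    have h2 : aeval ![L' 0, L' 1, X i] (sh c (f i)) = aeval ![L 0, L 1, X i] (f i) := h1
    rw [h2]
    exact hfm i

end final

end Pool.Agent.DC.BIR

namespace Pool.Agent.DC

universe u

theorem bir_proof (K : Type u) [Field K] [CharZero K] (h : Stmt_NN K) : Stmt_Bir K := by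
  intro n 𝔮 hp hhom hdim
  obtain ⟨L, hL, hinj, hint⟩ := h n 𝔮 hp hhom hdim
  exact BIR.assemble 𝔮 hhom L hL hinj hint

end Pool.Agent.DC
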