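import Pool.Agent.DC.StmtsC

/-!
# BUMP: bump polynomials in characteristic `p`
-/

set_option autoImplicit false
set_option linter.unusedSectionVars false

noncomputable section

namespace Pool.Agent.DC

open Polynomial
open scoped Classical

universe u

namespace BUMP

variable {k : Type u} [NontriviallyNormedField k] [IsUltrametricDist k]

theorem norm_eval_le_pow (f : k[X]) (y : k) {ρ : ℝ} (h1 : 1 ≤ ρ) (hy : ‖y‖ ≤ ρ) :
    ‖f.eval y‖ ≤ gn f * ρ ^ f.natDegree := by
  rw [eval_eq_sum_range]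
  apply IsUltrametricDist.norm_sum_le_of_forall_le_of_nonneg
  · exact mul_nonneg (gn_nonneg f) (pow_nonneg (by linarith) _)
  · intro i hi
    have hi' : i ≤ f.natDegree := Nat.lt_succ_iff.mp (Finset.mem_range.mp hi)
    rw [norm_mul, norm_pow]
    calc ‖f.coeff i‖ * ‖y‖ ^ i ≤ gn f * ρ ^ i := by
          gcongr
          · exact gn_nonneg f
          · exact coeff_le_gn f i
      _ ≤ gn f * ρ ^ f.natDegree := by
          gcongr
          · exact gn_nonneg f

theorem main (p : ℕ) [Fact p.Prime] [CharP k p] (r₀ : ℝ) (c₀ : k) (hr₀ : 0 < r₀) (t : Finset k) :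
    (∀ c ∈ t, r₀ < ‖c - c₀‖) →
    ∃ (f : k[X]) (r : ℝ), 0 ≤ r ∧ r < 1 ∧ ∀ y : k, (‖y - c₀‖ ≤ r₀ → ‖f.eval y - 1‖ ≤ r) ∧
      ∀ c ∈ t, ‖y - c‖ ≤ r₀ → ‖f.eval y‖ ≤ r := by
  induction t using Finset.induction_on_max_value (fun c => ‖c - c₀‖) with
  | empty =>
    intro _
    refine ⟨1, 0, le_rfl, one_pos, fun y => ⟨fun _ => ?_, fun c hc => ?_⟩⟩
    · rw [eval_one, sub_self, norm_zero]
    · simp at hc
  | insert b t hb hmax ih =>
    intro hsep
    obtain ⟨f₀, r, hr0, hr1, hf⟩ := ih fun c hc => hsep c (Finset.mem_insert_of_mem hc)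
    have hR := hsep b (Finset.mem_insert_self _ _)
    set R := ‖b - c₀‖ with hRdef
    have hRpos : 0 < R := hr₀.trans hR
    have hne : b - c₀ ≠ 0 := by
      intro h0
      rw [hRdef, h0, norm_zero] at hRpos
      exact lt_irrefl _ hRpos
    set q := r₀ / R with hq
    have hq0 : 0 ≤ q := div_nonneg hr₀.le hRpos.le
    have hq1 : q < 1 := (div_lt_one hRpos).mpr hR
    set ρ := max 1 (max r₀ ‖b‖) with hρ
    set B := gn f₀ * ρ ^ f₀.natDegree + 1 with hB
    have hρ1 : 1 ≤ ρ := le_max_left _ _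
    have hB1 : 1 ≤ B := by
      have : 0 ≤ gn f₀ * ρ ^ f₀.natDegree :=
        mul_nonneg (gn_nonneg f₀) (pow_nonneg (by linarith) _)
      linarith
    obtain ⟨N, hN⟩ := exists_pow_lt_of_lt_one (x := 1 / (2 * B)) (y := q) (by positivity) hq1
    have hNp : q ^ p ^ N ≤ 1 / (2 * B) :=
      (pow_le_pow_of_le_one hq0 hq1.le (Nat.lt_pow_self (Fact.out : p.Prime).one_lt).le).trans hN.le
    have hN1 : B * q ^ p ^ N ≤ 1 / 2 := by
      calc B * q ^ p ^ N ≤ B * (1 / (2 * B)) := by gcongr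
        _ = 1 / 2 := by field_simp
    have hN2 : q ^ p ^ N ≤ 1 / 2 := by
      have h1 : 0 ≤ q ^ p ^ N := pow_nonneg hq0 _
      nlinarith
    have hev : ∀ y : k, (f₀ * (1 - (C (b - c₀)⁻¹ * (X - C c₀)) ^ p ^ N)).eval y =
        f₀.eval y * (1 - ((b - c₀)⁻¹ * (y - c₀)) ^ p ^ N) := by
      intro y
      simp [eval_mul, eval_sub, eval_pow]
    refine ⟨f₀ * (1 - (C (b - c₀)⁻¹ * (X - C c₀)) ^ p ^ N), max r (1 / 2),
      le_max_of_le_left hr0, max_lt hr1 (by norm_num), fun y => ⟨fun hy => ?_, fun c hc hy => ?_⟩⟩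
    · rw [hev]
      have h1 := (hf y).1 hy
      have h2 : ‖((b - c₀)⁻¹ * (y - c₀)) ^ p ^ N‖ ≤ q ^ p ^ N := by
        rw [norm_pow, norm_mul, norm_inv]
        gcongr
        rw [hq, inv_mul_eq_div]
        gcongr
      have h3 : ‖f₀.eval y‖ ≤ 1 := by
        have h4 : f₀.eval y = (f₀.eval y - 1) + 1 := by ring
        rw [h4]
        refine (IsUltrametricDist.norm_add_le_max _ _).trans (max_le (h1.trans hr1.le) ?_)
        rw [norm_one]
      have h5 : f₀.eval y * (1 - ((b - c₀)⁻¹ * (y - c₀)) ^ p ^ N) - 1 =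
          (f₀.eval y - 1) + -(f₀.eval y * ((b - c₀)⁻¹ * (y - c₀)) ^ p ^ N) := by ring
      rw [h5]
      refine (IsUltrametricDist.norm_add_le_max _ _).trans (max_le_max h1 ?_)
      rw [norm_neg, norm_mul]
      calc ‖f₀.eval y‖ * ‖((b - c₀)⁻¹ * (y - c₀)) ^ p ^ N‖ ≤ 1 * q ^ p ^ N := by gcongr
        _ ≤ 1 / 2 := by rw [one_mul]; exact hN2
    · rw [hev]
      rcases Finset.mem_insert.mp hc with rfl | hc
      · refine le_max_of_le_right ?_
        have h1 : (c - c₀)⁻¹ * (y - c₀) = 1 + (c - c₀)⁻¹ * (y - c) := by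
          field_simp
          ring
        rw [h1, add_pow_char_pow, one_pow]
        have h2 : (1 : k) - (1 + ((c - c₀)⁻¹ * (y - c)) ^ p ^ N) =
            -((c - c₀)⁻¹ * (y - c)) ^ p ^ N := by ring
        rw [h2, norm_mul, norm_neg, norm_pow, norm_mul, norm_inv]
        have h3 : ‖f₀.eval y‖ ≤ B := by
          have h4 : ‖y‖ ≤ ρ := by
            have h5 : y = (y - c) + c := by ring
            rw [h5]
            refine (IsUltrametricDist.norm_add_le_max _ _).trans ?_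
            exact (max_le_max hy le_rfl).trans (le_max_right _ _)
          have h6 := norm_eval_le_pow f₀ y hρ1 h4
          linarith
        have h7 : ‖c - c₀‖⁻¹ * ‖y - c‖ ≤ q := by
          rw [hq, inv_mul_eq_div]
          gcongr
        calc ‖f₀.eval y‖ * (‖c - c₀‖⁻¹ * ‖y - c‖) ^ p ^ N ≤ B * q ^ p ^ N := by gcongr
          _ ≤ 1 / 2 := hN1
      · refine le_max_of_le_left ?_
        have h1 := (hf y).2 c hc hy
        have h2 : ‖(b - c₀)⁻¹ * (y - c₀)‖ ≤ 1 := by
          rw [norm_mul, norm_inv, inv_mul_le_iff₀ hRpos, mul_one]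
          have h3 : y - c₀ = (y - c) + (c - c₀) := by ring
          rw [h3]
          refine (IsUltrametricDist.norm_add_le_max _ _).trans (max_le (hy.trans hR.le) ?_)
          exact hmax c hc
        have h4 : ‖1 - ((b - c₀)⁻¹ * (y - c₀)) ^ p ^ N‖ ≤ 1 := by
          rw [sub_eq_add_neg]
          refine (IsUltrametricDist.norm_add_le_max _ _).trans (max_le ?_ ?_)
          · rw [norm_one]
          · rw [norm_neg, norm_pow]
            exact pow_le_one₀ (norm_nonneg _) h2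
        rw [norm_mul]
        calc ‖f₀.eval y‖ * ‖1 - ((b - c₀)⁻¹ * (y - c₀)) ^ p ^ N‖ ≤ r * 1 := by gcongr
          _ = r := mul_one r

end BUMP

theorem bump_proof (k : Type u) [NontriviallyNormedField k] [IsUltrametricDist k]
    [CompleteSpace k] [IsAlgClosed k] (p : ℕ) [Fact p.Prime] [CharP k p] : Stmt_Bump k p := by
  intro s r₀ c₀ hr₀ hc₀ hsep
  obtain ⟨f, r, hr0, hr1, hf⟩ := BUMP.main (k := k) p r₀ c₀ hr₀ (s.erase c₀) fun c hc =>
    hsep c (Finset.mem_of_mem_erase hc) c₀ hc₀ (Finset.ne_of_mem_erase hc)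
  exact ⟨f, r, hr0, hr1, fun y => ⟨(hf y).1, fun c hc hne hy =>
    (hf y).2 c (Finset.mem_erase.mpr ⟨hne, hc⟩) hy⟩⟩

end Pool.Agent.DC
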