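import Pool.Agent.DC.StmtsC

/-!
# Module CAP (Stmt_Cap), squad DC
-/

set_option autoImplicit false
set_option linter.unusedSectionVars false

noncomputable section

namespace Pool.Agent.DC

open Polynomial
open scoped Classical

universe u

namespace CAP

variable {k : Type u} [NontriviallyNormedField k] [IsUltrametricDist k]

theorem isA_const (c : Cov k) (x : k) : IsA c (fun _ _ => x) :=
  ⟨C (polR (C x)), fun a θ _ => by simp⟩

theorem isA_add {c : Cov k} {f g : Tc k → k → k} (hf : IsA c f) (hg : IsA c g) :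
    IsA c (fun a θ => f a θ + g a θ) := by
  obtain ⟨u, hu⟩ := hf
  obtain ⟨v, hv⟩ := hg
  exact ⟨u + v, fun a θ h => by
    beta_reduce
    rw [hu a θ h, hv a θ h, Polynomial.map_add, eval_add]⟩

theorem isA_mul {c : Cov k} {f g : Tc k → k → k} (hf : IsA c f) (hg : IsA c g) :
    IsA c (fun a θ => f a θ * g a θ) := by
  obtain ⟨u, hu⟩ := hf
  obtain ⟨v, hv⟩ := hg
  exact ⟨u * v, fun a θ h => by
    beta_reduce
    rw [hu a θ h, hv a θ h, Polynomial.map_mul, eval_mul]⟩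

theorem isA_pow {c : Cov k} {f : Tc k → k → k} (hf : IsA c f) (n : ℕ) :
    IsA c (fun a θ => f a θ ^ n) := by
  obtain ⟨u, hu⟩ := hf
  exact ⟨u ^ n, fun a θ h => by
    beta_reduce
    rw [hu a θ h, Polynomial.map_pow, eval_pow]⟩

theorem isA_sum {c : Cov k} {ι : Type*} (s : Finset ι) {f : ι → Tc k → k → k}
    (hf : ∀ i ∈ s, IsA c (f i)) : IsA c (fun a θ => ∑ i ∈ s, f i a θ) := by
  induction s using Finset.induction_on with
  | empty => simpa using isA_const c 0
  | insert i s hi ih =>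
    have h1 := isA_add (hf i (Finset.mem_insert_self i s))
      (ih fun j hj => hf j (Finset.mem_insert_of_mem hj))
    simpa [Finset.sum_insert hi] using h1

theorem isA_R {c : Cov k} {f : Tc k → k} (hf : IsR f) : IsA c (fun a _ => f a) :=
  ⟨C ⟨f, hf⟩, fun a θ _ => by simp [evR_apply]⟩

theorem aeval_self (a : k) : (aeval (R := k) a).toRingHom = evalRingHom a := by
  ext x <;> simp

theorem ev2_self (a θ : k) (P : k[X][X]) :
    ev2 a θ P = (P.map (evalRingHom a)).eval θ := by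
  rw [ev2_def, aeval_self]

theorem isA_ev2 (c : Cov k) (P : k[X][X]) : IsA c (fun a θ => ev2 a.1 θ P) := by
  refine ⟨P.map polR, fun a θ _ => ?_⟩
  beta_reduce
  rw [ev2_self, Polynomial.map_map]
  congr 2

section bounds

variable {Ω : Type u} [NormedField Ω] [IsUltrametricDist Ω]

theorem norm_root_le {P : Polynomial Ω} (hP : P.Monic) {R : ℝ} (hR : 1 ≤ R)
    (hc : ∀ i, ‖P.coeff i‖ ≤ R) {β : Ω} (hβ : P.eval β = 0) : ‖β‖ ≤ R := by
  by_contra hlt
  push Not at hlt
  have h1 : 1 < ‖β‖ := hR.trans_lt hlt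
  have h0 : 0 < ‖β‖ := one_pos.trans h1
  have hm : P.natDegree ≠ 0 := by
    intro h
    rw [eq_one_of_monic_natDegree_zero hP h, eval_one] at hβ
    exact one_ne_zero hβ
  obtain ⟨m, hm'⟩ := Nat.exists_eq_succ_of_ne_zero hm
  have h2 : β ^ (m + 1) = -∑ i ∈ Finset.range (m + 1), P.coeff i * β ^ i := by
    rw [hP.as_sum, hm'] at hβ
    simp only [eval_add, eval_pow, eval_X, eval_finsetSum, eval_mul, eval_C] at hβ
    exact eq_neg_of_add_eq_zero_left hβ
  have h3 : ‖β‖ ^ (m + 1) ≤ R * ‖β‖ ^ m := by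
    rw [← norm_pow, h2, norm_neg]
    apply IsUltrametricDist.norm_sum_le_of_forall_le_of_nonneg (by positivity)
    intro i hi
    rw [norm_mul, norm_pow]
    have hi' : i ≤ m := Nat.lt_succ_iff.1 (Finset.mem_range.1 hi)
    exact mul_le_mul (hc i) (pow_le_pow_right₀ h1.le hi') (by positivity) (by positivity)
  rw [pow_succ'] at h3
  have h4 := le_of_mul_le_mul_right h3 (by positivity)
  exact absurd h4 (not_le.2 hlt)

theorem norm_eval_le_of {g : Polynomial Ω} {M : ℝ} (hM : 0 ≤ M) (hg : ∀ i, ‖g.coeff i‖ ≤ M) {β : Ω}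
    (hβ : ‖β‖ ≤ 1) : ‖g.eval β‖ ≤ M := by
  rw [eval_eq_sum_range]
  apply IsUltrametricDist.norm_sum_le_of_forall_le_of_nonneg hM
  intro i _
  rw [norm_mul, norm_pow]
  calc ‖g.coeff i‖ * ‖β‖ ^ i ≤ M * 1 :=
        mul_le_mul (hg i) (pow_le_one₀ (norm_nonneg _) hβ) (by positivity) hM
    _ = M := mul_one M

variable [NormedAlgebra k Ω]

theorem norm_aeval_le' {a : Ω} (ha : 1 ≤ ‖a‖) (f : k[X]) :
    ‖aeval a f‖ ≤ gn f * ‖a‖ ^ f.natDegree := by
  rw [aeval_eq_sum_range]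
  apply IsUltrametricDist.norm_sum_le_of_forall_le_of_nonneg
    (mul_nonneg (gn_nonneg f) (by positivity))
  intro i hi
  rw [norm_smul, norm_pow]
  exact mul_le_mul (coeff_le_gn f i)
    (pow_le_pow_right₀ ha (Nat.lt_succ_iff.1 (Finset.mem_range.1 hi))) (by positivity)
    (gn_nonneg f)

theorem ev2_eq_sum (a θ : Ω) (Y : k[X][X]) :
    ev2 a θ Y = ∑ i ∈ Finset.range (Y.natDegree + 1), aeval a (Y.coeff i) * θ ^ i := by
  rw [ev2, eval₂_eq_sum_range]
  rfl

theorem ev2_bound (a θ : Ω) (ha : 1 ≤ ‖a‖) (E : ℕ) (hθ : ‖θ‖ ≤ ‖a‖ ^ E) (Y : k[X][X])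
    {B : ℝ} {D : ℕ} (hB : 0 ≤ B) (h1 : ∀ i ∈ Finset.range (Y.natDegree + 1), gn (Y.coeff i) ≤ B)
    (h2 : ∀ i ∈ Finset.range (Y.natDegree + 1), (Y.coeff i).natDegree + E * i ≤ D) :
    ‖ev2 a θ Y‖ ≤ B * ‖a‖ ^ D := by
  rw [ev2_eq_sum]
  apply IsUltrametricDist.norm_sum_le_of_forall_le_of_nonneg (by positivity)
  intro i hi
  rw [norm_mul, norm_pow]
  calc ‖aeval a (Y.coeff i)‖ * ‖θ‖ ^ i
      ≤ (gn (Y.coeff i) * ‖a‖ ^ (Y.coeff i).natDegree) * (‖a‖ ^ E) ^ i := by
        exact mul_le_mul (norm_aeval_le' ha _) (pow_le_pow_left₀ (norm_nonneg _) hθ i)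
          (by positivity) (mul_nonneg (gn_nonneg _) (by positivity))
    _ = gn (Y.coeff i) * ‖a‖ ^ ((Y.coeff i).natDegree + E * i) := by
        rw [← pow_mul, mul_assoc, ← pow_add]
    _ ≤ B * ‖a‖ ^ D := by
        exact mul_le_mul (h1 i hi) (pow_le_pow_right₀ ha (h2 i hi)) (by positivity) hB

variable [CompleteSpace Ω]

theorem map_polV_evV {a : Ω} (ha : 1 ≤ ‖a‖) (Y : k[X][X]) :
    (Y.map polV).map (evV a) = Y.map (aeval (R := k) a).toRingHom := by
  rw [Polynomial.map_map]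
  congr 1
  exact RingHom.ext fun f => evV_polV ha f

theorem map_toRP_evP {a : Ω} (ha : ‖a‖ ≤ 1) (f : k[X]) : evP a (toRP f) = aeval a f :=
  evP_toRP ha f

theorem splits_prod [IsAlgClosed Ω] {P : Polynomial Ω} (hP : P.Monic) :
    P = (P.roots.map fun θ => X - C θ).prod := by
  have h := IsAlgClosed.splits P
  have h2 := h.eq_prod_roots
  rw [hP.leadingCoeff, C_1, one_mul] at h2
  exact h2

/-- the function attached to the outside -/
def ZV (N : k[X][X]) (q : k[X]) (m : ℕ) {κ : Type u} [Fintype κ] (N₂ : ℕ) (Y : κ → k[X][X])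
    (r : κ → RP k) : (RV k)[X] :=
  (N ^ m).map polV - ∑ l, C (polV (q ^ m) * algebraMap (RP k) (RV k) (toRP X) ^ (N₂ + 1) *
    algebraMap (RP k) (RV k) (r l)) * (Y l).map polV

theorem eval_ZV (N : k[X][X]) (q : k[X]) (m : ℕ) {κ : Type u} [Fintype κ] (N₂ : ℕ)
    (Y : κ → k[X][X]) (r : κ → RP k) {a : Ω} (ha : 1 ≤ ‖a‖) (θ : Ω) :
    ((ZV N q m N₂ Y r).map (evV a)).eval θ = ev2 a θ N ^ m - aeval a q ^ m *
      ∑ l, (a⁻¹) ^ (N₂ + 1) * evP a⁻¹ (r l) * ev2 a θ (Y l) := by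
  have hia : ‖a⁻¹‖ ≤ 1 := by rw [norm_inv]; exact inv_le_one_of_one_le₀ ha
  rw [ZV, Polynomial.map_sub, map_polV_evV ha, eval_sub, Polynomial.map_sum,
    eval_finsetSum, Polynomial.map_pow, eval_pow, ← ev2_def, Finset.mul_sum]
  congr 1
  refine Finset.sum_congr rfl fun l _ => ?_
  rw [Polynomial.map_mul, map_polV_evV ha, eval_mul, Polynomial.map_C, eval_C, ← ev2_def, map_mul,
    map_mul, evV_polV ha, map_pow, map_pow, evV_algebraMap ha, evV_algebraMap ha, evP_toRP hia,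
    aeval_X]
  ring

/-- the function attached to the inside -/
def ZD (q : k[X]) (m : ℕ) (b : k) (g : (RP k)[X]) : (RP k)[X] :=
  C (toRP (q ^ m)) * (C (toRP (C (b ^ m))) + g)

theorem eval_ZD (q : k[X]) (m : ℕ) (b : k) (g : (RP k)[X]) {a : Ω} (ha : ‖a‖ ≤ 1) (β : Ω) :
    ((ZD q m b g).map (evP a)).eval β = aeval a q ^ m *
      (algebraMap k Ω b ^ m + (g.map (evP a)).eval β) := by
  rw [ZD, Polynomial.map_mul, Polynomial.map_add, eval_mul, eval_add, Polynomial.map_C,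
    Polynomial.map_C, eval_C, eval_C, evP_toRP ha, evP_toRP ha, map_pow, aeval_C, map_pow]

end bounds

end CAP

open CAP in
theorem cap_proof (k : Type u) [NontriviallyNormedField k] [IsUltrametricDist k] [CompleteSpace k]
    [IsAlgClosed k] (p : ℕ) [Fact p.Prime] [CharP k p]
    (hSepC : Stmt_SepC k) (hUnit : Stmt_Unit k) (hIdem : Stmt_Idem k p) (hKras : Stmt_Kras k)
    (hDeco : Stmt_Deco k) (hGlue : Stmt_Glue k) (hUni : Stmt_Uni k) : Stmt_Cap k p := by
  intro c n N q r₀ 𝒩 hr₀ hq hN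
  obtain ⟨d, hd⟩ := hSepC c
  obtain ⟨hqR, -⟩ := hUnit q hq
  -- the functions `y`
  set y : Fin (n + 1) → Tc k → k → k := fun i a θ => ev2 a.1 θ (N i) / q.eval a.1 with hy
  have hyA : ∀ i, IsA c (y i) := by
    intro i
    have h := isA_mul (isA_ev2 c (N i)) (isA_R hqR)
    simpa only [hy, div_eq_mul_inv] using h
  obtain ⟨Γ, hΓ, Pc, cc, hcc⟩ := hIdem c d hd n y hyA r₀ 𝒩 hr₀ hN
  obtain ⟨N₁, G, tht, hthtA, hGm, hGn, hGp, htht⟩ := hKras c d hd Γ Pc (d / 2) (half_pos hd.pos)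
  obtain ⟨A₀, κ, hκ, Y, N₂, hA₀, hdeco⟩ := hDeco c d hd Γ Pc N₁ tht hthtA htht
  -- degree bounds
  obtain ⟨E, hE⟩ : ∃ E : ℕ, ∀ i, (c.P.coeff i).natDegree ≤ E := by
    refine ⟨(Finset.range (c.P.natDegree + 1)).sup fun i => (c.P.coeff i).natDegree, fun i => ?_⟩
    by_cases hi : i ∈ Finset.range (c.P.natDegree + 1)
    · exact Finset.le_sup (f := fun i => (c.P.coeff i).natDegree) hi
    · rw [coeff_eq_zero_of_natDegree_lt (by
        rw [Finset.mem_range] at hi; omega), natDegree_zero]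
      exact Nat.zero_le _
  obtain ⟨B, hB0, hB⟩ : ∃ B : ℝ, 0 ≤ B ∧ ∀ l, ∀ i ∈ Finset.range ((Y l).natDegree + 1),
      gn ((Y l).coeff i) ≤ B := by
    refine ⟨∑ l, ∑ i ∈ Finset.range ((Y l).natDegree + 1), gn ((Y l).coeff i),
      Finset.sum_nonneg fun l _ => Finset.sum_nonneg fun i _ => gn_nonneg _, fun l i hi => ?_⟩
    refine (Finset.single_le_sum (f := fun i => gn ((Y l).coeff i))
      (fun i _ => gn_nonneg _) hi).trans ?_
    exact Finset.single_le_sum (f := fun l => ∑ i ∈ Finset.range ((Y l).natDegree + 1),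
      gn ((Y l).coeff i)) (fun l _ => Finset.sum_nonneg fun i _ => gn_nonneg _)
      (Finset.mem_univ l)
  obtain ⟨D, hD⟩ : ∃ D : ℕ, ∀ l, ∀ i ∈ Finset.range ((Y l).natDegree + 1),
      ((Y l).coeff i).natDegree + E * i ≤ D := by
    refine ⟨∑ l, ∑ i ∈ Finset.range ((Y l).natDegree + 1), (((Y l).coeff i).natDegree + E * i),
      fun l i hi => ?_⟩
    refine (Finset.single_le_sum (f := fun i => ((Y l).coeff i).natDegree + E * i)
      (fun i _ => Nat.zero_le _) hi).trans ?_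
    exact Finset.single_le_sum (f := fun l => ∑ i ∈ Finset.range ((Y l).natDegree + 1),
      (((Y l).coeff i).natDegree + E * i)) (fun l _ => Nat.zero_le _)
      (Finset.mem_univ l)
  refine ⟨1 + A₀ + A₀ * B, D, by positivity, fun e => ?_⟩
  set m := p ^ e with hm
  have hM : 0 ≤ r₀ ^ m := by positivity
  -- the functions `x`
  set x : Fin (n + 1) → Tc k → k → k := fun i a θ =>
    ∑ γ, (if θ ∈ Pc.E γ a then 1 else 0) * (y i a θ - cc γ i) ^ m with hx
  have hxA : ∀ i, IsA c (x i) := by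
    intro i
    refine isA_sum _ fun γ _ => isA_mul (Pc.ind γ) (isA_pow ?_ m)
    have h := isA_add (hyA i) (isA_const c (-cc γ i))
    simpa only [← sub_eq_add_neg] using h
  have hxE : ∀ i γ a θ, θ ∈ Pc.E γ a → x i a θ = (y i a θ - cc γ i) ^ m := by
    intro i γ a θ h
    rw [hx]
    beta_reduce
    rw [Finset.sum_eq_single γ, if_pos h, one_mul]
    · intro γ' _ hne
      rw [if_neg (fun h' => hne (Pc.disj a γ' γ θ h' h)), zero_mul]
    · intro h'
      exact absurd (Finset.mem_univ γ) h'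
  have hxB : ∀ i a, ∀ θ ∈ fib c.P a, ‖x i a θ‖ ≤ r₀ ^ m := by
    intro i a θ h
    obtain ⟨γ, hγ⟩ := Pc.cover a θ h
    rw [hxE i γ a θ hγ, norm_pow]
    exact pow_le_pow_left₀ (norm_nonneg _) (hcc γ a θ hγ i) m
  choose g r hg hgd hr hxr using fun i => hdeco (x i) (r₀ ^ m) (hxA i) hM (hxB i)
  -- the two sides
  let zv : Fin (n + 1) → (RV k)[X] := fun i => ZV (N i) q m N₂ Y (r i)
  let zd : Γ → Fin (n + 1) → (RP k)[X] := fun γ i => ZD q m (cc γ i) (g i γ)
  have hagree : ∀ i γ (a : Tc k), ∀ θ ∈ Pc.E γ a,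
      ((zv i).map (evV a.1)).eval θ = ((zd γ i).map (evP a.1)).eval (tht a θ) := by
    intro i γ a θ h
    have h1 := hxr i γ a θ h
    rw [hxE i γ a θ h] at h1
    rw [eval_ZV _ _ _ _ _ _ a.2.ge, eval_ZD _ _ _ _ a.2.le]
    have h2 : (∑ l, (a.1)⁻¹ ^ (N₂ + 1) * evP (a.1)⁻¹ (r i l) * ev2 a.1 θ (Y l)) =
        (y i a θ - cc γ i) ^ m - ((g i γ).map (evP a.1)).eval (tht a θ) := by
      rw [h1]; ring
    have h3 : (y i a θ - cc γ i) ^ m = y i a θ ^ m - cc γ i ^ m := sub_pow_char_pow (p := p) _ _ e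
    have h4 : ev2 a.1 θ (N i) = q.eval a.1 * y i a θ := by
      rw [hy]; field_simp [hq a]
    rw [h2, h3, h4, mul_pow]
    simp only [coe_aeval_eq_eval, Algebra.algebraMap_self, RingHom.id_apply]
    ring
  -- gluing
  have hglue : ∀ l : Fin (n + 1) → k, ∀ γ, ∀ a : Tc k, ∀ θ ∈ Pc.E γ a,
      ((∑ i, C (polV (C (l i))) * zv i).map (evV a.1)).eval θ =
        ((∑ i, C (toRP (C (l i))) * zd γ i).map (evP a.1)).eval (tht a θ) := by
    intro l γ a θ h
    rw [Polynomial.map_sum, Polynomial.map_sum, eval_finsetSum, eval_finsetSum]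
    refine Finset.sum_congr rfl fun i _ => ?_
    rw [Polynomial.map_mul, Polynomial.map_mul, eval_mul, eval_mul, Polynomial.map_C,
      Polynomial.map_C, eval_C, eval_C, evV_polV a.2.ge, evP_toRP a.2.le, hagree i γ a θ h]
  choose Φ hΦm hΦd hΦ using fun l : Fin (n + 1) → k => hGlue c d hd Γ Pc G tht hGm hGp
    (∑ i, C (polV (C (l i))) * zv i) (fun γ => ∑ i, C (toRP (C (l i))) * zd γ i) (hglue l)
  refine ⟨fun i a θ => ((zv i).map (evV a.1)).eval θ, Φ, fun l => ⟨hΦm l, hΦd l⟩, ?_, ?_⟩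
  · intro l a θ hθ
    have h1 := (hΦ l k a.1).1 a.2.ge (fib c.P a).val (by
      rw [aeval_self, hd.prod a]; rfl)
    rw [ev2_def, h1, eval_multiset_prod, Multiset.map_map, Multiset.prod_eq_zero_iff,
      Multiset.mem_map]
    refine ⟨θ, hθ, ?_⟩
    simp only [Function.comp_apply, eval_sub, eval_X, eval_C, Polynomial.map_sum,
      eval_finsetSum, Polynomial.map_mul, eval_mul, Polynomial.map_C, evV_polV a.2.ge, aeval_C,
      Algebra.algebraMap_self, RingHom.id_apply, sub_self]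
  · intro Ω _ _ _ _ _ a ζ hζ hqa
    constructor
    · intro ha
      have hPm : (c.P.map (aeval (R := k) a).toRingHom).Monic := c.monic.map _
      have hs := splits_prod hPm
      set s := (c.P.map (aeval (R := k) a).toRingHom).roots with hsdef
      have h0 : (0 : Fin (n + 1) → Ω) ∈
          s.map fun θ => fun i => ζ i - ((zv i).map (evV a)).eval θ := by
        refine hUni Ω n _ fun l => ?_
        have h1 := (hΦ l Ω a).1 ha s hs
        have h2 := hζ l
        rw [ev2_def, h1, eval_multiset_prod, Multiset.map_map, Multiset.prod_eq_zero_iff,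
          Multiset.mem_map] at h2
        obtain ⟨θ, hθ, h3⟩ := h2
        refine ⟨_, Multiset.mem_map_of_mem _ hθ, ?_⟩
        simp only [Function.comp_apply, eval_sub, eval_X, eval_C, Polynomial.map_sum,
          eval_finsetSum, Polynomial.map_mul, eval_mul, Polynomial.map_C, evV_polV ha,
          aeval_C] at h3
        rw [← h3, ← Finset.sum_sub_distrib]
        exact Finset.sum_congr rfl fun i _ => by ring
      obtain ⟨θ, hθ, h0⟩ := Multiset.mem_map.1 h0
      have hθ0 : ev2 a θ c.P = 0 := by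
        rw [ev2_def]
        exact (mem_roots'.1 hθ).2
      refine ⟨θ, hθ0, fun i => ?_⟩
      have h1 : ζ i = ((zv i).map (evV a)).eval θ := sub_eq_zero.1 (congrFun h0 i)
      rw [h1, eval_ZV _ _ _ _ _ _ ha]
      have hqm : aeval a q ^ m ≠ 0 := pow_ne_zero _ hqa
      have h2 : (ev2 a θ (N i) ^ m - aeval a q ^ m *
          ∑ l, (a⁻¹) ^ (N₂ + 1) * evP a⁻¹ (r i l) * ev2 a θ (Y l)) / aeval a q ^ m -
          (ev2 a θ (N i) / aeval a q) ^ m =
          -∑ l, (a⁻¹) ^ (N₂ + 1) * evP a⁻¹ (r i l) * ev2 a θ (Y l) := by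
        rw [div_pow]
        field_simp
        ring
      rw [h2, norm_neg]
      have hθE : ‖θ‖ ≤ ‖a‖ ^ E := by
        refine norm_root_le hPm (one_le_pow₀ ha) (fun i => ?_) (by rw [← ev2_def]; exact hθ0)
        rw [coeff_map]
        refine (norm_aeval_le' ha (c.P.coeff i)).trans ?_
        calc gn (c.P.coeff i) * ‖a‖ ^ (c.P.coeff i).natDegree ≤ 1 * ‖a‖ ^ E :=
              mul_le_mul (c.norm_le i) (pow_le_pow_right₀ ha (hE i)) (by positivity) zero_le_one
          _ = ‖a‖ ^ E := one_mul _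
      have hia : ‖a⁻¹‖ ≤ 1 := by rw [norm_inv]; exact inv_le_one_of_one_le₀ ha
      have hbound : ‖∑ l, (a⁻¹) ^ (N₂ + 1) * evP a⁻¹ (r i l) * ev2 a θ (Y l)‖ ≤
          A₀ * r₀ ^ m * (B * ‖a‖ ^ D) := by
        apply IsUltrametricDist.norm_sum_le_of_forall_le_of_nonneg (by positivity)
        intro l _
        rw [norm_mul, norm_mul, norm_pow]
        have h3 : ‖a⁻¹‖ ^ (N₂ + 1) * ‖evP a⁻¹ (r i l)‖ ≤ A₀ * r₀ ^ m := by
          calc ‖a⁻¹‖ ^ (N₂ + 1) * ‖evP a⁻¹ (r i l)‖ ≤ 1 * (A₀ * r₀ ^ m) :=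
                mul_le_mul (pow_le_one₀ (norm_nonneg _) hia)
                  ((norm_evP_le _ _).trans (hr i l)) (norm_nonneg _) zero_le_one
            _ = A₀ * r₀ ^ m := one_mul _
        exact mul_le_mul h3 (ev2_bound a θ ha E hθE (Y l) hB0 (hB l) (hD l)) (norm_nonneg _)
          (by positivity)
      refine hbound.trans ?_
      have h4 : (1 + A₀ + A₀ * B) * r₀ ^ m * ‖a‖ ^ D - A₀ * r₀ ^ m * (B * ‖a‖ ^ D) =
          (1 + A₀) * r₀ ^ m * ‖a‖ ^ D := by ring
      have h5 : 0 ≤ (1 + A₀) * r₀ ^ m * ‖a‖ ^ D := by positivity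
      linarith
    · intro ha
      have hGm' : ∀ γ, ((G γ).map (aeval (R := k) a).toRingHom).Monic := fun γ => (hGm γ).map _
      have hs := fun γ => splits_prod (hGm' γ)
      have h0 : (0 : Fin (n + 1) → Ω) ∈ ∑ γ,
          ((G γ).map (aeval (R := k) a).toRingHom).roots.map fun β => fun i =>
            ζ i - ((zd γ i).map (evP a)).eval β := by
        refine hUni Ω n _ fun l => ?_
        have h1 := (hΦ l Ω a).2 ha (fun γ => ((G γ).map (aeval (R := k) a).toRingHom).roots) hs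
        have h2 := hζ l
        rw [ev2_def, h1, eval_prod, Finset.prod_eq_zero_iff] at h2
        obtain ⟨γ, -, h2⟩ := h2
        rw [eval_multiset_prod, Multiset.map_map, Multiset.prod_eq_zero_iff,
          Multiset.mem_map] at h2
        obtain ⟨β, hβ, h3⟩ := h2
        refine ⟨_, Multiset.mem_sum.2 ⟨γ, Finset.mem_univ γ, Multiset.mem_map_of_mem _ hβ⟩, ?_⟩
        simp only [Function.comp_apply, eval_sub, eval_X, eval_C, Polynomial.map_sum,
          eval_finsetSum, Polynomial.map_mul, eval_mul, Polynomial.map_C, evP_toRP ha,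
          aeval_C] at h3
        rw [← h3, ← Finset.sum_sub_distrib]
        exact Finset.sum_congr rfl fun i _ => by ring
      obtain ⟨γ, -, h0⟩ := Multiset.mem_sum.1 h0
      obtain ⟨β, hβ, h0⟩ := Multiset.mem_map.1 h0
      have hβ0 : ((G γ).map (aeval (R := k) a).toRingHom).eval β = 0 := (mem_roots'.1 hβ).2
      have hβ1 : ‖β‖ ≤ 1 := by
        refine norm_root_le (hGm' γ) le_rfl (fun i => ?_) hβ0
        rw [coeff_map]
        exact (norm_aeval_le ha _).trans (hGn γ i)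
      -- the piece has a point
      let a₀ : Tc k := ⟨1, norm_one⟩
      have hE0 : (Pc.E γ a₀).Nonempty := by
        rw [Finset.nonempty_iff_ne_empty]
        intro hemp
        have h1 := hGp γ a₀
        rw [hemp, Finset.prod_empty] at h1
        have h2 : (G γ).natDegree = 0 := by
          rw [← (hGm γ).natDegree_map (evalRingHom a₀.1), h1, natDegree_one]
        rw [eq_one_of_monic_natDegree_zero (hGm γ) h2, Polynomial.map_one, eval_one] at hβ0
        exact one_ne_zero hβ0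
      obtain ⟨θ, hθ⟩ := hE0
      refine ⟨a₀, θ, Pc.sub γ a₀ hθ, fun i => ?_⟩
      have h1 : ζ i = ((zd γ i).map (evP a)).eval β := sub_eq_zero.1 (congrFun h0 i)
      rw [h1, eval_ZD _ _ _ _ ha]
      have hqm : aeval a q ^ m ≠ 0 := pow_ne_zero _ hqa
      rw [mul_div_cancel_left₀ _ hqm]
      have h2 : algebraMap k Ω (cc γ i) ^ m + ((g i γ).map (evP a)).eval β -
          algebraMap k Ω ((ev2 a₀.1 θ (N i) / q.eval a₀.1) ^ m) =
          ((g i γ).map (evP a)).eval β -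
            algebraMap k Ω ((ev2 a₀.1 θ (N i) / q.eval a₀.1 - cc γ i) ^ m) := by
        rw [sub_pow_char_pow (p := p) (ev2 a₀.1 θ (N i) / q.eval a₀.1) (cc γ i) e, map_sub, map_pow,
          map_pow]
        ring
      rw [h2]
      have h3 : ‖((g i γ).map (evP a)).eval β‖ ≤ A₀ * r₀ ^ m := by
        refine norm_eval_le_of (by positivity) (fun j => ?_) hβ1
        rw [coeff_map]
        exact (norm_evP_le _ _).trans (hg i γ j)
      have h4 : ‖algebraMap k Ω ((ev2 a₀.1 θ (N i) / q.eval a₀.1 - cc γ i) ^ m)‖ ≤ r₀ ^ m := by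
        rw [norm_algebraMap', norm_pow]
        exact pow_le_pow_left₀ (norm_nonneg _) (hcc γ a₀ θ hθ i) m
      have h5 := (norm_sub_le _ _).trans (add_le_add h3 h4)
      refine h5.trans ?_
      have h6 : 0 ≤ A₀ * B * r₀ ^ m := by positivity
      have h7 : (1 + A₀ + A₀ * B) * r₀ ^ m = A₀ * r₀ ^ m + r₀ ^ m + A₀ * B * r₀ ^ m := by ring
      linarith

end Pool.Agent.DC
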