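import Pool.Agent.DC.StmtsC

set_option autoImplicit false
set_option linter.unusedSectionVars false

noncomputable section

namespace Pool.Agent.DC

open Polynomial
open scoped Classical

universe u

theorem coef_proof (k : Type u) [NontriviallyNormedField k] [IsUltrametricDist k] [CompleteSpace k]
    [IsAlgClosed k] (h : Stmt_Lag k) : Stmt_Coef k := by
  intro c d hsep u M hM hdeg hval a j
  have key := h (fib c.P a) d M (u.map (evR a)) hsep.pos hM (by
    rw [hsep.card a]
    refine lt_of_le_of_lt (degree_map_le) (lt_of_le_of_lt degree_le_natDegree ?_)
    exact_mod_cast hdeg) (hsep.norm_le a) (hsep.sep a) (hval a) j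
  rwa [coeff_map] at key

end Pool.Agent.DC
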