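import Pool.Agent.DC.StmtsE

/-!
# CURB: the projective curve defined by `v`, and its points
-/

set_option autoImplicit false
set_option linter.unusedSectionVars false
set_option linter.style.haveILetI false

noncomputable section

namespace Pool.Agent.DC

universe u

namespace CURB

open scoped Classical

section alg

variable {k : Type u} [Field k]

theorem trdeg_of_integral {A M : Type u} [CommRing A] [IsDomain A] [CommRing M] [IsDomain M]
    [Algebra k A] [Algebra k M] (f : A →ₐ[k] M) (hf : Function.Injective f)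
    (hi : f.toRingHom.IsIntegral) : Algebra.trdeg k M = Algebra.trdeg k A := by
  letI : Algebra A M := f.toRingHom.toAlgebra
  haveI : IsScalarTower k A M := IsScalarTower.of_algebraMap_eq (fun x => (f.commutes x).symm)
  haveI : FaithfulSMul A M := (faithfulSMul_iff_algebraMap_injective _ _).mpr hf
  haveI : Algebra.IsIntegral A M := ⟨hi⟩
  have h := trdeg_add_eq k A (A := M)
  have h2 : Algebra.trdeg A M = 0 := by
    rw [trdeg_eq_zero_iff]
    infer_instance
  rw [h2, add_zero] at h
  exact h.symm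

theorem algebraic_of_trdeg {A M : Type u} [CommRing A] [IsDomain A] [CommRing M] [IsDomain M]
    [Algebra k A] [Algebra k M] (f : A →ₐ[k] M) (hf : Function.Injective f)
    (hA : Algebra.trdeg k A = 2) (hM : Algebra.trdeg k M = 2) (m : M) :
    ∃ P : Polynomial A, P ≠ 0 ∧ P.eval₂ f.toRingHom m = 0 := by
  letI : Algebra A M := f.toRingHom.toAlgebra
  haveI : IsScalarTower k A M := IsScalarTower.of_algebraMap_eq (fun x => (f.commutes x).symm)
  haveI : FaithfulSMul A M := (faithfulSMul_iff_algebraMap_injective _ _).mpr hf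
  have h := trdeg_add_eq k A (A := M)
  rw [hA, hM] at h
  have h2 : Algebra.trdeg A M = 0 := by
    have h4 := Cardinal.eq_of_add_eq_add_left (a := 2) (b := Algebra.trdeg A M) (c := 0)
      (by rw [h, add_zero]) Cardinal.ofNat_lt_aleph0
    exact h4
  rw [trdeg_eq_zero_iff] at h2
  obtain ⟨P, hP, hP2⟩ := h2.isAlgebraic m
  exact ⟨P, hP, hP2⟩

variable {B : Type u} [CommRing B] [Algebra k B] {n : ℕ}

/-- the cone map on a homogeneous component -/
theorem cone_of_homogeneous (v : Fin (n + 1) → B) (F : MvPolynomial (Fin (n + 1)) k) (m : ℕ)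
    (hF : F.IsHomogeneous m) :
    cone v F = Polynomial.C (MvPolynomial.aeval v F) * Polynomial.X ^ m := by
  rw [cone, MvPolynomial.aeval_def, MvPolynomial.aeval_def, MvPolynomial.eval₂_eq',
    MvPolynomial.eval₂_eq', map_sum, Finset.sum_mul]
  refine Finset.sum_congr rfl fun d hd => ?_
  have hdm : ∑ i, d i = m := by
    have := hF (MvPolynomial.mem_support_iff.mp hd)
    rw [← this]
    simp [Finsupp.weight_apply, Finsupp.sum_fintype]
  simp only [mul_pow, Finset.prod_mul_distrib, map_mul, map_prod, map_pow,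
    Finset.prod_pow_eq_pow_sum, hdm, mul_assoc]
  rfl

theorem cone_coeff (v : Fin (n + 1) → B) (F : MvPolynomial (Fin (n + 1)) k) (m : ℕ) :
    (cone v F).coeff m = MvPolynomial.aeval v (MvPolynomial.homogeneousComponent m F) := by
  conv_lhs => rw [← MvPolynomial.sum_homogeneousComponent F, map_sum, Polynomial.finsetSum_coeff]
  have h : ∀ i, (cone v (MvPolynomial.homogeneousComponent i F)).coeff m =
      if i = m then MvPolynomial.aeval v (MvPolynomial.homogeneousComponent m F) else 0 := by
    intro i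
    rw [cone_of_homogeneous v _ i (MvPolynomial.homogeneousComponent_isHomogeneous i F),
      Polynomial.coeff_C_mul_X_pow]
    by_cases h : i = m
    · subst h; simp
    · rw [if_neg (Ne.symm h), if_neg h]
  rw [Finset.sum_congr rfl (fun i _ => h i), Finset.sum_ite_eq']
  split_ifs with h2
  · rfl
  · rw [Finset.mem_range, not_lt] at h2
    rw [MvPolynomial.homogeneousComponent_eq_zero m F (by omega), map_zero]

theorem ker_homogeneous (v : Fin (n + 1) → B) (F : MvPolynomial (Fin (n + 1)) k)
    (hF : F ∈ RingHom.ker (cone (k := k) v)) (m : ℕ) :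
    MvPolynomial.homogeneousComponent m F ∈ RingHom.ker (cone (k := k) v) := by
  rw [RingHom.mem_ker] at hF ⊢
  rw [cone_of_homogeneous v _ m (MvPolynomial.homogeneousComponent_isHomogeneous m F),
    ← cone_coeff, hF]
  simp

theorem trdeg_poly [IsDomain B] (hB : Algebra.trdeg k B = 1) :
    Algebra.trdeg k (Polynomial B) = 2 := by
  have h := trdeg_add_eq k B (A := Polynomial B)
  rw [hB, Polynomial.trdeg_of_isDomain] at h
  rw [← h, one_add_one_eq_two]

/-- the polynomial in one variable over `k[X0, X1]` given by a polynomial in three variables -/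
def uni (f : MvPolynomial (Fin 3) k) : Polynomial (MvPolynomial (Fin 2) k) :=
  MvPolynomial.aeval ![Polynomial.C (MvPolynomial.X 0), Polynomial.C (MvPolynomial.X 1),
    Polynomial.X] f

theorem uni_eq (f : MvPolynomial (Fin 3) k) : uni f = ∑ d ∈ f.support,
    Polynomial.C (MvPolynomial.C (f.coeff d) * MvPolynomial.X 0 ^ d 0 *
      MvPolynomial.X 1 ^ d 1) * Polynomial.X ^ d 2 := by
  rw [uni, MvPolynomial.aeval_def, MvPolynomial.eval₂_eq']
  refine Finset.sum_congr rfl fun d _ => ?_
  rw [Fin.prod_univ_three]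
  simp only [Matrix.cons_val_zero, Matrix.cons_val_one, Matrix.cons_val, map_mul, map_pow]
  simp only [mul_assoc]
  rfl

theorem uni_monic {e : ℕ} (f : MvPolynomial (Fin 3) k) (hf : f.IsHomogeneous e)
    (h1 : f.coeff (Finsupp.single 2 e) = 1) : (uni f).Monic := by
  have hd : ∀ d ∈ f.support, d 0 + d 1 + d 2 = e := by
    intro d hd
    have := hf (MvPolynomial.mem_support_iff.mp hd)
    rw [← this]
    simp [Finsupp.weight_apply, Finsupp.sum_fintype, Fin.sum_univ_three]
  apply Polynomial.monic_of_natDegree_le_of_coeff_eq_one e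
  · rw [uni_eq]
    refine Polynomial.natDegree_sum_le_of_forall_le _ _ fun d hdd => ?_
    refine (Polynomial.natDegree_C_mul_X_pow_le _ _).trans ?_
    have := hd d hdd
    omega
  · rw [uni_eq, Polynomial.finsetSum_coeff]
    rw [Finset.sum_eq_single (Finsupp.single 2 e)]
    · rw [Polynomial.coeff_C_mul_X_pow, h1]
      simp
    · intro d hdd hne
      rw [Polynomial.coeff_C_mul_X_pow, if_neg]
      intro h2
      apply hne
      have := hd d hdd
      ext j
      fin_cases j
      · simp; omega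
      · simp; omega
      · simp; omega
    · intro h
      rw [MvPolynomial.notMem_support_iff, h1] at h
      exact absurd h one_ne_zero

/-- the Noether normalisation -/
def normW {n : ℕ} (𝔓 : Ideal (MvPolynomial (Fin (n + 1)) k))
    (L : Fin 2 → MvPolynomial (Fin (n + 1)) k) :
    MvPolynomial (Fin 2) k →ₐ[k] (MvPolynomial (Fin (n + 1)) k ⧸ 𝔓) :=
  (Ideal.Quotient.mkₐ k 𝔓).comp (MvPolynomial.aeval L)

theorem normW_integral {n : ℕ} (𝔓 : Ideal (MvPolynomial (Fin (n + 1)) k))
    (L : Fin 2 → MvPolynomial (Fin (n + 1)) k)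
    (hL : ∀ i, ∃ (e : ℕ) (f : MvPolynomial (Fin 3) k), 0 < e ∧ f.IsHomogeneous e ∧
        f.coeff (Finsupp.single 2 e) = 1 ∧
        MvPolynomial.aeval ![L 0, L 1, MvPolynomial.X i] f ∈ 𝔓) :
    (normW 𝔓 L).toRingHom.IsIntegral := by
  intro x
  obtain ⟨F, rfl⟩ := Ideal.Quotient.mk_surjective x
  induction F using MvPolynomial.induction_on with
  | C a =>
    have : Ideal.Quotient.mk 𝔓 (MvPolynomial.C a) =
        (normW 𝔓 L).toRingHom (MvPolynomial.C a) := by
      simp only [normW, AlgHom.toRingHom_eq_coe, RingHom.coe_coe, AlgHom.coe_comp,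
        Function.comp_apply, MvPolynomial.aeval_C]
      rfl
    rw [this]
    exact RingHom.isIntegralElem_map _
  | add p q hp hq =>
    rw [map_add]
    exact RingHom.IsIntegralElem.add _ hp hq
  | mul_X p i hp =>
    rw [map_mul]
    refine RingHom.IsIntegralElem.mul _ hp ?_
    obtain ⟨e, f, he, hf, h1, hmem⟩ := hL i
    refine ⟨uni f, uni_monic f hf h1, ?_⟩
    have key : (Polynomial.eval₂RingHom (normW 𝔓 L).toRingHom
        (Ideal.Quotient.mk 𝔓 (MvPolynomial.X i))).comp
        ((MvPolynomial.aeval (R := k) ![Polynomial.C (MvPolynomial.X (0 : Fin 2)),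
          Polynomial.C (MvPolynomial.X (1 : Fin 2)),
          Polynomial.X] : MvPolynomial (Fin 3) k →ₐ[k] Polynomial (MvPolynomial (Fin 2) k)
          ).toRingHom) =
        (Ideal.Quotient.mk 𝔓).comp
          (MvPolynomial.aeval ![L 0, L 1, MvPolynomial.X i] :
            MvPolynomial (Fin 3) k →ₐ[k] MvPolynomial (Fin (n + 1)) k).toRingHom := by
      apply MvPolynomial.ringHom_ext
      · intro a
        simp [normW, MvPolynomial.algebraMap_eq, Polynomial.algebraMap_apply]
        rfl
      · intro j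
        fin_cases j
        · simp [normW]
        · simp [normW]
        · simp
    have h2 := RingHom.congr_fun key f
    have h3 : Ideal.Quotient.mk 𝔓 (MvPolynomial.aeval ![L 0, L 1, MvPolynomial.X i] f) = 0 :=
      Ideal.Quotient.eq_zero_iff_mem.mpr hmem
    exact h2.trans h3

theorem normW_injective {n : ℕ} (𝔓 : Ideal (MvPolynomial (Fin (n + 1)) k))
    (L : Fin 2 → MvPolynomial (Fin (n + 1)) k)
    (hL : ∀ g : MvPolynomial (Fin 2) k, MvPolynomial.aeval L g ∈ 𝔓 → g = 0) :
    Function.Injective (normW 𝔓 L) := by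
  rw [injective_iff_map_eq_zero]
  intro g hg
  exact hL g (Ideal.Quotient.eq_zero_iff_mem.mp hg)

theorem infinite_ball {k : Type u} [NontriviallyNormedField k] {Ω : Type u} [NormedField Ω]
    [NormedAlgebra k Ω] (a : Ω) {δ : ℝ} (hδ : 0 < δ) : {x : Ω | ‖x - a‖ ≤ δ}.Infinite := by
  haveI : Filter.NeBot (nhdsWithin a {a}ᶜ) := Module.punctured_nhds_neBot k Ω a
  have h : {x : Ω | ‖x - a‖ ≤ δ} ∈ nhds a := by
    have := Metric.closedBall_mem_nhds a hδ
    refine Filter.mem_of_superset this fun x hx => ?_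
    rw [Metric.mem_closedBall, dist_eq_norm] at hx
    exact hx
  exact infinite_of_mem_nhds a h

theorem exists_close {k : Type u} [NontriviallyNormedField k] {Ω : Type u} [NormedField Ω]
    [NormedAlgebra k Ω] {r : ℕ} (h : MvPolynomial (Fin r) k) (hh : h ≠ 0) (a : Fin r → Ω)
    {δ : ℝ} (hδ : 0 < δ) :
    ∃ w : Fin r → Ω, (∀ j, ‖w j - a j‖ ≤ δ) ∧ MvPolynomial.aeval w h ≠ 0 := by
  by_contra hcon
  push Not at hcon
  apply hh
  apply MvPolynomial.map_injective (algebraMap k Ω) (algebraMap k Ω).injective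
  rw [map_zero]
  refine MvPolynomial.funext_set (fun j => {x : Ω | ‖x - a j‖ ≤ δ})
    (fun j => infinite_ball (k := k) (a j) hδ) fun x hx => ?_
  rw [map_zero, MvPolynomial.eval_map]
  exact hcon x (fun j => hx j (Set.mem_univ j))

end alg

end CURB

open CURB in
theorem curb_proof (k : Type u) [NontriviallyNormedField k] [IsUltrametricDist k]
    [CompleteSpace k] [IsAlgClosed k] (hNN : Stmt_NN.{u} k) (hGen : Stmt_Gen.{u} k)
    (hLim : Stmt_Lim.{u} k) (hDim : Stmt_Dim2.{u} k) : Stmt_CurB.{u} k := by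
  intro n B _ _ t v Q hQ hC hψ
  haveI := hC.domain
  haveI : (RingHom.ker (cone (k := k) v)).IsPrime := RingHom.ker_isPrime _
  have hdim := hDim n B t v hC hψ
  refine ⟨RingHom.ker (cone (k := k) v), inferInstance, fun F hF m => ker_homogeneous v F hF m,
    hdim, ?_⟩
  intro Ω _ _ _ _ G ρ hρ hG1 hG2 hG3 y hy0 hy
  obtain ⟨L, -, hLinj, hLint⟩ := hNN n _ inferInstance (fun F hF m => ker_homogeneous v F hF m)
    hdim
  have hWinj := normW_injective _ L hLinj
  have hWint := normW_integral _ L hLint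
  let j : (MvPolynomial (Fin (n + 1)) k ⧸ RingHom.ker (cone (k := k) v)) →ₐ[k] Polynomial B :=
    Ideal.kerLiftAlg (cone (k := k) v)
  have hj : Function.Injective j := Ideal.kerLiftAlg_injective (cone (k := k) v)
  haveI : Algebra.FiniteType k B := by
    constructor
    rw [Subalgebra.fg_def]
    exact ⟨_, (Set.finite_range v).insert t, hC.gen⟩
  haveI : Algebra.FiniteType k (Polynomial B) :=
    Algebra.FiniteType.trans (S := B) inferInstance inferInstance
  have h1 : Algebra.trdeg k B = 1 := by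
    rw [trdeg_of_integral (Polynomial.aeval t : Polynomial k →ₐ[k] B) hC.inj hC.integral]
    exact Polynomial.trdeg_of_isDomain
  have h2 : Algebra.trdeg k (Polynomial B) = 2 := trdeg_poly h1
  have h3 : Algebra.trdeg k (MvPolynomial (Fin (n + 1)) k ⧸ RingHom.ker (cone (k := k) v)) = 2 := by
    rw [trdeg_of_integral _ hWinj hWint, MvPolynomial.trdeg_of_isDomain]
    simp
  have hb : Polynomial.C (Polynomial.aeval t Q) * (Polynomial.X : Polynomial B) ≠ 0 := by
    refine mul_ne_zero ?_ Polynomial.X_ne_zero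
    rw [Ne, Polynomial.C_eq_zero]
    intro h
    exact hQ (hC.inj (by rw [h, map_zero]))
  obtain ⟨h, hh0, hh⟩ := hGen 2 _ (Polynomial B) (normW _ L) j hWinj hWint hj inferInstance
    (algebraic_of_trdeg j hj h3 h2) _ hb
  let Y : (MvPolynomial (Fin (n + 1)) k ⧸ RingHom.ker (cone (k := k) v)) →ₐ[k] Ω :=
    Ideal.Quotient.liftₐ _ (MvPolynomial.aeval y) hy
  have hYi : ∀ i, Y (Ideal.Quotient.mk _ (MvPolynomial.X i)) = y i := by
    intro i
    change MvPolynomial.aeval y (MvPolynomial.X i) = y i
    simp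
  have hε : 0 < ρ * ‖y‖ := mul_pos hρ (norm_pos_iff.mpr hy0)
  obtain ⟨δ, hδ, hδ2⟩ := hLim Ω 2 _ (normW _ L) hWinj hWint (n + 1)
    (fun i => Ideal.Quotient.mk _ (MvPolynomial.X i)) Y (ρ * ‖y‖) hε
  obtain ⟨w, hw1, hw2⟩ := exists_close h hh0 (fun j => Y (normW _ L (MvPolynomial.X j))) hδ
  obtain ⟨y', hy'1, hy'2⟩ := hδ2 w hw1
  have hy'h : y' (normW _ L h) = MvPolynomial.aeval w h := by
    have : y'.comp (normW _ L) = MvPolynomial.aeval w := by
      apply MvPolynomial.algHom_ext
      intro i
      rw [AlgHom.comp_apply, hy'1, MvPolynomial.aeval_X]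
    exact DFunLike.congr_fun this h
  obtain ⟨ψ, hψ1, hψ2⟩ := hh Ω y' (by rw [hy'h]; exact hw2)
  rw [map_mul] at hψ2
  have hψX : ψ Polynomial.X ≠ 0 := right_ne_zero_of_mul hψ2
  have hψQ : ψ (Polynomial.C (Polynomial.aeval t Q)) ≠ 0 := left_ne_zero_of_mul hψ2
  let φ : B →ₐ[k] Ω := ψ.comp (Polynomial.CAlgHom)
  have hφ : ∀ b, φ b = ψ (Polynomial.C b) := fun b => rfl
  have hGφ : (fun i => φ (v i)) ∈ G := by
    apply hG3
    rw [Polynomial.aeval_algHom_apply, hφ]
    exact hψQ
  have hG' := hG1 _ hGφ (ψ Polynomial.X) hψX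
  refine hG2 _ hG' y hy0 fun i => ?_
  have h5 : ψ Polynomial.X * φ (v i) = y' (Ideal.Quotient.mk _ (MvPolynomial.X i)) := by
    rw [← hψ1]
    have : j (Ideal.Quotient.mk _ (MvPolynomial.X i)) = Polynomial.C (v i) * Polynomial.X := by
      change cone v (MvPolynomial.X i) = _
      simp [cone]
    change ψ Polynomial.X * ψ (Polynomial.C (v i)) =
      ψ (j (Ideal.Quotient.mk _ (MvPolynomial.X i)))
    rw [this, map_mul, mul_comm]
  rw [h5]
  have := hy'2 i
  rw [hYi] at this
  exact this

end Pool.Agent.DC
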