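import Pool.Agent.DC.StmtsB

/-!
# The core of the assembly, over a complete algebraically closed field of characteristic `p`
-/

set_option autoImplicit false
set_option linter.unusedSectionVars false

noncomputable section

namespace Pool.Agent.DC

open scoped Classical
open Polynomial

universe u

theorem real_est {A ρ₀ x ts r : ℝ} {D D' E : ℕ} (hρ : 0 < ρ₀) (hts : 0 < ts)
    (hx : 1 ≤ x) (hr : 1 ≤ r) (hrD : ts * x ≤ r ^ D) (hE : D * D' ≤ E)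
    (hA2 : A ≤ 2 ^ E * ts ^ D') : A * ρ₀ ^ E * x ^ D' ≤ (2 * ρ₀ * r) ^ E := by
  have h1 : (ts * x) ^ D' ≤ r ^ E := by
    calc (ts * x) ^ D' ≤ (r ^ D) ^ D' := by gcongr
      _ = r ^ (D * D') := by rw [pow_mul]
      _ ≤ r ^ E := pow_le_pow_right₀ hr hE
  have h2 : 0 < x ^ D' := by positivity
  calc A * ρ₀ ^ E * x ^ D' ≤ (2 ^ E * ts ^ D') * ρ₀ ^ E * x ^ D' := by gcongr
    _ = 2 ^ E * ρ₀ ^ E * (ts * x) ^ D' := by rw [mul_pow ts x]; ring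
    _ ≤ 2 ^ E * ρ₀ ^ E * r ^ E := by gcongr
    _ = (2 * ρ₀ * r) ^ E := by rw [mul_pow, mul_pow]

theorem exists_exp (p : ℕ) (hp : 1 < p) (κ N : ℕ) (A y : ℝ) (hy : 0 < y) :
    ∃ e : ℕ, N ≤ p ^ (κ + e) ∧ A ≤ 2 ^ p ^ (κ + e) * y := by
  obtain ⟨m, hm⟩ := pow_unbounded_of_one_lt (A / y) (one_lt_two (α := ℝ))
  refine ⟨max N m, ?_, ?_⟩
  · calc N ≤ κ + max N m := by omega
      _ ≤ p ^ (κ + max N m) := (Nat.lt_pow_self hp).le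
  · have h1 : m ≤ p ^ (κ + max N m) := by
      calc m ≤ κ + max N m := by omega
        _ ≤ _ := (Nat.lt_pow_self hp).le
    have h2 : A / y ≤ 2 ^ p ^ (κ + max N m) :=
      hm.le.trans (pow_le_pow_right₀ one_le_two h1)
    rwa [div_le_iff₀ hy] at h2

section core

variable {k : Type u} [NontriviallyNormedField k] [IsUltrametricDist k] [CompleteSpace k]
  [IsAlgClosed k] {p : ℕ} [Fact p.Prime] [CharP k p]

theorem mem_fib {c : Cov k} {a : Tc k} {θ : k} : θ ∈ fib c.P a ↔ ev2 a.1 θ c.P = 0 := by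
  have h0 : c.P.map (evalRingHom a.1) ≠ 0 := (c.monic.map _).ne_zero
  have h1 : ev2 a.1 θ c.P = (c.P.map (evalRingHom a.1)).eval θ := by
    rw [ev2_def]
    rfl
  rw [h1, fib, Multiset.mem_toFinset, mem_roots h0, IsRoot.def]

theorem fib_nonempty (c : Cov k) (a : Tc k) : ∃ θ, θ ∈ fib c.P a := by
  have h1 : (c.P.map (evalRingHom a.1)).degree ≠ 0 := by
    rw [c.monic.degree_map, degree_eq_natDegree c.monic.ne_zero]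
    exact_mod_cast c.pos.ne'
  obtain ⟨θ, hθ⟩ := IsAlgClosed.exists_root _ h1
  refine ⟨θ, ?_⟩
  rw [mem_fib, ev2_def]
  exact hθ

/-- The properties of the exponent `E = p ^ (κ + e)` in characteristic `p`. -/
theorem sub_pow_E {Ω : Type u} [Field Ω] [Algebra k Ω] (m : ℕ) (x y : Ω) :
    (x - y) ^ p ^ m = x ^ p ^ m - y ^ p ^ m := by
  have : CharP Ω p := charP_of_injective_algebraMap (algebraMap k Ω).injective p
  exact sub_pow_char_pow x y m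

/-- The data obtained from `FIELD`, `RESC` and `CAP`. -/
theorem core₁ (hfield : Stmt_Field k p) (hresc : Stmt_Resc k) (hcap : Stmt_Cap k p)
    {n : ℕ} {B : Type u} [CommRing B] [Algebra k B] {t : B} {z : Fin (n + 2 + 1) → B}
    (hCR : CurveRing k B t z) (D : ℕ) {s₁ s₂ ρ₀ : ℝ} (hs₁ : 0 < s₁) (hs : s₁ < s₂)
    (hρ : 0 < ρ₀) (𝒩 : Finset k)
    (hnear : ∀ ψ : B →ₐ[k] k, s₁ ≤ ‖ψ t‖ → ‖ψ t‖ ≤ s₂ → ∀ i : Fin (n + 1),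
      ∃ x ∈ 𝒩, ‖ψ (z i.succ.succ) / ψ t - x‖ ≤ ρ₀) :
    ∃ (ts : k) (c : Cov k) (q' : k[X]) (m : ℕ) (A : ℝ) (D' : ℕ)
      (Z : Fin (n + 1) → Tc k → k → k) (Φ : (Fin (n + 1) → k) → k[X][X]),
      s₁ < ‖ts‖ ∧ ‖ts‖ < s₂ ∧ (∀ a : Tc k, q'.eval a.1 ≠ 0) ∧ D * D' ≤ p ^ m ∧
      A ≤ 2 ^ p ^ m * ‖ts‖ ^ D' ∧ (∀ l, (Φ l).Monic) ∧
      (∀ l, ∀ a : Tc k, ∀ θ ∈ fib c.P a, ev2 a.1 (∑ i, l i * Z i a θ) (Φ l) = 0) ∧
      ∀ (Ω : Type u) [NormedField Ω] [NormedAlgebra k Ω] [IsUltrametricDist Ω] [CompleteSpace Ω]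
        [IsAlgClosed Ω] (a : Ω) (v : Fin (n + 1) → Ω),
        (∀ l, ev2 a (∑ i, algebraMap k Ω (l i) * v i ^ p ^ m) (Φ l) = 0) → aeval a q' ≠ 0 →
        ∃ g : Ω, g ≠ 0 ∧
          (1 ≤ ‖a‖ → ∃ ψ : B →ₐ[k] Ω, ψ t = algebraMap k Ω ts * a ∧
            ∀ i, ‖v i / g - ψ (z i.succ.succ) / ψ t‖ ^ p ^ m ≤ A * ρ₀ ^ p ^ m * ‖a‖ ^ D') ∧
          (‖a‖ ≤ 1 → ∃ ψ : B →ₐ[k] k, ‖ψ t‖ = ‖ts‖ ∧
            ∀ i, ‖v i / g - algebraMap k Ω (ψ (z i.succ.succ) / ψ t)‖ ^ p ^ m ≤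
              A * ρ₀ ^ p ^ m) := by
  have hp : p.Prime := Fact.out
  obtain ⟨κ, P, N, q, U, W, D₀, hP, hPd, hbez, hD₀, hq, hpt⟩ := hfield (n + 2) B t z hCR
  have hq2 : q * X ^ p ^ κ ≠ 0 := mul_ne_zero hq (pow_ne_zero _ X_ne_zero)
  obtain ⟨ts, c, N', q', hts1, hts2, hq', hresc'⟩ := hresc n P (fun i => N i.succ.succ)
    (q * X ^ p ^ κ) U W D₀ s₁ s₂ hP hPd hbez hD₀ hq2 hs₁ hs
  have key : ∀ (Ω : Type u) [NormedField Ω] [NormedAlgebra k Ω] [IsAlgClosed Ω] (a θ : Ω),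
      ev2 a θ c.P = 0 → aeval a q' ≠ 0 → ∃ ψ : B →ₐ[k] Ω, ψ t = algebraMap k Ω ts * a ∧
        ∀ i, ev2 a θ (N' i) / aeval a q' = (ψ (z i.succ.succ) / ψ t) ^ p ^ κ := by
    intro Ω _ _ _ a θ hθ hqa
    obtain ⟨θ', h1, h2, h3⟩ := hresc' Ω a θ hθ
    obtain ⟨ψ, h4, h5⟩ := hpt Ω (algebraMap k Ω ts * a) θ' h1
    refine ⟨ψ, h4, fun i => ?_⟩
    rw [map_mul, map_pow, aeval_X] at h2
    rw [h2] at hqa
    rw [h3, h2, ← h5 i.succ.succ, h4, div_pow]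
    have h6 := left_ne_zero_of_mul hqa
    have h7 := right_ne_zero_of_mul hqa
    field_simp
  have hnear' : ∀ a : Tc k, ∀ θ ∈ fib c.P a, ∀ i, ∃ b ∈ (fun _ : Fin (n + 1) =>
      𝒩.image fun x => x ^ p ^ κ) i, ‖ev2 a.1 θ (N' i) / q'.eval a.1 - b‖ ≤ ρ₀ ^ p ^ κ := by
    intro a θ hθ i
    have hqa : aeval a.1 q' ≠ 0 := by
      rw [coe_aeval_eq_eval]
      exact hq' a
    obtain ⟨ψ, h1, h2⟩ := key k a.1 θ (mem_fib.mp hθ) hqa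
    have h3 : ‖ψ t‖ = ‖ts‖ := by
      rw [h1, Algebra.algebraMap_self, RingHom.id_apply, norm_mul, a.2, mul_one]
    obtain ⟨x, hx, hx2⟩ := hnear ψ (by rw [h3]; exact hts1.le) (by rw [h3]; exact hts2.le) i
    refine ⟨x ^ p ^ κ, Finset.mem_image_of_mem _ hx, ?_⟩
    have h4 := h2 i
    rw [coe_aeval_eq_eval] at h4
    rw [h4, ← sub_pow_E (k := k) (p := p), norm_pow]
    gcongr
  obtain ⟨A, D', hA, hcap'⟩ := hcap c n N' q' (ρ₀ ^ p ^ κ) _ (by positivity) hq' hnear'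
  have hts0 : 0 < ‖ts‖ := hs₁.trans hts1
  obtain ⟨e, he1, he2⟩ := exists_exp p hp.one_lt κ (D * D') A (‖ts‖ ^ D') (by positivity)
  obtain ⟨Z, Φ, hΦ, hZ, hζ⟩ := hcap' e
  refine ⟨ts, c, q', κ + e, A, D', Z, Φ, hts1, hts2, hq', he1, he2, fun l => (hΦ l).1, hZ, ?_⟩
  intro Ω _ _ _ _ _ a v hv hqa
  obtain ⟨g, hg⟩ := IsAlgClosed.exists_pow_nat_eq (aeval a q') (pow_pos hp.pos κ)
  have hg0 : g ≠ 0 := by
    rintro rfl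
    rw [zero_pow (pow_pos hp.pos κ).ne'] at hg
    exact hqa hg.symm
  have hE : p ^ (κ + e) = p ^ κ * p ^ e := pow_add _ _ _
  obtain ⟨hout, hin⟩ := hζ Ω a (fun i => v i ^ p ^ (κ + e)) hv hqa
  have hvg : ∀ i, v i ^ p ^ (κ + e) / aeval a q' ^ p ^ e = (v i / g) ^ p ^ (κ + e) := by
    intro i
    rw [← hg, ← pow_mul, ← hE, div_pow]
  refine ⟨g, hg0, ?_, ?_⟩
  · intro ha
    obtain ⟨θ, hθ, hθ2⟩ := hout ha
    obtain ⟨ψ, h1, h2⟩ := key Ω a θ hθ hqa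
    refine ⟨ψ, h1, fun i => ?_⟩
    have h3 := hθ2 i
    rw [hvg, h2 i, ← pow_mul, ← hE, ← sub_pow_E (k := k) (p := p), norm_pow, ← pow_mul,
      ← hE] at h3
    exact h3
  · intro ha
    obtain ⟨a₀, θ, hθ, hθ2⟩ := hin ha
    have hqa0 : aeval a₀.1 q' ≠ 0 := by
      rw [coe_aeval_eq_eval]
      exact hq' a₀
    obtain ⟨ψ, h1, h2⟩ := key k a₀.1 θ (mem_fib.mp hθ) hqa0
    refine ⟨ψ, ?_, fun i => ?_⟩
    · rw [h1, Algebra.algebraMap_self, RingHom.id_apply, norm_mul, a₀.2, mul_one]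
    · have h3 := hθ2 i
      have h4 := h2 i
      rw [coe_aeval_eq_eval] at h4
      rw [hvg, h4, ← pow_mul, ← hE, map_pow, ← sub_pow_E (k := k) (p := p), norm_pow, ← pow_mul,
        ← hE] at h3
      exact h3

/-- From the closeness of the `p ^ m`-th powers to goodness. -/
theorem core₂ {n : ℕ} {B : Type u} [CommRing B] [Algebra k B] {t : B}
    {z : Fin (n + 2 + 1) → B} {D : ℕ} {s₁ ρ₀ ρg : ℝ} (hs₁ : 0 < s₁) (hρ : 0 < ρ₀)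
    (hρg : 0 < ρg) (hρg1 : ρg < 1) {ts : k} {q' : k[X]} {m : ℕ} {A : ℝ} {D' : ℕ}
    {Φ : (Fin (n + 1) → k) → k[X][X]} (hts : s₁ < ‖ts‖) (hts1 : ‖ts‖ < 1)
    (hE1 : D * D' ≤ p ^ m)
    (hE2 : A ≤ 2 ^ p ^ m * ‖ts‖ ^ D')
    (Ω : Type u) [NormedField Ω] [NormedAlgebra k Ω] [IsUltrametricDist Ω] [CompleteSpace Ω]
    [IsAlgClosed Ω]
    (hmain : ∀ (a : Ω) (v : Fin (n + 1) → Ω),
      (∀ l, ev2 a (∑ i, algebraMap k Ω (l i) * v i ^ p ^ m) (Φ l) = 0) → aeval a q' ≠ 0 →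
      ∃ g : Ω, g ≠ 0 ∧
        (1 ≤ ‖a‖ → ∃ ψ : B →ₐ[k] Ω, ψ t = algebraMap k Ω ts * a ∧
          ∀ i, ‖v i / g - ψ (z i.succ.succ) / ψ t‖ ^ p ^ m ≤ A * ρ₀ ^ p ^ m * ‖a‖ ^ D') ∧
        (‖a‖ ≤ 1 → ∃ ψ : B →ₐ[k] k, ‖ψ t‖ = ‖ts‖ ∧
          ∀ i, ‖v i / g - algebraMap k Ω (ψ (z i.succ.succ) / ψ t)‖ ^ p ^ m ≤ A * ρ₀ ^ p ^ m))
    (G : Set (Fin (n + 1) → Ω))
    (hscale : ∀ w ∈ G, ∀ c : Ω, c ≠ 0 → (fun i => c * w i) ∈ G)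
    (hclose : ∀ w ∈ G, ∀ (w' : Fin (n + 1) → Ω) (i₀ : Fin (n + 1)), w' i₀ ≠ 0 →
      (∀ i, ‖w i - w' i‖ ≤ ρg * ‖w' i₀‖) → w' ∈ G)
    (hpt : ∀ ψ : B →ₐ[k] Ω, s₁ ≤ ‖ψ t‖ → ∃ r : ℝ, 1 ≤ r ∧ r ^ D = max 1 ‖ψ t‖ ∧
      (∃ i₀ : Fin (n + 1), 2 * ρ₀ / ρg * r ≤ ‖ψ (z i₀.succ.succ) / ψ t‖) ∧
      (fun i : Fin (n + 1) => ψ (z i.succ.succ) / ψ t) ∈ G)
    (a : Ω) (v : Fin (n + 1) → Ω)
    (hv : ∀ l, ev2 a (∑ i, algebraMap k Ω (l i) * v i ^ p ^ m) (Φ l) = 0)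
    (hqa : aeval a q' ≠ 0) : v ∈ G := by
  have hp : p.Prime := Fact.out
  have hts0 : 0 < ‖ts‖ := hs₁.trans hts
  have hE : p ^ m ≠ 0 := (pow_pos hp.pos m).ne'
  -- the common conclusion
  have key : ∀ (g : Ω) (w : Fin (n + 1) → Ω) (r : ℝ) (i₀ : Fin (n + 1)), g ≠ 0 → 1 ≤ r →
      w ∈ G → 2 * ρ₀ / ρg * r ≤ ‖w i₀‖ → (∀ i, ‖v i / g - w i‖ ≤ 2 * ρ₀ * r) → v ∈ G := by
    intro g w r i₀ hg hr hw hi₀ hcl
    have h0 : 2 * ρ₀ * r ≤ ρg * ‖w i₀‖ := by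
      calc 2 * ρ₀ * r = ρg * (2 * ρ₀ / ρg * r) := by field_simp
        _ ≤ ρg * ‖w i₀‖ := by gcongr
    have hwpos : 0 < ‖w i₀‖ := by
      have : 0 < 2 * ρ₀ / ρg * r := by positivity
      linarith
    have h1 : ‖v i₀ / g - w i₀‖ < ‖w i₀‖ := by
      calc ‖v i₀ / g - w i₀‖ ≤ ρg * ‖w i₀‖ := (hcl i₀).trans h0
        _ < 1 * ‖w i₀‖ := by gcongr
        _ = ‖w i₀‖ := one_mul _
    have h2 : ‖v i₀ / g‖ = ‖w i₀‖ := by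
      have h3 : v i₀ / g = (v i₀ / g - w i₀) + w i₀ := by ring
      rw [h3, IsUltrametricDist.norm_add_eq_max_of_norm_ne_norm h1.ne, max_eq_right h1.le]
    have h4 : (fun i => v i / g) ∈ G := by
      apply hclose w hw _ i₀
      · intro h0
        rw [h0, norm_zero] at h2
        exact hwpos.ne h2
      · intro i
        rw [norm_sub_rev, h2]
        exact (hcl i).trans h0
    have h5 := hscale _ h4 g hg
    have h6 : (fun i => g * (v i / g)) = v := by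
      funext i
      field_simp
    rwa [h6] at h5
  obtain ⟨g, hg, hout, hin⟩ := hmain a v hv hqa
  rcases le_total 1 ‖a‖ with ha | ha
  · obtain ⟨ψ, h1, h2⟩ := hout ha
    have hn : ‖ψ t‖ = ‖ts‖ * ‖a‖ := by rw [h1, norm_mul, norm_algebraMap']
    obtain ⟨r, hr, hrD, ⟨i₀, hi₀⟩, hG⟩ := hpt ψ (by
      rw [hn]
      calc s₁ ≤ ‖ts‖ * 1 := by rw [mul_one]; exact hts.le
        _ ≤ ‖ts‖ * ‖a‖ := by gcongr)
    refine key g _ r i₀ hg hr hG hi₀ fun i => ?_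
    rw [← pow_le_pow_iff_left₀ (norm_nonneg _) (by positivity) hE]
    exact (h2 i).trans (real_est hρ hts0 ha hr (by
      rw [hrD, ← hn]
      exact le_max_right _ _) hE1 hE2)
  · obtain ⟨ψ₀, h1, h2⟩ := hin ha
    set ψ : B →ₐ[k] Ω := (Algebra.ofId k Ω).comp ψ₀ with hψ
    have hψa : ∀ x, ψ x = algebraMap k Ω (ψ₀ x) := fun x => rfl
    have hn : ‖ψ t‖ = ‖ts‖ := by rw [hψa, norm_algebraMap', h1]
    obtain ⟨r, hr, hrD, ⟨i₀, hi₀⟩, hG⟩ := hpt ψ (by rw [hn]; exact hts.le)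
    refine key g _ r i₀ hg hr hG hi₀ fun i => ?_
    rw [← pow_le_pow_iff_left₀ (norm_nonneg _) (by positivity) hE]
    have h3 := h2 i
    rw [map_div₀, ← hψa, ← hψa] at h3
    refine h3.trans ?_
    have h4 := real_est (x := 1) hρ hts0 le_rfl hr (D := D) (by
      rw [hrD, mul_one, ← hn]
      exact le_max_right _ _) hE1 hE2
    rwa [one_pow, mul_one] at h4

end core

end Pool.Agent.DC
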