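import Pool.Agent.DC.Core

/-!
# The core of the assembly, second part
-/

set_option autoImplicit false
set_option linter.unusedSectionVars false

noncomputable section

namespace Pool.Agent.DC

open scoped Classical
open Polynomial

universe u

section core

variable {k : Type u} [NontriviallyNormedField k] [IsUltrametricDist k] [CompleteSpace k]
  [IsAlgClosed k] {p : ℕ} [Fact p.Prime] [CharP k p]

/-- Points of a curve over a given value of `t`. -/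
theorem exists_point (hext : Stmt_HomExt.{u}) {n : ℕ} {B : Type u} [CommRing B] [Algebra k B]
    {t : B} {v : Fin (n + 1) → B} (hCR : CurveRing k B t v) (a : k) :
    ∃ ψ : B →ₐ[k] k, ψ t = a := by
  obtain ⟨ψ, hψ⟩ := hext k[X] B k (aeval (R := k) t).toRingHom hCR.inj hCR.integral
    (evalRingHom a)
  have h1 : ∀ f : k[X], ψ (aeval t f) = f.eval a := fun f => RingHom.congr_fun hψ f
  refine ⟨{ ψ with commutes' := fun r => ?_ }, ?_⟩
  · have h2 := h1 (C r)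
    rw [aeval_C, eval_C] at h2
    exact h2
  · have h2 := h1 X
    rw [aeval_X, eval_X] at h2
    exact h2

/-- Elements of prescribed norm, avoiding the zeros of a polynomial. -/
theorem exists_norm_between (q : k[X]) (hq : q ≠ 0) {x y : ℝ} (hx : 0 < x) (hxy : x < y) :
    ∃ a : k, x < ‖a‖ ∧ ‖a‖ < y ∧ q.eval a ≠ 0 := by
  -- a point with norm in a smaller interval avoiding the finite set
  obtain ⟨x', y', hx', hxy', hy', hav⟩ : ∃ x' y' : ℝ, x ≤ x' ∧ x' < y' ∧ y' ≤ y ∧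
      ∀ b ∈ q.roots.toFinset, ¬(x' < ‖b‖ ∧ ‖b‖ < y') := by
    have h1 : ∀ s : Finset k, ∃ x' y' : ℝ, x ≤ x' ∧ x' < y' ∧ y' ≤ y ∧
        ∀ b ∈ s, ¬(x' < ‖b‖ ∧ ‖b‖ < y') := by
      intro s
      induction s using Finset.induction_on with
      | empty => exact ⟨x, y, le_rfl, hxy, le_rfl, by simp⟩
      | insert c s _ ih =>
        obtain ⟨x', y', h1, h2, h3, h4⟩ := ih
        by_cases hc : x' < ‖c‖ ∧ ‖c‖ < y'
        · refine ⟨x', ‖c‖, h1, hc.1, hc.2.le.trans h3, ?_⟩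
          intro b hb
          rcases Finset.mem_insert.mp hb with rfl | hb
          · rintro ⟨_, h⟩
            exact lt_irrefl _ h
          · rintro ⟨h5, h6⟩
            exact h4 b hb ⟨h5, h6.trans hc.2⟩
        · refine ⟨x', y', h1, h2, h3, ?_⟩
          intro b hb
          rcases Finset.mem_insert.mp hb with rfl | hb
          · exact hc
          · exact h4 b hb
    exact h1 _
  have hx'0 : 0 < x' := hx.trans_le hx'
  -- density of the norms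
  obtain ⟨c, hc⟩ := NormedField.exists_one_lt_norm k
  have hc0 : 0 < ‖c‖ := zero_lt_one.trans hc
  -- choose `N` with `‖c‖ ^ (1 / N) < y' / x'`
  have hlog : 0 < Real.log (y' / x') := Real.log_pos (by rwa [lt_div_iff₀ hx'0, one_mul])
  have hlogc : 0 < Real.log ‖c‖ := Real.log_pos hc
  obtain ⟨N, hN⟩ := exists_nat_gt (Real.log ‖c‖ / Real.log (y' / x'))
  have hN0 : 0 < N := by
    rcases Nat.eq_zero_or_pos N with h | h
    · rw [h] at hN
      have : 0 < Real.log ‖c‖ / Real.log (y' / x') := div_pos hlogc hlog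
      simp at hN
      linarith
    · exact h
  obtain ⟨d, hd⟩ := IsAlgClosed.exists_pow_nat_eq c hN0
  have hdn : ‖d‖ ^ N = ‖c‖ := by rw [← norm_pow, hd]
  have hd1 : 1 < ‖d‖ := by
    by_contra h
    push Not at h
    have := pow_le_one₀ (n := N) (norm_nonneg d) h
    rw [hdn] at this
    linarith
  have hdlog : Real.log ‖d‖ < Real.log (y' / x') := by
    have h1 : (N : ℝ) * Real.log ‖d‖ = Real.log ‖c‖ := by rw [← Real.log_pow, hdn]
    rw [div_lt_iff₀ hlog, ← h1] at hN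
    have hN' : (0 : ℝ) < N := by exact_mod_cast hN0
    exact lt_of_mul_lt_mul_left hN hN'.le
  have hlogd : 0 < Real.log ‖d‖ := Real.log_pos hd1
  -- `‖d‖ ^ m ∈ (x', y')` for some integer `m`
  set m : ℤ := ⌊Real.log x' / Real.log ‖d‖⌋ + 1 with hm
  have hm1 : Real.log x' < m * Real.log ‖d‖ := by
    rw [← div_lt_iff₀ hlogd, hm]
    push_cast
    exact Int.lt_floor_add_one _
  have hm2 : m * Real.log ‖d‖ < Real.log y' := by
    have h1 : (⌊Real.log x' / Real.log ‖d‖⌋ : ℝ) * Real.log ‖d‖ ≤ Real.log x' := by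
      rw [← le_div_iff₀ hlogd]
      exact Int.floor_le _
    have h2 : Real.log (y' / x') = Real.log y' - Real.log x' :=
      Real.log_div (by linarith) hx'0.ne'
    rw [hm]
    push_cast
    linarith
  have hdm : Real.log ‖d ^ m‖ = m * Real.log ‖d‖ := by rw [norm_zpow, Real.log_zpow]
  have hdm0 : 0 < ‖d ^ m‖ := by
    rw [norm_pos_iff]
    exact zpow_ne_zero _ (norm_pos_iff.mp (zero_lt_one.trans hd1))
  refine ⟨d ^ m, ?_, ?_, ?_⟩
  · rw [← hdm] at hm1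
    exact hx'.trans_lt ((Real.log_lt_log_iff hx'0 hdm0).mp hm1)
  · rw [← hdm] at hm2
    exact ((Real.log_lt_log_iff hdm0 (by linarith)).mp hm2).trans_le hy'
  · intro h0
    apply hav (d ^ m)
    · rw [Multiset.mem_toFinset, mem_roots hq]
      exact h0
    · rw [← hdm] at hm1 hm2
      exact ⟨(Real.log_lt_log_iff hx'0 hdm0).mp hm1,
        (Real.log_lt_log_iff hdm0 (by linarith)).mp hm2⟩

theorem ne_zero_of_ne (q : k[X]) (hq : ∀ a : Tc k, q.eval a.1 ≠ 0) : q ≠ 0 := by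
  rintro rfl
  exact hq ⟨1, norm_one⟩ eval_zero

/-- The existence of the projective curve. -/
theorem core₃ (hfield : Stmt_Field k p) (hresc : Stmt_Resc k) (hcap : Stmt_Cap k p)
    (hsup : Stmt_Sup k) (hA : Stmt_CurA k p) (hB : Stmt_CurB k) (hext : Stmt_HomExt.{u})
    {n : ℕ} {B : Type u} [CommRing B] [Algebra k B] {t : B} {z : Fin (n + 2 + 1) → B}
    (hCR : CurveRing k B t z) (D : ℕ) (hD : 0 < D) {s₁ s₂ ρ₀ R : ℝ} (hs₁ : 0 < s₁)
    (hs : s₁ < s₂) (hs₂ : s₂ < 1) (hρ : 0 < ρ₀) (hR : 1 < R) (𝒩 : Finset k)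
    (hnear : ∀ ψ : B →ₐ[k] k, s₁ ≤ ‖ψ t‖ → ‖ψ t‖ ≤ s₂ → ∀ i : Fin (n + 1),
      ∃ x ∈ 𝒩, ‖ψ (z i.succ.succ) / ψ t - x‖ ≤ ρ₀)
    (hnc : ∀ (ψ₁ ψ₂ : B →ₐ[k] k) (v₁ v₂ : Fin (n + 1) → k), 1 < ‖ψ₁ t‖ → ‖ψ₁ t‖ < ‖ψ₂ t‖ →
      ‖ψ₂ t‖ < R →
      (∀ r : ℝ, 0 < r → r ^ D = ‖ψ₁ t‖ →
        ∀ i, ‖ψ₁ (z i.succ.succ) / ψ₁ t - v₁ i‖ ≤ 2 * ρ₀ * r) →
      (∀ r : ℝ, 0 < r → r ^ D = ‖ψ₂ t‖ →
        ∀ i, ‖ψ₂ (z i.succ.succ) / ψ₂ t - v₂ i‖ ≤ 2 * ρ₀ * r) →
      LinearIndependent k ![v₁, v₂]) :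
    ∃ 𝔓 : Ideal (MvPolynomial (Fin (n + 1)) k), 𝔓.IsPrime ∧
      (∀ F ∈ 𝔓, ∀ m, MvPolynomial.homogeneousComponent m F ∈ 𝔓) ∧
      ringKrullDim (MvPolynomial (Fin (n + 1)) k ⧸ 𝔓) = 2 ∧
      ∀ (Ω : Type u) [NormedField Ω] [NormedAlgebra k Ω] [IsUltrametricDist Ω] [CompleteSpace Ω]
        [IsAlgClosed Ω] (G : Set (Fin (n + 1) → Ω)) (ρg : ℝ), 0 < ρg → ρg < 1 →
        (∀ w ∈ G, ∀ c : Ω, c ≠ 0 → (fun i => c * w i) ∈ G) →
        (∀ w ∈ G, ∀ (w' : Fin (n + 1) → Ω) (i₀ : Fin (n + 1)), w' i₀ ≠ 0 →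
          (∀ i, ‖w i - w' i‖ ≤ ρg * ‖w' i₀‖) → w' ∈ G) →
        (∀ ψ : B →ₐ[k] Ω, s₁ ≤ ‖ψ t‖ → ∃ r : ℝ, 1 ≤ r ∧ r ^ D = max 1 ‖ψ t‖ ∧
          (∃ i₀ : Fin (n + 1), 2 * ρ₀ / ρg * r ≤ ‖ψ (z i₀.succ.succ) / ψ t‖) ∧
          (fun i : Fin (n + 1) => ψ (z i.succ.succ) / ψ t) ∈ G) →
        ∀ y : Fin (n + 1) → Ω, y ≠ 0 → (∀ F ∈ 𝔓, MvPolynomial.aeval y F = 0) → y ∈ G := by
  have hp : p.Prime := Fact.out
  obtain ⟨ts, c, q', m, A, D', Z, Φ, hts1, hts2, hq', hE1, hE2, hΦ, hZ, hmain⟩ :=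
    core₁ hfield hresc hcap hCR D hs₁ hs hρ 𝒩 hnear
  have hts0 : 0 < ‖ts‖ := hs₁.trans hts1
  have hE : p ^ m ≠ 0 := (pow_pos hp.pos m).ne'
  have hq0 : q' ≠ 0 := ne_zero_of_ne q' hq'
  -- the ring of functions on the cover
  let S : Type u := {x : Tc k × k // x.2 ∈ fib c.P x.1}
  let i : k[X] →+* (S → k) := RingHom.pi fun x => evalRingHom x.1.1.1
  have hi : ∀ f x, i f x = f.eval x.1.1.1 := fun f x => rfl
  have hinj : Function.Injective i := by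
    rw [injective_iff_map_eq_zero]
    intro f hf
    have h1 : gn f ≤ 0 := hsup f 0 le_rfl fun a => by
      obtain ⟨θ, hθ⟩ := fib_nonempty c a
      have h2 := congrFun hf ⟨(a, θ), hθ⟩
      rw [hi] at h2
      change f.eval a.1 = 0 at h2
      rw [h2, norm_zero]
    exact gn_eq_zero (le_antisymm h1 (gn_nonneg f))
  have hann : ∀ l, (Φ l).eval₂ i (∑ j, i (C (l j)) * (fun x : S => Z j x.1.1 x.1.2)) = 0 := by
    intro l
    funext x
    have h1 : ((Pi.evalRingHom (fun _ : S => k) x).comp i) = evalRingHom x.1.1.1 := by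
      ext f <;> rfl
    have h2 := Polynomial.hom_eval₂ (Φ l) i (Pi.evalRingHom (fun _ : S => k) x)
      (∑ j, i (C (l j)) * (fun x : S => Z j x.1.1 x.1.2))
    rw [h1] at h2
    change (Pi.evalRingHom (fun _ : S => k) x) _ = 0
    rw [h2, map_sum]
    have h3 := hZ l x.1.1 x.1.2 x.2
    rw [ev2] at h3
    have h4 : (∑ j, (Pi.evalRingHom (fun _ : S => k) x)
        (i (C (l j)) * (fun x : S => Z j x.1.1 x.1.2))) = ∑ j, l j * Z j x.1.1 x.1.2 := by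
      apply Finset.sum_congr rfl
      intro j _
      rw [map_mul]
      congr 1
      change i (C (l j)) x = l j
      rw [hi, eval_C]
    rw [h4]
    exact h3
  obtain ⟨B₂, _, _, t₂, v₂, hCR₂, hrel⟩ := hA m n (S → k) i (fun j x => Z j x.1.1 x.1.2) Φ hinj
    hΦ hann
  -- relations at points
  have hrelpt : ∀ (Ω : Type u) [Field Ω] [Algebra k Ω] (ψ : B₂ →ₐ[k] Ω) (l : Fin (n + 1) → k),
      ev2 (ψ t₂) (∑ j, algebraMap k Ω (l j) * ψ (v₂ j) ^ p ^ m) (Φ l) = 0 := by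
    intro Ω _ _ ψ l
    have h1 := congrArg ψ (hrel l)
    rw [map_zero] at h1
    have h2 := Polynomial.hom_eval₂ (Φ l) (aeval (R := k) t₂).toRingHom (ψ : B₂ →+* Ω)
      (∑ j, algebraMap k B₂ (l j) * v₂ j ^ p ^ m)
    have h3 : (ψ : B₂ →+* Ω).comp (aeval (R := k) t₂).toRingHom =
        (aeval (R := k) (ψ t₂)).toRingHom := by
      ext r
      · simp
      · simp
    rw [h3] at h2
    rw [ev2]
    have h4 : (ψ : B₂ →+* Ω) (∑ j, algebraMap k B₂ (l j) * v₂ j ^ p ^ m) =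
        ∑ j, algebraMap k Ω (l j) * ψ (v₂ j) ^ p ^ m := by
      rw [map_sum]
      apply Finset.sum_congr rfl
      intro j _
      simp
    rw [h4] at h2
    rw [← h2]
    exact h1
  -- two independent points
  have hnc₂ : ∃ ψ₁ ψ₂ : B₂ →ₐ[k] k,
      LinearIndependent k ![fun i => ψ₁ (v₂ i), fun i => ψ₂ (v₂ i)] := by
    have hR1 : 1 / ‖ts‖ < R / ‖ts‖ := by gcongr
    obtain ⟨a₁, h11, h12, h13⟩ := exists_norm_between q' hq0 (by positivity) hR1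
    obtain ⟨a₂, h21, h22, h23⟩ := exists_norm_between q' hq0
      ((by positivity : (0 : ℝ) < 1 / ‖ts‖).trans h11) h12
    obtain ⟨ψ₁, hψ₁⟩ := exists_point hext hCR₂ a₁
    obtain ⟨ψ₂, hψ₂⟩ := exists_point hext hCR₂ a₂
    refine ⟨ψ₁, ψ₂, ?_⟩
    have hts_lt : ‖ts‖ < 1 := hts2.trans hs₂
    have hinv : 1 < 1 / ‖ts‖ := by rw [lt_div_iff₀ hts0, one_mul]; exact hts_lt
    -- the closeness for one point
    have one : ∀ (ψ : B₂ →ₐ[k] k) (a : k), ψ t₂ = a → 1 / ‖ts‖ < ‖a‖ → q'.eval a ≠ 0 →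
        ∃ (g : k) (ψ' : B →ₐ[k] k), g ≠ 0 ∧ ‖ψ' t‖ = ‖ts‖ * ‖a‖ ∧
          ∀ r : ℝ, 0 < r → r ^ D = ‖ψ' t‖ →
            ∀ i, ‖ψ' (z i.succ.succ) / ψ' t - ψ (v₂ i) / g‖ ≤ 2 * ρ₀ * r := by
      intro ψ a hψ ha hqa
      obtain ⟨g, hg, hout, -⟩ := hmain k a (fun j => ψ (v₂ j))
        (fun l => by rw [← hψ]; exact hrelpt k ψ l) (by rw [coe_aeval_eq_eval]; exact hqa)
      obtain ⟨ψ', h1, h2⟩ := hout (hinv.le.trans ha.le)
      have hn : ‖ψ' t‖ = ‖ts‖ * ‖a‖ := by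
        rw [h1, norm_mul, Algebra.algebraMap_self, RingHom.id_apply]
      have hn1 : 1 < ‖ψ' t‖ := by
        rw [hn]
        rwa [div_lt_iff₀ hts0, mul_comm] at ha
      refine ⟨g, ψ', hg, hn, fun r hr hrD i => ?_⟩
      have hr1 : 1 ≤ r := by
        by_contra hlt
        push Not at hlt
        have := pow_lt_one₀ hr.le hlt hD.ne'
        rw [hrD] at this
        linarith
      rw [norm_sub_rev, ← pow_le_pow_iff_left₀ (norm_nonneg _) (by positivity) hE]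
      exact (h2 i).trans (real_est hρ hts0 (hinv.le.trans ha.le) hr1
        (by rw [hrD, hn]) hE1 hE2)
    obtain ⟨g₁, ψ₁', hg₁, hn₁, hcl₁⟩ := one ψ₁ a₁ hψ₁ h11 h13
    obtain ⟨g₂, ψ₂', hg₂, hn₂, hcl₂⟩ := one ψ₂ a₂ hψ₂ (h11.trans (by
      exact h21)) h23
    have hb1 : 1 < ‖ψ₁' t‖ := by
      rw [hn₁]
      rwa [div_lt_iff₀ hts0, mul_comm] at h11
    rcases lt_trichotomy ‖a₁‖ ‖a₂‖ with hlt | heq | hgt
    · have hind := hnc ψ₁' ψ₂' (fun i => ψ₁ (v₂ i) / g₁) (fun i => ψ₂ (v₂ i) / g₂) hb1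
        (by rw [hn₁, hn₂]; gcongr) (by
          rw [hn₂]
          rwa [lt_div_iff₀ hts0, mul_comm] at h22) hcl₁ hcl₂
      -- remove the scalars
      rw [LinearIndependent.pair_iff] at hind ⊢
      intro s s' hss
      have := hind (s * g₁) (s' * g₂) (by
        rw [← hss]
        funext i
        simp only [Pi.add_apply, Pi.smul_apply, smul_eq_mul]
        field_simp)
      exact ⟨(mul_eq_zero.mp this.1).resolve_right hg₁, (mul_eq_zero.mp this.2).resolve_right hg₂⟩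
    · exact absurd heq h21.ne
    · exact absurd hgt h21.not_gt
  obtain ⟨𝔓, h1, h2, h3, h4⟩ := hB n B₂ t₂ v₂ q' hq0 hCR₂ hnc₂
  refine ⟨𝔓, h1, h2, h3, ?_⟩
  intro Ω _ _ _ _ _ G ρg hρg hρg1 hscale hclose hpt y hy hyF
  refine h4 Ω G ρg hρg hscale ?_ ?_ y hy hyF
  · intro w hw w' hw' hww'
    obtain ⟨i₀, hi₀⟩ := Finite.exists_max fun i => ‖w' i‖
    have h5 : ‖w'‖ ≤ ‖w' i₀‖ := (pi_norm_le_iff_of_nonneg (norm_nonneg _)).mpr hi₀
    have h6 : w' i₀ ≠ 0 := by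
      intro h7
      apply hw'
      rw [h7, norm_zero] at h5
      exact norm_le_zero_iff.mp h5
    exact hclose w hw w' i₀ h6 fun i => (hww' i).trans (by gcongr)
  · intro ψ hψ
    exact core₂ hs₁ hρ hρg hρg1 hts1 (hts2.trans hs₂) hE1 hE2 Ω (hmain Ω) G hscale hclose hpt
      (ψ t₂) (fun j => ψ (v₂ j)) (fun l => hrelpt Ω ψ l) hψ

end core

end Pool.Agent.DC
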