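import Pool.Agent.DC.Gauss

/-!
# Finite covers of the unit circle: definitions
-/

set_option autoImplicit false
set_option linter.unusedSectionVars false

noncomputable section

namespace Pool.Agent.DC

open Polynomial
open scoped Classical

universe u

/-- Evaluation of `P ∈ k[t][X]` at `t = a`, `X = θ`. -/
def ev2 {k Ω : Type u} [Field k] [Field Ω] [Algebra k Ω] (a θ : Ω) (P : k[X][X]) : Ω :=
  P.eval₂ (aeval (R := k) a).toRingHom θ

theorem ev2_def {k Ω : Type u} [Field k] [Field Ω] [Algebra k Ω] (a θ : Ω) (P : k[X][X]) :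
    ev2 a θ P = (P.map (aeval (R := k) a).toRingHom).eval θ := by
  rw [ev2, eval_map]

variable {k : Type u} [NontriviallyNormedField k] [IsUltrametricDist k]

/-- A finite monic cover `P(t, X) = 0` of the unit circle, with integral coefficients and without
branch points on the circle (`U P + W P' = D₀(t)` with `D₀` without zeros on the circle). -/
structure Cov (k : Type u) [NontriviallyNormedField k] [IsUltrametricDist k] where
  /-- the equation -/
  P : k[X][X]
  monic : P.Monic
  pos : 0 < P.natDegree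
  norm_le : ∀ i, gn (P.coeff i) ≤ 1
  /-- Bezout coefficient -/
  U : k[X][X]
  /-- Bezout coefficient -/
  W : k[X][X]
  /-- a multiple of the discriminant -/
  D₀ : k[X]
  bez : U * P + W * derivative P = C D₀
  ne : ∀ a : Tc k, D₀.eval a.1 ≠ 0

/-- The points over `a`. -/
def fib (P : k[X][X]) (a : Tc k) : Finset k := (P.map (evalRingHom a.1)).roots.toFinset

/-- Functions on the cover which are given by polynomials in the coordinate `X` with coefficients in
`RR k`. Only the values `f a θ` for `θ ∈ fib c.P a` matter. -/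
def IsA (c : Cov k) (f : Tc k → k → k) : Prop :=
  ∃ u : (RR k)[X], ∀ a : Tc k, ∀ θ ∈ fib c.P a, f a θ = (u.map (evR a)).eval θ

/-- `d` bounds from below the distances between the points of the fibres. -/
structure Sep (c : Cov k) (d : ℝ) : Prop where
  pos : 0 < d
  le_one : d ≤ 1
  prod : ∀ a : Tc k, c.P.map (evalRingHom a.1) = ∏ θ ∈ fib c.P a, (X - C θ)
  card : ∀ a : Tc k, (fib c.P a).card = c.P.natDegree
  norm_le : ∀ a : Tc k, ∀ θ ∈ fib c.P a, ‖θ‖ ≤ 1
  sep : ∀ a : Tc k, ∀ θ ∈ fib c.P a, d ≤ ‖∏ θ' ∈ (fib c.P a).erase θ, (θ - θ')‖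

/-- Decompositions of the cover over the circle into finitely many open and closed pieces. -/
structure Pieces (c : Cov k) (Γ : Type u) where
  /-- the points of the piece `γ` over `a` -/
  E : Γ → Tc k → Finset k
  sub : ∀ γ a, E γ a ⊆ fib c.P a
  cover : ∀ a : Tc k, ∀ θ ∈ fib c.P a, ∃ γ, θ ∈ E γ a
  disj : ∀ (a : Tc k) γ γ' θ, θ ∈ E γ a → θ ∈ E γ' a → γ = γ'
  ind : ∀ γ, IsA c fun a θ => if θ ∈ E γ a then 1 else 0

section RV

variable {Ω : Type u} [NormedField Ω] [NormedAlgebra k Ω] [IsUltrametricDist Ω] [CompleteSpace Ω]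

/-- Functions on the outside of the open unit disc, meromorphic at infinity: the ring `RP k` of
restricted power series in `b = 1 / t`, with `b` inverted. -/
abbrev RV (k : Type u) [NontriviallyNormedField k] [IsUltrametricDist k] : Type u :=
  Localization.Away (toRP (k := k) X)

/-- The inverse of `a`, if `1 ≤ ‖a‖`. -/
def invOr (a : Ω) : Ω := by classical exact if 1 ≤ ‖a‖ then a⁻¹ else 1

theorem invOr_of_le {a : Ω} (ha : 1 ≤ ‖a‖) : invOr a = a⁻¹ := if_pos ha

theorem norm_invOr_le (a : Ω) : ‖invOr a‖ ≤ 1 := by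
  unfold invOr
  split_ifs with h
  · rw [norm_inv]; exact inv_le_one_of_one_le₀ h
  · simp

theorem invOr_ne_zero (a : Ω) : invOr a ≠ 0 := by
  unfold invOr
  split_ifs with h
  · apply inv_ne_zero
    intro h0
    rw [h0, norm_zero] at h
    exact absurd h (by norm_num)
  · exact one_ne_zero

theorem isUnit_evP (a : Ω) : IsUnit (evP (k := k) (invOr a) (toRP X)) := by
  rw [evP_toRP (norm_invOr_le a), aeval_X]
  exact (invOr_ne_zero a).isUnit

/-- Evaluation of an element of `RV k` at a point of norm at least one. -/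
def evV (a : Ω) : RV k →+* Ω :=
  IsLocalization.Away.lift (toRP (k := k) X) (isUnit_evP a)

theorem evV_algebraMap {a : Ω} (ha : 1 ≤ ‖a‖) (f : RP k) :
    evV a (algebraMap (RP k) (RV k) f) = evP a⁻¹ f := by
  rw [evV, IsLocalization.Away.lift_eq, invOr_of_le ha]

variable (k) in
/-- The coordinate `t` in `RV k`. -/
def tV : RV k := IsLocalization.Away.invSelf (toRP (k := k) X)

theorem tV_mul : tV k * algebraMap (RP k) (RV k) (toRP X) = 1 := by
  rw [mul_comm]
  exact IsLocalization.Away.mul_invSelf (S := RV k) (toRP (k := k) X)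

theorem evV_tV {a : Ω} (ha : 1 ≤ ‖a‖) : evV a (tV k) = a := by
  have h1 := congrArg (evV (Ω := Ω) a) (tV_mul (k := k))
  rw [map_mul, map_one, evV_algebraMap ha, evP_toRP (by
    rw [norm_inv]; exact inv_le_one_of_one_le₀ ha), aeval_X] at h1
  have h0 : a ≠ 0 := by
    rintro rfl
    rw [norm_zero] at ha
    exact absurd ha (by norm_num)
  field_simp at h1
  exact h1

/-- Polynomials in `t` as elements of `RV k`. -/
def polV : k[X] →+* RV k :=
  eval₂RingHom ((algebraMap (RP k) (RV k)).comp (toRP.comp C)) (tV k)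

theorem evV_polV {a : Ω} (ha : 1 ≤ ‖a‖) (f : k[X]) : evV a (polV f) = aeval a f := by
  have h1 : (evV (k := k) a).comp polV = (aeval (R := k) a).toRingHom := by
    apply Polynomial.ringHom_ext
    · intro r
      simp only [polV, RingHom.comp_apply, coe_eval₂RingHom, eval₂_C]
      rw [evV_algebraMap ha, evP_toRP (by
        rw [norm_inv]; exact inv_le_one_of_one_le₀ ha)]
      simp
    · simp only [polV, RingHom.comp_apply, coe_eval₂RingHom, eval₂_X]
      rw [evV_tV ha]
      simp
  exact RingHom.congr_fun h1 f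

end RV

end Pool.Agent.DC
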