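import Pool.Agent.DC.StmtsB

/-!
# Module COVER: preimages of small discs under `x ↦ x ^ ♯`
-/

set_option autoImplicit false
set_option linter.unusedSectionVars false

noncomputable section

namespace Pool.Agent.DC

open Pool.Agent.LibDb3ab1
open scoped Classical

universe u

namespace COVER

section general

variable {V : Type u} [CommRing V] [IsDomain V]

theorem exists_dvd_of_pow_dvd [ValuationRing V] (q : V) (s : Multiset V) :
    s ≠ 0 → q ^ Multiset.card s ∣ s.prod → ∃ r ∈ s, q ∣ r := by
  induction s using Multiset.induction_on with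
  | empty => intro h; exact absurd rfl h
  | cons a t ih =>
    intro _ h
    by_cases hqa : q ∣ a
    · exact ⟨a, Multiset.mem_cons_self a t, hqa⟩
    · have ha : a ≠ 0 := by
        rintro rfl
        exact hqa (dvd_zero q)
      obtain ⟨d, hd⟩ := (ValuationRing.dvd_total a q).resolve_right hqa
      rw [Multiset.card_cons, Multiset.prod_cons, pow_succ] at h
      obtain ⟨e, he⟩ := h
      have h1 : t.prod = q ^ Multiset.card t * (d * e) := by
        apply mul_left_cancel₀ ha
        rw [he]
        conv_lhs => rw [hd]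
        conv_rhs => rw [hd]
        ring
      by_cases ht : t = 0
      · exfalso
        apply hqa
        rw [ht, Multiset.prod_zero, Multiset.card_zero, pow_zero, one_mul] at h1
        have hdu : IsUnit d := IsUnit.of_mul_eq_one e h1.symm
        rw [hd]
        exact (hdu.dvd_mul_right.mp (dvd_refl _))
      · obtain ⟨r, hr, hr2⟩ := ih ht ⟨_, h1⟩
        exact ⟨r, Multiset.mem_cons_of_mem hr, hr2⟩

open Polynomial in
theorem exists_prod
    (hroot : ∀ P : V[X], P.Monic → P.natDegree ≠ 0 → ∃ x, P.eval x = 0) :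
    ∀ (d : ℕ) (P : V[X]), P.Monic → P.natDegree = d →
      ∃ R : Multiset V, Multiset.card R = d ∧ P = (R.map fun r => X - C r).prod := by
  intro d
  induction d with
  | zero =>
    intro P hP hd
    refine ⟨0, rfl, ?_⟩
    rw [Multiset.map_zero, Multiset.prod_zero]
    exact Polynomial.eq_one_of_monic_natDegree_zero hP hd
  | succ d ih =>
    intro P hP hd
    obtain ⟨x, hx⟩ := hroot P hP (by rw [hd]; exact Nat.succ_ne_zero d)
    obtain ⟨Q, hQ⟩ := dvd_iff_isRoot.mpr hx
    have hQm : Q.Monic := (monic_X_sub_C x).of_mul_monic_left (by rw [← hQ]; exact hP)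
    have hQd : Q.natDegree = d := by
      have := (monic_X_sub_C x).natDegree_mul hQm
      rw [← hQ, hd, natDegree_X_sub_C] at this
      omega
    obtain ⟨R, hR1, hR2⟩ := ih Q hQm hQd
    refine ⟨x ::ₘ R, by rw [Multiset.card_cons, hR1], ?_⟩
    rw [Multiset.map_cons, Multiset.prod_cons, ← hR2]
    exact hQ

end general

end COVER

theorem cover_proof {K : Type u} [Field K] [IsAlgClosed K] (O : ValuationSubring K) (p : ℕ)
    [Fact p.Prime] [Fact ¬IsUnit (p : O)] [IsAdicComplete (Ideal.span {(p : O)}) O]
    (b : TB O p) : Stmt_Cover O p b := by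
  intro c N
  have hpp : p ^ N ≠ 0 := pow_ne_zero _ (Fact.out : p.Prime).ne_zero
  obtain ⟨R, hR1, hR2⟩ := COVER.exists_prod (exists_root_valuationSubring O) (p ^ N)
    (Polynomial.X ^ p ^ N - Polynomial.C c) (Polynomial.monic_X_pow_sub_C c hpp)
    Polynomial.natDegree_X_pow_sub_C
  have hz : ∀ r : O, ∃ z : PreTilt O p, PreTilt.coeff N z = Ideal.Quotient.mk _ r :=
    fun r => Perfection.coeff_surjective b.hF N _
  choose z hz using hz
  refine ⟨p ^ N, R.toFinset.image z, ?_⟩
  intro y hy
  have h1 : (p : O) ^ Multiset.card (R.map fun r => PreTilt.untilt (rt p N y) - r) ∣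
      (R.map fun r => PreTilt.untilt (rt p N y) - r).prod := by
    rw [Multiset.card_map, hR1]
    have h2 := congrArg (Polynomial.eval (PreTilt.untilt (rt p N y))) hR2
    rw [Polynomial.eval_multiset_prod, Multiset.map_map] at h2
    simp only [Function.comp_def, Polynomial.eval_sub, Polynomial.eval_pow, Polynomial.eval_X,
      Polynomial.eval_C] at h2
    rw [← h2, untilt_rt_pow]
    exact hy
  have hne : (R.map fun r => PreTilt.untilt (rt p N y) - r) ≠ 0 := by
    intro h0
    have h3 := congrArg Multiset.card h0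
    rw [Multiset.card_map, hR1, Multiset.card_zero] at h3
    exact hpp h3
  obtain ⟨x, hx, hx2⟩ := COVER.exists_dvd_of_pow_dvd _ _ hne h1
  rw [Multiset.mem_map] at hx
  obtain ⟨r, hr, rfl⟩ := hx
  refine ⟨z r, Finset.mem_image_of_mem _ (Multiset.mem_toFinset.mpr hr), ?_⟩
  have h4 : PreTilt.coeff N (y - z r) = 0 := by
    rw [map_sub, hz, ← mk_untilt_rt, ← map_sub, Ideal.Quotient.eq_zero_iff_mem,
      Ideal.mem_span_singleton]
    exact hx2
  rw [coeff_eq_zero_iff b.hu b.hϖ] at h4
  exact (pow_dvd_pow b.ϖ (Nat.lt_pow_self (Fact.out : p.Prime).one_lt).le).trans h4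

end Pool.Agent.DC
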