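import Pool.Agent.DC.StmtsE

/-! Module CURA: from the output of CAP to a curve. -/

set_option autoImplicit false

noncomputable section

namespace Pool.Agent.DC

open Polynomial

universe u

theorem curA_proof (k : Type u) [NontriviallyNormedField k] [IsUltrametricDist k] [CompleteSpace k]
    [IsAlgClosed k] (p : ℕ) [Fact p.Prime] [CharP k p] (hH : Stmt_HomExt.{u}) :
    Stmt_CurA k p := by
  intro e n R _ i Z Φ hi hΦ hrel
  let : Algebra (Polynomial k) R := i.toAlgebra
  have halg : algebraMap (Polynomial k) R = i := rfl
  -- the integral closure of `k[X]` in `R`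
  let S : Subalgebra (Polynomial k) R := integralClosure (Polynomial k) R
  let Ω : Type u := AlgebraicClosure (FractionRing (Polynomial k))
  let φ : Polynomial k →+* Ω :=
    (algebraMap (FractionRing (Polynomial k)) Ω).comp
      (algebraMap (Polynomial k) (FractionRing (Polynomial k)))
  have hφ : Function.Injective φ :=
    (algebraMap (FractionRing (Polynomial k)) Ω).injective.comp
      (IsFractionRing.injective (Polynomial k) (FractionRing (Polynomial k)))
  have hinj : Function.Injective (algebraMap (Polynomial k) S) := by
    intro a b hab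
    apply hi
    have := congrArg (fun z : S => (z : R)) hab
    exact this
  have hint : (algebraMap (Polynomial k) S).IsIntegral := fun x =>
    (Algebra.IsIntegral.isIntegral (R := Polynomial k) x)
  obtain ⟨ψ, hψ⟩ := hH (Polynomial k) S Ω (algebraMap (Polynomial k) S) hinj hint φ
  have hZint : ∀ j, IsIntegral (Polynomial k) (Z j) := by
    intro j
    refine ⟨Φ (Pi.single j 1), hΦ _, ?_⟩
    have h1 := hrel (Pi.single j 1)
    have h2 : ∑ j', i (Polynomial.C ((Pi.single j (1 : k) : Fin (n + 1) → k) j')) * Z j' = Z j := by
      rw [Finset.sum_eq_single j]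
      · rw [Pi.single_eq_same, map_one, map_one, one_mul]
      · intro b _ hb
        rw [Pi.single_eq_of_ne hb, map_zero, map_zero, zero_mul]
      · intro h; exact absurd (Finset.mem_univ j) h
    rw [h2] at h1
    exact h1
  let zS : Fin (n + 1) → S := fun j => ⟨Z j, hZint j⟩
  -- roots
  have hroot : ∀ j, ∃ v : Ω, v ^ p ^ e = ψ (zS j) := by
    intro j
    exact IsAlgClosed.exists_pow_nat_eq _ (pow_pos (Fact.out : p.Prime).pos e)
  choose v hv using hroot
  let : Algebra k Ω := (φ.comp Polynomial.C).toAlgebra
  have halgk : ∀ c : k, algebraMap k Ω c = φ (Polynomial.C c) := fun c => rfl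
  let t : Ω := φ Polynomial.X
  let B : Subalgebra k Ω := Algebra.adjoin k (insert t (Set.range v))
  have htB : t ∈ B := Algebra.subset_adjoin (Set.mem_insert _ _)
  have hvB : ∀ j, v j ∈ B := fun j =>
    Algebra.subset_adjoin (Set.mem_insert_of_mem _ (Set.mem_range_self j))
  let t' : B := ⟨t, htB⟩
  let v' : Fin (n + 1) → B := fun j => ⟨v j, hvB j⟩
  -- evaluation at `t` is `φ`
  have hev : ∀ f : Polynomial k, ((Polynomial.aeval (R := k) t' f : B) : Ω) = φ f := by
    intro f
    have h1 : ((Polynomial.aeval (R := k) t' f : B) : Ω) = Polynomial.aeval (R := k) t f := by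
      have := Polynomial.aeval_algHom_apply (B.val) t' f
      exact this.symm
    rw [h1, Polynomial.aeval_def]
    have h2 : (Polynomial.eval₂RingHom (algebraMap k Ω) t) = φ := by
      apply Polynomial.ringHom_ext
      · intro a; simp [halgk]
      · simp [t]
    exact congrArg (fun g : Polynomial k →+* Ω => g f) h2
  have hev' : (B.val.toRingHom).comp (Polynomial.aeval (R := k) t').toRingHom = φ := by
    apply RingHom.ext
    intro f
    exact hev f
  -- integrality
  have hintB : ∀ b ∈ B, φ.IsIntegralElem b := by
    intro b hb
    induction hb using Algebra.adjoin_induction with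
    | mem x hx =>
      rcases hx with hx | ⟨j, rfl⟩
      · rw [hx]; exact φ.isIntegralElem_map
      · have h1 : φ.IsIntegralElem (ψ (zS j)) := by
          refine ⟨Φ (Pi.single j 1), hΦ _, ?_⟩
          have h2 := hrel (Pi.single j 1)
          have h3 : ∑ j', i (Polynomial.C ((Pi.single j (1 : k) : Fin (n + 1) → k) j')) * Z j'
              = Z j := by
            rw [Finset.sum_eq_single j]
            · rw [Pi.single_eq_same, map_one, map_one, one_mul]
            · intro b _ hb
              rw [Pi.single_eq_of_ne hb, map_zero, map_zero, zero_mul]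
            · intro h; exact absurd (Finset.mem_univ j) h
          rw [h3] at h2
          have h4 : (Φ (Pi.single j 1)).eval₂ (algebraMap (Polynomial k) S) (zS j) = 0 := by
            apply Subtype.ext
            have := Polynomial.hom_eval₂ (Φ (Pi.single j 1)) (algebraMap (Polynomial k) S)
              (S.val.toRingHom) (zS j)
            exact this.trans h2
          have h5 := Polynomial.hom_eval₂ (Φ (Pi.single j 1)) (algebraMap (Polynomial k) S) ψ (zS j)
          rw [h4, map_zero, hψ] at h5
          exact h5.symm
        let : Algebra (Polynomial k) Ω := φ.toAlgebra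
        have h2 : IsIntegral (Polynomial k) (v j ^ p ^ e) := by rw [hv]; exact h1
        exact IsIntegral.of_pow (pow_pos (Fact.out : p.Prime).pos e) h2
    | algebraMap c => rw [halgk]; exact φ.isIntegralElem_map
    | add x y _ _ hx hy => exact hx.add φ hy
    | mul x y _ _ hx hy => exact hx.mul φ hy
  refine ⟨B, inferInstance, inferInstance, t', v', ⟨inferInstance, ?_, ?_, ?_⟩, ?_⟩
  · have h1 := Algebra.adjoin_adjoin_coe_preimage (R := k) (s := insert t (Set.range v))
    have h2 : ((↑) : B → Ω) ⁻¹' (insert t (Set.range v)) = insert t' (Set.range v') := by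
      ext x
      simp only [Set.mem_preimage, Set.mem_insert_iff, Set.mem_range]
      constructor
      · rintro (h | ⟨j, hj⟩)
        · exact Or.inl (Subtype.ext h)
        · exact Or.inr ⟨j, Subtype.ext hj⟩
      · rintro (h | ⟨j, hj⟩)
        · exact Or.inl (congrArg Subtype.val h)
        · exact Or.inr ⟨j, congrArg Subtype.val hj⟩
    rw [← h2]
    exact h1
  · intro f g hfg
    apply hφ
    rw [← hev f, ← hev g, hfg]
  · intro b
    obtain ⟨P, hP, hPb⟩ := hintB b b.2
    refine ⟨P, hP, ?_⟩
    apply Subtype.ext
    have h1 := Polynomial.hom_eval₂ P (Polynomial.aeval (R := k) t').toRingHom B.val.toRingHom b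
    rw [hev'] at h1
    exact h1.trans hPb
  · intro l
    apply Subtype.ext
    have h1 := Polynomial.hom_eval₂ (Φ l) (Polynomial.aeval (R := k) t').toRingHom B.val.toRingHom
      (∑ j, algebraMap k B (l j) * v' j ^ p ^ e)
    rw [hev'] at h1
    refine h1.trans ?_
    have h2 : B.val.toRingHom (∑ j, algebraMap k B (l j) * v' j ^ p ^ e)
        = ψ (∑ j, algebraMap (Polynomial k) S (Polynomial.C (l j)) * zS j) := by
      rw [map_sum, map_sum]
      refine Finset.sum_congr rfl fun j _ => ?_
      rw [map_mul, map_mul, map_pow]
      have h3 : B.val.toRingHom (v' j) ^ p ^ e = ψ (zS j) := hv j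
      have h4 : B.val.toRingHom (algebraMap k B (l j)) = φ (Polynomial.C (l j)) := rfl
      have h5 : ψ (algebraMap (Polynomial k) S (Polynomial.C (l j))) = φ (Polynomial.C (l j)) :=
        congrArg (fun g : Polynomial k →+* Ω => g (Polynomial.C (l j))) hψ
      rw [h3, h4, h5]
    rw [h2, ← hψ, ← Polynomial.hom_eval₂]
    have h6 : (Φ l).eval₂ (algebraMap (Polynomial k) S)
        (∑ j, algebraMap (Polynomial k) S (Polynomial.C (l j)) * zS j) = 0 := by
      apply Subtype.ext
      have h7 := Polynomial.hom_eval₂ (Φ l) (algebraMap (Polynomial k) S) (S.val.toRingHom)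
        (∑ j, algebraMap (Polynomial k) S (Polynomial.C (l j)) * zS j)
      refine h7.trans ?_
      have h8 : S.val.toRingHom (∑ j, algebraMap (Polynomial k) S (Polynomial.C (l j)) * zS j)
          = ∑ j, i (Polynomial.C (l j)) * Z j := by
        rw [map_sum]
        rfl
      rw [h8]
      exact hrel l
    rw [h6, map_zero]
    rfl

end Pool.Agent.DC
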