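import Pool.Agent.DC.StmtsC

set_option autoImplicit false
set_option linter.unusedSectionVars false

noncomputable section

namespace Pool.Agent.DC

open Polynomial
open scoped Classical

universe u

namespace DEC

variable {k : Type u} [NontriviallyNormedField k] [IsUltrametricDist k]

/-- the part with nonnegative exponents of `t ^ (-N) g(t)` -/
def ppos (N : ℕ) (g : k[X]) : k[X] :=
  ∑ i ∈ Finset.range (g.natDegree + 1), monomial i (g.coeff (i + N))

/-- the part with negative exponents of `t ^ (-N) g(t)` -/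
def pneg (N : ℕ) (g : k[X]) : k[X] :=
  ∑ i ∈ Finset.range N, monomial i (g.coeff (N - 1 - i))

theorem coeff_ppos (N : ℕ) (g : k[X]) (j : ℕ) : (ppos N g).coeff j = g.coeff (j + N) := by
  rw [ppos, finsetSum_coeff]
  simp only [coeff_monomial]
  rw [Finset.sum_ite_eq']
  split_ifs with h
  · rfl
  · rw [Finset.mem_range, not_lt] at h
    exact (coeff_eq_zero_of_natDegree_lt (by omega)).symm

theorem coeff_pneg (N : ℕ) (g : k[X]) (j : ℕ) :
    (pneg N g).coeff j = if j < N then g.coeff (N - 1 - j) else 0 := by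
  rw [pneg, finsetSum_coeff]
  simp only [coeff_monomial]
  rw [Finset.sum_ite_eq']
  simp only [Finset.mem_range]

theorem gn_ppos_le (N : ℕ) (g : k[X]) : gn (ppos N g) ≤ gn g :=
  gn_le fun i => by rw [coeff_ppos]; exact coeff_le_gn _ _

theorem gn_pneg_le (N : ℕ) (g : k[X]) : gn (pneg N g) ≤ gn g :=
  gn_le fun i => by
    rw [coeff_pneg]
    split_ifs
    · exact coeff_le_gn _ _
    · rw [norm_zero]; exact gn_nonneg _

theorem ppos_sub (N M : ℕ) (g h : k[X]) :
    ppos N g - ppos M h = ppos (N + M) (X ^ M * g - X ^ N * h) := by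
  ext j
  rw [coeff_sub, coeff_ppos, coeff_ppos, coeff_ppos, coeff_sub, coeff_X_pow_mul', coeff_X_pow_mul',
    if_pos (by omega), if_pos (by omega), show j + (N + M) - M = j + N by omega,
    show j + (N + M) - N = j + M by omega]

theorem pneg_sub (N M : ℕ) (g h : k[X]) :
    pneg N g - pneg M h = pneg (N + M) (X ^ M * g - X ^ N * h) := by
  ext j
  rw [coeff_sub, coeff_pneg, coeff_pneg, coeff_pneg, coeff_sub, coeff_X_pow_mul', coeff_X_pow_mul']
  have e1 : (if j < N then g.coeff (N - 1 - j) else 0) =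
      if j < N + M then (if M ≤ N + M - 1 - j then g.coeff (N + M - 1 - j - M) else 0) else 0 := by
    by_cases h1 : j < N
    · rw [if_pos h1, if_pos (by omega), if_pos (by omega),
        show N + M - 1 - j - M = N - 1 - j by omega]
    · rw [if_neg h1]
      by_cases h2 : j < N + M
      · rw [if_pos h2, if_neg (by omega)]
      · rw [if_neg h2]
  have e2 : (if j < M then h.coeff (M - 1 - j) else 0) =
      if j < N + M then (if N ≤ N + M - 1 - j then h.coeff (N + M - 1 - j - N) else 0) else 0 := by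
    by_cases h1 : j < M
    · rw [if_pos h1, if_pos (by omega), if_pos (by omega),
        show N + M - 1 - j - N = M - 1 - j by omega]
    · rw [if_neg h1]
      by_cases h2 : j < N + M
      · rw [if_pos h2, if_neg (by omega)]
      · rw [if_neg h2]
  rw [e1, e2]
  split_ifs <;> simp

theorem eval_split (N : ℕ) (g : k[X]) {a : k} (ha : a ≠ 0) :
    a⁻¹ ^ N * g.eval a = (ppos N g).eval a + a⁻¹ * (pneg N g).eval a⁻¹ := by
  have h1 : g.eval a = ∑ i ∈ Finset.range (N + (g.natDegree + 1)), g.coeff i * a ^ i :=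
    eval_eq_sum_range' (by omega) a
  rw [h1, Finset.sum_range_add, mul_add, add_comm, ppos, pneg, eval_finsetSum, eval_finsetSum,
    Finset.mul_sum, Finset.mul_sum, Finset.mul_sum]
  have haa : a⁻¹ ^ N * a ^ N = 1 := by rw [← mul_pow, inv_mul_cancel₀ ha, one_pow]
  congr 1
  · apply Finset.sum_congr rfl
    intro i _
    rw [eval_monomial, add_comm i N, pow_add]
    linear_combination (g.coeff (N + i) * a ^ i) * haa
  · rw [← Finset.sum_range_reflect]
    apply Finset.sum_congr rfl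
    intro i hi
    rw [Finset.mem_range] at hi
    rw [eval_monomial]
    have h2 : a⁻¹ ^ N = a⁻¹ ^ (i + 1) * a⁻¹ ^ (N - 1 - i) := by
      rw [← pow_add]
      congr 1
      omega
    have h3 : a⁻¹ ^ (N - 1 - i) * a ^ (N - 1 - i) = 1 := by
      rw [← mul_pow, inv_mul_cancel₀ ha, one_pow]
    rw [h2, pow_succ]
    linear_combination (g.coeff (N - 1 - i) * a⁻¹ ^ i * a⁻¹) * h3

end DEC

open DEC in
theorem dec_proof (k : Type u) [NontriviallyNormedField k] [IsUltrametricDist k] [CompleteSpace k]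
    [IsAlgClosed k] (h : Stmt_Sup k) : Stmt_Dec k := by
  intro f M hM hf
  have hf' : IsR f.1 := f.2
  have hpos : ∀ n : ℕ, (0 : ℝ) < (1 / 2) ^ n := fun n => by positivity
  choose N g hg using fun n : ℕ => hf' ((1 / 2) ^ n) (hpos n)
  have hinv : ∀ (a : Tc k) (n : ℕ), ‖(a.1)⁻¹ ^ n‖ = 1 := by
    intro a n
    rw [norm_pow, a.norm_inv, one_pow]
  have hpw : ∀ (a : Tc k) (n : ℕ), ‖a.1 ^ n‖ = 1 := by
    intro a n
    rw [norm_pow, a.2, one_pow]
  -- Gauss norms of the approximants
  have hgn : ∀ n, gn (g n) ≤ max M ((1 / 2) ^ n) := by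
    intro n
    apply h _ _ (le_max_of_le_left hM)
    intro a
    have h1 : ‖(a.1)⁻¹ ^ N n * (g n).eval a.1‖ ≤ max M ((1 / 2) ^ n) := by
      have h2 : (a.1)⁻¹ ^ N n * (g n).eval a.1 =
          f.1 a + -(f.1 a - (a.1)⁻¹ ^ N n * (g n).eval a.1) := by ring
      rw [h2]
      refine (IsUltrametricDist.norm_add_le_max _ _).trans (max_le_max (hf a) ?_)
      rw [norm_neg]
      exact hg n a
    rwa [norm_mul, hinv, one_mul] at h1
  have hdiff : ∀ n m, gn (X ^ N m * g n - X ^ N n * g m) ≤ max ((1 / 2) ^ n) ((1 / 2) ^ m) := by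
    intro n m
    apply h _ _ (le_max_of_le_left (hpos n).le)
    intro a
    have h0 : a.1 ≠ 0 := a.ne_zero
    have hn : (a.1)⁻¹ ^ N n * a.1 ^ N n = 1 := by
      rw [← mul_pow, inv_mul_cancel₀ h0, one_pow]
    have hm : (a.1)⁻¹ ^ N m * a.1 ^ N m = 1 := by
      rw [← mul_pow, inv_mul_cancel₀ h0, one_pow]
    have h1 : (X ^ N m * g n - X ^ N n * g m).eval a.1 = (a.1 ^ N n * a.1 ^ N m) *
        (-(f.1 a - (a.1)⁻¹ ^ N n * (g n).eval a.1) +
          (f.1 a - (a.1)⁻¹ ^ N m * (g m).eval a.1)) := by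
      simp only [eval_sub, eval_mul, eval_pow, eval_X]
      linear_combination (-(a.1 ^ N m * (g n).eval a.1)) * hn + (a.1 ^ N n * (g m).eval a.1) * hm
    rw [h1, norm_mul, norm_mul, hpw, hpw, one_mul, one_mul]
    refine (IsUltrametricDist.norm_add_le_max _ _).trans (max_le_max ?_ (hg m a))
    rw [norm_neg]
    exact hg n a
  -- the two limits
  have lim : ∀ F : ℕ → k[X], (∀ n m, gn (F n - F m) ≤ max ((1 / 2) ^ n) ((1 / 2) ^ m)) →
      (∀ n, gn (F n) ≤ max M ((1 / 2) ^ n)) →
      ∃ r : RP k, ‖r‖ ≤ M ∧ Filter.Tendsto (fun n => toRP (F n)) Filter.atTop (nhds r) := by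
    intro F h1 h2
    have hc : CauchySeq fun n => toRP (F n) := by
      rw [Metric.cauchySeq_iff']
      intro ε hε
      obtain ⟨n, hn⟩ := exists_pow_lt_of_lt_one hε (show (1 / 2 : ℝ) < 1 by norm_num)
      refine ⟨n, fun m hm => ?_⟩
      rw [dist_eq_norm, ← map_sub, norm_toRP]
      refine lt_of_le_of_lt (h1 m n) (max_lt (lt_of_le_of_lt ?_ hn) hn)
      exact pow_le_pow_of_le_one (by norm_num) (by norm_num) hm
    obtain ⟨r, hr⟩ := cauchySeq_tendsto_of_complete hc
    refine ⟨r, ?_, hr⟩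
    have h3 : Filter.Tendsto (fun n => max M ((1 / 2 : ℝ) ^ n)) Filter.atTop (nhds (max M 0)) :=
      tendsto_const_nhds.max (tendsto_pow_atTop_nhds_zero_of_lt_one (by norm_num) (by norm_num))
    rw [max_eq_left hM] at h3
    refine le_of_tendsto_of_tendsto' hr.norm h3 fun n => ?_
    rw [norm_toRP]
    exact h2 n
  obtain ⟨r₁, hr₁, ht₁⟩ := lim (fun n => ppos (N n) (g n)) (fun n m => by
    rw [ppos_sub]
    exact (gn_ppos_le _ _).trans (hdiff n m)) (fun n => (gn_ppos_le _ _).trans (hgn n))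
  obtain ⟨r₂, hr₂, ht₂⟩ := lim (fun n => pneg (N n) (g n)) (fun n m => by
    rw [pneg_sub]
    exact (gn_pneg_le _ _).trans (hdiff n m)) (fun n => (gn_pneg_le _ _).trans (hgn n))
  refine ⟨r₁, r₂, hr₁, hr₂, fun a => ?_⟩
  have c1 := ((continuous_evP (k := k) a.1).tendsto r₁).comp ht₁
  have c2 := ((continuous_evP (k := k) (a.1)⁻¹).tendsto r₂).comp ht₂
  have c3 := c1.add (c2.const_mul (a.1)⁻¹)
  have c4 : Filter.Tendsto (fun n => (a.1)⁻¹ ^ N n * (g n).eval a.1) Filter.atTop
      (nhds (evR a f)) := by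
    rw [tendsto_iff_norm_sub_tendsto_zero]
    refine squeeze_zero (fun n => norm_nonneg _) (fun n => ?_)
      (tendsto_pow_atTop_nhds_zero_of_lt_one (r := (1 / 2 : ℝ)) (by norm_num) (by norm_num))
    rw [norm_sub_rev]
    exact hg n a
  refine tendsto_nhds_unique c4 (c3.congr fun n => ?_)
  simp only [Function.comp]
  rw [evP_toRP a.2.le, evP_toRP a.norm_inv.le, eval_split _ _ a.ne_zero]
  simp

end Pool.Agent.DC
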