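import Pool.Agent.DC.StmtsC

/-!
# Module DECO: additive decomposition of functions on the cover over the circle
-/

set_option autoImplicit false
set_option linter.unusedSectionVars false

noncomputable section

namespace Pool.Agent.DC

open Polynomial
open scoped Classical

universe u

namespace DECO

variable {k : Type u} [NontriviallyNormedField k] [IsUltrametricDist k]

/-- The base point. -/
def one' : Tc k := ⟨1, norm_one⟩

theorem rr_nontrivial : Nontrivial (RR k) := by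
  refine ⟨1, 0, fun h => ?_⟩
  have h1 := congrArg (evR (one' (k := k))) h
  rw [map_one, map_zero] at h1
  exact one_ne_zero h1

section closure

variable {c : Cov k}

theorem isA_congr {f g : Tc k → k → k} (hf : IsA c f)
    (h : ∀ a : Tc k, ∀ θ ∈ fib c.P a, g a θ = f a θ) : IsA c g := by
  obtain ⟨u, hu⟩ := hf
  exact ⟨u, fun a θ hθ => (h a θ hθ).trans (hu a θ hθ)⟩

theorem isA_add {f g : Tc k → k → k} (hf : IsA c f) (hg : IsA c g) :
    IsA c fun a θ => f a θ + g a θ := by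
  obtain ⟨u, hu⟩ := hf
  obtain ⟨v, hv⟩ := hg
  exact ⟨u + v, fun a θ hθ => by
    rw [Polynomial.map_add, eval_add, ← hu a θ hθ, ← hv a θ hθ]⟩

theorem isA_sub {f g : Tc k → k → k} (hf : IsA c f) (hg : IsA c g) :
    IsA c fun a θ => f a θ - g a θ := by
  obtain ⟨u, hu⟩ := hf
  obtain ⟨v, hv⟩ := hg
  exact ⟨u - v, fun a θ hθ => by
    rw [Polynomial.map_sub, eval_sub, ← hu a θ hθ, ← hv a θ hθ]⟩

theorem isA_mul {f g : Tc k → k → k} (hf : IsA c f) (hg : IsA c g) :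
    IsA c fun a θ => f a θ * g a θ := by
  obtain ⟨u, hu⟩ := hf
  obtain ⟨v, hv⟩ := hg
  exact ⟨u * v, fun a θ hθ => by
    rw [Polynomial.map_mul, eval_mul, ← hu a θ hθ, ← hv a θ hθ]⟩

theorem isA_fun {f : Tc k → k} (hf : IsR f) : IsA c fun a _ => f a :=
  ⟨C ⟨f, hf⟩, fun a θ _ => by rw [map_C, eval_C]; rfl⟩

theorem isA_X : IsA c fun _ θ => θ := ⟨X, fun a θ _ => by rw [map_X, eval_X]⟩

theorem isA_zero : IsA c fun _ _ => 0 := ⟨0, fun a θ _ => by simp⟩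

theorem isA_one : IsA c fun _ _ => 1 := ⟨1, fun a θ _ => by simp⟩

theorem isA_pow {f : Tc k → k → k} (hf : IsA c f) (n : ℕ) : IsA c fun a θ => f a θ ^ n := by
  obtain ⟨u, hu⟩ := hf
  exact ⟨u ^ n, fun a θ hθ => by rw [Polynomial.map_pow, eval_pow, ← hu a θ hθ]⟩

theorem isA_sum {ι : Type u} (s : Finset ι) {f : ι → Tc k → k → k} (hf : ∀ i, IsA c (f i)) :
    IsA c fun a θ => ∑ i ∈ s, f i a θ := by
  induction s using Finset.induction_on with
  | empty => exact isA_congr isA_zero fun a θ _ => by simp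
  | insert i s hi ih =>
    refine isA_congr (isA_add (hf i) ih) fun a θ _ => ?_
    rw [Finset.sum_insert hi]

theorem ev2_k (a θ : k) (Y : k[X][X]) : ev2 a θ Y = (Y.map (evalRingHom a)).eval θ := by
  rw [ev2_def]
  have h : (aeval (R := k) a).toRingHom = evalRingHom a := by
    apply RingHom.ext
    intro g
    simp
  rw [h]

theorem isA_ev2 (Y : k[X][X]) : IsA c fun a θ => ev2 a.1 θ Y := by
  refine ⟨Y.map polR, fun a θ _ => ?_⟩
  rw [Polynomial.map_map]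
  exact ev2_k _ _ _

end closure

section evP

theorem isR_const (v : k) : IsR fun _ : Tc k => v := by
  simpa using isR_poly (k := k) (C v)

theorem isR_sum {ι : Type*} (s : Finset ι) {f : ι → Tc k → k} (hf : ∀ i, IsR (f i)) :
    IsR fun a => ∑ i ∈ s, f i a := by
  induction s using Finset.induction_on with
  | empty => simpa using isR_const (k := k) 0
  | insert i s hi ih =>
    have h := (hf i).add ih
    have h2 : (fun a => ∑ j ∈ insert i s, f j a) = f i + fun a => ∑ j ∈ s, f j a := by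
      funext a
      rw [Finset.sum_insert hi]
      rfl
    rw [h2]
    exact h

theorem isR_inv_poly (g : k[X]) : IsR fun a : Tc k => g.eval (a.1)⁻¹ := by
  have h : (fun a : Tc k => g.eval (a.1)⁻¹) =
      fun a : Tc k => ∑ i ∈ Finset.range (g.natDegree + 1), (a.1)⁻¹ ^ i * (C (g.coeff i)).eval a.1 := by
    funext a
    rw [eval_eq_sum_range]
    exact Finset.sum_congr rfl fun i _ => by rw [eval_C, mul_comm]
  rw [h]
  exact isR_sum _ fun i => isR_laurent i _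

variable [CompleteSpace k]

theorem exists_poly_near (r : RP k) (ε : ℝ) (hε : 0 < ε) : ∃ g : k[X], ‖r - toRP g‖ ≤ ε := by
  obtain ⟨g, hg⟩ := (UniformSpace.Completion.denseRange_coe (α := PP k)).exists_dist_lt r hε
  refine ⟨g, ?_⟩
  rw [dist_eq_norm] at hg
  exact hg.le

theorem isR_evP (r : RP k) : IsR fun a : Tc k => evP a.1 r := by
  apply isR_of_limit
  intro ε hε
  obtain ⟨g, hg⟩ := exists_poly_near r ε hε
  refine ⟨_, isR_poly g, fun a => ?_⟩
  have h : g.eval a.1 = evP a.1 (toRP g) := by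
    rw [evP_toRP a.2.le]
    simp
  rw [h, ← map_sub]
  exact (norm_evP_le _ _).trans hg

theorem isR_evP_inv (r : RP k) : IsR fun a : Tc k => evP (a.1)⁻¹ r := by
  apply isR_of_limit
  intro ε hε
  obtain ⟨g, hg⟩ := exists_poly_near r ε hε
  refine ⟨_, isR_inv_poly g, fun a => ?_⟩
  have h : g.eval (a.1)⁻¹ = evP (a.1)⁻¹ (toRP g) := by
    rw [evP_toRP a.norm_inv.le]
    simp
  rw [h, ← map_sub]
  exact (norm_evP_le _ _).trans hg

theorem isR_inv_pow (n : ℕ) : IsR fun a : Tc k => (a.1)⁻¹ ^ n := by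
  have := isR_laurent (k := k) n 1
  simpa using this

end evP

section approx

/-- Approximation of polynomials over `RR k` by Laurent polynomials. -/
theorem approx (u : (RR k)[X]) : ∀ ε : ℝ, 0 < ε → ∃ (N : ℕ) (Y : k[X][X]), ∀ a : Tc k, ∀ θ : k,
    ‖θ‖ ≤ 1 → ‖(u.map (evR a)).eval θ - (a.1)⁻¹ ^ N * ev2 a.1 θ Y‖ ≤ ε := by
  induction u using Polynomial.induction_on' with
  | add p q hp hq =>
    intro ε hε
    obtain ⟨N, Y, h⟩ := hp ε hε
    obtain ⟨N', Y', h'⟩ := hq ε hε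
    refine ⟨N + N', C (X ^ N') * Y + C (X ^ N) * Y', fun a θ hθ => ?_⟩
    have h1 : ((p + q).map (evR a)).eval θ -
        (a.1)⁻¹ ^ (N + N') * ev2 a.1 θ (C (X ^ N') * Y + C (X ^ N) * Y') =
        ((p.map (evR a)).eval θ - (a.1)⁻¹ ^ N * ev2 a.1 θ Y) +
        ((q.map (evR a)).eval θ - (a.1)⁻¹ ^ N' * ev2 a.1 θ Y') := by
      have h2 : (a.1)⁻¹ ^ N' * a.1 ^ N' = 1 := by
        rw [← mul_pow, inv_mul_cancel₀ a.ne_zero, one_pow]
      have h3 : (a.1)⁻¹ ^ N * a.1 ^ N = 1 := by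
        rw [← mul_pow, inv_mul_cancel₀ a.ne_zero, one_pow]
      rw [ev2_k, ev2_k, ev2_k]
      simp only [Polynomial.map_add, Polynomial.map_mul, eval_add, eval_mul, map_C, eval_C,
        coe_evalRingHom, eval_pow, eval_X]
      linear_combination (-(a.1)⁻¹ ^ N * (Y.map (evalRingHom a.1)).eval θ) * h2 -
        (a.1)⁻¹ ^ N' * (Y'.map (evalRingHom a.1)).eval θ * h3
    rw [h1]
    exact (IsUltrametricDist.norm_add_le_max _ _).trans (max_le (h a θ hθ) (h' a θ hθ))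
  | monomial n c =>
    intro ε hε
    obtain ⟨N, g, h⟩ := c.2 ε hε
    refine ⟨N, C g * X ^ n, fun a θ hθ => ?_⟩
    have h1 : ((monomial n c).map (evR a)).eval θ - (a.1)⁻¹ ^ N * ev2 a.1 θ (C g * X ^ n) =
        (c.1 a - (a.1)⁻¹ ^ N * g.eval a.1) * θ ^ n := by
      rw [ev2_k, map_monomial, eval_monomial, evR_apply]
      simp only [Polynomial.map_mul, eval_mul, map_C, eval_C, coe_evalRingHom,
        Polynomial.map_pow, map_X, eval_pow, eval_X]
      ring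
    rw [h1, norm_mul, norm_pow]
    calc _ ≤ ε * 1 := by
          gcongr
          · exact h a
          · exact pow_le_one₀ (norm_nonneg _) hθ
      _ = ε := mul_one _

/-- Simultaneous approximation with a common denominator. -/
theorem approx_family {c : Cov k} {d : ℝ} (hs : Sep c d) {κ : Type u} [Fintype κ]
    (f : κ → Tc k → k → k) (hf : ∀ l, IsA c (f l)) (ε : ℝ) (hε : 0 < ε) :
    ∃ (N : ℕ) (Y : κ → k[X][X]), ∀ l, ∀ a : Tc k, ∀ θ ∈ fib c.P a,
      ‖f l a θ - (a.1)⁻¹ ^ N * ev2 a.1 θ (Y l)‖ ≤ ε := by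
  have h1 : ∀ l, ∃ (N : ℕ) (Y : k[X][X]), ∀ a : Tc k, ∀ θ ∈ fib c.P a,
      ‖f l a θ - (a.1)⁻¹ ^ N * ev2 a.1 θ Y‖ ≤ ε := by
    intro l
    obtain ⟨u, hu⟩ := hf l
    obtain ⟨N, Y, h⟩ := approx u ε hε
    refine ⟨N, Y, fun a θ hθ => ?_⟩
    rw [hu a θ hθ]
    exact h a θ (hs.norm_le a θ hθ)
  choose N Y h using h1
  refine ⟨∑ l, N l, fun l => C (X ^ ((∑ l, N l) - N l)) * Y l, fun l a θ hθ => ?_⟩
  have hle : N l ≤ ∑ l, N l := Finset.single_le_sum (fun _ _ => Nat.zero_le _) (Finset.mem_univ l)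
  have h2 : (a.1)⁻¹ ^ (∑ l, N l) * ev2 a.1 θ (C (X ^ ((∑ l, N l) - N l)) * Y l) =
      (a.1)⁻¹ ^ (N l) * ev2 a.1 θ (Y l) := by
    obtain ⟨e, he⟩ := Nat.exists_eq_add_of_le hle
    rw [he, Nat.add_sub_cancel_left, ev2_k, ev2_k]
    simp only [Polynomial.map_mul, eval_mul, map_C, eval_C, coe_evalRingHom, eval_pow, eval_X]
    have h3 : (a.1)⁻¹ ^ e * a.1 ^ e = 1 := by
      rw [← mul_pow, inv_mul_cancel₀ a.ne_zero, one_pow]
    rw [pow_add]
    linear_combination ((a.1)⁻¹ ^ N l * ((Y l).map (evalRingHom a.1)).eval θ) * h3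
  rw [h2]
  exact h l a θ hθ

end approx

section iteration

/-- Abstract successive approximation. -/
theorem successive {W F : Type u} [NormedAddCommGroup W] [CompleteSpace W] [AddCommGroup F]
    (S : W →+ F) (Q : ℝ → F → Prop) (B : ℝ)
    (step : ∀ M, 0 ≤ M → ∀ x, Q M x → ∃ w : W, ‖w‖ ≤ B * M ∧ Q (M / 2) (x - S w))
    (M : ℝ) (hM : 0 ≤ M) (x : F) (hx : Q M x) :
    ∃ w : W, ‖w‖ ≤ 2 * B * M ∧ ∃ w' : ℕ → W, Filter.Tendsto w' Filter.atTop (nhds w) ∧
      ∀ n, Q (M / 2 ^ n) (x - S (w' n)) := by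
  classical
  choose! w hw hQ using step
  let xs : ℕ → F := fun n => Nat.rec x (fun n y => y - S (w (M / 2 ^ n) y)) n
  have hxs0 : xs 0 = x := rfl
  have hxs1 : ∀ n, xs (n + 1) = xs n - S (w (M / 2 ^ n) (xs n)) := fun n => rfl
  have hMn : ∀ n : ℕ, 0 ≤ M / 2 ^ n := fun n => by positivity
  have hQn : ∀ n, Q (M / 2 ^ n) (xs n) := by
    intro n
    induction n with
    | zero => rw [hxs0, pow_zero, div_one]; exact hx
    | succ n ih =>
      rw [hxs1, pow_succ, ← div_div]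
      exact hQ _ (hMn n) _ ih
  let ws : ℕ → W := fun n => w (M / 2 ^ n) (xs n)
  have hws : ∀ n, ‖ws n‖ ≤ (B * M) * (1 / 2) ^ n := fun n => by
    have := hw _ (hMn n) _ (hQn n)
    refine this.trans (le_of_eq ?_)
    rw [one_div, inv_pow]
    ring
  have hsum : HasSum (fun n : ℕ => (B * M) * (1 / 2 : ℝ) ^ n) ((B * M) * 2) :=
    hasSum_geometric_two.mul_left _
  have hsw : Summable ws := Summable.of_norm_bounded hsum.summable hws
  refine ⟨∑' n, ws n, ?_, fun n => ∑ i ∈ Finset.range n, ws i, hsw.hasSum.tendsto_sum_nat, ?_⟩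
  · refine (tsum_of_norm_bounded hsum hws).trans (le_of_eq ?_)
    ring
  · intro n
    have h : x - S (∑ i ∈ Finset.range n, ws i) = xs n := by
      induction n with
      | zero => simp [hxs0]
      | succ n ih =>
        rw [Finset.sum_range_succ, map_add, ← sub_sub, ih, hxs1]
    rw [h]
    exact hQn n

end iteration

section main

variable [CompleteSpace k] {c : Cov k} {d : ℝ} {Γ : Type u} [Fintype Γ]

/-- Sums over the pieces. -/
theorem sum_ind (Pc : Pieces c Γ) {m : ℕ} (f : Γ × Fin m → k) (γ : Γ) (a : Tc k) (θ : k)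
    (h : θ ∈ Pc.E γ a) :
    ∑ l : Γ × Fin m, (if θ ∈ Pc.E l.1 a then 1 else 0) * f l = ∑ j : Fin m, f (γ, j) := by
  rw [Fintype.sum_prod_type]
  rw [Finset.sum_eq_single γ]
  · exact Finset.sum_congr rfl fun j _ => by rw [if_pos h, one_mul]
  · intro γ' _ hne
    apply Finset.sum_eq_zero
    intro j _
    rw [if_neg, zero_mul]
    intro h'
    exact hne (Pc.disj a _ _ θ h' h)
  · intro h'
    exact absurd (Finset.mem_univ _) h'

/-- The sum of the two parts. -/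
def SS (Pc : Pieces c Γ) (m : ℕ) (tht : Tc k → k → k) (Y : Γ × Fin m → k[X][X]) (N₂ : ℕ) :
    ((Γ × Fin m → RP k) × (Γ × Fin m → RP k)) →+ (Tc k → k → k) where
  toFun w := fun a θ => ∑ l : Γ × Fin m, (if θ ∈ Pc.E l.1 a then 1 else 0) *
      (evP a.1 (w.1 l) * tht a θ ^ (l.2 : ℕ)) +
    ∑ l : Γ × Fin m, (a.1)⁻¹ ^ (N₂ + 1) * evP (a.1)⁻¹ (w.2 l) * ev2 a.1 θ (Y l)
  map_zero' := by
    funext a θ
    simp
  map_add' w w' := by
    funext a θ
    simp only [Prod.fst_add, Prod.snd_add, Pi.add_apply, map_add]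
    have h1 : ∀ l : Γ × Fin m, (if θ ∈ Pc.E l.1 a then (1 : k) else 0) *
        ((evP a.1 (w.1 l) + evP a.1 (w'.1 l)) * tht a θ ^ (l.2 : ℕ)) =
        (if θ ∈ Pc.E l.1 a then 1 else 0) * (evP a.1 (w.1 l) * tht a θ ^ (l.2 : ℕ)) +
        (if θ ∈ Pc.E l.1 a then 1 else 0) * (evP a.1 (w'.1 l) * tht a θ ^ (l.2 : ℕ)) :=
      fun l => by rw [add_mul, mul_add]
    have h2 : ∀ l : Γ × Fin m, (a.1)⁻¹ ^ (N₂ + 1) * (evP (a.1)⁻¹ (w.2 l) +
        evP (a.1)⁻¹ (w'.2 l)) * ev2 a.1 θ (Y l) =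
        (a.1)⁻¹ ^ (N₂ + 1) * evP (a.1)⁻¹ (w.2 l) * ev2 a.1 θ (Y l) +
        (a.1)⁻¹ ^ (N₂ + 1) * evP (a.1)⁻¹ (w'.2 l) * ev2 a.1 θ (Y l) :=
      fun l => by rw [mul_add, add_mul]
    rw [Finset.sum_congr rfl fun l _ => h1 l, Finset.sum_congr rfl fun l _ => h2 l,
      Finset.sum_add_distrib, Finset.sum_add_distrib, add_add_add_comm]

theorem SS_apply (Pc : Pieces c Γ) (m : ℕ) (tht : Tc k → k → k) (Y : Γ × Fin m → k[X][X])
    (N₂ : ℕ) (w : (Γ × Fin m → RP k) × (Γ × Fin m → RP k)) (a : Tc k) (θ : k) :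
    SS Pc m tht Y N₂ w a θ = ∑ l : Γ × Fin m, (if θ ∈ Pc.E l.1 a then 1 else 0) *
      (evP a.1 (w.1 l) * tht a θ ^ (l.2 : ℕ)) +
    ∑ l : Γ × Fin m, (a.1)⁻¹ ^ (N₂ + 1) * evP (a.1)⁻¹ (w.2 l) * ev2 a.1 θ (Y l) := rfl

theorem continuous_SS (Pc : Pieces c Γ) (m : ℕ) (tht : Tc k → k → k) (Y : Γ × Fin m → k[X][X])
    (N₂ : ℕ) (a : Tc k) (θ : k) : Continuous fun w => SS Pc m tht Y N₂ w a θ := by
  simp only [SS_apply]
  apply Continuous.add
  · apply continuous_finsetSum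
    intro l _
    apply Continuous.mul continuous_const
    apply Continuous.mul _ continuous_const
    exact (continuous_evP a.1).comp ((continuous_apply l).comp continuous_fst)
  · apply continuous_finsetSum
    intro l _
    apply Continuous.mul _ continuous_const
    apply Continuous.mul continuous_const
    exact (continuous_evP (a.1)⁻¹).comp ((continuous_apply l).comp continuous_snd)

theorem isA_SS (Pc : Pieces c Γ) (m : ℕ) (tht : Tc k → k → k) (htht : IsA c tht)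
    (Y : Γ × Fin m → k[X][X]) (N₂ : ℕ) (w : (Γ × Fin m → RP k) × (Γ × Fin m → RP k)) :
    IsA c (SS Pc m tht Y N₂ w) := by
  have h : IsA c fun a θ => ∑ l : Γ × Fin m, (if θ ∈ Pc.E l.1 a then 1 else 0) *
      (evP a.1 (w.1 l) * tht a θ ^ (l.2 : ℕ)) +
    ∑ l : Γ × Fin m, (a.1)⁻¹ ^ (N₂ + 1) * evP (a.1)⁻¹ (w.2 l) * ev2 a.1 θ (Y l) := by
    apply isA_add
    · apply isA_sum
      intro l
      exact isA_mul (Pc.ind l.1) (isA_mul (isA_fun (isR_evP _)) (isA_pow htht _))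
    · apply isA_sum
      intro l
      exact isA_mul (isA_mul (isA_fun (isR_inv_pow _)) (isA_fun (isR_evP_inv _))) (isA_ev2 _)
  exact isA_congr h fun a θ _ => SS_apply _ _ _ _ _ _ _ _

theorem norm_pow_sub_pow_le (x y : k) (hx : ‖x‖ ≤ 1) (hy : ‖y‖ ≤ 1) (j : ℕ) :
    ‖x ^ j - y ^ j‖ ≤ ‖x - y‖ := by
  induction j with
  | zero => simp
  | succ j ih =>
    have h : x ^ (j + 1) - y ^ (j + 1) = (x ^ j - y ^ j) * x + y ^ j * (x - y) := by ring
    rw [h]
    refine (IsUltrametricDist.norm_add_le_max _ _).trans (max_le ?_ ?_)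
    · rw [norm_mul]
      calc _ ≤ ‖x - y‖ * 1 := by gcongr
        _ = _ := mul_one _
    · rw [norm_mul, norm_pow]
      calc _ ≤ 1 * ‖x - y‖ := by
            gcongr
            exact pow_le_one₀ (norm_nonneg _) hy
        _ = _ := one_mul _

variable [IsAlgClosed k]

theorem prod_erase_ge (hs : Sep c d) (a : Tc k) (E : Finset k) (hE : E ⊆ fib c.P a) (θ : k)
    (hθ : θ ∈ E) : d ≤ ‖∏ θ' ∈ E.erase θ, (θ - θ')‖ := by
  have h1 := hs.sep a θ (hE hθ)
  have hsub : E.erase θ ⊆ (fib c.P a).erase θ := Finset.erase_subset_erase _ hE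
  rw [← Finset.prod_sdiff hsub, norm_mul] at h1
  have h2 : ‖∏ x ∈ (fib c.P a).erase θ \ E.erase θ, (θ - x)‖ ≤ 1 := by
    rw [norm_prod]
    apply Finset.prod_le_one
    · intro i _; exact norm_nonneg _
    · intro i hi
      have hi' : i ∈ fib c.P a := Finset.mem_of_mem_erase (Finset.mem_sdiff.mp hi).1
      rw [sub_eq_add_neg]
      refine (IsUltrametricDist.norm_add_le_max _ _).trans (max_le ?_ ?_)
      · exact hs.norm_le a θ (hE hθ)
      · rw [norm_neg]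
        exact hs.norm_le a i hi'
  calc d ≤ _ := h1
    _ ≤ 1 * ‖∏ θ' ∈ E.erase θ, (θ - θ')‖ := by gcongr
    _ = _ := one_mul _

/-- One step of the approximation. -/
theorem step (hLag : Stmt_Lag k) (hDec : Stmt_Dec k) (hs : Sep c d) (Pc : Pieces c Γ)
    (N₁ : ℕ) (tht : Tc k → k → k) (htht : IsA c tht)
    (hclose : ∀ a : Tc k, ∀ θ ∈ fib c.P a, ‖tht a θ - a.1 ^ N₁ * θ‖ ≤ d / 2)
    (G : Γ → (RR k)[X]) (hG : ∀ γ, (G γ).Monic)
    (hGa : ∀ γ a, (G γ).map (evR a) = ∏ θ ∈ Pc.E γ a, (X - C θ))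
    (m : ℕ) (hm : c.P.natDegree = m) (Y : Γ × Fin m → k[X][X]) (N₂ : ℕ)
    (hY : ∀ l : Γ × Fin m, ∀ a : Tc k, ∀ θ ∈ fib c.P a,
      ‖(if θ ∈ Pc.E l.1 a then 1 else 0) * (a.1 ^ (N₁ * (l.2 : ℕ)) * θ ^ (l.2 : ℕ)) -
        (a.1)⁻¹ ^ N₂ * ev2 a.1 θ (Y l)‖ ≤ d / 2)
    (M : ℝ) (hM : 0 ≤ M) (x : Tc k → k → k)
    (hx : IsA c x ∧ ∀ a : Tc k, ∀ θ ∈ fib c.P a, ‖x a θ‖ ≤ M) :
    ∃ w : (Γ × Fin m → RP k) × (Γ × Fin m → RP k),
      ‖w‖ ≤ (1 / d) * M ∧ (IsA c (x - SS Pc m tht Y N₂ w) ∧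
      ∀ a : Tc k, ∀ θ ∈ fib c.P a, ‖(x - SS Pc m tht Y N₂ w) a θ‖ ≤ M / 2) := by
  obtain ⟨⟨u, hu⟩, hxM⟩ := hx
  have hnt : Nontrivial (RR k) := rr_nontrivial
  have hd := hs.pos
  have hMd : 0 ≤ M / d := by positivity
  -- the coefficients on the pieces
  obtain ⟨v, hv⟩ : ∃ v : Γ → (RR k)[X], ∀ γ, v γ = u %ₘ G γ := ⟨_, fun _ => rfl⟩
  have hdegG : ∀ γ (a : Tc k), (G γ).natDegree = (Pc.E γ a).card := by
    intro γ a
    rw [← (hG γ).natDegree_map (evR a), hGa γ a, natDegree_prod_of_monic _ _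
      fun θ _ => monic_X_sub_C θ]
    simp
  have hvdeg : ∀ γ, (v γ).degree < (G γ).degree := fun γ => by
    rw [hv γ]
    exact degree_modByMonic_lt _ (hG γ)
  have hvev : ∀ γ (a : Tc k), ∀ θ ∈ Pc.E γ a, x a θ = ((v γ).map (evR a)).eval θ := by
    intro γ a θ hθ
    rw [hu a θ (Pc.sub γ a hθ), hv γ]
    conv_lhs => rw [← modByMonic_add_div u (G γ)]
    rw [Polynomial.map_add, Polynomial.map_mul, eval_add, eval_mul, hGa γ a]
    have h0 : (∏ θ ∈ Pc.E γ a, (X - C θ)).eval θ = 0 := by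
      rw [eval_prod]
      exact Finset.prod_eq_zero hθ (by simp)
    rw [h0, zero_mul, add_zero]
  have hvcoef : ∀ γ (a : Tc k) j, ‖evR a ((v γ).coeff j)‖ ≤ M / d := by
    intro γ a j
    rw [← coeff_map]
    apply hLag (Pc.E γ a) d M _ hd hM
    · refine lt_of_le_of_lt degree_map_le (lt_of_lt_of_le (hvdeg γ) ?_)
      rw [degree_eq_natDegree (hG γ).ne_zero, hdegG γ a]
    · exact fun x hx => hs.norm_le a x (Pc.sub γ a hx)
    · exact fun x hx => prod_erase_ge hs a _ (Pc.sub γ a) x hx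
    · intro y hy
      rw [← hvev γ a y hy]
      exact hxM a y (Pc.sub γ a hy)
  have hvm : ∀ γ, (v γ).natDegree < m := by
    intro γ
    by_cases h0 : v γ = 0
    · rw [h0, natDegree_zero, ← hm]
      exact c.pos
    · refine lt_of_lt_of_le ((natDegree_lt_natDegree_iff h0).mpr (hvdeg γ)) ?_
      rw [hdegG γ one', ← hm, ← hs.card one']
      exact Finset.card_le_card (Pc.sub γ _)
  -- the Laurent parts
  obtain ⟨ρ, hρ⟩ : ∃ ρ : Γ × Fin m → RR k, ∀ l, ∀ a : Tc k,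
      evR a (ρ l) = (a.1)⁻¹ ^ (N₁ * (l.2 : ℕ)) * evR a ((v l.1).coeff l.2) :=
    ⟨fun l => ⟨_, isR_inv_pow (N₁ * (l.2 : ℕ))⟩ * (v l.1).coeff l.2, fun l a => by
      rw [map_mul]; rfl⟩
  have hρM : ∀ l a, ‖evR a (ρ l)‖ ≤ M / d := by
    intro l a
    rw [hρ l a, norm_mul, norm_pow, a.norm_inv, one_pow, one_mul]
    exact hvcoef _ _ _
  have hdec := fun l => hDec (ρ l) (M / d) hMd (hρM l)
  choose r1 r2 hr1 hr2 hr using hdec
  refine ⟨(r1, r2), ?_, ?_, ?_⟩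
  · have h1 : (1 / d) * M = M / d := by ring
    rw [h1, Prod.norm_def]
    exact max_le ((pi_norm_le_iff_of_nonneg hMd).mpr hr1) ((pi_norm_le_iff_of_nonneg hMd).mpr hr2)
  · exact isA_sub ⟨u, hu⟩ (isA_SS Pc m tht htht Y N₂ _)
  · intro a θ hθ
    obtain ⟨γ, hγ⟩ := Pc.cover a θ hθ
    have ha : ‖a.1‖ = 1 := a.2
    have hθ1 : ‖θ‖ ≤ 1 := hs.norm_le a θ hθ
    have hy1 : ‖a.1 ^ N₁ * θ‖ ≤ 1 := by
      rw [norm_mul, norm_pow, ha, one_pow, one_mul]
      exact hθ1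
    have ht1 : ‖tht a θ‖ ≤ 1 := by
      have h1 : tht a θ = (tht a θ - a.1 ^ N₁ * θ) + a.1 ^ N₁ * θ := by ring
      rw [h1]
      refine (IsUltrametricDist.norm_add_le_max _ _).trans (max_le ?_ hy1)
      refine (hclose a θ hθ).trans ?_
      have := hs.le_one
      linarith
    have hpow : ∀ j : ℕ, a.1 ^ (N₁ * j) * θ ^ j = (a.1 ^ N₁ * θ) ^ j := fun j => by
      rw [mul_pow, pow_mul]
    have haa : ∀ j : ℕ, (a.1)⁻¹ ^ j * a.1 ^ j = 1 := fun j => by
      rw [← mul_pow, inv_mul_cancel₀ a.ne_zero, one_pow]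
    have hx1 : x a θ = ∑ l : Γ × Fin m, (if θ ∈ Pc.E l.1 a then 1 else 0) *
        (evR a (ρ l) * (a.1 ^ (N₁ * (l.2 : ℕ)) * θ ^ (l.2 : ℕ))) := by
      rw [sum_ind Pc (fun l => evR a (ρ l) * (a.1 ^ (N₁ * (l.2 : ℕ)) * θ ^ (l.2 : ℕ))) γ a θ hγ,
        hvev γ a θ hγ, eval_eq_sum_range' (lt_of_le_of_lt natDegree_map_le (hvm γ)),
        Finset.sum_range]
      apply Finset.sum_congr rfl
      intro j _
      rw [coeff_map, hρ]
      linear_combination (-(evR a ((v γ).coeff j)) * θ ^ (j : ℕ)) * haa (N₁ * (j : ℕ))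
    have hx2 : (x - SS Pc m tht Y N₂ (r1, r2)) a θ =
        ∑ l : Γ × Fin m, ((if θ ∈ Pc.E l.1 a then 1 else 0) * (evP a.1 (r1 l) *
          ((a.1 ^ N₁ * θ) ^ (l.2 : ℕ) - tht a θ ^ (l.2 : ℕ))) +
          (a.1)⁻¹ * evP (a.1)⁻¹ (r2 l) *
            ((if θ ∈ Pc.E l.1 a then 1 else 0) * (a.1 ^ (N₁ * (l.2 : ℕ)) * θ ^ (l.2 : ℕ)) -
              (a.1)⁻¹ ^ N₂ * ev2 a.1 θ (Y l))) := by
      have h1 : (x - SS Pc m tht Y N₂ (r1, r2)) a θ =
        x a θ - SS Pc m tht Y N₂ (r1, r2) a θ := rfl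
      rw [h1, hx1, SS_apply, ← Finset.sum_add_distrib, ← Finset.sum_sub_distrib]
      apply Finset.sum_congr rfl
      intro l _
      rw [hr l a, hpow, pow_succ]
      ring
    rw [hx2]
    have hM2 : 0 ≤ M / 2 := by linarith
    apply IsUltrametricDist.norm_sum_le_of_forall_le_of_nonneg hM2
    intro l _
    have hMM : (M / d) * (d / 2) = M / 2 := by
      field_simp
    refine (IsUltrametricDist.norm_add_le_max _ _).trans (max_le ?_ ?_)
    · rw [norm_mul, norm_mul, ← hMM]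
      have h1 : ‖(if θ ∈ Pc.E l.1 a then (1 : k) else 0)‖ ≤ 1 := by
        split_ifs <;> simp
      have h2 : ‖evP a.1 (r1 l)‖ ≤ M / d := (norm_evP_le _ _).trans (hr1 l)
      have h3 : ‖(a.1 ^ N₁ * θ) ^ (l.2 : ℕ) - tht a θ ^ (l.2 : ℕ)‖ ≤ d / 2 := by
        refine (norm_pow_sub_pow_le _ _ hy1 ht1 _).trans ?_
        rw [norm_sub_rev]
        exact hclose a θ hθ
      calc _ ≤ 1 * ((M / d) * (d / 2)) := by gcongr
        _ = _ := one_mul _
    · rw [norm_mul, norm_mul, a.norm_inv, one_mul, ← hMM]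
      have h2 : ‖evP (a.1)⁻¹ (r2 l)‖ ≤ M / d := (norm_evP_le _ _).trans (hr2 l)
      have h3 := hY l a θ hθ
      gcongr

theorem main (hRank : Stmt_Rank k) (hDec : Stmt_Dec k) (hLag : Stmt_Lag k) (hs : Sep c d)
    (Pc : Pieces c Γ) (N₁ : ℕ) (tht : Tc k → k → k) (htht : IsA c tht)
    (hclose : ∀ a : Tc k, ∀ θ ∈ fib c.P a, ‖tht a θ - a.1 ^ N₁ * θ‖ ≤ d / 2) :
    ∃ (A : ℝ) (κ : Type u) (_ : Fintype κ) (Y : κ → k[X][X]) (N₂ : ℕ), 0 < A ∧
      ∀ (x : Tc k → k → k) (M : ℝ), IsA c x → 0 ≤ M →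
        (∀ a : Tc k, ∀ θ ∈ fib c.P a, ‖x a θ‖ ≤ M) →
        ∃ (g : Γ → (RP k)[X]) (r : κ → RP k), (∀ γ j, ‖(g γ).coeff j‖ ≤ A * M) ∧
          (∀ γ, (g γ).natDegree < c.P.natDegree) ∧ (∀ l, ‖r l‖ ≤ A * M) ∧
          ∀ γ, ∀ a : Tc k, ∀ θ ∈ Pc.E γ a, x a θ = ((g γ).map (evP a.1)).eval (tht a θ) +
            ∑ l, (a.1)⁻¹ ^ (N₂ + 1) * evP (a.1)⁻¹ (r l) * ev2 a.1 θ (Y l) := by
  have hd := hs.pos
  have hG := fun γ => hRank c d hs (Pc.E γ) (Pc.sub γ) (Pc.ind γ)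
  choose G hGm hGa using hG
  obtain ⟨m, hm⟩ : ∃ m, c.P.natDegree = m := ⟨_, rfl⟩
  have hmpos : 0 < m := by rw [← hm]; exact c.pos
  have hd2 : 0 < d / 2 := by linarith
  obtain ⟨N₂, Y, hY⟩ := approx_family hs (κ := Γ × Fin m)
    (fun l a θ => (if θ ∈ Pc.E l.1 a then 1 else 0) *
      (a.1 ^ (N₁ * (l.2 : ℕ)) * θ ^ (l.2 : ℕ)))
    (fun l => isA_mul (Pc.ind l.1) (isA_mul (isA_fun (by
      have := isR_poly (k := k) (X ^ (N₁ * (l.2 : ℕ)))
      simpa using this)) (isA_pow isA_X _))) (d / 2) hd2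
  refine ⟨2 * (1 / d), Γ × Fin m, inferInstance, Y, N₂, by positivity, ?_⟩
  intro x M hx hM hxM
  obtain ⟨w, hw, w', hw', hQ⟩ := successive (SS Pc m tht Y N₂)
    (fun M x => IsA c x ∧ ∀ a : Tc k, ∀ θ ∈ fib c.P a, ‖x a θ‖ ≤ M) (1 / d)
    (fun M hM x hx => step hLag hDec hs Pc N₁ tht htht hclose G hGm hGa m hm Y N₂ hY M hM x hx)
    M hM x ⟨hx, hxM⟩
  have hlim : ∀ a : Tc k, ∀ θ ∈ fib c.P a, x a θ = SS Pc m tht Y N₂ w a θ := by
    intro a θ hθ
    have h1 : Filter.Tendsto (fun n => SS Pc m tht Y N₂ (w' n) a θ) Filter.atTop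
        (nhds (SS Pc m tht Y N₂ w a θ)) :=
      ((continuous_SS Pc m tht Y N₂ a θ).tendsto w).comp hw'
    have h2 : Filter.Tendsto (fun n => SS Pc m tht Y N₂ (w' n) a θ) Filter.atTop
        (nhds (x a θ)) := by
      rw [tendsto_iff_norm_sub_tendsto_zero]
      have h3 : Filter.Tendsto (fun n : ℕ => M / 2 ^ n) Filter.atTop (nhds 0) := by
        have := (tendsto_pow_atTop_nhds_zero_of_lt_one (r := (1 / 2 : ℝ)) (by norm_num)
          (by norm_num)).const_mul M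
        rw [mul_zero] at this
        refine this.congr fun n => ?_
        rw [one_div, inv_pow]
        rfl
      refine squeeze_zero (fun _ => norm_nonneg _) (fun n => ?_) h3
      rw [norm_sub_rev]
      exact (hQ n).2 a θ hθ
    exact tendsto_nhds_unique h2 h1
  have hwn : ‖w‖ ≤ 2 * (1 / d) * M := hw
  have hw1 : ∀ l, ‖w.1 l‖ ≤ 2 * (1 / d) * M := fun l =>
    (norm_le_pi_norm w.1 l).trans ((norm_fst_le w).trans hwn)
  have hw2 : ∀ l, ‖w.2 l‖ ≤ 2 * (1 / d) * M := fun l =>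
    (norm_le_pi_norm w.2 l).trans ((norm_snd_le w).trans hwn)
  have hAM : 0 ≤ 2 * (1 / d) * M := (norm_nonneg _).trans hwn
  obtain ⟨g, hg⟩ : ∃ g : Γ → (RP k)[X], ∀ γ, g γ = ∑ j : Fin m, monomial (j : ℕ) (w.1 (γ, j)) :=
    ⟨_, fun _ => rfl⟩
  refine ⟨g, w.2, ?_, ?_, hw2, ?_⟩
  · intro γ j
    rw [hg γ, finsetSum_coeff]
    by_cases hj : j < m
    · rw [Finset.sum_eq_single (⟨j, hj⟩ : Fin m)]
      · rw [coeff_monomial, if_pos rfl]
        exact hw1 _
      · intro i _ hi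
        rw [coeff_monomial, if_neg]
        intro h
        exact hi (Fin.ext h)
      · intro h
        exact absurd (Finset.mem_univ _) h
    · rw [Finset.sum_eq_zero]
      · rw [norm_zero]
        exact hAM
      · intro i _
        rw [coeff_monomial, if_neg]
        intro h
        exact hj (h ▸ i.2)
  · intro γ
    rw [hm, hg γ]
    have h1 : (∑ j : Fin m, monomial (j : ℕ) (w.1 (γ, j))).natDegree ≤ m - 1 := by
      apply natDegree_sum_le_of_forall_le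
      intro j _
      refine (natDegree_monomial_le _).trans ?_
      have := j.2
      omega
    omega
  · intro γ a θ hθ
    rw [hlim a θ (Pc.sub γ a hθ), SS_apply, sum_ind Pc _ γ a θ hθ, hg γ]
    congr 1
    rw [Polynomial.map_sum, eval_finsetSum]
    apply Finset.sum_congr rfl
    intro j _
    rw [map_monomial, eval_monomial]

end main

end DECO

variable (k : Type u) [NontriviallyNormedField k] [IsUltrametricDist k] [CompleteSpace k]
  [IsAlgClosed k]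

theorem deco_proof (hRank : Stmt_Rank k) (hDec : Stmt_Dec k) (hLag : Stmt_Lag k) :
    Stmt_Deco k := by
  intro c d hs Γ _ Pc N₁ tht htht hclose
  exact DECO.main hRank hDec hLag hs Pc N₁ tht htht hclose

end Pool.Agent.DC
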