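import Mathlib
import Pool.Agent.DC.StmtsE
import Pool.Agent.LibDb3ab1.Dim

/-!
# DIM2: the cone over a curve with two independent points has dimension two
-/

set_option autoImplicit false
set_option linter.style.haveILetI false

noncomputable section

namespace Pool.Agent.DC.DIM2

open scoped Classical

universe u

theorem coeff_aeval {k B : Type u} [Field k] [CommRing B] [Algebra k B] (w : Fin 2 → B)
    (p : MvPolynomial (Fin 2) k) (m : ℕ) :
    (MvPolynomial.aeval (fun i => Polynomial.C (w i) * Polynomial.X) p : Polynomial B).coeff m =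
      MvPolynomial.aeval w (MvPolynomial.homogeneousComponent m p) := by
  induction p using MvPolynomial.induction_on' with
  | monomial s c =>
    have h1 : (MvPolynomial.aeval (fun i => Polynomial.C (w i) * Polynomial.X)
        (MvPolynomial.monomial s c) : Polynomial B) =
        Polynomial.C (MvPolynomial.aeval w (MvPolynomial.monomial s c)) *
          Polynomial.X ^ s.degree := by
      rw [MvPolynomial.aeval_monomial, MvPolynomial.aeval_monomial, Finsupp.degree_eq_sum,
        Finsupp.prod_fintype _ _ (by simp), Finsupp.prod_fintype _ _ (by simp)]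
      simp only [Fin.sum_univ_two, Fin.prod_univ_two, map_mul, map_pow, mul_pow, pow_add]
      rw [IsScalarTower.algebraMap_apply k B (Polynomial B), Polynomial.algebraMap_eq]
      ring
    rw [h1, Polynomial.coeff_C_mul, Polynomial.coeff_X_pow,
      MvPolynomial.homogeneousComponent_of_mem (n := s.degree)
        (MvPolynomial.isHomogeneous_monomial c rfl)]
    split_ifs <;> simp
  | add p q hp hq =>
    rw [map_add, Polynomial.coeff_add, hp, hq, map_add, map_add]

theorem eq_zero_of_homog {k L : Type u} [Field k] [Field L] [Algebra k L] (w : Fin 2 → L)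
    (hw : w 1 ≠ 0) (ht : Transcendental k (w 0 / w 1)) (q : MvPolynomial (Fin 2) k) (m : ℕ)
    (hq : q.IsHomogeneous m) (h0 : MvPolynomial.aeval w q = 0) : q = 0 := by
  have hdeg : ∀ s ∈ q.support, s 0 + s 1 = m := by
    intro s hs
    have h := hq (MvPolynomial.mem_support_iff.mp hs)
    rw [Finsupp.weight_apply, Finsupp.sum_fintype _ _ (by simp)] at h
    simpa [Fin.sum_univ_two] using h
  set h : Polynomial k := ∑ s ∈ q.support, Polynomial.monomial (s 0) (q.coeff s) with hh
  have h1 : MvPolynomial.aeval w q = w 1 ^ m * Polynomial.aeval (w 0 / w 1) h := by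
    conv_lhs => rw [MvPolynomial.as_sum q]
    rw [map_sum, hh, map_sum, Finset.mul_sum]
    apply Finset.sum_congr rfl
    intro s hs
    rw [MvPolynomial.aeval_monomial, Polynomial.aeval_monomial,
      Finsupp.prod_fintype _ _ (by simp), Fin.prod_univ_two, ← hdeg s hs, div_pow, pow_add]
    field_simp
  have h2 : h = 0 := by
    rw [h0] at h1
    have h3 : Polynomial.aeval (w 0 / w 1) h = 0 := by
      rcases mul_eq_zero.mp h1.symm with h4 | h4
      · exact absurd h4 (pow_ne_zero _ hw)
      · exact h4
    exact (transcendental_iff.mp ht) h h3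
  ext s
  rw [MvPolynomial.coeff_zero]
  by_contra hne
  have hs : s ∈ q.support := MvPolynomial.mem_support_iff.mpr hne
  have h3 : h.coeff (s 0) = q.coeff s := by
    rw [hh, Polynomial.finsetSum_coeff, Finset.sum_eq_single s]
    · rw [Polynomial.coeff_monomial, if_pos rfl]
    · intro t ht' hts
      rw [Polynomial.coeff_monomial, if_neg]
      intro h4
      apply hts
      ext i
      have h5 := hdeg s hs
      have h6 := hdeg t ht'
      fin_cases i
      · exact h4
      · show t 1 = s 1
        omega
    · intro h4; exact absurd hs h4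
  rw [h2, Polynomial.coeff_zero] at h3
  exact hne h3.symm

theorem exists_functional {k : Type u} [Field k] {n : ℕ} (x y : Fin n → k)
    (h : LinearIndependent k ![x, y]) : ∃ c : Fin n → k, ∑ i, c i * x i ≠ 0 ∧
      ∑ i, c i * y i = 0 := by
  have hx : x ∉ Submodule.span k {y} := by
    intro hx
    rw [Submodule.mem_span_singleton] at hx
    obtain ⟨a, ha⟩ := hx
    rw [LinearIndependent.pair_iff] at h
    have := h 1 (-a) (by rw [one_smul, neg_smul, ha]; simp)
    exact one_ne_zero this.1
  obtain ⟨f, hf, hf'⟩ := Submodule.exists_le_ker_of_notMem hx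
  have key : ∀ z : Fin n → k, f z = ∑ i, f (Pi.single i 1) * z i := by
    intro z
    conv_lhs => rw [pi_eq_sum_univ' z]
    rw [map_sum]
    apply Finset.sum_congr rfl
    intro i _
    rw [map_smul, smul_eq_mul, mul_comm]
  refine ⟨fun i => f (Pi.single i 1), ?_, ?_⟩
  · rw [← key]; exact hf
  · rw [← key]
    exact hf' (Submodule.subset_span rfl)

theorem dim2_proof (k : Type u) [Field k] [IsAlgClosed k] : Stmt_Dim2 k := by
  intro n B _ _ t v hB hψ
  obtain ⟨ψ₁, ψ₂, hψ⟩ := hψ
  have := hB.domain
  obtain ⟨c₁, hc₁, hc₁'⟩ := exists_functional _ _ hψ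
  have hψ' : LinearIndependent k ![fun i => ψ₂ (v i), fun i => ψ₁ (v i)] := by
    rw [LinearIndependent.pair_iff] at hψ ⊢
    intro s t h
    exact (hψ t s ((add_comm _ _).trans h)).symm
  obtain ⟨c₂, hc₂, hc₂'⟩ := exists_functional _ _ hψ'
  set a : B := ∑ i, algebraMap k B (c₁ i) * v i with ha
  set b : B := ∑ i, algebraMap k B (c₂ i) * v i with hb
  have ha1 : ψ₁ a ≠ 0 := by simpa [ha] using hc₁
  have ha2 : ψ₂ a = 0 := by simpa [ha] using hc₁'
  have hb1 : ψ₁ b = 0 := by simpa [hb] using hc₂'
  have hb2 : ψ₂ b ≠ 0 := by simpa [hb] using hc₂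
  have hb0 : b ≠ 0 := by rintro h; rw [h, map_zero] at hb2; exact hb2 rfl
  -- transcendence of `a / b`
  set L := FractionRing B
  have hinjL : Function.Injective (algebraMap B L) := IsFractionRing.injective B L
  have htr : Transcendental k (algebraMap B L a / algebraMap B L b) := by
    intro halg
    have hbL : algebraMap B L b ≠ 0 := by
      intro h; exact hb0 (hinjL (by rw [h, map_zero]))
    have hsurj : ∃ c : k, algebraMap k L c = algebraMap B L a / algebraMap B L b := by
      have h1 := IsAlgClosed.degree_eq_one_of_irreducible k (minpoly.irreducible halg.isIntegral)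
      have h2 := minpoly.mem_range_of_degree_eq_one k _ h1
      exact h2
    obtain ⟨c, hc⟩ := hsurj
    have h3 : a = algebraMap k B c * b := by
      apply hinjL
      rw [map_mul, ← IsScalarTower.algebraMap_apply, hc, div_mul_cancel₀ _ hbL]
    apply ha1
    rw [h3, map_mul, hb1, mul_zero]
  -- the quotient ring
  set A := MvPolynomial (Fin (n + 1)) k ⧸ RingHom.ker (cone (k := k) v) with hA
  set κ : A →ₐ[k] Polynomial B := Ideal.kerLiftAlg (cone (k := k) v) with hκ
  have hκinj : Function.Injective κ := Ideal.kerLiftAlg_injective _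
  have : IsDomain A := hκinj.isDomain κ.toRingHom
  have : Algebra.FiniteType k A := Algebra.FiniteType.of_surjective
    (Ideal.Quotient.mkₐ k (RingHom.ker (cone (k := k) v))) (Ideal.Quotient.mkₐ_surjective _ _)
  -- lower bound
  set z : Fin 2 → A := ![Ideal.Quotient.mk _ (∑ i, MvPolynomial.C (c₁ i) * MvPolynomial.X i),
    Ideal.Quotient.mk _ (∑ i, MvPolynomial.C (c₂ i) * MvPolynomial.X i)] with hz
  have hκz : ∀ j, κ (z j) = Polynomial.C ((![a, b] : Fin 2 → B) j) * Polynomial.X := by
    have hc : ∀ c : Fin (n + 1) → k, κ (Ideal.Quotient.mk _ (∑ i, MvPolynomial.C (c i) *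
        MvPolynomial.X i)) = Polynomial.C (∑ i, algebraMap k B (c i) * v i) * Polynomial.X := by
      intro c
      rw [hκ, Ideal.kerLiftAlg_mk, cone, map_sum, map_sum, Finset.sum_mul]
      apply Finset.sum_congr rfl
      intro i _
      rw [map_mul, MvPolynomial.aeval_X, MvPolynomial.aeval_C, map_mul,
        IsScalarTower.algebraMap_apply k B (Polynomial B), Polynomial.algebraMap_eq]
      ring
    intro j
    fin_cases j
    · exact hc c₁
    · exact hc c₂
  have hind : AlgebraicIndependent k z := by
    apply AlgebraicIndependent.of_comp κ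
    rw [algebraicIndependent_iff]
    intro p hp
    have hp' : (MvPolynomial.aeval (fun i => Polynomial.C ((![a, b] : Fin 2 → B) i) *
        Polynomial.X) p : Polynomial B) = 0 := by
      rw [← hp]
      congr 2
      funext j
      exact (hκz j).symm
    rw [← MvPolynomial.sum_homogeneousComponent p]
    apply Finset.sum_eq_zero
    intro m _
    have h1 := coeff_aeval (k := k) (![a, b] : Fin 2 → B) p m
    rw [hp', Polynomial.coeff_zero] at h1
    apply eq_zero_of_homog (L := L) (fun i => algebraMap B L ((![a, b] : Fin 2 → B) i)) _ _ _ m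
      (MvPolynomial.homogeneousComponent_isHomogeneous m p)
    · have h2 := MvPolynomial.aeval_algebraMap_apply (R := k) (A := B) L ![a, b]
        (MvPolynomial.homogeneousComponent m p)
      rw [← h1, map_zero] at h2
      exact h2
    · show algebraMap B L b ≠ 0
      intro h; exact hb0 (hinjL (by rw [h, map_zero]))
    · exact htr
  have hlow : (2 : Cardinal.{u}) ≤ Algebra.trdeg k A := by
    have := hind.lift_cardinalMk_le_trdeg
    simpa using this
  -- upper bound
  have hup : Algebra.trdeg k A ≤ 2 := by
    refine (trdeg_le_of_injective κ hκinj).trans ?_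
    have : FaithfulSMul k B := (faithfulSMul_iff_algebraMap_injective _ _).mpr
      (algebraMap k B).injective
    rw [← trdeg_add_eq k B (A := Polynomial B), Polynomial.trdeg_of_isDomain]
    have h1 : Algebra.trdeg k B = 1 := by
      letI : Algebra (Polynomial k) B := (Polynomial.aeval t : Polynomial k →ₐ[k] B).toAlgebra
      have : IsScalarTower k (Polynomial k) B := IsScalarTower.of_algebraMap_eq
        (fun x => ((Polynomial.aeval t : Polynomial k →ₐ[k] B).commutes x).symm)
      have : FaithfulSMul (Polynomial k) B := (faithfulSMul_iff_algebraMap_injective _ _).mpr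
        hB.inj
      have : Algebra.IsIntegral (Polynomial k) B := ⟨hB.integral⟩
      have h3 : Algebra.trdeg (Polynomial k) B = 0 := by
        rw [trdeg_eq_zero_iff]
        infer_instance
      rw [← trdeg_add_eq k (Polynomial k) (A := B), Polynomial.trdeg_of_isDomain, h3,
        add_zero]
    rw [h1]
    norm_num
  have htd : Algebra.trdeg k A = (2 : ℕ) := by
    rw [Nat.cast_ofNat]
    exact le_antisymm hup hlow
  have := LibDb3ab1.ringKrullDim_eq_trdeg k A htd
  simpa using this

end Pool.Agent.DC.DIM2

namespace Pool.Agent.DC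

universe u

theorem dim2_proof (k : Type u) [Field k] [IsAlgClosed k] : Stmt_Dim2 k := DIM2.dim2_proof k

end Pool.Agent.DC
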