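import Pool.Agent.DC.StmtsC

set_option autoImplicit false

noncomputable section

namespace Pool.Agent.DC

open Polynomial

universe u

variable (k : Type u) [NontriviallyNormedField k] [IsUltrametricDist k]

theorem dom_proof (hSup : Stmt_Sup k) : Stmt_Dom k := by
  intro f g hfg
  by_contra hcon
  push Not at hcon
  obtain ⟨hf0, hg0⟩ := hcon
  have hex : ∀ f : RR k, f ≠ 0 → ∃ a : Tc k, 0 < ‖evR a f‖ := by
    intro f hf
    by_contra h
    push Not at h
    apply hf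
    refine RR.ext fun a => ?_
    rw [map_zero]
    exact norm_le_zero_iff.1 (h a)
  obtain ⟨a0, ha0⟩ := hex f hf0
  obtain ⟨b0, hb0⟩ := hex g hg0
  obtain ⟨A, hA0, hA⟩ := IsR.bdd f.2
  obtain ⟨B, hB0, hB⟩ := IsR.bdd g.2
  set α := ‖evR a0 f‖ with hα
  set β := ‖evR b0 g‖ with hβ
  set ε : ℝ := min (min (α / 2) (β / 2)) (α * β / (2 * (A + B + 1))) with hε
  have hεpos : 0 < ε := by positivity
  have hε1 : ε ≤ α / 2 := (min_le_left _ _).trans (min_le_left _ _)
  have hε2 : ε ≤ β / 2 := (min_le_left _ _).trans (min_le_right _ _)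
  have hε3 : ε ≤ α * β / (2 * (A + B + 1)) := min_le_right _ _
  have hε4 : ε * (A + B + 1) ≤ α * β / 2 := by
    calc ε * (A + B + 1) ≤ α * β / (2 * (A + B + 1)) * (A + B + 1) := by gcongr
      _ = α * β / 2 := by field_simp
  obtain ⟨N, F, hF⟩ := f.2 ε hεpos
  obtain ⟨M, G, hG⟩ := g.2 ε hεpos
  have hαβ : 0 < α * β := mul_pos ha0 hb0
  -- product bound
  have hprod : gn (F * G) ≤ α * β / 2 := by
    refine hSup (F * G) _ (by positivity) ?_
    intro a
    set F' := (a.1)⁻¹ ^ N * F.eval a.1 with hF'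
    set G' := (a.1)⁻¹ ^ M * G.eval a.1 with hG'
    have h1 : ‖(F * G).eval a.1‖ = ‖F' * G'‖ := by
      rw [hF', hG', eval_mul, norm_mul, norm_mul, norm_mul, norm_mul, norm_pow, norm_pow,
        a.norm_inv, one_pow, one_pow, one_mul, one_mul]
    have h2 : f.1 a * g.1 a = 0 := by
      have := congrArg (fun x : RR k => x.1 a) hfg
      exact this
    have h3 : F' * G' = (-(f.1 a - F')) * g.1 a + ((-(g.1 a - G')) * f.1 a +
        (f.1 a - F') * (g.1 a - G')) := by
      linear_combination h2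
    rw [h1, h3]
    refine (IsUltrametricDist.norm_add_le_max _ _).trans (max_le ?_
      ((IsUltrametricDist.norm_add_le_max _ _).trans (max_le ?_ ?_)))
    · rw [norm_mul, norm_neg]
      calc ‖f.1 a - F'‖ * ‖g.1 a‖ ≤ ε * B := by gcongr; exacts [hF a, hB a]
        _ ≤ ε * (A + B + 1) := by gcongr; linarith
        _ ≤ α * β / 2 := hε4
    · rw [norm_mul, norm_neg]
      calc ‖g.1 a - G'‖ * ‖f.1 a‖ ≤ ε * A := by gcongr; exacts [hG a, hA a]
        _ ≤ ε * (A + B + 1) := by gcongr; linarith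
        _ ≤ α * β / 2 := hε4
    · rw [norm_mul]
      calc ‖f.1 a - F'‖ * ‖g.1 a - G'‖ ≤ (α / 2) * (β / 2) := by
            gcongr
            exacts [(hF a).trans hε1, (hG a).trans hε2]
        _ ≤ α * β / 2 := by nlinarith
  have hlow : ∀ (f : RR k) (a : Tc k) (N : ℕ) (F : k[X]),
      ‖f.1 a - (a.1)⁻¹ ^ N * F.eval a.1‖ < ‖evR a f‖ → ‖evR a f‖ ≤ gn F := by
    intro f a N F h
    have h1 : ‖f.1 a‖ ≤ max ‖f.1 a - (a.1)⁻¹ ^ N * F.eval a.1‖ ‖(a.1)⁻¹ ^ N * F.eval a.1‖ := by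
      have e : f.1 a = (f.1 a - (a.1)⁻¹ ^ N * F.eval a.1) + (a.1)⁻¹ ^ N * F.eval a.1 := by ring
      conv_lhs => rw [e]
      exact IsUltrametricDist.norm_add_le_max _ _
    have h2 : ‖(a.1)⁻¹ ^ N * F.eval a.1‖ = ‖F.eval a.1‖ := by
      rw [norm_mul, norm_pow, a.norm_inv, one_pow, one_mul]
    have h3 : ‖F.eval a.1‖ ≤ gn F := norm_eval_le a.2.le F
    rw [evR_apply] at h ⊢
    rcases le_max_iff.1 h1 with h4 | h4
    · exact absurd h4 (not_le.2 h)
    · rw [h2] at h4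
      exact h4.trans h3
  have h1 : α ≤ gn F := hlow f a0 N F ((hF a0).trans_lt (by linarith))
  have h2 : β ≤ gn G := hlow g b0 M G ((hG b0).trans_lt (by linarith))
  rw [gn_mul] at hprod
  have h3 : α * β ≤ gn F * gn G := mul_le_mul h1 h2 (norm_nonneg _) (gn_nonneg _)
  linarith

end Pool.Agent.DC
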