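import Pool.Agent.DC.StmtsB

/-!
# FIELD: a plane separable model of a curve, up to `p`-power roots
-/

set_option autoImplicit false
set_option linter.unusedSectionVars false

noncomputable section

namespace Pool.Agent.DC

open scoped Classical
open Polynomial

universe u

namespace FIELD

/-- clearing denominators of a polynomial over a fraction field -/
theorem clear {A F : Type*} [CommRing A] [IsDomain A] [Field F] [Algebra A F] [IsFractionRing A F]
    (g : F[X]) : ∃ c : A, c ≠ 0 ∧ ∃ g' : A[X], g'.map (algebraMap A F) = C (algebraMap A F c) * g := by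
  obtain ⟨b, hb, h⟩ := IsLocalization.integerNormalization_spec (nonZeroDivisors A) g
  refine ⟨b, nonZeroDivisors.ne_zero hb, _, h.trans ?_⟩
  rw [← IsScalarTower.algebraMap_smul F b g, smul_eq_C_mul]

/-- a primitive element for the separable part of finitely many elements -/
theorem prim (F L : Type u) [Field F] [Field L] [Algebra F L] [Algebra.IsAlgebraic F L] (p : ℕ)
    [ExpChar F p] (n : ℕ) (v : Fin (n + 1) → L) :
    ∃ (κ : ℕ) (θ : L), IsSeparable F θ ∧ ∀ i, ∃ g : F[X], v i ^ p ^ κ = aeval θ g := by
  have h1 : ∀ i, ∃ m : ℕ, v i ^ p ^ m ∈ separableClosure F L := by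
    intro i
    obtain ⟨m, y, hy⟩ := IsPurelyInseparable.pow_mem (separableClosure F L) p (v i)
    exact ⟨m, hy ▸ y.2⟩
  choose m hm using h1
  set κ := Finset.univ.sup m with hκ
  have h2 : ∀ i, v i ^ p ^ κ ∈ separableClosure F L := by
    intro i
    have h3 : m i ≤ κ := Finset.le_sup (Finset.mem_univ i)
    obtain ⟨e, he⟩ := Nat.exists_eq_add_of_le h3
    rw [he, pow_add, pow_mul]
    exact (separableClosure F L).toSubalgebra.pow_mem (hm i) _
  set S : Set L := Set.range fun i => v i ^ p ^ κ with hS
  have hsep : Algebra.IsSeparable F (IntermediateField.adjoin F S) := by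
    rw [IntermediateField.isSeparable_adjoin_iff_isSeparable]
    rintro _ ⟨i, rfl⟩
    exact mem_separableClosure_iff.mp (h2 i)
  have hfin : FiniteDimensional F (IntermediateField.adjoin F S) := by
    have : Finite S := Set.finite_range _
    apply IntermediateField.finiteDimensional_adjoin
    intro x _
    exact Algebra.IsIntegral.isIntegral x
  obtain ⟨α, hα⟩ := Field.exists_primitive_element F (IntermediateField.adjoin F S)
  refine ⟨κ, (α : L), ?_, fun i => ?_⟩
  · have h4 := Algebra.IsSeparable.isSeparable F α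
    exact IsSeparable.map (IntermediateField.val _) Subtype.val_injective h4
  · have h5 : v i ^ p ^ κ ∈ IntermediateField.adjoin F S :=
      IntermediateField.subset_adjoin F S ⟨i, rfl⟩
    have h6 : (⟨v i ^ p ^ κ, h5⟩ : IntermediateField.adjoin F S) ∈
        (IntermediateField.adjoin F {α} : IntermediateField F (IntermediateField.adjoin F S)) := by
      rw [hα]
      exact IntermediateField.mem_top
    rw [← IntermediateField.mem_toSubalgebra,
      IntermediateField.adjoin_simple_toSubalgebra_of_isAlgebraic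
        (Algebra.IsAlgebraic.isAlgebraic α), Algebra.adjoin_singleton_eq_range_aeval] at h6
    obtain ⟨g, hg⟩ := h6
    refine ⟨g, ?_⟩
    have h7 := congrArg (IntermediateField.val (IntermediateField.adjoin F S)) hg
    have h8 : aeval (α : L) g = IntermediateField.val (IntermediateField.adjoin F S)
        (aeval α g) := by
      rw [← Polynomial.aeval_algHom_apply]
      rfl
    rw [h8]
    exact h7.symm

end FIELD

open FIELD

theorem field_proof (hE : Stmt_HomExt.{u}) (k : Type u) [Field k] [IsAlgClosed k] (p : ℕ)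
    [hp : Fact p.Prime] [CharP k p] : Stmt_Field k p := by
  intro n B _ _ t v hB
  obtain ⟨hdom, -, hinj, hint⟩ := hB
  -- the fields
  let _ : Algebra k[X] B := (aeval t : k[X] →ₐ[k] B).toRingHom.toAlgebra
  have halg : ∀ x : k[X], algebraMap k[X] B x = aeval t x := fun _ => rfl
  have hF0 : FaithfulSMul k[X] B := (faithfulSMul_iff_algebraMap_injective _ _).mpr hinj
  have hintA : Algebra.IsIntegral k[X] B := ⟨fun x => hint x⟩
  let L := FractionRing B
  have hF1 : FaithfulSMul k[X] L := by
    rw [faithfulSMul_iff_algebraMap_injective, IsScalarTower.algebraMap_eq k[X] B L]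
    exact (IsFractionRing.injective B L).comp hinj
  let F := FractionRing k[X]
  let _ : Algebra F L := FractionRing.liftAlgebra k[X] L
  have hst : IsScalarTower k[X] F L := inferInstance
  have hFL : Algebra.IsAlgebraic F L := isAlgebraic_of_isFractionRing k[X] B F L
  have hchar : CharP F p := by
    have : CharP k[X] p := inferInstance
    exact IsFractionRing.charP k[X] p
  have hexp : ExpChar F p := ExpChar.prime hp.out
  obtain ⟨κ, θ₀, hsep₀, hg₀⟩ := prim F L p n fun i => algebraMap B L (v i)
  -- make it integral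
  have hθalg : IsAlgebraic k[X] θ₀ := by
    rw [IsFractionRing.isAlgebraic_iff k[X] F L]
    exact Algebra.IsAlgebraic.isAlgebraic θ₀
  obtain ⟨c, hc, hcint⟩ := hθalg.exists_integral_multiple
  set θ : L := c • θ₀ with hθ
  have hcF : algebraMap k[X] F c ≠ 0 := by
    rw [Ne, IsFractionRing.to_map_eq_zero_iff]
    exact hc
  have hθ2 : θ = algebraMap F L (algebraMap k[X] F c) * θ₀ := by
    rw [hθ, ← IsScalarTower.algebraMap_apply, Algebra.smul_def]
  have hsep : IsSeparable F θ := by
    rw [hθ2, ← mem_separableClosure_iff]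
    exact (separableClosure F L).mul_mem ((separableClosure F L).algebraMap_mem _)
      (mem_separableClosure_iff.mpr hsep₀)
  have hg₁ : ∀ i, ∃ g : F[X], algebraMap B L (v i) ^ p ^ κ = aeval θ g := by
    intro i
    obtain ⟨g, hg⟩ := hg₀ i
    refine ⟨g.comp (C (algebraMap k[X] F c)⁻¹ * X), ?_⟩
    rw [hg, aeval_comp]
    congr 1
    rw [map_mul, aeval_C, aeval_X, hθ2, ← mul_assoc, ← map_mul, inv_mul_cancel₀ hcF, map_one,
      one_mul]
  choose g hg using hg₁
  -- clear denominators
  choose q₁ hq₁ N₁ hN₁ using fun i => clear (A := k[X]) (g i)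
  set q : k[X] := ∏ i, q₁ i with hq
  set N : Fin (n + 1) → k[X][X] := fun i => C (∏ j ∈ Finset.univ.erase i, q₁ j) * N₁ i with hNdef
  have hN : ∀ i, (N i).map (algebraMap k[X] F) = C (algebraMap k[X] F q) * g i := by
    intro i
    rw [hNdef, Polynomial.map_mul, hN₁, map_C, ← mul_assoc, ← C_mul, ← map_mul,
      Finset.prod_erase_mul _ _ (Finset.mem_univ i)]
  have hP := minpoly.isIntegrallyClosed_eq_field_fractions' (R := k[X]) F (s := θ) hcint
  set P : k[X][X] := minpoly k[X] θ with hPdef
  have hPm : P.Monic := minpoly.monic hcint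
  obtain ⟨a₁, b₁, hab⟩ : (P.map (algebraMap k[X] F)).Separable := by
    rw [← hP]; exact hsep
  obtain ⟨c₁, hc₁, a₂, ha₂⟩ := clear (A := k[X]) a₁
  obtain ⟨c₂, hc₂, b₂, hb₂⟩ := clear (A := k[X]) b₁
  refine ⟨κ, P, N, q, C c₂ * a₂, C c₁ * b₂, c₁ * c₂, hPm, minpoly.natDegree_pos hcint, ?_,
    mul_ne_zero hc₁ hc₂, Finset.prod_ne_zero_iff.mpr fun i _ => hq₁ i, ?_⟩
  · apply Polynomial.map_injective (algebraMap k[X] F) (IsFractionRing.injective k[X] F)
    rw [derivative_map] at hab
    simp only [Polynomial.map_add, Polynomial.map_mul, map_C, ha₂, hb₂, map_mul]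
    linear_combination (C (algebraMap k[X] F c₁) * C (algebraMap k[X] F c₂)) * hab
  -- the points
  intro Ω _ _ _ a θ' hθ'
  let S := integralClosure k[X] L
  let θs : S := ⟨θ, hcint⟩
  have hcoe : ∀ f : k[X][X], ((f.eval₂ (algebraMap k[X] S) θs : S) : L) = aeval θ f := by
    intro f
    have h1 := Polynomial.hom_eval₂ f (algebraMap k[X] S) (algebraMap S L) θs
    rw [← IsScalarTower.algebraMap_eq] at h1
    exact h1
  have hroot : P.eval₂ (algebraMap k[X] S) θs = 0 := by
    apply Subtype.ext
    rw [hcoe]
    exact minpoly.aeval k[X] θ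
  let i : AdjoinRoot P →+* S := AdjoinRoot.lift (algebraMap k[X] S) θs hroot
  have hi : Function.Injective i := by
    rw [injective_iff_map_eq_zero]
    intro x hx
    obtain ⟨f, rfl⟩ := AdjoinRoot.mk_surjective x
    have h1 : f.eval₂ (algebraMap k[X] S) θs = 0 := by
      rw [← hx]
      exact (AdjoinRoot.lift_mk hroot f).symm
    have h2 : aeval θ f = 0 := by
      rw [← hcoe, h1]
      rfl
    rw [AdjoinRoot.mk_eq_zero]
    exact minpoly.isIntegrallyClosed_dvd hcint h2
  have hiint : i.IsIntegral := by
    apply RingHom.IsIntegral.tower_top (AdjoinRoot.of P) i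
    have h1 : i.comp (AdjoinRoot.of P) = algebraMap k[X] S :=
      RingHom.ext fun x => AdjoinRoot.lift_of hroot
    rw [h1]
    intro x
    exact Algebra.IsIntegral.isIntegral (R := k[X]) x
  have hroot2 : P.eval₂ (aeval (R := k) a).toRingHom θ' = 0 := hθ'
  obtain ⟨ψ', hψ'⟩ := hE (AdjoinRoot P) S Ω i hi hiint
    (AdjoinRoot.lift (aeval (R := k) a).toRingHom θ' hroot2)
  have hψA : ∀ x : k[X], ψ' (algebraMap k[X] S x) = aeval a x := by
    intro x
    have h1 := RingHom.congr_fun hψ' (AdjoinRoot.of P x)
    rw [AdjoinRoot.lift_of, RingHom.comp_apply] at h1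
    have h2 : i (AdjoinRoot.of P x) = algebraMap k[X] S x := AdjoinRoot.lift_of hroot
    rw [h2] at h1
    exact h1
  have hψθ : ψ' θs = θ' := by
    have h1 := RingHom.congr_fun hψ' (AdjoinRoot.root P)
    rw [AdjoinRoot.lift_root, RingHom.comp_apply] at h1
    have h2 : i (AdjoinRoot.root P) = θs := AdjoinRoot.lift_root hroot
    rw [h2] at h1
    exact h1
  let j : B →+* S := (algebraMap B L).codRestrict S.toSubring fun b => by
    change IsIntegral k[X] (algebraMap B L b)
    exact (Algebra.IsIntegral.isIntegral (R := k[X]) b).map (IsScalarTower.toAlgHom k[X] B L)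
  have hjA : ∀ x : k[X], j (algebraMap k[X] B x) = algebraMap k[X] S x := by
    intro x
    apply Subtype.ext
    exact (IsScalarTower.algebraMap_apply k[X] B L x).symm
  let ψ : B →ₐ[k] Ω :=
    { toRingHom := ψ'.comp j
      commutes' := by
        intro x
        have h1 : algebraMap k B x = algebraMap k[X] B (C x) := by
          rw [halg, aeval_C]
        change ψ' (j (algebraMap k B x)) = _
        rw [h1, hjA, hψA, aeval_C] }
  have hψ : ∀ b, ψ b = ψ' (j b) := fun _ => rfl
  refine ⟨ψ, ?_, fun l => ?_⟩
  · have h1 : t = algebraMap k[X] B X := by rw [halg, aeval_X]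
    rw [hψ, h1, hjA, hψA, aeval_X]
  · have h1 : algebraMap k[X] S q * j (v l) ^ p ^ κ = (N l).eval₂ (algebraMap k[X] S) θs := by
      apply Subtype.ext
      rw [hcoe]
      have h2 : aeval θ (N l) = aeval θ ((N l).map (algebraMap k[X] F)) := by
        rw [aeval_map_algebraMap]
      rw [h2, hN, map_mul, aeval_C, ← hg, ← IsScalarTower.algebraMap_apply k[X] F L]
      rfl
    have h3 := congrArg ψ' h1
    rw [map_mul, hψA, map_pow, Polynomial.hom_eval₂, hψθ] at h3
    rw [hψ, h3, ev2]
    congr 1
    exact RingHom.ext fun x => hψA x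

end Pool.Agent.DC
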