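import Mathlib
import Pool.Agent.DC.StmtsE
import Pool.Agent.DC.HOMEXT

/-!
# GEN: generic extension of homomorphisms
-/

set_option autoImplicit false
set_option linter.style.haveILetI false

noncomputable section

namespace Pool.Agent.DC.GEN

universe u

section loc

variable {k S M Sc Mc : Type u} [Field k] [CommRing S] [CommRing M] [CommRing Sc] [CommRing Mc]
  [Algebra k S] [Algebra k M] [Algebra S Sc] [Algebra M Mc]

theorem int_gen (j : S →+* M) (i : Sc →+* Mc) (hi : ∀ s, i (algebraMap S Sc s) =
    algebraMap M Mc (j s)) (c : S) (u : Sc) (hu : algebraMap S Sc c * u = 1) (m : M)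
    (hm : j.IsIntegralElem (j c * m)) : i.IsIntegralElem (algebraMap M Mc m) := by
  obtain ⟨P, hP, hPm⟩ := hm
  have h1 : i.IsIntegralElem (algebraMap M Mc (j c * m)) := by
    refine ⟨P.map (algebraMap S Sc), hP.map _, ?_⟩
    rw [Polynomial.eval₂_map]
    have e : i.comp (algebraMap S Sc) = (algebraMap M Mc).comp j := by
      ext s
      exact hi s
    rw [e, ← Polynomial.hom_eval₂, hPm, map_zero]
  have h2 : algebraMap M Mc m = i u * algebraMap M Mc (j c * m) := by
    rw [map_mul, ← hi, ← mul_assoc, ← map_mul, mul_comm u, hu, map_one, one_mul]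
  rw [h2]
  exact RingHom.IsIntegralElem.mul i (RingHom.isIntegralElem_map i) h1

theorem int_all (j : S →+* M) (i : Sc →+* Mc) (hi : ∀ s, i (algebraMap S Sc s) =
    algebraMap M Mc (j s)) (hjk : ∀ a : k, j (algebraMap k S a) = algebraMap k M a)
    (c : S) (u : Sc) (hu : algebraMap S Sc c * u = 1) (t : Set M)
    (ht : Algebra.adjoin k t = ⊤) (hm : ∀ m ∈ t, j.IsIntegralElem (j c * m)) (m : M) :
    i.IsIntegralElem (algebraMap M Mc m) := by
  have hmem : m ∈ Algebra.adjoin k t := by rw [ht]; trivial
  induction hmem using Algebra.adjoin_induction with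
  | mem x hx => exact int_gen j i hi c u hu x (hm x hx)
  | algebraMap a =>
    rw [← hjk, ← hi]
    exact RingHom.isIntegralElem_map i
  | add x y _ _ hx hy =>
    rw [map_add]
    exact RingHom.IsIntegralElem.add i hx hy
  | mul x y _ _ hx hy =>
    rw [map_mul]
    exact RingHom.IsIntegralElem.mul i hx hy

end loc

theorem gen_proof (k : Type u) [Field k] : Stmt_Gen k := by
  intro r S M _ _ _ _ _ _ W j hW hWint hj hft halg b hb
  letI : Algebra S M := j.toRingHom.toAlgebra
  haveI : Algebra.IsAlgebraic S M := ⟨fun m => by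
    obtain ⟨P, hP, h⟩ := halg m
    exact ⟨P, hP, h⟩⟩
  letI : Algebra (MvPolynomial (Fin r) k) S := W.toRingHom.toAlgebra
  haveI : Algebra.IsIntegral (MvPolynomial (Fin r) k) S := ⟨hWint⟩
  haveI : FaithfulSMul (MvPolynomial (Fin r) k) S :=
    (faithfulSMul_iff_algebraMap_injective _ _).mpr hW
  haveI : FaithfulSMul S M := (faithfulSMul_iff_algebraMap_injective _ _).mpr hj
  obtain ⟨t, ht⟩ := hft
  obtain ⟨c, hc, hct⟩ := Algebra.IsAlgebraic.exists_integral_multiples S t
  obtain ⟨s, hs, b', hbb'⟩ := (Algebra.IsAlgebraic.isAlgebraic (R := S) b).exists_nonzero_dvd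
    (mem_nonZeroDivisors_of_ne_zero hb)
  obtain ⟨h, hh, d', hd⟩ := (Algebra.IsIntegral.isIntegral
    (R := MvPolynomial (Fin r) k) (c * s)).isAlgebraic.exists_nonzero_dvd
    (mem_nonZeroDivisors_of_ne_zero (mul_ne_zero hc hs))
  refine ⟨h, hh, ?_⟩
  intro Ω _ _ _ y hy
  have hd2 : W h = c * s * d' := hd
  have hyc : y c ≠ 0 := by
    intro h0; apply hy; rw [hd2, map_mul, map_mul, h0, zero_mul, zero_mul]
  have hys : y s ≠ 0 := by
    intro h0; apply hy; rw [hd2, map_mul, map_mul, h0, mul_zero, zero_mul]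
  -- localization
  set Sc := Localization.Away c
  set Mc := Localization.Away (j c)
  have hmap : Submonoid.powers c ≤ (Submonoid.powers (j c)).comap j.toRingHom := by
    rintro x ⟨n, rfl⟩
    exact ⟨n, (map_pow j c n).symm⟩
  set i : Sc →+* Mc := IsLocalization.map Mc j.toRingHom hmap with hi
  have hi' : ∀ x, i (algebraMap S Sc x) = algebraMap M Mc (j x) := fun x =>
    IsLocalization.map_eq hmap x
  have hjc : j c ≠ 0 := fun h0 => hc (hj (by rw [h0, map_zero]))
  have hiinj : Function.Injective i := by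
    rw [RingHom.injective_iff_ker_eq_bot, RingHom.ker_eq_bot_iff_eq_zero]
    intro x hx
    obtain ⟨n, a, ha⟩ := IsLocalization.Away.surj c x
    have h1 : algebraMap M Mc (j a) = 0 := by
      rw [← hi', ← ha, map_mul, hx, zero_mul]
    have h2 : j a = 0 := by
      apply IsLocalization.injective Mc (powers_le_nonZeroDivisors_of_noZeroDivisors hjc)
      rw [h1, map_zero]
    have h3 : a = 0 := hj (by rw [h2, map_zero])
    rw [h3, map_zero] at ha
    exact ((IsLocalization.Away.algebraMap_pow_isUnit c n).mul_left_eq_zero).mp ha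
  have hu : algebraMap S Sc c * IsLocalization.Away.invSelf c = 1 :=
    IsLocalization.Away.mul_invSelf c
  have hint : ∀ m : M, i.IsIntegralElem (algebraMap M Mc m) := by
    apply int_all (k := k) j.toRingHom i hi' (fun a => j.commutes a) c _ hu (t : Set M) ht
    intro m hm
    have h1 := hct m hm
    rw [Algebra.smul_def] at h1
    exact h1
  have hiint : i.IsIntegral := by
    intro z
    obtain ⟨n, a, ha⟩ := IsLocalization.Away.surj (j c) z
    have h1 : z = algebraMap M Mc a * i (IsLocalization.Away.invSelf c ^ n) := by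
      rw [← ha, map_pow, mul_assoc, ← mul_pow, ← hi', ← map_mul, hu, map_one, one_pow, mul_one]
    rw [h1]
    exact RingHom.IsIntegralElem.mul i (hint a) (RingHom.isIntegralElem_map i)
  obtain ⟨ψ', hψ'⟩ := homext_proof Sc Mc Ω i hiinj hiint
    (IsLocalization.Away.lift (S := Sc) c (g := y.toRingHom) (IsUnit.mk0 _ hyc))
  have hψj : ∀ x, ψ' (algebraMap M Mc (j x)) = y x := by
    intro x
    rw [← hi']
    have := RingHom.congr_fun hψ' (algebraMap S Sc x)
    rw [RingHom.comp_apply] at this
    rw [this, IsLocalization.Away.lift_eq]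
    rfl
  refine ⟨⟨ψ'.comp (algebraMap M Mc), ?_⟩, ?_, ?_⟩
  · intro a
    have := hψj (algebraMap k S a)
    rw [j.commutes, y.commutes] at this
    exact this
  · ext x
    exact hψj x
  · intro h0
    have h0' : ψ' (algebraMap M Mc b) = 0 := h0
    apply hys
    have h1 : j s = b * b' := hbb'
    rw [← hψj, h1, map_mul, map_mul, h0', zero_mul]

end Pool.Agent.DC.GEN

namespace Pool.Agent.DC

universe u

theorem gen_proof (k : Type u) [Field k] : Stmt_Gen k := GEN.gen_proof k

end Pool.Agent.DC
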