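import Pool.Agent.DC.StmtsC

/-!
# Module GLUE: characteristic polynomials of glued functions
-/

set_option autoImplicit false
set_option linter.unusedSectionVars false

noncomputable section

namespace Pool.Agent.DC.GLUE

open Polynomial
open scoped Classical

universe u

theorem monic_ext {A : Type*} [CommRing A] {p q : A[X]} {m : ℕ} (hp : p.Monic) (hq : q.Monic)
    (hpm : p.natDegree = m) (hqm : q.natDegree = m) (h : ∀ j < m, p.coeff j = q.coeff j) :
    p = q := by
  ext j
  rcases lt_trichotomy j m with hj | hj | hj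
  · exact h j hj
  · have h1 : p.coeff j = 1 := by rw [hj, ← hpm]; exact hp
    have h2 : q.coeff j = 1 := by rw [hj, ← hqm]; exact hq
    rw [h1, h2]
  · rw [coeff_eq_zero_of_natDegree_lt (by omega), coeff_eq_zero_of_natDegree_lt (by omega)]

theorem exists_monic {A : Type*} [CommRing A] [Nontrivial A] (m : ℕ) (h : ℕ → A) :
    ∃ Φ : A[X], Φ.Monic ∧ Φ.natDegree = m ∧ ∀ j < m, Φ.coeff j = h j := by
  have hd : (∑ j : Fin m, C (h j) * X ^ (j : ℕ) : A[X]).degree < m :=
    degree_sum_fin_lt fun j : Fin m => h j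
  refine ⟨X ^ m + ∑ j : Fin m, C (h j) * X ^ (j : ℕ), monic_X_pow_add hd, ?_, ?_⟩
  · rw [natDegree_add_eq_left_of_degree_lt, natDegree_X_pow]
    rwa [degree_X_pow]
  · intro j hj
    rw [coeff_add, coeff_X_pow, if_neg (by omega), zero_add, finsetSum_coeff]
    simp only [coeff_C_mul, coeff_X_pow]
    rw [Finset.sum_eq_single (⟨j, hj⟩ : Fin m)]
    · simp
    · intro b _ hb
      rw [if_neg, mul_zero]
      intro h0
      exact hb (Fin.ext h0.symm)
    · intro h0
      exact absurd (Finset.mem_univ _) h0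

variable {k : Type u} [NontriviallyNormedField k] [IsUltrametricDist k]

theorem exists_num (z : RV k) : ∃ (N : ℕ) (f : RP k), z = tV k ^ N * algebraMap (RP k) (RV k) f := by
  obtain ⟨n, a, h⟩ := IsLocalization.Away.surj (toRP (k := k) X) z
  refine ⟨n, a, ?_⟩
  rw [← h]
  calc z = z * (tV k * algebraMap (RP k) (RV k) (toRP X)) ^ n := by rw [tV_mul, one_pow, mul_one]
    _ = _ := by rw [mul_pow]; ring

theorem evalRingHom_eq (a : k) : evalRingHom a = (aeval (R := k) a).toRingHom := by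
  apply Polynomial.ringHom_ext
  · intro r; simp
  · simp

theorem polV_comp {Ω : Type u} [NormedField Ω] [NormedAlgebra k Ω] [IsUltrametricDist Ω]
    [CompleteSpace Ω] {a : Ω} (ha : 1 ≤ ‖a‖) :
    (evV (k := k) a).comp polV = (aeval (R := k) a).toRingHom :=
  RingHom.ext fun f => evV_polV ha f

theorem toRP_comp {Ω : Type u} [NormedField Ω] [NormedAlgebra k Ω] [IsUltrametricDist Ω]
    [CompleteSpace Ω] {a : Ω} (ha : ‖a‖ ≤ 1) :
    (evP (k := k) a).comp toRP = (aeval (R := k) a).toRingHom :=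
  RingHom.ext fun f => evP_toRP ha f

theorem prod_pieces {c : Cov k} {Γ : Type u} [Fintype Γ] (Pc : Pieces c Γ) (a : Tc k)
    {M : Type*} [CommMonoid M] (F : k → M) :
    ∏ γ, ∏ θ ∈ Pc.E γ a, F θ = ∏ θ ∈ fib c.P a, F θ := by
  have h1 : fib c.P a = Finset.univ.biUnion fun γ => Pc.E γ a := by
    ext θ
    simp only [Finset.mem_biUnion, Finset.mem_univ, true_and]
    constructor
    · exact Pc.cover a θ
    · rintro ⟨γ, hγ⟩
      exact Pc.sub γ a hγ
  rw [h1, Finset.prod_biUnion]
  intro γ _ γ' _ hne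
  rw [Function.onFun, Finset.disjoint_left]
  intro θ h h'
  exact hne (Pc.disj a γ γ' θ h h')

end Pool.Agent.DC.GLUE

namespace Pool.Agent.DC

open Polynomial
open scoped Classical
open GLUE

universe u

theorem glue_proof (k : Type u) [NontriviallyNormedField k] [IsUltrametricDist k] [CompleteSpace k]
    [IsAlgClosed k] (hRes : Stmt_Res.{u}) (hInt : Stmt_Int k) : Stmt_Glue k := by
  intro c d hsep Γ _ Pc G tht hG hGE gV gD hval
  obtain ⟨PV, hPVm, hPVd, hPV⟩ := hRes (RV k) (c.P.map polV) gV (c.monic.map _)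
  choose PD hPDm hPDd hPD using fun γ => hRes (RP k) ((G γ).map toRP) (gD γ) ((hG γ).map _)
  -- the two polynomials at points of the circle
  have hone : ∀ a : Tc k, PV.map (evV a.1) =
      ∏ θ ∈ fib c.P a, (X - C ((gV.map (evV a.1)).eval θ)) := by
    intro a
    rw [hPV k (evV a.1) (fib c.P a).val]
    · rfl
    · rw [Polynomial.map_map, polV_comp a.2.ge, ← evalRingHom_eq, hsep.prod a]
      rfl
  have htwo : ∀ a : Tc k, (∏ γ, PD γ).map (evP a.1) =
      ∏ θ ∈ fib c.P a, (X - C ((gV.map (evV a.1)).eval θ)) := by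
    intro a
    rw [Polynomial.map_prod, ← prod_pieces Pc a]
    apply Finset.prod_congr rfl
    intro γ _
    rw [hPD γ k (evP a.1) ((Pc.E γ a).val.map (tht a))]
    · rw [Multiset.map_map]
      change ∏ θ ∈ Pc.E γ a, (X - C (((gD γ).map (evP a.1)).eval (tht a θ))) = _
      apply Finset.prod_congr rfl
      intro θ hθ
      rw [hval γ a θ hθ]
    · rw [Polynomial.map_map, toRP_comp a.2.le, ← evalRingHom_eq, hGE γ a, Multiset.map_map]
      rfl
  have hPDmon : (∏ γ, PD γ).Monic := monic_prod_of_monic _ _ fun γ _ => hPDm γ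
  have hdegV : PV.natDegree = c.P.natDegree := by
    have : Nontrivial (RV k) := (evV (1 : k)).domain_nontrivial
    rw [hPVd, c.monic.natDegree_map]
  have hdegD : (∏ γ, PD γ).natDegree = c.P.natDegree := by
    let a : Tc k := ⟨1, norm_one⟩
    have : Nontrivial (RV k) := (evV (1 : k)).domain_nontrivial
    have : Nontrivial (RP k) := (evP (1 : k)).domain_nontrivial
    have h1 : ((∏ γ, PD γ).map (evP a.1)).natDegree = (PV.map (evV a.1)).natDegree := by
      rw [hone, htwo]
    rw [hPDmon.natDegree_map, hPVm.natDegree_map] at h1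
    rw [h1, hdegV]
  -- the coefficients
  have hco : ∀ j, ∃ h : k[X], ∀ (Ω : Type u) [NormedField Ω] [NormedAlgebra k Ω]
      [IsUltrametricDist Ω] [CompleteSpace Ω] (a : Ω),
      (‖a‖ ≤ 1 → evP a ((∏ γ, PD γ).coeff j) = aeval a h) ∧
      (1 ≤ ‖a‖ → evV a (PV.coeff j) = aeval a h) := by
    intro j
    obtain ⟨N, f, hf⟩ := exists_num (PV.coeff j)
    obtain ⟨h, hh⟩ := hInt ((∏ γ, PD γ).coeff j) f N (by
      intro a
      have h1 := congrArg (fun p => p.coeff j) ((htwo a).trans (hone a).symm)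
      simp only [coeff_map] at h1
      rw [h1, hf, map_mul, map_pow, evV_tV a.2.ge, evV_algebraMap a.2.ge])
    refine ⟨h, fun Ω _ _ _ _ a => ⟨(hh Ω a).1, fun ha => ?_⟩⟩
    rw [hf, map_mul, map_pow, evV_tV ha, evV_algebraMap ha]
    exact (hh Ω a).2 ha
  choose h hh using hco
  obtain ⟨Φ, hΦm, hΦd, hΦ⟩ := exists_monic c.P.natDegree h
  refine ⟨Φ, hΦm, hΦd, fun Ω _ _ _ _ a => ⟨fun ha s hs => ?_, fun ha s hs => ?_⟩⟩
  · have h1 : Φ.map (aeval (R := k) a).toRingHom = PV.map (evV a) := by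
      refine monic_ext (hΦm.map _) (hPVm.map _) (m := c.P.natDegree) ?_ ?_ fun j hj => ?_
      · rw [hΦm.natDegree_map, hΦd]
      · rw [hPVm.natDegree_map, hdegV]
      · rw [coeff_map, coeff_map, hΦ j hj, (hh j Ω a).2 ha]
        rfl
    rw [h1, hPV Ω (evV a) s]
    rw [Polynomial.map_map, polV_comp ha]
    exact hs
  · have h1 : Φ.map (aeval (R := k) a).toRingHom = (∏ γ, PD γ).map (evP a) := by
      refine monic_ext (hΦm.map _) (hPDmon.map _) (m := c.P.natDegree) ?_ ?_ fun j hj => ?_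
      · rw [hΦm.natDegree_map, hΦd]
      · rw [hPDmon.natDegree_map, hdegD]
      · rw [coeff_map, coeff_map, hΦ j hj, (hh j Ω a).1 ha]
        rfl
    rw [h1, Polynomial.map_prod]
    apply Finset.prod_congr rfl
    intro γ _
    rw [hPD γ Ω (evP a) (s γ)]
    rw [Polynomial.map_map, toRP_comp ha]
    exact hs γ

end Pool.Agent.DC
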