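import Pool.Agent.DC.StmtsC

/-!
# IDEM: the cover splits into pieces on which given functions are nearly constant
-/

set_option autoImplicit false
set_option linter.unusedSectionVars false

noncomputable section

namespace Pool.Agent.DC

open Polynomial
open scoped Classical

universe u

namespace IDEM

section isA

variable {k : Type u} [NontriviallyNormedField k] [IsUltrametricDist k] {c : Cov k}

theorem IsA.congr {f g : Tc k → k → k} (hf : IsA c f)
    (h : ∀ a : Tc k, ∀ θ ∈ fib c.P a, g a θ = f a θ) : IsA c g := by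
  obtain ⟨u, hu⟩ := hf
  exact ⟨u, fun a θ hθ => (h a θ hθ).trans (hu a θ hθ)⟩

/-- polynomials in a function on the cover -/
theorem IsA.evalPoly {y : Tc k → k → k} (hy : IsA c y) (f : k[X]) :
    IsA c fun a θ => f.eval (y a θ) := by
  obtain ⟨u, hu⟩ := hy
  refine ⟨f.eval₂ ((C : RR k →+* (RR k)[X]).comp (polR.comp C)) u, fun a θ hθ => ?_⟩
  have h1 := Polynomial.hom_eval₂ f ((C : RR k →+* (RR k)[X]).comp (polR.comp C))
    ((evalRingHom θ).comp (mapRingHom (evR a))) u
  have h2 : (((evalRingHom θ).comp (mapRingHom (evR a))).comp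
      ((C : RR k →+* (RR k)[X]).comp (polR.comp C))) = RingHom.id k := by
    ext x
    simp
  rw [h2] at h1
  simp only [RingHom.comp_apply, coe_evalRingHom, coe_mapRingHom, eval₂_id] at h1
  rw [h1, ← hu a θ hθ]

theorem IsA.prod {ι : Type} (s : Finset ι) (f : ι → Tc k → k → k) (hf : ∀ i, IsA c (f i)) :
    IsA c fun a θ => ∏ i ∈ s, f i a θ := by
  choose u hu using hf
  refine ⟨∏ i ∈ s, u i, fun a θ hθ => ?_⟩
  rw [Polynomial.map_prod, eval_prod]
  exact Finset.prod_congr rfl fun i _ => hu i a θ hθ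

end isA

/-- thinning out a finite set -/
theorem thin {k : Type u} [NontriviallyNormedField k] [IsUltrametricDist k] (r₀ : ℝ)
    (hr : 0 < r₀) (s : Finset k) :
    ∃ t : Finset k, (∀ c ∈ t, ∀ c' ∈ t, c ≠ c' → r₀ < ‖c - c'‖) ∧
      ∀ b ∈ s, ∃ c ∈ t, ‖b - c‖ ≤ r₀ := by
  induction s using Finset.induction_on with
  | empty => exact ⟨∅, by simp, by simp⟩
  | insert b s hb ih =>
    obtain ⟨t, ht, hst⟩ := ih
    by_cases h : ∃ c ∈ t, ‖b - c‖ ≤ r₀
    · refine ⟨t, ht, fun b' hb' => ?_⟩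
      rcases Finset.mem_insert.mp hb' with rfl | hb'
      · exact h
      · exact hst b' hb'
    · push Not at h
      refine ⟨insert b t, ?_, fun b' hb' => ?_⟩
      · intro c hc c' hc' hne
        rcases Finset.mem_insert.mp hc with rfl | hc
        · rcases Finset.mem_insert.mp hc' with rfl | hc'
          · exact absurd rfl hne
          · exact h c' hc'
        · rcases Finset.mem_insert.mp hc' with h0 | hc'
          · rw [h0, norm_sub_rev]; exact h c hc
          · exact ht c hc c' hc' hne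
      · rcases Finset.mem_insert.mp hb' with rfl | hb'
        · exact ⟨b', Finset.mem_insert_self _ _, by simpa using hr.le⟩
        · obtain ⟨c, hc, h2⟩ := hst b' hb'
          exact ⟨c, Finset.mem_insert_of_mem hc, h2⟩

theorem pow_small (p : ℕ) (hp : 1 < p) {r ε : ℝ} (h0 : 0 ≤ r) (h1 : r < 1) (hε : 0 < ε) :
    ∃ N : ℕ, r ^ p ^ N ≤ ε := by
  obtain ⟨n, hn⟩ := exists_pow_lt_of_lt_one hε h1
  exact ⟨n, (pow_le_pow_of_le_one h0 h1.le (Nat.lt_pow_self hp).le).trans hn.le⟩

end IDEM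

open IDEM

theorem idem_proof (k : Type u) [NontriviallyNormedField k] [IsUltrametricDist k]
    [CompleteSpace k] [IsAlgClosed k] (p : ℕ) [hp : Fact p.Prime] [CharP k p]
    (hB : Stmt_Bump k p) (hL : Stmt_LimCl k) : Stmt_Idem k p := by
  intro c d hd n y hy r₀ 𝒩 hr₀ hcov
  -- thin out
  choose T hT1 hT2 using fun i => thin r₀ hr₀ (𝒩 i)
  have hcov2 : ∀ a : Tc k, ∀ θ ∈ fib c.P a, ∀ i, ∃ b ∈ T i, ‖y i a θ - b‖ ≤ r₀ := by
    intro a θ hθ i
    obtain ⟨b, hb, h1⟩ := hcov a θ hθ i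
    obtain ⟨b', hb', h2⟩ := hT2 i b hb
    refine ⟨b', hb', ?_⟩
    have h3 : y i a θ - b' = (y i a θ - b) + (b - b') := by ring
    rw [h3]
    exact (IsUltrametricDist.norm_add_le_max _ _).trans (max_le h1 h2)
  -- indicator functions
  have hind : ∀ i, ∀ b ∈ T i, IsA c fun a θ => if ‖y i a θ - b‖ ≤ r₀ then 1 else 0 := by
    intro i b hb
    obtain ⟨f, r, hr0, hr1, hf⟩ := hB (T i) r₀ b hr₀ hb (hT1 i)
    refine hL c d hd _ fun ε hε => ?_
    obtain ⟨N, hN⟩ := pow_small p hp.out.one_lt hr0 hr1 hε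
    refine ⟨fun a θ => (f ^ p ^ N).eval (y i a θ), IsA.evalPoly (hy i) _, fun a θ hθ => ?_⟩
    simp only [eval_pow]
    by_cases h : ‖y i a θ - b‖ ≤ r₀
    · rw [if_pos h]
      have h1 := (hf (y i a θ)).1 h
      have h2 : (1 : k) - (f.eval (y i a θ)) ^ p ^ N = (1 - f.eval (y i a θ)) ^ p ^ N := by
        rw [sub_pow_char_pow, one_pow]
      rw [h2, norm_pow, norm_sub_rev]
      exact (pow_le_pow_left₀ (norm_nonneg _) h1 _).trans hN
    · rw [if_neg h, zero_sub, norm_neg, norm_pow]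
      obtain ⟨b', hb', h3⟩ := hcov2 a θ hθ i
      have h1 := (hf (y i a θ)).2 b' hb' (by rintro rfl; exact h h3) h3
      exact (pow_le_pow_left₀ (norm_nonneg _) h1 _).trans hN
  refine ⟨(i : Fin (n + 1)) → {b // b ∈ T i}, inferInstance,
    { E := fun γ a => (fib c.P a).filter fun θ => ∀ i, ‖y i a θ - (γ i).1‖ ≤ r₀
      sub := fun γ a => Finset.filter_subset _ _
      cover := ?_
      disj := ?_
      ind := ?_ }, fun γ i => (γ i).1, ?_⟩
  · intro a θ hθ
    choose b hb1 hb2 using hcov2 a θ hθ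
    exact ⟨fun i => ⟨b i, hb1 i⟩, Finset.mem_filter.mpr ⟨hθ, hb2⟩⟩
  · intro a γ γ' θ h1 h2
    rw [Finset.mem_filter] at h1 h2
    funext i
    by_contra hne
    have h3 := hT1 i (γ i).1 (γ i).2 (γ' i).1 (γ' i).2 (fun h => hne (Subtype.ext h))
    have h4 : (γ i).1 - (γ' i).1 = (y i a θ - (γ' i).1) + -(y i a θ - (γ i).1) := by ring
    rw [h4] at h3
    refine absurd h3 (not_lt.mpr ?_)
    refine (IsUltrametricDist.norm_add_le_max _ _).trans (max_le (h2.2 i) ?_)
    rw [norm_neg]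
    exact h1.2 i
  · intro γ
    have h1 := IsA.prod (c := c) Finset.univ (fun i (a : Tc k) (θ : k) =>
      if ‖y i a θ - (γ i).1‖ ≤ r₀ then (1 : k) else 0) (fun i => hind i _ (γ i).2)
    refine IsA.congr h1 fun a θ hθ => ?_
    by_cases h : ∀ i, ‖y i a θ - (γ i).1‖ ≤ r₀
    · rw [if_pos (Finset.mem_filter.mpr ⟨hθ, h⟩)]
      exact (Finset.prod_eq_one fun i _ => if_pos (h i)).symm
    · rw [if_neg fun h2 => h (Finset.mem_filter.mp h2).2]
      push Not at h
      obtain ⟨i, hi⟩ := h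
      exact (Finset.prod_eq_zero (Finset.mem_univ i) (if_neg (not_le.mpr hi))).symm
  · intro γ a θ hθ i
    exact (Finset.mem_filter.mp hθ).2 i

end Pool.Agent.DC
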