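import Pool.Agent.DC.StmtsC

set_option autoImplicit false
set_option linter.unusedSectionVars false

noncomputable section

namespace Pool.Agent.DC

open Polynomial

universe u

variable {k : Type u} [NontriviallyNormedField k] [IsUltrametricDist k] [CompleteSpace k]

namespace INT

/-- density of the polynomials. -/
theorem exists_approx (f : RP k) (ε : ℝ) (hε : 0 < ε) : ∃ g : k[X], ‖f - toRP g‖ ≤ ε := by
  have h : DenseRange ((↑) : PP k → RP k) := UniformSpace.Completion.denseRange_coe
  obtain ⟨g, hg⟩ := Metric.denseRange_iff.1 h f ε hε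
  refine ⟨g, ?_⟩
  rw [dist_eq_norm] at hg
  exact hg.le

theorem sub_bound {Ω : Type u} [NormedField Ω] [NormedAlgebra k Ω] [IsUltrametricDist Ω]
    [CompleteSpace Ω] {a : Ω} (ha : ‖a‖ ≤ 1) (f : RP k) (g : k[X]) {ε : ℝ}
    (h : ‖f - toRP g‖ ≤ ε) : ‖evP a f - aeval a g‖ ≤ ε := by
  rw [← evP_toRP ha g, ← map_sub]
  exact (norm_evP_le a _).trans h

/-- the norm is bounded by the values on the circle. -/
theorem norm_le_of_circle (hSup : Stmt_Sup k) (f : RP k) (M : ℝ) (hM : 0 ≤ M)
    (h : ∀ a : Tc k, ‖evP a.1 f‖ ≤ M) : ‖f‖ ≤ M := by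
  refine le_of_forall_pos_le_add fun ε hε => ?_
  obtain ⟨g, hg⟩ := exists_approx f (ε / 2) (by positivity)
  have h1 : gn g ≤ M + ε / 2 := by
    refine hSup g _ (by positivity) ?_
    intro a
    have h2 := sub_bound a.2.le f g hg
    have h3 : (aeval a.1 g : k) = g.eval a.1 := by simp
    rw [h3] at h2
    have h4 : g.eval a.1 = evP a.1 f - (evP a.1 f - g.eval a.1) := by ring
    rw [h4]
    exact (norm_sub_le _ _).trans (add_le_add (h a) h2)
  calc ‖f‖ = ‖(f - toRP g) + toRP g‖ := by rw [sub_add_cancel]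
    _ ≤ ‖f - toRP g‖ + ‖toRP g‖ := norm_add_le _ _
    _ ≤ ε / 2 + (M + ε / 2) := by rw [norm_toRP]; exact add_le_add hg h1
    _ = M + ε := by ring

/-- polynomials of degree at most `N` from their coefficients. -/
def pol (N : ℕ) (v : Fin (N + 1) → k) : k[X] := ∑ i, C (v i) * X ^ (i : ℕ)

theorem coeff_pol (N : ℕ) (v : Fin (N + 1) → k) (j : ℕ) :
    (pol N v).coeff j = if h : j < N + 1 then v ⟨j, h⟩ else 0 := by
  unfold pol
  rw [finsetSum_coeff]
  simp only [coeff_C_mul, coeff_X_pow]
  split_ifs with h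
  · rw [Finset.sum_eq_single ⟨j, h⟩]
    · simp
    · intro b _ hb
      rw [if_neg, mul_zero]
      intro he
      exact hb (Fin.ext he.symm)
    · intro hj; exact absurd (Finset.mem_univ _) hj
  · refine Finset.sum_eq_zero fun i _ => ?_
    rw [if_neg, mul_zero]
    have := i.2
    omega

theorem pol_add (N : ℕ) (v w : Fin (N + 1) → k) : pol N (v + w) = pol N v + pol N w := by
  ext j
  rw [coeff_add, coeff_pol, coeff_pol, coeff_pol]
  split_ifs <;> simp

theorem gn_pol (N : ℕ) (v : Fin (N + 1) → k) : gn (pol N v) = ‖v‖ := by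
  apply le_antisymm
  · refine gn_le fun i => ?_
    rw [coeff_pol]
    split_ifs with h
    · exact norm_le_pi_norm v _
    · simp
  · rw [pi_norm_le_iff_of_nonneg (gn_nonneg _)]
    intro i
    have := coeff_le_gn (pol N v) i
    rwa [coeff_pol, dif_pos i.2] at this

/-- the isometric embedding of `k^(N+1)`. -/
def emb (N : ℕ) : (Fin (N + 1) → k) →+ RP k where
  toFun v := toRP (pol N v)
  map_zero' := by
    have : pol N (0 : Fin (N + 1) → k) = 0 := by
      ext j; rw [coeff_pol]; split_ifs <;> simp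
    rw [this, map_zero]
  map_add' v w := by rw [pol_add, map_add]

theorem emb_apply (N : ℕ) (v : Fin (N + 1) → k) : emb N v = toRP (pol N v) := rfl

theorem emb_isometry (N : ℕ) : Isometry (emb (k := k) N) :=
  AddMonoidHomClass.isometry_of_norm _ fun v => by rw [emb_apply, norm_toRP, gn_pol]

theorem isClosed_range (N : ℕ) : IsClosed (Set.range (emb (k := k) N)) :=
  (emb_isometry N).isClosedEmbedding.isClosed_range

theorem natDegree_pol (N : ℕ) (v : Fin (N + 1) → k) : (pol N v).natDegree ≤ N := by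
  rw [natDegree_le_iff_coeff_eq_zero]
  intro j hj
  rw [coeff_pol, dif_neg (by omega)]

end INT

open INT in
theorem int_proof (k : Type u) [NontriviallyNormedField k] [IsUltrametricDist k]
    [CompleteSpace k] (hSup : Stmt_Sup k) : Stmt_Int k := by
  intro f g N hfg
  have hmem : f ∈ Set.range (emb (k := k) N) := by
    rw [← (isClosed_range N).closure_eq, Metric.mem_closure_iff]
    intro ε hε
    obtain ⟨f', hf'⟩ := exists_approx f (ε / 3) (by positivity)
    obtain ⟨g', hg'⟩ := exists_approx g (ε / 3) (by positivity)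
    set L := g'.natDegree with hL
    have hD : gn (X ^ L * f' - X ^ N * reflect L g') ≤ ε / 3 := by
      refine hSup _ _ (by positivity) ?_
      intro a
      have h1 := sub_bound a.2.le f f' hf'
      have h2 := sub_bound (a := (a.1)⁻¹) a.norm_inv.le g g' hg'
      have h3 : (aeval a.1 f' : k) = f'.eval a.1 := by simp
      have h4 : (aeval (a.1)⁻¹ g' : k) = g'.eval (a.1)⁻¹ := by simp
      rw [h3] at h1
      rw [h4] at h2
      have h5 : (reflect L g').eval a.1 = a.1 ^ L * g'.eval (a.1)⁻¹ := by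
        let _ : Invertible (a.1)⁻¹ := invertibleOfNonzero (inv_ne_zero a.ne_zero)
        have := eval₂_reflect_mul_pow (RingHom.id k) (a.1)⁻¹ L g' le_rfl
        rw [invOf_eq_inv, inv_inv] at this
        change (reflect L g').eval a.1 * _ = g'.eval (a.1)⁻¹ at this
        rw [← this, mul_comm (a.1 ^ L), mul_assoc, ← mul_pow, inv_mul_cancel₀ a.ne_zero, one_pow,
          mul_one]
      have h6 : (X ^ L * f' - X ^ N * reflect L g').eval a.1 =
          a.1 ^ L * (-(evP a.1 f - f'.eval a.1) +
            a.1 ^ N * (evP (a.1)⁻¹ g - g'.eval (a.1)⁻¹)) := by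
        rw [eval_sub, eval_mul, eval_mul, eval_pow, eval_pow, eval_X, h5]
        linear_combination (a.1 ^ L) * hfg a
      rw [h6, norm_mul, norm_pow, a.2, one_pow, one_mul]
      refine (IsUltrametricDist.norm_add_le_max _ _).trans (max_le ?_ ?_)
      · rw [norm_neg]; exact h1
      · rw [norm_mul, norm_pow, a.2, one_pow, one_mul]; exact h2
    have hcoef : ∀ j, N < j → ‖f'.coeff j‖ ≤ ε / 3 := by
      intro j hj
      have h1 := (coeff_le_gn (X ^ L * f' - X ^ N * reflect L g') (j + L)).trans hD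
      rw [coeff_sub, coeff_X_pow_mul] at h1
      have h2 : (X ^ N * reflect L g').coeff (j + L) = 0 := by
        have e : j + L = (j + L - N) + N := by omega
        rw [e, coeff_X_pow_mul, coeff_reflect, revAt, Function.Embedding.coeFn_mk]
        rw [if_neg (by omega)]
        exact coeff_eq_zero_of_natDegree_lt (by omega)
      rwa [h2, sub_zero] at h1
    refine ⟨emb N (fun i => f'.coeff i), ⟨_, rfl⟩, ?_⟩
    rw [dist_eq_norm, emb_apply]
    have h1 : gn (f' - pol N fun i => f'.coeff i) ≤ ε / 3 := by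
      refine gn_le fun j => ?_
      rw [coeff_sub, coeff_pol]
      split_ifs with h
      · simp; positivity
      · rw [sub_zero]; exact hcoef j (by omega)
    calc ‖f - toRP (pol N fun i => f'.coeff i)‖
        = ‖(f - toRP f') + toRP (f' - pol N fun i => f'.coeff i)‖ := by
          rw [map_sub]; congr 1; ring
      _ ≤ ‖f - toRP f'‖ + ‖toRP (f' - pol N fun i => f'.coeff i)‖ := norm_add_le _ _
      _ ≤ ε / 3 + ε / 3 := by rw [norm_toRP]; exact add_le_add hf' h1
      _ < ε := by linarith
  obtain ⟨v, hv⟩ := hmem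
  rw [emb_apply] at hv
  set h := pol N v with hh
  have hdeg : h.natDegree ≤ N := natDegree_pol N v
  have hrefl : ∀ (Ω : Type u) [NormedField Ω] [NormedAlgebra k Ω] (a : Ω), a ≠ 0 →
      a ^ N * aeval a⁻¹ (reflect N h) = aeval a h := by
    intro Ω _ _ a ha
    let _ : Invertible a := invertibleOfNonzero ha
    have := eval₂_reflect_mul_pow (algebraMap k Ω) a N h hdeg
    rw [invOf_eq_inv] at this
    rw [aeval_def, aeval_def, ← this, mul_comm]
  have hg : g = toRP (reflect N h) := by
    rw [← sub_eq_zero, ← norm_le_zero_iff]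
    refine norm_le_of_circle hSup _ 0 le_rfl ?_
    intro b
    have hb0 := b.ne_zero
    have hbi : ‖(b.1)⁻¹‖ = 1 := b.norm_inv
    have h1 := hfg ⟨(b.1)⁻¹, hbi⟩
    rw [← hv] at h1
    change evP (b.1)⁻¹ (toRP h) = (b.1)⁻¹ ^ N * evP ((b.1)⁻¹)⁻¹ g at h1
    rw [inv_inv, evP_toRP hbi.le] at h1
    have h2 := hrefl k (b.1)⁻¹ (inv_ne_zero hb0)
    rw [inv_inv] at h2
    rw [← h2] at h1
    have h3 : evP b.1 g = aeval b.1 (reflect N h) :=
      (mul_left_cancel₀ (pow_ne_zero N (inv_ne_zero hb0)) h1).symm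
    rw [map_sub, evP_toRP b.2.le, h3, sub_self, norm_zero]
  refine ⟨h, ?_⟩
  intro Ω _ _ _ _ a
  refine ⟨fun ha => ?_, fun ha => ?_⟩
  · rw [← hv, evP_toRP ha]
  · have ha0 : a ≠ 0 := by
      rintro rfl
      rw [norm_zero] at ha
      exact absurd ha (by norm_num)
    rw [hg, evP_toRP (by rw [norm_inv]; exact inv_le_one_of_one_le₀ ha)]
    exact hrefl Ω a ha0

end Pool.Agent.DC
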