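import Pool.Agent.DC.StmtsC

set_option autoImplicit false
set_option linter.unusedSectionVars false

/-!
# Squad DC, module KRAS: Krasner's lemma, uniformly over the circle
-/

noncomputable section

namespace Pool.Agent.DC

open Polynomial
open scoped Classical

universe u

namespace KRAS

section basic

variable {k : Type u} [NontriviallyNormedField k] [IsUltrametricDist k] {c : Cov k}

lemma isA_congr {f g : Tc k → k → k} (hf : IsA c f)
    (h : ∀ a, ∀ θ ∈ fib c.P a, g a θ = f a θ) : IsA c g := by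
  obtain ⟨u, hu⟩ := hf
  exact ⟨u, fun a θ hθ => (h a θ hθ).trans (hu a θ hθ)⟩

lemma isA_poly (u : (RR k)[X]) : IsA c fun a θ => (u.map (evR a)).eval θ := ⟨u, fun _ _ _ => rfl⟩

lemma isA_R {f : Tc k → k} (hf : IsR f) : IsA c fun a _ => f a :=
  ⟨C ⟨f, hf⟩, fun a θ _ => by rw [map_C, eval_C]; rfl⟩

lemma isA_id : IsA c fun _ θ => θ := ⟨X, fun a θ _ => by rw [map_X, eval_X]⟩

lemma isA_add {f g : Tc k → k → k} (hf : IsA c f) (hg : IsA c g) :
    IsA c fun a θ => f a θ + g a θ := by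
  obtain ⟨u, hu⟩ := hf
  obtain ⟨v, hv⟩ := hg
  exact ⟨u + v, fun a θ hθ => by beta_reduce; rw [hu a θ hθ, hv a θ hθ, Polynomial.map_add, eval_add]⟩

lemma isA_mul {f g : Tc k → k → k} (hf : IsA c f) (hg : IsA c g) :
    IsA c fun a θ => f a θ * g a θ := by
  obtain ⟨u, hu⟩ := hf
  obtain ⟨v, hv⟩ := hg
  exact ⟨u * v, fun a θ hθ => by beta_reduce; rw [hu a θ hθ, hv a θ hθ, Polynomial.map_mul, eval_mul]⟩

lemma isA_neg {f : Tc k → k → k} (hf : IsA c f) : IsA c fun a θ => -f a θ := by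
  obtain ⟨u, hu⟩ := hf
  exact ⟨-u, fun a θ hθ => by beta_reduce; rw [hu a θ hθ, Polynomial.map_neg, eval_neg]⟩

lemma isA_sub {f g : Tc k → k → k} (hf : IsA c f) (hg : IsA c g) :
    IsA c fun a θ => f a θ - g a θ := by
  obtain ⟨u, hu⟩ := hf
  obtain ⟨v, hv⟩ := hg
  exact ⟨u - v, fun a θ hθ => by beta_reduce; rw [hu a θ hθ, hv a θ hθ, Polynomial.map_sub, eval_sub]⟩

lemma isA_sum {ι : Type*} (s : Finset ι) {f : ι → Tc k → k → k} (hf : ∀ i ∈ s, IsA c (f i)) :
    IsA c fun a θ => ∑ i ∈ s, f i a θ := by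
  induction s using Finset.induction_on with
  | empty => exact ⟨0, fun a θ _ => by simp⟩
  | insert i s hi ih =>
    refine isA_congr (isA_add (hf i (Finset.mem_insert_self _ _))
      (ih fun j hj => hf j (Finset.mem_insert_of_mem hj))) fun a θ _ => ?_
    rw [Finset.sum_insert hi]

lemma isA_prod {ι : Type*} (s : Finset ι) {f : ι → Tc k → k → k} (hf : ∀ i ∈ s, IsA c (f i)) :
    IsA c fun a θ => ∏ i ∈ s, f i a θ := by
  induction s using Finset.induction_on with
  | empty => exact ⟨1, fun a θ _ => by simp⟩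
  | insert i s hi ih =>
    refine isA_congr (isA_mul (hf i (Finset.mem_insert_self _ _))
      (ih fun j hj => hf j (Finset.mem_insert_of_mem hj))) fun a θ _ => ?_
    rw [Finset.prod_insert hi]

lemma isA_comp (G : (RR k)[X]) {f : Tc k → k → k} (hf : IsA c f) :
    IsA c fun a θ => (G.map (evR a)).eval (f a θ) := by
  obtain ⟨u, hu⟩ := hf
  refine ⟨G.comp u, fun a θ hθ => ?_⟩
  beta_reduce
  rw [Polynomial.map_comp, eval_comp, hu a θ hθ]

lemma map_polR (P : k[X][X]) (a : Tc k) :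
    (P.map polR).map (evR a) = P.map (evalRingHom a.1) := by
  rw [Polynomial.map_map]
  congr 1

lemma mem_fib {P : k[X][X]} (hP : P.Monic) {a : Tc k} {θ : k} :
    θ ∈ fib P a ↔ (P.map (evalRingHom a.1)).eval θ = 0 := by
  rw [fib, Multiset.mem_toFinset, mem_roots (hP.map _).ne_zero, IsRoot]

end basic

section newton

variable {k : Type u} [NontriviallyNormedField k] [IsUltrametricDist k]

lemma norm_pow_sub {x y : k} (hx : ‖x‖ ≤ 1) (hy : ‖y‖ ≤ 1) (n : ℕ) :
    ‖x ^ n - y ^ n‖ ≤ ‖x - y‖ := by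
  induction n with
  | zero => simp
  | succ n ih =>
    have h : x ^ (n + 1) - y ^ (n + 1) = (x ^ n - y ^ n) * x + y ^ n * (x - y) := by ring
    rw [h]
    refine (IsUltrametricDist.norm_add_le_max _ _).trans (max_le ?_ ?_)
    · rw [norm_mul]
      exact (mul_le_mul ih hx (norm_nonneg _) (norm_nonneg _)).trans (mul_one _).le
    · rw [norm_mul, norm_pow]
      exact (mul_le_mul_of_nonneg_right (pow_le_one₀ (norm_nonneg _) hy)
        (norm_nonneg _)).trans (one_mul _).le

lemma norm_le_one_of_near {x y : k} {η : ℝ} (hη : η ≤ 1) (hx : ‖x‖ ≤ 1) (h : ‖y - x‖ ≤ η) :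
    ‖y‖ ≤ 1 := by
  have h1 : y = (y - x) + x := by ring
  rw [h1]
  exact (IsUltrametricDist.norm_add_le_max _ _).trans (max_le (h.trans hη) hx)

lemma newton_step (g : k[X]) (hg : gn g ≤ 1) {θ y y' : k} {η : ℝ} (hθ : ‖θ‖ ≤ 1) (hη : η ≤ 1)
    (hy : ‖y - θ‖ ≤ η) (hy' : ‖y' - θ‖ ≤ η) :
    ‖g.eval y - g.eval y' - (derivative g).eval θ * (y - y')‖ ≤ η * ‖y - y'‖ := by
  have hη0 : 0 ≤ η := (norm_nonneg _).trans hy
  have hy1 := norm_le_one_of_near hη hθ hy
  have hy1' := norm_le_one_of_near hη hθ hy'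
  have key : ∀ i : ℕ, ‖y ^ i - y' ^ i - (i * θ ^ (i - 1)) * (y - y')‖ ≤ η * ‖y - y'‖ := by
    intro i
    have h1 : y ^ i - y' ^ i - (i * θ ^ (i - 1)) * (y - y') =
        (∑ j ∈ Finset.range i, (y ^ j * y' ^ (i - 1 - j) - θ ^ (i - 1))) * (y - y') := by
      rw [Finset.sum_sub_distrib, sub_mul, (Commute.all y y').geom_sum₂_mul]
      simp
    rw [h1, norm_mul]
    refine mul_le_mul_of_nonneg_right ?_ (norm_nonneg _)
    apply IsUltrametricDist.norm_sum_le_of_forall_le_of_nonneg hη0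
    intro j hj
    have hj' : j < i := Finset.mem_range.1 hj
    have h2 : θ ^ (i - 1) = θ ^ j * θ ^ (i - 1 - j) := by
      rw [← pow_add]
      congr 1
      omega
    have h3 : y ^ j * y' ^ (i - 1 - j) - θ ^ (i - 1) =
        (y ^ j - θ ^ j) * y' ^ (i - 1 - j) + θ ^ j * (y' ^ (i - 1 - j) - θ ^ (i - 1 - j)) := by
      rw [h2]
      ring
    rw [h3]
    refine (IsUltrametricDist.norm_add_le_max _ _).trans (max_le ?_ ?_)
    · rw [norm_mul, norm_pow]
      exact (mul_le_mul ((norm_pow_sub hy1 hθ j).trans hy) (pow_le_one₀ (norm_nonneg _) hy1')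
        (pow_nonneg (norm_nonneg _) _) hη0).trans (mul_one _).le
    · rw [norm_mul, norm_pow]
      exact (mul_le_mul (pow_le_one₀ (norm_nonneg _) hθ) ((norm_pow_sub hy1' hθ _).trans hy')
        (norm_nonneg _) zero_le_one).trans (one_mul _).le
  have h1 : g.eval y - g.eval y' - (derivative g).eval θ * (y - y') =
      ∑ i ∈ Finset.range (g.natDegree + 1),
        g.coeff i * (y ^ i - y' ^ i - (i * θ ^ (i - 1)) * (y - y')) := by
    rw [eval_eq_sum_range, eval_eq_sum_range, derivative_eval, sum_over_range _ (by simp),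
      ← Finset.sum_sub_distrib, Finset.sum_mul, ← Finset.sum_sub_distrib]
    refine Finset.sum_congr rfl fun i _ => ?_
    ring
  rw [h1]
  apply IsUltrametricDist.norm_sum_le_of_forall_le_of_nonneg (mul_nonneg hη0 (norm_nonneg _))
  intro i _
  rw [norm_mul]
  exact (mul_le_mul ((coeff_le_gn g i).trans hg) (key i) (norm_nonneg _) zero_le_one).trans
    (one_mul _).le

lemma gn_derivative (f : k[X]) : gn (derivative f) ≤ gn f := by
  refine gn_le fun i => ?_
  rw [coeff_derivative, norm_mul]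
  have h1 : ‖((i : k) + 1)‖ ≤ 1 := by
    have := IsUltrametricDist.norm_natCast_le_one k (i + 1)
    simpa using this
  exact (mul_le_mul (coeff_le_gn f _) h1 (norm_nonneg _) (gn_nonneg f)).trans (mul_one _).le

lemma gn_prod_le (s : Finset k) (hs : ∀ θ ∈ s, ‖θ‖ ≤ 1) : gn (∏ θ ∈ s, (X - C θ)) ≤ 1 := by
  induction s using Finset.induction_on with
  | empty =>
    rw [Finset.prod_empty]
    refine gn_le fun i => ?_
    rw [coeff_one]
    split_ifs <;> simp
  | insert i s hi ih =>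
    rw [Finset.prod_insert hi, gn_mul]
    have h1 : gn (X - C i) ≤ 1 := by
      refine gn_le fun j => ?_
      rw [coeff_sub, coeff_X, coeff_C]
      have h2 : ‖i‖ ≤ 1 := hs i (Finset.mem_insert_self _ _)
      split_ifs with h3 h4 <;> simp_all
    exact (mul_le_mul h1 (ih fun θ hθ => hs θ (Finset.mem_insert_of_mem hθ)) (gn_nonneg _)
      zero_le_one).trans (mul_one _).le

/-- The Newton iteration. -/
def nit (v : k) (g : k[X]) (θ : k) : ℕ → k
  | 0 => θ
  | n + 1 => nit v g θ n - v * g.eval (nit v g θ n)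

/-- convergence of the Newton iteration -/
lemma newton [CompleteSpace k] (g : k[X]) (hg : gn g ≤ 1) (θ v : k) (η d : ℝ) (hθ : ‖θ‖ ≤ 1)
    (hη0 : 0 < η) (hη : η ≤ 1 / 2) (hd : 0 < d) (hηd : η ≤ d / 2) (hv0 : v ≠ 0) (hv : ‖v‖ ≤ 1 / d)
    (h0 : ‖v * g.eval θ‖ ≤ η) (h1 : ‖1 - v * (derivative g).eval θ‖ ≤ 1 / 2) :
    ∃ τ : k, g.eval τ = 0 ∧ ‖τ - θ‖ ≤ η ∧ ∀ n, ‖τ - nit v g θ n‖ ≤ 2 * η * (1 / 2) ^ n := by
  have hstep : ∀ n, ‖nit v g θ n - θ‖ ≤ η ∧
      ‖nit v g θ (n + 1) - nit v g θ n‖ ≤ η * (1 / 2) ^ n := by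
    intro n
    induction n with
    | zero =>
      refine ⟨by simp [nit, hη0.le], ?_⟩
      have h2 : nit v g θ (0 + 1) - nit v g θ 0 = -(v * g.eval θ) := by
        simp [nit]
      rw [h2, norm_neg, pow_zero, mul_one]
      exact h0
    | succ n ih =>
      obtain ⟨ih1, ih2⟩ := ih
      have h3 : ‖nit v g θ (n + 1) - θ‖ ≤ η := by
        have h4 : nit v g θ (n + 1) - θ =
          (nit v g θ (n + 1) - nit v g θ n) + (nit v g θ n - θ) := by ring
        rw [h4]
        refine (IsUltrametricDist.norm_add_le_max _ _).trans (max_le (ih2.trans ?_) ih1)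
        exact mul_le_of_le_one_right hη0.le (pow_le_one₀ (by norm_num) (by norm_num))
      refine ⟨h3, ?_⟩
      have h5 := newton_step g hg hθ (by linarith) h3 ih1
      set e := g.eval (nit v g θ (n + 1)) - g.eval (nit v g θ n) -
        (derivative g).eval θ * (nit v g θ (n + 1) - nit v g θ n) with he
      have h6 : nit v g θ (n + 1 + 1) - nit v g θ (n + 1) =
          (1 - v * (derivative g).eval θ) * (nit v g θ (n + 1) - nit v g θ n) - v * e := by
        have h7 : nit v g θ (n + 1 + 1) =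
          nit v g θ (n + 1) - v * g.eval (nit v g θ (n + 1)) := rfl
        have h8 : nit v g θ (n + 1) = nit v g θ n - v * g.eval (nit v g θ n) := rfl
        rw [he, h7]
        linear_combination -h8
      rw [h6, sub_eq_add_neg]
      have h9 : η * (1 / 2) ^ (n + 1) = 1 / 2 * (η * (1 / 2) ^ n) := by ring
      rw [h9]
      refine (IsUltrametricDist.norm_add_le_max _ _).trans (max_le ?_ ?_)
      · rw [norm_mul]
        exact mul_le_mul h1 ih2 (norm_nonneg _) (by norm_num)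
      · rw [norm_neg, norm_mul]
        calc ‖v‖ * ‖e‖ ≤ (1 / d) * (η * ‖nit v g θ (n + 1) - nit v g θ n‖) :=
              mul_le_mul hv h5 (norm_nonneg _) (by positivity)
          _ = (η / d) * ‖nit v g θ (n + 1) - nit v g θ n‖ := by ring
          _ ≤ (1 / 2) * (η * (1 / 2) ^ n) := by
              refine mul_le_mul ?_ ih2 (norm_nonneg _) (by norm_num)
              rw [div_le_iff₀ hd]
              linarith
  have hc : CauchySeq (nit v g θ) := by
    refine cauchySeq_of_le_geometric (1 / 2) η (by norm_num) fun n => ?_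
    rw [dist_comm, dist_eq_norm]
    exact (hstep n).2
  obtain ⟨τ, hτ⟩ := cauchySeq_tendsto_of_complete hc
  refine ⟨τ, ?_, ?_, ?_⟩
  · have h2 : Filter.Tendsto (fun n => nit v g θ n - nit v g θ (n + 1)) Filter.atTop (nhds 0) := by
      have := hτ.sub (hτ.comp (Filter.tendsto_add_atTop_nat 1))
      simpa using this
    have h3 : Filter.Tendsto (fun n => v * g.eval (nit v g θ n)) Filter.atTop
        (nhds (v * g.eval τ)) :=
      ((g.continuous.tendsto τ).comp hτ).const_mul v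
    have h4 : (fun n => nit v g θ n - nit v g θ (n + 1)) = fun n => v * g.eval (nit v g θ n) := by
      funext n
      simp [nit]
    rw [h4] at h2
    have h5 := tendsto_nhds_unique h2 h3
    exact (mul_eq_zero.1 h5.symm).resolve_left hv0
  · have h2 : Filter.Tendsto (fun n => ‖nit v g θ n - θ‖) Filter.atTop (nhds ‖τ - θ‖) :=
      (hτ.sub_const θ).norm
    exact le_of_tendsto' h2 fun n => (hstep n).1
  · intro n
    have h2 := dist_le_of_le_geometric_of_tendsto (1 / 2) η (by norm_num) (fun n => by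
      rw [dist_comm, dist_eq_norm]
      exact (hstep n).2) hτ n
    rw [dist_comm, dist_eq_norm] at h2
    refine h2.trans (le_of_eq ?_)
    ring

end newton


section main

variable {k : Type u} [NontriviallyNormedField k] [IsUltrametricDist k] [CompleteSpace k]

lemma norm_prod_le_one {ι : Type*} (s : Finset ι) (f : ι → k) (h : ∀ i ∈ s, ‖f i‖ ≤ 1) :
    ‖∏ i ∈ s, f i‖ ≤ 1 := by
  rw [norm_prod]
  exact Finset.prod_le_one (fun i _ => norm_nonneg _) h

lemma norm_sub_le_one {x y : k} (hx : ‖x‖ ≤ 1) (hy : ‖y‖ ≤ 1) : ‖x - y‖ ≤ 1 := by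
  rw [sub_eq_add_neg]
  exact (IsUltrametricDist.norm_add_le_max _ _).trans (max_le hx (by rwa [norm_neg]))

lemma sep_prod {c : Cov k} {d : ℝ} (hs : Sep c d) {a : Tc k} {E : Finset k}
    (hE : E ⊆ fib c.P a) {θ : k} (hθ : θ ∈ E) : d ≤ ‖∏ θ' ∈ E.erase θ, (θ - θ')‖ := by
  refine (hs.sep a θ (hE hθ)).trans ?_
  have h1 : E.erase θ ⊆ (fib c.P a).erase θ := Finset.erase_subset_erase _ hE
  rw [← Finset.prod_sdiff h1, norm_mul]
  have h2 : ‖∏ x ∈ (fib c.P a).erase θ \ E.erase θ, (θ - x)‖ ≤ 1 := by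
    refine norm_prod_le_one _ _ fun x hx => norm_sub_le_one (hs.norm_le a θ (hE hθ))
      (hs.norm_le a x ?_)
    exact Finset.mem_of_mem_erase (Finset.sdiff_subset hx)
  exact (mul_le_mul_of_nonneg_right h2 (norm_nonneg _)).trans (one_mul _).le

lemma sep_dist {c : Cov k} {d : ℝ} (hs : Sep c d) {a : Tc k} {θ θ' : k} (hθ : θ ∈ fib c.P a)
    (hθ' : θ' ∈ fib c.P a) (h : θ ≠ θ') : d ≤ ‖θ - θ'‖ := by
  have h1 : ({θ, θ'} : Finset k) ⊆ fib c.P a := by
    intro x hx
    rw [Finset.mem_insert, Finset.mem_singleton] at hx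
    rcases hx with rfl | rfl
    · exact hθ
    · exact hθ'
  have h2 := sep_prod hs h1 (Finset.mem_insert_self θ {θ'})
  rwa [Finset.erase_insert (by simpa using h), Finset.prod_singleton] at h2

lemma eq_prod_of_roots (p : k[X]) (hp : p.Monic) (E : Finset k) (f : k → k)
    (hf : ∀ x ∈ E, ∀ y ∈ E, f x = f y → x = y) (hcard : p.natDegree = E.card)
    (hr : ∀ x ∈ E, p.eval (f x) = 0) : p = ∏ x ∈ E, (X - C (f x)) := by
  have hm : (∏ x ∈ E, (X - C (f x))).Monic := monic_prod_of_monic _ _ fun x _ => monic_X_sub_C _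
  have hd : (∏ x ∈ E, (X - C (f x))) ∣ p := by
    apply Finset.prod_dvd_of_coprime
    · intro x hx y hy hxy
      apply isCoprime_X_sub_C_of_isUnit_sub
      rw [isUnit_iff_ne_zero, sub_ne_zero]
      exact fun h => hxy (hf x hx y hy h)
    · intro x hx
      rw [dvd_iff_isRoot]
      exact hr x hx
  refine eq_of_monic_of_dvd_of_natDegree_le hm hp hd ?_
  rw [hcard, natDegree_prod_of_monic _ _ fun x _ => monic_X_sub_C _]
  simp


/-- A monic polynomial with given lower coefficients. -/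
def mkp {R : Type*} [CommRing R] (r : ℕ) (f : ℕ → R) : R[X] :=
  X ^ r + ∑ j ∈ Finset.range r, C (f j) * X ^ j

lemma sum_coeff {R : Type*} [CommRing R] (r : ℕ) (f : ℕ → R) (i : ℕ) :
    (∑ j ∈ Finset.range r, C (f j) * X ^ j).coeff i = if i < r then f i else 0 := by
  rw [finsetSum_coeff]
  simp only [coeff_C_mul, coeff_X_pow, mul_ite, mul_one, mul_zero]
  rw [Finset.sum_ite_eq]
  simp

lemma mkp_coeff {R : Type*} [CommRing R] (r : ℕ) (f : ℕ → R) (i : ℕ) :
    (mkp r f).coeff i = (if i = r then 1 else 0) + if i < r then f i else 0 := by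
  rw [mkp, coeff_add, sum_coeff, coeff_X_pow]

lemma mkp_monic {R : Type*} [CommRing R] (r : ℕ) (f : ℕ → R) : (mkp r f).Monic := by
  apply monic_X_pow_add
  rw [degree_lt_iff_coeff_zero]
  intro m hm
  rw [sum_coeff, if_neg (by omega)]

lemma mkp_natDegree {R : Type*} [CommRing R] [Nontrivial R] (r : ℕ) (f : ℕ → R) :
    (mkp r f).natDegree = r := by
  apply le_antisymm
  · rw [natDegree_le_iff_coeff_eq_zero]
    intro m hm
    rw [mkp_coeff, if_neg (by omega), if_neg (by omega), add_zero]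
  · apply le_natDegree_of_ne_zero
    rw [mkp_coeff, if_pos rfl, if_neg (by omega), add_zero]
    exact one_ne_zero

lemma mkp_map {R S : Type*} [CommRing R] [CommRing S] (φ : R →+* S) (r : ℕ) (f : ℕ → R) :
    (mkp r f).map φ = mkp r fun j => φ (f j) := by
  simp [mkp, Polynomial.map_sum]

lemma mkp_eval {R : Type*} [CommRing R] (r : ℕ) (f : ℕ → R) (x : R) :
    (mkp r f).eval x = x ^ r + ∑ j ∈ Finset.range r, f j * x ^ j := by
  simp [mkp, eval_finsetSum]

lemma eq_mkp {R : Type*} [CommRing R] {p : R[X]} (hp : p.Monic) :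
    p = mkp p.natDegree p.coeff := hp.as_sum

lemma derivative_prod_eval (E : Finset k) {θ : k} (hθ : θ ∈ E) :
    (derivative (∏ x ∈ E, (X - C x))).eval θ = ∏ x ∈ E.erase θ, (θ - x) := by
  rw [← Finset.mul_prod_erase E _ hθ, derivative_mul, eval_add, eval_mul, eval_mul]
  simp [eval_prod]

end main

end KRAS

theorem kras_proof (k : Type u) [NontriviallyNormedField k] [IsUltrametricDist k] [CompleteSpace k]
    [IsAlgClosed k] (h1 : Stmt_Rank k) (h2 : Stmt_Unit k) (h3 : Stmt_LimCl k) (h4 : Stmt_Sup k) :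
    Stmt_Kras k := by
  open KRAS in
  intro c d hs Γ _ Pc ε hε
  have hd0 := hs.pos
  have hd1 := hs.le_one
  have hG0 : ∀ γ, ∃ G : (RR k)[X], G.Monic ∧
      ∀ a, G.map (evR a) = ∏ θ ∈ Pc.E γ a, (X - C θ) := fun γ =>
    h1 c d hs (Pc.E γ) (Pc.sub γ) (Pc.ind γ)
  choose G0 hG0m hG0 using hG0
  obtain ⟨η, hη0, hηε, hηd⟩ : ∃ η : ℝ, 0 < η ∧ η ≤ ε ∧ η ≤ d / 2 :=
    ⟨min ε (d / 2), lt_min hε (by positivity), min_le_left _ _, min_le_right _ _⟩
  have hη1 : η ≤ 1 / 2 := by linarith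
  have hηd0 : 0 < η * d := by positivity
  have hηd1 : η * d ≤ 1 := by nlinarith
  -- Laurent approximations
  have hL : ∀ γ (j : ℕ), ∃ (N : ℕ) (g : k[X]), ∀ a : Tc k,
      ‖evR a ((G0 γ).coeff j) - (a.1)⁻¹ ^ N * g.eval a.1‖ ≤ η * d := fun γ j =>
    ((G0 γ).coeff j).2 (η * d) hηd0
  choose N g hg using hL
  set r : Γ → ℕ := fun γ => (G0 γ).natDegree with hr
  set M : ℕ := ∑ γ, ∑ j ∈ Finset.range (r γ), N γ j with hM
  have hNM : ∀ γ, ∀ j < r γ, N γ j ≤ M := by
    intro γ j hj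
    calc N γ j ≤ ∑ j ∈ Finset.range (r γ), N γ j :=
          Finset.single_le_sum (f := fun j => N γ j) (fun _ _ => Nat.zero_le _)
            (Finset.mem_range.2 hj)
      _ ≤ M := Finset.single_le_sum (f := fun γ => ∑ j ∈ Finset.range (r γ), N γ j)
            (fun _ _ => Nat.zero_le _) (Finset.mem_univ γ)
  set g' : Γ → ℕ → k[X] := fun γ j => X ^ (M - N γ j) * g γ j with hg'
  have hg'a : ∀ γ, ∀ j < r γ, ∀ a : Tc k,
      ‖evR a ((G0 γ).coeff j) - (a.1)⁻¹ ^ M * (g' γ j).eval a.1‖ ≤ η * d := by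
    intro γ j hj a
    have h5 : (a.1)⁻¹ ^ M * (g' γ j).eval a.1 = (a.1)⁻¹ ^ (N γ j) * (g γ j).eval a.1 := by
      have h6 : (a.1)⁻¹ ^ M = (a.1)⁻¹ ^ (N γ j) * (a.1)⁻¹ ^ (M - N γ j) := by
        rw [← pow_add]
        congr 1
        have := hNM γ j hj
        omega
      have h7 : (a.1)⁻¹ ^ (M - N γ j) * a.1 ^ (M - N γ j) = 1 := by
        rw [← mul_pow, inv_mul_cancel₀ a.ne_zero, one_pow]
      rw [h6]
      simp only [hg', eval_mul, eval_pow, eval_X]
      linear_combination (a.1)⁻¹ ^ (N γ j) * (g γ j).eval a.1 * h7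
    rw [h5]
    exact hg γ j a
  -- the approximate equations
  set H : Γ → (RR k)[X] := fun γ => mkp (r γ) fun j =>
    ⟨fun a => (a.1)⁻¹ ^ M * (g' γ j).eval a.1, isR_laurent M (g' γ j)⟩ with hH
  have hHa : ∀ γ a, (H γ).map (evR a) =
      mkp (r γ) fun j => (a.1)⁻¹ ^ M * (g' γ j).eval a.1 := by
    intro γ a
    rw [hH, mkp_map]
    rfl
  have hG0a : ∀ γ a, (G0 γ).map (evR a) = mkp (r γ) fun j => evR a ((G0 γ).coeff j) := by
    intro γ a
    conv_lhs => rw [eq_mkp (hG0m γ)]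
    rw [mkp_map]
  have hgnG0 : ∀ γ a, gn ((G0 γ).map (evR a)) ≤ 1 := by
    intro γ a
    rw [hG0]
    exact gn_prod_le _ fun θ hθ => hs.norm_le a θ (Pc.sub γ a hθ)
  set D : Γ → Tc k → k[X] := fun γ a => (H γ).map (evR a) - (G0 γ).map (evR a) with hD
  have hgnD : ∀ γ a, gn (D γ a) ≤ η * d := by
    intro γ a
    refine gn_le fun i => ?_
    simp only [hD]
    rw [hHa, hG0a, coeff_sub, mkp_coeff, mkp_coeff, add_sub_add_left_eq_sub]
    by_cases hi : i < r γ
    · rw [if_pos hi, if_pos hi, norm_sub_rev]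
      exact hg'a γ i hi a
    · rw [if_neg hi, if_neg hi, sub_zero, norm_zero]
      exact hηd0.le
  have hgnH : ∀ γ a, gn ((H γ).map (evR a)) ≤ 1 := by
    intro γ a
    have h5 : (H γ).map (evR a) = D γ a + (G0 γ).map (evR a) := by
      simp [hD]
    rw [h5]
    exact (gn_add_le _ _).trans (max_le ((hgnD γ a).trans hηd1) (hgnG0 γ a))
  -- the inverse of the derivative
  set R : Γ → Tc k → k → k := fun γ a θ =>
    ∏ γ' ∈ Finset.univ.erase γ, ((G0 γ').map (evR a)).eval θ with hR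
  set v : Tc k → k → k := fun a θ => ∑ γ, (if θ ∈ Pc.E γ a then 1 else 0) *
    (((c.W.map polR).map (evR a)).eval θ * (c.D₀.eval a.1)⁻¹ * R γ a θ) with hv
  have hvA : IsA c v := by
    apply isA_sum
    intro γ _
    exact isA_mul (Pc.ind γ) (isA_mul (isA_mul (isA_poly _) (isA_R (h2 c.D₀ c.ne).1))
      (isA_prod _ fun γ' _ => isA_poly (G0 γ')))
  have hsel : ∀ (F : Γ → Tc k → k → k) γ a θ, θ ∈ Pc.E γ a →
      ∑ γ', (if θ ∈ Pc.E γ' a then (1 : k) else 0) * F γ' a θ = F γ a θ := by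
    intro F γ a θ hθ
    rw [Finset.sum_eq_single γ]
    · rw [if_pos hθ, one_mul]
    · intro γ' _ hne
      rw [if_neg (fun h => hne (Pc.disj a γ' γ θ h hθ)), zero_mul]
    · intro h
      exact absurd (Finset.mem_univ γ) h
  have hfib : ∀ a, fib c.P a = Finset.univ.biUnion fun γ => Pc.E γ a := by
    intro a
    ext θ
    rw [Finset.mem_biUnion]
    constructor
    · intro hθ
      obtain ⟨γ, hγ⟩ := Pc.cover a θ hθ
      exact ⟨γ, Finset.mem_univ _, hγ⟩
    · rintro ⟨γ, -, hγ⟩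
      exact Pc.sub γ a hγ
  have hPprod : ∀ a, c.P.map (evalRingHom a.1) = ∏ γ, (G0 γ).map (evR a) := by
    intro a
    rw [hs.prod a, hfib a, Finset.prod_biUnion]
    · exact Finset.prod_congr rfl fun γ _ => (hG0 γ a).symm
    · intro γ _ γ' _ hne
      rw [Function.onFun, Finset.disjoint_left]
      intro θ h h'
      exact hne (Pc.disj a γ γ' θ h h')
  have hG0root : ∀ γ a θ, θ ∈ Pc.E γ a → ((G0 γ).map (evR a)).eval θ = 0 := by
    intro γ a θ hθ
    rw [hG0, eval_prod]
    exact Finset.prod_eq_zero hθ (by simp)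
  have hvinv : ∀ γ a θ, θ ∈ Pc.E γ a →
      v a θ * (derivative ((G0 γ).map (evR a))).eval θ = 1 := by
    intro γ a θ hθ
    have h5 : v a θ = ((c.W.map polR).map (evR a)).eval θ * (c.D₀.eval a.1)⁻¹ * R γ a θ :=
      hsel (fun γ a θ => ((c.W.map polR).map (evR a)).eval θ * (c.D₀.eval a.1)⁻¹ * R γ a θ)
        γ a θ hθ
    have h6 : (derivative (c.P.map (evalRingHom a.1))).eval θ =
        (derivative ((G0 γ).map (evR a))).eval θ * R γ a θ := by
      rw [hPprod a, ← Finset.mul_prod_erase Finset.univ _ (Finset.mem_univ γ), derivative_mul,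
        eval_add, eval_mul, eval_mul, hG0root γ a θ hθ, zero_mul, add_zero, eval_prod]
    have h7 : (c.P.map (evalRingHom a.1)).eval θ = 0 :=
      (mem_fib c.monic).1 (Pc.sub γ a hθ)
    have h8 := congrArg (fun p : k[X][X] => (p.map (evalRingHom a.1)).eval θ) c.bez
    simp only [Polynomial.map_add, Polynomial.map_mul, eval_add, eval_mul, h7, mul_zero, zero_add,
      map_C, eval_C, coe_evalRingHom] at h8
    rw [← derivative_map, h6] at h8
    rw [h5, map_polR]
    have h9 := c.ne a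
    field_simp
    rw [← h8]
    ring
  have hvne : ∀ γ a θ, θ ∈ Pc.E γ a → v a θ ≠ 0 := by
    intro γ a θ hθ h
    have := hvinv γ a θ hθ
    rw [h, zero_mul] at this
    exact zero_ne_one this
  have hvle : ∀ γ a θ, θ ∈ Pc.E γ a → ‖v a θ‖ ≤ 1 / d := by
    intro γ a θ hθ
    have h5 := congrArg norm (hvinv γ a θ hθ)
    rw [norm_mul, norm_one, hG0, derivative_prod_eval _ hθ] at h5
    have h6 := sep_prod hs (Pc.sub γ a) hθ
    rw [le_div_iff₀ hd0, ← h5]
    exact mul_le_mul_of_nonneg_left h6 (norm_nonneg _)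
  -- Newton iteration
  let T : ℕ → Tc k → k → k := fun n => Nat.rec (fun _ θ => θ)
    (fun _ t a θ => t a θ - v a θ * ∑ γ, (if θ ∈ Pc.E γ a then (1 : k) else 0) *
      ((H γ).map (evR a)).eval (t a θ)) n
  have hT0 : T 0 = fun _ θ => θ := rfl
  have hTs : ∀ n, T (n + 1) = fun a θ => T n a θ - v a θ *
      ∑ γ, (if θ ∈ Pc.E γ a then (1 : k) else 0) * ((H γ).map (evR a)).eval (T n a θ) :=
    fun _ => rfl
  have hTA : ∀ n, IsA c (T n) := by
    intro n
    induction n with
    | zero => exact isA_id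
    | succ n ih =>
      rw [hTs]
      exact isA_sub ih (isA_mul hvA (isA_sum _ fun γ _ => isA_mul (Pc.ind γ) (isA_comp _ ih)))
  have hTn : ∀ γ a θ, θ ∈ Pc.E γ a → ∀ n,
      T n a θ = nit (v a θ) ((H γ).map (evR a)) θ n := by
    intro γ a θ hθ n
    induction n with
    | zero => rfl
    | succ n ih =>
      rw [hTs]
      beta_reduce
      rw [hsel (fun γ a θ => ((H γ).map (evR a)).eval (T n a θ)) γ a θ hθ, ih]
      rfl
  have hτ : ∀ a θ, ∃ τ : k, ∀ γ, θ ∈ Pc.E γ a → ((H γ).map (evR a)).eval τ = 0 ∧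
      ‖τ - θ‖ ≤ η ∧ ∀ n, ‖τ - T n a θ‖ ≤ 2 * η * (1 / 2) ^ n := by
    intro a θ
    by_cases hex : ∃ γ, θ ∈ Pc.E γ a
    · obtain ⟨γ, hθ⟩ := hex
      have hDθ : ((H γ).map (evR a)).eval θ = (D γ a).eval θ := by
        simp only [hD, eval_sub, hG0root γ a θ hθ, sub_zero]
      have hDd : (derivative ((H γ).map (evR a))).eval θ =
          (derivative (D γ a)).eval θ + (derivative ((G0 γ).map (evR a))).eval θ := by
        simp only [hD, derivative_sub, eval_sub]
        ring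
      have hθ1 := hs.norm_le a θ (Pc.sub γ a hθ)
      obtain ⟨τ, ht1, ht2, ht3⟩ := newton ((H γ).map (evR a)) (hgnH γ a) θ (v a θ) η d hθ1 hη0
        hη1 hd0 hηd (hvne γ a θ hθ) (hvle γ a θ hθ) (by
          rw [hDθ, norm_mul]
          calc ‖v a θ‖ * ‖(D γ a).eval θ‖ ≤ (1 / d) * (η * d) :=
                mul_le_mul (hvle γ a θ hθ) ((norm_eval_le hθ1 _).trans (hgnD γ a))
                  (norm_nonneg _) (by positivity)
            _ = η := by field_simp) (by
          have h5 : 1 - v a θ * (derivative ((H γ).map (evR a))).eval θ =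
              -(v a θ * (derivative (D γ a)).eval θ) := by
            rw [hDd]
            linear_combination -hvinv γ a θ hθ
          rw [h5, norm_neg, norm_mul]
          calc ‖v a θ‖ * ‖(derivative (D γ a)).eval θ‖ ≤ (1 / d) * (η * d) :=
                mul_le_mul (hvle γ a θ hθ) ((norm_eval_le hθ1 _).trans
                  ((gn_derivative _).trans (hgnD γ a))) (norm_nonneg _) (by positivity)
            _ = η := by field_simp
            _ ≤ 1 / 2 := hη1)
      refine ⟨τ, fun γ' hγ' => ?_⟩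
      have h6 := Pc.disj a γ' γ θ hγ' hθ
      subst h6
      exact ⟨ht1, ht2, fun n => by rw [hTn γ' a θ hθ n]; exact ht3 n⟩
    · exact ⟨0, fun γ hγ => absurd ⟨γ, hγ⟩ hex⟩
  choose τ hτ using hτ
  have hτA : IsA c τ := by
    refine h3 c d hs τ fun ε' hε' => ?_
    obtain ⟨n, hn⟩ : ∃ n : ℕ, ((1 : ℝ) / 2) ^ n < ε' :=
      exists_pow_lt_of_lt_one hε' (by norm_num)
    refine ⟨T n, hTA n, fun a θ hθ => ?_⟩
    obtain ⟨γ, hγ⟩ := Pc.cover a θ hθ
    refine ((hτ a θ γ hγ).2.2 n).trans ?_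
    have h5 : (0 : ℝ) ≤ (1 / 2) ^ n := by positivity
    nlinarith
  -- the result
  refine ⟨M, fun γ => mkp (r γ) fun j => X ^ (M * (r γ - j - 1)) * g' γ j,
    fun a θ => a.1 ^ M * τ a θ, ?_, fun γ => mkp_monic _ _, ?_, ?_, ?_⟩
  · refine isA_mul (isA_R ?_) hτA
    have := isR_poly (k := k) (X ^ M)
    simpa using this
  · intro γ i
    rw [mkp_coeff]
    have hgn1 : gn (1 : k[X]) ≤ 1 := by
      refine gn_le fun i => ?_
      rw [coeff_one]
      split_ifs <;> simp
    by_cases hi : i < r γ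
    · rw [if_neg (by omega), if_pos hi, zero_add, gn_mul]
      have h5 : ∀ n : ℕ, gn (X ^ n : k[X]) ≤ 1 := by
        intro n
        refine gn_le fun i => ?_
        rw [coeff_X_pow]
        split_ifs <;> simp
      have h6 : gn (g' γ i) ≤ 1 := by
        refine h4 _ 1 zero_le_one fun a => ?_
        have h7 : ‖(g' γ i).eval a.1‖ = ‖(a.1)⁻¹ ^ M * (g' γ i).eval a.1‖ := by
          rw [norm_mul, norm_pow, a.norm_inv, one_pow, one_mul]
        have h8 : (a.1)⁻¹ ^ M * (g' γ i).eval a.1 = evR a ((G0 γ).coeff i) +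
          -(evR a ((G0 γ).coeff i) - (a.1)⁻¹ ^ M * (g' γ i).eval a.1) := by ring
        rw [h7, h8]
        refine (IsUltrametricDist.norm_add_le_max _ _).trans (max_le ?_ ?_)
        · have h9 := (coeff_le_gn ((G0 γ).map (evR a)) i).trans (hgnG0 γ a)
          rwa [coeff_map] at h9
        · rw [norm_neg]
          exact (hg'a γ i hi a).trans hηd1
      exact (mul_le_mul (h5 _) h6 (gn_nonneg _) zero_le_one).trans (mul_one _).le
    · rw [if_neg hi, add_zero]
      split_ifs
      · exact hgn1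
      · rw [gn_zero]
        exact zero_le_one
  · intro γ a
    apply eq_prod_of_roots _ ((mkp_monic _ _).map _)
    · intro x hx y hy hxy
      by_contra hne
      have h5 := sep_dist hs (Pc.sub γ a hx) (Pc.sub γ a hy) hne
      have h6 : τ a x = τ a y := mul_left_cancel₀ (pow_ne_zero M a.ne_zero) hxy
      have h7 : x - y = -(τ a x - x) + (τ a y - y) := by
        rw [h6]
        ring
      have h8 : ‖x - y‖ ≤ η := by
        rw [h7]
        refine (IsUltrametricDist.norm_add_le_max _ _).trans (max_le ?_ (hτ a y γ hy).2.1)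
        rw [norm_neg]
        exact (hτ a x γ hx).2.1
      linarith
    · rw [(mkp_monic _ _).natDegree_map, mkp_natDegree]
      have h5 := congrArg natDegree (hG0 γ a)
      rw [(hG0m γ).natDegree_map, natDegree_prod_of_monic _ _ fun x _ => monic_X_sub_C _] at h5
      simpa using h5
    · intro x hx
      have h5 := (hτ a x γ hx).1
      rw [hHa, mkp_eval] at h5
      rw [mkp_map, mkp_eval]
      have h6 : (a.1 ^ M * τ a x) ^ r γ + ∑ j ∈ Finset.range (r γ),
          (evalRingHom a.1) (X ^ (M * (r γ - j - 1)) * g' γ j) * (a.1 ^ M * τ a x) ^ j =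
          (a.1 ^ M) ^ r γ * (τ a x ^ r γ + ∑ j ∈ Finset.range (r γ),
            (a.1)⁻¹ ^ M * (g' γ j).eval a.1 * τ a x ^ j) := by
        rw [mul_add, ← mul_pow, Finset.mul_sum]
        congr 1
        refine Finset.sum_congr rfl fun j hj => ?_
        have hj' := Finset.mem_range.1 hj
        have h7 : (a.1 ^ M) ^ r γ = a.1 ^ (M * (r γ - j - 1)) * (a.1 ^ M) * (a.1 ^ M) ^ j := by
          rw [← pow_mul, ← pow_mul, ← pow_add, ← pow_add]
          congr 1
          have h8 : r γ = (r γ - j - 1) + 1 + j := by omega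
          conv_lhs => rw [h8]
          ring
        have h9 : a.1 ^ M * (a.1)⁻¹ ^ M = 1 := by
          rw [← mul_pow, mul_inv_cancel₀ a.ne_zero, one_pow]
        rw [h7, coe_evalRingHom, eval_mul, eval_pow, eval_X, mul_pow]
        linear_combination (-(a.1 ^ (M * (r γ - j - 1)) * (a.1 ^ M) ^ j * eval a.1 (g' γ j) *
          τ a x ^ j)) * h9
      rw [h6, h5, mul_zero]
  · intro a θ hθ
    obtain ⟨γ, hγ⟩ := Pc.cover a θ hθ
    have h5 : a.1 ^ M * τ a θ - a.1 ^ M * θ = a.1 ^ M * (τ a θ - θ) := by ring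
    beta_reduce
    rw [h5, norm_mul, norm_pow, a.2, one_pow, one_mul]
    exact (hτ a θ γ hγ).2.1.trans hηε

end Pool.Agent.DC
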