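import Pool.Agent.DC.StmtsC

set_option autoImplicit false
set_option linter.unusedSectionVars false

noncomputable section

namespace Pool.Agent.DC

open Polynomial
open scoped Classical

universe u

namespace LAG

variable {k : Type u} [NontriviallyNormedField k] [IsUltrametricDist k]

theorem gn_C_le (c : k) : gn (C c) ≤ ‖c‖ := by
  apply gn_le
  intro i
  rw [coeff_C]
  split_ifs
  · exact le_rfl
  · simp

theorem gn_X_sub_C_le {y : k} (hy : ‖y‖ ≤ 1) : gn (X - C y : k[X]) ≤ 1 := by
  apply gn_le
  intro i
  rw [coeff_sub, coeff_X, coeff_C]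
  rcases Nat.eq_zero_or_pos i with h | h
  · subst h
    simpa using hy
  · rw [if_neg (show ¬ i = 0 by omega), sub_zero]
    split_ifs
    · simp
    · simp

theorem gn_one_le : gn (1 : k[X]) ≤ 1 := by
  have := gn_C_le (k := k) 1
  simpa using this

theorem gn_prod_le {ι : Type*} (s : Finset ι) (f : ι → k[X]) (b : ι → ℝ)
    (h : ∀ i ∈ s, gn (f i) ≤ b i) : gn (∏ i ∈ s, f i) ≤ ∏ i ∈ s, b i := by
  induction s using Finset.induction_on with
  | empty => simpa using gn_one_le
  | insert a s ha ih =>
    rw [Finset.prod_insert ha, Finset.prod_insert ha, gn_mul]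
    have h1 := h a (Finset.mem_insert_self a s)
    have h2 := ih fun i hi => h i (Finset.mem_insert_of_mem hi)
    exact mul_le_mul h1 h2 (gn_nonneg _) ((gn_nonneg _).trans h1)

end LAG

open LAG in
theorem lag_proof (k : Type u) [NontriviallyNormedField k] [IsUltrametricDist k] [CompleteSpace k]
    [IsAlgClosed k] : Stmt_Lag k := by
  intro s d M g hd hM hdeg hs hsep hval j
  have h1 : g = Lagrange.interpolate s id fun i => g.eval (id i) :=
    Lagrange.eq_interpolate (Set.injOn_id _) hdeg
  have hb : ∀ x ∈ s, gn (Lagrange.basis s id x : k[X]) ≤ 1 / d := by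
    intro x hx
    rw [Lagrange.basis]
    have h2 : gn (∏ y ∈ s.erase x, Lagrange.basisDivisor (id x) (id y) : k[X]) ≤
        ∏ y ∈ s.erase x, ‖(x - y)⁻¹‖ := by
      apply gn_prod_le
      intro y hy
      rw [Lagrange.basisDivisor, gn_mul]
      calc gn (C (id x - id y)⁻¹ : k[X]) * gn (X - C (id y) : k[X]) ≤ ‖(x - y)⁻¹‖ * 1 := by
            gcongr
            · exact gn_nonneg _
            · exact gn_C_le _
            · exact gn_X_sub_C_le (hs y (Finset.mem_of_mem_erase hy))
        _ = _ := mul_one _
    refine h2.trans ?_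
    rw [← norm_prod, Finset.prod_inv_distrib, norm_inv, one_div]
    exact inv_anti₀ hd (hsep x hx)
  rw [h1, Lagrange.interpolate_apply, finsetSum_coeff]
  apply IsUltrametricDist.norm_sum_le_of_forall_le_of_nonneg (by positivity)
  intro x hx
  rw [coeff_C_mul, norm_mul]
  calc ‖g.eval (id x)‖ * ‖(Lagrange.basis s id x).coeff j‖ ≤ M * (1 / d) := by
        gcongr
        · exact hval x hx
        · exact (coeff_le_gn _ _).trans (hb x hx)
    _ = M / d := by ring

end Pool.Agent.DC
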