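import Pool.Agent.DC.StmtsC

set_option autoImplicit false

noncomputable section

namespace Pool.Agent.DC

universe u

variable (k : Type u) [NontriviallyNormedField k] [IsAlgClosed k]

theorem many_proof (p : ℕ) [Fact p.Prime] [CharP k p] : Stmt_Many k p := by
  classical
  intro N
  let _ : Algebra (ZMod p) k := ZMod.algebra k p
  let φ : AlgebraicClosure (ZMod p) →ₐ[ZMod p] k := IsAlgClosed.lift
  have hinj : Function.Injective φ := φ.toRingHom.injective
  have hnorm : ∀ x : AlgebraicClosure (ZMod p), x ≠ 0 → ‖φ x‖ = 1 := by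
    intro x hx
    have hint : IsIntegral (ZMod p) x := Algebra.IsIntegral.isIntegral x
    let E := IntermediateField.adjoin (ZMod p) {x}
    have : FiniteDimensional (ZMod p) E := IntermediateField.adjoin.finiteDimensional hint
    have hfin : Finite E := Module.finite_of_finite (ZMod p)
    let y : E := ⟨x, IntermediateField.mem_adjoin_simple_self (ZMod p) x⟩
    have hy : y ≠ 0 := fun h => hx (congrArg Subtype.val h)
    obtain ⟨m, hm0, hm⟩ := (isOfFinOrder_of_finite (Units.mk0 y hy)).exists_pow_eq_one
    have hm' : y ^ m = 1 := by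
      have := congrArg Units.val hm
      simpa using this
    have hx' : x ^ m = 1 := by
      have := congrArg Subtype.val hm'
      simpa [y] using this
    have h1 : ‖φ x‖ ^ m = 1 := by
      rw [← norm_pow, ← map_pow, hx', map_one, norm_one]
    exact (pow_eq_one_iff_of_nonneg (norm_nonneg _) hm0.ne').1 h1
  have hinf : Infinite (AlgebraicClosure (ZMod p)) := IsAlgClosed.instInfinite
  have hinf2 : Set.Infinite {x : AlgebraicClosure (ZMod p) | x ≠ 0} :=
    (Set.finite_singleton (0 : AlgebraicClosure (ZMod p))).infinite_compl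
  obtain ⟨t, ht1, ht2⟩ := hinf2.exists_subset_card_eq N
  refine ⟨t.image φ, ?_, ?_, ?_⟩
  · rw [Finset.card_image_of_injective _ hinj, ht2]
  · intro x hx
    obtain ⟨y, hy, rfl⟩ := Finset.mem_image.1 hx
    exact hnorm y (ht1 hy)
  · intro x hx y hy hxy
    obtain ⟨x', hx', rfl⟩ := Finset.mem_image.1 hx
    obtain ⟨y', hy', rfl⟩ := Finset.mem_image.1 hy
    rw [← map_sub]
    refine hnorm _ ?_
    intro h
    exact hxy (by rw [sub_eq_zero.1 h])

end Pool.Agent.DC
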