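import Pool.Agent.DC.StmtsB

/-!
# NEARC: for `|a|` small and bounded below, the solutions have nearly constant coordinates
-/

set_option autoImplicit false
set_option linter.unusedSectionVars false
set_option linter.style.haveILetI false

noncomputable section

namespace Pool.Agent.DC

open Pool.Agent.LibDb3ab1

universe u

namespace NEARC

section general

/-- congruences of values of polynomials -/
theorem dvd_eval₂_sub {σ R S : Type*} [CommRing R] [CommRing S] (f : R →+* S) (c : S)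
    (x y : σ → S) (h : ∀ i, c ∣ x i - y i) (g : MvPolynomial σ R) :
    c ∣ MvPolynomial.eval₂ f x g - MvPolynomial.eval₂ f y g := by
  induction g using MvPolynomial.induction_on with
  | C a => simp
  | add p q hp hq =>
    rw [MvPolynomial.eval₂_add, MvPolynomial.eval₂_add]
    have := dvd_add hp hq
    convert this using 1
    ring
  | mul_X p i hp =>
    rw [MvPolynomial.eval₂_mul, MvPolynomial.eval₂_mul, MvPolynomial.eval₂_X,
      MvPolynomial.eval₂_X]
    have := dvd_add (hp.mul_right (x i)) ((h i).mul_left (MvPolynomial.eval₂ f y p))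
    convert this using 1
    ring

theorem prod_gt (S : Multiset ℝ) (r : ℝ) (hr : 0 < r) (h : ∀ x ∈ S, r < x) (hS : S ≠ 0) :
    r ^ Multiset.card S < S.prod := by
  induction S using Multiset.induction_on with
  | empty => exact absurd rfl hS
  | cons a S ih =>
    rw [Multiset.card_cons, Multiset.prod_cons, pow_succ, mul_comm]
    have ha := h a (Multiset.mem_cons_self a S)
    by_cases hS0 : S = 0
    · subst hS0
      simpa using ha
    · have h2 := ih (fun x hx => h x (Multiset.mem_cons_of_mem hx)) hS0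
      exact mul_lt_mul'' ha h2 hr.le (pow_nonneg hr.le _)

/-- a point where a polynomial is small is near a root -/
theorem near_root {K : Type u} [Field K] [IsAlgClosed K] (ν : AbsoluteValue K ℝ)
    (P : Polynomial K) (hP0 : P ≠ 0) (hd : 0 < P.natDegree) (r : ℝ) (hr : 0 < r) (x : K)
    (h : ν (P.eval x) ≤ ν P.leadingCoeff * r ^ P.natDegree) :
    ∃ c, c ∈ P.roots ∧ ν (x - c) ≤ r := by
  by_contra hcon
  push Not at hcon
  have hsplit : P.Splits := IsAlgClosed.splits P
  have hcard : Multiset.card P.roots = P.natDegree := hsplit.natDegree_eq_card_roots.symm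
  have h1 := prod_gt (P.roots.map (fun c => ν (x - c))) r hr (by
    intro y hy
    rw [Multiset.mem_map] at hy
    obtain ⟨c, hc, rfl⟩ := hy
    exact hcon c hc) (by
    intro h0
    have := congrArg Multiset.card h0
    rw [Multiset.card_map, hcard, Multiset.card_zero] at this
    omega)
  rw [Multiset.card_map, hcard] at h1
  have h2 : ν (P.eval x) = ν P.leadingCoeff * (P.roots.map (fun c => ν (x - c))).prod := by
    have h3 : P.eval x = P.leadingCoeff * (P.roots.map (fun c => x - c)).prod := by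
      conv_lhs => rw [hsplit.eq_prod_roots]
      rw [Polynomial.eval_mul, Polynomial.eval_C, Polynomial.eval_multiset_prod,
        Multiset.map_map]
      simp
    rw [h3, map_mul, map_multiset_prod, Multiset.map_map]
    rfl
  rw [h2] at h
  have h4 : 0 < ν P.leadingCoeff := by
    apply ν.pos
    rwa [Ne, Polynomial.leadingCoeff_eq_zero]
  exact absurd h (not_le.mpr (mul_lt_mul_of_pos_left h1 h4))

theorem sum_le {K : Type u} [Field K] (ν : AbsoluteValue K ℝ)
    (hν : ∀ x y, ν (x + y) ≤ max (ν x) (ν y)) {ι : Type*} (s : Finset ι) (g : ι → K) (B : ℝ)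
    (hB : 0 ≤ B) (h : ∀ i ∈ s, ν (g i) ≤ B) : ν (∑ i ∈ s, g i) ≤ B := by
  classical
  induction s using Finset.induction_on with
  | empty => simpa using hB
  | insert a s ha ih =>
    rw [Finset.sum_insert ha]
    refine (hν _ _).trans (max_le (h a (Finset.mem_insert_self a s)) ?_)
    exact ih fun i hi => h i (Finset.mem_insert_of_mem hi)

/-- bound for the points where a polynomial is not large -/
theorem root_bound {K : Type u} [Field K] (ν : AbsoluteValue K ℝ)
    (hν : ∀ x y, ν (x + y) ≤ max (ν x) (ν y)) (P : Polynomial K) (e : ℕ) (he : 0 < e)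
    (hd : P.natDegree ≤ e) (hc : ∀ j, ν (P.coeff j) ≤ 1) (h0 : P.coeff e ≠ 0) (v : K)
    (hv : ν (P.eval v) ≤ 1) : ν v ≤ 1 / ν (P.coeff e) := by
  by_contra hlt
  push Not at hlt
  have hφ : 0 < ν (P.coeff e) := ν.pos h0
  rw [div_lt_iff₀ hφ] at hlt
  have h1 : 1 < ν v := by
    by_contra h2
    push Not at h2
    have := mul_le_mul h2 (hc e) hφ.le zero_le_one
    linarith
  obtain ⟨m, rfl⟩ : ∃ m, e = m + 1 := ⟨e - 1, by omega⟩
  have h2 : P.eval v = (∑ j ∈ Finset.range (m + 1), P.coeff j * v ^ j) +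
      P.coeff (m + 1) * v ^ (m + 1) := by
    rw [Polynomial.eval_eq_sum_range' (n := m + 1 + 1) (by omega), Finset.sum_range_succ]
  have h3 : ν (∑ j ∈ Finset.range (m + 1), P.coeff j * v ^ j) ≤ ν v ^ m := by
    apply sum_le ν hν _ _ _ (by positivity)
    intro j hj
    rw [Finset.mem_range] at hj
    rw [map_mul, map_pow]
    calc ν (P.coeff j) * ν v ^ j ≤ 1 * ν v ^ m := by
          apply mul_le_mul (hc j) _ (by positivity) zero_le_one
          exact pow_le_pow_right₀ h1.le (by omega)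
      _ = ν v ^ m := one_mul _
  have h4 : P.coeff (m + 1) * v ^ (m + 1) =
      P.eval v + -(∑ j ∈ Finset.range (m + 1), P.coeff j * v ^ j) := by
    rw [h2]; ring
  have h5 : ν (P.coeff (m + 1) * v ^ (m + 1)) ≤ ν v ^ m := by
    rw [h4]
    refine (hν _ _).trans (max_le (hv.trans (one_le_pow₀ h1.le)) ?_)
    rwa [ν.map_neg]
  rw [map_mul, map_pow, pow_succ] at h5
  have h6 : 0 < ν v ^ m := by positivity
  nlinarith

/-- the polynomial in one variable obtained by specialising the other variables -/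
def pol {σ R : Type*} [CommRing R] [DecidableEq σ] (g : MvPolynomial σ R) (i₀ : σ) (x : σ → R) :
    Polynomial R :=
  MvPolynomial.eval₂ Polynomial.C (fun i => if i = i₀ then Polynomial.X else Polynomial.C (x i)) g

theorem pol_eval₂ {σ R S : Type*} [CommRing R] [CommRing S] [DecidableEq σ] (f : R →+* S)
    (g : MvPolynomial σ R) (i₀ : σ) (x : σ → R) (v : S) :
    (pol g i₀ x).eval₂ f v =
      MvPolynomial.eval₂ f (fun i => if i = i₀ then v else f (x i)) g := by
  rw [pol, ← Polynomial.coe_eval₂RingHom, MvPolynomial.eval₂_comp_left]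
  congr 1
  · ext a; simp
  · ext i
    by_cases h : i = i₀
    · simp [h]
    · simp [h]

theorem pol_eq {σ R : Type*} [CommRing R] [Fintype σ] [DecidableEq σ] (g : MvPolynomial σ R)
    (i₀ : σ) (x : σ → R) : pol g i₀ x = ∑ d ∈ g.support,
      Polynomial.C (g.coeff d * ∏ i ∈ Finset.univ.erase i₀, x i ^ d i) *
        Polynomial.X ^ d i₀ := by
  rw [pol, MvPolynomial.eval₂_eq']
  refine Finset.sum_congr rfl fun d _ => ?_
  rw [← Finset.prod_erase_mul _ _ (Finset.mem_univ i₀), if_pos rfl, map_mul, map_prod, mul_assoc]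
  congr 2
  refine Finset.prod_congr rfl fun i hi => ?_
  rw [if_neg (Finset.ne_of_mem_erase hi), map_pow]

theorem hom_deg {σ R : Type*} [CommRing R] [Fintype σ] [DecidableEq σ] {g : MvPolynomial σ R}
    {e : ℕ} (hg : g.IsHomogeneous e) {d : σ →₀ ℕ} (hd : d ∈ g.support) (i₀ : σ) :
    d i₀ ≤ e ∧ (d i₀ = e → d = Finsupp.single i₀ e) := by
  have h1 : ∑ i, d i = e := by
    have := hg (MvPolynomial.mem_support_iff.mp hd)
    rw [← this]
    simp [Finsupp.weight_apply, Finsupp.sum_fintype]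
  rw [← Finset.sum_erase_add _ _ (Finset.mem_univ i₀)] at h1
  refine ⟨by omega, fun h2 => ?_⟩
  have h3 : ∑ i ∈ Finset.univ.erase i₀, d i = 0 := by omega
  rw [Finset.sum_eq_zero_iff] at h3
  ext i
  by_cases hi : i = i₀
  · subst hi; simp [h2]
  · rw [h3 i (Finset.mem_erase.mpr ⟨hi, Finset.mem_univ i⟩), Finsupp.single_eq_of_ne hi]

theorem pol_natDegree {σ R : Type*} [CommRing R] [Fintype σ] [DecidableEq σ]
    {g : MvPolynomial σ R} {e : ℕ} (hg : g.IsHomogeneous e) (i₀ : σ) (x : σ → R) :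
    (pol g i₀ x).natDegree ≤ e := by
  rw [pol_eq]
  refine Polynomial.natDegree_sum_le_of_forall_le _ _ fun d hd => ?_
  exact (Polynomial.natDegree_C_mul_X_pow_le _ _).trans (hom_deg hg hd i₀).1

theorem pol_coeff {σ R : Type*} [CommRing R] [Fintype σ] [DecidableEq σ]
    {g : MvPolynomial σ R} {e : ℕ} (hg : g.IsHomogeneous e) (i₀ : σ) (x : σ → R) :
    (pol g i₀ x).coeff e = g.coeff (Finsupp.single i₀ e) := by
  rw [pol_eq, Polynomial.finsetSum_coeff, Finset.sum_eq_single (Finsupp.single i₀ e)]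
  · rw [Polynomial.coeff_C_mul_X_pow, Finsupp.single_eq_same, if_pos rfl,
      Finset.prod_eq_one, mul_one]
    intro i hi
    rw [Finsupp.single_eq_of_ne (Finset.ne_of_mem_erase hi), pow_zero]
  · intro d hd hne
    rw [Polynomial.coeff_C_mul_X_pow, if_neg]
    intro h2
    exact hne ((hom_deg hg hd i₀).2 h2.symm)
  · intro h
    rw [MvPolynomial.notMem_support_iff] at h
    rw [h, zero_mul, map_zero, zero_mul, Polynomial.coeff_zero]

theorem pol_sub_dvd {σ R : Type*} [CommRing R] [DecidableEq σ] (g : MvPolynomial σ R)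
    (i₀ : σ) (x y : σ → R) (c : R) (h : ∀ i, c ∣ x i - y i) (j : ℕ) :
    c ∣ (pol g i₀ x).coeff j - (pol g i₀ y).coeff j := by
  have h1 : Polynomial.C c ∣ pol g i₀ x - pol g i₀ y := by
    apply dvd_eval₂_sub
    intro i
    by_cases hi : i = i₀
    · simp [hi]
    · obtain ⟨d, hd⟩ := h i
      refine ⟨Polynomial.C d, ?_⟩
      simp only [hi, if_false]
      rw [← map_sub, hd, map_mul]
  rw [← Polynomial.coeff_sub]
  exact (Polynomial.C_dvd_iff_dvd_coeff _ _).mp h1 j

/-- integrality -/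
theorem integral_of_eq {W F : Type*} [CommRing W] [IsDomain W] [ValuationRing W] [Field F]
    [Algebra W F] [IsFractionRing W F] {σ : Type*} [Fintype σ] [DecidableEq σ] (w : σ → ℕ)
    (τ₀ : σ) (q : ℕ) (hw : ∀ τ, 0 < w τ) (G : MvPolynomial σ W)
    (hG : MvPolynomial.IsWeightedHomogeneous w G (w τ₀ * q))
    (hu : IsUnit (G.coeff (Finsupp.single τ₀ q))) (y : σ → F)
    (hy : ∀ τ, τ ≠ τ₀ → ∃ z : W, algebraMap W F z = y τ)
    (h0 : MvPolynomial.eval₂ (algebraMap W F) y G = 0) : ∃ z : W, algebraMap W F z = y τ₀ := by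
  classical
  rcases (ValuationRing.iff_isInteger_or_isInteger W F).mp inferInstance (y τ₀) with
    ⟨z, hz⟩ | ⟨z, hz⟩
  · exact ⟨z, hz⟩
  by_cases hy0 : y τ₀ = 0
  · exact ⟨0, by rw [hy0, map_zero]⟩
  by_cases hzu : IsUnit z
  · obtain ⟨z, rfl⟩ := hzu
    refine ⟨((z⁻¹ : Wˣ) : W), ?_⟩
    have h1 : algebraMap W F (z : W) * algebraMap W F ((z⁻¹ : Wˣ) : W) = 1 := by
      rw [← map_mul, Units.mul_inv, map_one]
    rw [hz] at h1
    field_simp at h1
    exact h1
  exfalso
  choose! Z hZ using hy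
  have hz1 : y τ₀ * algebraMap W F z = 1 := by rw [hz, mul_inv_cancel₀ hy0]
  -- each term
  have hdeg : ∀ d ∈ G.support, d ≠ Finsupp.single τ₀ q → d τ₀ < q := by
    intro d hd hne
    have h1 : ∑ i, d i * w i = w τ₀ * q := by
      have := hG (MvPolynomial.mem_support_iff.mp hd)
      rw [← this]
      simp [Finsupp.weight_apply, Finsupp.sum_fintype]
    rw [← Finset.sum_erase_add _ _ (Finset.mem_univ τ₀)] at h1
    by_contra hlt
    push Not at hlt
    have h2 : w τ₀ * q ≤ d τ₀ * w τ₀ := by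
      rw [mul_comm]
      exact Nat.mul_le_mul_right _ hlt
    have h3 : ∑ i ∈ Finset.univ.erase τ₀, d i * w i = 0 := by omega
    have h4 : d τ₀ * w τ₀ = q * w τ₀ := by
      rw [mul_comm q]; omega
    have h5 : d τ₀ = q := Nat.eq_of_mul_eq_mul_right (hw τ₀) h4
    apply hne
    rw [Finset.sum_eq_zero_iff] at h3
    ext i
    by_cases hi : i = τ₀
    · subst hi; simp [h5]
    · have h6 := h3 i (Finset.mem_erase.mpr ⟨hi, Finset.mem_univ i⟩)
      rw [Finsupp.single_eq_of_ne hi]
      rcases Nat.mul_eq_zero.mp h6 with h7 | h7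
      · exact h7
      · exact absurd h7 (hw i).ne'
  have hterm : ∀ d ∈ G.support, d ≠ Finsupp.single τ₀ q → ∃ c : W,
      algebraMap W F (G.coeff d) * (∏ i, y i ^ d i) * algebraMap W F z ^ q =
        algebraMap W F (z * c) := by
    intro d hd hne
    have h1 := hdeg d hd hne
    obtain ⟨m, hm⟩ : ∃ m, q = d τ₀ + (m + 1) := ⟨q - d τ₀ - 1, by omega⟩
    refine ⟨G.coeff d * (∏ i ∈ Finset.univ.erase τ₀, Z i ^ d i) * z ^ m, ?_⟩
    rw [← Finset.prod_erase_mul _ _ (Finset.mem_univ τ₀)]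
    simp only [map_mul, map_prod, map_pow]
    have h2 : ∏ i ∈ Finset.univ.erase τ₀, y i ^ d i =
        ∏ i ∈ Finset.univ.erase τ₀, algebraMap W F (Z i) ^ d i := by
      refine Finset.prod_congr rfl fun i hi => ?_
      rw [hZ i (Finset.ne_of_mem_erase hi)]
    rw [h2]
    have h3 : y τ₀ ^ d τ₀ * algebraMap W F z ^ q = algebraMap W F z * algebraMap W F z ^ m := by
      conv_lhs => rw [hm, pow_add, ← mul_assoc, ← mul_pow, hz1, one_pow, one_mul, pow_succ']
    calc _ = algebraMap W F (G.coeff d) *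
        (∏ i ∈ Finset.univ.erase τ₀, algebraMap W F (Z i) ^ d i) *
        (y τ₀ ^ d τ₀ * algebraMap W F z ^ q) := by ring
      _ = _ := by rw [h3]; ring
  choose! C hC using hterm
  have hmem : Finsupp.single τ₀ q ∈ G.support := by
    rw [MvPolynomial.mem_support_iff]
    exact hu.ne_zero
  have h5 : algebraMap W F (G.coeff (Finsupp.single τ₀ q) +
      z * ∑ d ∈ G.support.erase (Finsupp.single τ₀ q), C d) = 0 := by
    have h6 : MvPolynomial.eval₂ (algebraMap W F) y G * algebraMap W F z ^ q = 0 := by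
      rw [h0, zero_mul]
    rw [MvPolynomial.eval₂_eq', ← Finset.add_sum_erase _ _ hmem, add_mul, Finset.sum_mul] at h6
    rw [Finset.sum_congr rfl (fun d hd => hC d (Finset.mem_of_mem_erase hd)
      (Finset.ne_of_mem_erase hd))] at h6
    rw [map_add, Finset.mul_sum, map_sum, ← h6]
    congr 1
    rw [mul_assoc]
    have h7 : (∏ i, y i ^ (Finsupp.single τ₀ q) i) = y τ₀ ^ q := by
      rw [← Finset.prod_erase_mul _ _ (Finset.mem_univ τ₀), Finset.prod_eq_one, one_mul,
        Finsupp.single_eq_same]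
      intro i hi
      rw [Finsupp.single_eq_of_ne (Finset.ne_of_mem_erase hi), pow_zero]
    rw [h7, ← mul_pow, hz1, one_pow, mul_one]
  have h8 := IsFractionRing.injective W F (h5.trans (map_zero _).symm)
  have h9 : G.coeff (Finsupp.single τ₀ q) =
      -(z * ∑ d ∈ G.support.erase (Finsupp.single τ₀ q), C d) := by
    linear_combination h8
  apply hzu
  rw [h9] at hu
  exact isUnit_of_mul_isUnit_left (hu.neg |> fun h => by rwa [neg_neg] at h)

end general

section algebra

variable {K : Type u} [Field K] {O : ValuationSubring K} {n : ℕ}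
  {𝔮 : Ideal (MvPolynomial (Fin (n + 1)) K)}

theorem cong_eq (D : AlgData O O.subtype n 𝔮) (c : O) (u T : O) (w : Fin (n + 1) → O)
    (h1 : c ∣ MvPolynomial.eval ![1, u, T] D.F)
    (h2 : ∀ i, c ∣ w i - MvPolynomial.eval ![1, u, T] (D.A i)) (d : ℕ)
    (P : MvPolynomial (Fin (n + 1)) O) (hP : P.IsHomogeneous d)
    (hPq : MvPolynomial.map O.subtype P ∈ 𝔮) : c ∣ MvPolynomial.eval w P := by
  have h3 := map_dvd (MvPolynomial.eval ![1, u, T]) (D.dvd d P hP hPq)
  have h4 : MvPolynomial.eval ![1, u, T] (MvPolynomial.aeval D.A P) =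
      MvPolynomial.eval (fun i => MvPolynomial.eval ![1, u, T] (D.A i)) P := by
    rw [MvPolynomial.aeval_def, MvPolynomial.eval₂_comp_left, MvPolynomial.algebraMap_eq]
    have : (MvPolynomial.eval ![1, u, T]).comp MvPolynomial.C = RingHom.id O := by
      ext a; simp
    rw [this]
    rfl
  rw [h4] at h3
  have h5 := dvd_eval₂_sub (RingHom.id O) c w (fun i => MvPolynomial.eval ![1, u, T] (D.A i)) h2 P
  have h6 := dvd_add h5 (h1.trans h3)
  have h7 : MvPolynomial.eval₂ (RingHom.id O) w P -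
      MvPolynomial.eval₂ (RingHom.id O) (fun i => MvPolynomial.eval ![1, u, T] (D.A i)) P +
      MvPolynomial.eval (fun i => MvPolynomial.eval ![1, u, T] (D.A i)) P =
      MvPolynomial.eval w P := by
    rw [MvPolynomial.eval₂_id, MvPolynomial.eval₂_id]
    ring
  rwa [h7] at h6

theorem cong_L (D : AlgData O O.subtype n 𝔮) (c : O) (a u T : O) (w : Fin (n + 1) → O)
    (h0 : c ∣ a - MvPolynomial.eval ![1, u] D.δ)
    (h1 : c ∣ MvPolynomial.eval ![1, u, T] D.F)
    (h2 : ∀ i, c ∣ w i - MvPolynomial.eval ![1, u, T] (D.A i)) (j : Fin 2) :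
    c ∣ MvPolynomial.eval w (D.L j) - D.δ₀ * (![1, u] : Fin 2 → O) j * a := by
  have h3 := map_dvd (MvPolynomial.eval ![1, u, T]) (D.dvd_L j)
  have h4 : MvPolynomial.eval ![1, u, T] (MvPolynomial.aeval D.A (D.L j)) =
      MvPolynomial.eval (fun i => MvPolynomial.eval ![1, u, T] (D.A i)) (D.L j) := by
    rw [MvPolynomial.aeval_def, MvPolynomial.eval₂_comp_left, MvPolynomial.algebraMap_eq]
    have : (MvPolynomial.eval ![1, u, T]).comp MvPolynomial.C = RingHom.id O := by
      ext a; simp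
    rw [this]
    rfl
  have h8 : (![1, u, T] : Fin 3 → O) ∘ Fin.castSucc = ![1, u] := by
    ext i
    fin_cases i <;> simp
  have h9 : (![1, u, T] : Fin 3 → O) (Fin.castSucc j) = (![1, u] : Fin 2 → O) j :=
    congrFun h8 j
  rw [map_sub, h4, map_mul, map_mul, MvPolynomial.eval_C, MvPolynomial.eval_X,
    MvPolynomial.eval_rename, h8, h9] at h3
  have h5 := dvd_eval₂_sub (RingHom.id O) c w (fun i => MvPolynomial.eval ![1, u, T] (D.A i)) h2
    (D.L j)
  rw [MvPolynomial.eval₂_id, MvPolynomial.eval₂_id] at h5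
  have h6 := dvd_add h5 (h1.trans h3)
  have h7 := dvd_sub h6 (h0.mul_left (D.δ₀ * (![1, u] : Fin 2 → O) j))
  convert h7 using 1
  ring

theorem cong_f (D : AlgData O O.subtype n 𝔮) (c : O) (a u T : O) (w : Fin (n + 1) → O)
    (h0 : c ∣ a - MvPolynomial.eval ![1, u] D.δ)
    (h1 : c ∣ MvPolynomial.eval ![1, u, T] D.F)
    (h2 : ∀ i, c ∣ w i - MvPolynomial.eval ![1, u, T] (D.A i)) (i : Fin (n + 1)) :
    c ∣ MvPolynomial.eval ![D.δ₀ * a, D.δ₀ * u * a, w i] (D.f i) := by
  have hP : (MvPolynomial.aeval ![D.L 0, D.L 1, MvPolynomial.X i] (D.f i) :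
      MvPolynomial (Fin (n + 1)) O).IsHomogeneous (1 * D.e) := by
    apply MvPolynomial.IsHomogeneous.aeval (D.f_hom i)
    intro j
    fin_cases j
    · exact D.L_hom 0
    · exact D.L_hom 1
    · exact MvPolynomial.isHomogeneous_X _ _
  have h3 := cong_eq D c u T w h1 h2 _ _ hP (D.f_mem i)
  have h4 : MvPolynomial.eval w (MvPolynomial.aeval ![D.L 0, D.L 1, MvPolynomial.X i] (D.f i)) =
      MvPolynomial.eval ![MvPolynomial.eval w (D.L 0), MvPolynomial.eval w (D.L 1), w i]
        (D.f i) := by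
    rw [MvPolynomial.aeval_def, MvPolynomial.eval₂_comp_left, MvPolynomial.algebraMap_eq]
    have h5 : (MvPolynomial.eval w).comp MvPolynomial.C = RingHom.id O := by
      ext a; simp
    rw [h5, MvPolynomial.eval₂_id]
    congr 2
    ext j
    fin_cases j <;> simp
  rw [h4] at h3
  have h5 := dvd_eval₂_sub (RingHom.id O) c ![D.δ₀ * a, D.δ₀ * u * a, w i]
    ![MvPolynomial.eval w (D.L 0), MvPolynomial.eval w (D.L 1), w i] (by
      intro j
      fin_cases j
      · have := cong_L D c a u T w h0 h1 h2 0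
        rw [dvd_sub_comm] at this
        simpa using this
      · have := cong_L D c a u T w h0 h1 h2 1
        rw [dvd_sub_comm] at this
        simpa using this
      · simp) (D.f i)
  rw [MvPolynomial.eval₂_id, MvPolynomial.eval₂_id] at h5
  have h6 := dvd_add h5 h3
  rwa [sub_add_cancel] at h6

end algebra

section tilt

variable {K : Type u} [Field K] {O : ValuationSubring K} {p : ℕ} [Fact p.Prime]
  [Fact ¬IsUnit (p : O)] [IsAdicComplete (Ideal.span {(p : O)}) O]

theorem selfExt : ValuedExt O (RingHom.id K) O where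
  comap_eq := by ext x; simp
  cont := fun x hx => ⟨x, hx, by rw [RingHom.id_apply, div_self hx]; exact O.one_mem⟩

theorem incl_selfExt : (selfExt (O := O)).incl = RingHom.id O := by
  ext x; rfl

theorem tmap_selfExt : tmap (p := p) (selfExt (O := O)).incl = RingHom.id (PreTilt O p) := by
  ext1 x
  apply preTilt_ext
  intro n
  rw [coeff_tmap]
  obtain ⟨y, hy⟩ := Ideal.Quotient.mk_surjective (PreTilt.coeff n x)
  rw [← hy, modMap_mk, RingHom.id_apply, ← hy, incl_selfExt, RingHom.id_apply]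

theorem dvd_self {σ : Type} {w : σ → ℕ} {e M : ℕ} {F : MvPolynomial σ O}
    {G : MvPolynomial σ (PreTilt O p)} (h : ApproxOf w e M F G) (y : σ → PreTilt O p)
    (hy : MvPolynomial.eval y G = 0) :
    (p : O) ^ M ∣ MvPolynomial.eval (fun i => PreTilt.untilt (y i)) F := by
  have h1 := h.dvd K (RingHom.id K) O selfExt y (by rw [tmap_selfExt]; exact hy)
  rw [incl_selfExt] at h1
  exact h1

theorem eval_zero {σ : Type} (G : MvPolynomial σ (PreTilt O p)) (y : σ → PreTilt O p)
    (Y : σ → TF O p) (hY : ∀ i, algebraMap _ _ (y i) = Y i)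
    (h : MvPolynomial.eval₂ (algebraMap (PreTilt O p) (TF O p)) Y G = 0) :
    MvPolynomial.eval y G = 0 := by
  apply IsFractionRing.injective (PreTilt O p) (TF O p)
  have h1 : Y = (algebraMap (PreTilt O p) (TF O p)) ∘ y := by
    ext i; exact (hY i).symm
  rw [map_zero, ← h, h1, ← MvPolynomial.eval₂_id, MvPolynomial.eval₂_comp_left]
  rfl

variable {n : ℕ} {𝔮 : Ideal (MvPolynomial (Fin (n + 1)) K)} {D : AlgData O O.subtype n 𝔮}
  {M : ℕ}

theorem F₀_coeff_zero : D.F₀.coeff (Finsupp.single 0 1) = 1 := by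
  rw [AlgData.F₀, MvPolynomial.coeff_sub]
  have h1 : (MvPolynomial.rename Fin.succ D.δ).coeff (Finsupp.single (0 : Fin 3) 1) = 0 := by
    apply MvPolynomial.coeff_rename_eq_zero
    intro v hv
    exfalso
    have := DFunLike.congr_fun hv 0
    rw [Finsupp.mapDomain_of_notMem_range _ _ (by simp)] at this
    simp at this
  rw [h1, sub_zero, MvPolynomial.X, MvPolynomial.coeff_monomial, if_pos rfl]

theorem Fw_coeff (i : Fin (n + 1)) : (D.Fw i).coeff (Finsupp.single 3 1) = 1 := by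
  rw [AlgData.Fw, MvPolynomial.coeff_sub]
  have h1 : (MvPolynomial.rename Fin.castSucc (D.A i)).coeff
      (Finsupp.single (3 : Fin 4) 1) = 0 := by
    apply MvPolynomial.coeff_rename_eq_zero
    intro v hv
    exfalso
    have := DFunLike.congr_fun hv 3
    rw [Finsupp.mapDomain_of_notMem_range _ _ (by
      rintro ⟨j, hj⟩
      exact absurd hj (Fin.castSucc_lt_last j).ne)] at this
    simp at this
  rw [h1, sub_zero, MvPolynomial.X, MvPolynomial.coeff_monomial, if_pos rfl]

theorem eval_F₀ (a u : O) (x : O) : MvPolynomial.eval ![a, x, u] D.F₀ =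
    a - MvPolynomial.eval ![x, u] D.δ := by
  rw [AlgData.F₀, map_sub, MvPolynomial.eval_X, MvPolynomial.eval_rename]
  congr 2

theorem eval_Fw (i : Fin (n + 1)) (x : Fin 3 → O) (w : O) :
    MvPolynomial.eval ![x 0, x 1, x 2, w] (D.Fw i) = w - MvPolynomial.eval x (D.A i) := by
  rw [AlgData.Fw, map_sub, MvPolynomial.eval_X, MvPolynomial.eval_rename]
  congr 3
  ext j
  fin_cases j <;> rfl

theorem case1 (𝒜 : ApproxData p D M) (a T : TF O p) (u' : PreTilt O p)
    (w : Fin (n + 1) → TF O p)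
    (hpt : IsPt 𝒜 (algebraMap (PreTilt O p) (TF O p)) a (algebraMap _ _ u') T w) :
    ∃ (a' : PreTilt O p) (T' : PreTilt O p) (w' : Fin (n + 1) → PreTilt O p),
      algebraMap _ _ a' = a ∧ (∀ i, algebraMap _ _ (w' i) = w i) ∧
      (p : O) ^ M ∣ PreTilt.untilt a' - MvPolynomial.eval ![1, PreTilt.untilt u'] D.δ ∧
      (p : O) ^ M ∣ MvPolynomial.eval ![1, PreTilt.untilt u', PreTilt.untilt T'] D.F ∧
      ∀ i, (p : O) ^ M ∣ PreTilt.untilt (w' i) -
        MvPolynomial.eval ![1, PreTilt.untilt u', PreTilt.untilt T'] (D.A i) := by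
  -- `a` is integral
  obtain ⟨a', ha'⟩ : ∃ z : PreTilt O p, algebraMap _ (TF O p) z = a := by
    obtain ⟨J, hJ1, hJ2⟩ := 𝒜.h₀.hom
    have h1 := hJ2 0 1 (by rw [F₀_coeff_zero]; exact isUnit_one)
    rw [one_mul] at h1
    have h2 := integral_of_eq (F := TF O p) ![D.D, 1, 1] 0 (p ^ J) (by
      intro τ
      fin_cases τ
      · exact D.D_pos
      · exact Nat.one_pos
      · exact Nat.one_pos) 𝒜.G₀ hJ1 h1 ![a, 1, algebraMap _ _ u'] (by
      intro τ hτ
      fin_cases τ
      · exact absurd rfl hτ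
      · exact ⟨1, by simp⟩
      · exact ⟨u', rfl⟩) hpt.e₀
    exact h2
  obtain ⟨T', hT'⟩ : ∃ z : PreTilt O p, algebraMap _ (TF O p) z = T := by
    obtain ⟨J, hJ1, hJ2⟩ := 𝒜.h.hom
    have h1 := hJ2 2 D.m (by rw [D.F_coeff]; exact isUnit_one)
    have h2 := integral_of_eq (F := TF O p) ![1, 1, 1] 2 (D.m * p ^ J) (by
      intro τ
      fin_cases τ
      · exact Nat.one_pos
      · exact Nat.one_pos
      · exact Nat.one_pos) 𝒜.G (by
        have h3 : (![1, 1, 1] : Fin 3 → ℕ) 2 * (D.m * p ^ J) = D.m * p ^ J := by simp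
        rw [h3]; exact hJ1) h1 ![1, algebraMap _ _ u', T] (by
      intro τ hτ
      fin_cases τ
      · exact ⟨1, by simp⟩
      · exact ⟨u', rfl⟩
      · exact absurd rfl hτ) hpt.e₁
    exact h2
  have hw : ∀ i, ∃ z : PreTilt O p, algebraMap _ (TF O p) z = w i := by
    intro i
    obtain ⟨J, hJ1, hJ2⟩ := (𝒜.hH i).hom
    have h1 := hJ2 3 1 (by rw [Fw_coeff]; exact isUnit_one)
    rw [one_mul] at h1
    have h2 := integral_of_eq (F := TF O p) ![1, 1, 1, D.D + 1] 3 (p ^ J) (by
      intro τ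
      fin_cases τ
      · exact Nat.one_pos
      · exact Nat.one_pos
      · exact Nat.one_pos
      · exact Nat.succ_pos _) (𝒜.H i) hJ1 h1 ![1, algebraMap _ _ u', T, w i] (by
      intro τ hτ
      fin_cases τ
      · exact ⟨1, by simp⟩
      · exact ⟨u', rfl⟩
      · exact ⟨T', hT'⟩
      · exact absurd rfl hτ) (hpt.e₂ i)
    exact h2
  choose w' hw' using hw
  refine ⟨a', T', w', ha', hw', ?_, ?_, ?_⟩
  · have h1 := eval_zero 𝒜.G₀ ![a', 1, u'] _ (by
      intro i
      fin_cases i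
      · exact ha'
      · simp
      · rfl) hpt.e₀
    have h2 := dvd_self 𝒜.h₀ _ h1
    have h3 : (fun i => PreTilt.untilt ((![a', 1, u'] : Fin 3 → PreTilt O p) i)) =
        ![PreTilt.untilt a', 1, PreTilt.untilt u'] := by
      ext i
      fin_cases i
      · rfl
      · simp
      · rfl
    rw [h3, eval_F₀] at h2
    exact h2
  · have h1 := eval_zero 𝒜.G ![1, u', T'] _ (by
      intro i
      fin_cases i
      · simp
      · rfl
      · exact hT') hpt.e₁
    have h2 := dvd_self 𝒜.h _ h1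
    have h3 : (fun i => PreTilt.untilt ((![1, u', T'] : Fin 3 → PreTilt O p) i)) =
        ![1, PreTilt.untilt u', PreTilt.untilt T'] := by
      ext i
      fin_cases i
      · simp
      · rfl
      · rfl
    rw [h3] at h2
    exact h2
  · intro i
    have h1 := eval_zero (𝒜.H i) ![1, u', T', w' i] _ (by
      intro i
      fin_cases i
      · simp
      · rfl
      · exact hT'
      · exact hw' _) (hpt.e₂ i)
    have h2 := dvd_self (𝒜.hH i) _ h1
    have h3 : (fun j => PreTilt.untilt ((![1, u', T', w' i] : Fin 4 → PreTilt O p) j)) =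
        ![1, PreTilt.untilt u', PreTilt.untilt T', PreTilt.untilt (w' i)] := by
      ext j
      fin_cases j
      · simp
      · rfl
      · rfl
      · rfl
    rw [h3] at h2
    have h4 := eval_Fw (D := D) i ![1, PreTilt.untilt u', PreTilt.untilt T']
      (PreTilt.untilt (w' i))
    rw [← h4]
    exact h2

/-- values of `δ` at `(x, 1)` for `x` not a unit -/
theorem isUnit_delta (x : O) (hx : ¬IsUnit x) :
    IsUnit (MvPolynomial.eval ![x, 1] D.δ) := by
  have h1 : x ∣ MvPolynomial.eval ![x, 1] D.δ - 1 := by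
    have h2 := dvd_eval₂_sub (RingHom.id O) x ![x, 1] ![0, 1] (by
      intro i
      fin_cases i <;> simp) D.δ
    rw [MvPolynomial.eval₂_id, MvPolynomial.eval₂_id] at h2
    have h3 : MvPolynomial.eval ![0, 1] D.δ = 1 := by
      rw [MvPolynomial.eval_eq', Finset.sum_eq_single (Finsupp.single 1 D.D)]
      · rw [D.δ_coeff, one_mul]
        simp [Fin.prod_univ_two]
      · intro d hd hne
        have h4 := hom_deg D.δ_hom hd 1
        have h5 : d 0 + d 1 = D.D := by
          have := D.δ_hom (MvPolynomial.mem_support_iff.mp hd)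
          rw [← this]
          simp [Finsupp.weight_apply, Finsupp.sum_fintype]
        have h6 : d 0 ≠ 0 := by
          intro h0
          exact hne (h4.2 (by omega))
        rw [Fin.prod_univ_two]
        simp [h6]
      · intro h
        rw [MvPolynomial.notMem_support_iff, D.δ_coeff] at h
        exact absurd h one_ne_zero
    rwa [h3] at h2
  obtain ⟨c, hc⟩ := h1
  have h2 : MvPolynomial.eval ![x, 1] D.δ = 1 + x * c := by linear_combination hc
  rw [h2]
  exact isUnit_one_add_mul hx c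

theorem case2 (𝒜 : ApproxData p D M) (hM : 1 ≤ M) (a u T : TF O p) (z : PreTilt O p)
    (hz : ¬IsUnit z) (hzu : algebraMap _ (TF O p) z = u⁻¹) (hu0 : u ≠ 0)
    (w : Fin (n + 1) → TF O p)
    (hpt : IsPt 𝒜 (algebraMap (PreTilt O p) (TF O p)) a u T w) :
    ∃ c : PreTilt O p, IsUnit c ∧ algebraMap _ (TF O p) c = algebraMap _ (TF O p) z ^ D.D * a := by
  obtain ⟨J, hJ1, hJ2⟩ := 𝒜.h₀.hom
  have h1 := hJ2 0 1 (by rw [F₀_coeff_zero]; exact isUnit_one)
  rw [one_mul] at h1
  have h0 : MvPolynomial.eval₂ (algebraMap (PreTilt O p) (TF O p))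
      ![algebraMap _ (TF O p) z ^ D.D * a, algebraMap _ (TF O p) z, 1] 𝒜.G₀ = 0 := by
    have h2 := eval₂_weighted hJ1 (algebraMap (PreTilt O p) (TF O p)) ![a, 1, u]
      (algebraMap _ (TF O p) z)
    rw [hpt.e₀, mul_zero] at h2
    rw [← h2]
    congr 1
    ext i
    fin_cases i
    · simp
    · simp
    · simp [hzu, hu0]
  obtain ⟨c, hc⟩ := integral_of_eq (F := TF O p) ![D.D, 1, 1] 0 (p ^ J) (by
      intro τ
      fin_cases τ
      · exact D.D_pos
      · exact Nat.one_pos
      · exact Nat.one_pos) 𝒜.G₀ hJ1 h1 ![algebraMap _ (TF O p) z ^ D.D * a,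
        algebraMap _ (TF O p) z, 1] (by
      intro τ hτ
      fin_cases τ
      · exact absurd rfl hτ
      · exact ⟨z, rfl⟩
      · exact ⟨1, by simp⟩) h0
  refine ⟨c, ?_, hc⟩
  have h3 := eval_zero 𝒜.G₀ ![c, z, 1] _ (by
      intro i
      fin_cases i
      · exact hc
      · rfl
      · simp) h0
  have h4 := dvd_self 𝒜.h₀ _ h3
  have h5 : (fun i => PreTilt.untilt ((![c, z, 1] : Fin 3 → PreTilt O p) i)) =
      ![PreTilt.untilt c, PreTilt.untilt z, 1] := by
    ext i
    fin_cases i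
    · rfl
    · rfl
    · simp
  rw [h5, eval_F₀] at h4
  have h6 := isUnit_delta (D := D) (PreTilt.untilt z) (fun h => hz (isUnit_of_untilt h))
  have h7 : (p : O) ∣ PreTilt.untilt c - MvPolynomial.eval ![PreTilt.untilt z, 1] D.δ :=
    (dvd_pow_self _ (by omega)).trans h4
  apply isUnit_of_untilt
  obtain ⟨d, hd⟩ := h7
  obtain ⟨x, hx⟩ := h6
  have h8 : PreTilt.untilt c = x * (1 + p * (d * ((x⁻¹ : Oˣ) : O))) := by
    have h9 : (x : O) * ((x⁻¹ : Oˣ) : O) = 1 := Units.mul_inv x
    rw [← hx] at hd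
    linear_combination hd - (p * d : O) * h9
  rw [h8]
  exact x.isUnit.mul (isUnit_one_add_mul Fact.out _)

end tilt

section vn

variable {W : Type u} [CommRing W] [IsDomain W] [ValuationRing W] {F : Type u} [Field F]
  [Algebra W F] [IsFractionRing W F] {ϖ : W}

theorem vn_le_of_dvd (h : PU ϖ) {x : W} {m : ℕ} (hx : ϖ ^ m ∣ x) :
    vn F ϖ (algebraMap W F x) ≤ (1 / 2) ^ m := by
  obtain ⟨c, rfl⟩ := hx
  rw [map_mul, map_pow, vn_mul h, vn_pow h, vn_self h]
  exact mul_le_of_le_one_right (by positivity) (vn_le_one c)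

theorem dvd_of_vn_lt (h : PU ϖ) {x : W} {m : ℕ} (hx : vn F ϖ (algebraMap W F x) < (1 / 2) ^ m) :
    ϖ ^ m ∣ x := by
  have h1 : vn F ϖ (algebraMap W F x / algebraMap W F ϖ ^ m) < 1 := by
    have h2 : vn F ϖ (algebraMap W F x / algebraMap W F ϖ ^ m) * (1 / 2) ^ m =
        vn F ϖ (algebraMap W F x) := by
      rw [← vn_self (F := F) h, ← vn_pow h, ← vn_mul h,
        div_mul_cancel₀ _ (pow_ne_zero _ h.map_ne)]
    by_contra h3
    push Not at h3
    have h4 : (0 : ℝ) < (1 / 2) ^ m := by positivity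
    nlinarith
  obtain ⟨c, hc⟩ := exists_of_vn_lt h h1
  refine ⟨c, IsFractionRing.injective W F ?_⟩
  rw [map_mul, map_pow, hc, mul_div_cancel₀ _ (pow_ne_zero _ h.map_ne)]

theorem vn_unit (h : PU ϖ) {x : W} (hx : IsUnit x) : vn F ϖ (algebraMap W F x) = 1 := by
  obtain ⟨x, rfl⟩ := hx
  apply le_antisymm (vn_le_one _)
  have h1 : vn F ϖ (algebraMap W F (x : W)) * vn F ϖ (algebraMap W F ((x⁻¹ : Wˣ) : W)) = 1 := by
    rw [← vn_mul h, ← map_mul, Units.mul_inv, map_one, vn_one h]
  have h2 := vn_le_one (F := F) (ϖ := ϖ) ((x⁻¹ : Wˣ) : W)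
  have h3 := vn_nonneg (ϖ := ϖ) (algebraMap W F (x : W))
  have h4 := vn_nonneg (ϖ := ϖ) (algebraMap W F ((x⁻¹ : Wˣ) : W))
  nlinarith

end vn

section field

variable {K : Type u} [Field K] {O : ValuationSubring K} {p : ℕ}
  {n : ℕ} {𝔮 : Ideal (MvPolynomial (Fin (n + 1)) K)}

/-- The equation of the `i`-th coordinate over the point with parameter `α`. -/
def PF (D : AlgData O O.subtype n 𝔮) (i : Fin (n + 1)) (α : O) : Polynomial O :=
  pol (D.f i) 2 ![D.δ₀, D.δ₀ * α, 0]

/-- The equation of the parameters of the points over `0`. -/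
def PD (D : AlgData O O.subtype n 𝔮) : Polynomial O := pol D.δ 1 ![1, 0]

theorem PD_eval (D : AlgData O O.subtype n 𝔮) (u : O) :
    (PD D).eval u = MvPolynomial.eval ![1, u] D.δ := by
  rw [PD, Polynomial.eval, pol_eval₂, MvPolynomial.eval₂_id]
  congr 2
  ext i
  fin_cases i <;> simp

theorem PD_natDegree_le (D : AlgData O O.subtype n 𝔮) : (PD D).natDegree ≤ D.D :=
  pol_natDegree D.δ_hom _ _

theorem PD_coeff (D : AlgData O O.subtype n 𝔮) : (PD D).coeff D.D = 1 := by
  rw [PD, pol_coeff D.δ_hom, D.δ_coeff]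

theorem PD_monic (D : AlgData O O.subtype n 𝔮) : (PD D).Monic :=
  Polynomial.monic_of_natDegree_le_of_coeff_eq_one _ (PD_natDegree_le D) (PD_coeff D)

theorem PD_natDegree (D : AlgData O O.subtype n 𝔮) : (PD D).natDegree = D.D :=
  le_antisymm (PD_natDegree_le D) (Polynomial.le_natDegree_of_ne_zero (by
    rw [PD_coeff]; exact one_ne_zero))

theorem PF_natDegree_le (D : AlgData O O.subtype n 𝔮) (i : Fin (n + 1)) (α : O) :
    (PF D i α).natDegree ≤ D.e := pol_natDegree (D.f_hom i) _ _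

theorem PF_coeff (D : AlgData O O.subtype n 𝔮) (i : Fin (n + 1)) (α : O) :
    (PF D i α).coeff D.e = D.φ := by
  rw [PF, pol_coeff (D.f_hom i), D.f_coeff]

theorem PF_natDegree (D : AlgData O O.subtype n 𝔮) (i : Fin (n + 1)) (α : O) :
    (PF D i α).natDegree = D.e :=
  le_antisymm (PF_natDegree_le D i α) (Polynomial.le_natDegree_of_ne_zero (by
    rw [PF_coeff]; exact D.φ_ne))

theorem PF_sub_dvd (D : AlgData O O.subtype n 𝔮) (i : Fin (n + 1)) (α u : O) (j : ℕ) :
    u - α ∣ (PF D i α).coeff j - (PF D i u).coeff j := by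
  apply pol_sub_dvd
  intro l
  fin_cases l
  · simp
  · refine ⟨-D.δ₀, ?_⟩
    simp
    ring
  · simp

theorem PF_eval (D : AlgData O O.subtype n 𝔮) (i : Fin (n + 1)) (a u w : O) (ha : a ≠ 0) :
    (PF D i u).eval₂ O.subtype ((w : K) / a) * (a : K) ^ D.e =
      (MvPolynomial.eval ![D.δ₀ * a, D.δ₀ * u * a, w] (D.f i) : O) := by
  have ha' : (a : K) ≠ 0 := fun h => ha (Subtype.ext h)
  have h1 := eval₂_weighted (D.f_hom i) O.subtype ![(D.δ₀ : K), D.δ₀ * u, w / a] (a : K)
  rw [PF, pol_eval₂]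
  have h2 : (fun j : Fin 3 => if j = 2 then ((w : K) / a) else
      O.subtype ((![D.δ₀, D.δ₀ * u, 0] : Fin 3 → O) j)) = ![(D.δ₀ : K), D.δ₀ * u, w / a] := by
    ext j
    fin_cases j <;> simp
  rw [h2, mul_comm, ← h1]
  have h3 : ((MvPolynomial.eval ![D.δ₀ * a, D.δ₀ * u * a, w] (D.f i) : O) : K) =
      O.subtype (MvPolynomial.eval ![D.δ₀ * a, D.δ₀ * u * a, w] (D.f i)) := rfl
  rw [h3, ← MvPolynomial.eval₂_id, MvPolynomial.eval₂_comp_left, RingHom.comp_id]
  congr 1
  ext j
  fin_cases j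
  · simp [mul_comm]
  · simp [mul_comm]
  · simp [mul_div_cancel₀ _ ha']

/-- the constant `r₁` -/
def r1 (D : AlgData O O.subtype n 𝔮) (ν : AbsoluteValue K ℝ) (r : ℝ) : ℝ :=
  ν (D.φ : K) * r ^ D.e / (1 / ν (D.φ : K)) ^ D.e

theorem near_coord [IsAlgClosed K] (D : AlgData O O.subtype n 𝔮) (ν : AbsoluteValue K ℝ)
    (hν : ∀ x y, ν (x + y) ≤ max (ν x) (ν y)) (hO : ∀ x : O, ν (x : K) ≤ 1) (r : ℝ) (hr : 0 < r)
    (i : Fin (n + 1)) (u : O) (v : K)
    (h1 : ν ((MvPolynomial.eval ![1, u] D.δ : O) : K) ≤ r1 D ν r ^ D.D)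
    (h2 : ν ((PF D i u).eval₂ O.subtype v) ≤ 1)
    (h3 : ν ((PF D i u).eval₂ O.subtype v) ≤ ν (D.φ : K) * r ^ D.e) :
    ∃ α : O, (PD D).eval α = 0 ∧ ∃ c : K, c ∈ ((PF D i α).map O.subtype).roots ∧
      ν (v - c) ≤ r ∧ ν v ≤ 1 / ν (D.φ : K) := by
  have hφ : 0 < ν (D.φ : K) := ν.pos fun h => D.φ_ne (Subtype.ext h)
  have hφ1 : ν (D.φ : K) ≤ 1 := hO _
  have hB : 1 ≤ 1 / ν (D.φ : K) := by rwa [le_div_iff₀ hφ, one_mul]
  have hr1 : 0 < r1 D ν r := by
    unfold r1; positivity
  -- bound for `v`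
  have hv : ν v ≤ 1 / ν (D.φ : K) := by
    have h4 := root_bound ν hν ((PF D i u).map O.subtype) D.e D.e_pos
      (Polynomial.natDegree_map_le.trans (PF_natDegree_le D i u))
      (fun j => by rw [Polynomial.coeff_map]; exact hO _)
      (by
        rw [Polynomial.coeff_map, PF_coeff]
        exact fun h => D.φ_ne (Subtype.ext h)) v
      (by rw [Polynomial.eval_map]; exact h2)
    rw [Polynomial.coeff_map, PF_coeff] at h4
    exact h4
  -- a root of `δ(1, X)`
  have hmonic : ((PD D).map O.subtype).Monic := (PD_monic D).map _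
  have hdeg : ((PD D).map O.subtype).natDegree = D.D := by
    rw [(PD_monic D).natDegree_map, PD_natDegree]
  obtain ⟨α, hα, hα2⟩ := near_root ν ((PD D).map O.subtype) hmonic.ne_zero
    (by rw [hdeg]; exact D.D_pos) (r1 D ν r) hr1 (u : K) (by
      rw [hmonic.leadingCoeff, map_one, one_mul, hdeg]
      have : ((PD D).map O.subtype).eval (u : K) =
          ((MvPolynomial.eval ![1, u] D.δ : O) : K) := by
        rw [Polynomial.eval_map]
        change (PD D).eval₂ O.subtype (O.subtype u) = _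
        rw [Polynomial.eval₂_at_apply, PD_eval]
        rfl
      rw [this]
      exact h1)
  have hα3 : (PD D).eval₂ O.subtype α = 0 := by
    rw [← Polynomial.eval_map]
    exact (Polynomial.mem_roots'.mp hα).2
  obtain ⟨α, rfl⟩ : ∃ α' : O, (α' : K) = α :=
    (IsIntegrallyClosed.isIntegral_iff (R := O) (K := K)).mp ⟨PD D, PD_monic D, hα3⟩
  have hα4 : (PD D).eval α = 0 := by
    apply Subtype.ext
    have : (PD D).eval₂ O.subtype (O.subtype α) = O.subtype ((PD D).eval α) :=
      Polynomial.eval₂_at_apply _ _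
    exact this.symm.trans hα3
  refine ⟨α, hα4, ?_⟩
  -- the value at `v` of the equation over `α`
  have h5 : ν ((PF D i α).eval₂ O.subtype v) ≤ ν (D.φ : K) * r ^ D.e := by
    have h6 : (PF D i α).eval₂ O.subtype v = (PF D i u).eval₂ O.subtype v +
        ∑ j ∈ Finset.range (D.e + 1),
          (((PF D i α).coeff j - (PF D i u).coeff j : O) : K) * v ^ j := by
      rw [Polynomial.eval₂_eq_sum_range' O.subtype (n := D.e + 1)
        (Nat.lt_succ_of_le (PF_natDegree_le D i α)),
        Polynomial.eval₂_eq_sum_range' O.subtype (n := D.e + 1)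
        (Nat.lt_succ_of_le (PF_natDegree_le D i u)), ← Finset.sum_add_distrib]
      refine Finset.sum_congr rfl fun j _ => ?_
      have : O.subtype ((PF D i α).coeff j) = O.subtype ((PF D i u).coeff j) +
          (((PF D i α).coeff j - (PF D i u).coeff j : O) : K) := by
        push_cast
        change (((PF D i α).coeff j : O) : K) = (((PF D i u).coeff j : O) : K) + _
        ring
      rw [this]
      ring
    rw [h6]
    refine (hν _ _).trans (max_le h3 ?_)
    apply sum_le ν hν _ _ _ (by positivity)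
    intro j hj
    rw [Finset.mem_range] at hj
    obtain ⟨d, hd⟩ := PF_sub_dvd D i α u j
    rw [hd, map_mul, map_pow]
    have h7 : ν (((u - α) * d : O) : K) ≤ r1 D ν r := by
      push_cast
      rw [map_mul]
      exact (mul_le_of_le_one_right (ν.nonneg _) (hO d)).trans hα2
    have h8 : ν v ^ j ≤ (1 / ν (D.φ : K)) ^ D.e :=
      (pow_le_pow_left₀ (ν.nonneg _) hv j).trans (pow_le_pow_right₀ hB (by omega))
    calc ν (((u - α) * d : O) : K) * ν v ^ j
        ≤ r1 D ν r * (1 / ν (D.φ : K)) ^ D.e := by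
          apply mul_le_mul h7 h8 (by positivity) hr1.le
      _ = ν (D.φ : K) * r ^ D.e := by
          rw [r1, div_mul_cancel₀]
          positivity
  have hne : (PF D i α).map O.subtype ≠ 0 := by
    intro h
    have := congrArg (fun P => P.coeff D.e) h
    simp only [Polynomial.coeff_map, PF_coeff, Polynomial.coeff_zero] at this
    exact D.φ_ne (Subtype.ext this)
  have hinj : Function.Injective O.subtype := Subtype.coe_injective
  have hdeg2 : ((PF D i α).map O.subtype).natDegree = D.e := by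
    rw [Polynomial.natDegree_map_eq_of_injective hinj, PF_natDegree]
  obtain ⟨c, hc1, hc2⟩ := near_root ν ((PF D i α).map O.subtype) hne
    (by rw [hdeg2]; exact D.e_pos) r hr v (by
      rw [Polynomial.eval_map, Polynomial.leadingCoeff, hdeg2, Polynomial.coeff_map, PF_coeff]
      exact h5)
  exact ⟨c, hc1, hc2, hv⟩

end field

end NEARC

open NEARC in
theorem nearc_proof {K : Type u} [Field K] [IsAlgClosed K] (O : ValuationSubring K) (p : ℕ)
    [Fact p.Prime] [Fact ¬IsUnit (p : O)] [IsAdicComplete (Ideal.span {(p : O)}) O] (b : TB O p)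
    (hPUX : Stmt_PUX O p b) (hTN : Stmt_TN O p b) (hCov : Stmt_Cover O p b) :
    Stmt_Nearc O p b := by
  classical
  intro n 𝔮 D ρ₀ hρ₀
  have hϖ : PU b.ϖ := hPUX.1
  have hp : PU (p : O) := (hPUX.2 K (RingHom.id K) O selfExt).1
  have hT1 : ∀ x : PreTilt O p, nk b (algebraMap _ (TF O p) x) =
      vn K (p : O) ((PreTilt.untilt x : O) : K) := by
    intro x
    have h1 := (hTN.2 K (RingHom.id K) O selfExt).1 x
    rw [nT, nC, TB.ϖV, tmap_selfExt] at h1
    exact h1
  have hkmul : ∀ x y, nk b (x * y) = nk b x * nk b y := fun x y => vn_mul hϖ x y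
  have hkpow : ∀ x (j : ℕ), nk b (x ^ j) = nk b x ^ j := fun x j => vn_pow hϖ x j
  have hknn : ∀ x, 0 ≤ nk b x := fun x => vn_nonneg x
  have hkϖ : nk b (algebraMap _ (TF O p) b.ϖ) = 1 / 2 := vn_self hϖ
  have hk0 : nk b 0 = 0 := vn_zero hϖ
  let ν : AbsoluteValue K ℝ := vabs hp
  have hνv : ∀ x, ν x = vn K (p : O) x := fun x => rfl
  have hν : ∀ x y, ν (x + y) ≤ max (ν x) (ν y) := fun x y => vn_add_le hp x y
  have hνO : ∀ x : O, ν (x : K) ≤ 1 := fun x => vn_le_one (F := K) x
  have hφ : 0 < ν (D.φ : K) := ν.pos fun h => D.φ_ne (Subtype.ext h)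
  have hB : 1 ≤ 1 / ν (D.φ : K) := by rw [le_div_iff₀ hφ, one_mul]; exact hνO _
  obtain ⟨j₀, hj₀⟩ : ∃ j : ℕ, (1 / 2 : ℝ) ^ j < ν (D.φ : K) :=
    exists_pow_lt_of_lt_one hφ (by norm_num)
  obtain ⟨N₀, hN₀⟩ : ∃ N : ℕ, (1 / 2 : ℝ) ^ N < ρ₀ * (1 / 2) ^ j₀ :=
    exists_pow_lt_of_lt_one (by positivity) (by norm_num)
  set π : O := PreTilt.untilt b.ϖ with hπdef
  have hπ : ν (π : K) = 1 / 2 := by
    rw [hνv, hπdef, ← hT1]
    exact hkϖ
  let Cs : Finset K := (PD D).roots.toFinset.biUnion fun α => Finset.univ.biUnion fun i =>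
    ((PF D i α).map O.subtype).roots.toFinset
  let CO : Finset O := (Cs.image (fun c => (π : K) ^ j₀ * c)).preimage (fun x : O => (x : K))
    Subtype.coe_injective.injOn
  choose m s hms using fun c' : O => hCov c' N₀
  have hm₀ : ∀ c' ∈ CO, m c' ≤ CO.sup m := fun c' hc' => Finset.le_sup hc'
  set m₀ := CO.sup m with hm₀def
  set r : ℝ := (1 / 2) ^ (m₀ + 1) with hrdef
  have hr : 0 < r := by positivity
  have hrB : r ≤ 1 / ν (D.φ : K) := by
    refine le_trans ?_ hB
    exact pow_le_one₀ (by norm_num) (by norm_num)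
  have hr1 : 0 < r1 D ν r := by
    unfold r1; positivity
  refine ⟨min (r1 D ν r ^ D.D) (1 / 2), CO.biUnion (fun c' => (s c').image fun z =>
    algebraMap _ (TF O p) z / (algebraMap _ (TF O p) b.ϖ) ^ j₀), ?_, ?_, ?_⟩
  · exact lt_min (by positivity) (by norm_num)
  · exact (min_le_right _ _).trans_lt (by norm_num)
  intro s₁ hs₁
  obtain ⟨M₀, hM₀⟩ : ∃ M : ℕ, (1 / 2 : ℝ) ^ M < min (r1 D ν r ^ D.D)
      (min (s₁ ^ D.e) (ν (D.φ : K) * r ^ D.e * s₁ ^ D.e)) :=
    exists_pow_lt_of_lt_one (by positivity) (by norm_num)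
  rw [lt_min_iff, lt_min_iff] at hM₀
  refine ⟨M₀ + 1, fun M hM 𝒜 a u T w hpt ha1 ha2 i => ?_⟩
  have hMM : (1 / 2 : ℝ) ^ M ≤ (1 / 2) ^ M₀ :=
    pow_le_pow_of_le_one (by norm_num) (by norm_num) (by omega)
  have ha0 : a ≠ 0 := by
    rintro rfl
    rw [hk0] at ha1
    linarith
  -- `u` is integral
  obtain ⟨u', rfl⟩ : ∃ u' : PreTilt O p, algebraMap _ (TF O p) u' = u := by
    rcases (ValuationRing.iff_isInteger_or_isInteger (PreTilt O p) (TF O p)).mp inferInstance u
      with ⟨z, hz⟩ | ⟨z, hz⟩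
    · exact ⟨z, hz⟩
    by_cases hu0 : u = 0
    · exact ⟨0, by rw [hu0, map_zero]⟩
    by_cases hzu : IsUnit z
    · obtain ⟨z, rfl⟩ := hzu
      refine ⟨((z⁻¹ : (PreTilt O p)ˣ) : PreTilt O p), ?_⟩
      have h1 : algebraMap _ (TF O p) (z : PreTilt O p) *
          algebraMap _ (TF O p) ((z⁻¹ : (PreTilt O p)ˣ) : PreTilt O p) = 1 := by
        rw [← map_mul, Units.mul_inv, map_one]
      rw [hz] at h1
      field_simp at h1
      exact h1
    exfalso
    obtain ⟨c, hc1, hc2⟩ := case2 𝒜 (by omega) a u T z hzu hz hu0 w hpt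
    have h1 : nk b (algebraMap _ (TF O p) c) = 1 := vn_unit hϖ hc1
    rw [hc2, hkmul, hkpow] at h1
    have h2 : nk b (algebraMap _ (TF O p) z) ^ D.D ≤ 1 :=
      pow_le_one₀ (hknn _) (vn_le_one z)
    have h3 : nk b a ≤ 1 / 2 := ha2.trans (min_le_right _ _)
    have h4 := hknn a
    have h5 : 0 ≤ nk b (algebraMap _ (TF O p) z) ^ D.D := pow_nonneg (hknn _) _
    nlinarith
  obtain ⟨a', T', w', rfl, hw', hc1, hc2, hc3⟩ := case1 𝒜 a T u' w hpt
  set aO : O := PreTilt.untilt a' with haO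
  set uO : O := PreTilt.untilt u' with huO
  have haν : nk b (algebraMap _ (TF O p) a') = ν (aO : K) := hT1 a'
  rw [haν] at ha1 ha2
  have haO0 : aO ≠ 0 := by
    intro h
    rw [h] at ha1
    have : ν ((0 : O) : K) = 0 := by
      change ν (0 : K) = 0
      exact map_zero ν
    rw [this] at ha1
    linarith
  have haOK : (aO : K) ≠ 0 := fun h => haO0 (Subtype.ext h)
  set v : K := ((PreTilt.untilt (w' i) : O) : K) / aO with hv
  have hf := cong_f D ((p : O) ^ M) aO uO (PreTilt.untilt T') (fun i => PreTilt.untilt (w' i))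
    hc1 hc2 hc3 i
  have hf2 : ν ((PF D i uO).eval₂ O.subtype v) * ν (aO : K) ^ D.e ≤ (1 / 2) ^ M := by
    rw [← map_pow, ← map_mul, hv, PF_eval D i aO uO (PreTilt.untilt (w' i)) haO0]
    exact vn_le_of_dvd (F := K) hp hf
  have hs₁e : 0 < s₁ ^ D.e := by positivity
  have hae : s₁ ^ D.e ≤ ν (aO : K) ^ D.e := pow_le_pow_left₀ hs₁.le ha1 _
  have hf3 : ν ((PF D i uO).eval₂ O.subtype v) * s₁ ^ D.e ≤ (1 / 2) ^ M :=
    (mul_le_mul_of_nonneg_left hae (ν.nonneg _)).trans hf2
  have hf4 : ν ((PF D i uO).eval₂ O.subtype v) ≤ 1 := by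
    by_contra h
    push Not at h
    have := hM₀.2.1
    nlinarith
  have hf5 : ν ((PF D i uO).eval₂ O.subtype v) ≤ ν (D.φ : K) * r ^ D.e := by
    by_contra h
    push Not at h
    have h1 := hM₀.2.2
    have h2 := mul_lt_mul_of_pos_right h hs₁e
    linarith
  have hδ : ν ((MvPolynomial.eval ![1, uO] D.δ : O) : K) ≤ r1 D ν r ^ D.D := by
    have h1 : ((MvPolynomial.eval ![1, uO] D.δ : O) : K) =
        (aO : K) + -((aO - MvPolynomial.eval ![1, uO] D.δ : O) : K) := by
      push_cast; ring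
    rw [h1]
    refine (hν _ _).trans (max_le (ha2.trans (min_le_left _ _)) ?_)
    rw [ν.map_neg]
    have h2 : ν ((aO - MvPolynomial.eval ![1, uO] D.δ : O) : K) ≤ (1 / 2) ^ M :=
      vn_le_of_dvd (F := K) hp hc1
    exact h2.trans (hMM.trans hM₀.1.le)
  obtain ⟨α, hα, c, hc, hvc, hvB⟩ := near_coord D ν hν hνO r hr i uO v hδ hf4 hf5
  -- the constant
  have hcB : ν c ≤ 1 / ν (D.φ : K) := by
    have h1 : c = v + -(v - c) := by ring
    rw [h1]
    refine (hν _ _).trans (max_le hvB ?_)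
    rw [ν.map_neg]
    exact hvc.trans hrB
  have hlt : (1 / 2 : ℝ) ^ j₀ * (1 / ν (D.φ : K)) < 1 := by
    rw [mul_one_div, div_lt_one hφ]
    exact hj₀
  obtain ⟨c', hc'⟩ : ∃ c' : O, (c' : K) = (π : K) ^ j₀ * c := by
    apply exists_of_vn_lt hp
    rw [← hνv, map_mul, map_pow, hπ]
    exact (mul_le_mul_of_nonneg_left hcB (by positivity)).trans_lt hlt
  have hc'CO : c' ∈ CO := by
    rw [Finset.mem_preimage, Finset.mem_image]
    refine ⟨c, ?_, hc'.symm⟩
    rw [Finset.mem_biUnion]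
    refine ⟨α, ?_, ?_⟩
    · rw [Multiset.mem_toFinset, Polynomial.mem_roots (PD_monic D).ne_zero]
      exact hα
    · rw [Finset.mem_biUnion]
      exact ⟨i, Finset.mem_univ i, Multiset.mem_toFinset.mpr hc⟩
  -- the coordinate
  have haT : algebraMap _ (TF O p) a' ≠ 0 := by
    intro h
    have h1 : a' = 0 := IsFractionRing.injective (PreTilt O p) (TF O p) (h.trans (map_zero _).symm)
    apply haO0
    rw [haO, h1, untilt_zero]
  have hϖT : algebraMap _ (TF O p) b.ϖ ≠ 0 := hϖ.map_ne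
  have hnw : nk b (w i / algebraMap _ (TF O p) a') = ν v := by
    have h1 : nk b (w i / algebraMap _ (TF O p) a') * nk b (algebraMap _ (TF O p) a') =
        nk b (w i) := by
      rw [← hkmul, div_mul_cancel₀ _ haT]
    have h2 : ν v * ν (aO : K) = ν ((PreTilt.untilt (w' i) : O) : K) := by
      rw [← map_mul, hv, div_mul_cancel₀ _ haOK]
    rw [haν, ← hw' i, hT1, ← hνv, ← h2] at h1
    rw [← hw' i]
    exact mul_right_cancel₀ (ν.pos haOK).ne' h1
  obtain ⟨y, hy⟩ : ∃ y : PreTilt O p, algebraMap _ (TF O p) y =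
      (algebraMap _ (TF O p) b.ϖ) ^ j₀ * (w i / algebraMap _ (TF O p) a') := by
    apply exists_of_vn_lt hϖ
    change nk b _ < 1
    rw [hkmul, hkpow, hkϖ, hnw]
    exact (mul_le_mul_of_nonneg_left hvB (by positivity)).trans_lt hlt
  have hyv : ((PreTilt.untilt y : O) : K) = (π : K) ^ j₀ * v := by
    have h1 : y * a' = b.ϖ ^ j₀ * w' i := by
      apply IsFractionRing.injective (PreTilt O p) (TF O p)
      rw [map_mul, map_mul, map_pow, hy, hw']
      field_simp
    have h2 := congrArg (fun x => ((PreTilt.untilt x : O) : K)) h1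
    simp only [map_mul, map_pow] at h2
    push_cast at h2
    rw [hv, ← mul_div_assoc, eq_div_iff haOK]
    exact h2
  have hdvd : (p : O) ^ m c' ∣ PreTilt.untilt y - c' := by
    apply dvd_of_vn_lt (F := K) hp
    change ν ((PreTilt.untilt y - c' : O) : K) < _
    have h1 : ((PreTilt.untilt y - c' : O) : K) = (π : K) ^ j₀ * (v - c) := by
      push_cast
      rw [hyv, hc']
      ring
    rw [h1, map_mul, map_pow, hπ]
    calc (1 / 2 : ℝ) ^ j₀ * ν (v - c) ≤ 1 * r := by
          apply mul_le_mul (pow_le_one₀ (by norm_num) (by norm_num)) hvc (ν.nonneg _) zero_le_one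
      _ = (1 / 2) ^ (m₀ + 1) := one_mul _
      _ < (1 / 2) ^ m c' := by
          apply pow_lt_pow_right_of_lt_one₀ (by norm_num) (by norm_num)
          have := hm₀ c' hc'CO
          omega
  obtain ⟨z, hz, hzy⟩ := hms c' y hdvd
  refine ⟨algebraMap _ (TF O p) z / (algebraMap _ (TF O p) b.ϖ) ^ j₀, ?_, ?_⟩
  · rw [Finset.mem_biUnion]
    exact ⟨c', hc'CO, Finset.mem_image_of_mem _ hz⟩
  · have h1 : nk b (algebraMap _ (TF O p) (y - z)) ≤ (1 / 2) ^ N₀ := vn_le_of_dvd hϖ hzy
    have h2 : (w i / algebraMap _ (TF O p) a' -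
        algebraMap _ (TF O p) z / (algebraMap _ (TF O p) b.ϖ) ^ j₀) *
        (algebraMap _ (TF O p) b.ϖ) ^ j₀ = algebraMap _ (TF O p) (y - z) := by
      rw [map_sub, hy]
      field_simp
    have h3 := congrArg (nk b) h2
    rw [hkmul, hkpow, hkϖ] at h3
    rw [← h3] at h1
    have h4 : (0 : ℝ) < (1 / 2) ^ j₀ := by positivity
    by_contra h5
    push Not at h5
    have h6 := mul_lt_mul_of_pos_right h5 h4
    linarith

end Pool.Agent.DC
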