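import Pool.Agent.DC.StmtsB
import Pool.Agent.LibDb3ab1.Homog

/-!
# Module PTS (Stmt_Pts), squad DC
-/

set_option autoImplicit false
set_option linter.unusedSectionVars false

noncomputable section

namespace Pool.Agent.DC

open scoped Classical
open Pool.Agent.LibDb3ab1

universe u

namespace PTS

section val

variable {W : Type u} [CommRing W] [IsDomain W] [ValuationRing W] {F : Type u} [Field F]
  [Algebra W F] [IsFractionRing W F] {ϖ : W}

theorem vn_neg (h : PU ϖ) (x : F) : vn F ϖ (-x) = vn F ϖ x := by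
  have h1 : vn F ϖ (-1) = 1 := by
    have h2 : vn F ϖ (-1) ^ 2 = 1 := by rw [← vn_pow h, neg_one_sq, vn_one h]
    exact (pow_eq_one_iff_of_nonneg (vn_nonneg _) two_ne_zero).1 h2
  rw [neg_eq_neg_one_mul, vn_mul h, h1, one_mul]

theorem vn_dvd (h : PU ϖ) {x : W} {n : ℕ} (hx : ϖ ^ n ∣ x) :
    vn F ϖ (algebraMap W F x) ≤ (1 / 2) ^ n := by
  obtain ⟨c, rfl⟩ := hx
  rw [map_mul, map_pow, vn_mul h, vn_pow h, vn_self h]
  exact mul_le_of_le_one_right (by positivity) (vn_le_one _)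

theorem dvd_of_vn_lt (h : PU ϖ) {x : W} {n : ℕ}
    (hx : vn F ϖ (algebraMap W F x) < (1 / 2) ^ n) : ϖ ^ n ∣ x := by
  have h0 : algebraMap W F ϖ ^ n ≠ 0 := pow_ne_zero _ h.map_ne
  have h2 : vn F ϖ (algebraMap W F ϖ ^ n) = (1 / 2) ^ n := by rw [vn_pow h, vn_self h]
  have h1 : vn F ϖ (algebraMap W F x / algebraMap W F ϖ ^ n) < 1 := by
    have h3 : vn F ϖ (algebraMap W F x / algebraMap W F ϖ ^ n) * (1 / 2) ^ n < 1 * (1 / 2) ^ n := by
      rw [← h2, ← vn_mul h, div_mul_cancel₀ _ h0, one_mul, h2]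
      exact hx
    exact lt_of_mul_lt_mul_right h3 (by positivity)
  obtain ⟨w, hw⟩ := exists_of_vn_lt h h1
  refine ⟨w, IsFractionRing.injective W F ?_⟩
  rw [map_mul, map_pow, hw, mul_div_cancel₀ _ h0]

theorem exists_of_vn_lt_pow (h : PU ϖ) {x : F} {n : ℕ} (hx : vn F ϖ x < (1 / 2) ^ n) :
    ∃ t : W, algebraMap W F t = x ∧ ϖ ^ n ∣ t := by
  have h0 : vn F ϖ x < 1 := hx.trans_le (pow_le_one₀ (by norm_num) (by norm_num))
  obtain ⟨t, rfl⟩ := exists_of_vn_lt h h0
  exact ⟨t, rfl, dvd_of_vn_lt h hx⟩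

theorem vn_sub_le (h : PU ϖ) (x y : F) : vn F ϖ (x - y) ≤ max (vn F ϖ x) (vn F ϖ y) := by
  rw [sub_eq_add_neg, ← vn_neg h y]
  exact vn_add_le h _ _

theorem vn_eq_of_sub_lt (h : PU ϖ) {x y : F} (hxy : vn F ϖ (x - y) < vn F ϖ y) :
    vn F ϖ x = vn F ϖ y := by
  apply le_antisymm
  · have h1 := vn_add_le h (x - y) y
    rw [sub_add_cancel] at h1
    exact h1.trans (max_le hxy.le le_rfl)
  · have h1 := vn_sub_le h x (x - y)
    rw [sub_sub_cancel] at h1
    rcases le_max_iff.1 h1 with h2 | h2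
    · exact h2
    · exact absurd h2 (not_le.2 hxy)

theorem vn_unit (h : PU ϖ) {x : W} (hx : IsUnit x) : vn F ϖ (algebraMap W F x) = 1 := by
  obtain ⟨y, hy⟩ := hx.exists_right_inv
  apply le_antisymm (vn_le_one _)
  have h1 : vn F ϖ (algebraMap W F x) * vn F ϖ (algebraMap W F y) = 1 := by
    rw [← vn_mul h, ← map_mul, hy, map_one, vn_one h]
  calc (1 : ℝ) = vn F ϖ (algebraMap W F x) * vn F ϖ (algebraMap W F y) := h1.symm
    _ ≤ vn F ϖ (algebraMap W F x) * 1 := by
      gcongr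
      · exact vn_nonneg _
      · exact vn_le_one _
    _ = _ := mul_one _

/-- A weighted homogeneous equation with unit coefficient at a pure power of a variable is an
integral equation. -/
theorem integral_of_weighted {σ : Type} [Fintype σ] {A : Type u} [CommRing A] [Nontrivial A]
    (f : A →+* W) (w : σ → ℕ) (hw : ∀ i, 0 < w i) {E : ℕ} {G : MvPolynomial σ A}
    (hG : G.IsWeightedHomogeneous w E) (τ : σ) (a : ℕ)
    (hu : IsUnit (G.coeff (Finsupp.single τ a))) (y : σ → F) (y' : σ → W)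
    (hy : ∀ i, i ≠ τ → algebraMap W F (y' i) = y i)
    (h0 : MvPolynomial.eval₂ ((algebraMap W F).comp f) y G = 0) :
    ∃ t : W, algebraMap W F t = y τ := by
  have hE : a * w τ = E := by
    have h1 := hG hu.ne_zero
    rw [Finsupp.weight_single, smul_eq_mul] at h1
    exact h1
  rcases (ValuationRing.iff_isInteger_or_isInteger W F).mp inferInstance (y τ) with
    ⟨t, ht⟩ | ⟨z, hz⟩
  · exact ⟨t, ht⟩
  by_cases hyt : y τ = 0
  · exact ⟨0, by rw [map_zero, hyt]⟩
  by_cases hzu : IsUnit z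
  · obtain ⟨v, hv⟩ := hzu.exists_right_inv
    refine ⟨v, ?_⟩
    have h1 : algebraMap W F z * algebraMap W F v = 1 := by rw [← map_mul, hv, map_one]
    rw [hz] at h1
    field_simp at h1
    exact h1
  exfalso
  have hzy : algebraMap W F z * y τ = 1 := by rw [hz, inv_mul_cancel₀ hyt]
  -- the exponents
  have hexp : ∀ d ∈ G.support, d τ ≤ a ∧ (d ≠ Finsupp.single τ a → d τ < a) := by
    intro d hd
    have h1 := hG (MvPolynomial.mem_support_iff.1 hd)
    rw [Finsupp.weight_apply, Finsupp.sum_fintype _ _ (by simp)] at h1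
    simp only [smul_eq_mul] at h1
    rw [← Finset.add_sum_erase _ _ (Finset.mem_univ τ), ← hE] at h1
    have hle : d τ ≤ a := by
      have h2 : d τ * w τ ≤ a * w τ := by omega
      exact Nat.le_of_mul_le_mul_right h2 (hw τ)
    refine ⟨hle, fun hne => lt_of_le_of_ne hle fun heq => hne ?_⟩
    rw [heq] at h1
    have h3 : ∑ x ∈ Finset.univ.erase τ, d x * w x = 0 := by omega
    rw [Finset.sum_eq_zero_iff] at h3
    ext i
    by_cases hi : i = τ
    · rw [hi, Finsupp.single_eq_same, heq]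
    · rw [Finsupp.single_eq_of_ne hi]
      have h4 := h3 i (Finset.mem_erase.2 ⟨hi, Finset.mem_univ i⟩)
      rcases Nat.mul_eq_zero.1 h4 with h5 | h5
      · exact h5
      · exact absurd h5 (hw i).ne'
  let T : (σ →₀ ℕ) → W := fun d =>
    f (G.coeff d) * (∏ i ∈ Finset.univ.erase τ, y' i ^ d i) * z ^ (a - d τ)
  have hT : ∀ d ∈ G.support, algebraMap W F (T d) =
      algebraMap W F z ^ a * (((algebraMap W F).comp f) (G.coeff d) * ∏ i, y i ^ d i) := by
    intro d hd
    have h1 : ∏ i, y i ^ d i = y τ ^ d τ * ∏ i ∈ Finset.univ.erase τ, y i ^ d i :=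
      (Finset.mul_prod_erase Finset.univ (fun i => y i ^ d i) (Finset.mem_univ τ)).symm
    have h2 : algebraMap W F z ^ a * y τ ^ d τ = algebraMap W F z ^ (a - d τ) := by
      have h3 : algebraMap W F z ^ a = algebraMap W F z ^ (a - d τ) * algebraMap W F z ^ d τ := by
        rw [← pow_add, Nat.sub_add_cancel (hexp d hd).1]
      rw [h3, mul_assoc, ← mul_pow, hzy, one_pow, mul_one]
    have h4 : algebraMap W F (∏ i ∈ Finset.univ.erase τ, y' i ^ d i) =
        ∏ i ∈ Finset.univ.erase τ, y i ^ d i := by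
      rw [map_prod]
      refine Finset.prod_congr rfl fun i hi => ?_
      rw [map_pow, hy i (Finset.ne_of_mem_erase hi)]
    simp only [T, map_mul, map_pow, h4, h1, ← h2, RingHom.comp_apply]
    ring
  have hsum : ∑ d ∈ G.support, T d = 0 := by
    apply IsFractionRing.injective W F
    rw [map_sum, map_zero, Finset.sum_congr rfl hT, ← Finset.mul_sum,
      ← MvPolynomial.eval₂_eq', h0, mul_zero]
  have hs0 : Finsupp.single τ a ∈ G.support := MvPolynomial.mem_support_iff.2 hu.ne_zero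
  rw [← Finset.add_sum_erase _ _ hs0] at hsum
  have hdvd : z ∣ T (Finsupp.single τ a) := by
    rw [eq_neg_of_add_eq_zero_left hsum, dvd_neg]
    refine Finset.dvd_sum fun d hd => ?_
    rw [Finset.mem_erase] at hd
    have h1 := (hexp d hd.2).2 hd.1
    exact dvd_mul_of_dvd_right (dvd_pow_self z (by omega)) _
  have hT0 : T (Finsupp.single τ a) = f (G.coeff (Finsupp.single τ a)) := by
    simp only [T, Finsupp.single_eq_same, Nat.sub_self, pow_zero, mul_one]
    rw [Finset.prod_eq_one, mul_one]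
    intro i hi
    rw [Finsupp.single_eq_of_ne (Finset.ne_of_mem_erase hi), pow_zero]
  rw [hT0] at hdvd
  exact hzu (isUnit_of_dvd_unit hdvd (hu.map f))

/-- In a valuation ring, some element of a finite family divides all the others. -/
theorem exists_dvd_all {n : ℕ} (x : Fin (n + 1) → W) : ∃ l, ∀ i, x l ∣ x i := by
  have key : ∀ s : Finset (Fin (n + 1)), s.Nonempty → ∃ l ∈ s, ∀ i ∈ s, x l ∣ x i := by
    intro s hs
    induction hs using Finset.Nonempty.cons_induction with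
    | singleton a =>
      exact ⟨a, Finset.mem_singleton_self a, fun i hi => by
        rw [Finset.mem_singleton.1 hi]⟩
    | cons a s ha hs ih =>
      obtain ⟨l, hl, hd⟩ := ih
      rcases ValuationRing.dvd_total (x l) (x a) with h | h
      · refine ⟨l, Finset.mem_cons_of_mem hl, fun i hi => ?_⟩
        rcases Finset.mem_cons.1 hi with rfl | hi
        · exact h
        · exact hd i hi
      · refine ⟨a, Finset.mem_cons_self a s, fun i hi => ?_⟩
        rcases Finset.mem_cons.1 hi with rfl | hi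
        · exact dvd_rfl
        · exact h.trans (hd i hi)
  obtain ⟨l, -, h⟩ := key Finset.univ Finset.univ_nonempty
  exact ⟨l, fun i => h i (Finset.mem_univ i)⟩

/-- Homogeneous congruence: a homogeneous polynomial evaluated at two congruent families. -/
theorem eval₂_congr_dvd {σ : Type} {A : Type u} [CommRing A] (f : A →+* W) (x y : σ → W) (c : W)
    (h : ∀ i, c ∣ x i - y i) (P : MvPolynomial σ A) :
    c ∣ MvPolynomial.eval₂ f x P - MvPolynomial.eval₂ f y P := by
  rw [← Ideal.mem_span_singleton, ← Ideal.Quotient.eq, MvPolynomial.eval₂_comp_left,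
    MvPolynomial.eval₂_comp_left]
  congr 1
  funext i
  simp only [Function.comp_apply]
  rw [Ideal.Quotient.eq, Ideal.mem_span_singleton]
  exact h i

end val

section ext

variable {K : Type u} [Field K] {O : ValuationSubring K} {p : ℕ} [Fact p.Prime]
  [Fact ¬IsUnit (p : O)] [IsAdicComplete (Ideal.span {(p : O)}) O]
variable {C : Type u} [Field C] {ι : K →+* C} {V : ValuationSubring C} (hV : ValuedExt O ι V)
  [Fact ¬IsUnit (p : V)] [IsAdicComplete (Ideal.span {(p : V)}) V]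

theorem valuedExt_id : ValuedExt O (RingHom.id K) O where
  comap_eq := by ext x; rfl
  cont := fun x hx => ⟨x, hx, by simp [div_self hx]⟩

omit [Fact ¬IsUnit (p : V)] [IsAdicComplete (Ideal.span {(p : V)}) V] in
theorem mem_iff (hV : ValuedExt O ι V) (x : K) : ι x ∈ V ↔ x ∈ O := by
  have h : x ∈ V.comap ι ↔ x ∈ O := by rw [hV.comap_eq]
  exact h

/-- The norms on `K` and `C` are compatible. -/
theorem nC_map (x : K) : nC p hV (ι x) = vn K (p : O) x := by
  have key : ∀ (a : ℤ) (b : ℕ), InP C (p : V) a ((ι x) ^ b) ↔ InP K (p : O) a (x ^ b) := by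
    intro a b
    have hp : ι (algebraMap O K (p : O)) = algebraMap V C (p : V) := by
      rw [map_natCast, map_natCast, map_natCast]
    constructor
    · rintro ⟨w, hw⟩
      by_cases hx : algebraMap O K (p : O) ^ a = 0
      · have h1 : ι (x ^ b) = 0 := by
          rw [map_pow, hw, ← hp, ← map_zpow₀, hx, map_zero, zero_mul]
        refine ⟨0, ?_⟩
        rw [map_zero, mul_zero]
        exact (map_eq_zero ι).1 h1
      · have h1 : ι (x ^ b / algebraMap O K (p : O) ^ a) = algebraMap V C w := by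
          rw [map_div₀, map_zpow₀, hp, map_pow, hw, mul_div_cancel_left₀]
          rw [← hp, ← map_zpow₀]
          exact (map_ne_zero ι).2 hx
        have h2 : x ^ b / algebraMap O K (p : O) ^ a ∈ O := by
          rw [← mem_iff hV, h1]
          exact w.2
        refine ⟨⟨_, h2⟩, ?_⟩
        change x ^ b = _ * (x ^ b / algebraMap O K (p : O) ^ a)
        rw [mul_div_cancel₀ _ hx]
    · rintro ⟨w, hw⟩
      refine ⟨hV.incl w, ?_⟩
      rw [← map_pow, hw, map_mul, map_zpow₀, hp]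
      rfl
  unfold nC vn
  congr 1
  ext r
  simp only [Set.mem_ofPred_eq, key]

theorem nC_incl (x : O) : nC p hV ((hV.incl x : V) : C) = vn K (p : O) (x : K) := by
  rw [hV.coe_incl, nC_map]

/-- The normalised point: everything is integral. -/
structure Norm {n : ℕ} {𝔮 : Ideal (MvPolynomial (Fin (n + 1)) K)} (D : AlgData O O.subtype n 𝔮)
    (M : ℕ) (a u : TF V p) (w : Fin (n + 1) → TF V p) where
  lam : PreTilt V p
  X : Fin 2 → PreTilt V p
  an : PreTilt V p
  Tn : PreTilt V p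
  wn : Fin (n + 1) → PreTilt V p
  ne : lam ≠ 0
  cas : (lam = 1 ∧ X 0 = 1 ∧ algebraMap _ (TF V p) (X 1) = u) ∨
    (¬IsUnit lam ∧ X 0 = lam ∧ X 1 = 1 ∧ algebraMap _ (TF V p) lam * u = 1)
  ha : algebraMap _ (TF V p) an = algebraMap _ (TF V p) lam ^ D.D * a
  hw : ∀ i, algebraMap _ (TF V p) (wn i) = algebraMap _ (TF V p) lam ^ (D.D + 1) * w i
  d0 : (p : V) ^ M ∣ PreTilt.untilt an -
    MvPolynomial.eval₂ hV.incl (fun i => PreTilt.untilt (X i)) D.δ
  d1 : (p : V) ^ M ∣
    MvPolynomial.eval₂ hV.incl (fun i => PreTilt.untilt ((![X 0, X 1, Tn] : Fin 3 → _) i)) D.F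
  d2 : ∀ i, (p : V) ^ M ∣ PreTilt.untilt (wn i) -
    MvPolynomial.eval₂ hV.incl (fun i => PreTilt.untilt ((![X 0, X 1, Tn] : Fin 3 → _) i)) (D.A i)

theorem isUnit_coeff_pow_F₀ {n : ℕ} {𝔮 : Ideal (MvPolynomial (Fin (n + 1)) K)}
    (D : AlgData O O.subtype n 𝔮) : IsUnit (D.F₀.coeff (Finsupp.single 0 1)) := by
  have h1 : (MvPolynomial.rename Fin.succ D.δ : MvPolynomial (Fin 3) O).coeff
      (Finsupp.single 0 1) = 0 := by
    apply MvPolynomial.coeff_rename_eq_zero
    intro d hd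
    exfalso
    have h2 := DFunLike.congr_fun hd 0
    rw [Finsupp.single_eq_same, Finsupp.mapDomain_of_notMem_range] at h2
    · exact zero_ne_one h2
    · rintro ⟨x, hx⟩
      exact Fin.succ_ne_zero x hx
  have h3 : D.F₀.coeff (Finsupp.single 0 1) = 1 := by
    rw [AlgData.F₀, MvPolynomial.coeff_sub, h1, sub_zero, MvPolynomial.coeff_X, if_pos rfl]
  rw [h3]
  exact isUnit_one

theorem isUnit_coeff_pow_Fw {n : ℕ} {𝔮 : Ideal (MvPolynomial (Fin (n + 1)) K)}
    (D : AlgData O O.subtype n 𝔮) (i : Fin (n + 1)) :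
    IsUnit ((D.Fw i).coeff (Finsupp.single 3 1)) := by
  have h1 : (MvPolynomial.rename Fin.castSucc (D.A i) : MvPolynomial (Fin 4) O).coeff
      (Finsupp.single 3 1) = 0 := by
    apply MvPolynomial.coeff_rename_eq_zero
    intro d hd
    exfalso
    have h2 := DFunLike.congr_fun hd 3
    rw [Finsupp.single_eq_same, Finsupp.mapDomain_of_notMem_range] at h2
    · exact zero_ne_one h2
    · rintro ⟨x, hx⟩
      exact (Fin.castSucc_lt_last x).ne hx
  have h3 : (D.Fw i).coeff (Finsupp.single 3 1) = 1 := by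
    rw [AlgData.Fw, MvPolynomial.coeff_sub, h1, sub_zero, MvPolynomial.coeff_X, if_pos rfl]
  rw [h3]
  exact isUnit_one

theorem solve {σ : Type} [Fintype σ] {w : σ → ℕ} (hw : ∀ i, 0 < w i) {e M : ℕ}
    {F : MvPolynomial σ O} {G : MvPolynomial σ (PreTilt O p)} (hG : ApproxOf w e M F G) (τ : σ)
    (a : ℕ) (hF : IsUnit (F.coeff (Finsupp.single τ a))) (y : σ → TF V p) (z : σ → PreTilt V p)
    (L : TF V p) (hz : ∀ i, i ≠ τ → algebraMap _ (TF V p) (z i) = L ^ w i * y i)
    (h0 : MvPolynomial.eval₂ (cf hV) y G = 0) :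
    ∃ t : PreTilt V p, algebraMap _ (TF V p) t = L ^ w τ * y τ ∧
      ∀ z' : σ → PreTilt V p, z' τ = t → (∀ i, i ≠ τ → z' i = z i) →
      (p : V) ^ M ∣ MvPolynomial.eval₂ hV.incl (fun i => PreTilt.untilt (z' i)) F := by
  obtain ⟨J, hJ1, hJ2⟩ := hG.hom
  have h1 : MvPolynomial.eval₂ (cf hV) (fun i => L ^ w i * y i) G = 0 := by
    rw [eval₂_weighted hJ1, h0, mul_zero]
  obtain ⟨t, ht⟩ := integral_of_weighted (F := TF V p) (tmap hV.incl) w hw hJ1 τ (a * p ^ J)
    (hJ2 τ a hF) (fun i => L ^ w i * y i) z hz h1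
  refine ⟨t, ht, fun z' hz1 hz2 => hG.dvd C ι V hV _ ?_⟩
  apply IsFractionRing.injective (PreTilt V p) (TF V p)
  rw [map_zero, MvPolynomial.eval₂_comp_left, ← h1]
  congr 1
  funext i
  simp only [Function.comp_apply]
  by_cases hi : i = τ
  · subst hi
    rw [hz1, ht]
  · rw [hz2 i hi, hz i hi]

theorem exists_norm {n : ℕ} {𝔮 : Ideal (MvPolynomial (Fin (n + 1)) K)}
    {D : AlgData O O.subtype n 𝔮} {M : ℕ} {𝒜 : ApproxData p D M} {a u T : TF V p}
    {w : Fin (n + 1) → TF V p} (hpt : IsPt 𝒜 (cf hV) a u T w) :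
    Nonempty (Norm hV D M a u w) := by
  -- the case distinction
  obtain ⟨lam, X, hlam, hcas, hX0, hX1⟩ : ∃ (lam : PreTilt V p) (X : Fin 2 → PreTilt V p),
      lam ≠ 0 ∧ ((lam = 1 ∧ X 0 = 1 ∧ algebraMap _ (TF V p) (X 1) = u) ∨
      (¬IsUnit lam ∧ X 0 = lam ∧ X 1 = 1 ∧ algebraMap _ (TF V p) lam * u = 1)) ∧
      algebraMap _ (TF V p) (X 0) = algebraMap _ (TF V p) lam ∧
      algebraMap _ (TF V p) (X 1) = algebraMap _ (TF V p) lam * u := by
    have hcase : (∃ t : PreTilt V p, algebraMap _ (TF V p) t = u) ∨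
        ∃ z : PreTilt V p, ¬IsUnit z ∧ z ≠ 0 ∧ algebraMap _ (TF V p) z * u = 1 := by
      by_cases hu0 : u = 0
      · exact Or.inl ⟨0, by rw [map_zero, hu0]⟩
      rcases (ValuationRing.iff_isInteger_or_isInteger (PreTilt V p) (TF V p)).mp inferInstance u
        with ⟨t, ht⟩ | ⟨z, hz⟩
      · exact Or.inl ⟨t, ht⟩
      · have hzu : algebraMap _ (TF V p) z * u = 1 := by rw [hz, inv_mul_cancel₀ hu0]
        by_cases hz' : IsUnit z
        · obtain ⟨v, hv⟩ := hz'.exists_right_inv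
          refine Or.inl ⟨v, ?_⟩
          have h1 : algebraMap _ (TF V p) z * algebraMap _ (TF V p) v = 1 := by
            rw [← map_mul, hv, map_one]
          have h2 : algebraMap _ (TF V p) z ≠ 0 := left_ne_zero_of_mul_eq_one h1
          exact mul_left_cancel₀ h2 (h1.trans hzu.symm)
        · refine Or.inr ⟨z, hz', ?_, hzu⟩
          rintro rfl
          rw [map_zero, zero_mul] at hzu
          exact zero_ne_one hzu
    rcases hcase with ⟨t, ht⟩ | ⟨z, hz1, hz2, hz3⟩
    · refine ⟨1, ![1, t], one_ne_zero, Or.inl ⟨rfl, rfl, ht⟩, rfl, ?_⟩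
      rw [map_one, one_mul]
      exact ht
    · refine ⟨z, ![z, 1], hz2, Or.inr ⟨hz1, rfl, rfl, hz3⟩, rfl, ?_⟩
      rw [hz3]
      exact map_one _
  set L := algebraMap _ (TF V p) lam with hL
  obtain ⟨an, han, hd0⟩ := solve hV (by
      intro i; fin_cases i
      · exact D.D_pos
      · exact one_pos
      · exact one_pos) 𝒜.h₀ 0 1 (isUnit_coeff_pow_F₀ D) _ ![0, X 0, X 1] L (by
      intro i hi
      fin_cases i
      · exact absurd rfl hi
      · simpa using hX0
      · simpa using hX1) hpt.e₀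
  obtain ⟨Tn, hTn, hd1⟩ := solve hV (by
      intro i; fin_cases i <;> exact one_pos) 𝒜.h 2 D.m (by
        rw [D.F_coeff]; exact isUnit_one) _ ![X 0, X 1, 0] L (by
      intro i hi
      fin_cases i
      · simpa using hX0
      · simpa using hX1
      · exact absurd rfl hi) hpt.e₁
  have hw := fun i => solve hV (by
      intro j; fin_cases j
      · exact one_pos
      · exact one_pos
      · exact one_pos
      · exact Nat.succ_pos _) (𝒜.hH i) 3 1 (isUnit_coeff_pow_Fw D i) _ ![X 0, X 1, Tn, 0] L (by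
      intro j hj
      fin_cases j
      · simpa using hX0
      · simpa using hX1
      · simpa using hTn
      · exact absurd rfl hj) (hpt.e₂ i)
  choose wn hwn hd2 using hw
  refine ⟨⟨lam, X, an, Tn, wn, hlam, hcas, han, hwn, ?_, ?_, ?_⟩⟩
  · have h1 := hd0 ![an, X 0, X 1] rfl (by
      intro i hi
      fin_cases i
      · exact absurd rfl hi
      · rfl
      · rfl)
    rw [AlgData.F₀, MvPolynomial.eval₂_sub, MvPolynomial.eval₂_X, MvPolynomial.eval₂_rename] at h1
    have h2 : ((fun i => PreTilt.untilt ((![an, X 0, X 1] : Fin 3 → PreTilt V p) i)) ∘ Fin.succ) =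
        fun i => PreTilt.untilt (X i) := by
      funext i
      fin_cases i <;> rfl
    rw [h2] at h1
    exact h1
  · exact hd1 ![X 0, X 1, Tn] rfl (by
      intro i hi
      fin_cases i
      · rfl
      · rfl
      · exact absurd rfl hi)
  · intro i
    have h1 := hd2 i ![X 0, X 1, Tn, wn i] rfl (by
      intro j hj
      fin_cases j
      · rfl
      · rfl
      · rfl
      · exact absurd rfl hj)
    rw [AlgData.Fw, MvPolynomial.eval₂_sub, MvPolynomial.eval₂_X, MvPolynomial.eval₂_rename] at h1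
    have h2 : ((fun j => PreTilt.untilt ((![X 0, X 1, Tn, wn i] : Fin 4 → PreTilt V p) j)) ∘
        Fin.castSucc) = fun j => PreTilt.untilt ((![X 0, X 1, Tn] : Fin 3 → PreTilt V p) j) := by
      funext j
      fin_cases j <;> rfl
    rw [h2] at h1
    exact h1

theorem eval₂_aeval {σ τ : Type} {A B : Type u} [CommRing A] [CommRing B] (f : A →+* B)
    (g : τ → B) (a : σ → MvPolynomial τ A) (P : MvPolynomial σ A) :
    MvPolynomial.eval₂ f g (MvPolynomial.aeval a P) =
      MvPolynomial.eval₂ f (fun i => MvPolynomial.eval₂ f g (a i)) P := by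
  have h : (MvPolynomial.eval₂Hom f g).comp (MvPolynomial.aeval (R := A) a).toRingHom =
      MvPolynomial.eval₂Hom f (fun i => MvPolynomial.eval₂ f g (a i)) := by
    apply MvPolynomial.ringHom_ext
    · intro r; simp
    · intro i; simp
  exact RingHom.congr_fun h P

theorem eval₂_hom {σ : Type} {A B : Type u} [CommRing A] [CommRing B] (f : A →+* B)
    {P : MvPolynomial σ A} {d : ℕ} (hP : P.IsHomogeneous d) (y : σ → B) (l : B) :
    MvPolynomial.eval₂ f (fun i => l * y i) P = l ^ d * MvPolynomial.eval₂ f y P := by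
  have h := eval₂_weighted (w := 1) hP f y l
  simpa using h

section alg

variable {n : ℕ} {𝔮 : Ideal (MvPolynomial (Fin (n + 1)) K)} {D : AlgData O O.subtype n 𝔮}
  {M : ℕ} {a u : TF V p} {w : Fin (n + 1) → TF V p} (Nm : Norm hV D M a u w)

theorem P_dvd {d : ℕ} {P : MvPolynomial (Fin (n + 1)) O} (hP : P.IsHomogeneous d)
    (hq : MvPolynomial.map O.subtype P ∈ 𝔮) :
    (p : V) ^ M ∣ MvPolynomial.eval₂ hV.incl (fun i => PreTilt.untilt (Nm.wn i)) P := by
  obtain ⟨Q, hQ⟩ := D.dvd d P hP hq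
  have h1 := congrArg (MvPolynomial.eval₂ hV.incl
    (fun i => PreTilt.untilt ((![Nm.X 0, Nm.X 1, Nm.Tn] : Fin 3 → _) i))) hQ
  rw [eval₂_aeval, MvPolynomial.eval₂_mul] at h1
  have h2 := eval₂_congr_dvd hV.incl _ _ _ Nm.d2 P
  rw [h1] at h2
  exact (dvd_sub_left (Nm.d1.mul_right _)).1 h2

theorem L_dvd (j : Fin 2) :
    (p : V) ^ M ∣ MvPolynomial.eval₂ hV.incl (fun i => PreTilt.untilt (Nm.wn i)) (D.L j) -
      hV.incl D.δ₀ * PreTilt.untilt (Nm.X j) * PreTilt.untilt Nm.an := by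
  obtain ⟨Q, hQ⟩ := D.dvd_L j
  have h1 := congrArg (MvPolynomial.eval₂ hV.incl
    (fun i => PreTilt.untilt ((![Nm.X 0, Nm.X 1, Nm.Tn] : Fin 3 → _) i))) hQ
  rw [MvPolynomial.eval₂_sub, eval₂_aeval, MvPolynomial.eval₂_mul, MvPolynomial.eval₂_mul,
    MvPolynomial.eval₂_mul, MvPolynomial.eval₂_C, MvPolynomial.eval₂_X,
    MvPolynomial.eval₂_rename] at h1
  have h2 : (fun i => PreTilt.untilt ((![Nm.X 0, Nm.X 1, Nm.Tn] : Fin 3 → _) i)) ∘ Fin.castSucc =
      fun i => PreTilt.untilt (Nm.X i) := by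
    funext i
    fin_cases i <;> rfl
  have h3 : (![Nm.X 0, Nm.X 1, Nm.Tn] : Fin 3 → _) (Fin.castSucc j) = Nm.X j := by
    fin_cases j <;> rfl
  rw [h2, h3] at h1
  have h4 := eval₂_congr_dvd hV.incl _ _ _ Nm.d2 (D.L j)
  have h5 : (p : V) ^ M ∣ MvPolynomial.eval₂ hV.incl (fun i => MvPolynomial.eval₂ hV.incl
      (fun i => PreTilt.untilt ((![Nm.X 0, Nm.X 1, Nm.Tn] : Fin 3 → _) i)) (D.A i)) (D.L j) -
      hV.incl D.δ₀ * PreTilt.untilt (Nm.X j) *
        MvPolynomial.eval₂ hV.incl (fun i => PreTilt.untilt (Nm.X i)) D.δ := by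
    rw [h1]
    exact Nm.d1.mul_right _
  have h6 := (Nm.d0.mul_left (hV.incl D.δ₀ * PreTilt.untilt (Nm.X j)))
  have h7 := dvd_sub (dvd_add h4 h5) h6
  convert h7 using 1
  ring

theorem eval_δ_zero_one : MvPolynomial.eval₂ hV.incl (![0, 1] : Fin 2 → V) D.δ = 1 := by
  rw [MvPolynomial.eval₂_eq', Finset.sum_eq_single (Finsupp.single 1 D.D)]
  · rw [D.δ_coeff, map_one, one_mul, Fin.prod_univ_two]
    simp
  · intro d hd hne
    have h1 := D.δ_hom (MvPolynomial.mem_support_iff.1 hd)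
    rw [Finsupp.weight_apply, Finsupp.sum_fintype _ _ (by simp), Fin.sum_univ_two] at h1
    simp only [Pi.one_apply, smul_eq_mul, mul_one] at h1
    rw [Fin.prod_univ_two]
    by_cases h0 : d 0 = 0
    · exfalso
      apply hne
      ext i
      fin_cases i
      · simp [h0]
      · simp only [Fin.mk_one, Finsupp.single_eq_same]
        omega
    · simp [h0]
  · intro h
    rw [MvPolynomial.notMem_support_iff, D.δ_coeff] at h
    exact absurd h one_ne_zero

theorem an_unit (hM : 1 ≤ M) (h0 : ¬IsUnit Nm.lam) (h1 : Nm.X 0 = Nm.lam) (h2 : Nm.X 1 = 1) :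
    IsUnit Nm.an := by
  rw [← isUnit_untilt]
  by_contra hnu
  have h3 : PreTilt.untilt Nm.lam ∣
      MvPolynomial.eval₂ hV.incl (fun i => PreTilt.untilt (Nm.X i)) D.δ - 1 := by
    rw [← eval_δ_zero_one hV (D := D)]
    apply eval₂_congr_dvd
    intro i
    fin_cases i
    · simp [h1]
    · simp [h2]
  have hm : ∀ x : V, ¬IsUnit x ↔ x ∈ IsLocalRing.maximalIdeal V := fun x =>
    (IsLocalRing.mem_maximalIdeal x).symm
  have h4 : MvPolynomial.eval₂ hV.incl (fun i => PreTilt.untilt (Nm.X i)) D.δ - 1 ∈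
      IsLocalRing.maximalIdeal V :=
    Ideal.mem_of_dvd _ h3 ((hm _).1 (by rwa [isUnit_untilt]))
  have h5 : PreTilt.untilt Nm.an - MvPolynomial.eval₂ hV.incl
      (fun i => PreTilt.untilt (Nm.X i)) D.δ ∈ IsLocalRing.maximalIdeal V := by
    refine Ideal.mem_of_dvd _ Nm.d0 ?_
    refine Ideal.pow_mem_of_mem _ ((hm _).1 Fact.out) M hM
  have h6 := Ideal.sub_mem _ ((hm _).1 hnu) (Ideal.add_mem _ h4 h5)
  have h7 : PreTilt.untilt Nm.an - (MvPolynomial.eval₂ hV.incl
      (fun i => PreTilt.untilt (Nm.X i)) D.δ - 1 + (PreTilt.untilt Nm.an -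
      MvPolynomial.eval₂ hV.incl (fun i => PreTilt.untilt (Nm.X i)) D.δ)) = 1 := by ring
  rw [h7] at h6
  exact (Ideal.ne_top_iff_one _).mp (IsLocalRing.maximalIdeal.isMaximal V).ne_top h6

end alg

section norms

variable (b : TB O p) {n : ℕ} {𝔮 : Ideal (MvPolynomial (Fin (n + 1)) K)}
  {D : AlgData O O.subtype n 𝔮} {M : ℕ} {a u : TF V p} {w : Fin (n + 1) → TF V p}
  (Nm : Norm hV D M a u w)

theorem norms (hϖ : PU (b.ϖV hV)) (hM : 1 ≤ M) {s₁ : ℝ} (hs : s₁ ≤ nT hV b a) :
    nT hV b (algebraMap _ (TF V p) Nm.lam) * max 1 (nT hV b u) = 1 ∧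
    nT hV b (algebraMap _ (TF V p) Nm.lam) ^ D.D * max 1 (nT hV b a) = 1 ∧
    min s₁ 1 ≤ nT hV b (algebraMap _ (TF V p) Nm.an) ∧
    (1 < nT hV b a → IsUnit Nm.an ∧ Nm.X 0 = Nm.lam ∧ Nm.X 1 = 1 ∧
      nT hV b (algebraMap _ (TF V p) Nm.lam) * nT hV b u = 1) := by
  have hle : ∀ x : PreTilt V p, nT hV b (algebraMap _ (TF V p) x) ≤ 1 := fun x => vn_le_one x
  have hmul : ∀ x y : TF V p, nT hV b (x * y) = nT hV b x * nT hV b y := vn_mul hϖ
  have hpow : ∀ (x : TF V p) (m : ℕ), nT hV b (x ^ m) = nT hV b x ^ m := vn_pow hϖ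
  have hone : nT hV b (1 : TF V p) = 1 := vn_one hϖ
  have ha := congrArg (nT hV b) Nm.ha
  rw [hmul, hpow] at ha
  rcases Nm.cas with ⟨h1, h2, h3⟩ | ⟨h1, h2, h3, h4⟩
  · have hl : nT hV b (algebraMap _ (TF V p) Nm.lam) = 1 := by rw [h1, map_one, hone]
    rw [hl, one_pow, one_mul] at ha
    have ha1 : nT hV b a ≤ 1 := by rw [← ha]; exact hle _
    have hu1 : nT hV b u ≤ 1 := by rw [← h3]; exact hle _
    refine ⟨?_, ?_, ?_, ?_⟩
    · rw [hl, max_eq_left hu1, one_mul]
    · rw [hl, max_eq_left ha1, one_pow, one_mul]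
    · rw [ha]; exact (min_le_left _ _).trans hs
    · intro h; exact absurd ha1 (not_le.2 h)
  · have hu := an_unit hV Nm hM h1 h2 h3
    have han : nT hV b (algebraMap _ (TF V p) Nm.an) = 1 := vn_unit hϖ hu
    have hlu : nT hV b (algebraMap _ (TF V p) Nm.lam) * nT hV b u = 1 := by
      rw [← hmul, h4, hone]
    have hl1 := hle Nm.lam
    have hl0 : 0 ≤ nT hV b (algebraMap _ (TF V p) Nm.lam) := vn_nonneg _
    have hu0 : 0 ≤ nT hV b u := vn_nonneg _
    have hu1 : 1 ≤ nT hV b u := by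
      by_contra hlt
      push Not at hlt
      nlinarith
    rw [han] at ha
    have hlD : nT hV b (algebraMap _ (TF V p) Nm.lam) ^ D.D ≤ 1 := pow_le_one₀ hl0 hl1
    have hlD0 : 0 ≤ nT hV b (algebraMap _ (TF V p) Nm.lam) ^ D.D := pow_nonneg hl0 _
    have ha0 : 0 ≤ nT hV b a := vn_nonneg _
    have ha1 : 1 ≤ nT hV b a := by
      by_contra hlt
      push Not at hlt
      nlinarith
    refine ⟨?_, ?_, ?_, ?_⟩
    · rw [max_eq_right hu1, hlu]
    · rw [max_eq_right ha1, ← ha]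
    · rw [han]; exact min_le_right _ _
    · exact fun _ => ⟨hu, h2, h3, hlu⟩

theorem exists_one : ∃ j : Fin 2, Nm.X j = 1 := by
  rcases Nm.cas with ⟨-, h, -⟩ | ⟨-, -, h, -⟩
  · exact ⟨0, h⟩
  · exact ⟨1, h⟩

end norms

end ext

end PTS

open PTS in
theorem pts_proof {K : Type u} [Field K] (O : ValuationSubring K) (p : ℕ) [Fact p.Prime]
    [Fact ¬IsUnit (p : O)] [IsAdicComplete (Ideal.span {(p : O)}) O] (b : TB O p)
    (hPUX : Stmt_PUX O p b) (hTN : Stmt_TN O p b) (hUC : Stmt_UC O p b) : Stmt_Pts O p b := by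
  intro n 𝔮 D R
  have hPO : PU (p : O) := (hPUX.2 K (RingHom.id K) O valuedExt_id).1
  set c0 : ℝ := vn K (p : O) (D.δ₀ : K) with hc0
  have hc0pos : 0 < c0 := vn_pos hPO (by
    intro h
    exact D.δ₀_ne (Subtype.ext h))
  have hc0le : c0 ≤ 1 := vn_le_one (W := O) (F := K) D.δ₀
  set R' : ℝ := max R 1 with hR'
  have hR'pos : 0 < R' := lt_of_lt_of_le one_pos (le_max_right _ _)
  obtain ⟨j0, hj0⟩ : ∃ j0 : ℕ, (1 / 2 : ℝ) ^ (j0 + 1) < c0 / R' := by
    obtain ⟨j, hj⟩ := exists_pow_lt_of_lt_one (show 0 < c0 / R' by positivity)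
      (show (1 / 2 : ℝ) < 1 by norm_num)
    refine ⟨j, lt_of_le_of_lt ?_ hj⟩
    exact pow_le_pow_of_le_one (by norm_num) (by norm_num) (Nat.le_succ j)
  refine ⟨(1 / 2) ^ (p ^ j0 + 1), by positivity, ?_⟩
  intro J _ P dP hP m s₁ hs₁
  obtain ⟨Dm, hDm⟩ : ∃ Dm : ℕ, ∀ j, dP j ≤ Dm := by
    obtain ⟨B, hB⟩ := (Set.finite_range dP).bddAbove
    exact ⟨B, fun j => hB ⟨j, rfl⟩⟩
  set s : ℝ := min s₁ 1 with hs
  have hspos : 0 < s := lt_min hs₁ one_pos
  have hsle : s ≤ 1 := min_le_right _ _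
  set q : ℝ := c0 * s with hq
  have hqpos : 0 < q := by positivity
  have hqle : q ≤ 1 := mul_le_one₀ hc0le hspos.le hsle
  obtain ⟨N0, hN0⟩ := exists_pow_lt_of_lt_one (show 0 < (1 / 2 : ℝ) ^ m * q ^ (Dm + 1) by positivity)
      (show (1 / 2 : ℝ) < 1 by norm_num)
  refine ⟨max N0 (j0 + 1), fun M hM 𝒜 C _ ι V hV _ _ a u T w hpt hsa => ?_⟩
  have hM1 : 1 ≤ M := le_trans (Nat.succ_pos j0) ((le_max_right _ _).trans hM)
  have hMj : j0 + 1 ≤ M := (le_max_right _ _).trans hM
  have hMq : (1 / 2 : ℝ) ^ M < (1 / 2 : ℝ) ^ m * q ^ (Dm + 1) :=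
    lt_of_le_of_lt (pow_le_pow_of_le_one (by norm_num) (by norm_num)
      ((le_max_left _ _).trans hM)) hN0
  have hMq' : (1 / 2 : ℝ) ^ M < q := by
    refine hMq.trans_le ?_
    have hq1 : q ^ (Dm + 1) ≤ q ^ 1 :=
      pow_le_pow_of_le_one hqpos.le hqle (Nat.succ_le_succ (Nat.zero_le Dm))
    have hm1 : (1 / 2 : ℝ) ^ m ≤ 1 := pow_le_one₀ (by norm_num) (by norm_num)
    calc (1 / 2 : ℝ) ^ m * q ^ (Dm + 1) ≤ 1 * q ^ 1 :=
          mul_le_mul hm1 hq1 (by positivity) zero_le_one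
      _ = q := by ring
  obtain ⟨hpV, hϖ⟩ := hPUX.2 C ι V hV
  obtain ⟨hTN1, -, -⟩ := hTN.2 C ι V hV
  obtain ⟨Nm⟩ := exists_norm hV hpt
  obtain ⟨hmaxu, hmaxa, han, hbig⟩ := norms hV b Nm hϖ hM1 hsa
  set L : TF V p := algebraMap _ (TF V p) Nm.lam with hL
  have hmul : ∀ x y : TF V p, nT hV b (x * y) = nT hV b x * nT hV b y := vn_mul hϖ
  have hpow : ∀ (x : TF V p) (m : ℕ), nT hV b (x ^ m) = nT hV b x ^ m := vn_pow hϖ
  have hnn : ∀ x : TF V p, 0 ≤ nT hV b x := fun x => vn_nonneg x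
  have hmulC : ∀ x y : C, nC p hV (x * y) = nC p hV x * nC p hV y := vn_mul hpV
  have hpowC : ∀ (x : C) (m : ℕ), nC p hV (x ^ m) = nC p hV x ^ m := vn_pow hpV
  have hnnC : ∀ x : C, 0 ≤ nC p hV x := fun x => vn_nonneg x
  have hδ₀ : nC p hV ((hV.incl D.δ₀ : V) : C) = c0 := nC_incl hV D.δ₀
  have hL0 : L ≠ 0 := fun h => Nm.ne (IsFractionRing.injective (PreTilt V p) (TF V p)
    (by rw [map_zero]; exact h))
  have hLpos : 0 < nT hV b L := vn_pos hϖ hL0
  have hanpos : 0 < nT hV b (algebraMap _ (TF V p) Nm.an) := hspos.trans_le han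
  have han0 : Nm.an ≠ 0 := by
    intro h
    have h1 : nT hV b (algebraMap _ (TF V p) Nm.an) = 0 := by
      rw [h, map_zero]; exact vn_zero hϖ
    rw [h1] at hanpos
    exact lt_irrefl _ hanpos
  have han0' : algebraMap _ (TF V p) Nm.an ≠ 0 := fun h =>
    han0 (IsFractionRing.injective (PreTilt V p) (TF V p) (by rw [map_zero]; exact h))
  have ha0 : a ≠ 0 := by
    intro h
    have h1 := Nm.ha
    exact han0' (h1.trans (mul_eq_zero_of_right _ h))
  -- `w i / a`
  have hwa : ∀ i, w i / a = algebraMap _ (TF V p) (Nm.wn i) /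
      (algebraMap _ (TF V p) Nm.an * L) := by
    intro i
    rw [Nm.hw, Nm.ha, ← hL, div_eq_div_iff ha0 (by
      rw [← Nm.ha]; exact mul_ne_zero han0' hL0)]
    ring
  obtain ⟨l, hl⟩ := exists_dvd_all Nm.wn
  choose x hx using hl
  -- lower bound for `wn l`
  have hlow : c0 * nT hV b (algebraMap _ (TF V p) Nm.an) ≤
      nT hV b (algebraMap _ (TF V p) (Nm.wn l)) := by
    obtain ⟨j, hj⟩ := exists_one hV Nm
    have h1 := L_dvd hV Nm j
    rw [hj, map_one, mul_one] at h1
    have h2 := vn_dvd (F := C) hpV h1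
    have h3 : nC p hV ((MvPolynomial.eval₂ hV.incl (fun i => PreTilt.untilt (Nm.wn i)) (D.L j) : V) :
        C) = nC p hV ((hV.incl D.δ₀ * PreTilt.untilt Nm.an : V) : C) := by
      apply vn_eq_of_sub_lt hpV
      have h4 : nC p hV ((hV.incl D.δ₀ * PreTilt.untilt Nm.an : V) : C) =
          c0 * nT hV b (algebraMap _ (TF V p) Nm.an) := by
        rw [hTN1, ← hδ₀, ← hmulC]; rfl
      have h5 : (1 / 2 : ℝ) ^ M < nC p hV ((hV.incl D.δ₀ * PreTilt.untilt Nm.an : V) : C) := by
        rw [h4]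
        refine hMq'.trans_le ?_
        rw [hq]
        gcongr
      exact lt_of_le_of_lt h2 h5
    have h6 : nC p hV ((hV.incl D.δ₀ * PreTilt.untilt Nm.an : V) : C) =
          c0 * nT hV b (algebraMap _ (TF V p) Nm.an) := by
        rw [hTN1, ← hδ₀, ← hmulC]; rfl
    have h7 : MvPolynomial.eval₂ hV.incl (fun i => PreTilt.untilt (Nm.wn i)) (D.L j) =
        PreTilt.untilt (Nm.wn l) *
          MvPolynomial.eval₂ hV.incl (fun i => PreTilt.untilt (x i)) (D.L j) := by
      have h8 : (fun i => PreTilt.untilt (Nm.wn i)) =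
          fun i => PreTilt.untilt (Nm.wn l) * PreTilt.untilt (x i) := by
        funext i
        rw [← map_mul, ← hx i]
      rw [h8, eval₂_hom hV.incl (D.L_hom j), pow_one]
    rw [← h6, ← h3, h7, hTN1]
    have h9 : nC p hV ((PreTilt.untilt (Nm.wn l) * MvPolynomial.eval₂ hV.incl
        (fun i => PreTilt.untilt (x i)) (D.L j) : V) : C) = nC p hV (PreTilt.untilt (Nm.wn l) : V) *
        nC p hV ((MvPolynomial.eval₂ hV.incl (fun i => PreTilt.untilt (x i)) (D.L j) : V) : C) := by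
      rw [← hmulC]; rfl
    rw [h9]
    exact mul_le_of_le_one_right (hnnC _) (vn_le_one (W := V) (F := C) _)
  have hwl : Nm.wn l ≠ 0 := by
    intro h
    have h1 : nT hV b (algebraMap _ (TF V p) (Nm.wn l)) = 0 := by
      rw [h, map_zero]; exact vn_zero hϖ
    rw [h1] at hlow
    exact absurd (mul_pos hc0pos hanpos) (not_lt.2 hlow)
  have hwl' : algebraMap _ (TF V p) (Nm.wn l) ≠ 0 := fun h =>
    hwl (IsFractionRing.injective (PreTilt V p) (TF V p) (by rw [map_zero]; exact h))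
  have hxl : x l = 1 := mul_left_cancel₀ hwl (by rw [← hx l, mul_one])
  refine ⟨?_, ⟨l, ?_⟩, ?_, ?_⟩
  · -- first claim
    have h1 : nT hV b L ^ D.D * max 1 (nT hV b u) ^ D.D = nT hV b L ^ D.D * max 1 (nT hV b a) := by
      rw [hmaxa, ← mul_pow, hmaxu, one_pow]
    exact mul_left_cancel₀ (pow_ne_zero _ hLpos.ne') h1
  · -- second claim
    have h1 : nT hV b (w l / a) * (nT hV b (algebraMap _ (TF V p) Nm.an) * nT hV b L) =
        nT hV b (algebraMap _ (TF V p) (Nm.wn l)) := by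
      rw [hwa, ← hmul, ← hmul, div_mul_cancel₀ _ (mul_ne_zero han0' hL0)]
    have h2 : c0 * max 1 (nT hV b u) * (nT hV b (algebraMap _ (TF V p) Nm.an) * nT hV b L) =
        c0 * nT hV b (algebraMap _ (TF V p) Nm.an) := by
      linear_combination c0 * nT hV b (algebraMap _ (TF V p) Nm.an) * hmaxu
    exact le_of_mul_le_mul_right (by rw [h1, h2]; exact hlow) (by positivity)
  · -- third claim
    refine ⟨algebraMap _ (TF V p) (Nm.wn l) / (algebraMap _ (TF V p) Nm.an * L), x, l,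
      div_ne_zero hwl' (mul_ne_zero han0' hL0), hxl, fun i => ?_, fun j => ?_⟩
    · beta_reduce
      rw [hwa i, hx i, map_mul]
      ring
    · have h1 := P_dvd hV Nm (hP j).1 (hP j).2
      have h8 : (fun i => PreTilt.untilt (Nm.wn i)) =
          fun i => PreTilt.untilt (Nm.wn l) * PreTilt.untilt (x i) := by
        funext i
        rw [← map_mul, ← hx i]
      rw [h8, eval₂_hom hV.incl (hP j).1] at h1
      have h2 := vn_dvd (F := C) hpV h1
      apply dvd_of_vn_lt (F := C) hpV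
      by_contra hcon
      push Not at hcon
      have h3 : nC p hV ((PreTilt.untilt (Nm.wn l) ^ dP j * MvPolynomial.eval₂ hV.incl
          (fun i => PreTilt.untilt (x i)) (P j) : V) : C) =
          nC p hV (PreTilt.untilt (Nm.wn l) : V) ^ dP j *
          nC p hV ((MvPolynomial.eval₂ hV.incl (fun i => PreTilt.untilt (x i)) (P j) : V) : C) := by
        rw [← hpowC, ← hmulC]; rfl
      have h4 : q ≤ nC p hV (PreTilt.untilt (Nm.wn l) : V) := by
        rw [← hTN1]
        refine le_trans ?_ hlow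
        rw [hq]
        gcongr
      have h5 : q ^ (Dm + 1) * (1 / 2) ^ m ≤ (1 / 2) ^ M := by
        calc q ^ (Dm + 1) * (1 / 2) ^ m ≤ q ^ dP j * (1 / 2) ^ m := by
              gcongr ?_ * _
              exact pow_le_pow_of_le_one hqpos.le hqle ((hDm j).trans (Nat.le_succ _))
          _ ≤ nC p hV (PreTilt.untilt (Nm.wn l) : V) ^ dP j *
              nC p hV ((MvPolynomial.eval₂ hV.incl (fun i => PreTilt.untilt (x i)) (P j) : V) :
                C) := by
              exact mul_le_mul (pow_le_pow_left₀ hqpos.le h4 _) hcon (by positivity)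
                (pow_nonneg (hnnC _) _)
          _ = nC p hV ((PreTilt.untilt (Nm.wn l) ^ dP j * MvPolynomial.eval₂ hV.incl
              (fun i => PreTilt.untilt (x i)) (P j) : V) : C) := h3.symm
          _ ≤ (1 / 2) ^ M := h2
      rw [mul_comm] at h5
      exact absurd hMq (not_lt.2 h5)
  · -- fourth claim
    intro hba huR v' hv'
    obtain ⟨hanu, hX0, hX1, hLu⟩ := hbig hba
    obtain ⟨an', han'⟩ := hanu.exists_right_inv
    have han1 : nT hV b (algebraMap _ (TF V p) Nm.an) = 1 := vn_unit hϖ hanu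
    -- `y`
    have hy : ∀ i, w i / a * L = algebraMap _ (TF V p) (Nm.wn i * an') := by
      intro i
      have h1 : algebraMap _ (TF V p) Nm.an * algebraMap _ (TF V p) an' = 1 := by
        rw [← map_mul, han', map_one]
      rw [hwa i, map_mul]
      field_simp
      linear_combination (-algebraMap _ (TF V p) (Nm.wn i)) * h1
    have ht : ∀ i, ∃ t : PreTilt V p, algebraMap _ (TF V p) t = (w i / a - v' i) * L ∧
        (b.ϖV hV) ^ (p ^ j0) ∣ t := by
      intro i
      apply exists_of_vn_lt_pow hϖ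
      have h1 : nT hV b ((w i / a - v' i) * L) ≤ (1 / 2) ^ (p ^ j0 + 1) := by
        rw [hmul]
        calc nT hV b (w i / a - v' i) * nT hV b L
            ≤ ((1 / 2) ^ (p ^ j0 + 1) * max 1 (nT hV b u)) * nT hV b L := by
              gcongr
              exact hv' i
          _ = (1 / 2) ^ (p ^ j0 + 1) := by
              linear_combination (1 / 2) ^ (p ^ j0 + 1) * hmaxu
      refine lt_of_le_of_lt h1 ?_
      exact pow_lt_pow_right_of_lt_one₀ (by norm_num) (by norm_num) (Nat.lt_succ_self _)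
    choose t ht1 ht2 using ht
    set y : Fin (n + 1) → PreTilt V p := fun i => Nm.wn i * an' with hyd
    set y' : Fin (n + 1) → PreTilt V p := fun i => y i - t i with hy'd
    have hy' : ∀ i, algebraMap _ (TF V p) (y' i) = v' i * L := by
      intro i
      rw [hy'd, map_sub, ht1, ← hy i]
      ring
    have hclose : ∀ i, (p : V) ^ (j0 + 1) ∣ PreTilt.untilt (y' i) - PreTilt.untilt (y i) := by
      intro i
      apply hUC C ι V hV
      have h1 : y' i - y i = -t i := by rw [hy'd]; ring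
      rw [h1]
      exact (dvd_neg.2 (ht2 i))
    have hLk : ∀ k : Fin 2, (p : V) ^ (j0 + 1) ∣
        MvPolynomial.eval₂ hV.incl (fun i => PreTilt.untilt (y' i)) (D.L k) -
          hV.incl D.δ₀ * PreTilt.untilt (Nm.X k) := by
      intro k
      have h1 := L_dvd hV Nm k
      have h2 : (fun i => PreTilt.untilt (Nm.wn i)) =
          fun i => PreTilt.untilt Nm.an * PreTilt.untilt (y i) := by
        funext i
        rw [← map_mul, hyd]
        congr 1
        linear_combination (-Nm.wn i) * han'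
      rw [h2, eval₂_hom hV.incl (D.L_hom k), pow_one] at h1
      have h3 : PreTilt.untilt Nm.an *
          MvPolynomial.eval₂ hV.incl (fun i => PreTilt.untilt (y i)) (D.L k) -
          hV.incl D.δ₀ * PreTilt.untilt (Nm.X k) * PreTilt.untilt Nm.an = PreTilt.untilt Nm.an *
          (MvPolynomial.eval₂ hV.incl (fun i => PreTilt.untilt (y i)) (D.L k) -
          hV.incl D.δ₀ * PreTilt.untilt (Nm.X k)) := by ring
      rw [h3, (isUnit_untilt.2 hanu).dvd_mul_left] at h1
      have h4 := (pow_dvd_pow (p : V) hMj).trans h1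
      have h5 := eval₂_congr_dvd hV.incl _ _ _ hclose (D.L k)
      have h6 := dvd_add h5 h4
      convert h6 using 1
      ring
    have hlu' : nT hV b L = nC p hV (PreTilt.untilt Nm.lam : V) := hTN1 _
    have hcR : c0 / R' ≤ c0 * nT hV b L := by
      rw [div_le_iff₀ hR'pos]
      have h1 : nT hV b u ≤ R' := huR.trans (le_max_left _ _)
      have h2 : 1 ≤ nT hV b L * R' := by
        rw [← hLu]
        gcongr
      nlinarith
    have hL1 : nC p hV ((MvPolynomial.eval₂ hV.incl (fun i => PreTilt.untilt (y' i)) (D.L 1) : V) :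
        C) = c0 := by
      have h1 := hLk 1
      rw [hX1, map_one, mul_one] at h1
      have h2 := vn_dvd (F := C) hpV h1
      rw [← hδ₀]
      apply vn_eq_of_sub_lt hpV
      refine lt_of_le_of_lt h2 (hj0.trans_le ?_)
      change c0 / R' ≤ nC p hV ((hV.incl D.δ₀ : V) : C)
      rw [hδ₀, div_le_iff₀ hR'pos]
      exact le_mul_of_one_le_right hc0pos.le (le_max_right _ _)
    have hL0' : nC p hV ((MvPolynomial.eval₂ hV.incl (fun i => PreTilt.untilt (y' i)) (D.L 0) : V) :
        C) = c0 * nT hV b L := by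
      have h1 := hLk 0
      rw [hX0] at h1
      have h2 := vn_dvd (F := C) hpV h1
      have h3 : nC p hV ((hV.incl D.δ₀ * PreTilt.untilt Nm.lam : V) : C) = c0 * nT hV b L := by
        rw [hlu', ← hδ₀, ← hmulC]; rfl
      rw [← h3]
      apply vn_eq_of_sub_lt hpV
      refine lt_of_le_of_lt h2 (hj0.trans_le ?_)
      change c0 / R' ≤ nC p hV ((hV.incl D.δ₀ * PreTilt.untilt Nm.lam : V) : C)
      rw [h3]
      exact hcR
    refine ⟨L⁻¹, y', inv_ne_zero hL0, fun i => ?_, ?_, ?_⟩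
    · rw [hy' i]
      field_simp
    · rw [hL1]; exact hc0pos.ne'
    · rw [hL0', hL1, mul_assoc, hLu, mul_one]

end Pool.Agent.DC
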