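import Pool.Agent.DC.StmtsC

/-!
# Module RANK: the equation of a piece of the cover
-/

set_option autoImplicit false
set_option linter.unusedSectionVars false

noncomputable section

namespace Pool.Agent.DC

open Polynomial
open scoped Classical

universe u

namespace RANK

variable {k : Type u} [NontriviallyNormedField k] [IsUltrametricDist k]

/-- The base point. -/
def one' : Tc k := ⟨1, norm_one⟩

theorem rr_one_ne_zero : (1 : RR k) ≠ 0 := by
  intro h
  have h1 := congrArg (evR (one' (k := k))) h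
  rw [map_one, map_zero] at h1
  exact one_ne_zero h1

/-- Constants in `RR k`. -/
theorem evR_const (a : Tc k) (v : k) : evR a (polR (C v)) = v := by
  rw [evR_polR, eval_C]

theorem exists_factor_zero (hDom : Stmt_Dom k) (S : Finset k) (f : RR k)
    (h : ∏ v ∈ S, (f - polR (C v)) = 0) : ∃ v ∈ S, f = polR (C v) := by
  induction S using Finset.induction_on with
  | empty =>
    rw [Finset.prod_empty] at h
    exact absurd h rr_one_ne_zero
  | insert v S hv ih =>
    rw [Finset.prod_insert hv] at h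
    rcases hDom _ _ h with h1 | h1
    · exact ⟨v, Finset.mem_insert_self _ _, sub_eq_zero.mp h1⟩
    · obtain ⟨w, hw, hfw⟩ := ih h1
      exact ⟨w, Finset.mem_insert_of_mem hw, hfw⟩

theorem const_of_finite (hDom : Stmt_Dom k) (S : Finset k) (f : RR k)
    (h : ∀ a, evR a f ∈ S) : ∀ a b, evR a f = evR b f := by
  have h0 : ∏ v ∈ S, (f - polR (C v)) = 0 := by
    apply RR.ext
    intro a
    rw [map_zero, map_prod]
    apply Finset.prod_eq_zero (h a)
    rw [map_sub, evR_const, sub_self]
  obtain ⟨v, _, hv⟩ := exists_factor_zero hDom S f h0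
  intro a b
  rw [hv, evR_const, evR_const]

theorem map_const_of_finite (hDom : Stmt_Dom k) (χ : (RR k)[X]) (T : Finset k[X])
    (h : ∀ a, χ.map (evR a) ∈ T) : ∀ a b, χ.map (evR a) = χ.map (evR b) := by
  intro a b
  ext j
  rw [coeff_map, coeff_map]
  apply const_of_finite hDom (T.image fun q => q.coeff j)
  intro a'
  rw [Finset.mem_image]
  exact ⟨_, h a', by rw [coeff_map]⟩

/-- Splitting a product over `s` according to a subset. -/
theorem prod_ind (s E : Finset k) (hE : E ⊆ s) (g : k → k) :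
    ∏ θ ∈ s, (X - C (g θ * if θ ∈ E then 1 else 0)) =
      X ^ (s.card - E.card) * ∏ θ ∈ E, (X - C (g θ)) := by
  rw [← Finset.prod_sdiff hE]
  congr 1
  · rw [← Finset.card_sdiff_of_subset hE, ← Finset.prod_const]
    apply Finset.prod_congr rfl
    intro θ hθ
    rw [if_neg (Finset.mem_sdiff.mp hθ).2]
    simp
  · apply Finset.prod_congr rfl
    intro θ hθ
    rw [if_pos hθ, mul_one]

theorem count_roots (m r : ℕ) (S : Finset k) (hS : S.card = r) :
    ((X ^ (m - r) * ∏ _θ ∈ S, (X - C (1 : k))).roots).count 1 = r := by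
  rw [Finset.prod_const, hS]
  have h1 : (X ^ (m - r) * (X - C (1 : k)) ^ r) ≠ 0 :=
    mul_ne_zero (pow_ne_zero _ X_ne_zero) (pow_ne_zero _ (X_sub_C_ne_zero _))
  rw [roots_mul h1, roots_pow, roots_pow, roots_X, roots_X_sub_C, Multiset.count_add,
    Multiset.count_nsmul, Multiset.count_nsmul]
  simp

variable [CompleteSpace k] [IsAlgClosed k]

theorem main (hDom : Stmt_Dom k) (hRes : Stmt_Res.{u}) (c : Cov k) (d : ℝ) (hs : Sep c d)
    (E : Tc k → Finset k) (hE : ∀ a, E a ⊆ fib c.P a)
    (hind : IsA c fun a θ => if θ ∈ E a then 1 else 0) :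
    ∃ G : (RR k)[X], G.Monic ∧ ∀ a, G.map (evR a) = ∏ θ ∈ E a, (X - C θ) := by
  obtain ⟨u, hu⟩ := hind
  obtain ⟨m, hm⟩ : ∃ m, c.P.natDegree = m := ⟨_, rfl⟩
  have hPm : (c.P.map (polR (k := k))).Monic := c.monic.map _
  have hev : ∀ a : Tc k, (evR a).comp (polR (k := k)) = evalRingHom a.1 := fun a => by
    apply RingHom.ext
    intro g
    rfl
  have hPa : ∀ a : Tc k, (c.P.map (polR (k := k))).map (evR a) =
      ((fib c.P a).val.map fun θ => X - C θ).prod := by
    intro a
    rw [Polynomial.map_map, hev, hs.prod a]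
    rfl
  have hnt : Nontrivial (RR k) := ⟨1, 0, rr_one_ne_zero⟩
  have hPdeg : (c.P.map (polR (k := k))).natDegree = m := by
    rw [c.monic.natDegree_map, hm]
  -- general form
  have key : ∀ g : (RR k)[X], ∃ Φ : (RR k)[X], Φ.Monic ∧ Φ.natDegree = m ∧
      ∀ a, Φ.map (evR a) = ∏ θ ∈ fib c.P a, (X - C ((g.map (evR a)).eval θ)) := by
    intro g
    obtain ⟨Φ, h1, h2, h3⟩ := hRes (RR k) (c.P.map polR) g hPm
    refine ⟨Φ, h1, h2.trans hPdeg, fun a => ?_⟩
    rw [h3 k (evR a) _ (hPa a)]
    rfl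
  obtain ⟨χ, hχ1, hχ2, hχ3⟩ := key u
  obtain ⟨χ', hχ'1, hχ'2, hχ'3⟩ := key (X * u)
  have h4 : ∀ a, χ.map (evR a) = X ^ (m - (E a).card) * ∏ _θ ∈ E a, (X - C (1 : k)) := by
    intro a
    rw [hχ3 a, ← hm, ← hs.card a, ← prod_ind (fib c.P a) (E a) (hE a) fun _ => 1]
    apply Finset.prod_congr rfl
    intro θ hθ
    rw [← hu a θ hθ, one_mul]
  have h5 : ∀ a, χ'.map (evR a) = X ^ (m - (E a).card) * ∏ θ ∈ E a, (X - C θ) := by
    intro a
    rw [hχ'3 a, ← hm, ← hs.card a, ← prod_ind (fib c.P a) (E a) (hE a) fun θ => θ]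
    apply Finset.prod_congr rfl
    intro θ hθ
    rw [Polynomial.map_mul, map_X, eval_mul, eval_X, ← hu a θ hθ]
  have hcard : ∀ a, (E a).card ≤ m := fun a => by
    rw [← hm, ← hs.card a]
    exact Finset.card_le_card (hE a)
  -- the rank is constant
  have h6 : ∀ a b, (E a).card = (E b).card := by
    have h7 := map_const_of_finite hDom χ
      ((Finset.range (m + 1)).image fun r => X ^ (m - r) * (X - C (1 : k)) ^ r) (fun a => by
        rw [Finset.mem_image]
        refine ⟨(E a).card, Finset.mem_range.mpr (Nat.lt_succ_of_le (hcard a)), ?_⟩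
        rw [h4 a, Finset.prod_const])
    intro a b
    have h8 := h7 a b
    rw [h4 a, h4 b] at h8
    have h9 := congrArg (fun q : k[X] => q.roots.count 1) h8
    rw [count_roots m _ (E a) rfl, count_roots m _ (E b) rfl] at h9
    exact h9
  obtain ⟨r, hr⟩ : ∃ r, ∀ a, (E a).card = r := ⟨(E one').card, fun a => h6 a _⟩
  have hrm : r ≤ m := by rw [← hr one']; exact hcard _
  let G : (RR k)[X] := ∑ j ∈ Finset.range (r + 1), monomial j (χ'.coeff (j + (m - r)))
  have hGc : ∀ j, G.coeff j = if j ≤ r then χ'.coeff (j + (m - r)) else 0 := by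
    intro j
    simp only [G, finsetSum_coeff, coeff_monomial]
    rw [Finset.sum_ite_eq']
    simp only [Finset.mem_range, Nat.lt_succ_iff]
  refine ⟨G, ?_, fun a => ?_⟩
  · apply monic_of_natDegree_le_of_coeff_eq_one r
    · rw [natDegree_le_iff_coeff_eq_zero]
      intro j hj
      rw [hGc, if_neg (not_le.mpr hj)]
    · rw [hGc, if_pos le_rfl, Nat.add_sub_cancel' hrm, ← hχ'2]
      exact hχ'1
  · ext j
    rw [coeff_map, hGc]
    split_ifs with hj
    · rw [← coeff_map, h5 a, hr a, coeff_X_pow_mul]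
    · rw [map_zero]
      symm
      apply coeff_eq_zero_of_natDegree_lt
      rw [natDegree_prod_of_monic _ _ fun θ _ => monic_X_sub_C θ]
      simp only [natDegree_X_sub_C, Finset.sum_const, smul_eq_mul, mul_one]
      rw [hr a]
      exact not_le.mp hj

end RANK

variable (k : Type u) [NontriviallyNormedField k] [IsUltrametricDist k] [CompleteSpace k]
  [IsAlgClosed k]

theorem rank_proof (hDom : Stmt_Dom k) (hRes : Stmt_Res.{u}) : Stmt_Rank k :=
  fun c d hs E hE hind => RANK.main hDom hRes c d hs E hE hind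

end Pool.Agent.DC
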