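import Pool.Agent.DC.StmtsC

/-!
# Module RES
-/

set_option autoImplicit false

noncomputable section

namespace Pool.Agent.DC

open Polynomial

namespace RES

/-- the characteristic polynomial as a resultant -/
def phi {A : Type*} [CommRing A] (P g : A[X]) (d n : ℕ) : A[X] :=
  resultant (P.map (C : A →+* A[X])) (C X - g.map (C : A →+* A[X])) d n

theorem phi_map {A B : Type*} [CommRing A] [CommRing B] (f : A →+* B) (P g : A[X]) (d n : ℕ) :
    (phi P g d n).map f = phi (P.map f) (g.map f) d n := by
  unfold phi
  show (mapRingHom f) (resultant _ _ d n) = _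
  rw [← resultant_map_map]
  congr 1
  · rw [Polynomial.map_map, Polynomial.map_map]
    congr 1
    ext a
    simp
  · rw [Polynomial.map_sub, Polynomial.map_map, Polynomial.map_map, Polynomial.map_C]
    congr 1
    · simp
    · congr 1
      ext a
      simp

theorem phi_split {F : Type*} [Field F] (s : Multiset F) (g : F[X]) (n : ℕ)
    (hn : g.natDegree ≤ n) :
    phi ((s.map fun θ => X - C θ).prod) g s.card n =
      (s.map fun θ => X - C (g.eval θ)).prod := by
  have h1 : ((s.map fun θ => X - C θ).prod).map (C : F →+* F[X]) =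
      ((s.map C).map fun θ => X - C θ).prod := by
    rw [Polynomial.map_multiset_prod, Multiset.map_map, Multiset.map_map]
    congr 1
    apply Multiset.map_congr rfl
    intro θ _
    simp
  have hd : (((s.map (C : F →+* F[X])).map fun θ => X - C θ).prod).natDegree = s.card := by
    rw [natDegree_multiset_prod_X_sub_C_eq_card, Multiset.card_map]
  have hm : (((s.map (C : F →+* F[X])).map fun θ => X - C θ).prod).Monic :=
    monic_multiset_prod_of_monic _ _ fun a _ => monic_X_sub_C a
  unfold phi
  rw [h1]
  have := resultant_eq_prod_eval (((s.map (C : F →+* F[X])).map fun θ => X - C θ).prod)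
    (C X - g.map (C : F →+* F[X])) n ?_ ?_
  · rw [hd, hm.leadingCoeff, one_pow, one_mul, roots_multiset_prod_X_sub_C] at this
    rw [this, Multiset.map_map]
    congr 1
    apply Multiset.map_congr rfl
    intro θ _
    simp [eval_map, eval₂_at_apply]
  · refine (natDegree_sub_le _ _).trans (max_le ?_ ?_)
    · rw [natDegree_C]; exact Nat.zero_le _
    · exact (natDegree_map_le).trans hn
  · apply Splits.multisetProd
    intro a ha
    rw [Multiset.mem_map] at ha
    obtain ⟨b, _, rfl⟩ := ha
    exact Splits.X_sub_C b

theorem phi_monic_domain {A : Type*} [CommRing A] [IsDomain A] (P g : A[X]) (hP : P.Monic) (n : ℕ)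
    (hn : g.natDegree ≤ n) :
    (phi P g P.natDegree n).Monic ∧ (phi P g P.natDegree n).natDegree = P.natDegree := by
  let K := AlgebraicClosure (FractionRing A)
  let ι : A →+* K := (algebraMap (FractionRing A) K).comp (algebraMap A (FractionRing A))
  have hι : Function.Injective ι :=
    (algebraMap (FractionRing A) K).injective.comp (IsFractionRing.injective A (FractionRing A))
  have hs : P.map ι = ((P.map ι).roots.map fun θ => X - C θ).prod :=
    (IsAlgClosed.splits (P.map ι)).eq_prod_roots_of_monic (hP.map ι)
  have hc : (P.map ι).roots.card = P.natDegree := by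
    rw [← (IsAlgClosed.splits (P.map ι)).natDegree_eq_card_roots, hP.natDegree_map]
  have key := phi_split (P.map ι).roots (g.map ι) n (natDegree_map_le.trans hn)
  rw [← hs, hc, ← phi_map] at key
  have hm : ((phi P g P.natDegree n).map ι).Monic := by
    rw [key]; exact monic_multiset_prod_of_monic _ _ fun a _ => monic_X_sub_C _
  have hm' := (Function.Injective.monic_map_iff hι).2 hm
  refine ⟨hm', ?_⟩
  rw [← hm'.natDegree_map ι, key]
  have : ((P.map ι).roots.map fun θ => X - C ((g.map ι).eval θ)) =
      (((P.map ι).roots.map fun θ => (g.map ι).eval θ).map fun θ => X - C θ) := by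
    rw [Multiset.map_map]; rfl
  rw [this, natDegree_multiset_prod_X_sub_C_eq_card, Multiset.card_map, hc]

theorem phi_monic {A : Type*} [CommRing A] [Nontrivial A] (P g : A[X]) (hP : P.Monic) (n : ℕ)
    (hn : g.natDegree ≤ n) :
    (phi P g P.natDegree n).Monic ∧ (phi P g P.natDegree n).natDegree = P.natDegree := by
  let φ : MvPolynomial A ℤ →+* A := MvPolynomial.eval₂Hom (Int.castRingHom A) id
  have hφ : Function.Surjective φ := fun x => ⟨MvPolynomial.X x, by simp [φ]⟩
  have hl : ∀ q : A[X], q ∈ lifts φ := fun q => by
    rw [lifts_iff_coeff_lifts]; intro i; exact hφ _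
  obtain ⟨P', h1, h2, h3⟩ := lifts_and_natDegree_eq_and_monic (hl P) hP
  obtain ⟨g', h4, h5⟩ := mem_lifts_and_degree_eq (hl g)
  have h6 : g'.natDegree = g.natDegree := natDegree_eq_of_degree_eq h5
  obtain ⟨k1, k2⟩ := phi_monic_domain P' g' h3 n (by omega)
  have k3 : (phi P' g' P'.natDegree n).map φ = phi P g P.natDegree n := by
    rw [phi_map, h1, h4, h2]
  rw [← k3]
  exact ⟨k1.map φ, by rw [k1.natDegree_map, k2, h2]⟩

end RES

theorem res_proof : Stmt_Res := by
  intro A _ P g hP
  rcases subsingleton_or_nontrivial A with hA | hA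
  · refine ⟨P, hP, rfl, ?_⟩
    intro Ω _ f s _
    exfalso
    have : (1 : Ω) = 0 := by
      rw [← map_one f, Subsingleton.elim (1 : A) 0, map_zero]
    exact one_ne_zero this
  · obtain ⟨h1, h2⟩ := RES.phi_monic P g hP g.natDegree le_rfl
    refine ⟨_, h1, h2, ?_⟩
    intro Ω _ f s hs
    rw [RES.phi_map, hs]
    have hc : P.natDegree = s.card := by
      rw [← hP.natDegree_map f, hs, natDegree_multiset_prod_X_sub_C_eq_card]
    rw [hc]
    exact RES.phi_split s (g.map f) _ natDegree_map_le

end Pool.Agent.DC
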