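import Pool.Agent.DC.StmtsB

set_option autoImplicit false
set_option linter.unusedSectionVars false

noncomputable section

namespace Pool.Agent.DC

open Polynomial
open scoped Classical

universe u

namespace RESC

variable {k : Type u} [NontriviallyNormedField k] [IsUltrametricDist k]

theorem exists_norm_between [IsAlgClosed k] {s₁ s₂ : ℝ} (h1 : 0 < s₁) (h2 : s₁ < s₂) :
    ∃ y : k, s₁ < ‖y‖ ∧ ‖y‖ < s₂ := by
  obtain ⟨x, hx⟩ := NormedField.exists_one_lt_norm k
  have h3 : 1 < s₂ / s₁ := by rwa [lt_div_iff₀ h1, one_mul]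
  obtain ⟨n, hn⟩ := pow_unbounded_of_one_lt ‖x‖ h3
  have hn0 : 0 < n := by
    rcases Nat.eq_zero_or_pos n with h | h
    · subst h
      rw [pow_zero] at hn
      linarith
    · exact h
  obtain ⟨y, hy⟩ := IsAlgClosed.exists_pow_nat_eq x hn0
  have hyn : ‖y‖ ^ n = ‖x‖ := by rw [← norm_pow, hy]
  have hy1 : 1 < ‖y‖ := by
    by_contra h
    rw [not_lt] at h
    have := pow_le_one₀ (n := n) (norm_nonneg y) h
    linarith
  have hy2 : ‖y‖ < s₂ / s₁ := by
    by_contra h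
    rw [not_lt] at h
    have := pow_le_pow_left₀ (by positivity) h n
    linarith
  obtain ⟨j, hj1, hj2⟩ := exists_mem_Ico_zpow h1 hy1
  refine ⟨y ^ (j + 1), ?_, ?_⟩
  · rw [norm_zpow]
    exact hj2
  · rw [norm_zpow, zpow_add_one₀ (by positivity)]
    calc ‖y‖ ^ j * ‖y‖ ≤ s₁ * ‖y‖ := by gcongr
      _ < s₁ * (s₂ / s₁) := by gcongr
      _ = s₂ := by field_simp

theorem exists_norm_avoid [IsAlgClosed k] {s₁ s₂ : ℝ} (h1 : 0 < s₁) (h2 : s₁ < s₂)
    (F : Set ℝ) (hF : F.Finite) : ∃ y : k, s₁ < ‖y‖ ∧ ‖y‖ < s₂ ∧ ‖y‖ ∉ F := by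
  have hne : (Set.Ioo s₁ s₂ \ F).Nonempty := ((Set.Ioo_infinite h2).sdiff hF).nonempty
  obtain ⟨x, hx⟩ := hne
  have hopen : IsOpen (Set.Ioo s₁ s₂ \ F) := isOpen_Ioo.sdiff hF.isClosed
  obtain ⟨ε, hε, hb⟩ := Metric.isOpen_iff.mp hopen x hx
  obtain ⟨y, hy1, hy2⟩ := exists_norm_between (k := k) (lt_trans h1 hx.1.1)
    (show x < x + ε by linarith)
  have hy : ‖y‖ ∈ Set.Ioo s₁ s₂ \ F := by
    apply hb
    rw [Metric.mem_ball, Real.dist_eq, abs_of_pos (by linarith)]
    linarith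
  exact ⟨y, hy.1.1, hy.1.2, hy.2⟩

theorem gn_C_mul (c : k) (f : k[X]) : gn (C c * f) ≤ ‖c‖ * gn f :=
  gn_le fun i => by
    rw [coeff_C_mul, norm_mul]
    exact mul_le_mul_of_nonneg_left (coeff_le_gn f i) (norm_nonneg c)

theorem gn_one_le : gn (1 : k[X]) ≤ 1 := by
  apply gn_le
  intro i
  rw [coeff_one]
  split_ifs <;> simp

end RESC

open RESC in
theorem resc_proof (k : Type u) [NontriviallyNormedField k] [IsUltrametricDist k]
    [CompleteSpace k] [IsAlgClosed k] : Stmt_Resc k := by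
  intro n P N q U W D₀ s₁ s₂ hmon hpos hbez hD₀ hq hs₁ hs₂
  obtain ⟨ts, ht1, ht2, ht3⟩ := exists_norm_avoid (k := k) hs₁ hs₂
    (norm '' ((D₀.roots.toFinset ∪ q.roots.toFinset : Finset k) : Set k))
    ((Finset.finite_toSet _).image _)
  have hroot : ∀ g : k[X], g ≠ 0 → g.roots.toFinset ⊆ D₀.roots.toFinset ∪ q.roots.toFinset →
      ∀ a : Tc k, (g.comp (C ts * X)).eval a.1 ≠ 0 := by
    intro g hg hsub a h0
    rw [eval_comp, eval_mul, eval_C, eval_X] at h0
    apply ht3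
    refine ⟨ts * a.1, ?_, ?_⟩
    · apply hsub
      rw [Multiset.mem_toFinset, mem_roots hg]
      exact h0
    · rw [norm_mul, a.2, mul_one]
  -- substitution `t ↦ ts * t`
  set σ : k[X] →+* k[X] := compRingHom (C ts * X) with hσ
  have hσa : ∀ g : k[X], σ g = g.comp (C ts * X) := fun g => rfl
  set m := P.natDegree with hm
  set P₁ : k[X][X] := P.map σ with hP₁
  -- bound for the coefficients
  obtain ⟨B, hB0, hB⟩ : ∃ B : ℝ, 0 ≤ B ∧ ∀ j, gn (P₁.coeff j) ≤ B := by
    refine ⟨∑ j ∈ P₁.support, gn (P₁.coeff j), Finset.sum_nonneg fun _ _ => gn_nonneg _,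
      fun j => ?_⟩
    by_cases hj : j ∈ P₁.support
    · exact Finset.single_le_sum (f := fun j => gn (P₁.coeff j)) (fun _ _ => gn_nonneg _) hj
    · rw [notMem_support_iff.mp hj, gn_zero]
      exact Finset.sum_nonneg fun _ _ => gn_nonneg _
  obtain ⟨cc, hcc0, hcc1⟩ := NormedField.exists_norm_lt k (show (0 : ℝ) < 1 / (B + 1) by positivity)
  have hcc : cc ≠ 0 := norm_pos_iff.mp hcc0
  have hccle : ‖cc‖ ≤ 1 := hcc1.le.trans (by
    rw [div_le_one (by positivity)]
    linarith)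
  have hccB : ‖cc‖ * B ≤ 1 := by
    rw [lt_div_iff₀ (by positivity)] at hcc1
    nlinarith
  -- substitution `X ↦ X / cc`
  set τ : k[X][X] →+* k[X][X] := compRingHom (C (C cc⁻¹) * X) with hτ
  have hτa : ∀ g : k[X][X], τ g = g.comp (C (C cc⁻¹) * X) := fun g => rfl
  set P' : k[X][X] := C (C (cc ^ m)) * τ P₁ with hP'
  have hcoef : ∀ j, P'.coeff j = C (cc ^ m * cc⁻¹ ^ j) * P₁.coeff j := by
    intro j
    rw [hP', coeff_C_mul, hτa, comp_C_mul_X_coeff, C_mul, ← C_pow]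
    ring
  have hP1mon : P₁.Monic := hmon.map σ
  have hP1deg : P₁.natDegree = m := hmon.natDegree_map σ
  have hcm : P'.coeff m = 1 := by
    rw [hcoef]
    have h1 : P₁.coeff m = 1 := by
      rw [← hP1deg]
      exact hP1mon
    rw [h1, mul_one, ← mul_pow, mul_inv_cancel₀ hcc, one_pow, C_1]
  have hdeg : P'.natDegree ≤ m := by
    rw [natDegree_le_iff_coeff_eq_zero]
    intro j hj
    rw [hcoef, coeff_eq_zero_of_natDegree_lt (by rw [hP1deg]; exact hj), mul_zero]
  have hmon' : P'.Monic := monic_of_natDegree_le_of_coeff_eq_one m hdeg hcm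
  have hdeg' : P'.natDegree = m := le_antisymm hdeg (le_natDegree_of_ne_zero (by
    rw [hcm]; exact one_ne_zero))
  have hder : derivative P' = C (C (cc ^ m * cc⁻¹)) * τ (derivative P₁) := by
    ext1 j
    rw [coeff_derivative, hcoef, coeff_C_mul, hτa, comp_C_mul_X_coeff, coeff_derivative, ← C_pow]
    rw [pow_succ, ← mul_assoc, C_mul, C_mul, C_mul]
    ring
  have hbez1 : (C (C (cc ^ m)⁻¹) * τ (U.map σ)) * P' +
      (C (C (cc ^ m * cc⁻¹)⁻¹) * τ (W.map σ)) * derivative P' = C (σ D₀) := by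
    have h1 : (C (C (cc ^ m)⁻¹) : k[X][X]) * C (C (cc ^ m)) = 1 := by
      rw [← C_mul, ← C_mul, inv_mul_cancel₀ (pow_ne_zero _ hcc), C_1, C_1]
    have h2 : (C (C (cc ^ m * cc⁻¹)⁻¹) : k[X][X]) * C (C (cc ^ m * cc⁻¹)) = 1 := by
      rw [← C_mul, ← C_mul, inv_mul_cancel₀ (mul_ne_zero (pow_ne_zero _ hcc) (inv_ne_zero hcc)),
        C_1, C_1]
    have h3 : U.map σ * P₁ + W.map σ * derivative P₁ = C (σ D₀) := by
      have := congrArg (Polynomial.map σ) hbez
      rwa [Polynomial.map_add, Polynomial.map_mul, Polynomial.map_mul, map_C, ← derivative_map]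
        at this
    have h4 : τ (U.map σ) * τ P₁ + τ (W.map σ) * τ (derivative P₁) = C (σ D₀) := by
      rw [← map_mul, ← map_mul, ← map_add, h3, hτa, C_comp]
    rw [hder, hP', ← h4]
    linear_combination (τ (U.map σ) * τ P₁) * h1 + (τ (W.map σ) * τ (derivative P₁)) * h2
  refine ⟨ts, ⟨P', hmon', by rw [hdeg']; exact hpos, ?_, _, _, σ D₀, hbez1, ?_⟩,
    fun i => τ ((N i).map σ), q.comp (C ts * X), ht1, ht2, ?_, ?_⟩
  · intro j
    rcases lt_trichotomy j m with hj | hj | hj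
    · rw [hcoef]
      refine (gn_C_mul _ _).trans ?_
      have h1 : cc ^ m * cc⁻¹ ^ j = cc ^ (m - j) := by
        have h2 : cc ^ m = cc ^ (m - j) * cc ^ j := by rw [← pow_add]; congr 1; omega
        rw [h2, mul_assoc, ← mul_pow, mul_inv_cancel₀ hcc, one_pow, mul_one]
      rw [h1, norm_pow]
      calc ‖cc‖ ^ (m - j) * gn (P₁.coeff j) ≤ ‖cc‖ ^ 1 * B :=
            mul_le_mul (pow_le_pow_of_le_one (norm_nonneg _) hccle (by omega)) (hB j)
              (gn_nonneg _) (pow_nonneg (norm_nonneg _) _)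
        _ ≤ 1 := by rw [pow_one]; exact hccB
    · rw [hj, hcm]
      exact gn_one_le
    · rw [coeff_eq_zero_of_natDegree_lt (by rw [hdeg']; exact hj), gn_zero]
      exact zero_le_one
  · exact hroot D₀ hD₀ Finset.subset_union_left
  · exact hroot q hq Finset.subset_union_right
  · intro Ω _ _ a θ hθ
    have e1 : ∀ (Q : k[X][X]) (x : Ω), ev2 a x (Q.map σ) = ev2 (algebraMap k Ω ts * a) x Q := by
      intro Q x
      rw [ev2, ev2, eval₂_map]
      congr 1
      apply Polynomial.ringHom_ext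
      · intro r
        simp [hσa]
      · simp [hσa]
    have e2 : ∀ (Q : k[X][X]) (x : Ω), ev2 a x (τ Q) = ev2 a (algebraMap k Ω cc⁻¹ * x) Q := by
      intro Q x
      rw [ev2, ev2, hτa, eval₂_comp]
      congr 1
      simp
    refine ⟨algebraMap k Ω cc⁻¹ * θ, ?_, ?_, ?_⟩
    · rw [← e1, ← e2]
      have h1 : ev2 a θ P' = algebraMap k Ω (cc ^ m) * ev2 a θ (τ P₁) := by
        rw [hP', ev2, ev2, eval₂_mul, eval₂_C]
        simp
      have h2 : ev2 a θ P' = 0 := hθ
      rw [h1] at h2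
      rcases mul_eq_zero.mp h2 with h3 | h3
      · exfalso
        rw [map_eq_zero] at h3
        exact pow_ne_zero _ hcc h3
      · exact h3
    · rw [aeval_comp]
      simp
    · intro i
      show ev2 a θ (τ ((N i).map σ)) = _
      rw [e2, e1]

end Pool.Agent.DC
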