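import Pool.Agent.DC.StmtsC

/-!
# SEPC: separation of the points of the fibres over the circle
-/

set_option autoImplicit false
set_option linter.unusedSectionVars false

noncomputable section

namespace Pool.Agent.DC

open Polynomial
open scoped Classical

universe u

namespace SEPC

variable {k : Type u} [NontriviallyNormedField k] [IsUltrametricDist k]

/-- Roots of monic polynomials with integral coefficients are integral. -/
theorem norm_root_le {p : k[X]} (hp : p.Monic) (hc : ∀ i, ‖p.coeff i‖ ≤ 1) {θ : k}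
    (hθ : p.eval θ = 0) : ‖θ‖ ≤ 1 := by
  by_contra hlt
  push Not at hlt
  have h1 := hp.as_sum
  have h2 : θ ^ p.natDegree + ∑ i ∈ Finset.range p.natDegree, p.coeff i * θ ^ i = 0 := by
    have h3 := congrArg (eval θ) h1
    rw [hθ, eval_add, eval_pow, eval_X, eval_finsetSum] at h3
    rw [h3]
    congr 1
    refine Finset.sum_congr rfl fun i _ => ?_
    simp
  have h4 : ‖∑ i ∈ Finset.range p.natDegree, p.coeff i * θ ^ i‖ ≤ ‖θ‖ ^ p.natDegree / ‖θ‖ := by
    apply IsUltrametricDist.norm_sum_le_of_forall_le_of_nonneg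
    · positivity
    · intro i hi
      have hi' := Finset.mem_range.mp hi
      rw [norm_mul, norm_pow, le_div_iff₀ (by linarith)]
      calc ‖p.coeff i‖ * ‖θ‖ ^ i * ‖θ‖ ≤ 1 * ‖θ‖ ^ i * ‖θ‖ := by
            gcongr
            exact hc i
        _ = ‖θ‖ ^ (i + 1) := by ring
        _ ≤ ‖θ‖ ^ p.natDegree := pow_le_pow_right₀ hlt.le hi'
  have h5 : ‖θ ^ p.natDegree‖ ≤ ‖θ‖ ^ p.natDegree / ‖θ‖ := by
    have h6 : θ ^ p.natDegree = -∑ i ∈ Finset.range p.natDegree, p.coeff i * θ ^ i :=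
      eq_neg_of_add_eq_zero_left h2
    rw [h6, norm_neg]
    exact h4
  rw [norm_pow] at h5
  have h6 : 0 < ‖θ‖ ^ p.natDegree := pow_pos (by linarith) _
  rw [le_div_iff₀ (by linarith)] at h5
  nlinarith

theorem exists_bound (W : k[X][X]) : ∃ C : ℝ, 1 ≤ C ∧ ∀ i, gn (W.coeff i) ≤ C := by
  refine ⟨1 + ∑ i ∈ W.support, gn (W.coeff i), ?_, fun i => ?_⟩
  · have : 0 ≤ ∑ i ∈ W.support, gn (W.coeff i) := Finset.sum_nonneg fun i _ => gn_nonneg _
    linarith
  · by_cases hi : i ∈ W.support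
    · have := Finset.single_le_sum (f := fun i => gn (W.coeff i)) (fun j _ => gn_nonneg _) hi
      linarith
    · rw [notMem_support_iff.mp hi, gn_zero]
      have : 0 ≤ ∑ i ∈ W.support, gn (W.coeff i) := Finset.sum_nonneg fun i _ => gn_nonneg _
      linarith

theorem norm_map_coeff_le {W : k[X][X]} {C : ℝ} (hC : ∀ i, gn (W.coeff i) ≤ C) (a : Tc k) (i : ℕ) :
    ‖(W.map (evalRingHom a.1)).coeff i‖ ≤ C := by
  rw [coeff_map, coe_evalRingHom]
  exact (norm_eval_le a.2.le _).trans (hC i)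

theorem norm_map_eval_le {W : k[X][X]} {C : ℝ} (hC : ∀ i, gn (W.coeff i) ≤ C) (a : Tc k) {θ : k}
    (hθ : ‖θ‖ ≤ 1) : ‖(W.map (evalRingHom a.1)).eval θ‖ ≤ C :=
  (norm_eval_le hθ _).trans (gn_le (norm_map_coeff_le hC a))

end SEPC

theorem sepc_proof (k : Type u) [NontriviallyNormedField k] [IsUltrametricDist k] [CompleteSpace k]
    [IsAlgClosed k] (hunit : Stmt_Unit k) : Stmt_SepC k := by
  intro c
  obtain ⟨-, c₀, hc₀, hD⟩ := hunit c.D₀ c.ne
  obtain ⟨CW, hCW1, hCW⟩ := SEPC.exists_bound c.W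
  have hCW0 : 0 < CW := lt_of_lt_of_le one_pos hCW1
  have hmon : ∀ a : Tc k, (c.P.map (evalRingHom a.1)).Monic := fun a => c.monic.map _
  have hcoe : ∀ (a : Tc k) i, ‖(c.P.map (evalRingHom a.1)).coeff i‖ ≤ 1 := fun a i =>
    SEPC.norm_map_coeff_le c.norm_le a i
  have hbez : ∀ a : Tc k, c.U.map (evalRingHom a.1) * c.P.map (evalRingHom a.1) +
      c.W.map (evalRingHom a.1) * derivative (c.P.map (evalRingHom a.1)) =
      C (c.D₀.eval a.1) := by
    intro a
    have h1 := congrArg (Polynomial.map (evalRingHom a.1)) c.bez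
    rw [Polynomial.map_add, Polynomial.map_mul, Polynomial.map_mul, map_C, ← derivative_map,
      coe_evalRingHom] at h1
    exact h1
  have hsep : ∀ a : Tc k, (c.P.map (evalRingHom a.1)).Separable := by
    intro a
    refine ⟨C (c.D₀.eval a.1)⁻¹ * c.U.map (evalRingHom a.1),
      C (c.D₀.eval a.1)⁻¹ * c.W.map (evalRingHom a.1), ?_⟩
    have h1 : C (c.D₀.eval a.1)⁻¹ * C (c.D₀.eval a.1) = (1 : k[X]) := by
      rw [← C_mul, inv_mul_cancel₀ (c.ne a), C_1]
    linear_combination C (c.D₀.eval a.1)⁻¹ * hbez a + h1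
  have hnd : ∀ a : Tc k, (c.P.map (evalRingHom a.1)).roots.Nodup := fun a => nodup_roots (hsep a)
  have hspl : ∀ a : Tc k, (c.P.map (evalRingHom a.1)).Splits := fun a => IsAlgClosed.splits _
  have hprod : ∀ a : Tc k, c.P.map (evalRingHom a.1) = ∏ θ ∈ fib c.P a, (X - C θ) := by
    intro a
    conv_lhs => rw [(hspl a).eq_prod_roots_of_monic (hmon a)]
    rw [fib, Finset.prod_eq_multiset_prod, Multiset.toFinset_val, (hnd a).dedup]
  have hroot : ∀ (a : Tc k), ∀ θ ∈ fib c.P a, (c.P.map (evalRingHom a.1)).eval θ = 0 := by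
    intro a θ hθ
    rw [fib, Multiset.mem_toFinset] at hθ
    exact (mem_roots (hmon a).ne_zero).mp hθ
  have hle : ∀ a : Tc k, ∀ θ ∈ fib c.P a, ‖θ‖ ≤ 1 := fun a θ hθ =>
    SEPC.norm_root_le (hmon a) (hcoe a) (hroot a θ hθ)
  refine ⟨min 1 (c₀ / CW), lt_min one_pos (div_pos hc₀ hCW0), min_le_left _ _, hprod, ?_, hle, ?_⟩
  · intro a
    rw [fib, Multiset.toFinset_card_of_nodup (hnd a), ← (hspl a).natDegree_eq_card_roots,
      c.monic.natDegree_map]
  · intro a θ hθ
    have h1 : (derivative (c.P.map (evalRingHom a.1))).eval θ =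
        ∏ θ' ∈ (fib c.P a).erase θ, (θ - θ') := by
      have h2 : c.P.map (evalRingHom a.1) = Lagrange.nodal (fib c.P a) id := by
        rw [hprod a, Lagrange.nodal]
        rfl
      rw [h2]
      have h3 := Lagrange.eval_nodal_derivative_eval_node_eq (s := fib c.P a) (v := id) hθ
      rw [id] at h3
      rw [h3, Lagrange.eval_nodal]
      rfl
    have h2 := congrArg (eval θ) (hbez a)
    rw [eval_add, eval_mul, eval_mul, hroot a θ hθ, mul_zero, zero_add, eval_C, h1] at h2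
    have h3 := congrArg norm h2
    rw [norm_mul, hD a] at h3
    have h4 := SEPC.norm_map_eval_le hCW a (hle a θ hθ)
    refine (min_le_right _ _).trans ?_
    rw [div_le_iff₀ hCW0, ← h3, mul_comm]
    exact mul_le_mul_of_nonneg_left h4 (norm_nonneg _)

end Pool.Agent.DC
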