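import Pool.Agent.DC.StmtsC

set_option autoImplicit false
set_option linter.unusedSectionVars false

noncomputable section

namespace Pool.Agent.DC

open Polynomial
open scoped Classical

universe u

theorem sup_proof (k : Type u) [NontriviallyNormedField k] [IsUltrametricDist k] [CompleteSpace k]
    [IsAlgClosed k] (p : ℕ) [Fact p.Prime] [CharP k p] (h1 : Stmt_Lag k) (h2 : Stmt_Many k p) :
    Stmt_Sup k := by
  intro g M hM hg
  obtain ⟨s, hcard, hs1, hs2⟩ := h2 (g.natDegree + 1)
  have key : ∀ j, ‖g.coeff j‖ ≤ M / 1 := by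
    apply h1 s 1 M g one_pos hM
    · rw [hcard]
      refine lt_of_le_of_lt degree_le_natDegree ?_
      exact_mod_cast Nat.lt_succ_self _
    · exact fun x hx => (hs1 x hx).le
    · intro x hx
      rw [norm_prod, Finset.prod_eq_one]
      intro y hy
      exact hs2 x hx y (Finset.mem_of_mem_erase hy) (Finset.ne_of_mem_erase hy).symm
    · exact fun x hx => hg ⟨x, hs1 x hx⟩
  apply gn_le
  intro i
  simpa using key i

end Pool.Agent.DC
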