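import Pool.Agent.DC.StmtsB

/-!
# Module TOWER: the curve defined by the approximate equations
-/

set_option autoImplicit false
set_option linter.unusedSectionVars false

noncomputable section

namespace Pool.Agent.DC

open Pool.Agent.LibDb3ab1
open scoped Classical

universe u v

namespace TOWER

section general

/-- A weighted homogeneous polynomial with a unit coefficient at a power of one variable has
a zero, for given values of the other variables. -/
theorem exists_zero {A : Type u} [CommRing A] [Nontrivial A]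
    (hroot : ∀ P : Polynomial A, P.Monic → P.natDegree ≠ 0 → ∃ x, P.eval x = 0)
    {σ : Type} [Fintype σ] {T : Type u} [CommRing T] (f : T →+* A) (w : σ → ℕ)
    (hw : ∀ i, 0 < w i) (τ : σ) (a : ℕ) (ha : a ≠ 0) (G : MvPolynomial σ T)
    (hG : MvPolynomial.IsWeightedHomogeneous w G (w τ * a))
    (hu : IsUnit (G.coeff (Finsupp.single τ a))) (x : σ → A) :
    ∃ y, ∀ x' : σ → A, (∀ i, i ≠ τ → x' i = x i) → x' τ = y →
      MvPolynomial.eval₂ f x' G = 0 := by
  let cf : (σ →₀ ℕ) → A := fun m => f (G.coeff m) * ∏ i ∈ Finset.univ.erase τ, x i ^ m i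
  let g : Polynomial A := ∑ m ∈ G.support, Polynomial.monomial (m τ) (cf m)
  -- exponents
  have hwt : ∀ m ∈ G.support, ∑ i, m i * w i = w τ * a := by
    intro m hm
    have h1 := hG (MvPolynomial.mem_support_iff.mp hm)
    rw [Finsupp.weight_apply, Finsupp.sum_fintype _ _ (fun i => by simp)] at h1
    simpa [smul_eq_mul] using h1
  have hle : ∀ m ∈ G.support, m τ ≤ a := by
    intro m hm
    have h1 := hwt m hm
    have h2 : m τ * w τ ≤ ∑ i, m i * w i :=
      Finset.single_le_sum (f := fun i => m i * w i) (fun i _ => Nat.zero_le _)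
        (Finset.mem_univ τ)
    rw [h1, mul_comm (w τ)] at h2
    exact Nat.le_of_mul_le_mul_right h2 (hw τ)
  have heq : ∀ m ∈ G.support, m τ = a → m = Finsupp.single τ a := by
    intro m hm hma
    have h1 := hwt m hm
    rw [← Finset.add_sum_erase Finset.univ (fun i => m i * w i) (Finset.mem_univ τ), hma,
      mul_comm (w τ)] at h1
    have h2 : ∑ i ∈ Finset.univ.erase τ, m i * w i = 0 := by simpa using h1
    rw [Finset.sum_eq_zero_iff] at h2
    ext i
    by_cases hi : i = τ
    · rw [hi, hma, Finsupp.single_eq_same]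
    · rw [Finsupp.single_eq_of_ne hi]
      have h3 := h2 i (Finset.mem_erase.mpr ⟨hi, Finset.mem_univ i⟩)
      rcases Nat.mul_eq_zero.mp h3 with h4 | h4
      · exact h4
      · exact absurd h4 (hw i).ne'
  have hTn : Nontrivial T := f.domain_nontrivial
  have hmem : Finsupp.single τ a ∈ G.support := by
    rw [MvPolynomial.mem_support_iff]
    exact hu.ne_zero
  have hgd : g.natDegree ≤ a := by
    apply Polynomial.natDegree_sum_le_of_forall_le
    intro m hm
    exact (Polynomial.natDegree_monomial_le _).trans (hle m hm)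
  have hgc : g.coeff a = f (G.coeff (Finsupp.single τ a)) := by
    change (∑ m ∈ G.support, Polynomial.monomial (m τ) (cf m)).coeff a = _
    rw [Polynomial.finsetSum_coeff, Finset.sum_eq_single_of_mem _ hmem]
    · rw [Finsupp.single_eq_same, Polynomial.coeff_monomial_same]
      change f _ * ∏ i ∈ Finset.univ.erase τ, x i ^ (Finsupp.single τ a) i = _
      rw [Finset.prod_eq_one, mul_one]
      intro i hi
      rw [Finsupp.single_eq_of_ne (Finset.ne_of_mem_erase hi), pow_zero]
    · intro m hm hne
      rw [Polynomial.coeff_monomial, if_neg]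
      intro h
      exact hne (heq m hm h)
  obtain ⟨u, hu'⟩ : IsUnit (f (G.coeff (Finsupp.single τ a))) := hu.map f
  let P : Polynomial A := Polynomial.C ((u⁻¹ : Aˣ) : A) * g
  have hPc : P.coeff a = 1 := by
    change (Polynomial.C ((u⁻¹ : Aˣ) : A) * g).coeff a = 1
    rw [Polynomial.coeff_C_mul, hgc, ← hu', Units.inv_mul]
  have hPd : P.natDegree ≤ a := (Polynomial.natDegree_C_mul_le _ _).trans hgd
  have hPm : P.Monic := Polynomial.monic_of_natDegree_le_of_coeff_eq_one a hPd hPc
  have hPn : P.natDegree = a := Polynomial.natDegree_eq_of_le_of_coeff_ne_zero hPd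
    (by rw [hPc]; exact one_ne_zero)
  obtain ⟨y, hy⟩ := hroot P hPm (by rw [hPn]; exact ha)
  refine ⟨y, fun x' hx' hx'τ => ?_⟩
  have h1 : g.eval y = 0 := by
    rw [Polynomial.eval_mul, Polynomial.eval_C] at hy
    exact (Units.mul_right_eq_zero _).mp hy
  rw [MvPolynomial.eval₂_eq', ← h1]
  change _ = (∑ m ∈ G.support, Polynomial.monomial (m τ) (cf m)).eval y
  rw [Polynomial.eval_finsetSum]
  apply Finset.sum_congr rfl
  intro m _
  rw [Polynomial.eval_monomial, ← Finset.mul_prod_erase Finset.univ _ (Finset.mem_univ τ)]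
  change _ = f (G.coeff m) * (∏ i ∈ Finset.univ.erase τ, x i ^ m i) * y ^ m τ
  have h2 : ∏ i ∈ Finset.univ.erase τ, x' i ^ m i =
      ∏ i ∈ Finset.univ.erase τ, x i ^ m i := by
    apply Finset.prod_congr rfl
    intro i hi
    rw [hx' i (Finset.ne_of_mem_erase hi)]
  rw [h2, hx'τ]
  ring

end general

section tower

variable (k : Type u) [Field k]

/-- The algebraic closure of the field of rational functions. -/
abbrev Om : Type u := AlgebraicClosure (FractionRing (Polynomial k))

/-- The integral closure of the polynomial ring. -/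
abbrev IA : Type u := integralClosure (Polynomial k) (Om k)

theorem inj_Om : Function.Injective (algebraMap (Polynomial k) (Om k)) := by
  rw [IsScalarTower.algebraMap_eq (Polynomial k) (FractionRing (Polynomial k)) (Om k)]
  exact (algebraMap (FractionRing (Polynomial k)) (Om k)).injective.comp
    (IsFractionRing.injective _ _)

theorem root_IA (P : Polynomial (IA k)) (hP : P.Monic) (hd : P.natDegree ≠ 0) :
    ∃ x, P.eval x = 0 := by
  have h1 : (P.map (algebraMap (IA k) (Om k))).degree ≠ 0 := by
    rw [hP.degree_map]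
    intro h
    exact hd (Polynomial.natDegree_eq_of_degree_eq_some h)
  obtain ⟨c, hc⟩ := IsAlgClosed.exists_root _ h1
  rw [Polynomial.IsRoot.def, Polynomial.eval_map] at hc
  have h2 : IsIntegral (IA k) c := ⟨P, hP, hc⟩
  have h3 : IsIntegral (Polynomial k) c := isIntegral_trans c h2
  refine ⟨⟨c, h3⟩, ?_⟩
  apply Subtype.ext
  have h4 : algebraMap (IA k) (Om k) (P.eval ⟨c, h3⟩) = 0 := by
    rw [← hc, ← Polynomial.eval₂_at_apply]
    rfl
  exact h4

/-- The structure of algebra over the constants. -/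
instance algIA : Algebra k (IA k) :=
  ((algebraMap (Polynomial k) (IA k)).comp Polynomial.C).toAlgebra

theorem algIA_apply (c : k) : algebraMap k (IA k) c =
    algebraMap (Polynomial k) (IA k) (Polynomial.C c) := rfl

theorem inj_IA : Function.Injective (algebraMap (Polynomial k) (IA k)) := by
  intro a b h
  exact inj_Om k (congrArg (algebraMap (IA k) (Om k)) h)

theorem exists_curve {N : ℕ} (z : Fin (N + 1) → IA k) :
    ∃ (B : Type u) (_ : CommRing B) (_ : Algebra k B) (t : B) (z' : Fin (N + 1) → B)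
      (i : B →ₐ[k] IA k), Function.Injective i ∧
      i t = algebraMap (Polynomial k) (IA k) Polynomial.X ∧ (∀ j, i (z' j) = z j) ∧
      CurveRing k B t z' := by
  let t₀ : IA k := algebraMap (Polynomial k) (IA k) Polynomial.X
  let S : Set (IA k) := insert t₀ (Set.range z)
  let B : Subalgebra k (IA k) := Algebra.adjoin k S
  have ht : t₀ ∈ B := Algebra.subset_adjoin (Set.mem_insert _ _)
  have hz : ∀ j, z j ∈ B := fun j =>
    Algebra.subset_adjoin (Set.mem_insert_of_mem _ (Set.mem_range_self j))
  have hae : ∀ P : Polynomial k, ((Polynomial.aeval (⟨t₀, ht⟩ : B) P : B) : IA k) =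
      algebraMap (Polynomial k) (IA k) P := by
    intro P
    have h1 : (B.val.comp (Polynomial.aeval (⟨t₀, ht⟩ : B))).toRingHom =
        algebraMap (Polynomial k) (IA k) := by
      apply Polynomial.ringHom_ext
      · intro c
        change ((Polynomial.aeval (⟨t₀, ht⟩ : B) (Polynomial.C c) : B) : IA k) = _
        rw [Polynomial.aeval_C]
        rfl
      · change ((Polynomial.aeval (⟨t₀, ht⟩ : B) Polynomial.X : B) : IA k) = _
        rw [Polynomial.aeval_X]
    exact RingHom.congr_fun h1 P
  refine ⟨B, inferInstance, inferInstance, ⟨t₀, ht⟩, fun j => ⟨z j, hz j⟩, B.val,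
    Subtype.val_injective, rfl, fun j => rfl, ?_⟩
  constructor
  · infer_instance
  · have h1 := Algebra.adjoin_adjoin_coe_preimage (R := k) (s := S)
    rw [← h1]
    congr 1
    ext b
    simp only [Set.mem_insert_iff, Set.mem_range, Set.mem_preimage, S]
    constructor
    · rintro (h | ⟨j, h⟩)
      · left; rw [h]
      · right; exact ⟨j, by rw [← h]⟩
    · rintro (h | ⟨j, h⟩)
      · left; exact Subtype.ext h
      · right; exact ⟨j, Subtype.ext h⟩
  · intro P Q h
    apply inj_IA k
    rw [← hae, ← hae, h]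
  · intro b
    obtain ⟨P, hP, hPb⟩ : IsIntegral (Polynomial k) (b : IA k) :=
      Algebra.IsIntegral.isIntegral (b : IA k)
    refine ⟨P, hP, ?_⟩
    apply Subtype.val_injective
    have h1 := Polynomial.hom_eval₂ P
      (Polynomial.aeval (⟨t₀, ht⟩ : B) : Polynomial k →ₐ[k] B).toRingHom B.val.toRingHom b
    have h2 : B.val.toRingHom.comp
        (Polynomial.aeval (⟨t₀, ht⟩ : B) : Polynomial k →ₐ[k] B).toRingHom =
        algebraMap (Polynomial k) (IA k) := RingHom.ext hae
    rw [h2] at h1
    exact h1.trans hPb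

end tower

end TOWER

theorem tower_proof {K : Type u} [Field K] (O : ValuationSubring K) (p : ℕ)
    [Fact p.Prime] [Fact ¬IsUnit (p : O)] [IsAdicComplete (Ideal.span {(p : O)}) O] :
    Stmt_Tower O p := by
  intro n 𝔮 D M 𝒜
  let k := TF O p
  let A := TOWER.IA k
  let t₀ : A := algebraMap (Polynomial k) (TOWER.IA k) Polynomial.X
  let f : PreTilt O p →+* A := (algebraMap k (TOWER.IA k)).comp (algebraMap (PreTilt O p) (TF O p))
  have hroot := TOWER.root_IA k
  have hp1 : ∀ J : ℕ, p ^ J ≠ 0 := fun J => pow_ne_zero _ (Fact.out : p.Prime).ne_zero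
  -- the element `u`
  obtain ⟨u, hu⟩ : ∃ u : A, MvPolynomial.eval₂ f ![t₀, 1, u] 𝒜.G₀ = 0 := by
    obtain ⟨J, hJ, hJu⟩ := 𝒜.h₀.hom
    have hc : D.F₀.coeff (Finsupp.single 2 D.D) = -1 := by
      rw [AlgData.F₀, MvPolynomial.coeff_sub, MvPolynomial.coeff_X]
      have h1 : (Finsupp.single (0 : Fin 3) 1) ≠ Finsupp.single 2 D.D := by
        intro h
        have := DFunLike.congr_fun h 0
        simp at this
      rw [if_neg h1]
      have h2 : (Finsupp.single (2 : Fin 3) D.D) =
          Finsupp.mapDomain Fin.succ (Finsupp.single (1 : Fin 2) D.D) := by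
        rw [Finsupp.mapDomain_single]
        rfl
      rw [h2, MvPolynomial.coeff_rename_mapDomain _ (Fin.succ_injective 2), D.δ_coeff]
      ring
    have hunit := hJu 2 D.D (by rw [hc]; exact isUnit_one.neg)
    obtain ⟨y, hy⟩ := TOWER.exists_zero hroot f ![D.D, 1, 1]
      (by intro i; fin_cases i; exacts [D.D_pos, one_pos, one_pos]) 2 (D.D * p ^ J)
      (mul_ne_zero D.D_pos.ne' (hp1 J)) 𝒜.G₀ (by
        have : (![D.D, 1, 1] : Fin 3 → ℕ) 2 = 1 := rfl
        rw [this, one_mul]
        exact hJ) hunit ![t₀, 1, 0]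
    refine ⟨y, hy _ (fun i hi => ?_) rfl⟩
    fin_cases i
    · rfl
    · rfl
    · exact absurd rfl hi
  -- the element `T`
  obtain ⟨T, hT⟩ : ∃ T : A, MvPolynomial.eval₂ f ![1, u, T] 𝒜.G = 0 := by
    obtain ⟨J, hJ, hJu⟩ := 𝒜.h.hom
    have hunit := hJu 2 D.m (by rw [D.F_coeff]; exact isUnit_one)
    obtain ⟨y, hy⟩ := TOWER.exists_zero hroot f ![1, 1, 1]
      (by intro i; fin_cases i; exacts [one_pos, one_pos, one_pos]) 2 (D.m * p ^ J)
      (mul_ne_zero D.m_pos.ne' (hp1 J)) 𝒜.G (by
        have : (![1, 1, 1] : Fin 3 → ℕ) 2 = 1 := rfl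
        rw [this, one_mul]
        exact hJ) hunit ![1, u, 0]
    refine ⟨y, hy _ (fun i hi => ?_) rfl⟩
    fin_cases i
    · rfl
    · rfl
    · exact absurd rfl hi
  -- the elements `w i`
  have hw : ∀ i, ∃ w : A, MvPolynomial.eval₂ f ![1, u, T, w] (𝒜.H i) = 0 := by
    intro i
    obtain ⟨J, hJ, hJu⟩ := (𝒜.hH i).hom
    have hc : (D.Fw i).coeff (Finsupp.single 3 1) = 1 := by
      rw [AlgData.Fw, MvPolynomial.coeff_sub, MvPolynomial.coeff_X, if_pos rfl,
        MvPolynomial.coeff_rename_eq_zero, sub_zero]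
      intro m hm
      exfalso
      have h1 := DFunLike.congr_fun hm 3
      rw [Finsupp.mapDomain_of_notMem_range, Finsupp.single_eq_same] at h1
      · exact absurd h1 (by norm_num)
      · rintro ⟨j, hj⟩
        have h2 := congrArg Fin.val hj
        have h3 := j.2
        simp at h2
        omega
    have hunit := hJu 3 1 (by rw [hc]; exact isUnit_one)
    obtain ⟨y, hy⟩ := TOWER.exists_zero hroot f ![1, 1, 1, D.D + 1]
      (by intro i; fin_cases i; exacts [one_pos, one_pos, one_pos, Nat.succ_pos _]) 3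
      (1 * p ^ J) (by rw [one_mul]; exact hp1 J) (𝒜.H i) (by
        have : (![1, 1, 1, D.D + 1] : Fin 4 → ℕ) 3 = D.D + 1 := rfl
        rw [this, one_mul]
        exact hJ) hunit ![1, u, T, 0]
    refine ⟨y, hy _ (fun i hi => ?_) rfl⟩
    fin_cases i
    · rfl
    · rfl
    · rfl
    · exact absurd rfl hi
  choose w hw using hw
  obtain ⟨B, _, _, t, z', i, hi, hit, hiz, hB⟩ := TOWER.exists_curve k
    (N := n + 2) (Fin.cons u (Fin.cons T w))
  have hcomp : ((i : B →+* TOWER.IA k)).comp
      ((algebraMap (TF O p) B).comp (algebraMap (PreTilt O p) (TF O p))) = f := by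
    refine RingHom.ext fun x => ?_
    change i (algebraMap (TF O p) B (algebraMap (PreTilt O p) (TF O p) x)) = _
    rw [AlgHom.commutes]
    rfl
  have hz0 : i (z' 0) = u := by rw [hiz]; rfl
  have hz1 : i (z' 1) = T := by rw [hiz]; rfl
  have hz2 : ∀ j : Fin (n + 1), i (z' j.succ.succ) = w j := by
    intro j
    rw [hiz]
    rfl
  have key : ∀ {σ : Type} (G : MvPolynomial σ (PreTilt O p)) (x : σ → B) (x' : σ → A),
      MvPolynomial.eval₂ f x' G = 0 → (∀ j, i (x j) = x' j) → MvPolynomial.eval₂
        ((algebraMap (TF O p) B).comp (algebraMap (PreTilt O p) (TF O p))) x G = 0 := by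
    intro σ G x x' h hxx
    obtain rfl : (fun j => i (x j)) = x' := funext hxx
    apply hi
    have h1 := MvPolynomial.eval₂_comp_left (i : B →+* TOWER.IA k)
      ((algebraMap (TF O p) B).comp (algebraMap (PreTilt O p) (TF O p))) x G
    rw [hcomp] at h1
    rw [map_zero]
    exact h1.trans h
  refine ⟨B, _, _, t, z', hB, ?_, ?_, ?_⟩
  · refine key _ _ _ hu fun j => ?_
    fin_cases j
    · exact hit
    · exact map_one i
    · exact hz0
  · refine key _ _ _ hT fun j => ?_
    fin_cases j
    · exact map_one i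
    · exact hz0
    · exact hz1
  · intro l
    refine key _ _ _ (hw l) fun j => ?_
    fin_cases j
    · exact map_one i
    · exact hz0
    · exact hz1
    · exact hz2 l

end Pool.Agent.DC
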