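import Pool.Agent.DC.StmtsC

set_option autoImplicit false

noncomputable section

namespace Pool.Agent.DC

universe u

variable (k : Type u) [NontriviallyNormedField k]

theorem uni_proof : Stmt_Uni k := by
  classical
  intro Ω _ _ n s h
  by_contra h0
  have : Infinite k := inferInstance
  let L : (Fin (n + 1) → Ω) → ((Fin (n + 1) → k) →ₗ[k] Ω) := fun δ =>
    ∑ i, (LinearMap.proj i : (Fin (n + 1) → k) →ₗ[k] k).smulRight (δ i)
  have hL : ∀ δ l, L δ l = ∑ i, algebraMap k Ω (l i) * δ i := by
    intro δ l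
    simp only [L, LinearMap.sum_apply, LinearMap.smulRight_apply, LinearMap.proj_apply,
      Algebra.smul_def]
  let S : Finset (Subspace k (Fin (n + 1) → k)) := s.toFinset.image fun δ => LinearMap.ker (L δ)
  have hS : ⊤ ∉ S := by
    intro hS
    obtain ⟨δ, hδ, hker⟩ := Finset.mem_image.1 hS
    apply h0
    have hz : δ = 0 := by
      funext i
      have h1 : (Pi.single i 1 : Fin (n + 1) → k) ∈ LinearMap.ker (L δ) := by
        rw [hker]; trivial
      rw [LinearMap.mem_ker, hL, Finset.sum_eq_single i] at h1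
      · simpa using h1
      · intro b _ hb
        rw [Pi.single_eq_of_ne hb, map_zero, zero_mul]
      · intro hi; exact absurd (Finset.mem_univ i) hi
    rw [← hz]
    exact Multiset.mem_toFinset.1 hδ
  apply Subspace.biUnion_ne_univ_of_top_notMem hS
  rw [Set.eq_univ_iff_forall]
  intro l
  obtain ⟨δ, hδ, hl⟩ := h l
  simp only [Set.mem_iUnion]
  refine ⟨LinearMap.ker (L δ), Finset.mem_image.2 ⟨δ, Multiset.mem_toFinset.2 hδ, rfl⟩, ?_⟩
  change L δ l = 0
  rw [hL, hl]

end Pool.Agent.DC
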