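import Pool.Agent.DC.StmtsC

/-!
# UNIT: polynomials without zeros on the circle
-/

set_option autoImplicit false
set_option linter.unusedSectionVars false

noncomputable section

namespace Pool.Agent.DC

open Polynomial
open scoped Classical

universe u

namespace UNIT

variable {k : Type u} [NontriviallyNormedField k] [IsUltrametricDist k]

theorem norm_sub_of_ne {a b : k} (h : ‖a‖ ≠ ‖b‖) : ‖a - b‖ = max ‖a‖ ‖b‖ := by
  have h1 := IsUltrametricDist.norm_add_eq_max_of_norm_ne_norm (x := a) (y := -b)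
    (by rwa [norm_neg])
  rwa [norm_neg, ← sub_eq_add_neg] at h1

theorem norm_sub_circle {b : k} (hb : ‖b‖ ≠ 1) (a : Tc k) : ‖a.1 - b‖ = max 1 ‖b‖ := by
  rw [norm_sub_of_ne (by rw [a.2]; exact hb.symm), a.2]

theorem pow_small {r : ℝ} (h0 : 0 ≤ r) (h1 : r < 1) {ε : ℝ} (hε : 0 < ε) : ∃ N : ℕ, r ^ N ≤ ε := by
  obtain ⟨N, hN⟩ := exists_pow_lt_of_lt_one hε h1
  exact ⟨N, hN.le⟩

theorem isR_inv_sub {b : k} (hb : ‖b‖ ≠ 1) : IsR fun a : Tc k => (a.1 - b)⁻¹ := by
  intro ε hε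
  rcases lt_or_gt_of_ne hb with h | h
  · obtain ⟨N, hN⟩ := pow_small (norm_nonneg b) h hε
    refine ⟨N, ∑ i ∈ Finset.range N, X ^ i * C b ^ (N - 1 - i), fun a => ?_⟩
    have hne : a.1 - b ≠ 0 := by
      intro h0
      have := norm_sub_circle hb a
      rw [h0, norm_zero] at this
      have h2 : (1 : ℝ) ≤ max 1 ‖b‖ := le_max_left _ _
      linarith
    have h1 : (∑ i ∈ Finset.range N, X ^ i * C b ^ (N - 1 - i) : k[X]).eval a.1 * (a.1 - b) =
        a.1 ^ N - b ^ N := by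
      rw [← (Commute.all a.1 b).geom_sum₂_mul]
      congr 1
      simp [eval_finset_sum]
    have ha0 := a.ne_zero
    have h2 : (a.1 - b)⁻¹ - (a.1)⁻¹ ^ N *
        (∑ i ∈ Finset.range N, X ^ i * C b ^ (N - 1 - i) : k[X]).eval a.1 =
        b ^ N * ((a.1)⁻¹ ^ N * (a.1 - b)⁻¹) := by
      have h3 : (∑ i ∈ Finset.range N, X ^ i * C b ^ (N - 1 - i) : k[X]).eval a.1 =
          (a.1 ^ N - b ^ N) * (a.1 - b)⁻¹ := by
        rw [← h1]
        field_simp
      rw [h3]
      have h4 : (a.1)⁻¹ ^ N * a.1 ^ N = 1 := by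
        rw [← mul_pow, inv_mul_cancel₀ ha0, one_pow]
      linear_combination -(a.1 - b)⁻¹ * h4
    rw [h2, norm_mul, norm_mul, norm_pow, norm_pow, a.norm_inv, one_pow, norm_inv,
      norm_sub_circle hb, max_eq_left h.le, inv_one, one_mul, mul_one]
    exact hN
  · have hb0 : b ≠ 0 := by
      rintro rfl
      rw [norm_zero] at h
      linarith
    have hb1 : ‖b‖⁻¹ < 1 := inv_lt_one_of_one_lt₀ h
    obtain ⟨N, hN⟩ := pow_small (inv_nonneg.mpr (norm_nonneg b)) hb1 hε
    refine ⟨0, C (-b⁻¹) * ∑ i ∈ Finset.range N, (C b⁻¹ * X) ^ i, fun a => ?_⟩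
    have hne : a.1 - b ≠ 0 := by
      intro h0
      have := norm_sub_circle hb a
      rw [h0, norm_zero] at this
      have h2 : (1 : ℝ) ≤ max 1 ‖b‖ := le_max_left _ _
      linarith
    have h1 : (∑ i ∈ Finset.range N, (C b⁻¹ * X) ^ i : k[X]).eval a.1 * (b⁻¹ * a.1 - 1) =
        (b⁻¹ * a.1) ^ N - 1 := by
      rw [← geom_sum_mul]
      congr 1
      simp [eval_finset_sum]
    have h2 : (a.1 - b)⁻¹ - (a.1)⁻¹ ^ 0 *
        (C (-b⁻¹) * ∑ i ∈ Finset.range N, (C b⁻¹ * X) ^ i : k[X]).eval a.1 =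
        (b⁻¹) ^ N * (a.1 ^ N * (a.1 - b)⁻¹) := by
      have h5 : b⁻¹ * a.1 - 1 = b⁻¹ * (a.1 - b) := by
        field_simp
      rw [h5, mul_pow] at h1
      have h3 : (C (-b⁻¹) * ∑ i ∈ Finset.range N, (C b⁻¹ * X) ^ i : k[X]).eval a.1 =
          -((b⁻¹) ^ N * a.1 ^ N - 1) * (a.1 - b)⁻¹ := by
        rw [eval_mul, eval_C, ← h1]
        field_simp
      rw [h3]
      ring
    rw [h2, norm_mul, norm_mul, norm_pow, norm_pow, a.2, one_pow, norm_inv, norm_inv,
      norm_sub_circle hb, max_eq_right h.le, one_mul]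
    have h6 : (0 : ℝ) ≤ ‖b‖⁻¹ ^ N := pow_nonneg (inv_nonneg.mpr (norm_nonneg b)) _
    nlinarith

theorem main (s : Multiset k) (hs : ∀ b ∈ s, ‖b‖ ≠ 1) :
    (IsR fun a : Tc k => (((s.map fun b => X - C b).prod).eval a.1)⁻¹) ∧
      ∃ c : ℝ, 0 < c ∧ ∀ a : Tc k, ‖((s.map fun b => X - C b).prod).eval a.1‖ = c := by
  induction s using Multiset.induction_on with
  | empty =>
    constructor
    · have := isR_poly (k := k) 1
      simp only [eval_one] at this
      simpa using this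
    · exact ⟨1, one_pos, fun a => by simp⟩
  | cons b s ih =>
    obtain ⟨h1, c, hc, h2⟩ := ih fun x hx => hs x (Multiset.mem_cons_of_mem hx)
    have hb := hs b (Multiset.mem_cons_self _ _)
    constructor
    · have h3 := (isR_inv_sub hb).mul h1
      refine (iff_of_eq (congrArg IsR (funext fun a => ?_))).mp h3
      simp only [Pi.mul_apply, Multiset.map_cons, Multiset.prod_cons, eval_mul, eval_sub, eval_X,
        eval_C, mul_inv]
    · refine ⟨max 1 ‖b‖ * c, mul_pos (lt_max_of_lt_left one_pos) hc, fun a => ?_⟩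
      rw [Multiset.map_cons, Multiset.prod_cons, eval_mul, norm_mul, h2, eval_sub, eval_X, eval_C,
        norm_sub_circle hb]

end UNIT

theorem unit_proof (k : Type u) [NontriviallyNormedField k] [IsUltrametricDist k] [CompleteSpace k]
    [IsAlgClosed k] : Stmt_Unit k := by
  intro h hne
  have hsp := IsAlgClosed.splits h
  have h0 : h ≠ 0 := by
    rintro rfl
    exact hne ⟨1, norm_one⟩ eval_zero
  have hroots : ∀ b ∈ h.roots, ‖b‖ ≠ 1 := by
    intro b hb hb1
    exact hne ⟨b, hb1⟩ ((mem_roots h0).mp hb)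
  obtain ⟨h1, c, hc, h2⟩ := UNIT.main h.roots hroots
  have hfac : h = C h.leadingCoeff * (h.roots.map fun b => X - C b).prod :=
    hsp.eq_prod_roots
  have hlc : h.leadingCoeff ≠ 0 := leadingCoeff_ne_zero.mpr h0
  have hev : ∀ a : Tc k, h.eval a.1 =
      h.leadingCoeff * ((h.roots.map fun b => X - C b).prod).eval a.1 := by
    intro a
    conv_lhs => rw [hfac]
    rw [eval_mul, eval_C]
  constructor
  · have h3 := (isR_poly (k := k) (C h.leadingCoeff⁻¹)).mul h1
    refine (iff_of_eq (congrArg IsR (funext fun a => ?_))).mp h3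
    simp only [Pi.mul_apply, eval_C]
    rw [hev, mul_inv]
  · refine ⟨‖h.leadingCoeff‖ * c, mul_pos (norm_pos_iff.mpr hlc) hc, fun a => ?_⟩
    rw [hev, norm_mul, h2]

end Pool.Agent.DC
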