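import Pool.Agent.DC.Main
import Pool.Agent.DC.FIELD
import Pool.Agent.DC.NEARC
import Pool.Agent.DC.PTS
import Pool.Agent.DC.RESC
import Pool.Agent.DC.TN
import Pool.Agent.DC.TOWER
import Pool.Agent.DC.CAP
import Pool.Agent.DC.SEPC
import Pool.Agent.DC.UNIT
import Pool.Agent.DC.IDEM
import Pool.Agent.DC.KRAS
import Pool.Agent.DC.DECO
import Pool.Agent.DC.GLUE
import Pool.Agent.DC.UNI
import Pool.Agent.DC.SUP
import Pool.Agent.DC.LAG
import Pool.Agent.DC.MANY
import Pool.Agent.DC.RANK
import Pool.Agent.DC.LIMCL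
import Pool.Agent.DC.COEF
import Pool.Agent.DC.DEC
import Pool.Agent.DC.DOM
import Pool.Agent.DC.RES
import Pool.Agent.DC.INT
import Pool.Agent.DC.BUMP
import Pool.Agent.DC.CurA
import Pool.Agent.DC.CURB
import Pool.Agent.DC.DIM2
import Pool.Agent.DC.GEN
import Pool.Agent.DC.LIM
import Pool.Agent.DC.HOMEXT
import Pool.Agent.DC.CoverB

/-!
# The theorem for curves over algebraically closed perfectoid fields
-/

set_option autoImplicit false

noncomputable section

namespace Pool.Agent.DC

open scoped Classical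
open Pool.Agent.LibDb3ab1

universe u

section normed

variable (k : Type u) [NontriviallyNormedField k] [IsUltrametricDist k] [CompleteSpace k]
  [IsAlgClosed k] (p : ℕ) [Fact p.Prime] [CharP k p]

include p

theorem p_Sup : Stmt_Sup k := sup_proof k p (lag_proof k) (many_proof k p)

theorem p_LimCl : Stmt_LimCl k := limcl_proof k (coef_proof k (lag_proof k))

theorem p_Rank : Stmt_Rank k := rank_proof k (dom_proof k (p_Sup k p)) res_proof

theorem p_Kras : Stmt_Kras k :=
  kras_proof k (p_Rank k p) (unit_proof k) (p_LimCl k p) (p_Sup k p)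

theorem p_Deco : Stmt_Deco k := deco_proof k (p_Rank k p) (dec_proof k (p_Sup k p)) (lag_proof k)

theorem p_Glue : Stmt_Glue k := glue_proof k res_proof (int_proof k (p_Sup k p))

theorem p_Cap : Stmt_Cap k p :=
  cap_proof k p (sepc_proof k (unit_proof k)) (unit_proof k)
    (idem_proof k p (bump_proof k p) (p_LimCl k p)) (p_Kras k p) (p_Deco k p) (p_Glue k p)
    (uni_proof k)

theorem p_CurB : Stmt_CurB k :=
  curb_proof k (nn_proof k) (gen_proof k) (lim_proof k homext_proof) (dim2_proof k)

end normed

theorem curves {K : Type u} [Field K] {O : ValuationSubring K} {p : ℕ} [Fact p.Prime]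
    [Fact ¬IsUnit (p : O)] [IsAdicComplete (Ideal.span {(p : O)}) O] [IsAlgClosed K] [CharZero K]
    (b : TB O p) {n : ℕ} (I : Ideal (MvPolynomial (Fin (n + 1)) K))
    (hI : ∀ F ∈ I, ∀ m, MvPolynomial.homogeneousComponent m F ∈ I)
    (hdim : ringKrullDim (MvPolynomial (Fin (n + 1)) K ⧸ I) = 2) : TiltApprox p O I := by
  have hpux := pux_proof O p b
  have htn := tn_proof O p b hpux
  exact main_curve b htn (pts_proof O p b hpux htn (uc_proof O p b))
    (nearc_proof O p b hpux htn (cover_proof O p b)) (tower_proof O p)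
    (fun k => field_proof homext_proof k p)
    (fun k => ⟨resc_proof k, p_Cap k p, p_Sup k p, curA_proof k p homext_proof, p_CurB k p⟩)
    homext_proof I hI hdim

end Pool.Agent.DC
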