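import Pool.Agent.DC.MainF
import Pool.Agent.DC.HOM1
import Pool.Agent.DC.HOMC
import Pool.Agent.DC.EXYC
import Pool.Agent.DC.PARC
import Pool.Agent.DC.OPENU
import Pool.Agent.DC.VAC

/-!
# Images of complete intersections in towers over products of approximable varieties
-/

set_option autoImplicit false
set_option linter.unusedSectionVars false

noncomputable section

namespace Pool.Agent.DC

open scoped Classical
open MvPolynomial Pool.Agent.LibDb3ab1 MAINFX

universe u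

variable {K : Type u} [Field K] {O : ValuationSubring K} {p : ℕ} [Fact p.Prime]
  [Fact ¬IsUnit (p : O)] [IsAdicComplete (Ideal.span {(p : O)}) O]
variable {s d : ℕ} {τ : Type} {n : ℕ} [Finite τ]
variable {grp : τ → Fin s} {W : Fin s → τ → ℕ} {e : Fin s → ℕ} {J : Type} {o : Fin s → τ}

/-- **Part F.** Images of complete intersections in towers of weighted projective bundles over
products of approximable varieties are approximable. -/
theorem imagesF
    (hp0 : (p : K) ≠ 0) (hr : ∀ x : O, ¬IsUnit x → ∃ n : ℕ, (p : O) ∣ x ^ n)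
    (hnd : ∃ x : O, ¬IsUnit x ∧ ¬(p : O) ∣ x)
    (hFrob : Function.Surjective (frobenius (ModP O p) p))
    (hT : Tri grp W) (ho : ∀ i, grp (o i) = i) (he : 0 < ∑ i, e i)
    {cst : Finset (Fin s)} {N : Fin s → ℕ} {en : ∀ i, Fin (N i + 1) → τ}
    (hfac : Fac grp W cst N en) {δ : Fin s → ℕ}
    (Ξ : ∀ i, Ideal (MvPolynomial (Fin (N i + 1)) K))
    (hΞh : ∀ i ∈ cst, ∀ P ∈ Ξ i, ∀ m, homogeneousComponent m P ∈ Ξ i)
    (hΞd : ∀ i ∈ cst, ringKrullDim (MvPolynomial (Fin (N i + 1)) K ⧸ Ξ i) = (δ i + 1 : ℕ))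
    (hΞa : ∀ i ∈ cst, TiltApprox p O (Ξ i))
    (F : J → MvPolynomial τ K) {DF : J → Fin s → ℕ} (hF : ∀ j, MH W (F j) (DF j))
    (φ : Fin (n + 1) → MvPolynomial τ K) (hφ : ∀ l, MH W (φ l) e)
    (β : Idx grp cst δ o ≃ J ⊕ Fin d) {m : Idx grp cst δ o → ℕ} (hm : ∀ a, 0 < m a)
    {b : Idx grp cst δ o → Fin s → ℕ}
    (hmb : ∀ (a : Idx grp cst δ o) (i : Fin s),
      m a * W i (rep cst δ o a) + ∑ i', b a i' * W i (o i') = Sum.elim DF (fun _ => e) (β a) i)
    (I : Ideal (MvPolynomial (Fin (n + 1)) K))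
    (hno : ∀ z : τ → AlgebraicClosure K, Rel grp z → (∀ j, aeval z (F j) = 0) →
      (∀ i ∈ cst, ∀ P ∈ Ξ i, aeval (fun a => z (en i a)) P = 0) →
      ∃ l, aeval z (φ l) ≠ 0)
    (hX : ∀ z : τ → AlgebraicClosure K, Rel grp z → (∀ j, aeval z (F j) = 0) →
      (∀ i ∈ cst, ∀ P ∈ Ξ i, aeval (fun a => z (en i a)) P = 0) →
      ∀ P ∈ I, ∀ d, P.IsHomogeneous d → aeval (fun l => aeval z (φ l)) P = 0)
    (hdim : ringKrullDim (MvPolynomial (Fin (n + 1)) K ⧸ I) = (d + 1 : ℕ)) :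
    TiltApprox p O I :=
  mainF_K openu_proof parc_proof (exyc_proof (homc_proof hom1_proof)) vac_proof hp0 hr hnd hFrob
    hT ho he hfac Ξ hΞh hΞd hΞa F hF φ hφ β hm hmb I hno hX hdim

end Pool.Agent.DC
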