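import Pool.Agent.DC.FinalG
import Pool.Agent.DC.FinalF
import Pool.Agent.CSM.Final
import Pool.Agent.TDA.Final

/-!
# Complete intersections over products of curves, of varieties with Frobenius self-maps and of
totally degenerate abelian varieties
-/

set_option autoImplicit false

noncomputable section

namespace Pool.Agent.DC

open scoped Classical
open MvPolynomial Pool.Agent.LibDb3ab1 Pool.Agent.TDA MAINFX

universe u

variable {K : Type u} [Field K] [CharZero K] {O : ValuationSubring K} {p : ℕ} [Fact p.Prime]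
  [Fact ¬IsUnit (p : O)] [IsAdicComplete (Ideal.span {(p : O)}) O]

/-- A closed subscheme of `ℙ^N_O`, given by finitely many forms `f j` with torsion free homogeneous
coordinate ring (`flat`) and reduced reduction (`red`), with a self-map, given by forms `φ i` of the
same degree without common zero on the special fibre, whose reduction factors through the Frobenius
map (`frob`). -/
structure FrobModel (O : ValuationSubring K) (p N r : ℕ) where
  /-- the equations -/
  f : Fin r → MvPolynomial (Fin (N + 1)) O
  /-- their degrees -/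
  df : Fin r → ℕ
  hom : ∀ j, (f j).IsHomogeneous (df j)
  flat : ∀ (a : O) (F : MvPolynomial (Fin (N + 1)) O), a ≠ 0 →
    C a * F ∈ Ideal.span (Set.range f) → F ∈ Ideal.span (Set.range f)
  red : (Ideal.span (Set.range fun j => map (IsLocalRing.residue O) (f j))).IsRadical
  /-- the degree of the self-map -/
  q : ℕ
  q_pos : 0 < q
  /-- the self-map -/
  φ : Fin (N + 1) → MvPolynomial (Fin (N + 1)) O
  hom_φ : ∀ i, (φ i).IsHomogeneous q
  self : ∀ j, bind₁ φ (f j) ∈ Ideal.span (Set.range f)
  base : ∀ z : Fin (N + 1) → AlgebraicClosure (IsLocalRing.ResidueField O),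
    (∀ j, aeval z (map (IsLocalRing.residue O) (f j)) = 0) →
    (∀ i, aeval z (map (IsLocalRing.residue O) (φ i)) = 0) → z = 0
  frob : ∀ i, ∃ ψ : MvPolynomial (Fin (N + 1)) (IsLocalRing.ResidueField O),
    map (IsLocalRing.residue O) (φ i) - expand p ψ ∈
      Ideal.span (Set.range fun j => map (IsLocalRing.residue O) (f j))

/-- The closed subscheme of `ℙ^N` with homogeneous ideal `I` has dimension `δ`, and it is a curve,
or the generic fibre of a scheme with a self-map whose reduction factors through the Frobenius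
map, or it contains (over all algebraically closed complete extensions) the image of an analytic
torus of dimension `δ` under theta functions without common zeros. -/
structure IsFactor (O : ValuationSubring K) (p : ℕ) {N : ℕ}
    (I : Ideal (MvPolynomial (Fin (N + 1)) K)) (δ : ℕ) : Prop where
  hom : ∀ P ∈ I, ∀ k, homogeneousComponent k P ∈ I
  dim : ringKrullDim (MvPolynomial (Fin (N + 1)) K ⧸ I) = (δ + 1 : ℕ)
  type : δ = 1 ∨ (∃ (r : ℕ) (M : FrobModel O p N r),
    I = Ideal.span (Set.range fun j => map O.subtype (M.f j))) ∨ ThetaImage p O I δ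

theorem IsFactor.tiltApprox (b : TB O p) {N δ : ℕ} {I : Ideal (MvPolynomial (Fin (N + 1)) K)}
    (h : IsFactor O p I δ) : TiltApprox p O I := by
  obtain ⟨h0, h1, h2 | ⟨r, M, h2⟩ | h2⟩ := h
  · exact curves_all b I h0 (by rw [h1, h2]; norm_num)
  · subst h2
    exact Pool.Agent.CSM.frobenius_factor (b := b) M.q_pos M.f M.df M.hom M.φ M.hom_φ M.flat M.red
      M.self M.base M.frob h1
  · exact Pool.Agent.TDA.main b I h0 h1 h2

/-- A tower of weighted projective bundles over a product of schemes `X_i`, `i ∈ cst`. The variables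
`τ` are divided into groups by `grp`, `W i v` is the degree of `v` for the `i`-th grading, `o i` is
a variable of the group `i`. The variables `en i 0, ..., en i (N i)` of the group `i ∈ cst` are the
homogeneous coordinates of a projective space, and `Ξ i` is the ideal of the scheme `X_i` of
dimension `δ i` in it. -/
structure Base (O : ValuationSubring K) (p s : ℕ) (τ : Type) where
  /-- groups -/
  grp : τ → Fin s
  /-- degrees -/
  W : Fin s → τ → ℕ
  tri : Tri grp W
  /-- one variable in each group -/
  o : Fin s → τ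
  grp_o : ∀ i, grp (o i) = i
  /-- the groups of the factors `X_i` -/
  cst : Finset (Fin s)
  /-- dimensions of the projective spaces -/
  N : Fin s → ℕ
  /-- homogeneous coordinates -/
  en : ∀ i, Fin (N i + 1) → τ
  fac : Fac grp W cst N en
  /-- dimensions of the factors -/
  δ : Fin s → ℕ
  /-- the factors -/
  Ξ : ∀ i, Ideal (MvPolynomial (Fin (N i + 1)) K)
  isFactor : ∀ i ∈ cst, IsFactor O p (Ξ i) (δ i)

variable {s : ℕ} {τ : Type}

/-- The point with coordinates `z` of the tower `B` satisfies the equations `F j`. -/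
def Base.MemZ (B : Base O p s τ) {J : Type} (F : J → MvPolynomial τ K)
    (z : τ → AlgebraicClosure K) : Prop :=
  Rel B.grp z ∧ (∀ j, aeval z (F j) = 0) ∧
    ∀ i ∈ B.cst, ∀ P ∈ B.Ξ i, aeval (fun a => z (B.en i a)) P = 0

/-- The positivity condition for the multidegrees `D j` and `d` copies of `e`: there is a bijection
`β` between the set consisting of the variables `v` of the groups outside `cst`, except
`o (grp v)`, and of `δ i` copies of `o i` for `i ∈ cst`, and these multidegrees, such that the
multidegree corresponding to a copy `a` of the variable `v` is that of a monomial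
`v ^ (m a) * ∏ (o i) ^ (c a i)` with `m a > 0`. -/
def Base.Positive (B : Base O p s τ) {J : Type} (D : J → Fin s → ℕ) (e : Fin s → ℕ) (d : ℕ) :
    Prop :=
  ∃ (β : {v : τ // B.grp v ∉ B.cst ∧ v ≠ B.o (B.grp v)} ⊕ (Σ i : B.cst, Fin (B.δ i)) ≃ J ⊕ Fin d)
    (m : {v : τ // B.grp v ∉ B.cst ∧ v ≠ B.o (B.grp v)} ⊕ (Σ i : B.cst, Fin (B.δ i)) → ℕ)
    (c : {v : τ // B.grp v ∉ B.cst ∧ v ≠ B.o (B.grp v)} ⊕ (Σ i : B.cst, Fin (B.δ i)) →
      Fin s → ℕ), (∀ a, 0 < m a) ∧
    ∀ a (i : Fin s), m a * B.W i (Sum.elim (fun v => v.1) (fun x => B.o x.1) a) +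
      ∑ i', c a i' * B.W i (B.o i') = Sum.elim D (fun _ => e) (β a) i

/-- **Part F**, with factors which are curves, varieties with Frobenius self-maps or totally
degenerate abelian varieties. -/
theorem over_curves (b : TB O p) (hdense : ∃ x : O, ¬IsUnit x ∧ ¬(p : O) ∣ x)
    {n d : ℕ} [Finite τ] (B : Base O p s τ)
    {J : Type} (F : J → MvPolynomial τ K) {D : J → Fin s → ℕ} (hF : ∀ j, MH B.W (F j) (D j))
    (φ : Fin (n + 1) → MvPolynomial τ K) {e : Fin s → ℕ} (hφ : ∀ l, MH B.W (φ l) e)
    (he : 0 < ∑ i, e i) (hpos : B.Positive D e d)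
    (hno : ∀ z, B.MemZ F z → ∃ l, aeval z (φ l) ≠ 0)
    (I : Ideal (MvPolynomial (Fin (n + 1)) K))
    (hX : ∀ z, B.MemZ F z → ∀ P ∈ I, aeval (fun l => aeval z (φ l)) P = 0)
    (hdim : ringKrullDim (MvPolynomial (Fin (n + 1)) K ⧸ I) = (d + 1 : ℕ)) :
    TiltApprox p O I := by
  obtain ⟨β, m, c, hm, hmc⟩ := hpos
  exact imagesF b.hp0 b.hr hdense b.hF B.tri B.grp_o he B.fac B.Ξ (fun i hi => (B.isFactor i hi).hom)
    (fun i hi => (B.isFactor i hi).dim) (fun i hi => (B.isFactor i hi).tiltApprox b)
    F hF φ hφ β hm hmc I (fun z hz hFz hPz => hno z ⟨hz, hFz, hPz⟩)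
    (fun z hz hFz hPz P hP _ _ => hX z ⟨hz, hFz, hPz⟩ P hP) hdim

end Pool.Agent.DC
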