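import Pool.Agent.DC.StmtsB

/-!
# Module GPERT: goodness is stable under small perturbations
-/

set_option autoImplicit false
set_option linter.unusedSectionVars false

noncomputable section

namespace Pool.Agent.DC

open scoped Classical
open Pool.Agent.LibDb3ab1

universe u

namespace GPERT

/-- Values of a polynomial at congruent points are congruent. -/
theorem dvd_eval₂_sub {σ : Type} {R S : Type u} [CommRing R] [CommRing S] (f : R →+* S) (d : S)
    (x y : σ → S) (h : ∀ i, d ∣ x i - y i) (P : MvPolynomial σ R) :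
    d ∣ MvPolynomial.eval₂ f x P - MvPolynomial.eval₂ f y P := by
  rw [← Ideal.mem_span_singleton, ← Ideal.Quotient.eq]
  rw [MvPolynomial.eval₂_comp_left, MvPolynomial.eval₂_comp_left]
  congr 1
  funext i
  change Ideal.Quotient.mk _ (x i) = Ideal.Quotient.mk _ (y i)
  rw [Ideal.Quotient.eq, Ideal.mem_span_singleton]
  exact h i

/-- Homogeneity and evaluation. -/
theorem eval₂_smul {σ : Type} [Fintype σ] {R S : Type u} [CommRing R] [CommRing S] (f : R →+* S)
    (s : S) (x : σ → S) {P : MvPolynomial σ R} {d : ℕ} (hP : P.IsHomogeneous d) :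
    MvPolynomial.eval₂ f (fun i => x i * s) P = s ^ d * MvPolynomial.eval₂ f x P := by
  rw [MvPolynomial.eval₂_eq', MvPolynomial.eval₂_eq', Finset.mul_sum]
  apply Finset.sum_congr rfl
  intro m hm
  have hd : ∑ i, m i = d := by
    have h1 := hP (MvPolynomial.mem_support_iff.mp hm)
    rw [← h1, Finsupp.weight_apply, Finsupp.sum_fintype _ _ (by simp)]
    simp
  have h2 : ∏ i, (x i * s) ^ m i = s ^ d * ∏ i, x i ^ m i := by
    rw [← hd, ← Finset.prod_pow_eq_pow_sum, ← Finset.prod_mul_distrib]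
    apply Finset.prod_congr rfl
    intro i _
    rw [mul_pow, mul_comm]
  rw [h2]
  ring

end GPERT

open GPERT

variable {K : Type u} [Field K] (O : ValuationSubring K) (p : ℕ) [Fact p.Prime]
  [Fact ¬IsUnit (p : O)] [IsAdicComplete (Ideal.span {(p : O)}) O] (b : TB O p)

/-- GPERT. -/
theorem gpert_proof (hPUX : Stmt_PUX O p b) (hUC : Stmt_UC O p b) : Stmt_GPert O p b := by
  intro m
  refine ⟨(1 / 2) ^ (p ^ m + 1), by positivity, ?_⟩
  intro n J P dP hP C _ ι V hV _ _ v v' i₀ hi₀ hclose hgood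
  obtain ⟨c, x, l, hc, hxl, hvx, hPx⟩ := hgood
  have hϖ : PU (b.ϖV hV) := (hPUX.2 C ι V hV).2
  set ϖ := b.ϖV hV with hϖdef
  have hnT : ∀ y : (TF V p), nT hV b y = vn (TF V p) ϖ y := fun y => rfl
  simp only [hnT] at hclose
  have hρ1 : ((1 : ℝ) / 2) ^ (p ^ m + 1) < 1 :=
    pow_lt_one₀ (by norm_num) (by norm_num) (Nat.succ_ne_zero _)
  have hA : 0 < vn (TF V p) ϖ (v' i₀) := vn_pos hϖ hi₀
  have hcpos : 0 < vn (TF V p) ϖ c := vn_pos hϖ hc
  have hneg : ∀ y : (TF V p), vn (TF V p) ϖ (-y) = vn (TF V p) ϖ y := by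
    intro y
    have h1 : vabs hϖ (-y) = vabs hϖ y := AbsoluteValue.map_neg _ _
    exact h1
  -- `|v' i₀| ≤ |c|`
  have hAc : vn (TF V p) ϖ (v' i₀) ≤ vn (TF V p) ϖ c := by
    have h1 : v' i₀ = v i₀ + -(v i₀ - v' i₀) := by ring
    have h2 := vn_add_le hϖ (v i₀) (-(v i₀ - v' i₀))
    rw [← h1, hneg] at h2
    have h3 : vn (TF V p) ϖ (v i₀) ≤ vn (TF V p) ϖ c := by
      rw [hvx i₀, vn_mul hϖ]
      calc vn (TF V p) ϖ c * vn (TF V p) ϖ (algebraMap (PreTilt V p) (TF V p) (x i₀))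
          ≤ vn (TF V p) ϖ c * 1 := by
            gcongr
            exact vn_le_one _
        _ = vn (TF V p) ϖ c := mul_one _
    have h4 := hclose i₀
    rcases le_max_iff.mp h2 with h5 | h5
    · exact h5.trans h3
    · exfalso
      have h6 : vn (TF V p) ϖ (v' i₀) ≤ (1 / 2) ^ (p ^ m + 1) * vn (TF V p) ϖ (v' i₀) := h5.trans h4
      nlinarith
  -- the perturbed coordinates
  have hy : ∀ i, ∃ w : PreTilt V p,
      v' i = c * algebraMap (PreTilt V p) (TF V p) (x i + ϖ ^ p ^ m * w) := by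
    intro i
    have hϖ0 : algebraMap (PreTilt V p) (TF V p) ϖ ≠ 0 := hϖ.map_ne
    have h1 : vn (TF V p) ϖ ((v' i - v i) / (c * algebraMap (PreTilt V p) (TF V p) ϖ ^ p ^ m)) < 1 := by
      have h2 : vn (TF V p) ϖ ((v' i - v i) / (c * algebraMap (PreTilt V p) (TF V p) ϖ ^ p ^ m)) *
          (vn (TF V p) ϖ c * (1 / 2) ^ p ^ m) = vn (TF V p) ϖ (v' i - v i) := by
        rw [← vn_self (F := TF V p) hϖ, ← vn_pow hϖ, ← vn_mul hϖ, ← vn_mul hϖ,
          div_mul_cancel₀ _ (mul_ne_zero hc (pow_ne_zero _ hϖ0))]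
      have h3 : vn (TF V p) ϖ (v' i - v i) ≤ (1 / 2) ^ (p ^ m + 1) * vn (TF V p) ϖ c := by
        have h4 : v' i - v i = -(v i - v' i) := by ring
        rw [h4, hneg]
        calc vn (TF V p) ϖ (v i - v' i) ≤ (1 / 2) ^ (p ^ m + 1) * vn (TF V p) ϖ (v' i₀) := hclose i
          _ ≤ (1 / 2) ^ (p ^ m + 1) * vn (TF V p) ϖ c := by gcongr
      have h5 : 0 < vn (TF V p) ϖ c * (1 / 2) ^ p ^ m := by positivity
      rw [← h2, pow_succ] at h3
      by_contra hcon
      rw [not_lt] at hcon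
      have h6 : 1 * (vn (TF V p) ϖ c * (1 / 2) ^ p ^ m) ≤
          vn (TF V p) ϖ ((v' i - v i) / (c * algebraMap (PreTilt V p) (TF V p) ϖ ^ p ^ m)) *
          (vn (TF V p) ϖ c * (1 / 2) ^ p ^ m) := by gcongr
      nlinarith
    obtain ⟨w, hw⟩ := exists_of_vn_lt hϖ h1
    refine ⟨w, ?_⟩
    rw [map_add, map_mul, map_pow, hw, mul_add, ← hvx i]
    field_simp
    ring
  choose w hw using hy
  -- the normalising unit
  have hpm : p ^ m ≠ 0 := pow_ne_zero _ (Fact.out : p.Prime).ne_zero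
  have hnu : ¬IsUnit (ϖ ^ p ^ m) := by
    rw [isUnit_pow_iff hpm]; exact hϖ.not_unit
  have hunit : IsUnit (x l + ϖ ^ p ^ m * w l) := by
    rw [hxl]
    have h1 : ϖ ^ p ^ m * w l ∈ IsLocalRing.maximalIdeal (PreTilt V p) := by
      apply Ideal.mul_mem_right
      exact (IsLocalRing.mem_maximalIdeal _).mpr hnu
    by_contra h2
    have h3 : (1 + ϖ ^ p ^ m * w l) - ϖ ^ p ^ m * w l ∈
        IsLocalRing.maximalIdeal (PreTilt V p) :=
      Ideal.sub_mem _ ((IsLocalRing.mem_maximalIdeal _).mpr h2) h1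
    rw [add_sub_cancel_right] at h3
    exact (Ideal.ne_top_iff_one _).mp (IsLocalRing.maximalIdeal.isMaximal (PreTilt V p)).ne_top h3
  obtain ⟨s, hs⟩ := hunit.exists_right_inv
  refine ⟨c * algebraMap (PreTilt V p) (TF V p) (x l + ϖ ^ p ^ m * w l),
    fun i => (x i + ϖ ^ p ^ m * w i) * s, l, ?_, hs, ?_, ?_⟩
  · apply mul_ne_zero hc
    intro h0
    have h1 : x l + ϖ ^ p ^ m * w l = 0 :=
      IsFractionRing.injective (PreTilt V p) (TF V p) (by rw [h0, map_zero])
    rw [h1] at hunit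
    exact not_isUnit_zero hunit
  · intro i
    have h1 : algebraMap (PreTilt V p) (TF V p) (x l + ϖ ^ p ^ m * w l) *
        algebraMap (PreTilt V p) (TF V p) s = 1 := by rw [← map_mul, hs, map_one]
    calc v' i = c * algebraMap (PreTilt V p) (TF V p) (x i + ϖ ^ p ^ m * w i) := hw i
      _ = c * algebraMap (PreTilt V p) (TF V p) (x i + ϖ ^ p ^ m * w i) *
          (algebraMap (PreTilt V p) (TF V p) (x l + ϖ ^ p ^ m * w l) *
          algebraMap (PreTilt V p) (TF V p) s) := by rw [h1, mul_one]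
      _ = _ := by rw [map_mul]; ring
  · intro j
    have h1 : MvPolynomial.eval₂ hV.incl
        (fun i => PreTilt.untilt ((x i + ϖ ^ p ^ m * w i) * s)) (P j) =
        PreTilt.untilt s ^ dP j * MvPolynomial.eval₂ hV.incl
          (fun i => PreTilt.untilt (x i + ϖ ^ p ^ m * w i)) (P j) := by
      rw [← eval₂_smul _ _ _ (hP j)]
      congr 1
      funext i
      rw [map_mul]
    rw [h1]
    apply Dvd.dvd.mul_left
    have h2 : (p : V) ^ m ∣ MvPolynomial.eval₂ hV.incl
          (fun i => PreTilt.untilt (x i + ϖ ^ p ^ m * w i)) (P j) -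
        MvPolynomial.eval₂ hV.incl (fun i => PreTilt.untilt (x i)) (P j) := by
      apply dvd_eval₂_sub
      intro i
      refine (pow_dvd_pow _ (Nat.le_succ m)).trans ?_
      apply hUC C ι V hV _ _ m
      rw [add_sub_cancel_left]
      exact Dvd.intro _ rfl
    have h3 := dvd_add h2 (hPx j)
    rwa [sub_add_cancel] at h3

end Pool.Agent.DC
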