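import Mathlib

/-!
# Gauss norms, restricted power series and uniform limits of Laurent polynomials

`k` is a nonarchimedean field. `PP k` is the polynomial ring with the Gauss norm, `RP k` its
completion (restricted power series), `evP a : RP k →+* Ω` the evaluation at a point `a` of norm at
most one of a complete extension. `RR k` is the ring of functions on the unit circle `Tc k` which are
uniform limits of Laurent polynomials.
-/

set_option autoImplicit false
set_option linter.unusedSectionVars false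

noncomputable section

namespace Pool.Agent.DC

open Polynomial

universe u

section gauss

variable {k : Type u} [NontriviallyNormedField k]

/-- The Gauss norm of a polynomial. -/
def gn (f : k[X]) : ℝ := f.gaussNorm (NormedField.toAbsoluteValue k) 1

theorem abv_apply (x : k) : (NormedField.toAbsoluteValue k) x = ‖x‖ := rfl

theorem coeff_le_gn (f : k[X]) (i : ℕ) : ‖f.coeff i‖ ≤ gn f := by
  have h := f.le_gaussNorm (NormedField.toAbsoluteValue k) zero_le_one i
  rw [one_pow, mul_one, abv_apply] at h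
  exact h

theorem gn_nonneg (f : k[X]) : 0 ≤ gn f := f.gaussNorm_nonneg _ zero_le_one

theorem gn_le {f : k[X]} {M : ℝ} (h : ∀ i, ‖f.coeff i‖ ≤ M) : gn f ≤ M := by
  obtain ⟨i, hi⟩ := f.exists_eq_gaussNorm (NormedField.toAbsoluteValue k) 1
  rw [gn, hi, one_pow, mul_one, abv_apply]
  exact h i

theorem gn_le_iff {f : k[X]} {M : ℝ} : gn f ≤ M ↔ ∀ i, ‖f.coeff i‖ ≤ M :=
  ⟨fun h i => (coeff_le_gn f i).trans h, gn_le⟩

theorem gn_zero : gn (0 : k[X]) = 0 := gaussNorm_zero _ _

theorem gn_neg (f : k[X]) : gn (-f) = gn f := by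
  apply le_antisymm
  · exact gn_le fun i => by rw [coeff_neg, norm_neg]; exact coeff_le_gn f i
  · exact gn_le fun i => by
      have := coeff_le_gn (-f) i
      rwa [coeff_neg, norm_neg] at this

theorem gn_eq_zero {f : k[X]} (h : gn f = 0) : f = 0 := by
  ext i
  have := coeff_le_gn f i
  rw [h] at this
  simpa using norm_le_zero_iff.mp this

variable [IsUltrametricDist k]

theorem isNonarch : IsNonarchimedean (NormedField.toAbsoluteValue k) := fun x y =>
  IsUltrametricDist.norm_add_le_max x y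

theorem gn_add_le (f g : k[X]) : gn (f + g) ≤ max (gn f) (gn g) :=
  gn_le fun i => by
    rw [coeff_add]
    exact (IsUltrametricDist.norm_add_le_max _ _).trans
      (max_le_max (coeff_le_gn f i) (coeff_le_gn g i))

theorem gn_mul (f g : k[X]) : gn (f * g) = gn f * gn g :=
  gaussNorm_mul isNonarch zero_lt_one f g

/-- Polynomials with the Gauss norm. -/
def PP (k : Type u) [NontriviallyNormedField k] : Type u := k[X]

instance : CommRing (PP k) := inferInstanceAs (CommRing k[X])

/-- The Gauss norm as a ring norm. -/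
def gaussRingNorm (k : Type u) [NontriviallyNormedField k] [IsUltrametricDist k] :
    RingNorm (PP k) where
  toFun f := gn (k := k) f
  map_zero' := gn_zero
  add_le' f g := (gn_add_le (k := k) f g).trans
    (max_le_add_of_nonneg (gn_nonneg (k := k) f) (gn_nonneg (k := k) g))
  neg' f := gn_neg (k := k) f
  mul_le' f g := (gn_mul (k := k) f g).le
  eq_zero_of_map_eq_zero' _ := gn_eq_zero (k := k)

instance : NormedCommRing (PP k) :=
  { (gaussRingNorm k).toNormedRing, (inferInstance : CommRing (PP k)) with }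

theorem norm_PP (f : PP k) : ‖f‖ = gn (k := k) f := rfl

/-- Restricted power series. -/
abbrev RP (k : Type u) [NontriviallyNormedField k] [IsUltrametricDist k] : Type u :=
  UniformSpace.Completion (PP k)

/-- The inclusion of polynomials. -/
def toRP : k[X] →+* RP k := (UniformSpace.Completion.coeRingHom : PP k →+* RP k)

theorem norm_toRP (f : k[X]) : ‖toRP f‖ = gn f :=
  UniformSpace.Completion.norm_coe (E := PP k) f

end gauss

section eval

variable {k : Type u} [NontriviallyNormedField k] [IsUltrametricDist k]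
variable {Ω : Type u} [NormedField Ω] [NormedAlgebra k Ω] [IsUltrametricDist Ω]

theorem norm_aeval_le {a : Ω} (ha : ‖a‖ ≤ 1) (f : k[X]) : ‖aeval a f‖ ≤ gn f := by
  rw [aeval_eq_sum_range]
  apply IsUltrametricDist.norm_sum_le_of_forall_le_of_nonneg (gn_nonneg f)
  intro i _
  rw [norm_smul, norm_pow]
  calc ‖f.coeff i‖ * ‖a‖ ^ i ≤ ‖f.coeff i‖ * 1 := by
        gcongr
        exact pow_le_one₀ (norm_nonneg _) ha
    _ ≤ gn f := by rw [mul_one]; exact coeff_le_gn f i

/-- `a` if its norm is at most one, and `0` otherwise. -/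
def tru (a : Ω) : Ω := by classical exact if ‖a‖ ≤ 1 then a else 0

theorem tru_of_le {a : Ω} (ha : ‖a‖ ≤ 1) : tru a = a := if_pos ha

theorem norm_tru_le (a : Ω) : ‖tru a‖ ≤ 1 := by
  unfold tru
  split_ifs with h
  · exact h
  · simp

/-- Evaluation of polynomials at `tru a`. -/
def evPP (a : Ω) : PP k →+* Ω := (aeval (R := k) (tru a)).toRingHom

theorem evPP_apply (a : Ω) (f : k[X]) : evPP (k := k) a f = aeval (tru a) f := rfl

theorem evPP_norm_le (a : Ω) (f : PP k) : ‖evPP a f‖ ≤ ‖f‖ :=
  norm_aeval_le (norm_tru_le a) f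

theorem continuous_evPP (a : Ω) : Continuous (evPP (k := k) a) :=
  AddMonoidHomClass.continuous_of_bound (evPP (k := k) a) 1 fun f => by
    rw [one_mul]; exact evPP_norm_le a f

variable [CompleteSpace Ω]

/-- Evaluation of a restricted power series at a point of norm at most one. -/
def evP (a : Ω) : RP k →+* Ω :=
  UniformSpace.Completion.extensionHom (evPP (k := k) a) (continuous_evPP a)

theorem evP_toRP {a : Ω} (ha : ‖a‖ ≤ 1) (f : k[X]) : evP a (toRP f) = aeval a f := by
  have h := UniformSpace.Completion.extensionHom_coe (evPP (k := k) a) (continuous_evPP a) f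
  rw [evPP_apply, tru_of_le ha] at h
  exact h

theorem continuous_evP (a : Ω) : Continuous (evP (k := k) a) :=
  UniformSpace.Completion.continuous_extension

theorem norm_evP_le (a : Ω) (x : RP k) : ‖evP a x‖ ≤ ‖x‖ := by
  induction x using UniformSpace.Completion.induction_on with
  | hp => exact isClosed_le (continuous_evP a).norm continuous_norm
  | ih f =>
    have h := UniformSpace.Completion.extensionHom_coe (evPP (k := k) a) (continuous_evPP a) f
    have h2 : evP a (f : RP k) = evPP a f := h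
    rw [h2, UniformSpace.Completion.norm_coe]
    exact evPP_norm_le a f

end eval

section circle

variable (k : Type u) [NontriviallyNormedField k] [IsUltrametricDist k]

/-- The unit circle. -/
def Tc : Type u := {a : k // ‖a‖ = 1}

variable {k}

theorem Tc.ne_zero (a : Tc k) : a.1 ≠ 0 := by
  intro h
  have := a.2
  rw [h, norm_zero] at this
  exact zero_ne_one this

theorem Tc.norm_inv (a : Tc k) : ‖(a.1)⁻¹‖ = 1 := by rw [_root_.norm_inv, a.2, inv_one]

/-- Uniform limits of Laurent polynomials on the unit circle. -/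
def IsR (f : Tc k → k) : Prop :=
  ∀ ε : ℝ, 0 < ε → ∃ (N : ℕ) (g : k[X]), ∀ a : Tc k, ‖f a - (a.1)⁻¹ ^ N * g.eval a.1‖ ≤ ε

theorem norm_eval_le {a : k} (ha : ‖a‖ ≤ 1) (f : k[X]) : ‖f.eval a‖ ≤ gn f := by
  have := norm_aeval_le (k := k) (Ω := k) ha f
  simpa using this

theorem IsR.bdd {f : Tc k → k} (hf : IsR f) : ∃ M : ℝ, 0 ≤ M ∧ ∀ a, ‖f a‖ ≤ M := by
  obtain ⟨N, g, h⟩ := hf 1 one_pos
  refine ⟨max 1 (gn g), le_max_of_le_left zero_le_one, fun a => ?_⟩
  have h1 : f a = (f a - (a.1)⁻¹ ^ N * g.eval a.1) + (a.1)⁻¹ ^ N * g.eval a.1 := by ring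
  rw [h1]
  refine (IsUltrametricDist.norm_add_le_max _ _).trans (max_le_max (h a) ?_)
  rw [norm_mul, norm_pow, a.norm_inv, one_pow, one_mul]
  exact norm_eval_le a.2.le g

theorem IsR.add {f g : Tc k → k} (hf : IsR f) (hg : IsR g) : IsR (f + g) := by
  intro ε hε
  obtain ⟨N, F, hF⟩ := hf ε hε
  obtain ⟨M, G, hG⟩ := hg ε hε
  refine ⟨N + M, X ^ M * F + X ^ N * G, fun a => ?_⟩
  have h1 : (f + g) a - (a.1)⁻¹ ^ (N + M) * (X ^ M * F + X ^ N * G).eval a.1 =
      (f a - (a.1)⁻¹ ^ N * F.eval a.1) + (g a - (a.1)⁻¹ ^ M * G.eval a.1) := by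
    have h2 : (a.1)⁻¹ ^ M * a.1 ^ M = 1 := by
      rw [← mul_pow, inv_mul_cancel₀ a.ne_zero, one_pow]
    have h3 : (a.1)⁻¹ ^ N * a.1 ^ N = 1 := by
      rw [← mul_pow, inv_mul_cancel₀ a.ne_zero, one_pow]
    simp only [Pi.add_apply, eval_add, eval_mul, eval_pow, eval_X]
    linear_combination (-(a.1)⁻¹ ^ N * F.eval a.1) * h2 - (a.1)⁻¹ ^ M * G.eval a.1 * h3
  rw [h1]
  exact (IsUltrametricDist.norm_add_le_max _ _).trans (max_le (hF a) (hG a))

theorem IsR.mul {f g : Tc k → k} (hf : IsR f) (hg : IsR g) : IsR (f * g) := by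
  intro ε hε
  obtain ⟨A, hA0, hA⟩ := hf.bdd
  obtain ⟨B, hB0, hB⟩ := hg.bdd
  obtain ⟨N, F, hF⟩ := hf (ε / (B + 1)) (by positivity)
  obtain ⟨M, G, hG⟩ := hg (min (ε / (max A (ε / (B + 1)) + 1)) 1) (by positivity)
  refine ⟨N + M, F * G, fun a => ?_⟩
  set F' := (a.1)⁻¹ ^ N * F.eval a.1
  set G' := (a.1)⁻¹ ^ M * G.eval a.1
  have h1 : (f * g) a - (a.1)⁻¹ ^ (N + M) * (F * G).eval a.1 =
      (f a - F') * g a + F' * (g a - G') := by
    simp only [Pi.mul_apply, eval_mul, F', G']
    ring
  rw [h1]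
  refine (IsUltrametricDist.norm_add_le_max _ _).trans (max_le ?_ ?_)
  · rw [norm_mul]
    calc ‖f a - F'‖ * ‖g a‖ ≤ (ε / (B + 1)) * B := by gcongr; exacts [hF a, hB a]
      _ ≤ ε := by
        rw [div_mul_eq_mul_div, div_le_iff₀ (by positivity)]
        nlinarith
  · rw [norm_mul]
    have h2 : ‖F'‖ ≤ max A (ε / (B + 1)) := by
      have h3 : F' = f a + -(f a - F') := by ring
      rw [h3]
      refine (IsUltrametricDist.norm_add_le_max _ _).trans (max_le_max (hA a) ?_)
      rw [norm_neg]
      exact hF a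
    calc ‖F'‖ * ‖g a - G'‖ ≤ max A (ε / (B + 1)) * (ε / (max A (ε / (B + 1)) + 1)) := by
          gcongr
          exact (hG a).trans (min_le_left _ _)
      _ ≤ ε := by
        have h4 : 0 ≤ max A (ε / (B + 1)) := le_max_of_le_left hA0
        rw [mul_div_assoc', div_le_iff₀ (by positivity)]
        nlinarith

theorem IsR.neg {f : Tc k → k} (hf : IsR f) : IsR (-f) := by
  intro ε hε
  obtain ⟨N, F, hF⟩ := hf ε hε
  refine ⟨N, -F, fun a => ?_⟩
  have h1 : (-f) a - (a.1)⁻¹ ^ N * (-F).eval a.1 = -(f a - (a.1)⁻¹ ^ N * F.eval a.1) := by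
    simp only [Pi.neg_apply, eval_neg]
    ring
  rw [h1, norm_neg]
  exact hF a

theorem isR_laurent (N : ℕ) (g : k[X]) : IsR fun a : Tc k => (a.1)⁻¹ ^ N * g.eval a.1 := by
  intro ε hε
  refine ⟨N, g, fun a => ?_⟩
  rw [sub_self, norm_zero]
  exact hε.le

theorem isR_poly (g : k[X]) : IsR fun a : Tc k => g.eval a.1 := by
  simpa using isR_laurent 0 g

variable (k) in
/-- The ring of uniform limits of Laurent polynomials on the unit circle. -/
def RR : Subring (Tc k → k) where
  carrier := {f | IsR f}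
  mul_mem' := IsR.mul
  one_mem' := by
    have := isR_poly (k := k) 1
    simp only [eval_one] at this
    exact this
  add_mem' := IsR.add
  zero_mem' := by
    have := isR_poly (k := k) 0
    simp only [eval_zero] at this
    exact this
  neg_mem' := IsR.neg

theorem mem_RR {f : Tc k → k} : f ∈ RR k ↔ IsR f := Iff.rfl

/-- Evaluation at a point of the circle. -/
def evR (a : Tc k) : RR k →+* k := (Pi.evalRingHom (fun _ : Tc k => k) a).comp (RR k).subtype

theorem evR_apply (a : Tc k) (f : RR k) : evR a f = f.1 a := rfl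

theorem RR.ext {f g : RR k} (h : ∀ a, evR a f = evR a g) : f = g :=
  Subtype.ext (funext h)

/-- Polynomials as functions on the circle. -/
def polR : k[X] →+* RR k where
  toFun g := ⟨fun a => g.eval a.1, isR_poly g⟩
  map_one' := Subtype.ext (funext fun a => by simp)
  map_mul' f g := Subtype.ext (funext fun a => by simp)
  map_zero' := Subtype.ext (funext fun a => by simp)
  map_add' f g := Subtype.ext (funext fun a => by simp)

@[simp] theorem evR_polR (a : Tc k) (g : k[X]) : evR a (polR g) = g.eval a.1 := rfl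

/-- `RR k` is closed under uniform limits. -/
theorem isR_of_limit {f : Tc k → k} (h : ∀ ε : ℝ, 0 < ε → ∃ g : Tc k → k, IsR g ∧
    ∀ a, ‖f a - g a‖ ≤ ε) : IsR f := by
  intro ε hε
  obtain ⟨g, hg, hfg⟩ := h ε hε
  obtain ⟨N, G, hG⟩ := hg ε hε
  refine ⟨N, G, fun a => ?_⟩
  have h1 : f a - (a.1)⁻¹ ^ N * G.eval a.1 = (f a - g a) + (g a - (a.1)⁻¹ ^ N * G.eval a.1) := by
    ring
  rw [h1]
  exact (IsUltrametricDist.norm_add_le_max _ _).trans (max_le (hfg a) (hG a))

end circle

end Pool.Agent.DC
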