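import Pool.Agent.DC.StmtsC

/-!
# LIMCL: uniform limits of functions on the cover
-/

set_option autoImplicit false
set_option linter.unusedSectionVars false

noncomputable section

namespace Pool.Agent.DC

open Polynomial
open scoped Classical

universe u

namespace LIMCL

variable {k : Type u} [NontriviallyNormedField k] [IsUltrametricDist k]

instance : Nontrivial (RR k) := by
  refine ⟨0, 1, fun h => ?_⟩
  have h1 := congrArg (evR (⟨1, norm_one⟩ : Tc k)) h
  rw [map_zero, map_one] at h1
  exact zero_ne_one h1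

theorem map_map_polR (P : k[X][X]) (a : Tc k) :
    (P.map (polR (k := k))).map (evR a) = P.map (evalRingHom a.1) := by
  rw [Polynomial.map_map]
  congr 1

theorem root_of_mem {c : Cov k} {a : Tc k} {θ : k} (hθ : θ ∈ fib c.P a) :
    (c.P.map (evalRingHom a.1)).eval θ = 0 := by
  rw [fib, Multiset.mem_toFinset] at hθ
  exact (mem_roots (c.monic.map _).ne_zero).mp hθ

theorem modBy_eval (c : Cov k) (u : (RR k)[X]) (a : Tc k) {θ : k} (hθ : θ ∈ fib c.P a) :
    ((u %ₘ c.P.map polR).map (evR a)).eval θ = (u.map (evR a)).eval θ := by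
  have h1 := congrArg (fun q => (Polynomial.map (evR a) q).eval θ)
    (modByMonic_add_div u (c.P.map polR))
  simp only [Polynomial.map_add, Polynomial.map_mul, eval_add, eval_mul] at h1
  rw [map_map_polR, root_of_mem hθ, zero_mul, add_zero] at h1
  exact h1

theorem modBy_deg (c : Cov k) (u : (RR k)[X]) :
    (u %ₘ c.P.map polR).natDegree < c.P.natDegree := by
  have hm : (c.P.map (polR (k := k))).Monic := c.monic.map _
  have hd : (c.P.map (polR (k := k))).natDegree = c.P.natDegree := c.monic.natDegree_map _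
  have h1 : c.P.map (polR (k := k)) ≠ 1 := by
    intro h
    rw [h, natDegree_one] at hd
    have := c.pos
    omega
  rw [← hd]
  exact natDegree_modByMonic_lt u hm h1

end LIMCL

theorem limcl_proof (k : Type u) [NontriviallyNormedField k] [IsUltrametricDist k]
    [CompleteSpace k] [IsAlgClosed k] (hcoef : Stmt_Coef k) : Stmt_LimCl k := by
  intro c d hd f hf
  have hdpos := hd.pos
  choose g hgA hg using fun n : ℕ => hf ((1 / 2 : ℝ) ^ n) (by positivity)
  choose u hu using hgA
  set v : ℕ → (RR k)[X] := fun n => u n %ₘ c.P.map polR with hv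
  have hvdeg : ∀ n, (v n).natDegree < c.P.natDegree := fun n => LIMCL.modBy_deg c (u n)
  have hfv : ∀ n, ∀ a : Tc k, ∀ θ ∈ fib c.P a,
      ‖f a θ - ((v n).map (evR a)).eval θ‖ ≤ (1 / 2 : ℝ) ^ n := by
    intro n a θ hθ
    rw [hv]
    simp only
    rw [LIMCL.modBy_eval c (u n) a hθ, ← hu n a θ hθ]
    exact hg n a θ hθ
  have hdiff : ∀ n m N : ℕ, N ≤ n → N ≤ m → ∀ (a : Tc k) (j : ℕ),
      ‖evR a ((v n).coeff j) - evR a ((v m).coeff j)‖ ≤ (1 / 2 : ℝ) ^ N / d := by
    intro n m N hn hm a j
    have h1 := hcoef c d hd (v n - v m) ((1 / 2 : ℝ) ^ N) (by positivity)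
      (lt_of_le_of_lt (natDegree_sub_le _ _) (max_lt (hvdeg n) (hvdeg m))) (fun a θ hθ => by
        have h2 : ((v n - v m).map (evR a)).eval θ =
            (f a θ - ((v m).map (evR a)).eval θ) - (f a θ - ((v n).map (evR a)).eval θ) := by
          rw [Polynomial.map_sub, eval_sub]
          ring
        rw [h2, sub_eq_add_neg]
        refine (IsUltrametricDist.norm_add_le_max _ _).trans (max_le ?_ ?_)
        · exact (hfv m a θ hθ).trans (pow_le_pow_of_le_one (by norm_num) (by norm_num) hm)
        · rw [norm_neg]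
          exact (hfv n a θ hθ).trans (pow_le_pow_of_le_one (by norm_num) (by norm_num) hn)) a j
    rwa [coeff_sub, map_sub] at h1
  have hb : Filter.Tendsto (fun N : ℕ => (1 / 2 : ℝ) ^ N / d) Filter.atTop (nhds 0) := by
    have h1 := (tendsto_pow_atTop_nhds_zero_of_lt_one (r := (1 / 2 : ℝ)) (by norm_num)
      (by norm_num)).div_const d
    rwa [zero_div] at h1
  have hlim : ∀ (a : Tc k) (j : ℕ), ∃ w : k,
      Filter.Tendsto (fun n => evR a ((v n).coeff j)) Filter.atTop (nhds w) := by
    intro a j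
    apply cauchySeq_tendsto_of_complete
    refine cauchySeq_of_le_tendsto_0 (fun N : ℕ => (1 / 2 : ℝ) ^ N / d) (fun n m N hn hm => ?_) hb
    rw [dist_eq_norm]
    exact hdiff n m N hn hm a j
  choose w hw using hlim
  have hwv : ∀ (a : Tc k) (j n : ℕ), ‖w a j - evR a ((v n).coeff j)‖ ≤ (1 / 2 : ℝ) ^ n / d := by
    intro a j n
    have h1 : Filter.Tendsto (fun m => ‖evR a ((v m).coeff j) - evR a ((v n).coeff j)‖)
        Filter.atTop (nhds ‖w a j - evR a ((v n).coeff j)‖) := ((hw a j).sub_const _).norm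
    refine le_of_tendsto h1 ?_
    filter_upwards [Filter.eventually_ge_atTop n] with m hm
    exact hdiff m n n hm le_rfl a j
  have hsmall : ∀ ε : ℝ, 0 < ε → ∃ N : ℕ, (1 / 2 : ℝ) ^ N / d ≤ ε := by
    intro ε hε
    obtain ⟨N, hN⟩ := exists_pow_lt_of_lt_one (y := (1 / 2 : ℝ)) (mul_pos hε hdpos) (by norm_num)
    refine ⟨N, ?_⟩
    rw [div_le_iff₀ hdpos]
    exact hN.le
  have hwR : ∀ j, IsR fun a : Tc k => w a j := by
    intro j
    apply isR_of_limit
    intro ε hε
    obtain ⟨N, hN⟩ := hsmall ε hε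
    exact ⟨fun a => evR a ((v N).coeff j), ((v N).coeff j).2, fun a => (hwv a j N).trans hN⟩
  refine ⟨∑ j ∈ Finset.range c.P.natDegree, C ⟨fun a => w a j, hwR j⟩ * X ^ j,
    fun a θ hθ => ?_⟩
  have h1 : ((∑ j ∈ Finset.range c.P.natDegree,
      C (⟨fun a => w a j, hwR j⟩ : RR k) * X ^ j).map (evR a)).eval θ =
      ∑ j ∈ Finset.range c.P.natDegree, w a j * θ ^ j := by
    rw [Polynomial.map_sum, eval_finsetSum]
    refine Finset.sum_congr rfl fun j _ => ?_
    rw [Polynomial.map_mul, map_C, Polynomial.map_pow, map_X, eval_mul, eval_C, eval_pow, eval_X]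
    rfl
  rw [h1, ← sub_eq_zero, ← norm_le_zero_iff]
  apply le_of_forall_pos_le_add
  intro ε hε
  rw [zero_add]
  obtain ⟨N, hN⟩ := hsmall ε hε
  have h2 : ((v N).map (evR a)).eval θ =
      ∑ j ∈ Finset.range c.P.natDegree, evR a ((v N).coeff j) * θ ^ j := by
    rw [eval_eq_sum_range' (lt_of_le_of_lt natDegree_map_le (hvdeg N))]
    exact Finset.sum_congr rfl fun j _ => by rw [coeff_map]
  have h3 : f a θ - ∑ j ∈ Finset.range c.P.natDegree, w a j * θ ^ j =
      (f a θ - ((v N).map (evR a)).eval θ) +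
        -∑ j ∈ Finset.range c.P.natDegree, (w a j - evR a ((v N).coeff j)) * θ ^ j := by
    rw [h2]
    simp only [sub_mul, Finset.sum_sub_distrib]
    ring
  rw [h3]
  refine (IsUltrametricDist.norm_add_le_max _ _).trans (max_le ?_ ?_)
  · refine (hfv N a θ hθ).trans (le_trans ?_ hN)
    rw [le_div_iff₀ hdpos]
    exact mul_le_of_le_one_right (by positivity) hd.le_one
  · rw [norm_neg]
    apply IsUltrametricDist.norm_sum_le_of_forall_le_of_nonneg hε.le
    intro j _
    rw [norm_mul, norm_pow]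
    calc ‖w a j - evR a ((v N).coeff j)‖ * ‖θ‖ ^ j ≤ ε * 1 := by
          gcongr
          · exact (hwv a j N).trans hN
          · exact pow_le_one₀ (norm_nonneg _) (hd.norm_le a θ hθ)
      _ = ε := mul_one ε

end Pool.Agent.DC
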