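import Pool.Agent.DC.StmtsB

/-!
# Module RATIND: points with different ratios are linearly independent
-/

set_option autoImplicit false
set_option linter.unusedSectionVars false

noncomputable section

namespace Pool.Agent.DC

open scoped Classical
open Pool.Agent.LibDb3ab1

universe u

namespace RATINDX

theorem eval₂_smul_one {σ R S : Type*} [CommSemiring R] [CommSemiring S] (f : R →+* S)
    (φ : MvPolynomial σ R) (hφ : φ.IsHomogeneous 1) (c : S) (x : σ → S) :
    MvPolynomial.eval₂ f (fun i => c * x i) φ = c * MvPolynomial.eval₂ f x φ := by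
  rw [MvPolynomial.eval₂_eq, MvPolynomial.eval₂_eq, Finset.mul_sum]
  refine Finset.sum_congr rfl fun d hd => ?_
  have h2 : ∑ i ∈ d.support, d i = 1 := by
    have h2 := hφ (MvPolynomial.mem_support_iff.1 hd)
    rw [Finsupp.weight_apply] at h2
    simpa [Finsupp.sum] using h2
  have h3 : ∏ i ∈ d.support, (c * x i) ^ d i = c * ∏ i ∈ d.support, x i ^ d i := by
    simp only [mul_pow]
    rw [Finset.prod_mul_distrib, Finset.prod_pow_eq_pow_sum, h2, pow_one]
  rw [h3]
  ring

variable {K : Type u} [Field K] {O : ValuationSubring K} {p : ℕ} [Fact p.Prime]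
  [Fact ¬IsUnit (p : O)] [IsAdicComplete (Ideal.span {(p : O)}) O]

/-- proportional points have the same ratio -/
theorem ratio_eq (hO : ValuedExt O (RingHom.id K) O) (hPU : PU (p : O)) {n : ℕ}
    (L : Fin 2 → MvPolynomial (Fin (n + 1)) O) (hL : ∀ j, (L j).IsHomogeneous 1)
    {v₁ v₂ : Fin (n + 1) → TF O p} {r₁ r₂ : ℝ} (h₁ : Rat hO L v₁ r₁) (h₂ : Rat hO L v₂ r₂)
    (l : TF O p) (hl : l ≠ 0) (hv : ∀ i, v₂ i = l * v₁ i) : r₁ = r₂ := by
  obtain ⟨c₁, x₁, hc₁, hx₁, hL₁, hr₁⟩ := h₁
  obtain ⟨c₂, x₂, hc₂, hx₂, hL₂, hr₂⟩ := h₂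
  obtain ⟨a, b, hb, hab⟩ := IsFractionRing.div_surjective (A := PreTilt O p) (l * c₁ / c₂)
  have hb0 : b ≠ 0 := nonZeroDivisors.ne_zero hb
  have hbK : algebraMap (PreTilt O p) (TF O p) b ≠ 0 :=
    (map_ne_zero_iff _ (IsFractionRing.injective (PreTilt O p) (TF O p))).2 hb0
  have hne : l * c₁ / c₂ ≠ 0 := div_ne_zero (mul_ne_zero hl hc₁) hc₂
  have ha0 : a ≠ 0 := by
    rintro rfl
    rw [map_zero, zero_div] at hab
    exact hne hab.symm
  -- proportionality in the tilt
  have hprop : ∀ i, a * x₁ i = b * x₂ i := by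
    intro i
    apply IsFractionRing.injective (PreTilt O p) (TF O p)
    rw [map_mul, map_mul]
    have h1 := hv i
    rw [hx₁, hx₂] at h1
    have h2 : algebraMap (PreTilt O p) (TF O p) a =
        (l * c₁ / c₂) * algebraMap (PreTilt O p) (TF O p) b := by
      rw [← hab]
      field_simp
    rw [h2]
    field_simp
    linear_combination -h1
  have hun : ∀ i, PreTilt.untilt a * PreTilt.untilt (x₁ i) =
      PreTilt.untilt b * PreTilt.untilt (x₂ i) := by
    intro i
    rw [← map_mul, ← map_mul, hprop]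
  have hev : ∀ j, PreTilt.untilt a * MvPolynomial.eval₂ hO.incl (fun i => PreTilt.untilt (x₁ i)) (L j) =
      PreTilt.untilt b * MvPolynomial.eval₂ hO.incl (fun i => PreTilt.untilt (x₂ i)) (L j) := by
    intro j
    rw [← eval₂_smul_one _ _ (hL j), ← eval₂_smul_one _ _ (hL j)]
    congr 1
    funext i
    exact hun i
  have hnorm : ∀ j, nC p hO (PreTilt.untilt a : O) *
      nC p hO (MvPolynomial.eval₂ hO.incl (fun i => PreTilt.untilt (x₁ i)) (L j) : O) =
      nC p hO (PreTilt.untilt b : O) *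
      nC p hO (MvPolynomial.eval₂ hO.incl (fun i => PreTilt.untilt (x₂ i)) (L j) : O) := by
    intro j
    unfold nC
    rw [← vn_mul hPU, ← vn_mul hPU]
    have h := congrArg (Subtype.val : O → K) (hev j)
    exact congrArg (vn K (p : O)) h
  have hb1 : nC p hO (PreTilt.untilt b : O) ≠ 0 := by
    have h1 : ((PreTilt.untilt b : O) : K) ≠ 0 := by
      intro h
      apply hb0
      apply eq_zero_of_untilt
      exact Subtype.ext h
    exact (vn_pos hPU h1).ne'
  have ha1 : nC p hO (PreTilt.untilt a : O) ≠ 0 := by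
    have h1 : ((PreTilt.untilt a : O) : K) ≠ 0 := by
      intro h
      apply ha0
      apply eq_zero_of_untilt
      exact Subtype.ext h
    exact (vn_pos hPU h1).ne'
  have e0 := hnorm 0
  have e1 := hnorm 1
  set A := nC p hO (PreTilt.untilt a : O)
  set B := nC p hO (PreTilt.untilt b : O)
  set P0 := nC p hO (MvPolynomial.eval₂ hO.incl (fun i => PreTilt.untilt (x₁ i)) (L 0) : O)
  set P1 := nC p hO (MvPolynomial.eval₂ hO.incl (fun i => PreTilt.untilt (x₁ i)) (L 1) : O)
  set Q0 := nC p hO (MvPolynomial.eval₂ hO.incl (fun i => PreTilt.untilt (x₂ i)) (L 0) : O)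
  set Q1 := nC p hO (MvPolynomial.eval₂ hO.incl (fun i => PreTilt.untilt (x₂ i)) (L 1) : O)
  have hP0 : P0 ≠ 0 := by
    intro h
    rw [h, zero_mul] at hr₁
    exact hL₁ hr₁.symm
  have h3 : A * P0 * r₁ = A * P0 * r₂ := by
    calc A * P0 * r₁ = A * P1 := by rw [mul_assoc, hr₁]
      _ = B * Q1 := e1
      _ = B * Q0 * r₂ := by rw [mul_assoc, hr₂]
      _ = A * P0 * r₂ := by rw [e0]
  exact mul_left_cancel₀ (mul_ne_zero ha1 hP0) h3

end RATINDX

open RATINDX

theorem ratind_proof {K : Type u} [Field K] (O : ValuationSubring K) (p : ℕ) [Fact p.Prime]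
    [Fact ¬IsUnit (p : O)] [IsAdicComplete (Ideal.span {(p : O)}) O] (b : TB O p)
    (h1 : Stmt_PUX O p b) : Stmt_RatInd O p b := by
  intro hO n L hL v₁ v₂ r₁ r₂ h₁ h₂ hr
  have hPU : PU (p : O) := (h1.2 K (RingHom.id K) O hO).1
  have hne : ∀ (v : Fin (n + 1) → TF O p) (r : ℝ), Rat hO L v r → v ≠ 0 := by
    rintro v r ⟨c, x, hc, hx, hL1, -⟩ rfl
    apply hL1
    have hx0 : ∀ i, x i = 0 := by
      intro i
      have h2 := hx i
      rw [Pi.zero_apply] at h2
      have h3 := (mul_eq_zero.1 h2.symm).resolve_left hc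
      exact (map_eq_zero_iff _ (IsFractionRing.injective (PreTilt O p) (TF O p))).1 h3
    have h4 : (fun i => PreTilt.untilt (x i)) = fun i => (0 : O) * (1 : O) := by
      funext i
      rw [hx0, untilt_zero, zero_mul]
    rw [h4, eval₂_smul_one _ _ (hL 1) (0 : O) (fun _ => 1), zero_mul]
    exact vn_zero hPU
  rw [LinearIndependent.pair_iff]
  intro s t hst
  have ht : t = 0 := by
    by_contra ht
    rcases eq_or_ne s 0 with rfl | hs
    · rw [zero_smul, zero_add] at hst
      exact hne v₂ r₂ h₂ ((smul_eq_zero.1 hst).resolve_left ht)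
    · apply hr
      refine ratio_eq hO hPU L hL h₁ h₂ (-(s / t)) (neg_ne_zero.2 (div_ne_zero hs ht)) ?_
      intro i
      have h2 := congrFun hst i
      simp only [Pi.add_apply, Pi.smul_apply, smul_eq_mul, Pi.zero_apply] at h2
      field_simp
      linear_combination h2
  refine ⟨?_, ht⟩
  rw [ht, zero_smul, add_zero] at hst
  exact (smul_eq_zero.1 hst).resolve_right (hne v₁ r₁ h₁)

end Pool.Agent.DC
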