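import Pool.Agent.DC.StmtsE

/-!
# Module SCALE
-/

set_option autoImplicit false

noncomputable section

namespace Pool.Agent.DC

namespace SCALE

open MvPolynomial

universe u

variable {K : Type u} [Field K]

/-- scaling of the variables -/
def scl {k : ℕ} (c : Fin k → K) : MvPolynomial (Fin k) K →ₐ[K] MvPolynomial (Fin k) K :=
  aeval fun i => C (c i) * X i

theorem coeff_scl {k : ℕ} (c : Fin k → K) (P : MvPolynomial (Fin k) K) (u : Fin k →₀ ℕ) :
    coeff u (scl c P) = (∏ i, c i ^ u i) * coeff u P := by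
  classical
  induction P using MvPolynomial.induction_on' with
  | monomial v a =>
    unfold scl
    rw [aeval_monomial, Finsupp.prod_fintype _ _ (by intro i; simp)]
    simp_rw [mul_pow]
    rw [Finset.prod_mul_distrib]
    have h1 : ∏ i, (C (c i) : MvPolynomial (Fin k) K) ^ v i = C (∏ i, c i ^ v i) := by
      simp [map_prod, map_pow]
    have h2 : ∏ i, (X i : MvPolynomial (Fin k) K) ^ v i = monomial v 1 := by
      rw [monomial_eq, C_1, one_mul, Finsupp.prod_fintype _ _ (by intro i; simp)]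
    rw [h1, h2, algebraMap_eq, coeff_C_mul, coeff_C_mul, coeff_monomial, coeff_monomial]
    by_cases h : v = u
    · subst h; simp; ring
    · simp [h]
  | add p q hp hq => rw [map_add, coeff_add, coeff_add, hp, hq]; ring

theorem scl_hom {k : ℕ} (c : Fin k → K) {P : MvPolynomial (Fin k) K} {n : ℕ}
    (hP : P.IsHomogeneous n) : (scl c P).IsHomogeneous n := by
  intro u hu
  apply hP
  intro h0
  rw [coeff_scl, h0, mul_zero] at hu
  exact hu rfl

theorem aeval_mul_hom {ι : Type} [Fintype ι] {T : Type u} [CommRing T] [Algebra K T] (B : ι → T)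
    (μ : T) {P : MvPolynomial ι K} {n : ℕ} (hP : P.IsHomogeneous n) :
    aeval (fun i => μ * B i) P = μ ^ n * aeval B P := by
  classical
  rw [aeval_def, aeval_def, eval₂_eq', eval₂_eq', Finset.mul_sum]
  apply Finset.sum_congr rfl
  intro u hu
  simp_rw [mul_pow]
  rw [Finset.prod_mul_distrib, Finset.prod_pow_eq_pow_sum]
  have h1 : ∑ i, u i = n := by
    have := hP.coeff_eq_zero (d := u)
    rw [mem_support_iff] at hu
    by_contra hne
    apply hu
    apply this
    rw [Finsupp.degree_eq_sum]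
    exact hne
  rw [h1]
  ring

section val
variable (O : ValuationSubring K)

theorem clr (s : Finset K) : ∃ c : K, c ≠ 0 ∧ c ∈ O ∧ ∀ x ∈ s, c * x ∈ O := by
  classical
  induction s using Finset.induction_on with
  | empty => exact ⟨1, one_ne_zero, O.one_mem, by simp⟩
  | insert x s _ ih =>
    obtain ⟨c, h1, h2, h3⟩ := ih
    by_cases hx : x ∈ O
    · refine ⟨c, h1, h2, fun y hy => ?_⟩
      rcases Finset.mem_insert.1 hy with rfl | hy
      · exact O.mul_mem _ _ h2 hx
      · exact h3 y hy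
    · have hx0 : x ≠ 0 := by rintro rfl; exact hx O.zero_mem
      have hx' : x⁻¹ ∈ O := (O.mem_or_inv_mem x).resolve_left hx
      refine ⟨c * x⁻¹, mul_ne_zero h1 (inv_ne_zero hx0), O.mul_mem _ _ h2 hx', fun y hy => ?_⟩
      rcases Finset.mem_insert.1 hy with rfl | hy
      · rw [inv_mul_cancel_right₀ hx0]; exact h2
      · have : c * x⁻¹ * y = (c * y) * x⁻¹ := by ring
        rw [this]; exact O.mul_mem _ _ (h3 y hy) hx'

theorem clrP {ι κ : Type} [Fintype ι] (P : ι → MvPolynomial κ K) :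
    ∃ c : K, c ≠ 0 ∧ c ∈ O ∧ ∀ i u, c * coeff u (P i) ∈ O := by
  classical
  obtain ⟨c, h1, h2, h3⟩ := clr O
    (Finset.univ.biUnion fun i => (P i).support.image fun u => coeff u (P i))
  refine ⟨c, h1, h2, fun i u => ?_⟩
  by_cases hu : coeff u (P i) = 0
  · rw [hu, mul_zero]; exact O.zero_mem
  · apply h3
    rw [Finset.mem_biUnion]
    exact ⟨i, Finset.mem_univ _, Finset.mem_image.2 ⟨u, mem_support_iff.2 hu, rfl⟩⟩

theorem lift_poly {κ : Type} (P : MvPolynomial κ K) (h : ∀ u, coeff u P ∈ O) :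
    ∃ P' : MvPolynomial κ O, map O.subtype P' = P := by
  classical
  refine ⟨∑ u ∈ P.support, monomial u ⟨coeff u P, h u⟩, ?_⟩
  rw [map_sum]
  conv_rhs => rw [P.as_sum]
  apply Finset.sum_congr rfl
  intro u _
  rw [map_monomial]
  rfl

theorem map_inj {κ : Type} : Function.Injective (map O.subtype : MvPolynomial κ O → _) :=
  MvPolynomial.map_injective _ Subtype.val_injective

/-- divisibility by a homogeneous polynomial which is monic in the last variable -/
theorem dvd_of_map_dvd {m : ℕ} {F G : MvPolynomial (Fin 3) O} (hF : F.IsHomogeneous m)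
    (h1 : F.coeff (Finsupp.single 2 m) = 1) (hd : map O.subtype F ∣ map O.subtype G) : F ∣ G := by
  classical
  obtain ⟨Q, hQ⟩ := hd
  have key : ∀ k : ℕ, ∀ v : Fin 3 →₀ ℕ, Q.degreeOf 2 < v 2 + k → coeff v Q ∈ O := by
    intro k
    induction k with
    | zero =>
      intro v hv
      have : coeff v Q = 0 := by
        by_contra h0
        have := monomial_le_degreeOf (2 : Fin 3) (mem_support_iff.2 h0)
        omega
      rw [this]; exact O.zero_mem
    | succ k ih =>
      intro v hv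
      have hc : coeff (v + Finsupp.single 2 m) (map O.subtype G) =
          ∑ x ∈ Finset.HasAntidiagonal.antidiagonal (v + Finsupp.single 2 m),
            coeff x.1 (map O.subtype F) * coeff x.2 Q := by rw [hQ, coeff_mul]
      have hmem : ((Finsupp.single 2 m, v) : (Fin 3 →₀ ℕ) × (Fin 3 →₀ ℕ)) ∈
          Finset.HasAntidiagonal.antidiagonal (v + Finsupp.single 2 m) := by
        rw [Finset.HasAntidiagonal.mem_antidiagonal, add_comm]
      rw [← Finset.add_sum_erase _ _ hmem] at hc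
      have e1 : coeff (Finsupp.single 2 m) (map O.subtype F) = 1 := by
        rw [coeff_map, h1]; rfl
      simp only [e1, one_mul] at hc
      have e2 : coeff v Q = coeff (v + Finsupp.single 2 m) (map O.subtype G) -
          ∑ x ∈ (Finset.HasAntidiagonal.antidiagonal (v + Finsupp.single 2 m)).erase (Finsupp.single 2 m, v),
            coeff x.1 (map O.subtype F) * coeff x.2 Q := by rw [hc]; ring
      rw [e2]
      refine O.toSubring.sub_mem ?_ (O.toSubring.sum_mem ?_)
      · rw [coeff_map]; exact Subtype.prop _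
      · intro x hx
        rw [Finset.mem_erase, Finset.HasAntidiagonal.mem_antidiagonal] at hx
        obtain ⟨hx1, hx2⟩ := hx
        by_cases hz : coeff x.1 F = 0
        · rw [coeff_map, hz, map_zero, zero_mul]; exact O.zero_mem
        · have hdeg : x.1.degree = m := by
            by_contra hne
            exact hz (hF.coeff_eq_zero hne)
          refine O.mul_mem _ _ (by rw [coeff_map]; exact Subtype.prop _) ?_
          apply ih
          have hlt : x.1 2 < m := by
            rw [Finsupp.degree_eq_sum, Fin.sum_univ_three] at hdeg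
            by_contra hge
            apply hx1
            have hx10 : x.1 = Finsupp.single 2 m := by
              ext i
              fin_cases i
              · simp; omega
              · simp; omega
              · simp; omega
            have hx20 : x.2 = v := by
              rw [hx10, add_comm] at hx2
              exact add_right_cancel hx2
            exact Prod.ext hx10 hx20
          have h3 := DFunLike.congr_fun hx2 (2 : Fin 3)
          simp only [Finsupp.add_apply, Finsupp.single_eq_same] at h3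
          omega
  have hall : ∀ v, coeff v Q ∈ O := fun v => key (Q.degreeOf 2 + 1) v (by omega)
  obtain ⟨Q', hQ'⟩ := lift_poly O Q hall
  refine ⟨Q', map_inj O ?_⟩
  rw [map_mul, hQ', hQ]

theorem map_aeval_pol {ι κ : Type} (A : ι → MvPolynomial κ O) (P : MvPolynomial ι O) :
    map O.subtype (aeval A P) = aeval (fun i => map O.subtype (A i)) (map O.subtype P) := by
  induction P using MvPolynomial.induction_on with
  | C a => simp [algebraMap_eq]
  | add p q hp hq => simp only [map_add, hp, hq]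
  | mul_X p i hp => simp only [map_mul, hp, aeval_X, map_X]

end val

theorem aux_a {α γ : K} (hα : α ≠ 0) (hγ : γ ≠ 0) (x y : ℕ) (z : K) :
    (α * γ) ^ (x + y) * (α⁻¹ ^ x * (α * γ)⁻¹ ^ y * z) = γ ^ x * z := by
  have h1 : α ^ x * α⁻¹ ^ x = 1 := by rw [← mul_pow, mul_inv_cancel₀ hα, one_pow]
  have h2 : (α * γ) ^ y * (α * γ)⁻¹ ^ y = 1 := by
    rw [← mul_pow, mul_inv_cancel₀ (mul_ne_zero hα hγ), one_pow]
  calc (α * γ) ^ (x + y) * (α⁻¹ ^ x * (α * γ)⁻¹ ^ y * z)
      = (α ^ x * α⁻¹ ^ x) * ((α * γ) ^ y * (α * γ)⁻¹ ^ y) * (γ ^ x * z) := by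
        rw [pow_add, mul_pow]; ring
    _ = γ ^ x * z := by rw [h1, h2]; ring

theorem aux_b {α γ κ : K} (hα : α ≠ 0) (hγ : γ ≠ 0) (hκ : κ ≠ 0) (x y w : ℕ) (z : K) :
    (α * γ * κ) ^ (x + y + w) * (α⁻¹ ^ x * (α * γ)⁻¹ ^ y * (α * γ * κ)⁻¹ ^ w * z) =
      γ ^ x * κ ^ (x + y) * z := by
  have h2 : (α * γ * κ) ^ w * (α * γ * κ)⁻¹ ^ w = 1 := by
    rw [← mul_pow, mul_inv_cancel₀ (mul_ne_zero (mul_ne_zero hα hγ) hκ), one_pow]
  have h3 := aux_a hα hγ x y z
  calc (α * γ * κ) ^ (x + y + w) * (α⁻¹ ^ x * (α * γ)⁻¹ ^ y * (α * γ * κ)⁻¹ ^ w * z)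
      = ((α * γ * κ) ^ w * (α * γ * κ)⁻¹ ^ w) * κ ^ (x + y) *
        ((α * γ) ^ (x + y) * (α⁻¹ ^ x * (α * γ)⁻¹ ^ y * z)) := by
        rw [pow_add (α * γ * κ) (x + y) w, mul_pow (α * γ) κ (x + y)]; ring
    _ = γ ^ x * κ ^ (x + y) * z := by rw [h2, h3]; ring

theorem aeval_CC {ι κ : Type} (v : ι → MvPolynomial κ K) (a b : K) (q : MvPolynomial ι K) :
    aeval v (C a * (C b * q)) = C a * (C b * aeval v q) := by
  simp only [map_mul, aeval_C, algebraMap_eq]

theorem deg3 {u : Fin 3 →₀ ℕ} {m : ℕ} (h : u.degree = m) : u 0 + u 1 + u 2 = m := by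
  rw [Finsupp.degree_eq_sum, Fin.sum_univ_three] at h; exact h

theorem deg2 {u : Fin 2 →₀ ℕ} {m : ℕ} (h : u.degree = m) : u 0 + u 1 = m := by
  rw [Finsupp.degree_eq_sum, Fin.sum_univ_two] at h; exact h

end SCALE

open SCALE MvPolynomial in
theorem scale_proof (K : Type*) [Field K] (O : ValuationSubring K) : Stmt_Scale K O := by
  classical
  rintro n 𝔮 ⟨D⟩
  obtain ⟨α, hα0, hαO, hα⟩ := clrP O (fun _ : Unit => D.L 0)
  obtain ⟨γ₁, hγ₁0, hγ₁O, hγ₁⟩ := clrP O (fun _ : Unit => D.L 1)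
  obtain ⟨γ₂, hγ₂0, hγ₂O, hγ₂⟩ := clrP O (fun _ : Unit => D.δ)
  obtain ⟨κ, hκ0, hκO, hκ⟩ := clrP O (fun _ : Unit => D.F)
  set γ := γ₁ * γ₂ with hγdef
  have hγ0 : γ ≠ 0 := mul_ne_zero hγ₁0 hγ₂0
  have hγO : γ ∈ O := O.mul_mem _ _ hγ₁O hγ₂O
  set β := α * γ with hβdef
  have hβ0 : β ≠ 0 := mul_ne_zero hα0 hγ0
  set τ := β * κ with hτdef
  have hτ0 : τ ≠ 0 := mul_ne_zero hβ0 hκ0
  set c3 : Fin 3 → K := ![α⁻¹, β⁻¹, τ⁻¹] with hc3
  set c2 : Fin 2 → K := ![α⁻¹, β⁻¹] with hc2
  set c1 : Fin 3 → K := ![α⁻¹, β⁻¹, 1] with hc1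
  set a2 : Fin 2 → K := ![α, β] with ha2
  have ha2c : ∀ j : Fin 2, a2 j * c3 (Fin.castSucc j) = 1 := by
    intro j
    fin_cases j
    · exact mul_inv_cancel₀ hα0
    · exact mul_inv_cancel₀ hβ0
  have hc32 : ∀ j : Fin 2, c3 (Fin.castSucc j) = c2 j := by
    intro j
    fin_cases j <;> rfl
  -- the linear forms
  have hL : ∀ j, ∃ P : MvPolynomial (Fin (n + 1)) O, map O.subtype P = C (a2 j) * D.L j := by
    intro j
    refine lift_poly O _ fun u => ?_
    rw [coeff_C_mul]
    fin_cases j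
    · exact hα () u
    · have : a2 1 * coeff u (D.L 1) = α * γ₂ * (γ₁ * coeff u (D.L 1)) := by
        simp only [ha2, hβdef, hγdef, Matrix.cons_val_one, Matrix.cons_val_fin_one]; ring
      show a2 1 * coeff u (D.L 1) ∈ O
      rw [this]
      exact O.mul_mem _ _ (O.mul_mem _ _ hαO hγ₂O) (hγ₁ () u)
  choose L' hL' using hL
  -- F
  have hF : ∃ P : MvPolynomial (Fin 3) O, map O.subtype P = C (τ ^ D.m) * scl c3 D.F := by
    refine lift_poly O _ fun u => ?_
    rw [coeff_C_mul, coeff_scl, Fin.prod_univ_three]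
    by_cases hz : coeff u D.F = 0
    · rw [hz]; simp [O.zero_mem]
    have hdeg := deg3 (by by_contra hne; exact hz (D.F_hom.coeff_eq_zero hne) : u.degree = D.m)
    simp only [hc3, Matrix.cons_val_zero, Matrix.cons_val_one, Matrix.cons_val]
    have e : τ ^ D.m * (α⁻¹ ^ u 0 * β⁻¹ ^ u 1 * τ⁻¹ ^ u 2 * coeff u D.F) =
        γ ^ u 0 * κ ^ (u 0 + u 1) * coeff u D.F := by
      rw [← hdeg, hτdef, hβdef]
      exact aux_b hα0 hγ0 hκ0 _ _ _ _
    rw [e]
    rcases Nat.eq_zero_or_pos (u 0 + u 1) with h0 | h0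
    · have hu : u = Finsupp.single 2 D.m := by
        ext i; fin_cases i <;> simp <;> omega
      have h00 : u 0 = 0 := by omega
      rw [h0, h00, hu, D.F_coeff]; simp [O.one_mem]
    · obtain ⟨k, hk⟩ : ∃ k, u 0 + u 1 = k + 1 := ⟨u 0 + u 1 - 1, by omega⟩
      rw [hk, pow_succ]
      have : γ ^ u 0 * (κ ^ k * κ) * coeff u D.F = γ ^ u 0 * κ ^ k * (κ * coeff u D.F) := by ring
      rw [this]
      exact O.mul_mem _ _ (O.mul_mem _ _ (pow_mem hγO _) (pow_mem hκO _)) (hκ () u)
  obtain ⟨F', hF'⟩ := hF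
  -- δ
  have hδ : ∃ P : MvPolynomial (Fin 2) O, map O.subtype P = C (β ^ D.D) * scl c2 D.δ := by
    refine lift_poly O _ fun u => ?_
    rw [coeff_C_mul, coeff_scl, Fin.prod_univ_two]
    by_cases hz : coeff u D.δ = 0
    · rw [hz]; simp [O.zero_mem]
    have hdeg := deg2 (by by_contra hne; exact hz (D.δ_hom.coeff_eq_zero hne) : u.degree = D.D)
    simp only [hc2, Matrix.cons_val_zero, Matrix.cons_val_one, Matrix.cons_val_fin_one]
    have e : β ^ D.D * (α⁻¹ ^ u 0 * β⁻¹ ^ u 1 * coeff u D.δ) = γ ^ u 0 * coeff u D.δ := by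
      rw [← hdeg, hβdef]
      exact aux_a hα0 hγ0 _ _ _
    rw [e]
    rcases Nat.eq_zero_or_pos (u 0) with h0 | h0
    · have hu : u = Finsupp.single 1 D.D := by
        ext i; fin_cases i <;> simp <;> omega
      rw [h0, hu, D.δ_coeff]; simp [O.one_mem]
    · obtain ⟨k, hk⟩ : ∃ k, u 0 = k + 1 := ⟨u 0 - 1, by omega⟩
      rw [hk, pow_succ]
      have : γ ^ k * γ * coeff u D.δ = γ ^ k * γ₁ * (γ₂ * coeff u D.δ) := by
        rw [hγdef]; ring
      rw [this]
      exact O.mul_mem _ _ (O.mul_mem _ _ (pow_mem hγO _) hγ₁O) (hγ₂ () u)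
  obtain ⟨δ', hδ'⟩ := hδ
  -- A and δ₀
  obtain ⟨μ₁, hμ₁0, hμ₁O, hμ₁⟩ := clrP O (fun i => scl c3 (D.A i))
  obtain ⟨μ₂, hμ₂0, hμ₂O, hμ₂⟩ := clr O {D.δ₀ * β⁻¹ ^ D.D}
  set μ := μ₁ * μ₂ with hμdef
  have hμ0 : μ ≠ 0 := mul_ne_zero hμ₁0 hμ₂0
  have hA : ∀ i, ∃ P : MvPolynomial (Fin 3) O, map O.subtype P = C μ * scl c3 (D.A i) := by
    intro i
    refine lift_poly O _ fun u => ?_
    rw [coeff_C_mul, hμdef]
    have : μ₁ * μ₂ * coeff u (scl c3 (D.A i)) = μ₂ * (μ₁ * coeff u (scl c3 (D.A i))) := by ring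
    rw [this]
    exact O.mul_mem _ _ hμ₂O (hμ₁ i u)
  choose A' hA' using hA
  have hδ₀ : μ * (D.δ₀ * β⁻¹ ^ D.D) ∈ O := by
    rw [hμdef, mul_assoc]
    exact O.mul_mem _ _ hμ₁O (hμ₂ _ (Finset.mem_singleton_self _))
  -- f
  obtain ⟨ν, hν0, hνO, hν⟩ := clrP O (fun i => C (D.φ⁻¹) * scl c1 (D.f i))
  have hf : ∀ i, ∃ P : MvPolynomial (Fin 3) O,
      map O.subtype P = C ν * (C (D.φ⁻¹) * scl c1 (D.f i)) := by
    intro i
    refine lift_poly O _ fun u => ?_
    rw [coeff_C_mul]
    exact hν i u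
  choose f' hf' using hf
  have hsub : Function.Injective O.subtype := Subtype.val_injective
  have hF'hom : F'.IsHomogeneous D.m := by
    refine IsHomogeneous.of_map hsub ?_
    rw [hF']; exact (scl_hom c3 D.F_hom).C_mul _
  have hF'c : F'.coeff (Finsupp.single 2 D.m) = 1 := by
    apply hsub
    rw [← coeff_map, hF', coeff_C_mul, coeff_scl, D.F_coeff, Fin.prod_univ_three]
    simp only [hc3, Matrix.cons_val_zero, Matrix.cons_val_one, Matrix.cons_val]
    have h0 : (Finsupp.single (2 : Fin 3) D.m) 0 = 0 := by simp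
    have h1 : (Finsupp.single (2 : Fin 3) D.m) 1 = 0 := by simp
    rw [h0, h1, Finsupp.single_eq_same, pow_zero, pow_zero, mul_one, one_mul, one_mul, inv_pow,
      mul_inv_cancel₀ (pow_ne_zero _ hτ0)]
    rfl
  have hunit : IsUnit (C (τ ^ D.m) : MvPolynomial (Fin 3) K) :=
    (IsUnit.mk0 _ (pow_ne_zero _ hτ0)).map C
  refine ⟨{ m := D.m, D := D.D, e := D.e, m_pos := D.m_pos, D_pos := D.D_pos, e_pos := D.e_pos
            L := L'
            L_hom := ?_
            F := F'
            F_hom := hF'hom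
            F_coeff := hF'c
            δ := δ'
            δ_hom := ?_
            δ_coeff := ?_
            δ₀ := ⟨_, hδ₀⟩
            δ₀_ne := ?_
            A := A'
            A_hom := ?_
            dvd := ?_
            dvd_L := ?_
            φ := ⟨ν, hνO⟩
            φ_ne := ?_
            f := f'
            f_hom := ?_
            f_coeff := ?_
            f_mem := ?_ }⟩
  · intro j
    refine IsHomogeneous.of_map hsub ?_
    rw [hL']; exact (D.L_hom j).C_mul _
  · refine IsHomogeneous.of_map hsub ?_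
    rw [hδ']; exact (scl_hom c2 D.δ_hom).C_mul _
  · apply hsub
    rw [← coeff_map, hδ', coeff_C_mul, coeff_scl, D.δ_coeff, Fin.prod_univ_two]
    simp only [hc2, Matrix.cons_val_zero, Matrix.cons_val_one, Matrix.cons_val_fin_one]
    have h0 : (Finsupp.single (1 : Fin 2) D.D) 0 = 0 := by simp
    rw [h0, Finsupp.single_eq_same, pow_zero, one_mul, mul_one, inv_pow,
      mul_inv_cancel₀ (pow_ne_zero _ hβ0)]
    rfl
  · intro h
    have h2 := congrArg Subtype.val h
    have : μ * (D.δ₀ * β⁻¹ ^ D.D) = 0 := h2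
    exact (mul_ne_zero hμ0 (mul_ne_zero D.δ₀_ne (pow_ne_zero _ (inv_ne_zero hβ0)))) this
  · intro i
    refine IsHomogeneous.of_map hsub ?_
    rw [hA']; exact (scl_hom c3 (D.A_hom i)).C_mul _
  · intro d P hP hm
    refine dvd_of_map_dvd O hF'hom hF'c ?_
    rw [map_aeval_pol, hF', hunit.mul_left_dvd]
    have e1 : (fun i => map O.subtype (A' i)) = fun i => C μ * scl c3 (D.A i) := by
      funext i; exact hA' i
    rw [e1, aeval_mul_hom (fun i => scl c3 (D.A i)) (C μ) (hP.map _)]
    have e2 : aeval (fun i => scl c3 (D.A i)) (map O.subtype P) =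
        scl c3 (aeval D.A (map O.subtype P)) := by
      rw [← AlgHom.comp_apply]
      congr 1
      ext i
      simp
    rw [e2]
    refine Dvd.dvd.mul_left ?_ _
    exact map_dvd (scl c3) (D.dvd d _ (hP.map _) (by rw [MvPolynomial.map_id]; exact hm))
  · intro j
    refine dvd_of_map_dvd O hF'hom hF'c ?_
    rw [map_sub, map_aeval_pol, hF', hunit.mul_left_dvd]
    have e1 : (fun i => map O.subtype (A' i)) = fun i => C μ * scl c3 (D.A i) := by
      funext i; exact hA' i
    rw [e1, hL', aeval_mul_hom (fun i => scl c3 (D.A i)) (C μ) ((D.L_hom j).C_mul _)]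
    have e2 : aeval (fun i => scl c3 (D.A i)) (C (a2 j) * D.L j) =
        C (a2 j) * scl c3 (aeval D.A (D.L j)) := by
      rw [map_mul, aeval_C, algebraMap_eq]
      congr 1
      rw [← AlgHom.comp_apply]
      congr 1
      ext i
      simp
    have e3 : scl c3 (rename Fin.castSucc D.δ) = rename Fin.castSucc (scl c2 D.δ) := by
      have : (scl c3).comp (rename Fin.castSucc) =
          ((rename Fin.castSucc : MvPolynomial (Fin 2) K →ₐ[K] MvPolynomial (Fin 3) K)).comp
            (scl c2) := by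
        ext i
        simp [scl, hc32]
      exact DFunLike.congr_fun this D.δ
    have e4 : map O.subtype (C (⟨_, hδ₀⟩ : O) * X (Fin.castSucc j) * rename Fin.castSucc δ') =
        C (μ * (D.δ₀ * β⁻¹ ^ D.D)) * X (Fin.castSucc j) *
          (C (β ^ D.D) * scl c3 (rename Fin.castSucc D.δ)) := by
      rw [map_mul, map_mul, map_C, map_X, map_rename, hδ', map_mul, rename_C, e3]
      rfl
    rw [e2, e4]
    have h1 := map_dvd (scl c3) (D.dvd_L j)
    rw [map_sub, map_mul, map_mul] at h1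
    have e5 : scl c3 (X (Fin.castSucc j)) = C (c3 (Fin.castSucc j)) * X (Fin.castSucc j) := by
      simp [scl]
    have e6 : scl c3 (C D.δ₀) = C D.δ₀ := by simp [scl, algebraMap_eq]
    rw [e5, e6] at h1
    have h2 := Dvd.dvd.mul_left h1 (C μ * C (a2 j))
    have e7 : (C μ * C (a2 j) : MvPolynomial (Fin 3) K) * (scl c3 (aeval D.A (D.L j)) -
        C D.δ₀ * (C (c3 (Fin.castSucc j)) * X (Fin.castSucc j)) *
          scl c3 (rename Fin.castSucc D.δ)) =
        C μ ^ 1 * (C (a2 j) * scl c3 (aeval D.A (D.L j))) -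
        C (μ * (D.δ₀ * β⁻¹ ^ D.D)) * X (Fin.castSucc j) *
          (C (β ^ D.D) * scl c3 (rename Fin.castSucc D.δ)) := by
      have h3 : (C (a2 j) * C (c3 (Fin.castSucc j)) : MvPolynomial (Fin 3) K) = 1 := by
        rw [← C_mul, ha2c, C_1]
      have h4 : (C (μ * (D.δ₀ * β⁻¹ ^ D.D)) * C (β ^ D.D) : MvPolynomial (Fin 3) K) =
          C μ * C D.δ₀ := by
        rw [← C_mul, ← C_mul]
        congr 1
        have : β⁻¹ ^ D.D * β ^ D.D = 1 := by
          rw [← mul_pow, inv_mul_cancel₀ hβ0, one_pow]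
        calc μ * (D.δ₀ * β⁻¹ ^ D.D) * β ^ D.D = μ * D.δ₀ * (β⁻¹ ^ D.D * β ^ D.D) := by ring
          _ = μ * D.δ₀ := by rw [this, mul_one]
      linear_combination (-(C μ * C D.δ₀ * X (Fin.castSucc j) *
        scl c3 (rename Fin.castSucc D.δ))) * h3 + (X (Fin.castSucc j) *
        scl c3 (rename Fin.castSucc D.δ)) * h4
    rw [e7] at h2
    exact h2
  · intro h
    exact hν0 (congrArg Subtype.val h)
  · intro i
    refine IsHomogeneous.of_map hsub ?_
    rw [hf']; exact ((scl_hom c1 (D.f_hom i)).C_mul _).C_mul _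
  · intro i
    apply hsub
    rw [← coeff_map, hf', coeff_C_mul, coeff_C_mul, coeff_scl, D.f_coeff, Fin.prod_univ_three]
    simp only [hc1, Matrix.cons_val_zero, Matrix.cons_val_one, Matrix.cons_val]
    have h0 : (Finsupp.single (2 : Fin 3) D.e) 0 = 0 := by simp
    have h1 : (Finsupp.single (2 : Fin 3) D.e) 1 = 0 := by simp
    rw [h0, h1, pow_zero, pow_zero, one_pow, one_mul, one_mul, one_mul,
      inv_mul_cancel₀ D.φ_ne, mul_one]
    rfl
  · intro i
    rw [map_aeval_pol, hf']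
    have e1 : (fun k => map O.subtype (![L' 0, L' 1, X i] k)) =
        ![C α * D.L 0, C β * D.L 1, X i] := by
      funext k
      fin_cases k
      · exact hL' 0
      · exact hL' 1
      · exact map_X _ _
    rw [e1, aeval_CC]
    have e2 : aeval ![C α * D.L 0, C β * D.L 1, X i] (scl c1 (D.f i)) =
        aeval ![D.L 0, D.L 1, X i] (D.f i) := by
      have : (aeval ![C α * D.L 0, C β * D.L 1, X i] :
          MvPolynomial (Fin 3) K →ₐ[K] MvPolynomial (Fin (n + 1)) K).comp (scl c1) =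
          aeval ![D.L 0, D.L 1, X i] := by
        ext1 k
        rw [AlgHom.comp_apply, scl, aeval_X, map_mul, aeval_C, aeval_X, aeval_X, algebraMap_eq]
        fin_cases k
        · show C α⁻¹ * (C α * D.L 0) = D.L 0
          rw [← mul_assoc, ← C_mul, inv_mul_cancel₀ hα0, C_1, one_mul]
        · show C β⁻¹ * (C β * D.L 1) = D.L 1
          rw [← mul_assoc, ← C_mul, inv_mul_cancel₀ hβ0, C_1, one_mul]
        · show C 1 * X i = X i
          rw [C_1, one_mul]
      exact DFunLike.congr_fun this (D.f i)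
    rw [e2]
    have := D.f_mem i
    rw [MvPolynomial.map_id] at this
    exact Ideal.mul_mem_left _ _ (Ideal.mul_mem_left _ _ this)

end Pool.Agent.DC
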