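import Pool.Agent.DC.StmtsB

/-!
# UC: uniform continuity of the untilt map
-/

set_option autoImplicit false
set_option linter.unusedSectionVars false

noncomputable section

namespace Pool.Agent.DC

open Pool.Agent.LibDb3ab1

universe u

variable {K : Type u} [Field K] (O : ValuationSubring K) (p : ℕ) [Fact p.Prime]
  [Fact ¬IsUnit (p : O)] [IsAdicComplete (Ideal.span {(p : O)}) O]

theorem uc_proof (b : TB O p) : Stmt_UC O p b := by
  intro C _ ι V hV _ _ x y j hd
  have hϖV : (p : V) = hV.incl b.u * PreTilt.untilt (b.ϖV hV) := by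
    rw [TB.ϖV, untilt_tmap, ← map_mul, ← b.hϖ, map_natCast]
  have h0 : PreTilt.coeff j (x - y) = 0 := (coeff_eq_zero_iff (b.hu.map _) hϖV j _).mpr hd
  rw [map_sub, sub_eq_zero] at h0
  have h1 : (p : V) ∣ PreTilt.untilt (rt p j x) - PreTilt.untilt (rt p j y) :=
    dvd_of_mk_eq (mk_untilt_rt j x) (by rw [mk_untilt_rt, h0])
  have h2 := dvd_pow_sub_pow h1 j
  rwa [untilt_rt_pow, untilt_rt_pow] at h2

end Pool.Agent.DC
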