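import Pool.Agent.DC.Core2
import Pool.Agent.DC.Inst
import Pool.Agent.DC.PRIME
import Pool.Agent.DC.BIR
import Pool.Agent.DC.NN
import Pool.Agent.DC.SCALE
import Pool.Agent.DC.PUX
import Pool.Agent.DC.UC
import Pool.Agent.DC.GPERT
import Pool.Agent.DC.RATIND
import Pool.Agent.DC.APPROX
import Pool.Agent.LibDb3ab1.Assembly

/-!
# The assembly: all curves over an algebraically closed perfectoid field
-/

set_option autoImplicit false
set_option linter.unusedSectionVars false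
set_option linter.style.haveILetI false

noncomputable section

namespace Pool.Agent.DC

open scoped Classical
open Pool.Agent.LibDb3ab1

universe u

section gens

variable {K : Type u} [Field K] (O : ValuationSubring K)

/-- A homogeneous ideal is generated, over the field, by finitely many forms with coefficients in
the valuation ring. -/
theorem exists_forms_O {n : ℕ} (𝔮 : Ideal (MvPolynomial (Fin (n + 1)) K))
    (hom : ∀ F ∈ 𝔮, ∀ m, MvPolynomial.homogeneousComponent m F ∈ 𝔮) :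
    ∃ (J : Type) (_ : Finite J) (P : J → MvPolynomial (Fin (n + 1)) O) (dP : J → ℕ),
      (∀ j, (P j).IsHomogeneous (dP j) ∧ MvPolynomial.map O.subtype (P j) ∈ 𝔮) ∧
      ∀ (L : Type u) [Field L] (ι : K →+* L) (x : Fin (n + 1) → L),
        (∀ j, MvPolynomial.eval₂ ι x (MvPolynomial.map O.subtype (P j)) = 0) →
        ∀ F ∈ 𝔮, MvPolynomial.eval₂ ι x F = 0 := by
  obtain ⟨T, hT⟩ : 𝔮.FG := (isNoetherianRing_iff_ideal_fg _).mp inferInstance 𝔮
  obtain ⟨Bd, hBd⟩ : ∃ Bd : ℕ, ∀ g ∈ T, MvPolynomial.totalDegree g < Bd :=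
    ⟨T.sup MvPolynomial.totalDegree + 1, fun g hg =>
      Nat.lt_succ_of_le (Finset.le_sup (f := MvPolynomial.totalDegree) hg)⟩
  let e : T ≃ Fin T.card := T.equivFin
  let c : Fin T.card × Fin Bd → MvPolynomial (Fin (n + 1)) K :=
    fun j => MvPolynomial.homogeneousComponent j.2.1 ((e.symm j.1).1)
  have hcl : ∀ j, ∃ (b : O) (H' : MvPolynomial (Fin (n + 1)) O), b ∈ nonZeroDivisors O ∧
      MvPolynomial.map (algebraMap O K) H' = MvPolynomial.C (algebraMap O K b) * c j :=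
    fun j => exists_clear (c j)
  choose b P hb hP using hcl
  have hP' : ∀ j, MvPolynomial.map O.subtype (P j) = MvPolynomial.C (algebraMap O K (b j)) * c j :=
    hP
  have hcm : ∀ j, c j ∈ 𝔮 := fun j => by
    apply hom
    rw [← hT]
    exact Ideal.subset_span (e.symm j.1).2
  refine ⟨Fin T.card × Fin Bd, inferInstance, P, fun j => j.2.1, fun j => ⟨?_, ?_⟩, ?_⟩
  · apply MvPolynomial.IsHomogeneous.of_map (f := O.subtype) Subtype.val_injective
    rw [hP']
    exact (MvPolynomial.homogeneousComponent_isHomogeneous _ _).C_mul _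
  · rw [hP']
    exact Ideal.mul_mem_left _ _ (hcm j)
  · intro L _ ι x hx
    have h1 : ∀ j, MvPolynomial.eval₂ ι x (c j) = 0 := by
      intro j
      have h2 := hx j
      rw [hP', MvPolynomial.eval₂_mul, MvPolynomial.eval₂_C] at h2
      refine (mul_eq_zero.mp h2).resolve_left fun h3 => ?_
      exact IsFractionRing.to_map_ne_zero_of_mem_nonZeroDivisors (hb j) ((map_eq_zero ι).mp h3)
    have h2 : ∀ g ∈ T, MvPolynomial.eval₂ ι x g = 0 := by
      intro g hg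
      rw [← MvPolynomial.sum_homogeneousComponent g]
      have h3 : MvPolynomial.eval₂ ι x (∑ i ∈ Finset.range (g.totalDegree + 1),
          MvPolynomial.homogeneousComponent i g) = ∑ i ∈ Finset.range (g.totalDegree + 1),
          MvPolynomial.eval₂ ι x (MvPolynomial.homogeneousComponent i g) :=
        map_sum (MvPolynomial.eval₂Hom ι x) _ _
      rw [h3]
      apply Finset.sum_eq_zero
      intro i hi
      have hi' : i < Bd := lt_of_le_of_lt (Nat.lt_succ_iff.mp (Finset.mem_range.mp hi)) (hBd g hg)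
      have h4 := h1 (e ⟨g, hg⟩, ⟨i, hi'⟩)
      simpa [c] using h4
    have h5 : 𝔮 ≤ RingHom.ker (MvPolynomial.eval₂Hom ι x) := by
      rw [← hT, Ideal.span_le]
      intro g hg
      exact h2 g hg
    intro F hF
    exact h5 hF

end gens

theorem wh_rename {σ τ : Type} {R : Type*} [CommSemiring R] (f : σ → τ) (w : τ → ℕ)
    (hw : ∀ s, w (f s) = 1) {φ : MvPolynomial σ R} {m : ℕ} (hφ : φ.IsHomogeneous m) :
    MvPolynomial.IsWeightedHomogeneous w (MvPolynomial.rename f φ) m := by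
  intro d hd
  obtain ⟨u, hu, hc⟩ := MvPolynomial.coeff_rename_ne_zero f φ d hd
  rw [← hu]
  have h1 := hφ hc
  rw [← h1]
  change Finsupp.linearCombination ℕ w (Finsupp.mapDomain f u) = Finsupp.linearCombination ℕ _ u
  rw [Finsupp.linearCombination_mapDomain]
  congr 2
  funext s
  exact hw s

section pt

variable {K : Type u} [Field K] {O : ValuationSubring K} {p : ℕ} [Fact p.Prime]
  [Fact ¬IsUnit (p : O)] [IsAdicComplete (Ideal.span {(p : O)}) O] {n : ℕ}
  {𝔮 : Ideal (MvPolynomial (Fin (n + 1)) K)} {D : AlgData O O.subtype n 𝔮} {M : ℕ}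

theorem IsPt.map {𝒜 : ApproxData p D M} {A A' : Type u} [CommRing A] [CommRing A']
    {f : PreTilt O p →+* A} {a u T : A} {w : Fin (n + 1) → A} (h : IsPt 𝒜 f a u T w)
    (g : A →+* A') {f' : PreTilt O p →+* A'} (hf : g.comp f = f') :
    IsPt 𝒜 f' (g a) (g u) (g T) (fun i => g (w i)) := by
  subst hf
  refine ⟨?_, ?_, fun i => ?_⟩
  · have h1 := congrArg g h.e₀
    rw [map_zero, MvPolynomial.hom_eval₂] at h1
    rw [← h1]
    congr 1
    funext j
    fin_cases j <;> simp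
  · have h1 := congrArg g h.e₁
    rw [map_zero, MvPolynomial.hom_eval₂] at h1
    rw [← h1]
    congr 1
    funext j
    fin_cases j <;> simp
  · have h1 := congrArg g (h.e₂ i)
    rw [map_zero, MvPolynomial.hom_eval₂] at h1
    rw [← h1]
    congr 1
    funext j
    fin_cases j <;> simp

theorem exists_approxData {b : TB O p} (h : Stmt_Approx O p b) (D : AlgData O O.subtype n 𝔮)
    (M : ℕ) : Nonempty (ApproxData p D M) := by
  have h0 : MvPolynomial.IsWeightedHomogeneous ![D.D, 1, 1] D.F₀ D.D := by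
    refine Submodule.sub_mem (MvPolynomial.weightedHomogeneousSubmodule O ![D.D, 1, 1] D.D)
      (MvPolynomial.isWeightedHomogeneous_X O ![D.D, 1, 1] 0)
      (wh_rename _ _ (fun s => ?_) D.δ_hom)
    fin_cases s <;> rfl
  have h1 : MvPolynomial.IsWeightedHomogeneous ![1, 1, 1] D.F D.m := by
    have h := wh_rename id ![1, 1, 1] (fun s => by fin_cases s <;> rfl) D.F_hom
    rwa [MvPolynomial.rename_id] at h
  have h2 : ∀ i, MvPolynomial.IsWeightedHomogeneous ![1, 1, 1, D.D + 1] (D.Fw i) (D.D + 1) := by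
    intro i
    refine Submodule.sub_mem
      (MvPolynomial.weightedHomogeneousSubmodule O ![1, 1, 1, D.D + 1] (D.D + 1))
      (MvPolynomial.isWeightedHomogeneous_X O ![1, 1, 1, D.D + 1] 3)
      (wh_rename _ _ (fun s => ?_) (D.A_hom i))
    fin_cases s <;> rfl
  obtain ⟨G₀, hG₀⟩ := h (Fin 3) _ _ M _ D.D_pos h0
  obtain ⟨G, hG⟩ := h (Fin 3) _ _ M _ D.m_pos h1
  choose H hH using fun i => h (Fin 4) _ _ M _ (Nat.succ_pos D.D) (h2 i)
  exact ⟨⟨G₀, G, H, hG₀, hG, hH⟩⟩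

end pt

section main

variable {K : Type u} [Field K] {O : ValuationSubring K} {p : ℕ} [Fact p.Prime]
  [Fact ¬IsUnit (p : O)] [IsAdicComplete (Ideal.span {(p : O)}) O]

/-- A small tube around the curve. -/
theorem exists_tube (b : TB O p) {n : ℕ} (I 𝔮 : Ideal (MvPolynomial (Fin (n + 1)) K))
    (hI : I ≤ 𝔮) (U : Set (AdicProj O n)) (hU : IsOpen U) (hIU : adicLocus O I ⊆ U) {J : Type}
    (P : J → MvPolynomial (Fin (n + 1)) O)
    (hP : ∀ (L : Type u) [Field L] (ι : K →+* L) (x : Fin (n + 1) → L),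
        (∀ j, MvPolynomial.eval₂ ι x (MvPolynomial.map O.subtype (P j)) = 0) →
        ∀ F ∈ 𝔮, MvPolynomial.eval₂ ι x F = 0) :
    ∃ m : ℕ, ∀ (C : Type u) [Field C] (ι : K →+* C) (V : ValuationSubring C)
      (hV : ValuedExt O ι V) [Fact ¬IsUnit (p : V)] [IsAdicComplete (Ideal.span {(p : V)}) V]
      (y : Fin (n + 1) → PreTilt V p), y ≠ 0 →
      Good hV P m (fun i => algebraMap (PreTilt V p) (TF V p) (y i)) →
      ∃ a ∈ U, a.1 = pointRel ι V (fun l => ((PreTilt.untilt (y l) : V) : C)) := by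
  have hpu : ¬IsUnit (p : O) := Fact.out
  have hsep : ∀ a : O, a ≠ 0 → ∃ j : ℕ, a ∣ (p : O) ^ j := exists_dvd_pow
  obtain ⟨m, hm⟩ := compact_tube (n := n) b.hp0 hpu hsep (fun _ : Fin (n + 1) => (0 : Fin 1)) P
    (fun l => MvPolynomial.X l) U hU (by
      intro L _ ι V hV z v hv hz hF
      have hx0 : (fun l => (z l : L)) ≠ 0 := by
        intro h0
        have h1 : (z (v 0) : L) = 0 := congrFun h0 (v 0)
        rw [hz 0] at h1
        exact one_ne_zero h1
      have hlift : ∀ j, MvPolynomial.eval₂ ι (fun l => (z l : L))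
          (MvPolynomial.map O.subtype (P j)) = 0 := by
        intro j
        have h2 := congrArg (V.subtype) (hF j)
        rw [map_zero, MvPolynomial.hom_eval₂] at h2
        rw [MvPolynomial.eval₂_map, ← h2]
        rfl
      refine ⟨⟨pointRel ι V (fun l => (z l : L)), L, _, ι, V, _, hV, hx0, rfl⟩, hIU ?_, ?_⟩
      · intro F hF d hd
        refine ⟨d, hd, MvPolynomial.isHomogeneous_zero _ _ _, ?_⟩
        rw [hP L ι _ hlift F (hI hF), map_zero]
        exact zero_le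
      · simp only [MvPolynomial.eval₂_X])
  refine ⟨m, ?_⟩
  intro C _ ι V hV _ _ y hy ⟨c, x, l, hc, hxl, hyx, hPx⟩
  have hinj : Function.Injective (algebraMap (PreTilt V p) (TF V p)) :=
    IsFractionRing.injective _ _
  have hcl : c = algebraMap (PreTilt V p) (TF V p) (y l) := by
    have h1 := hyx l
    rw [hxl, map_one, mul_one] at h1
    exact h1.symm
  have hyl : y l ≠ 0 := by
    intro h0
    apply hc
    rw [hcl, h0, map_zero]
  have hyx' : ∀ i, y i = y l * x i := by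
    intro i
    apply hinj
    rw [map_mul, ← hcl]
    exact hyx i
  have hx0 : (fun i => PreTilt.untilt (x i)) ≠ (0 : Fin (n + 1) → V) := by
    intro h0
    have h1 : PreTilt.untilt (x l) = (0 : V) := congrFun h0 l
    rw [hxl, map_one] at h1
    exact one_ne_zero h1
  obtain ⟨a, haU, ha⟩ := hm C ι V hV (fun i => PreTilt.untilt (x i))
    (fun i => PreTilt.untilt (x i)) (fun _ => l) (fun _ => Subsingleton.elim _ _)
    (fun _ => by rw [hxl, map_one]) hPx
    (fun i => by rw [MvPolynomial.eval₂_X, sub_self]; exact dvd_zero _) hx0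
  refine ⟨a, haU, ?_⟩
  have hul : ((PreTilt.untilt (y l) : V) : C) ≠ 0 := by
    intro h0
    apply hyl
    exact eq_zero_of_untilt (Subtype.ext h0)
  rw [ha, ← pointRel_smul ι V (fun i => ((PreTilt.untilt (x i) : V) : C)) _ hul]
  congr 1
  funext i
  rw [hyx' i, map_mul]
  rfl

theorem good_smul {C : Type u} [Field C] {ι : K →+* C} {V : ValuationSubring C}
    (hV : ValuedExt O ι V) [Fact ¬IsUnit (p : V)] [IsAdicComplete (Ideal.span {(p : V)}) V]
    {n : ℕ} {J : Type} {P : J → MvPolynomial (Fin (n + 1)) O} {m : ℕ} {v : Fin (n + 1) → TF V p}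
    (h : Good hV P m v) {c : TF V p} (hc : c ≠ 0) : Good hV P m (fun i => c * v i) := by
  obtain ⟨c', x, l, hc', hx, hv, hP⟩ := h
  exact ⟨c * c', x, l, mul_ne_zero hc hc', hx, fun i => by
    change c * v i = _
    rw [hv i, mul_assoc], hP⟩


set_option maxHeartbeats 4000000 in
/-- The property asked for in the question, for curves over algebraically closed perfectoid
fields. -/
theorem main_curve [IsAlgClosed K] [CharZero K] (b : TB O p)
    (hTN : Stmt_TN O p b) (hPts : Stmt_Pts O p b) (hNearc : Stmt_Nearc O p b)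
    (hTower : Stmt_Tower O p)
    (hField : ∀ (k : Type u) [Field k] [IsAlgClosed k] [CharP k p], Stmt_Field k p)
    (hCore : ∀ (k : Type u) [NontriviallyNormedField k] [IsUltrametricDist k] [CompleteSpace k]
      [IsAlgClosed k] [CharP k p], Stmt_Resc k ∧ Stmt_Cap k p ∧ Stmt_Sup k ∧ Stmt_CurA k p ∧
        Stmt_CurB k) (hExt : Stmt_HomExt.{u})
    {n : ℕ} (I : Ideal (MvPolynomial (Fin (n + 1)) K))
    (hI : ∀ F ∈ I, ∀ m, MvPolynomial.homogeneousComponent m F ∈ I)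
    (hdim : ringKrullDim (MvPolynomial (Fin (n + 1)) K ⧸ I) = 2) : TiltApprox p O I := by
  intro U hU hIU
  rw [hdim]
  have hpux := pux_proof O p b
  -- the prime ideal and the algebraic data
  obtain ⟨𝔮, hI𝔮, h𝔮p, h𝔮h, h𝔮d⟩ := prime_proof K n I hI hdim
  obtain ⟨D⟩ := scale_proof K O n 𝔮 (bir_proof K (nn_proof K) n 𝔮 h𝔮p h𝔮h h𝔮d)
  obtain ⟨J, _, P, dP, hP1, hP2⟩ := exists_forms_O O 𝔮 h𝔮h
  obtain ⟨m₁, hm₁⟩ := exists_tube b I 𝔮 hI𝔮 U hU hIU P hP2
  -- the constants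
  obtain ⟨ρ', hρ'0, hρ'⟩ := gpert_proof O p b hpux (uc_proof O p b) m₁
  set ρg : ℝ := min ρ' (1 / 2) with hρg
  have hρg0 : 0 < ρg := lt_min hρ'0 (by norm_num)
  have hρg1 : ρg < 1 := (min_le_right _ _).trans_lt (by norm_num)
  obtain ⟨ρ₁, hρ₁0, hPts₁⟩ := hPts n 𝔮 D 2
  have hPUO : PU (p : O) := (hpux.2 K (RingHom.id K) O valuedExt_id).1
  set c₀ : ℝ := vn K (p : O) (D.δ₀ : K) with hc₀
  have hc₀0 : 0 < c₀ := vn_pos hPUO (by
    intro h0
    exact D.δ₀_ne (Subtype.ext h0))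
  set ρ₀ : ℝ := min ρ₁ (c₀ * ρg) / 2 with hρ₀
  have hρ₀0 : 0 < ρ₀ := half_pos (lt_min hρ₁0 (mul_pos hc₀0 hρg0))
  have h2ρ₁ : 2 * ρ₀ ≤ ρ₁ := by
    rw [hρ₀, mul_div_cancel₀ _ two_ne_zero]
    exact min_le_left _ _
  have h2ρg : 2 * ρ₀ / ρg ≤ c₀ := by
    rw [hρ₀, mul_div_cancel₀ _ two_ne_zero, div_le_iff₀ hρg0]
    exact min_le_right _ _
  obtain ⟨s₂, 𝒩, hs₂0, hs₂1, hNearc₁⟩ := hNearc n 𝔮 D ρ₀ hρ₀0
  set s₁ : ℝ := s₂ / 2 with hs₁
  have hs₁0 : 0 < s₁ := half_pos hs₂0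
  have hs₁₂ : s₁ < s₂ := half_lt_self hs₂0
  obtain ⟨M₁, hM₁⟩ := hNearc₁ s₁ hs₁0
  obtain ⟨M₂, hM₂⟩ := hPts₁ J P dP hP1 m₁ s₁ hs₁0
  obtain ⟨𝒜⟩ := exists_approxData (approx_proof O p b) D (max M₁ M₂)
  have hnear₀ := hM₁ (max M₁ M₂) (le_max_left _ _) 𝒜
  have hpts₀ := hM₂ (max M₁ M₂) (le_max_right _ _) 𝒜
  -- the curve over the tilt
  obtain ⟨B, _, _, t, z, hCR, hIsPt⟩ := hTower n 𝔮 D (max M₁ M₂) 𝒜
  -- the normed field
  letI iN : NontriviallyNormedField (TF O p) := nnfPU (F := TF O p) hpux.1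
  haveI : IsUltrametricDist (TF O p) := ultra_nfPU hpux.1
  haveI : CompleteSpace (TF O p) := complete_nfPU hpux.1 hTN.1
  have hp0O : (p : O) ≠ 0 := by
    intro h
    apply b.hp0
    have := congrArg O.subtype h
    rwa [map_natCast, map_zero] at this
  haveI : IsAlgClosed (TF O p) := tilt_isAlgClosed O b.hu hp0O b.hϖ
  haveI : CharP (TF O p) p := charP_TF O
  have hnorm : ∀ x : TF O p, ‖x‖ = nk b x := fun x => rfl
  have hnT₀ : ∀ x : TF O p, nT (valuedExt_id (O := O)) b x = ‖x‖ := fun x => nT_id b x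
  -- the points of the curve with values in the field itself
  have hIsPt₀ : ∀ ψ : B →ₐ[TF O p] TF O p,
      IsPt 𝒜 (algebraMap (PreTilt O p) (TF O p)) (ψ t) (ψ (z 0)) (ψ (z 1))
        (fun i => ψ (z i.succ.succ)) := by
    intro ψ
    apply hIsPt.map (ψ : B →+* TF O p)
    rw [← RingHom.comp_assoc]
    have h1 : (ψ : B →+* TF O p).comp (algebraMap (TF O p) B) = RingHom.id _ := by
      ext x
      exact ψ.commutes x
    rw [h1, RingHom.id_comp]
  -- nearly constant coordinates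
  have hnear : ∀ ψ : B →ₐ[TF O p] TF O p, s₁ ≤ ‖ψ t‖ → ‖ψ t‖ ≤ s₂ → ∀ i : Fin (n + 1),
      ∃ x ∈ 𝒩, ‖ψ (z i.succ.succ) / ψ t - x‖ ≤ ρ₀ := by
    intro ψ h1 h2 i
    exact hnear₀ _ _ _ _ (hIsPt₀ ψ) h1 h2 i
  -- the properties of the points
  have hptsO := fun (ψ : B →ₐ[TF O p] TF O p) => hpts₀ K (RingHom.id K) O valuedExt_id (ψ t)
    (ψ (z 0)) (ψ (z 1)) (fun i => ψ (z i.succ.succ)) (by
      rw [cf_id]
      exact hIsPt₀ ψ)
  have hnc : ∀ (ψ₁ ψ₂ : B →ₐ[TF O p] TF O p) (v₁ v₂ : Fin (n + 1) → TF O p), 1 < ‖ψ₁ t‖ →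
      ‖ψ₁ t‖ < ‖ψ₂ t‖ → ‖ψ₂ t‖ < 2 ^ D.D →
      (∀ r : ℝ, 0 < r → r ^ D.D = ‖ψ₁ t‖ →
        ∀ i, ‖ψ₁ (z i.succ.succ) / ψ₁ t - v₁ i‖ ≤ 2 * ρ₀ * r) →
      (∀ r : ℝ, 0 < r → r ^ D.D = ‖ψ₂ t‖ →
        ∀ i, ‖ψ₂ (z i.succ.succ) / ψ₂ t - v₂ i‖ ≤ 2 * ρ₀ * r) →
      LinearIndependent (TF O p) ![v₁, v₂] := by
    intro ψ₁ ψ₂ v₁ v₂ h1 h2 h3 hv₁ hv₂
    have one : ∀ (ψ : B →ₐ[TF O p] TF O p) (v : Fin (n + 1) → TF O p), 1 < ‖ψ t‖ →
        ‖ψ t‖ < 2 ^ D.D → (∀ r : ℝ, 0 < r → r ^ D.D = ‖ψ t‖ →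
        ∀ i, ‖ψ (z i.succ.succ) / ψ t - v i‖ ≤ 2 * ρ₀ * r) →
        ‖ψ (z 0)‖ ^ D.D = ‖ψ t‖ ∧ Rat (valuedExt_id (O := O)) D.L v ‖ψ (z 0)‖ := by
      intro ψ v hψ hψ' hv
      obtain ⟨g1, -, -, g2⟩ := hptsO ψ (by
        rw [hnT₀]
        exact (hs₁₂.trans hs₂1).le.trans hψ.le)
      rw [hnT₀, hnT₀, max_eq_right hψ.le] at g1
      have g3 : 1 < max 1 ‖ψ (z 0)‖ := by
        by_contra hlt
        push Not at hlt
        have := pow_le_one₀ (n := D.D) (zero_le_one.trans (le_max_left _ _)) hlt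
        rw [g1] at this
        linarith
      have g4 : max 1 ‖ψ (z 0)‖ = ‖ψ (z 0)‖ := by
        rcases max_cases 1 ‖ψ (z 0)‖ with ⟨h, _⟩ | ⟨h, _⟩
        · rw [h] at g3
          exact absurd g3 (lt_irrefl _)
        · exact h
      rw [g4] at g1 g3
      have g5 : ‖ψ (z 0)‖ ≤ 2 := by
        by_contra hlt
        push Not at hlt
        have := pow_lt_pow_left₀ hlt zero_le_two D.D_pos.ne'
        rw [g1] at this
        linarith
      refine ⟨g1, ?_⟩
      have g6 := g2 (by rw [hnT₀]; exact hψ) (by rw [hnT₀]; exact g5) v (by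
        intro i
        rw [hnT₀, hnT₀, g4]
        refine (hv _ (zero_lt_one.trans g3) g1 i).trans ?_
        gcongr)
      rwa [hnT₀] at g6
    obtain ⟨a1, a2⟩ := one ψ₁ v₁ h1 (h2.trans h3) hv₁
    obtain ⟨b1, b2⟩ := one ψ₂ v₂ (h1.trans h2) h3 hv₂
    refine ratind_proof O p b hpux valuedExt_id n D.L D.L_hom v₁ v₂ _ _ a2 b2 ?_
    intro heq
    rw [heq, b1] at a1
    exact h2.ne a1.symm
  obtain ⟨hResc, hCap, hSup, hA, hB⟩ := hCore (TF O p)
  obtain ⟨𝔓, h𝔓1, h𝔓2, h𝔓3, h𝔓4⟩ := core₃ (hField (TF O p)) hResc hCap hSup hA hB hExt hCR D.D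
    D.D_pos hs₁0 hs₁₂ hs₂1 hρ₀0 (R := 2 ^ D.D) (one_lt_pow₀ one_lt_two D.D_pos.ne') 𝒩 hnear hnc
  refine ⟨𝔓, h𝔓1, h𝔓2, h𝔓3, ?_⟩
  intro C _ _ ι V hV _ _ y hy hyP
  apply hm₁ C ι V hV y hy
  -- the normed field of the extension
  have hPUV := (hpux.2 C ι V hV).2
  obtain ⟨hTN1, hTN2, hTN3⟩ := hTN.2 C ι V hV
  letI : NormedField (TF V p) := nfPU (F := TF V p) hPUV
  haveI : IsUltrametricDist (TF V p) := ultra_nfPU hPUV
  haveI : CompleteSpace (TF V p) := complete_nfPU hPUV hTN3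
  have hp0V : (p : V) ≠ 0 := hV.p_ne_zero b.hp0
  have hϖV : (p : V) = hV.incl b.u * PreTilt.untilt (b.ϖV hV) := by
    rw [TB.ϖV, untilt_tmap, ← map_mul, ← b.hϖ, map_natCast]
  haveI : IsAlgClosed (TF V p) := tilt_isAlgClosed V (b.hu.map _) hp0V hϖV
  letI : NormedAlgebra (TF O p) (TF V p) :=
    { (tf hV).toAlgebra with
      norm_smul_le := fun r x => by
        change vn (TF V p) (b.ϖV hV) (tf hV r * x) ≤ nk b r * vn (TF V p) (b.ϖV hV) x
        rw [vn_mul hPUV]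
        have h1 : vn (TF V p) (b.ϖV hV) (tf hV r) = nk b r := hTN2 r
        rw [h1] }
  have hnormV : ∀ x : TF V p, ‖x‖ = nT hV b x := fun x => rfl
  have halg : algebraMap (TF O p) (TF V p) = tf hV := rfl
  refine h𝔓4 (TF V p) {v | Good hV P m₁ v} ρg hρg0 hρg1 ?_ ?_ ?_
    (fun i => algebraMap (PreTilt V p) (TF V p) (y i)) ?_ ?_
  · intro w hw c hc
    exact good_smul hV hw hc
  · intro w hw w' i₀ hi₀ hclose
    refine hρ' n J P dP (fun j => (hP1 j).1) C ι V hV w w' i₀ hi₀ (fun i => ?_) hw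
    refine (hclose i).trans ?_
    rw [hnormV]
    exact mul_le_mul_of_nonneg_right (min_le_left _ _) (vn_nonneg _)
  · intro ψ hψ
    have hpt : IsPt 𝒜 (cf hV) (ψ t) (ψ (z 0)) (ψ (z 1)) (fun i => ψ (z i.succ.succ)) := by
      apply hIsPt.map (ψ : B →+* TF V p)
      rw [← RingHom.comp_assoc]
      have h1 : (ψ : B →+* TF V p).comp (algebraMap (TF O p) B) = tf hV := by
        ext x
        exact ψ.commutes x
      rw [h1]
      ext x
      exact tf_algebraMap hV x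
    obtain ⟨g1, ⟨i₀, g2⟩, g3, -⟩ := hpts₀ C ι V hV _ _ _ _ hpt hψ
    refine ⟨max 1 (nT hV b (ψ (z 0))), le_max_left _ _, g1, ⟨i₀, ?_⟩, g3⟩
    refine le_trans ?_ g2
    exact mul_le_mul_of_nonneg_right h2ρg (zero_le_one.trans (le_max_left _ _))
  · intro h0
    apply hy
    funext l
    have h1 : algebraMap (PreTilt V p) (TF V p) (y l) = 0 := congrFun h0 l
    exact (IsFractionRing.injective (PreTilt V p) (TF V p)) (by rw [h1, Pi.zero_apply, map_zero])
  · intro F hF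
    have hψκ : (tf hV).comp (algebraMap (PreTilt O p) (TF O p)) =
        (algebraMap (PreTilt V p) (TF V p)).comp (tmap hV.incl) := by
      ext x
      exact tf_algebraMap hV x
    exact eval_zero_of_integral 𝔓 (tmap hV.incl) (tf hV) hψκ y hyP F hF

end main

end Pool.Agent.DC
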