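import Mathlib

/-!
# The rank one norm of a valuation ring

`W` is a valuation ring with fraction field `F` and `ϖ ∈ W` is a nonzero nonunit such that each
nonzero element of `W` divides a power of `ϖ`. The function `vn ϖ : F → ℝ` is the (unique)
multiplicative norm with `vn ϖ ϖ = 1 / 2` and `vn ϖ x ≤ 1` on `W`.
-/

set_option autoImplicit false
set_option linter.unusedSectionVars false

noncomputable section

namespace Pool.Agent.DC

universe u

/-- `ϖ` is a pseudo-uniformiser of `W`. -/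
structure PU {W : Type u} [CommRing W] (ϖ : W) : Prop where
  ne_zero : ϖ ≠ 0
  not_unit : ¬IsUnit ϖ
  cof : ∀ x : W, x ≠ 0 → ∃ n : ℕ, x ∣ ϖ ^ n

section

variable {W : Type u} [CommRing W] [IsDomain W] [ValuationRing W] (F : Type u) [Field F]
  [Algebra W F] [IsFractionRing W F]

/-- `x ∈ ϖ ^ a W`. -/
def InP (ϖ : W) (a : ℤ) (x : F) : Prop := ∃ w : W, x = algebraMap W F ϖ ^ a * algebraMap W F w

/-- The rank one norm. -/
def vn (ϖ : W) (x : F) : ℝ :=
  sInf {r : ℝ | ∃ (a : ℤ) (b : ℕ), 0 < b ∧ r = (2 : ℝ) ^ (-(a / b : ℝ)) ∧ InP F ϖ a (x ^ b)}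

end

section

variable {W : Type u} [CommRing W] [IsDomain W] [ValuationRing W] {F : Type u} [Field F]
  [Algebra W F] [IsFractionRing W F] {ϖ : W}

theorem PU.map_ne (h : PU ϖ) : algebraMap W F ϖ ≠ 0 := fun h0 =>
  h.ne_zero (IsFractionRing.injective W F (by rw [h0, map_zero]))

theorem InP.mul (h : PU ϖ) {a a' : ℤ} {x y : F} (hx : InP F ϖ a x) (hy : InP F ϖ a' y) :
    InP F ϖ (a + a') (x * y) := by
  obtain ⟨w, rfl⟩ := hx
  obtain ⟨w', rfl⟩ := hy
  refine ⟨w * w', ?_⟩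
  rw [zpow_add₀ h.map_ne, map_mul]
  ring

theorem InP.pow (h : PU ϖ) {a : ℤ} {x : F} (hx : InP F ϖ a x) (n : ℕ) :
    InP F ϖ (a * n) (x ^ n) := by
  obtain ⟨w, rfl⟩ := hx
  refine ⟨w ^ n, ?_⟩
  rw [mul_pow, map_pow, zpow_mul, zpow_natCast]

theorem InP.or_inv (h : PU ϖ) (a : ℤ) {x : F} (hx : x ≠ 0) :
    InP F ϖ a x ∨ InP F ϖ (-a) x⁻¹ := by
  have h1 := (ValuationRing.iff_isInteger_or_isInteger W F).mp inferInstance
    (x * (algebraMap W F ϖ ^ a)⁻¹)
  have h2 : algebraMap W F ϖ ^ a ≠ 0 := zpow_ne_zero _ h.map_ne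
  rcases h1 with ⟨w, hw⟩ | ⟨w, hw⟩
  · left
    refine ⟨w, ?_⟩
    rw [hw]
    field_simp
  · right
    refine ⟨w, ?_⟩
    rw [hw, zpow_neg]
    field_simp

theorem inP_one_le (h : PU ϖ) {a : ℤ} (ha : InP F ϖ a 1) : a ≤ 0 := by
  by_contra hlt
  push Not at hlt
  obtain ⟨w, hw⟩ := ha
  obtain ⟨n, rfl⟩ := Int.eq_ofNat_of_zero_le hlt.le
  have h1 : ϖ ^ n * w = 1 := by
    apply IsFractionRing.injective W F
    rw [map_mul, map_pow, map_one, hw]
    simp
  have hn : n ≠ 0 := by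
    rintro rfl
    simp at hlt
  apply h.not_unit
  rw [← isUnit_pow_iff hn]
  exact IsUnit.of_mul_eq_one _ h1

theorem exists_inP (h : PU ϖ) {x : F} (hx : x ≠ 0) :
    ∃ n : ℕ, InP F ϖ (-n) x := by
  obtain ⟨a, b, hb, rfl⟩ := IsFractionRing.div_surjective (A := W) x
  have hb0 : b ≠ 0 := nonZeroDivisors.ne_zero hb
  obtain ⟨n, c, hc⟩ := h.cof b hb0
  refine ⟨n, a * c, ?_⟩
  have hb' : algebraMap W F b ≠ 0 := fun h0 =>
    hb0 (IsFractionRing.injective W F (by rw [h0, map_zero]))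
  have h2 : algebraMap W F ϖ ^ n = algebraMap W F b * algebraMap W F c := by
    rw [← map_pow, hc, map_mul]
  rw [zpow_neg, zpow_natCast, h2, map_mul]
  have hc' : algebraMap W F c ≠ 0 := by
    intro h0
    rw [h0, mul_zero] at h2
    exact pow_ne_zero n h.map_ne h2
  field_simp

/-- The set defining the norm. -/
def vset (ϖ : W) (x : F) : Set ℝ :=
  {r : ℝ | ∃ (a : ℤ) (b : ℕ), 0 < b ∧ r = (2 : ℝ) ^ (-(a / b : ℝ)) ∧ InP F ϖ a (x ^ b)}

theorem vn_eq (ϖ : W) (x : F) : vn F ϖ x = sInf (vset ϖ x) := rfl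

theorem vset_pos {x : F} {r : ℝ} (hr : r ∈ vset ϖ x) : 0 < r := by
  obtain ⟨a, b, hb, rfl, h⟩ := hr
  positivity

theorem vset_bdd (x : F) : BddBelow (vset ϖ x) := ⟨0, fun _ hr => (vset_pos hr).le⟩

theorem vset_nonempty (h : PU ϖ) (x : F) : (vset ϖ x).Nonempty := by
  by_cases hx : x = 0
  · exact ⟨_, 0, 1, one_pos, rfl, 0, by simp [hx]⟩
  · obtain ⟨n, hn⟩ := exists_inP h hx
    exact ⟨_, -n, 1, one_pos, rfl, by rwa [pow_one]⟩

theorem vn_nonneg (x : F) : 0 ≤ vn F ϖ x := Real.sInf_nonneg fun _ hr => (vset_pos hr).le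

theorem vset_mul (h : PU ϖ) {x y : F} {r s : ℝ} (hr : r ∈ vset ϖ x) (hs : s ∈ vset ϖ y) :
    r * s ∈ vset ϖ (x * y) := by
  obtain ⟨a, b, hb, rfl, hx⟩ := hr
  obtain ⟨a', b', hb', rfl, hy⟩ := hs
  refine ⟨a * b' + a' * b, b * b', by positivity, ?_, ?_⟩
  · rw [← Real.rpow_add two_pos]
    congr 1
    push_cast
    field_simp
    ring
  · rw [mul_pow]
    apply InP.mul h
    · rw [pow_mul]
      exact hx.pow h b'
    · rw [mul_comm b b', pow_mul]
      exact hy.pow h b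

theorem vn_mul_le (h : PU ϖ) (x y : F) : vn F ϖ (x * y) ≤ vn F ϖ x * vn F ϖ y := by
  apply le_of_forall_pos_lt_add
  intro ε hε
  have hx := vn_nonneg (ϖ := ϖ) x
  have hy := vn_nonneg (ϖ := ϖ) y
  -- choose close elements
  obtain ⟨δ, hδ, hδ2⟩ : ∃ δ : ℝ, 0 < δ ∧ (vn F ϖ x + δ) * (vn F ϖ y + δ) <
      vn F ϖ x * vn F ϖ y + ε := by
    have hc : Filter.Tendsto (fun δ : ℝ => (vn F ϖ x + δ) * (vn F ϖ y + δ))
        (nhdsWithin 0 (Set.Ioi 0)) (nhds ((vn F ϖ x + 0) * (vn F ϖ y + 0))) := by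
      apply Filter.Tendsto.mono_left _ nhdsWithin_le_nhds
      exact ((continuous_const.add continuous_id).mul
        (continuous_const.add continuous_id)).tendsto _
    rw [add_zero, add_zero] at hc
    have h1 := hc.eventually (gt_mem_nhds (show vn F ϖ x * vn F ϖ y <
      vn F ϖ x * vn F ϖ y + ε by linarith))
    obtain ⟨δ, h2, h3⟩ := (h1.and self_mem_nhdsWithin).exists
    exact ⟨δ, h3, h2⟩
  obtain ⟨r, hr, hr2⟩ := exists_lt_of_csInf_lt (vset_nonempty h x)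
    (show sInf (vset ϖ x) < vn F ϖ x + δ by rw [← vn_eq]; linarith)
  obtain ⟨s, hs, hs2⟩ := exists_lt_of_csInf_lt (vset_nonempty h y)
    (show sInf (vset ϖ y) < vn F ϖ y + δ by rw [← vn_eq]; linarith)
  have h1 : vn F ϖ (x * y) ≤ r * s := csInf_le (vset_bdd _) (vset_mul h hr hs)
  have h2 := vset_pos hr
  have h3 := vset_pos hs
  calc vn F ϖ (x * y) ≤ r * s := h1
    _ ≤ (vn F ϖ x + δ) * (vn F ϖ y + δ) := by gcongr
    _ < _ := hδ2

theorem vn_one (h : PU ϖ) : vn F ϖ 1 = 1 := by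
  apply le_antisymm
  · apply csInf_le (vset_bdd _)
    exact ⟨0, 1, one_pos, by simp, 1, by simp⟩
  · apply le_csInf (vset_nonempty h _)
    rintro r ⟨a, b, hb, rfl, hx⟩
    rw [one_pow] at hx
    have ha := inP_one_le h hx
    have : (0 : ℝ) ≤ -(a / b : ℝ) := by
      rw [neg_nonneg]
      apply div_nonpos_of_nonpos_of_nonneg
      · exact_mod_cast ha
      · positivity
    exact Real.one_le_rpow one_le_two this

theorem vn_zero (h : PU ϖ) : vn F ϖ 0 = 0 := by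
  apply le_antisymm _ (vn_nonneg _)
  apply le_of_forall_pos_le_add
  intro ε hε
  obtain ⟨n, hn⟩ := exists_pow_lt_of_lt_one hε (show (1 / 2 : ℝ) < 1 by norm_num)
  have h1 : vn F ϖ 0 ≤ (2 : ℝ) ^ (-((n : ℤ) / (1 : ℕ) : ℝ)) :=
    csInf_le (vset_bdd _) ⟨n, 1, one_pos, rfl, 0, by simp⟩
  refine h1.trans ?_
  have h2 : (2 : ℝ) ^ (-((n : ℤ) / (1 : ℕ) : ℝ)) = (1 / 2) ^ n := by
    simp only [Int.cast_natCast, Nat.cast_one, div_one]
    rw [Real.rpow_neg two_pos.le, Real.rpow_natCast, one_div, inv_pow]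
  rw [h2]
  linarith

theorem vn_mul_inv_le (h : PU ϖ) {x : F} (hx : x ≠ 0) : vn F ϖ x * vn F ϖ x⁻¹ ≤ 1 := by
  -- for each rational `q`, either `2 ^ (-q)` bounds `x` or `2 ^ q` bounds `x⁻¹`
  by_contra hlt
  push Not at hlt
  have h0 : 0 < vn F ϖ x := by
    rcases (vn_nonneg (ϖ := ϖ) x).lt_or_eq with h1 | h1
    · exact h1
    · rw [← h1, zero_mul] at hlt
      exact absurd hlt (by norm_num)
  have h0' : 0 < vn F ϖ x⁻¹ := by
    rcases (vn_nonneg (ϖ := ϖ) x⁻¹).lt_or_eq with h1 | h1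
    · exact h1
    · rw [← h1, mul_zero] at hlt
      exact absurd hlt (by norm_num)
  have h1 : -Real.logb 2 (vn F ϖ x⁻¹) < Real.logb 2 (vn F ϖ x) := by
    have h2 : 0 < Real.logb 2 (vn F ϖ x * vn F ϖ x⁻¹) := Real.logb_pos one_lt_two hlt
    rw [Real.logb_mul h0.ne' h0'.ne'] at h2
    linarith
  obtain ⟨q, hq1, hq2⟩ := exists_rat_btwn h1
  have hden : (0 : ℝ) < q.den := by exact_mod_cast q.den_pos
  have hqe : ((-q.num : ℤ) / q.den : ℝ) = -(q : ℝ) := by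
    rw [Rat.cast_def q]
    push_cast
    ring
  rcases InP.or_inv (F := F) h (-q.num) (pow_ne_zero q.den hx) with hc | hc
  · have h3 : vn F ϖ x ≤ (2 : ℝ) ^ (-(((-q.num : ℤ) : ℝ) / q.den : ℝ)) :=
      csInf_le (vset_bdd _) ⟨-q.num, q.den, q.den_pos, rfl, hc⟩
    have h4 : -(((-q.num : ℤ) : ℝ) / q.den : ℝ) = q := by rw [hqe, neg_neg]
    rw [h4] at h3
    have h5 := Real.logb_le_logb_of_le one_lt_two h0 h3
    rw [Real.logb_rpow two_pos (by norm_num)] at h5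
    linarith
  · rw [neg_neg] at hc
    have hc' : InP F ϖ q.num (x⁻¹ ^ q.den) := by rwa [inv_pow]
    have h3 : vn F ϖ x⁻¹ ≤ (2 : ℝ) ^ (-((q.num : ℝ) / q.den : ℝ)) :=
      csInf_le (vset_bdd _) ⟨q.num, q.den, q.den_pos, rfl, hc'⟩
    have h4 : -((q.num : ℝ) / q.den : ℝ) = -q := by rw [Rat.cast_def q]
    rw [h4] at h3
    have h5 := Real.logb_le_logb_of_le one_lt_two h0' h3
    rw [Real.logb_rpow two_pos (by norm_num)] at h5
    linarith

theorem vn_mul_inv (h : PU ϖ) {x : F} (hx : x ≠ 0) : vn F ϖ x * vn F ϖ x⁻¹ = 1 := by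
  apply le_antisymm (vn_mul_inv_le h hx)
  have h1 := vn_mul_le h x x⁻¹
  rwa [mul_inv_cancel₀ hx, vn_one h] at h1

theorem vn_pos (h : PU ϖ) {x : F} (hx : x ≠ 0) : 0 < vn F ϖ x := by
  rcases (vn_nonneg (ϖ := ϖ) x).lt_or_eq with h1 | h1
  · exact h1
  · have := vn_mul_inv h hx
    rw [← h1, zero_mul] at this
    exact absurd this (by norm_num)

theorem vn_mul (h : PU ϖ) (x y : F) : vn F ϖ (x * y) = vn F ϖ x * vn F ϖ y := by
  by_cases hy : y = 0
  · rw [hy, mul_zero, vn_zero h, mul_zero]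
  · apply le_antisymm (vn_mul_le h x y)
    have h1 := vn_mul_le h (x * y) y⁻¹
    rw [mul_inv_cancel_right₀ hy] at h1
    have h2 := vn_mul_inv h hy
    have h3 := vn_pos h hy
    calc vn F ϖ x * vn F ϖ y ≤ vn F ϖ (x * y) * vn F ϖ y⁻¹ * vn F ϖ y := by gcongr
      _ = vn F ϖ (x * y) := by rw [mul_assoc, mul_comm (vn F ϖ y⁻¹), h2, mul_one]

theorem vn_le_one (w : W) : vn F ϖ (algebraMap W F w) ≤ 1 :=
  csInf_le (vset_bdd _) ⟨0, 1, one_pos, by simp, w, by simp⟩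

theorem exists_of_vn_lt (h : PU ϖ) {x : F} (hx : vn F ϖ x < 1) : ∃ w : W, algebraMap W F w = x := by
  obtain ⟨r, ⟨a, b, hb, rfl, w, hw⟩, hr⟩ := exists_lt_of_csInf_lt (vset_nonempty h x) hx
  have ha : 0 ≤ a := by
    by_contra hlt
    push Not at hlt
    have h1 : (0 : ℝ) ≤ -(a / b : ℝ) := by
      rw [neg_nonneg]
      apply div_nonpos_of_nonpos_of_nonneg
      · exact_mod_cast hlt.le
      · positivity
    have := Real.one_le_rpow one_le_two h1
    linarith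
  obtain ⟨n, rfl⟩ := Int.eq_ofNat_of_zero_le ha
  have h1 : algebraMap W F (ϖ ^ n * w) = x ^ b := by
    rw [hw, map_mul, map_pow]
    simp
  rcases (ValuationRing.iff_isInteger_or_isInteger W F).mp inferInstance x with ⟨v, hv⟩ | ⟨v, hv⟩
  · exact ⟨v, hv⟩
  · -- `x⁻¹ ∈ W`, `x ^ b ∈ W`, hence `x ∈ W`
    have hx0 : x ≠ 0 ∨ x = 0 := (em (x = 0)).symm
    rcases hx0 with hx0 | hx0
    · refine ⟨ϖ ^ n * w * v ^ (b - 1), ?_⟩
      rw [map_mul, h1, map_pow, hv, inv_pow]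
      have h2 : x ^ b = x ^ (b - 1) * x := by
        rw [← pow_succ]
        congr 1
        omega
      rw [h2, mul_comm (x ^ (b - 1)) x, mul_assoc, mul_inv_cancel₀ (pow_ne_zero _ hx0), mul_one]
    · exact ⟨0, by rw [map_zero, hx0]⟩

theorem vn_add_le (h : PU ϖ) (x y : F) : vn F ϖ (x + y) ≤ max (vn F ϖ x) (vn F ϖ y) := by
  by_cases hy : y = 0
  · rw [hy, add_zero]; exact le_max_left _ _
  by_cases hx : x = 0
  · rw [hx, zero_add]; exact le_max_right _ _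
  have key : ∀ a b : F, b ≠ 0 → (∃ w : W, algebraMap W F w = a / b) →
      vn F ϖ (a + b) ≤ vn F ϖ b := by
    rintro a b hb ⟨w, hw⟩
    have h1 : a + b = algebraMap W F (w + 1) * b := by
      rw [map_add, map_one, hw]
      field_simp
    rw [h1, vn_mul h]
    calc vn F ϖ (algebraMap W F (w + 1)) * vn F ϖ b ≤ 1 * vn F ϖ b := by
          gcongr
          · exact vn_nonneg _
          · exact vn_le_one _
      _ = vn F ϖ b := one_mul _
  rcases (ValuationRing.iff_isInteger_or_isInteger W F).mp inferInstance (x / y) with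
    ⟨v, hv⟩ | ⟨v, hv⟩
  · exact (key x y hy ⟨v, hv⟩).trans (le_max_right _ _)
  · rw [inv_div] at hv
    rw [add_comm]
    exact (key y x hx ⟨v, hv⟩).trans (le_max_left _ _)

theorem vn_self (h : PU ϖ) : vn F ϖ (algebraMap W F ϖ) = 1 / 2 := by
  apply le_antisymm
  · apply csInf_le (vset_bdd _)
    refine ⟨1, 1, one_pos, ?_, 1, by simp⟩
    rw [Int.cast_one, Nat.cast_one, div_one, Real.rpow_neg two_pos.le, Real.rpow_one, one_div]
  · have h1 : vn F ϖ (algebraMap W F ϖ)⁻¹ ≤ 2 := by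
      apply csInf_le (vset_bdd _)
      refine ⟨-1, 1, one_pos, ?_, 1, by simp⟩
      rw [Int.cast_neg, Int.cast_one, Nat.cast_one, div_one, neg_neg, Real.rpow_one]
    have h2 := vn_mul_inv (F := F) h h.map_ne
    have h3 := vn_nonneg (ϖ := ϖ) (algebraMap W F ϖ)
    nlinarith

/-- Powers. -/
theorem vn_pow (h : PU ϖ) (x : F) (n : ℕ) : vn F ϖ (x ^ n) = vn F ϖ x ^ n := by
  induction n with
  | zero => rw [pow_zero, pow_zero, vn_one h]
  | succ n ih => rw [pow_succ, vn_mul h, ih, pow_succ]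

/-- The absolute value. -/
def vabs (h : PU ϖ) : AbsoluteValue F ℝ where
  toFun := vn F ϖ
  map_mul' := vn_mul h
  nonneg' := vn_nonneg
  eq_zero' x := by
    constructor
    · intro h0
      by_contra hx
      exact (vn_pos h hx).ne' h0
    · rintro rfl
      exact vn_zero h
  add_le' x y := (vn_add_le h x y).trans
    (max_le_add_of_nonneg (vn_nonneg _) (vn_nonneg _))

theorem vabs_apply (h : PU ϖ) (x : F) : vabs h x = vn F ϖ x := rfl

end

end Pool.Agent.DC
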