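import Pool.Agent.DC.RankOne
import Pool.Agent.DC.StmtsE
import Pool.Agent.LibDb3ab1.TiltClosed
import Pool.Agent.LibDb3ab1.Defs

/-!
# Definitions and statements of the modules of part B (the tilting side)
-/

set_option autoImplicit false
set_option linter.unusedSectionVars false

noncomputable section

namespace Pool.Agent.DC

open scoped Classical
open Pool.Agent.LibDb3ab1

universe u

section defs

variable {K : Type u} [Field K] (O : ValuationSubring K) (p : ℕ) [Fact p.Prime]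
  [Fact ¬IsUnit (p : O)] [IsAdicComplete (Ideal.span {(p : O)}) O]

/-- The standing data: `O` has rank one, `p ≠ 0`, Frobenius is surjective modulo `p`, and `ϖ` is an
element of the tilt with `ϖ ^ ♯ = p` up to a unit. -/
structure TB where
  /-- pseudo-uniformiser of the tilt -/
  ϖ : PreTilt O p
  /-- a unit -/
  u : O
  hu : IsUnit u
  hϖ : (p : O) = u * PreTilt.untilt ϖ
  hp0 : (p : K) ≠ 0
  hr : ∀ x : O, ¬IsUnit x → ∃ n : ℕ, (p : O) ∣ x ^ n
  hF : Function.Surjective (frobenius (ModP O p) p)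

variable {O p}

/-- The fraction field of the tilt of `V`. -/
abbrev TF {C : Type u} [Field C] (V : ValuationSubring C) (p : ℕ) [Fact p.Prime]
    [Fact ¬IsUnit (p : V)] : Type u := FractionRing (PreTilt V p)

/-- The norm on the fraction field `k` of the tilt of `O`. -/
def nk (b : TB O p) : TF O p → ℝ := vn (TF O p) b.ϖ

variable {C : Type u} [Field C] {ι : K →+* C} {V : ValuationSubring C} (hV : ValuedExt O ι V)
  [Fact ¬IsUnit (p : V)] [IsAdicComplete (Ideal.span {(p : V)}) V]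

/-- The pseudo-uniformiser in the tilt of `V`. -/
def TB.ϖV (b : TB O p) : PreTilt V p := tmap hV.incl b.ϖ

/-- The norm on the fraction field of the tilt of `V`. -/
def nT (b : TB O p) : TF V p → ℝ := vn (TF V p) (b.ϖV hV)

variable (p) in
/-- The norm on `C`. -/
def nC (_hV : ValuedExt O ι V) : C → ℝ := vn C (p : V)

/-- The map from the tilt of `O` to the fraction field of the tilt of `V`. -/
def cf : PreTilt O p →+* TF V p := (algebraMap (PreTilt V p) (TF V p)).comp (tmap hV.incl)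

theorem incl_injective : Function.Injective hV.incl := by
  intro x y h
  have h1 : ι x = ι y := by rw [← hV.coe_incl, ← hV.coe_incl, h]
  exact Subtype.ext (ι.injective h1)

theorem tmap_injective : Function.Injective (tmap (p := p) hV.incl) := by
  rw [injective_iff_map_eq_zero]
  intro x hx
  have h1 := untilt_tmap hV.incl x
  rw [hx, untilt_zero] at h1
  apply eq_zero_of_untilt
  apply incl_injective hV
  rw [← h1, map_zero]

theorem cf_injective : Function.Injective (cf (p := p) hV) :=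
  (IsFractionRing.injective (PreTilt V p) (TF V p)).comp (tmap_injective hV)

/-- The map between the fraction fields of the tilts. -/
def tf : TF O p →+* TF V p := IsFractionRing.lift (cf_injective (p := p) hV)

theorem tf_algebraMap (x : PreTilt O p) :
    tf hV (algebraMap (PreTilt O p) (TF O p) x) = cf hV x := by
  rw [tf, IsFractionRing.lift_algebraMap]

/-- The point `v` satisfies the equations `P j` modulo `p ^ m`, after normalisation. -/
def Good {n : ℕ} {J : Type} (P : J → MvPolynomial (Fin (n + 1)) O) (m : ℕ)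
    (v : Fin (n + 1) → TF V p) : Prop :=
  ∃ (c : TF V p) (x : Fin (n + 1) → PreTilt V p) (l : Fin (n + 1)), c ≠ 0 ∧ x l = 1 ∧
    (∀ i, v i = c * algebraMap (PreTilt V p) (TF V p) (x i)) ∧
    ∀ j, (p : V) ^ m ∣ MvPolynomial.eval₂ hV.incl (fun i => PreTilt.untilt (x i)) (P j)

/-- The ratio of the norms of the values of the linear forms `L 1` and `L 0` at (the untilt of) the
point `v` is `r`. -/
def Rat {n : ℕ} (L : Fin 2 → MvPolynomial (Fin (n + 1)) O) (v : Fin (n + 1) → TF V p)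
    (r : ℝ) : Prop :=
  ∃ (c : TF V p) (x : Fin (n + 1) → PreTilt V p), c ≠ 0 ∧
    (∀ i, v i = c * algebraMap (PreTilt V p) (TF V p) (x i)) ∧
    nC p hV (MvPolynomial.eval₂ hV.incl (fun i => PreTilt.untilt (x i)) (L 1) : V) ≠ 0 ∧
    nC p hV (MvPolynomial.eval₂ hV.incl (fun i => PreTilt.untilt (x i)) (L 0) : V) * r =
      nC p hV (MvPolynomial.eval₂ hV.incl (fun i => PreTilt.untilt (x i)) (L 1) : V)

end defs

section approx

variable {K : Type u} [Field K] {O : ValuationSubring K} {p : ℕ} [Fact p.Prime]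
  [Fact ¬IsUnit (p : O)] [IsAdicComplete (Ideal.span {(p : O)}) O]

/-- `G` is an approximation of precision `M` over the tilt of the weighted homogeneous polynomial
`F` of degree `e`. -/
structure ApproxOf {σ : Type} (w : σ → ℕ) (e M : ℕ) (F : MvPolynomial σ O)
    (G : MvPolynomial σ (PreTilt O p)) : Prop where
  hom : ∃ J : ℕ, MvPolynomial.IsWeightedHomogeneous w G (e * p ^ J) ∧
    ∀ (τ : σ) (a : ℕ), IsUnit (F.coeff (Finsupp.single τ a)) →
      IsUnit (G.coeff (Finsupp.single τ (a * p ^ J)))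
  dvd : ∀ (C : Type u) [Field C] (ι : K →+* C) (V : ValuationSubring C) (hV : ValuedExt O ι V)
    [Fact ¬IsUnit (p : V)] [IsAdicComplete (Ideal.span {(p : V)}) V] (y : σ → PreTilt V p),
    MvPolynomial.eval₂ (tmap hV.incl) y G = 0 →
    (p : V) ^ M ∣ MvPolynomial.eval₂ hV.incl (fun i => PreTilt.untilt (y i)) F

variable {n : ℕ} {𝔮 : Ideal (MvPolynomial (Fin (n + 1)) K)}

/-- The equation `T₁ = δ(X₀, X₁)`, in the variables `T₁, X₀, X₁`. -/
def AlgData.F₀ (D : AlgData O O.subtype n 𝔮) : MvPolynomial (Fin 3) O :=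
  MvPolynomial.X 0 - MvPolynomial.rename Fin.succ D.δ

/-- The equation `w = A_i(X₀, X₁, T)`, in the variables `X₀, X₁, T, w`. -/
def AlgData.Fw (D : AlgData O O.subtype n 𝔮) (i : Fin (n + 1)) : MvPolynomial (Fin 4) O :=
  MvPolynomial.X 3 - MvPolynomial.rename Fin.castSucc (D.A i)

/-- Approximations over the tilt, of precision `M`, of the equations of the curve. -/
structure ApproxData (p : ℕ) [Fact p.Prime] [Fact ¬IsUnit (p : O)]
    [IsAdicComplete (Ideal.span {(p : O)}) O] (D : AlgData O O.subtype n 𝔮) (M : ℕ) where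
  /-- approximation of `T₁ = δ(X₀, X₁)` -/
  G₀ : MvPolynomial (Fin 3) (PreTilt O p)
  /-- approximation of `F(X₀, X₁, T) = 0` -/
  G : MvPolynomial (Fin 3) (PreTilt O p)
  /-- approximation of `w = A_i(X₀, X₁, T)` -/
  H : Fin (n + 1) → MvPolynomial (Fin 4) (PreTilt O p)
  h₀ : ApproxOf ![D.D, 1, 1] D.D M D.F₀ G₀
  h : ApproxOf ![1, 1, 1] D.m M D.F G
  hH : ∀ i, ApproxOf ![1, 1, 1, D.D + 1] (D.D + 1) M (D.Fw i) (H i)

/-- `(a, u, T, w)` is a solution of the approximate equations, with `X₀ = 1`, `X₁ = u`,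
`T₁ = a`. -/
structure IsPt {D : AlgData O O.subtype n 𝔮} {M : ℕ} (𝒜 : ApproxData p D M) {A : Type u}
    [CommRing A] (f : PreTilt O p →+* A) (a u T : A) (w : Fin (n + 1) → A) : Prop where
  e₀ : MvPolynomial.eval₂ f ![a, 1, u] 𝒜.G₀ = 0
  e₁ : MvPolynomial.eval₂ f ![1, u, T] 𝒜.G = 0
  e₂ : ∀ i, MvPolynomial.eval₂ f ![1, u, T, w i] (𝒜.H i) = 0

end approx

section stmts

variable {K : Type u} [Field K] (O : ValuationSubring K) (p : ℕ) [Fact p.Prime]
  [Fact ¬IsUnit (p : O)] [IsAdicComplete (Ideal.span {(p : O)}) O] (b : TB O p)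

/-- PUX: the elements used to define the norms are pseudo-uniformisers. -/
def Stmt_PUX (_b : TB O p) : Prop :=
  PU _b.ϖ ∧ ∀ (C : Type u) [Field C] (ι : K →+* C) (V : ValuationSubring C)
    (hV : ValuedExt O ι V) [Fact ¬IsUnit (p : V)] [IsAdicComplete (Ideal.span {(p : V)}) V],
    PU (p : V) ∧ PU (_b.ϖV hV)

/-- TN: comparison of the norms, and completeness. -/
def Stmt_TN (_b : TB O p) : Prop :=
  (∀ x : ℕ → TF O p, (∀ ε : ℝ, 0 < ε → ∃ N, ∀ i ≥ N, ∀ j ≥ N, nk _b (x i - x j) < ε) →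
    ∃ y, ∀ ε : ℝ, 0 < ε → ∃ N, ∀ i ≥ N, nk _b (x i - y) < ε) ∧
  ∀ (C : Type u) [Field C] (ι : K →+* C) (V : ValuationSubring C)
    (hV : ValuedExt O ι V) [Fact ¬IsUnit (p : V)] [IsAdicComplete (Ideal.span {(p : V)}) V],
    (∀ x : PreTilt V p, nT hV _b (algebraMap _ (TF V p) x) = nC p hV (PreTilt.untilt x : V)) ∧
    (∀ x : TF O p, nT hV _b (tf hV x) = nk _b x) ∧
    (∀ x : ℕ → TF V p, (∀ ε : ℝ, 0 < ε → ∃ N, ∀ i ≥ N, ∀ j ≥ N, nT hV _b (x i - x j) < ε) →
      ∃ y, ∀ ε : ℝ, 0 < ε → ∃ N, ∀ i ≥ N, nT hV _b (x i - y) < ε)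

/-- UC: uniform continuity of `x ↦ x ^ ♯`. -/
def Stmt_UC (_b : TB O p) : Prop :=
  ∀ (C : Type u) [Field C] (ι : K →+* C) (V : ValuationSubring C)
    (hV : ValuedExt O ι V) [Fact ¬IsUnit (p : V)] [IsAdicComplete (Ideal.span {(p : V)}) V]
    (x y : PreTilt V p) (j : ℕ), (_b.ϖV hV) ^ p ^ j ∣ x - y →
    (p : V) ^ (j + 1) ∣ PreTilt.untilt x - PreTilt.untilt y

/-- COVER: the preimage of a small disc under `x ↦ x ^ ♯` is covered by finitely many small discs
(`K` algebraically closed). -/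
def Stmt_Cover (_b : TB O p) : Prop :=
  ∀ (c : O) (N : ℕ), ∃ (m : ℕ) (s : Finset (PreTilt O p)), ∀ y : PreTilt O p,
    (p : O) ^ m ∣ PreTilt.untilt y - c → ∃ z ∈ s, _b.ϖ ^ N ∣ y - z

/-- APPROX: existence of approximations (from `approx_witt`, `dvd_of_witt` of LibDb3ab1). -/
def Stmt_Approx (_b : TB O p) : Prop :=
  ∀ (σ : Type) [Finite σ] (w : σ → ℕ) (e M : ℕ) (F : MvPolynomial σ O), 0 < e →
    MvPolynomial.IsWeightedHomogeneous w F e →
    ∃ G : MvPolynomial σ (PreTilt O p), ApproxOf w e M F G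

/-- GPERT: goodness is stable under small perturbations (uses UC, PUX, TN). -/
def Stmt_GPert (_b : TB O p) : Prop :=
  ∀ (m : ℕ), ∃ ρ : ℝ, 0 < ρ ∧ ∀ (n : ℕ) (J : Type) (P : J → MvPolynomial (Fin (n + 1)) O)
    (dP : J → ℕ), (∀ j, (P j).IsHomogeneous (dP j)) → ∀ (C : Type u) [Field C] (ι : K →+* C) (V : ValuationSubring C)
    (hV : ValuedExt O ι V) [Fact ¬IsUnit (p : V)] [IsAdicComplete (Ideal.span {(p : V)}) V]
    (v v' : Fin (n + 1) → TF V p) (i₀ : Fin (n + 1)), v' i₀ ≠ 0 →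
    (∀ i, nT hV _b (v i - v' i) ≤ ρ * nT hV _b (v' i₀)) → Good hV P m v → Good hV P m v'

/-- PTS: the properties of the solutions of the approximate equations (uses PUX, TN, UC). -/
def Stmt_Pts (_b : TB O p) : Prop :=
  ∀ (n : ℕ) (𝔮 : Ideal (MvPolynomial (Fin (n + 1)) K)) (D : AlgData O O.subtype n 𝔮) (R : ℝ),
    ∃ ρ₁ : ℝ, 0 < ρ₁ ∧ ∀ (J : Type) [Finite J] (P : J → MvPolynomial (Fin (n + 1)) O)
      (dP : J → ℕ), (∀ j, (P j).IsHomogeneous (dP j) ∧ MvPolynomial.map O.subtype (P j) ∈ 𝔮) →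
      ∀ (m : ℕ) (s₁ : ℝ), 0 < s₁ → ∃ M₀ : ℕ, ∀ M ≥ M₀, ∀ (𝒜 : ApproxData p D M)
        (C : Type u) [Field C] (ι : K →+* C) (V : ValuationSubring C)
        (hV : ValuedExt O ι V) [Fact ¬IsUnit (p : V)] [IsAdicComplete (Ideal.span {(p : V)}) V]
        (a u T : TF V p) (w : Fin (n + 1) → TF V p), IsPt 𝒜 (cf hV) a u T w →
        s₁ ≤ nT hV _b a →
        max 1 (nT hV _b u) ^ D.D = max 1 (nT hV _b a) ∧
        (∃ i, vn K (p : O) (D.δ₀ : K) * max 1 (nT hV _b u) ≤ nT hV _b (w i / a)) ∧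
        Good hV P m (fun i => w i / a) ∧
        (1 < nT hV _b a → nT hV _b u ≤ R → ∀ v' : Fin (n + 1) → TF V p,
          (∀ i, nT hV _b (w i / a - v' i) ≤ ρ₁ * max 1 (nT hV _b u)) →
          Rat hV D.L v' (nT hV _b u))

/-- NEARC: for `|a|` small and bounded below, the solutions have nearly constant coordinates
(`K` algebraically closed; uses PUX, TN, COVER). -/
def Stmt_Nearc (_b : TB O p) : Prop :=
  ∀ (n : ℕ) (𝔮 : Ideal (MvPolynomial (Fin (n + 1)) K)) (D : AlgData O O.subtype n 𝔮) (ρ₀ : ℝ),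
    0 < ρ₀ → ∃ (s₂ : ℝ) (𝒩 : Finset (TF O p)), 0 < s₂ ∧ s₂ < 1 ∧ ∀ s₁ : ℝ, 0 < s₁ →
      ∃ M₀ : ℕ, ∀ M ≥ M₀, ∀ (𝒜 : ApproxData p D M) (a u T : TF O p) (w : Fin (n + 1) → TF O p),
        IsPt 𝒜 (algebraMap (PreTilt O p) (TF O p)) a u T w → s₁ ≤ nk _b a → nk _b a ≤ s₂ →
        ∀ i, ∃ z ∈ 𝒩, nk _b (w i / a - z) ≤ ρ₀

/-- RATIND: points with different ratios are linearly independent (uses PUX, TN). -/
def Stmt_RatInd (_b : TB O p) : Prop :=
  ∀ (hO : ValuedExt O (RingHom.id K) O) (n : ℕ) (L : Fin 2 → MvPolynomial (Fin (n + 1)) O),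
    (∀ j, (L j).IsHomogeneous 1) → ∀ (v₁ v₂ : Fin (n + 1) → TF O p) (r₁ r₂ : ℝ),
    Rat hO L v₁ r₁ → Rat hO L v₂ r₂ → r₁ ≠ r₂ → LinearIndependent (TF O p) ![v₁, v₂]

/-- TOWER: the curve defined by the approximate equations. -/
def Stmt_Tower : Prop :=
  ∀ (n : ℕ) (𝔮 : Ideal (MvPolynomial (Fin (n + 1)) K)) (D : AlgData O O.subtype n 𝔮) (M : ℕ)
    (𝒜 : ApproxData p D M), ∃ (B : Type u) (_ : CommRing B) (_ : Algebra (TF O p) B) (t : B)
      (z : Fin (n + 2 + 1) → B), CurveRing (TF O p) B t z ∧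
      IsPt 𝒜 ((algebraMap (TF O p) B).comp (algebraMap (PreTilt O p) (TF O p))) t (z 0) (z 1)
        (fun i => z i.succ.succ)

end stmts

section plain

/-- FIELD: a plane separable model of a curve, up to `p`-power roots. -/
def Stmt_Field (k : Type u) [Field k] [IsAlgClosed k] (p : ℕ) [Fact p.Prime] [CharP k p] : Prop :=
  ∀ (n : ℕ) (B : Type u) [CommRing B] [Algebra k B] (t : B) (v : Fin (n + 1) → B),
    CurveRing k B t v →
    ∃ (κ : ℕ) (P : Polynomial (Polynomial k)) (N : Fin (n + 1) → Polynomial (Polynomial k))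
      (q : Polynomial k) (U W : Polynomial (Polynomial k)) (D₀ : Polynomial k),
      P.Monic ∧ 0 < P.natDegree ∧ U * P + W * Polynomial.derivative P = Polynomial.C D₀ ∧
      D₀ ≠ 0 ∧ q ≠ 0 ∧
      ∀ (Ω : Type u) [Field Ω] [IsAlgClosed Ω] [Algebra k Ω] (a θ : Ω), ev2 a θ P = 0 →
        ∃ ψ : B →ₐ[k] Ω, ψ t = a ∧
          ∀ i, Polynomial.aeval a q * ψ (v i) ^ p ^ κ = ev2 a θ (N i)

/-- RESC: rescaling of `t` and `X`. -/
def Stmt_Resc (k : Type u) [NontriviallyNormedField k] [IsUltrametricDist k] [CompleteSpace k]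
    [IsAlgClosed k] : Prop :=
  ∀ (n : ℕ) (P : Polynomial (Polynomial k)) (N : Fin (n + 1) → Polynomial (Polynomial k))
    (q : Polynomial k) (U W : Polynomial (Polynomial k)) (D₀ : Polynomial k) (s₁ s₂ : ℝ),
    P.Monic → 0 < P.natDegree → U * P + W * Polynomial.derivative P = Polynomial.C D₀ →
    D₀ ≠ 0 → q ≠ 0 → 0 < s₁ → s₁ < s₂ →
    ∃ (ts : k) (c : Cov k) (N' : Fin (n + 1) → Polynomial (Polynomial k)) (q' : Polynomial k),
      s₁ < ‖ts‖ ∧ ‖ts‖ < s₂ ∧ (∀ a : Tc k, q'.eval a.1 ≠ 0) ∧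
      ∀ (Ω : Type u) [NormedField Ω] [NormedAlgebra k Ω] (a θ : Ω), ev2 a θ c.P = 0 →
        ∃ θ' : Ω, ev2 (algebraMap k Ω ts * a) θ' P = 0 ∧
          Polynomial.aeval a q' = Polynomial.aeval (algebraMap k Ω ts * a) q ∧
          ∀ i, ev2 a θ (N' i) = ev2 (algebraMap k Ω ts * a) θ' (N i)

end plain

end Pool.Agent.DC
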