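import Pool.Agent.DC.Cover

/-!
# Statements of the modules of part C (capping a cover of the circle), characteristic `p`
-/

set_option autoImplicit false
set_option linter.unusedSectionVars false

noncomputable section

namespace Pool.Agent.DC

open Polynomial
open scoped Classical

universe u

variable (k : Type u) [NontriviallyNormedField k] [IsUltrametricDist k] [CompleteSpace k]
  [IsAlgClosed k]

/-- LAG: bound for the coefficients of a polynomial by its values at separated nodes. -/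
def Stmt_Lag : Prop :=
  ∀ (s : Finset k) (d M : ℝ) (g : k[X]), 0 < d → 0 ≤ M → g.degree < s.card →
    (∀ x ∈ s, ‖x‖ ≤ 1) → (∀ x ∈ s, d ≤ ‖∏ y ∈ s.erase x, (x - y)‖) →
    (∀ x ∈ s, ‖g.eval x‖ ≤ M) → ∀ j, ‖g.coeff j‖ ≤ M / d

/-- MANY: many points of norm one with mutual distances one. -/
def Stmt_Many (p : ℕ) [Fact p.Prime] [CharP k p] : Prop :=
  ∀ N : ℕ, ∃ s : Finset k, s.card = N ∧ (∀ x ∈ s, ‖x‖ = 1) ∧
    ∀ x ∈ s, ∀ y ∈ s, x ≠ y → ‖x - y‖ = 1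

/-- SUP: the Gauss norm is at most the supremum over the unit circle (uses LAG, MANY). -/
def Stmt_Sup : Prop :=
  ∀ (g : k[X]) (M : ℝ), 0 ≤ M → (∀ a : Tc k, ‖g.eval a.1‖ ≤ M) → gn g ≤ M

/-- UNIT: polynomials without zeros on the circle are invertible in `RR k` and have constant norm. -/
def Stmt_Unit : Prop :=
  ∀ h : k[X], (∀ a : Tc k, h.eval a.1 ≠ 0) →
    (IsR fun a : Tc k => (h.eval a.1)⁻¹) ∧ ∃ c : ℝ, 0 < c ∧ ∀ a : Tc k, ‖h.eval a.1‖ = c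

/-- DOM: `RR k` is an integral domain (uses SUP and `gn_mul`). -/
def Stmt_Dom : Prop := ∀ f g : RR k, f * g = 0 → f = 0 ∨ g = 0

/-- DEC: Laurent decomposition (uses SUP). -/
def Stmt_Dec : Prop :=
  ∀ (f : RR k) (M : ℝ), 0 ≤ M → (∀ a, ‖evR a f‖ ≤ M) →
    ∃ r₁ r₂ : RP k, ‖r₁‖ ≤ M ∧ ‖r₂‖ ≤ M ∧
      ∀ a : Tc k, evR a f = evP a.1 r₁ + (a.1)⁻¹ * evP (a.1)⁻¹ r₂

/-- INT: a function on the circle which extends to the inside and, with a pole of order at most `N`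
at infinity, to the outside, is a polynomial (uses SUP). -/
def Stmt_Int : Prop :=
  ∀ (f g : RP k) (N : ℕ), (∀ a : Tc k, evP a.1 f = a.1 ^ N * evP (a.1)⁻¹ g) →
    ∃ h : k[X], ∀ (Ω : Type u) [NormedField Ω] [NormedAlgebra k Ω] [IsUltrametricDist Ω]
      [CompleteSpace Ω] (a : Ω), (‖a‖ ≤ 1 → evP a f = aeval a h) ∧
        (1 ≤ ‖a‖ → a ^ N * evP a⁻¹ g = aeval a h)

/-- SEPC: the points of the fibres over the circle are uniformly separated (uses UNIT). -/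
def Stmt_SepC : Prop := ∀ c : Cov k, ∃ d : ℝ, Sep c d

/-- COEF: coefficients are bounded by values on the cover (uses LAG). -/
def Stmt_Coef : Prop :=
  ∀ (c : Cov k) (d : ℝ), Sep c d → ∀ (u : (RR k)[X]) (M : ℝ), 0 ≤ M →
    u.natDegree < c.P.natDegree →
    (∀ a : Tc k, ∀ θ ∈ fib c.P a, ‖(u.map (evR a)).eval θ‖ ≤ M) →
    ∀ (a : Tc k) (j : ℕ), ‖evR a (u.coeff j)‖ ≤ M / d

/-- LIMCL: the functions on the cover given by `(RR k)[X]` are closed under uniform limits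
(uses COEF). -/
def Stmt_LimCl : Prop :=
  ∀ (c : Cov k) (d : ℝ), Sep c d → ∀ f : Tc k → k → k,
    (∀ ε : ℝ, 0 < ε → ∃ g : Tc k → k → k, IsA c g ∧ ∀ a : Tc k, ∀ θ ∈ fib c.P a,
      ‖f a θ - g a θ‖ ≤ ε) → IsA c f

/-- RES: the characteristic polynomial of `g(X)` modulo `P(X)`, over any ring (resultants). -/
def Stmt_Res : Prop :=
  ∀ (A : Type u) [CommRing A] (P g : A[X]), P.Monic →
    ∃ Φ : A[X], Φ.Monic ∧ Φ.natDegree = P.natDegree ∧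
      ∀ (Ω : Type u) [Field Ω] (f : A →+* Ω) (s : Multiset Ω),
        P.map f = (s.map fun θ => X - C θ).prod →
        Φ.map f = (s.map fun θ => X - C ((g.map f).eval θ)).prod

/-- RANK: the equation of a piece of the cover (uses DOM, RES). -/
def Stmt_Rank : Prop :=
  ∀ (c : Cov k) (d : ℝ), Sep c d → ∀ E : Tc k → Finset k, (∀ a, E a ⊆ fib c.P a) →
    (IsA c fun a θ => if θ ∈ E a then 1 else 0) →
    ∃ G : (RR k)[X], G.Monic ∧ ∀ a, G.map (evR a) = ∏ θ ∈ E a, (X - C θ)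

/-- BUMP: bump polynomials in characteristic `p`. -/
def Stmt_Bump (p : ℕ) [Fact p.Prime] [CharP k p] : Prop :=
  ∀ (s : Finset k) (r₀ : ℝ) (c₀ : k), 0 < r₀ → c₀ ∈ s →
    (∀ c ∈ s, ∀ c' ∈ s, c ≠ c' → r₀ < ‖c - c'‖) →
    ∃ (f : k[X]) (r : ℝ), 0 ≤ r ∧ r < 1 ∧ ∀ y : k, (‖y - c₀‖ ≤ r₀ → ‖f.eval y - 1‖ ≤ r) ∧
      ∀ c ∈ s, c ≠ c₀ → ‖y - c‖ ≤ r₀ → ‖f.eval y‖ ≤ r

/-- IDEM: a cover on which the functions `y i` are everywhere close to finitely many values splits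
into pieces on which they are nearly constant (uses BUMP, LIMCL). -/
def Stmt_Idem (p : ℕ) [Fact p.Prime] [CharP k p] : Prop :=
  ∀ (c : Cov k) (d : ℝ), Sep c d → ∀ (n : ℕ) (y : Fin (n + 1) → Tc k → k → k),
    (∀ i, IsA c (y i)) → ∀ (r₀ : ℝ) (𝒩 : Fin (n + 1) → Finset k), 0 < r₀ →
    (∀ a : Tc k, ∀ θ ∈ fib c.P a, ∀ i, ∃ b ∈ 𝒩 i, ‖y i a θ - b‖ ≤ r₀) →
    ∃ (Γ : Type u) (_ : Fintype Γ) (Pc : Pieces c Γ) (cc : Γ → Fin (n + 1) → k),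
      ∀ γ, ∀ a : Tc k, ∀ θ ∈ Pc.E γ a, ∀ i, ‖y i a θ - cc γ i‖ ≤ r₀

/-- KRAS: over the circle each piece of the cover is given by an equation with coefficients in
`k[t]`, with a coordinate `tht` which is close to `t ^ N₁ * X` (uses RANK, UNIT, LIMCL). -/
def Stmt_Kras : Prop :=
  ∀ (c : Cov k) (d : ℝ), Sep c d → ∀ (Γ : Type u) [Fintype Γ] (Pc : Pieces c Γ) (ε : ℝ), 0 < ε →
    ∃ (N₁ : ℕ) (G : Γ → k[X][X]) (tht : Tc k → k → k), IsA c tht ∧ (∀ γ, (G γ).Monic) ∧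
      (∀ γ i, gn ((G γ).coeff i) ≤ 1) ∧
      (∀ γ a, (G γ).map (evalRingHom a.1) = ∏ θ ∈ Pc.E γ a, (X - C (tht a θ))) ∧
      ∀ a : Tc k, ∀ θ ∈ fib c.P a, ‖tht a θ - a.1 ^ N₁ * θ‖ ≤ ε

/-- DECO: additive decomposition of functions on the cover over the circle (uses RANK, DEC, LAG,
LIMCL). -/
def Stmt_Deco : Prop :=
  ∀ (c : Cov k) (d : ℝ), Sep c d → ∀ (Γ : Type u) [Fintype Γ] (Pc : Pieces c Γ) (N₁ : ℕ)
    (tht : Tc k → k → k), IsA c tht →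
    (∀ a : Tc k, ∀ θ ∈ fib c.P a, ‖tht a θ - a.1 ^ N₁ * θ‖ ≤ d / 2) →
    ∃ (A : ℝ) (κ : Type u) (_ : Fintype κ) (Y : κ → k[X][X]) (N₂ : ℕ), 0 < A ∧
      ∀ (x : Tc k → k → k) (M : ℝ), IsA c x → 0 ≤ M →
        (∀ a : Tc k, ∀ θ ∈ fib c.P a, ‖x a θ‖ ≤ M) →
        ∃ (g : Γ → (RP k)[X]) (r : κ → RP k), (∀ γ j, ‖(g γ).coeff j‖ ≤ A * M) ∧
          (∀ γ, (g γ).natDegree < c.P.natDegree) ∧ (∀ l, ‖r l‖ ≤ A * M) ∧
          ∀ γ, ∀ a : Tc k, ∀ θ ∈ Pc.E γ a, x a θ = ((g γ).map (evP a.1)).eval (tht a θ) +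
            ∑ l, (a.1)⁻¹ ^ (N₂ + 1) * evP (a.1)⁻¹ (r l) * ev2 a.1 θ (Y l)

/-- GLUE: a function which is given by `gV` outside and by `gD` inside has a characteristic
polynomial with coefficients in `k[t]` (uses RES, INT). -/
def Stmt_Glue : Prop :=
  ∀ (c : Cov k) (d : ℝ), Sep c d → ∀ (Γ : Type u) [Fintype Γ] (Pc : Pieces c Γ)
    (G : Γ → k[X][X]) (tht : Tc k → k → k), (∀ γ, (G γ).Monic) →
    (∀ γ a, (G γ).map (evalRingHom a.1) = ∏ θ ∈ Pc.E γ a, (X - C (tht a θ))) →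
    ∀ (gV : (RV k)[X]) (gD : Γ → (RP k)[X]),
    (∀ γ, ∀ a : Tc k, ∀ θ ∈ Pc.E γ a,
      (gV.map (evV a.1)).eval θ = ((gD γ).map (evP a.1)).eval (tht a θ)) →
    ∃ Φ : k[X][X], Φ.Monic ∧ Φ.natDegree = c.P.natDegree ∧
      ∀ (Ω : Type u) [NormedField Ω] [NormedAlgebra k Ω] [IsUltrametricDist Ω] [CompleteSpace Ω]
        (a : Ω),
        (1 ≤ ‖a‖ → ∀ s : Multiset Ω,
          c.P.map (aeval (R := k) a).toRingHom = (s.map fun θ => X - C θ).prod →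
          Φ.map (aeval (R := k) a).toRingHom =
            (s.map fun θ => X - C ((gV.map (evV a)).eval θ)).prod) ∧
        (‖a‖ ≤ 1 → ∀ s : Γ → Multiset Ω,
          (∀ γ, (G γ).map (aeval (R := k) a).toRingHom = ((s γ).map fun θ => X - C θ).prod) →
          Φ.map (aeval (R := k) a).toRingHom =
            ∏ γ, ((s γ).map fun θ => X - C (((gD γ).map (evP a)).eval θ)).prod)

/-- UNI: a vector space over an infinite field is not a finite union of proper subspaces. -/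
def Stmt_Uni : Prop :=
  ∀ (Ω : Type u) [Field Ω] [Algebra k Ω] (n : ℕ) (s : Multiset (Fin (n + 1) → Ω)),
    (∀ l : Fin (n + 1) → k, ∃ δ ∈ s, ∑ i, algebraMap k Ω (l i) * δ i = 0) → (0 : Fin (n + 1) → Ω) ∈ s

/-- CAP: the main statement of part C (uses SEPC, UNIT, IDEM, KRAS, DECO, GLUE, UNI). -/
def Stmt_Cap (p : ℕ) [Fact p.Prime] [CharP k p] : Prop :=
  ∀ (c : Cov k) (n : ℕ) (N : Fin (n + 1) → k[X][X]) (q : k[X]) (r₀ : ℝ)
    (𝒩 : Fin (n + 1) → Finset k), 0 < r₀ → (∀ a : Tc k, q.eval a.1 ≠ 0) →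
    (∀ a : Tc k, ∀ θ ∈ fib c.P a, ∀ i, ∃ b ∈ 𝒩 i, ‖ev2 a.1 θ (N i) / q.eval a.1 - b‖ ≤ r₀) →
    ∃ (A : ℝ) (D' : ℕ), 0 < A ∧ ∀ e : ℕ,
      ∃ (Z : Fin (n + 1) → Tc k → k → k) (Φ : (Fin (n + 1) → k) → k[X][X]),
        (∀ l, (Φ l).Monic ∧ (Φ l).natDegree = c.P.natDegree) ∧
        (∀ l, ∀ a : Tc k, ∀ θ ∈ fib c.P a, ev2 a.1 (∑ i, l i * Z i a θ) (Φ l) = 0) ∧
        ∀ (Ω : Type u) [NormedField Ω] [NormedAlgebra k Ω] [IsUltrametricDist Ω] [CompleteSpace Ω]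
          [IsAlgClosed Ω] (a : Ω) (ζ : Fin (n + 1) → Ω),
          (∀ l, ev2 a (∑ i, algebraMap k Ω (l i) * ζ i) (Φ l) = 0) → aeval a q ≠ 0 →
          (1 ≤ ‖a‖ → ∃ θ : Ω, ev2 a θ c.P = 0 ∧
            ∀ i, ‖ζ i / aeval a q ^ p ^ e - (ev2 a θ (N i) / aeval a q) ^ p ^ e‖ ≤
              A * r₀ ^ p ^ e * ‖a‖ ^ D') ∧
          (‖a‖ ≤ 1 → ∃ a₀ : Tc k, ∃ θ ∈ fib c.P a₀,
            ∀ i, ‖ζ i / aeval a q ^ p ^ e -
              algebraMap k Ω ((ev2 a₀.1 θ (N i) / q.eval a₀.1) ^ p ^ e)‖ ≤ A * r₀ ^ p ^ e)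

end Pool.Agent.DC
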